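import Pool.Agent.Lib.MP_32d917_al_vf.ADefs
import Pool.Agent.Lib.MP_32d917_al.TL1B
import Pool.Agent.Lib.MP_32d917_al.TL2
import Pool.Agent.Lib.MP_32d917_al.RED

/-!
# A01: quotients of trees by retractions with convex fibres

Tools: ST1, ST2 (`st_adj`, `st_uniq`, `st_next`, `st_cvx_bt`, ...), `red_acyclic`, `red_cut` in RED.

`qG_uniq`: let `x y`, `x' y'` be edges of `R` with `r x = r x' ≠ r y = r y'`. The fibres are convex and
disjoint; the geodesic from `x'` to `x` stays in the fibre of `r x` and the one from `y` to `y'` in the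
fibre of `r y`. If `x ≠ x'` say, then `x', ..., x, y, ..., y'` (concatenation of geodesics through the edge
`x y`) is a geodesic (the vertex `y` is not in the convex fibre of `x`, so `Bt R x' x y`) of length at
least `2`, but `x'`, `y'` are adjacent.

`qG_dist`: `d (x, y) = ` number of the edges of the `R`-geodesic from `x` to `y` which are not collapsed. Upper
bound: the images form a walk. Lower bound: a path of the quotient of length `k` from `r x` to `r y` lifts:
by induction on `k`, for all `x y`: if the quotient has a walk of length `k` from `r x` to `r y` then the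
number of non collapsed edges on the `R`-geodesic is at most `k` (last edge `a b` of the walk, realised by the
`R`-edge `x1 y1`, `r y1 = r y`; the count `c (x, y)` satisfies `c (x, y) ≤ c (x, x1) + 1 + c (y1, y)` and
`c (y1, y) = 0` by convexity; the count is subadditive since in a tree the geodesic from `x` to `y` is contained in
the union of the geodesics from `x` to `m` and from `m` to `y`). It may be convenient to define the count as
`cnt x y = #` edges of the geodesic, by recursion, or as the number of `R`-edges `e` (unordered, not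
collapsed) separating `x` and `y`. Choose what is convenient.

`qG_ta`: connected: images of walks (`r` is surjective by `sec`). Acyclic: e.g. every edge is a bridge, or
by `qG_dist`, `qG_uniq`. No inversions: if `g` exchanges `a`, `b` (adjacent in the quotient) it maps the unique
`R`-edge between the fibres (`qG_uniq`) to itself, exchanging its ends, against `noinv` for `R`.
-/

set_option autoImplicit false

namespace VF

open LatIso LatN

section

variable {G : Type} [Group G] {U V : Type} [MulAction G U] [MulAction G V] {R : SimpleGraph U}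
  {φ : V → U} {r : U → V}

theorem a01_side (hS : R.IsTree) (h : Retr G R φ r) {u w : U} (hA : R.Adj u w)
    (hr : r u ≠ r w) (y z : U) (hyz : r y = r z) (hy : R.dist y u < R.dist y w) :
    R.dist z u < R.dist z w := by
  by_contra hz
  have b2 := st_adj hS hA z
  have b1 := st_adj hS hA y
  have huw : R.dist u w = 1 := SimpleGraph.dist_eq_one_iff_adj.mpr hA
  have hwu : R.dist w u = 1 := SimpleGraph.dist_eq_one_iff_adj.mpr hA.symm
  have c1 : R.dist u z = R.dist z u := SimpleGraph.dist_comm
  have c2 : R.dist w z = R.dist z w := SimpleGraph.dist_comm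
  have hb : Bt R y u w := by unfold Bt; omega
  have hyuz : Bt R y u z := by
    rcases st_bt hS hb z with h1 | h1
    · exact h1
    · unfold Bt at h1
      omega
  have hywz : Bt R y w z := by
    unfold Bt at *
    omega
  have e1 := h.cvx y z u hyz hyuz
  have e2 := h.cvx y z w hyz hywz
  exact hr (e1.trans e2.symm)

theorem a01_side' (hS : R.IsTree) (h : Retr G R φ r) {u w : U} (hA : R.Adj u w)
    (hr : r u ≠ r w) (y : U) :
    R.dist y u < R.dist y w ↔ R.dist (φ (r y)) u < R.dist (φ (r y)) w :=
  ⟨fun h1 => a01_side hS h hA hr y (φ (r y)) (h.sec _).symm h1,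
    fun h1 => a01_side hS h hA hr (φ (r y)) y (h.sec _) h1⟩

theorem qG_uniq (hR : R.IsTree) (h : Retr G R φ r) {x y x' y' : U} (h1 : R.Adj x y) (h2 : R.Adj x' y')
    (hne : r x ≠ r y) (hx : r x' = r x) (hy : r y' = r y) : x' = x ∧ y' = y := by
  have huw : R.dist x y = 1 := SimpleGraph.dist_eq_one_iff_adj.mpr h1
  have huw' : R.dist y x = 1 := SimpleGraph.dist_eq_one_iff_adj.mpr h1.symm
  refine red_cut hR h1 h2 ?_ ?_
  · refine a01_side hR h h1 hne x x' hx.symm ?_
    rw [SimpleGraph.dist_self, huw]
    omega
  · refine a01_side hR h h1.symm hne.symm y y' hy.symm ?_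
    rw [SimpleGraph.dist_self, huw']
    omega

/-- the side of a vertex of the quotient with respect to the edge `u w` changes only along this edge -/
theorem a01_cut (hR : R.IsTree) (h : Retr G R φ r) {u w : U} (hA : R.Adj u w) (hr : r u ≠ r w) :
    (R.dist (φ (r u)) u < R.dist (φ (r u)) w) ∧ (¬ R.dist (φ (r w)) u < R.dist (φ (r w)) w) ∧
    ∀ a' b', (qG R r).Adj a' b' → R.dist (φ a') u < R.dist (φ a') w →
      ¬ R.dist (φ b') u < R.dist (φ b') w → a' = r u ∧ b' = r w := by
  refine ⟨?_, ?_, ?_⟩
  · rw [← a01_side' hR h hA hr u, SimpleGraph.dist_self,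
      SimpleGraph.dist_eq_one_iff_adj.mpr hA]
    omega
  · rw [← a01_side' hR h hA hr w, SimpleGraph.dist_self]
    omega
  · rintro a' b' ⟨hab', u', w', h', rfl, rfl⟩ h1 h2
    rw [← a01_side' hR h hA hr u'] at h1
    rw [← a01_side' hR h hA hr w'] at h2
    have b2 := st_adj hR hA w'
    obtain ⟨e1, e2⟩ := red_cut hR hA h' h1 (by omega)
    rw [e1, e2]
    exact ⟨rfl, rfl⟩

theorem a01_tree (hR : R.IsTree) (h : Retr G R φ r) : (qG R r).IsTree := by
  refine ⟨?_, red_acyclic _ ?_⟩
  · haveI : Nonempty U := hR.1.nonempty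
    have : Nonempty V := ⟨r (Classical.arbitrary U)⟩
    rw [SimpleGraph.connected_iff_exists_forall_reachable]
    refine ⟨r (Classical.arbitrary U), ?_⟩
    have key : ∀ {x y : U} (p : R.Walk x y), (qG R r).Reachable (r x) (r y) := by
      intro x y p
      induction p with
      | nil => exact SimpleGraph.Reachable.refl _
      | @cons x z y hxz q ih =>
        by_cases hh : r x = r z
        · rw [hh]; exact ih
        · refine SimpleGraph.Reachable.trans ?_ ih
          exact SimpleGraph.Adj.reachable (G := qG R r) ⟨hh, x, z, hxz, rfl, rfl⟩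
    intro w
    obtain ⟨p⟩ := hR.1.preconnected (Classical.arbitrary U) (φ w)
    have := key p
    rwa [h.sec] at this
  · rintro a b ⟨hab, u, w, hA, rfl, rfl⟩
    obtain ⟨h1, h2, h3⟩ := a01_cut hR h hA hab
    exact ⟨fun c => R.dist (φ c) u < R.dist (φ c) w, h1, h2, h3⟩

theorem a01_walk {W : Type} {Q : SimpleGraph W} (hc : Q.Connected) {a b : W} (P : W → Prop)
    (hP : ∀ a' b', Q.Adj a' b' → P a' → ¬ P b' → a' = a ∧ b' = b) {z w : W} (p : Q.Walk z w)
    (hz : P z) (hw : ¬ P w) : Q.dist z a + 1 ≤ p.length := by
  induction p with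
  | nil => exact absurd hz hw
  | @cons z z' w hzz q ih =>
    rw [SimpleGraph.Walk.length_cons]
    by_cases h1 : P z'
    · have h2 := ih h1 hw
      have h3 : Q.dist z a ≤ Q.dist z z' + Q.dist z' a := hc.dist_triangle
      have h4 : Q.dist z z' = 1 := SimpleGraph.dist_eq_one_iff_adj.mpr hzz
      omega
    · have h2 := hP z z' hzz hz h1
      rw [h2.1, SimpleGraph.dist_self]
      omega

open Classical in
theorem qG_dist (hR : R.IsTree) (h : Retr G R φ r) (γ : ℕ → U) (n : ℕ)
    (hγ : ∀ i < n, R.Adj (γ i) (γ (i + 1))) (hd : R.dist (γ 0) (γ n) = n) :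
    (qG R r).dist (r (γ 0)) (r (γ n)) =
      ((Finset.range n).filter fun i => r (γ i) ≠ r (γ (i + 1))).card := by
  have hQ := a01_tree hR h
  induction n with
  | zero => simp
  | succ n ih =>
    have hup : ∀ m, m ≤ n + 1 → R.dist (γ 0) (γ m) ≤ m := by
      intro m
      induction m with
      | zero => intro _; simp
      | succ m ihm =>
        intro hm
        have h1 := ihm (by omega)
        have h2 : R.dist (γ 0) (γ (m + 1)) ≤ R.dist (γ 0) (γ m) + R.dist (γ m) (γ (m + 1)) :=
          hR.connected.dist_triangle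
        have h3 : R.dist (γ m) (γ (m + 1)) = 1 :=
          SimpleGraph.dist_eq_one_iff_adj.mpr (hγ m (by omega))
        omega
    have hadj := hγ n (by omega)
    have h1 : R.dist (γ n) (γ (n + 1)) = 1 := SimpleGraph.dist_eq_one_iff_adj.mpr hadj
    have h2 : R.dist (γ 0) (γ (n + 1)) ≤ R.dist (γ 0) (γ n) + R.dist (γ n) (γ (n + 1)) :=
      hR.connected.dist_triangle
    have h3 := hup n (by omega)
    have hdn : R.dist (γ 0) (γ n) = n := by omega
    have ih' := ih (fun i hi => hγ i (by omega)) hdn
    rw [Finset.range_add_one, Finset.filter_insert]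
    by_cases hr : r (γ n) = r (γ (n + 1))
    · rw [if_neg (by simpa using hr), ← hr]
      exact ih'
    · rw [if_pos hr, Finset.card_insert_of_notMem (by simp), ← ih']
      have hQadj : (qG R r).Adj (r (γ n)) (r (γ (n + 1))) := ⟨hr, _, _, hadj, rfl, rfl⟩
      have h4 := st_adj hQ hQadj (r (γ 0))
      obtain ⟨c1, c2, c3⟩ := a01_cut hR h hadj hr
      obtain ⟨p, hp⟩ := hQ.connected.exists_walk_length_eq_dist (r (γ 0)) (r (γ (n + 1)))
      have hz : R.dist (φ (r (γ 0))) (γ n) < R.dist (φ (r (γ 0))) (γ (n + 1)) := by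
        rw [← a01_side' hR h hadj hr]
        omega
      have h5 := a01_walk hQ.connected
        (fun c => R.dist (φ c) (γ n) < R.dist (φ c) (γ (n + 1))) c3 p hz c2
      omega

theorem qG_ta (hR : TA G R) (h : Retr G R φ r) : TA G (qG R r) := by
  refine ⟨a01_tree hR.tree h, ?_, ?_⟩
  · rintro g a b ⟨hab, u, w, hA, rfl, rfl⟩
    refine ⟨?_, g • u, g • w, hR.adj g u w hA, h.equ g u, h.equ g w⟩
    intro hh
    exact hab (MulAction.injective g hh)
  · rintro g a b ⟨hab, u, w, hA, rfl, rfl⟩ h1 h2
    have e := qG_uniq hR.tree h hA.symm (hR.adj g u w hA) hab.symm (by rw [h.equ, h1])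
      (by rw [h.equ, h2])
    exact hR.noinv g u w hA e.1 e.2

end

end VF
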