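import Pool.Agent.Lib.MP_32d917_al_vf.A01

/-!
# A02: translation lengths in quotients

`qG_tl`: put `T` = right hand side. For `k : ℕ` the sequence `b 0, ..., b (k t)` (`t = tl R w`) is a geodesic, so by
`qG_dist` and periodicity (`r (b (i + t)) = w • r (b i)`) the distance of `r (b 0)` and
`w ^ k • r (b 0)` is `k * T`. If `T = 0` then `w` fixes `r (b 0)` (`tl_eq_zero`). If `T > 0` then
`d (x, w ^ 2 x) = 2 d (x, w x) > 0` for `x = r (b 0)` and `tl_axis` (TL1) gives `tl = T` (or use `tl_disp`).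

`qG_tl0`: `w` fixes a vertex of `R`, hence its image.

`ecn_ax`: two axes of `w` in the sense of `IsAx` differ by a shift: the range of `b` is `CC R w` (see
`tl_line`), so `b' i = b (i + c)` or `b' i = b (c - i)`, the second is impossible because `w` shifts both by
`+ t`. The number of `i` in a period with a periodic property does not depend on the start
(`EOrb G x y (b (i + t)) (b (i + t + 1))` iff the same with `i`).

`qG_len1`, `qG_len2`: sum of `qG_tl`, `ecn_ax` over `W`; elements with `tl R w = 0` contribute `0` everywhere.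
-/

set_option autoImplicit false

namespace VF

open LatIso LatN

section

variable {G : Type} [Group G] {U V : Type} [MulAction G U] [MulAction G V] {R : SimpleGraph U}
  {φ : V → U} {r : U → V}

theorem isAx_exists (hR : TA G R) (w : G) (hw : 0 < tl R w) : ∃ b, IsAx G R w b := by
  obtain ⟨b, h1, h2, _⟩ := tl_line hR w hw
  exact ⟨b, hw, h1, h2⟩

theorem isAx_adj (hR : TA G R) {w : G} {b : ℤ → U} (hb : IsAx G R w b) (i : ℤ) :
    R.Adj (b i) (b (i + 1)) := by
  rw [← SimpleGraph.dist_eq_one_iff_adj, hb.2.1]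
  omega

theorem a02_shift (f : ℤ → ℕ) (t : ℕ) (hf : ∀ i, f (i + t) = f i) (d : ℤ) :
    ∑ i ∈ Finset.range t, f (i + d) = ∑ i ∈ Finset.range t, f i := by
  have step : ∀ d : ℤ, ∑ i ∈ Finset.range t, f (i + (d + 1)) = ∑ i ∈ Finset.range t, f (i + d) := by
    intro d
    have h1 := Finset.sum_range_succ (fun i : ℕ => f (i + d)) t
    have h2 := Finset.sum_range_succ' (fun i : ℕ => f (i + d)) t
    have h3 : f ((t : ℤ) + d) = f (((0 : ℕ) : ℤ) + d) := by
      rw [Nat.cast_zero, zero_add, add_comm]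
      exact hf d
    have h4 : ∑ i ∈ Finset.range t, f (i + (d + 1)) =
        ∑ i ∈ Finset.range t, f (((i + 1 : ℕ) : ℤ) + d) := by
      apply Finset.sum_congr rfl
      intro i _
      congr 1
      push_cast
      ring
    rw [h4]
    rw [h3] at h1
    omega
  induction d using Int.induction_on with
  | zero => simp
  | succ n ih => rw [step, ih]
  | pred n ih =>
    rw [← ih, ← step (-(n : ℤ) - 1)]
    apply Finset.sum_congr rfl
    intro i _
    congr 1
    ring

theorem a02_per (f : ℤ → ℕ) (t : ℕ) (hf : ∀ i, f (i + t) = f i) (k : ℕ) :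
    ∑ i ∈ Finset.range (k * t), f i = k * ∑ i ∈ Finset.range t, f i := by
  induction k with
  | zero => simp
  | succ k ih =>
    rw [Nat.succ_mul, Finset.sum_range_add, ih, Nat.succ_mul]
    congr 1
    have h1 := a02_shift f t hf ((k * t : ℕ) : ℤ)
    rw [← h1]
    apply Finset.sum_congr rfl
    intro i _
    congr 1
    push_cast
    ring

theorem a02_pow {w : G} {b : ℤ → U} (hb : IsAx G R w b) (k : ℕ) (i : ℤ) :
    w ^ k • b i = b (i + k * (tl R w : ℤ)) := by
  induction k with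
  | zero => simp
  | succ k ih =>
    rw [pow_succ', mul_smul, ih, hb.2.2]
    congr 1
    push_cast
    ring

open Classical in
theorem a02_cper (p : ℤ → Prop) (t : ℕ) (hp : ∀ i, p (i + t) ↔ p i) (k : ℕ) :
    ((Finset.range (k * t)).filter fun i : ℕ => p i).card =
      k * ((Finset.range t).filter fun i : ℕ => p i).card := by
  rw [Finset.card_filter, Finset.card_filter]
  exact a02_per (fun i : ℤ => if p i then 1 else 0) t (fun i => by simp only [hp]) k

open Classical in
theorem a02_cshift (p : ℤ → Prop) (t : ℕ) (hp : ∀ i, p (i + t) ↔ p i) (d : ℤ) :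
    ((Finset.range t).filter fun i : ℕ => p (i + d)).card =
      ((Finset.range t).filter fun i : ℕ => p i).card := by
  rw [Finset.card_filter, Finset.card_filter]
  exact a02_shift (fun i : ℤ => if p i then 1 else 0) t (fun i => by simp only [hp]) d

open Classical in
theorem qG_tl (hR : TA G R) (h : Retr G R φ r) (w : G) (b : ℤ → U) (hb : IsAx G R w b) :
    tl (qG R r) w = ((Finset.range (tl R w)).filter fun i : ℕ => r (b i) ≠ r (b (i + 1))).card := by
  have hQ := qG_ta hR h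
  have hper : ∀ i : ℤ, (fun i : ℤ => r (b i) ≠ r (b (i + 1))) (i + (tl R w : ℤ)) ↔
      (fun i : ℤ => r (b i) ≠ r (b (i + 1))) i := by
    intro i
    have e1 : b (i + (tl R w : ℤ)) = w • b i := (hb.2.2 i).symm
    have e2 : b (i + (tl R w : ℤ) + 1) = w • b (i + 1) := by
      rw [hb.2.2]
      congr 1
      ring
    simp only [e1, e2, h.equ, ne_eq, smul_left_cancel_iff]
  have hk : ∀ k : ℕ, (qG R r).dist (r (b 0)) (w ^ k • r (b 0)) =
      k * ((Finset.range (tl R w)).filter fun i : ℕ => r (b i) ≠ r (b (i + 1))).card := by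
    intro k
    have h1 := qG_dist hR.tree h (fun i : ℕ => b i) (k * tl R w)
      (fun i _ => by
        have := isAx_adj hR hb (i : ℤ)
        push_cast
        exact this)
      (by
        rw [hb.2.1]
        push_cast
        omega)
    have h2 : b ((k * tl R w : ℕ) : ℤ) = w ^ k • b 0 := by
      rw [a02_pow hb]
      congr 1
      push_cast
      ring
    have h3 : ((Finset.range (k * tl R w)).filter fun i : ℕ => r (b i) ≠ r (b ((i + 1 : ℕ) : ℤ))).card
        = k * ((Finset.range (tl R w)).filter fun i : ℕ => r (b i) ≠ r (b (i + 1))).card := by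
      have e := a02_cper (fun i : ℤ => r (b i) ≠ r (b (i + 1))) (tl R w) hper k
      refine Eq.trans (congrArg Finset.card (Finset.ext fun i => ?_)) (Eq.trans e ?_)
      · simp only [Finset.mem_filter, Nat.cast_add, Nat.cast_one]
      · refine congrArg (k * ·) (congrArg Finset.card (Finset.ext fun i => ?_))
        simp only [Finset.mem_filter]
    rw [← h3, ← h.equ, ← h2]
    rw [← h1]
    simp
  have hk1 := hk 1
  have hk2 := hk 2
  rw [pow_one, one_mul] at hk1
  rw [pow_two, mul_smul] at hk2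
  generalize ((Finset.range (tl R w)).filter fun i : ℕ => r (b i) ≠ r (b (i + 1))).card = T at *
  rcases Nat.eq_zero_or_pos T with h0 | h0
  · rw [h0] at hk1 ⊢
    rw [tl_eq_zero hQ]
    exact ⟨r (b 0), (st1_eq hQ.tree hk1).symm⟩
  · have h1 := tl_axis hQ w (r (b 0)) (by rw [hk1]; exact h0) (by rw [hk2, hk1])
    have h2 : (qG R r).dist (r (b 0)) (w • r (b 0)) = tl (qG R r) w := h1
    rw [← h2, hk1]

theorem qG_tl0 (hR : TA G R) (h : Retr G R φ r) (w : G) (hw : tl R w = 0) : tl (qG R r) w = 0 := by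
  rw [tl_eq_zero hR] at hw
  obtain ⟨x, hx⟩ := hw
  rw [tl_eq_zero (qG_ta hR h)]
  exact ⟨r x, by rw [← h.equ, hx]⟩

theorem a02_ax (hR : TA G R) {w : G} {b b' : ℤ → U} (hb : IsAx G R w b) (hb' : IsAx G R w b') :
    ∃ c : ℤ, ∀ i, b' i = b (i + c) := by
  have key : ∀ b0 : ℤ → U, (∀ i j, R.dist (b0 i) (b0 j) = (i - j).natAbs) →
      (∀ i, w • b0 i = b0 (i + tl R w)) → (∀ x, x ∈ CC R w ↔ ∃ i, b0 i = x) →
      ∀ b : ℤ → U, IsAx G R w b → ∃ c : ℤ, ∀ i, b i = b0 (i + c) := by
    intro b0 h1 h2 h3 b hb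
    have hinj : ∀ i j, b0 i = b0 j → i = j := by
      intro i j hij
      have := h1 i j
      rw [hij, SimpleGraph.dist_self] at this
      omega
    have hmem : ∀ i, ∃ j, b0 j = b i := by
      intro i
      rw [← h3]
      change R.dist (b i) (w • b i) = tl R w
      rw [hb.2.2, hb.2.1]
      omega
    choose σ hσ using hmem
    have hd : ∀ i j, (σ i - σ j).natAbs = (i - j).natAbs := by
      intro i j
      rw [← h1, hσ, hσ, hb.2.1]
    have hs : ∀ i, σ (i + tl R w) = σ i + tl R w := by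
      intro i
      apply hinj
      rw [hσ, ← h2, hσ, hb.2.2]
    have hs' : ∀ k : ℕ, σ ((k : ℤ) * tl R w) = σ 0 + k * tl R w := by
      intro k
      induction k with
      | zero => simp
      | succ k ih =>
        have e : ((k + 1 : ℕ) : ℤ) * (tl R w : ℤ) = (k : ℤ) * tl R w + tl R w := by
          push_cast
          ring
        rw [e, hs, ih]
        ring
    refine ⟨σ 0, fun i => ?_⟩
    rw [← hσ i]
    congr 1
    have h4 := hd i ((i.natAbs + 1 : ℕ) * (tl R w : ℤ))
    rw [hs'] at h4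
    have h5 := hd i 0
    have h6 : (i.natAbs : ℤ) < ((i.natAbs + 1 : ℕ) : ℤ) * (tl R w : ℤ) := by
      have h7 : (1 : ℤ) ≤ (tl R w : ℤ) := by
        have := hb.1
        omega
      push_cast
      nlinarith [abs_nonneg i]
    generalize ((i.natAbs + 1 : ℕ) : ℤ) * (tl R w : ℤ) = K at h4 h6
    omega
  obtain ⟨b0, h1, h2, h3⟩ := tl_line hR w hb.1
  obtain ⟨c, hc⟩ := key b0 h1 h2 h3 b hb
  obtain ⟨c', hc'⟩ := key b0 h1 h2 h3 b' hb'
  refine ⟨c' - c, fun i => ?_⟩
  rw [hc', hc]
  congr 1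
  ring

theorem a02_eorb_smul {x y a b : U} (g : G) : EOrb G x y (g • a) (g • b) ↔ EOrb G x y a b := by
  constructor
  · rintro ⟨k, ⟨h1, h2⟩ | ⟨h1, h2⟩⟩
    · exact ⟨g⁻¹ * k, Or.inl ⟨by rw [mul_smul, h1, inv_smul_smul],
        by rw [mul_smul, h2, inv_smul_smul]⟩⟩
    · exact ⟨g⁻¹ * k, Or.inr ⟨by rw [mul_smul, h1, inv_smul_smul],
        by rw [mul_smul, h2, inv_smul_smul]⟩⟩
  · rintro ⟨k, ⟨h1, h2⟩ | ⟨h1, h2⟩⟩
    · exact ⟨g * k, Or.inl ⟨by rw [mul_smul, h1], by rw [mul_smul, h2]⟩⟩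
    · exact ⟨g * k, Or.inr ⟨by rw [mul_smul, h1], by rw [mul_smul, h2]⟩⟩

theorem a02_eorb_symm {x y a b : U} (h : EOrb G x y a b) : EOrb G a b x y := by
  obtain ⟨k, ⟨h1, h2⟩ | ⟨h1, h2⟩⟩ := h
  · exact ⟨k⁻¹, Or.inl ⟨by rw [← h1, inv_smul_smul], by rw [← h2, inv_smul_smul]⟩⟩
  · exact ⟨k⁻¹, Or.inr ⟨by rw [← h2, inv_smul_smul], by rw [← h1, inv_smul_smul]⟩⟩

theorem a02_eorb_trans {x y a b c d : U} (h : EOrb G x y a b) (h' : EOrb G a b c d) :
    EOrb G x y c d := by
  obtain ⟨k, ⟨h1, h2⟩ | ⟨h1, h2⟩⟩ := h <;> obtain ⟨l, ⟨h3, h4⟩ | ⟨h3, h4⟩⟩ := h'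
  · exact ⟨l * k, Or.inl ⟨by rw [mul_smul, h1, h3], by rw [mul_smul, h2, h4]⟩⟩
  · exact ⟨l * k, Or.inr ⟨by rw [mul_smul, h1, h3], by rw [mul_smul, h2, h4]⟩⟩
  · exact ⟨l * k, Or.inr ⟨by rw [mul_smul, h1, h4], by rw [mul_smul, h2, h3]⟩⟩
  · exact ⟨l * k, Or.inl ⟨by rw [mul_smul, h1, h4], by rw [mul_smul, h2, h3]⟩⟩

open Classical in
theorem a02_cast (n : ℕ) (i : ℤ) : (i ∈ (do let a ← Finset.range n; pure (a : ℤ) : Finset ℤ)) ↔
    ∃ a ∈ Finset.range n, (a : ℤ) = i := by
  simp only [Finset.bind_def, Finset.pure_def, Finset.mem_sup, Finset.mem_singleton]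
  constructor
  · rintro ⟨a, ha, rfl⟩
    exact ⟨a, ha, rfl⟩
  · rintro ⟨a, ha, rfl⟩
    exact ⟨a, ha, rfl⟩

open Classical in
theorem ecn_ax (hR : TA G R) (w : G) (b : ℤ → U) (hb : IsAx G R w b) (x y : U) :
    ecn G R x y w = ((Finset.range (tl R w)).filter fun i : ℕ => EOrb G x y (b i) (b (i + 1))).card := by
  have h : ∃ b : ℤ → U, IsAx G R w b := ⟨b, hb⟩
  have e : ecn G R x y w = ((Finset.range (tl R w)).filter fun i : ℕ =>
      EOrb G x y (h.choose i) (h.choose (i + 1))).card := by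
    unfold ecn
    rw [dif_pos h]
    symm
    refine Finset.card_bij (fun i _ => (i : ℤ)) ?_ ?_ ?_
    · intro i hi
      rw [Finset.mem_filter] at hi ⊢
      exact ⟨(a02_cast _ _).mpr ⟨i, hi.1, rfl⟩, hi.2⟩
    · intro i _ j _ hij
      exact Nat.cast_injective hij
    · intro i hi
      rw [Finset.mem_filter] at hi
      obtain ⟨a, ha, rfl⟩ := (a02_cast _ _).mp hi.1
      exact ⟨a, Finset.mem_filter.mpr ⟨ha, hi.2⟩, rfl⟩
  rw [e]
  obtain ⟨c, hc⟩ := a02_ax hR hb h.choose_spec
  rw [← a02_cshift (fun i : ℤ => EOrb G x y (b i) (b (i + 1))) (tl R w) ?_ c]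
  · apply congrArg Finset.card
    apply Finset.filter_congr
    intro i _
    simp only [hc]
    have e1 : (i : ℤ) + 1 + c = i + c + 1 := by ring
    rw [e1]
  · intro i
    have e1 : b (i + (tl R w : ℤ)) = w • b i := (hb.2.2 i).symm
    have e2 : b (i + (tl R w : ℤ) + 1) = w • b (i + 1) := by
      rw [hb.2.2]
      congr 1
      ring
    simp only [e1, e2, a02_eorb_smul]

theorem ecn_zero (w : G) (hw : tl R w = 0) (x y : U) : ecn G R x y w = 0 := by
  unfold ecn
  rw [dif_neg]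
  rintro ⟨b, hb⟩
  have := hb.1
  omega

/-- `ecN` only depends on the orbit of the edge -/
theorem ecN_orb {ι : Type} [Fintype ι] (W : ι → G) {x y x' y' : U} (h : EOrb G x y x' y') :
    ecN G R x y W = ecN G R x' y' W := by
  have h1 : ∀ a b : U, EOrb G x y a b ↔ EOrb G x' y' a b := fun a b =>
    ⟨fun h2 => a02_eorb_trans (a02_eorb_symm h) h2, fun h2 => a02_eorb_trans h h2⟩
  unfold ecN
  apply Finset.sum_congr rfl
  intro i _
  unfold ecn
  by_cases h2 : ∃ b : ℤ → U, IsAx G R (W i) b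
  · rw [dif_pos h2, dif_pos h2]
    refine congrArg Finset.card (Finset.ext fun j => ?_)
    simp only [Finset.mem_filter, h1]
  · rw [dif_neg h2, dif_neg h2]

theorem a02_one (hR : TA G R) (h : Retr G R φ r) (w : G) (x y x' y' : U)
    (hne : ¬ EOrb G x y x' y')
    (hc : ∀ a b, R.Adj a b → (r a = r b ↔ EOrb G x y a b ∨ EOrb G x' y' a b)) :
    tl (qG R r) w + ecn G R x y w + ecn G R x' y' w = tl R w := by
  classical
  rcases Nat.eq_zero_or_pos (tl R w) with h0 | h0
  · rw [qG_tl0 hR h w h0, ecn_zero w h0, ecn_zero w h0, h0]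
  · obtain ⟨b, hb⟩ := isAx_exists hR w h0
    rw [qG_tl hR h w b hb, ecn_ax hR w b hb x y, ecn_ax hR w b hb x' y']
    rw [Finset.card_filter, Finset.card_filter, Finset.card_filter, ← Finset.sum_add_distrib,
      ← Finset.sum_add_distrib]
    conv_rhs => rw [← Finset.card_range (tl R w), Finset.card_eq_sum_ones]
    apply Finset.sum_congr rfl
    intro i _
    have h1 := hc _ _ (isAx_adj hR hb (i : ℤ))
    by_cases h2 : EOrb G x y (b i) (b (i + 1))
    · have h3 : ¬ EOrb G x' y' (b i) (b (i + 1)) := fun h4 =>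
        hne (a02_eorb_trans h2 (a02_eorb_symm h4))
      have h5 : r (b i) = r (b (i + 1)) := h1.mpr (Or.inl h2)
      simp [h2, h3, h5]
    · by_cases h3 : EOrb G x' y' (b i) (b (i + 1))
      · have h5 : r (b i) = r (b (i + 1)) := h1.mpr (Or.inr h3)
        simp [h2, h3, h5]
      · have h5 : r (b i) ≠ r (b (i + 1)) := fun h6 => (h1.mp h6).elim h2 h3
        simp [h2, h3, h5]

theorem a02_one1 (hR : TA G R) (h : Retr G R φ r) (w : G) (x y : U)
    (hc : ∀ a b, R.Adj a b → (r a = r b ↔ EOrb G x y a b)) :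
    tl (qG R r) w + ecn G R x y w = tl R w := by
  classical
  rcases Nat.eq_zero_or_pos (tl R w) with h0 | h0
  · rw [qG_tl0 hR h w h0, ecn_zero w h0, h0]
  · obtain ⟨b, hb⟩ := isAx_exists hR w h0
    rw [qG_tl hR h w b hb, ecn_ax hR w b hb x y]
    rw [Finset.card_filter, Finset.card_filter, ← Finset.sum_add_distrib]
    conv_rhs => rw [← Finset.card_range (tl R w), Finset.card_eq_sum_ones]
    apply Finset.sum_congr rfl
    intro i _
    have h1 := hc _ _ (isAx_adj hR hb (i : ℤ))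
    by_cases h2 : EOrb G x y (b i) (b (i + 1))
    · have h5 : r (b i) = r (b (i + 1)) := h1.mpr h2
      simp [h2, h5]
    · have h5 : r (b i) ≠ r (b (i + 1)) := fun h6 => h2 (h1.mp h6)
      simp [h2, h5]

theorem qG_len1 (hR : TA G R) (h : Retr G R φ r) {ι : Type} [Fintype ι] (W : ι → G) (x y : U)
    (hc : ∀ a b, R.Adj a b → (r a = r b ↔ EOrb G x y a b)) :
    len G (qG R r) W + ecN G R x y W = len G R W := by
  unfold len ecN
  rw [← Finset.sum_add_distrib]
  exact Finset.sum_congr rfl fun i _ => a02_one1 hR h (W i) x y hc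

theorem qG_len2 (hR : TA G R) (h : Retr G R φ r) {ι : Type} [Fintype ι] (W : ι → G) (x y x' y' : U)
    (hne : ¬ EOrb G x y x' y')
    (hc : ∀ a b, R.Adj a b → (r a = r b ↔ EOrb G x y a b ∨ EOrb G x' y' a b)) :
    len G (qG R r) W + ecN G R x y W + ecN G R x' y' W = len G R W := by
  unfold len ecN
  rw [← Finset.sum_add_distrib, ← Finset.sum_add_distrib]
  exact Finset.sum_congr rfl fun i _ => a02_one hR h (W i) x y x' y' hne hc

end

end VF
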