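import Pool.Agent.Lib.MP_32d917_al_vf.A01

/-!
# A03: two retractions of one tree differ by a Whitehead move

`Z = {x | r x = v ∧ r' x = u}` is convex (intersection of two convex fibres) and not empty.

Gates. Every vertex `x` of `Z` has, on its geodesic to `φ v`, a last vertex in `Z`, the gate `z1` of `Z`
towards `φ v` (the vertex of `Z` nearest to `φ v`; all geodesics from `Z` to `φ v` pass through it, as
`Z` is convex and `φ v ∉ Z` because `r' (φ v) = v ≠ u`). The next vertex `x1` has `r x1 = v`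
(convexity of the fibre of `v` under `r`) and `r' x1 = v`: otherwise `r x1 ≠ r' x1`, so `g x1 ∈ Z` for
some `g`, so `x1 ∈ g⁻¹ Z` with `g v = v` (as `r x1 = v`); the sets `Z` and `g⁻¹ Z ≠ Z` have the same
distance to `φ v` (`g` fixes `φ v`), the distances of adjacent vertices `z1 ∈ Z`, `x1 ∈ g⁻¹ Z` to `φ v`
differ by one and `x1` is closer; contradiction since `z1` is a nearest vertex of `Z`, and `x1` would be nearer
than the distance of `g⁻¹ Z`. Generally: two different translates of `Z` inside one fibre of `r` (or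
inside one fibre of `r'`) are not adjacent: say `x ∈ Z`, `x' ∈ g Z` adjacent with `x'` nearer to `φ v`; then the
geodesic from `x` to `φ v` passes through `x'`, so `x` is the gate of `Z`, and the distance of `x'` to
`φ v` is smaller than the distance of `Z`, which is the distance of `g Z`.
Symmetrically for `φ u` and the fibre of `u` under `r'`: the gate `z0` of `Z` towards `φ u` and the next
vertex `x0` with `r x0 = r' x0 = u`.

So (i) `u ∈ A`, `qG R r` has the edge `v u`, realised by the `R`-edge `z0 x0` only (`qG_uniq`); (ii) the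
edge `z1 x1` realises the edge `u v` of `qG R r'` (only it).

`WD`: `stab`: if `g` fixes `v` and `u` then `g Z = Z`. `disj`: if `x, g x ∈ A`, `g v = v`: `x` comes from the edge
`(y, y')`, `y ∈ Z`, and `g x` from `(y1, y1')`, `y1 ∈ Z`; `(g y, g y')` and `(y1, y1')` are edges between the same
fibres, so `g y = y1` and `u = r' y1 = g r' y = g u`. `inv`: let `g v = u` and `g⁻¹ v ∈ A`, from the edge
`(y, y')`, `y ∈ Z`, `r y' = g⁻¹ v`. Then `(g y', g y)` is an edge between the fibres of `v` and of `u`, so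
`g y = x0`; so `u = r' x0 = g r' y = g u = g g v`... precisely `r' (g y) = g u` and `r' x0 = u`, so `g u = u = g v`,
`u = v`, contradiction.

The graph. Edges of `qG R r'` are given by `R`-edges `x y` with `r' x ≠ r' y`.
* If `r x ≠ r y`: the edge `r x, r y` of `qG R r`; a vertex `x` with `r x ≠ r' x` is `g z` with `z ∈ Z`,
  `r x = g v`, `g⁻¹ r y ∈ A`, and `g⁻¹ r y ≠ u`, since otherwise the edge is `(g z0, g x0)` and `r' y = g u = r' x`;
  so the end is moved to `g u = r' x` (`Mvd`). Conversely if `Mvd` holds for the end at `r x` with the element `g`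
  then `g⁻¹ x ∈ Z` by `qG_uniq`, and `r' x = g u`. So `NEnd G v u A (r x) (r y) (r' x)`, and the same for `y`.
* If `r x = r y`: one of `x`, `y` is moved, say `x = g z`, `z ∈ Z` (if both are moved and in different translates
  of `Z` they are not adjacent by the above; in the same translate `r' x = r' y`). Then `y` is not moved, `r' y =
  r y = g v`, so the edge is `g u, g v`, which is an edge of `whG` (from the edge `u v` of `qG R r`: neither end
  is moved: at `v` because of `≠ u`; at `u` because of `inv`).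
Conversely every edge of `whG` comes from an edge `a b` of `qG R r`, realised by `x y`; if the new ends are
`r' x ≠ r' y` fine (by the above); if `r' x = r' y` then the edge is in the orbit of `(z0, x0)` (the ends `a`,
`b` are different and `r' x = r' y`, so say `x = g z`, `z ∈ Z`; if `y` is not moved then `r y = g u` and the edge is
`(g z0, g x0)`; if `y` is moved too, `y = g' z'`, `g' u = g u`; then `g Z` and `g' Z` are in the fibre of `g u` of
`r'`, different, adjacent: impossible), and `whG` gives `g v, g u`, which is realised by `(g x1, g z1)`.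
-/

set_option autoImplicit false

namespace VF

open LatIso LatN

section

variable {G : Type} [Group G] {U V : Type} [MulAction G U] [MulAction G V] {R : SimpleGraph U}
  {φ : V → U} {r r' : U → V}

/-- the set of the new neighbours -/
def exA (R : SimpleGraph U) (r r' : U → V) (v u : V) : Set V :=
  {y | y ≠ v ∧ ∃ x x', R.Adj x x' ∧ r x = v ∧ r' x = u ∧ r x' = y}

theorem A03_aux (hR : TA G R) (h : Retr G R φ r) (h' : Retr G R φ r') {v u : V}
    (hm : ∀ x, r x ≠ r' x → ∃ g : G, r (g • x) = v ∧ r' (g • x) = u)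
    {x x' : U} (hxx : R.Adj x x') (hr : r x = r x') (h1 : r x ≠ r' x) (h2 : r x' ≠ r' x')
    (hd : R.dist (φ (r x)) x = R.dist (φ (r x)) x' + 1) : r' x = r' x' := by
  obtain ⟨g, g1, g2⟩ := hm x h1
  obtain ⟨g', g1', g2'⟩ := hm x' h2
  rw [h.equ] at g1 g1'
  rw [h'.equ] at g2 g2'
  by_contra hne
  have hk : (g⁻¹ * g') • r x = r x := by
    rw [mul_smul]
    nth_rewrite 1 [hr]
    rw [g1', ← g1, inv_smul_smul]
  have hy1 : r ((g⁻¹ * g') • x') = r x := by rw [h.equ, ← hr, hk]
  have hy2 : r' ((g⁻¹ * g') • x') = r' x := by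
    rw [h'.equ, mul_smul, g2', ← g2, inv_smul_smul]
  have hyd : R.dist (φ (r x)) ((g⁻¹ * g') • x') = R.dist (φ (r x)) x' := by
    have e : φ (r x) = (g⁻¹ * g') • φ (r x) := by
      rw [← h.sequ, hk]
    nth_rewrite 1 [e]
    exact ta_dist hR _ _ _
  set y := (g⁻¹ * g') • x' with hy
  obtain ⟨m, m1, m2, m3⟩ := st_median hR.tree x y (φ (r x))
  have c1 : R.dist x (φ (r x)) = R.dist (φ (r x)) x := SimpleGraph.dist_comm
  have c2 : R.dist x' (φ (r x)) = R.dist (φ (r x)) x' := SimpleGraph.dist_comm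
  have c3 : R.dist y (φ (r x)) = R.dist (φ (r x)) y := SimpleGraph.dist_comm
  by_cases hmx : m = x
  · subst hmx
    unfold Bt at m2
    omega
  · obtain ⟨n, hn, hn'⟩ := st_next hR.tree (fun e => hmx e.symm)
    have b1 : Bt R x n (φ (r x)) := bt_trans hR.tree.connected hn' m3
    have b2 : Bt R x x' (φ (r x)) := by
      have : R.dist x x' = 1 := st1_one hxx
      unfold Bt
      omega
    have hnx : n = x' := st_uniq hR.tree hn hxx b1 b2
    subst hnx
    have hrm : r' x = r' m := by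
      exact (h'.cvx x y m hy2.symm m1).symm
    exact hne (h'.cvx x m n hrm hn').symm

theorem A03_na (hR : TA G R) (h : Retr G R φ r) (h' : Retr G R φ r') {v u : V}
    (hm : ∀ x, r x ≠ r' x → ∃ g : G, r (g • x) = v ∧ r' (g • x) = u)
    {x x' : U} (hxx : R.Adj x x') (hr : r x = r x') (h1 : r x ≠ r' x) (h2 : r x' ≠ r' x') :
    r' x = r' x' := by
  rcases st_adj hR.tree hxx (φ (r x)) with hd | hd
  · refine (A03_aux hR h h' hm hxx.symm hr.symm h2 h1 ?_).symm
    rw [← hr]
    exact hd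
  · exact A03_aux hR h h' hm hxx hr h1 h2 hd

theorem A03_symm {v u : V} (hm : ∀ x, r x ≠ r' x → ∃ g : G, r (g • x) = v ∧ r' (g • x) = u) :
    ∀ x, r' x ≠ r x → ∃ g : G, r' (g • x) = u ∧ r (g • x) = v := by
  intro x hx
  obtain ⟨g, h1, h2⟩ := hm x (fun e => hx e.symm)
  exact ⟨g, h2, h1⟩

/-- the gate towards `φ v` -/
theorem A03_gate (hR : TA G R) (h : Retr G R φ r) (h' : Retr G R φ r') {v u : V} (hvu : v ≠ u)
    (hne : ∃ x, r x = v ∧ r' x = u)
    (hm : ∀ x, r x ≠ r' x → ∃ g : G, r (g • x) = v ∧ r' (g • x) = u) :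
    ∃ z x, R.Adj z x ∧ r z = v ∧ r' z = u ∧ r x = v ∧ r' x = v := by
  classical
  have hex : ∃ n, ∃ x, r x = v ∧ r' x = u ∧ R.dist x (φ v) = n := by
    obtain ⟨x, h1, h2⟩ := hne
    exact ⟨_, x, h1, h2, rfl⟩
  obtain ⟨z, z1, z2, z3⟩ := Nat.find_spec hex
  have hmin : ∀ x, r x = v → r' x = u → R.dist z (φ v) ≤ R.dist x (φ v) := by
    intro x h1 h2
    rw [z3]
    exact Nat.find_min' hex ⟨x, h1, h2, rfl⟩
  have hzv : z ≠ φ v := by
    rintro rfl
    rw [h'.sec] at z2
    exact hvu z2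
  obtain ⟨x, hx, hx'⟩ := st_next hR.tree hzv
  have hrx : r x = v := by
    rw [h.cvx z (φ v) x (by rw [z1, h.sec]) hx', z1]
  refine ⟨z, x, hx, z1, z2, hrx, ?_⟩
  by_contra hc
  have e : r' z = r' x := A03_na hR h h' hm hx (by rw [z1, hrx]) (by rw [z1, z2]; exact hvu)
    (by rw [hrx]; exact fun e => hc e.symm)
  have := hmin x hrx (by rw [← e, z2])
  have h1 : R.dist z x = 1 := st1_one hx
  unfold Bt at hx'
  omega

theorem A03_edge (hR : TA G R) (h : Retr G R φ r) (h' : Retr G R φ r') {v u : V} (hvu : v ≠ u)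
    (hne : ∃ x, r x = v ∧ r' x = u)
    (hm : ∀ x, r x ≠ r' x → ∃ g : G, r (g • x) = v ∧ r' (g • x) = u) :
    ∃ z x, R.Adj z x ∧ r z = v ∧ r' z = u ∧ r x = u ∧ r' x = u := by
  obtain ⟨z, x, h1, h2, h3, h4, h5⟩ := A03_gate hR h' h (fun e => hvu e.symm)
    (by obtain ⟨x, a, b⟩ := hne; exact ⟨x, b, a⟩) (A03_symm hm)
  exact ⟨z, x, h1, h3, h2, h5, h4⟩

theorem exch_wd (hR : TA G R) (h : Retr G R φ r) (h' : Retr G R φ r') {v u : V} (hvu : v ≠ u)
    (hne : ∃ x, r x = v ∧ r' x = u)
    (hm : ∀ x, r x ≠ r' x → ∃ g : G, r (g • x) = v ∧ r' (g • x) = u) :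
    WD G (qG R r) v u (exA R r r' v u) := by
  obtain ⟨z0, x0, k1, k2, k3, k4, k5⟩ := A03_edge hR h h' hvu hne hm
  refine ⟨?_, ?_, ?_, ?_, ?_⟩
  · rintro y ⟨hy, x, x', hx, h1, h2, h3⟩
    exact ⟨fun e => hy e.symm, x, x', hx, h1, h3⟩
  · exact ⟨fun e => hvu e.symm, z0, x0, k1, k2, k3, k4⟩
  · rintro g hg hg' y ⟨hy, x, x', hx, h1, h2, h3⟩
    refine ⟨?_, g • x, g • x', hR.adj g _ _ hx, ?_, ?_, ?_⟩
    · intro e
      apply hy
      have := congrArg (fun t => g⁻¹ • t) e
      simp only [inv_smul_smul] at this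
      rw [this, inv_smul_eq_iff, hg]
    · rw [h.equ, h1, hg]
    · rw [h'.equ, h2, hg']
    · rw [h.equ, h3]
  · rintro g hg y ⟨hy, x, x', hx, h1, h2, h3⟩ ⟨hy', x1, x1', hx1, h1', h2', h3'⟩
    have e := qG_uniq hR.tree h hx1 (hR.adj g _ _ hx) (by rw [h1', h3']; exact fun e => hy' e.symm)
      (by rw [h.equ, h1, hg, h1']) (by rw [h.equ, h3, h3'])
    have := congrArg r' e.1
    rw [h'.equ, h2, h2'] at this
    exact this
  · rintro g hg ⟨hy, x, x', hx, h1, h2, h3⟩
    have e := qG_uniq hR.tree h k1 (hR.adj g _ _ hx).symm (by rw [k2, k4]; exact hvu)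
      (by rw [h.equ, h3, k2, smul_inv_smul]) (by rw [h.equ, h1, hg, k4])
    have := congrArg r' e.2
    rw [h'.equ, h2, k5] at this
    apply hvu
    have h6 : g • v = g • u := by rw [hg, this]
    exact MulAction.injective g h6

/-- the new position of an end is unique -/
theorem A03_fun {S : SimpleGraph V} {v u : V} {A : Set V} (hA : WD G S v u A) {x y z z' : V}
    (h1 : NEnd G v u A x y z) (h2 : NEnd G v u A x y z') : z = z' := by
  rcases h1 with ⟨g, g1, g2, g3, g4⟩ | ⟨a, b⟩
  · rcases h2 with ⟨k, k1, k2, k3, k4⟩ | ⟨a', b'⟩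
    · have e : (k⁻¹ * g) • u = u := by
        apply hA.disj (k⁻¹ * g) (by rw [mul_smul, g1, ← k1, inv_smul_smul]) (g⁻¹ • y) g2
        rw [smul_smul, mul_assoc, mul_inv_cancel, mul_one]
        exact k2
      rw [mul_smul, inv_smul_eq_iff, g4, k4] at e
      exact e
    · exact absurd ⟨g, g1, g2, g3, g4⟩ (a' z)
  · rcases h2 with ⟨k, k1, k2, k3, k4⟩ | ⟨a', b'⟩
    · exact absurd ⟨k, k1, k2, k3, k4⟩ (a z')
    · rw [b, b']

theorem A03_nu {S : SimpleGraph V} {v u : V} {A : Set V} (hA : WD G S v u A) (k : G) :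
    NEnd G v u A (k • u) (k • v) (k • u) := by
  right
  refine ⟨?_, rfl⟩
  rintro z' ⟨g, g1, g2, -, -⟩
  have h1 : (k⁻¹ * g) • v = u := by rw [mul_smul, g1, inv_smul_smul]
  apply hA.inv (k⁻¹ * g) h1
  rw [mul_inv_rev, inv_inv, mul_smul]
  exact g2

theorem A03_nv {S : SimpleGraph V} {v u : V} {A : Set V} (hA : WD G S v u A) (k : G) :
    NEnd G v u A (k • v) (k • u) (k • v) := by
  right
  refine ⟨?_, rfl⟩
  rintro z' ⟨g, g1, g2, g3, -⟩
  have h1 : (g⁻¹ * k) • v = v := by
    rw [mul_smul, ← g1, inv_smul_smul]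
  apply g3
  have := hA.disj (g⁻¹ * k) h1 u hA.mem (by rw [mul_smul]; exact g2)
  rwa [mul_smul] at this

/-- the new position of the end at `r p` of the edge `r p`, `r q` -/
theorem A03_end (hR : TA G R) (h : Retr G R φ r) (h' : Retr G R φ r') {v u : V} (hvu : v ≠ u)
    (hne : ∃ x, r x = v ∧ r' x = u)
    (hm : ∀ x, r x ≠ r' x → ∃ g : G, r (g • x) = v ∧ r' (g • x) = u) {p q : U}
    (hpq : R.Adj p q) (hr : r p ≠ r q) (hr' : r' p ≠ r' q) :
    NEnd G v u (exA R r r' v u) (r p) (r q) (r' p) := by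
  obtain ⟨z0, x0, k1, k2, k3, k4, k5⟩ := A03_edge hR h h' hvu hne hm
  by_cases hp : r p = r' p
  · right
    refine ⟨?_, hp.symm⟩
    rintro z' ⟨g, g1, ⟨g2, x, x', hx, h1, h2, h3⟩, g3, g4⟩
    have e := qG_uniq hR.tree h hpq (hR.adj g _ _ hx) hr (by rw [h.equ, h1, g1])
      (by rw [h.equ, h3, smul_inv_smul])
    have e1 := congrArg r' e.1
    rw [h'.equ, h2, ← hp, ← g1] at e1
    exact hvu (MulAction.injective g e1).symm
  · left
    obtain ⟨g, g1, g2⟩ := hm p hp
    refine ⟨g⁻¹, ?_, ?_, ?_, ?_⟩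
    · rw [← g1, h.equ, inv_smul_smul]
    · rw [inv_inv]
      refine ⟨?_, g • p, g • q, hR.adj g _ _ hpq, g1, g2, h.equ g q⟩
      intro e
      apply hr
      rw [h.equ, ← e] at g1
      exact MulAction.injective g g1
    · rw [inv_inv]
      intro e
      have e1 := qG_uniq hR.tree h k1 (hR.adj g _ _ hpq) (by rw [k2, k4]; exact hvu)
        (by rw [g1, k2]) (by rw [h.equ, e, k4])
      have e2 := congrArg r' e1.2
      rw [k5, ← g2, h'.equ, h'.equ] at e2
      exact hr' (MulAction.injective g e2).symm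
    · rw [← g2, h'.equ, inv_smul_smul]

theorem exch_eq (hR : TA G R) (h : Retr G R φ r) (h' : Retr G R φ r') {v u : V} (hvu : v ≠ u)
    (hne : ∃ x, r x = v ∧ r' x = u)
    (hm : ∀ x, r x ≠ r' x → ∃ g : G, r (g • x) = v ∧ r' (g • x) = u) :
    qG R r' = whG G (qG R r) v u (exA R r r' v u) := by
  have hwd := exch_wd hR h h' hvu hne hm
  obtain ⟨z0, x0, k1, k2, k3, k4, k5⟩ := A03_edge hR h h' hvu hne hm
  obtain ⟨z1, x1, l1, l2, l3, l4, l5⟩ := A03_gate hR h h' hvu hne hm
  have hvu' : ∀ k : G, k • v ≠ k • u := fun k e => hvu (MulAction.injective k e)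
  -- the edge `k v`, `k u` in both graphs
  have ed1 : ∀ k : G, (qG R r).Adj (k • v) (k • u) := by
    intro k
    exact ⟨hvu' k, k • z0, k • x0, hR.adj k _ _ k1, by rw [h.equ, k2], by rw [h.equ, k4]⟩
  have ed2 : ∀ k : G, (qG R r').Adj (k • v) (k • u) := by
    intro k
    exact ⟨hvu' k, k • x1, k • z1, hR.adj k _ _ l1.symm, by rw [h'.equ, l5], by rw [h'.equ, l3]⟩
  ext a b
  constructor
  · rintro ⟨hab, p, q, hpq, rfl, rfl⟩
    refine ⟨hab, ?_⟩
    by_cases hr : r p = r q
    · by_cases hp : r p = r' p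
      · -- `q` is moved
        have hq : r q ≠ r' q := by
          intro e
          apply hab
          rw [← hp, ← e, hr]
        obtain ⟨g, g1, g2⟩ := hm q hq
        rw [h.equ] at g1
        rw [h'.equ] at g2
        have e1 : r' p = g⁻¹ • v := by rw [← hp, hr, ← g1, inv_smul_smul]
        have e2 : r' q = g⁻¹ • u := by rw [← g2, inv_smul_smul]
        rw [e1, e2]
        exact ⟨_, _, ed1 g⁻¹, A03_nv hwd g⁻¹, A03_nu hwd g⁻¹⟩
      · by_cases hq : r q = r' q
        · obtain ⟨g, g1, g2⟩ := hm p hp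
          rw [h.equ] at g1
          rw [h'.equ] at g2
          have e1 : r' q = g⁻¹ • v := by rw [← hq, ← hr, ← g1, inv_smul_smul]
          have e2 : r' p = g⁻¹ • u := by rw [← g2, inv_smul_smul]
          rw [e1, e2]
          exact ⟨_, _, (ed1 g⁻¹).symm, A03_nu hwd g⁻¹, A03_nv hwd g⁻¹⟩
        · exact absurd (A03_na hR h h' hm hpq hr hp hq) hab
    · exact ⟨r p, r q, ⟨hr, p, q, hpq, rfl, rfl⟩, A03_end hR h h' hvu hne hm hpq hr hab,
        A03_end hR h h' hvu hne hm hpq.symm (fun e => hr e.symm) (fun e => hab e.symm)⟩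
  · rintro ⟨hab, x, y, ⟨hxy, p, q, hpq, rfl, rfl⟩, n1, n2⟩
    by_cases hr' : r' p = r' q
    · by_cases hp : r p = r' p
      · have hq : r q ≠ r' q := by
          intro e
          apply hxy
          rw [hp, hr', ← e]
        obtain ⟨g, g1, g2⟩ := hm q hq
        rw [h.equ] at g1
        rw [h'.equ] at g2
        have e1 : r q = g⁻¹ • v := by rw [← g1, inv_smul_smul]
        have e2 : r p = g⁻¹ • u := by rw [hp, hr', ← g2, inv_smul_smul]
        rw [e1, e2] at n1 n2
        have f1 := A03_fun hwd n1 (A03_nu hwd g⁻¹)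
        have f2 := A03_fun hwd n2 (A03_nv hwd g⁻¹)
        rw [f1, f2]
        exact (ed2 g⁻¹).symm
      · by_cases hq : r q = r' q
        · obtain ⟨g, g1, g2⟩ := hm p hp
          rw [h.equ] at g1
          rw [h'.equ] at g2
          have e1 : r p = g⁻¹ • v := by rw [← g1, inv_smul_smul]
          have e2 : r q = g⁻¹ • u := by rw [hq, ← hr', ← g2, inv_smul_smul]
          rw [e1, e2] at n1 n2
          have f1 := A03_fun hwd n1 (A03_nv hwd g⁻¹)
          have f2 := A03_fun hwd n2 (A03_nu hwd g⁻¹)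
          rw [f1, f2]
          exact ed2 g⁻¹
        · exact absurd (A03_na hR h' h (A03_symm hm) hpq hr' (fun e => hp e.symm)
            (fun e => hq e.symm)) hxy
    · have f1 := A03_fun hwd n1 (A03_end hR h h' hvu hne hm hpq hxy hr')
      have f2 := A03_fun hwd n2 (A03_end hR h h' hvu hne hm hpq.symm (fun e => hxy e.symm)
        (fun e => hr' e.symm))
      rw [f1, f2]
      exact ⟨hr', p, q, hpq, rfl, rfl⟩

/-- the consequence which is used most -/
theorem exch_low {ι : Type} [Fintype ι] (W : ι → G) (m : ℕ) (hR : TA G R) (h : Retr G R φ r)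
    (h' : Retr G R φ r') (v u : V)
    (hm : ∀ x, r x ≠ r' x → ∃ g : G, r (g • x) = v ∧ r' (g • x) = u) :
    Low G W m (qG R r) (qG R r') := by
  by_cases hrr : r = r'
  · subst hrr
    exact Low.refl _
  · obtain ⟨x, hx⟩ : ∃ x, r x ≠ r' x := by
      by_contra hcon
      push Not at hcon
      exact hrr (funext hcon)
    obtain ⟨g, hg1, hg2⟩ := hm x hx
    have hvu : v ≠ u := by
      rintro rfl
      apply hx
      rw [h.equ] at hg1
      rw [h'.equ] at hg2
      have := hg1.trans hg2.symm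
      simpa using this
    exact Low.one _ _ ⟨v, u, _, exch_wd hR h h' hvu ⟨_, hg1, hg2⟩ hm,
      exch_eq hR h h' hvu ⟨_, hg1, hg2⟩ hm⟩

end

end VF
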