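import Pool.Agent.Lib.MP_32d917_al_vf.A01

/-!
# A04: retractions given by parent maps

`c` assigns to every vertex outside of the image of `φ` an adjacent vertex, its parent, equivariantly, and
iterating `c` one reaches the image of `φ`. Let `r x` be the vertex `v` with `c^[k] x = φ v` for some `k`
(unique as `c` fixes the image of `φ`, `φ` injective). Equivariance is clear. The fibre of `v` is connected in
`R` (every `x` in it is connected to `φ v` by the path `x, c x, c^[2] x, ...` in the fibre), hence convex
(a path in the tree `R` between two vertices contains the geodesic). If `x`, `y` are adjacent with `r x = r y = v`: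
the paths of parents from `x` and from `y` to `φ v` together with the edge `x y` must not give a cycle; more
directly: removing the edge `x y` from `R` disconnects `x` from `y`, but the union of the two parent paths connects them
unless it contains the edge `x y`, i.e. `c z = z'` with `{z, z'} = {x, y}` for a vertex `z` on one of the paths
(so `c x = y` or `c y = x`).
-/

set_option autoImplicit false

namespace VF

open LatIso LatN

section

variable {G : Type} [Group G] {U V : Type} [MulAction G U] [MulAction G V] {R : SimpleGraph U}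
  {φ : V → U}

theorem a04_two (hR : R.IsTree) {x y m : U} (h : x = y ∨ R.Adj x y) (hm : Bt R x m y) :
    m = x ∨ m = y := by
  unfold Bt at hm
  rcases h with h | h
  · rw [h, SimpleGraph.dist_self] at hm
    right
    exact (st1_eq hR (by omega : R.dist m y = 0))
  · rw [st1_one h] at hm
    rcases Nat.eq_zero_or_pos (R.dist x m) with h1 | h1
    · exact Or.inl (st1_eq hR h1).symm
    · exact Or.inr (st1_eq hR (by omega : R.dist m y = 0))

theorem a04_iter_fix (c : U → U) {z : U} (hz : c z = z) (k : ℕ) : c^[k] z = z := by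
  induction k with
  | zero => rfl
  | succ k ih => rw [Function.iterate_succ_apply, hz, ih]

theorem a04_iter_le (c : U → U) {x z : U} (hz : c z = z) {k n : ℕ} (hk : c^[k] x = z)
    (hkn : k ≤ n) : c^[n] x = z := by
  obtain ⟨d, rfl⟩ := Nat.exists_eq_add_of_le hkn
  rw [Nat.add_comm, Function.iterate_add_apply, hk, a04_iter_fix c hz]

theorem a04_path (hR : TA G R) (c : U → U) (hcφ : ∀ v, c (φ v) = φ v)
    (hca : ∀ x, (∀ v, φ v ≠ x) → R.Adj x (c x)) (v : V) : ∀ (k : ℕ) (x : U), c^[k] x = φ v →
    ∀ m, Bt R x m (φ v) → ∃ j, c^[j] x = m := by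
  intro k
  induction k with
  | zero =>
    intro x hx m hm
    simp only [Function.iterate_zero, id_eq] at hx
    rcases a04_two hR.tree (Or.inl hx) hm with h | h
    · exact ⟨0, h.symm⟩
    · exact ⟨0, by rw [h]; exact hx⟩
  | succ k ih =>
    intro x hx m hm
    rw [Function.iterate_succ_apply] at hx
    rcases st_bt hR.tree hm (c x) with h1 | h1
    · have h2 : x = c x ∨ R.Adj x (c x) := by
        by_cases h3 : ∀ v, φ v ≠ x
        · exact Or.inr (hca x h3)
        · push Not at h3
          obtain ⟨w, hw⟩ := h3
          left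
          rw [← hw, hcφ]
      rcases a04_two hR.tree h2 h1 with h | h
      · exact ⟨0, h.symm⟩
      · exact ⟨1, h.symm⟩
    · obtain ⟨j, hj⟩ := ih (c x) hx m (bt_symm h1)
      exact ⟨j + 1, by rw [Function.iterate_succ_apply]; exact hj⟩

theorem parent_retr (hR : TA G R) (hφ : Function.Injective φ)
    (hφ' : ∀ (g : G) (v : V), φ (g • v) = g • φ v) (c : U → U)
    (hc : ∀ (g : G) (x : U), c (g • x) = g • c x) (hcφ : ∀ v, c (φ v) = φ v)
    (hca : ∀ x, (∀ v, φ v ≠ x) → R.Adj x (c x)) (hac : ∀ x, ∃ k v, c^[k] x = φ v) :
    ∃ r : U → V, Retr G R φ r ∧ (∀ x, r (c x) = r x) ∧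
      ∀ x y, R.Adj x y → (r x = r y ↔ c x = y ∨ c y = x) := by
  have hac' : ∀ x, ∃ v k, c^[k] x = φ v := by
    intro x
    obtain ⟨k, v, h⟩ := hac x
    exact ⟨v, k, h⟩
  choose r hr using hac'
  have huniq : ∀ x v k, c^[k] x = φ v → r x = v := by
    intro x v k hk
    obtain ⟨k', hk'⟩ := hr x
    apply hφ
    have h1 := a04_iter_le c (hcφ v) hk (le_max_left k k')
    have h2 := a04_iter_le c (hcφ (r x)) hk' (le_max_right k k')
    rw [← h1, ← h2]
  have hrφ : ∀ v, r (φ v) = v := fun v => huniq (φ v) v 0 rfl
  have hrc : ∀ x, r (c x) = r x := by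
    intro x
    obtain ⟨k, hk⟩ := hr (c x)
    refine (huniq x (r (c x)) (k + 1) ?_).symm
    rw [Function.iterate_succ_apply]
    exact hk
  have hrj : ∀ j x, r (c^[j] x) = r x := by
    intro j
    induction j with
    | zero => intro x; rfl
    | succ j ih => intro x; rw [Function.iterate_succ_apply, ih, hrc]
  have hci : ∀ (g : G) k x, c^[k] (g • x) = g • c^[k] x := by
    intro g k
    induction k with
    | zero => intro x; rfl
    | succ k ih => intro x; rw [Function.iterate_succ_apply, hc, ih, Function.iterate_succ_apply]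
  have hpath : ∀ x m, Bt R x m (φ (r x)) → ∃ j, c^[j] x = m := by
    intro x m hm
    obtain ⟨k, hk⟩ := hr x
    exact a04_path hR c hcφ hca (r x) k x hk m hm
  have hfix : ∀ x j, c^[j + 1] x = x → ∃ v, φ v = x := by
    intro x j hj
    obtain ⟨k, hk⟩ := hr x
    refine ⟨r x, ?_⟩
    have h1 : ∀ n, c^[n * (j + 1)] x = x := by
      intro n
      induction n with
      | zero => simp
      | succ n ih => rw [Nat.succ_mul, Function.iterate_add_apply, hj, ih]
    rw [← a04_iter_le c (hcφ (r x)) hk (show k ≤ k * (j + 1) by nlinarith [Nat.zero_le k, Nat.zero_le j])]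
    exact h1 k
  have hdir : ∀ y, (∀ v, φ v ≠ y) → Bt R y (c y) (φ (r y)) := by
    intro y hy
    have h1 := hca y hy
    rcases st_adj hR.tree h1 (φ (r y)) with h2 | h2
    · exfalso
      have h3 : Bt R (c y) y (φ (r (c y))) := by
        unfold Bt
        rw [hrc, st1_one h1.symm, SimpleGraph.dist_comm (u := y),
          SimpleGraph.dist_comm (u := c y), h2]
        omega
      obtain ⟨j, hj⟩ := hpath (c y) y h3
      have h4 : c^[j + 1] y = y := by
        rw [Function.iterate_succ_apply]
        exact hj
      obtain ⟨v, hv⟩ := hfix y j h4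
      exact hy v hv
    · unfold Bt
      rw [st1_one h1, SimpleGraph.dist_comm (u := y), SimpleGraph.dist_comm (u := c y), h2]
      omega
  refine ⟨r, ⟨hrφ, ?_, hφ', ?_⟩, hrc, ?_⟩
  · intro g x
    obtain ⟨k, hk⟩ := hr x
    refine huniq (g • x) (g • r x) k ?_
    rw [hci, hk, hφ']
  · intro x y m hxy hm
    rcases st_bt hR.tree hm (φ (r x)) with h1 | h1
    · obtain ⟨j, hj⟩ := hpath x m h1
      rw [← hj, hrj]
    · rw [hxy] at h1
      obtain ⟨j, hj⟩ := hpath y m h1
      rw [← hj, hrj, hxy]
  · have key : ∀ x y, R.Adj x y → r x = r y →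
        R.dist (φ (r x)) y = R.dist (φ (r x)) x + 1 → c y = x := by
      intro x y hxy hr' hd
      have hy : ∀ v, φ v ≠ y := by
        intro v hv
        have h1 : r y = v := by rw [← hv]; exact hrφ v
        rw [hr', h1, hv, SimpleGraph.dist_self] at hd
        omega
      have h1 := hdir y hy
      refine st_uniq hR.tree (hca y hy) hxy.symm h1 ?_
      unfold Bt
      rw [← hr', st1_one hxy.symm, SimpleGraph.dist_comm (u := y), hd,
        SimpleGraph.dist_comm (u := x)]
      omega
    intro x y hxy
    constructor
    · intro h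
      rcases st_adj hR.tree hxy (φ (r x)) with h1 | h1
      · exact Or.inr (key x y hxy h h1)
      · refine Or.inl (key y x hxy.symm h.symm ?_)
        rw [← h]
        exact h1
    · rintro (h | h)
      · rw [← h, hrc]
      · rw [← h, hrc]

end

end VF
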