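import Pool.Agent.Lib.MP_32d917_al_vf.A01

/-!
# A05: blowing up vertices of a tree to stars

`ρ : U' → U` is a map with section `φ`; every vertex of `U'` is `φ (ρ x)` or adjacent to it; edges inside a
fibre have `φ (ρ x)` as one of their ends; the other edges map to edges of `R`, and every edge of `R` is the image of
exactly one edge.

Connected: clear (lift the edges of a walk of `R`, connect inside the stars). Acyclic: e.g. every edge `x y` is a
bridge. If `ρ x ≠ ρ y`: removing the edge `ρ x, ρ y` from the tree `R` separates `ρ x` from `ρ y`, and a walk from `x`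
to `y` in `R'` avoiding the edge `x y` maps to a walk avoiding this edge (by uniqueness of the lift). If `ρ x = ρ y`,
say `y = φ (ρ x)`, `x ≠ y`: the only edges at... a walk from `x` to `y` not using `x y`: consider the part of the
graph consisting of `x` and everything beyond the other edges of `x`: let `B` be the set of the
vertices `z'` of `U'` such that `z' = x` or `ρ z'` lies beyond the `R`-edge `(ρ x, ρ y1)` for an edge `x y1` of `R'` with
`ρ y1 ≠ ρ x` (i.e. `Bt R (ρ x) (ρ y1) (ρ z')`). No edge except `x y` connects `B` and its complement. Alternatively use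
`red_acyclic` or count: for a finite connected subgraph. Choose what is convenient.
-/

set_option autoImplicit false

namespace VF

open LatIso LatN

theorem blowup_cut {U U' : Type} {R : SimpleGraph U} (hR : R.IsTree) {R' : SimpleGraph U'} (φ : U → U')
    (ρ : U' → U)
    (h2 : ∀ x y, R'.Adj x y → ρ x = ρ y → x = φ (ρ x) ∨ y = φ (ρ x))
    (h3 : ∀ x y, R'.Adj x y → ρ x ≠ ρ y → R.Adj (ρ x) (ρ y))
    (h5 : ∀ x y x' y', R'.Adj x y → R'.Adj x' y' → ρ x ≠ ρ y → ρ x' = ρ x → ρ y' = ρ y →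
      x' = x ∧ y' = y) (a b : U') (hab : R'.Adj a b) (hb : b = φ (ρ a)) (hρ : ρ a = ρ b) :
    ∃ P : U' → Prop, P a ∧ ¬ P b ∧
      ∀ a' b', R'.Adj a' b' → P a' → ¬ P b' → a' = a ∧ b' = b := by
  refine ⟨fun z => z = a ∨ ∃ y1, R'.Adj a y1 ∧ ρ y1 ≠ ρ a ∧
    R.dist (ρ z) (ρ y1) < R.dist (ρ z) (ρ a), Or.inl rfl, ?_, ?_⟩
  · rintro (h | ⟨y1, h, h', h''⟩)
    · exact hab.ne h.symm
    · rw [← hρ, SimpleGraph.dist_self] at h''
      omega
  · intro a' b' hab' h1 h2'
    have hb1 : b' ≠ a := fun h => h2' (Or.inl h)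
    have hb2 : ∀ y1, R'.Adj a y1 → ρ y1 ≠ ρ a → ¬ R.dist (ρ b') (ρ y1) < R.dist (ρ b') (ρ a) :=
      fun y1 hy hy' hh => h2' (Or.inr ⟨y1, hy, hy', hh⟩)
    rcases h1 with rfl | ⟨y1, hy1, hy2, hy3⟩
    · by_cases hh : ρ b' = ρ a'
      · rcases h2 a' b' hab' hh.symm with h | h
        · exact absurd (h.trans hb.symm) hab.ne
        · exact ⟨rfl, h.trans hb.symm⟩
      · exfalso
        apply hb2 b' hab' hh
        rw [SimpleGraph.dist_self]
        have h6 := h3 a' b' hab' (fun h => hh h.symm)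
        rw [SimpleGraph.dist_comm, SimpleGraph.dist_eq_one_iff_adj.mpr h6]
        omega
    · exfalso
      have hadj : R.Adj (ρ y1) (ρ a) := h3 y1 a hy1.symm hy2
      have hne : ρ a' ≠ ρ b' := by
        intro hh
        apply hb2 y1 hy1 hy2
        rw [← hh]
        exact hy3
      have h7 := h3 a' b' hab' hne
      have h8 := st_adj hR hadj (ρ b')
      have h9 := hb2 y1 hy1 hy2
      obtain ⟨e1, e2⟩ := red_cut hR hadj h7 hy3 (by omega)
      obtain ⟨-, e4⟩ := h5 y1 a a' b' hy1.symm hab' hy2 e1 e2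
      exact hb1 e4

theorem blowup {U U' : Type} {R : SimpleGraph U} (hR : R.IsTree) {R' : SimpleGraph U'} (φ : U → U')
    (ρ : U' → U) (hs : ∀ a, ρ (φ a) = a) (h1 : ∀ x, x ≠ φ (ρ x) → R'.Adj x (φ (ρ x)))
    (h2 : ∀ x y, R'.Adj x y → ρ x = ρ y → x = φ (ρ x) ∨ y = φ (ρ x))
    (h3 : ∀ x y, R'.Adj x y → ρ x ≠ ρ y → R.Adj (ρ x) (ρ y))
    (h4 : ∀ a b, R.Adj a b → ∃ x y, R'.Adj x y ∧ ρ x = a ∧ ρ y = b)
    (h5 : ∀ x y x' y', R'.Adj x y → R'.Adj x' y' → ρ x ≠ ρ y → ρ x' = ρ x → ρ y' = ρ y →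
      x' = x ∧ y' = y) : R'.IsTree := by
  refine ⟨?_, red_acyclic _ ?_⟩
  · haveI : Nonempty U := hR.1.nonempty
    haveI : Nonempty U' := ⟨φ (Classical.arbitrary U)⟩
    have hc : ∀ x, R'.Reachable x (φ (ρ x)) := by
      intro x
      by_cases hx : x = φ (ρ x)
      · rw [← hx]
      · exact (h1 x hx).reachable
    have key : ∀ {x y : U} (p : R.Walk x y), R'.Reachable (φ x) (φ y) := by
      intro x y p
      induction p with
      | nil => exact SimpleGraph.Reachable.refl _
      | @cons x z y hxz q ih =>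
        obtain ⟨x', z', h, e1, e2⟩ := h4 x z hxz
        refine SimpleGraph.Reachable.trans ?_ ih
        have c1 := hc x'
        have c2 := hc z'
        rw [e1] at c1
        rw [e2] at c2
        exact (c1.symm.trans h.reachable).trans c2
    refine ⟨fun x y => ?_⟩
    obtain ⟨p⟩ := hR.1.preconnected (ρ x) (ρ y)
    exact ((hc x).trans (key p)).trans (hc y).symm
  · intro a b hab
    by_cases hρ : ρ a = ρ b
    · rcases h2 a b hab hρ with h | h
      · obtain ⟨P, hP1, hP2, hP3⟩ := blowup_cut hR φ ρ h2 h3 h5 b a hab.symm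
          (by rw [← hρ]; exact h) hρ.symm
        refine ⟨fun z => ¬ P z, hP2, fun hh => hh hP1, ?_⟩
        intro a' b' hab' k1 k2
        obtain ⟨e1, e2⟩ := hP3 b' a' hab'.symm (not_not.mp k2) k1
        exact ⟨e2, e1⟩
      · exact blowup_cut hR φ ρ h2 h3 h5 a b hab h hρ
    · have hadj := h3 a b hab hρ
      refine ⟨fun z => R.dist (ρ z) (ρ a) < R.dist (ρ z) (ρ b), ?_, ?_, ?_⟩
      · show R.dist (ρ a) (ρ a) < R.dist (ρ a) (ρ b)
        rw [SimpleGraph.dist_self, SimpleGraph.dist_eq_one_iff_adj.mpr hadj]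
        omega
      · show ¬ R.dist (ρ b) (ρ a) < R.dist (ρ b) (ρ b)
        rw [SimpleGraph.dist_self]
        omega
      · intro a' b' hab' k1 k2
        change R.dist (ρ a') (ρ a) < R.dist (ρ a') (ρ b) at k1
        change ¬ R.dist (ρ b') (ρ a) < R.dist (ρ b') (ρ b) at k2
        have hne : ρ a' ≠ ρ b' := by
          intro hh
          rw [hh] at k1
          exact k2 k1
        have h7 := h3 a' b' hab' hne
        have h8 := st_adj hR hadj (ρ b')
        obtain ⟨e1, e2⟩ := red_cut hR hadj h7 k1 (by omega)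
        exact h5 a b a' b' hab hab' hρ e1 e2

end VF
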