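import Pool.Agent.Lib.MP_32d917_al_vf.A05

/-!
# A06: existence of expansions

Let `K ≤ G` be the subgroup of all `g` with `g z = z` and `g A ⊆ A`, i.e. `∀ y ∈ A, g • y ∈ A`. It is a
subgroup: for `g ∈ K` and `x ∈ A` also `g⁻¹ • x ∈ A`, by `disj` for `g⁻¹` and the element `g • x ∈ A`:
`g⁻¹ • (g • x) = x ∈ A`. Put `U' = U ⊕ (G ⧸ K)` with the obvious action, `φ = Sum.inl`, `p = Sum.inr (1 : G ⧸ K)`,
`ρ (inl a) = a`, `ρ (inr (g K)) = g • z` (well defined as `K` fixes `z`).

The new end of the edge `a b` of `R` at `a`: `en a b = inr (g K)` if `g z = a` and `g⁻¹ b ∈ A` for some `g` (well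
defined: if also `g'` then `g⁻¹ g'` fixes `z` and maps `g'⁻¹ b ∈ A` to `g⁻¹ b ∈ A`, so it is in `K`), and
`en a b = inl a` otherwise. Edges of `R'`: `en a b, en b a` for `R.Adj a b`, and `inl (g z), inr (g K)`. Use `blowup`
for the tree property. `ρ`-fibres are stars; the fibre of `ρ` is convex: a geodesic between two vertices of a
star stays in the star (it has length at most two). No inversion: an element exchanging `x`, `y` adjacent with
`ρ x ≠ ρ y` would exchange `ρ x`, `ρ y`; for `ρ x = ρ y` the vertices are of different kind (`inl`, `inr`).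
`stab`: `g • inr K = inr K` iff `g ∈ K`. `quo`: the quotient graph is `R` (an edge `a b` of `R` gives
`en a b, en b a`, mapped to `a, b`).
-/

set_option autoImplicit false

namespace VF

open LatIso LatN

section

variable {G : Type} [Group G] {U : Type} [MulAction G U] {R : SimpleGraph U}

section

variable {z : U} {A : Set U}

/-- the stabiliser of `z` and `A` -/
def expK (hA : ED G R z A) : Subgroup G where
  carrier := {g | g • z = z ∧ ∀ y ∈ A, g • y ∈ A}
  one_mem' := ⟨one_smul _ _, fun y hy => by rw [one_smul]; exact hy⟩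
  mul_mem' := by
    rintro a b ⟨h1, h2⟩ ⟨h3, h4⟩
    refine ⟨by rw [mul_smul, h3, h1], fun y hy => ?_⟩
    rw [mul_smul]
    exact h2 _ (h4 y hy)
  inv_mem' := by
    rintro a ⟨h1, h2⟩
    have h3 : a⁻¹ • z = z := by rw [inv_smul_eq_iff, h1]
    refine ⟨h3, fun y hy => ?_⟩
    exact hA.disj a⁻¹ h3 (a • y) (h2 y hy) (by rw [inv_smul_smul]; exact hy) y hy

theorem expK_mem (hA : ED G R z A) (g : G) :
    g ∈ expK hA ↔ g • z = z ∧ ∀ y ∈ A, g • y ∈ A := Iff.rfl

/-- the retraction -/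
def expR (hA : ED G R z A) : U ⊕ (G ⧸ expK hA) → U :=
  Sum.elim id (Quotient.lift (fun g : G => g • z) (by
    intro a b hab
    have h1 : a⁻¹ * b ∈ expK hA := QuotientGroup.leftRel_apply.mp hab
    have h2 := ((expK_mem hA _).mp h1).1
    rw [mul_smul, inv_smul_eq_iff] at h2
    exact h2.symm))

theorem expR_inl (hA : ED G R z A) (a : U) : expR hA (Sum.inl a) = a := rfl

theorem expR_inr (hA : ED G R z A) (g : G) : expR hA (Sum.inr (g : G ⧸ expK hA)) = g • z := rfl

open Classical in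
/-- the new end at `a` of the edge `a b` -/
noncomputable def expE (hA : ED G R z A) (a b : U) : U ⊕ (G ⧸ expK hA) :=
  if h : ∃ g : G, g • z = a ∧ g⁻¹ • b ∈ A then Sum.inr (h.choose : G ⧸ expK hA) else Sum.inl a

theorem expE_pos (hA : ED G R z A) (a b : U) (g : G) (h1 : g • z = a) (h2 : g⁻¹ • b ∈ A) :
    expE hA a b = Sum.inr (g : G ⧸ expK hA) := by
  have h : ∃ g : G, g • z = a ∧ g⁻¹ • b ∈ A := ⟨g, h1, h2⟩
  unfold expE
  rw [dif_pos h]
  congr 1
  have h3 := h.choose_spec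
  generalize h.choose = g0 at h3
  rw [QuotientGroup.eq, expK_mem]
  have h4 : (g0⁻¹ * g) • z = z := by rw [mul_smul, h1, inv_smul_eq_iff, h3.1]
  refine ⟨h4, ?_⟩
  refine hA.disj _ h4 (g⁻¹ • b) h2 ?_
  rw [mul_smul, smul_inv_smul]
  exact h3.2

theorem expE_neg (hA : ED G R z A) (a b : U) (h : ¬ ∃ g : G, g • z = a ∧ g⁻¹ • b ∈ A) :
    expE hA a b = Sum.inl a := by
  unfold expE
  rw [dif_neg h]

theorem expR_expE (hA : ED G R z A) (a b : U) : expR hA (expE hA a b) = a := by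
  by_cases h : ∃ g : G, g • z = a ∧ g⁻¹ • b ∈ A
  · obtain ⟨g, h1, h2⟩ := h
    rw [expE_pos hA a b g h1 h2, expR_inr, h1]
  · rw [expE_neg hA a b h, expR_inl]

theorem smul_expE (hA : ED G R z A) (g : G) (a b : U) :
    g • expE hA a b = expE hA (g • a) (g • b) := by
  by_cases h : ∃ g : G, g • z = a ∧ g⁻¹ • b ∈ A
  · obtain ⟨k, h1, h2⟩ := h
    rw [expE_pos hA a b k h1 h2, expE_pos hA (g • a) (g • b) (g * k) (by rw [mul_smul, h1])
      (by rw [mul_inv_rev, mul_smul, inv_smul_smul]; exact h2)]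
    rfl
  · rw [expE_neg hA a b h, expE_neg hA (g • a) (g • b)]
    · rfl
    · rintro ⟨k, h1, h2⟩
      apply h
      refine ⟨g⁻¹ * k, by rw [mul_smul, h1, inv_smul_smul], ?_⟩
      rw [mul_inv_rev, inv_inv, mul_smul]
      exact h2

theorem smul_expR (hA : ED G R z A) (g : G) (x : U ⊕ (G ⧸ expK hA)) :
    expR hA (g • x) = g • expR hA x := by
  rcases x with a | q
  · rfl
  · induction q using QuotientGroup.induction_on with
    | H k =>
      change expR hA (Sum.inr ((g * k : G) : G ⧸ expK hA)) = _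
      rw [expR_inr, expR_inr, mul_smul]

/-- the expansion -/
def expG (hR : TA G R) (hA : ED G R z A) : SimpleGraph (U ⊕ (G ⧸ expK hA)) where
  Adj x y := (∃ a b, R.Adj a b ∧ x = expE hA a b ∧ y = expE hA b a) ∨
    ∃ g : G, (x = Sum.inl (g • z) ∧ y = Sum.inr (g : G ⧸ expK hA)) ∨
      (y = Sum.inl (g • z) ∧ x = Sum.inr (g : G ⧸ expK hA))
  symm := ⟨by
    rintro x y (⟨a, b, h, h1, h2⟩ | ⟨g, h | h⟩)
    · exact Or.inl ⟨b, a, h.symm, h2, h1⟩
    · exact Or.inr ⟨g, Or.inr h⟩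
    · exact Or.inr ⟨g, Or.inl h⟩⟩
  loopless := ⟨by
    rintro x (⟨a, b, h, h1, h2⟩ | ⟨g, ⟨h1, h2⟩ | ⟨h1, h2⟩⟩)
    · have h3 := congrArg (expR hA) (h1.symm.trans h2)
      rw [expR_expE, expR_expE] at h3
      exact h.ne h3
    · rw [h1] at h2
      exact Sum.inl_ne_inr h2
    · rw [h1] at h2
      exact Sum.inl_ne_inr h2⟩

theorem expG_diff (hR : TA G R) (hA : ED G R z A) (x y : U ⊕ (G ⧸ expK hA))
    (h : (expG hR hA).Adj x y) (hne : expR hA x ≠ expR hA y) :
    R.Adj (expR hA x) (expR hA y) ∧ x = expE hA (expR hA x) (expR hA y) ∧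
      y = expE hA (expR hA y) (expR hA x) := by
  rcases h with ⟨a, b, h, h1, h2⟩ | ⟨g, ⟨h1, h2⟩ | ⟨h1, h2⟩⟩
  · subst h1 h2
    rw [expR_expE, expR_expE]
    exact ⟨h, rfl, rfl⟩
  · subst h1 h2
    exact absurd rfl hne
  · subst h1 h2
    exact absurd rfl hne

theorem expG_same (hR : TA G R) (hA : ED G R z A) (x y : U ⊕ (G ⧸ expK hA))
    (h : (expG hR hA).Adj x y) (hne : expR hA x = expR hA y) :
    ∃ g : G, (x = Sum.inl (g • z) ∧ y = Sum.inr (g : G ⧸ expK hA)) ∨
      (y = Sum.inl (g • z) ∧ x = Sum.inr (g : G ⧸ expK hA)) := by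
  rcases h with ⟨a, b, h, h1, h2⟩ | h
  · subst h1 h2
    rw [expR_expE, expR_expE] at hne
    exact absurd hne h.ne
  · exact h

theorem expG_star (hR : TA G R) (hA : ED G R z A) (x : U ⊕ (G ⧸ expK hA))
    (hx : x ≠ Sum.inl (expR hA x)) : (expG hR hA).Adj x (Sum.inl (expR hA x)) := by
  rcases x with a | q
  · exact absurd rfl hx
  · induction q using QuotientGroup.induction_on with
    | H k =>
      rw [expR_inr]
      exact Or.inr ⟨k, Or.inr ⟨rfl, rfl⟩⟩

theorem expG_tree (hR : TA G R) (hA : ED G R z A) : (expG hR hA).IsTree := by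
  refine blowup hR.tree (Sum.inl : U → U ⊕ (G ⧸ expK hA)) (expR hA) (fun a => rfl) ?_ ?_ ?_ ?_ ?_
  · intro x hx
    exact expG_star hR hA x hx
  · intro x y h hxy
    obtain ⟨g, ⟨h1, h2⟩ | ⟨h1, h2⟩⟩ := expG_same hR hA x y h hxy
    · left
      rw [h1]
      rfl
    · right
      rw [h1, h2]
      rfl
  · intro x y h hne
    exact (expG_diff hR hA x y h hne).1
  · intro a b h
    exact ⟨expE hA a b, expE hA b a, Or.inl ⟨a, b, h, rfl, rfl⟩, expR_expE hA a b,
      expR_expE hA b a⟩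
  · intro x y x' y' h h' hne e1 e2
    obtain ⟨-, a1, a2⟩ := expG_diff hR hA x y h hne
    obtain ⟨-, b1, b2⟩ := expG_diff hR hA x' y' h' (by rw [e1, e2]; exact hne)
    rw [e1, e2] at b1 b2
    exact ⟨b1.trans a1.symm, b2.trans a2.symm⟩

theorem expG_smul (hR : TA G R) (hA : ED G R z A) (g : G) (x y : U ⊕ (G ⧸ expK hA))
    (h : (expG hR hA).Adj x y) : (expG hR hA).Adj (g • x) (g • y) := by
  rcases h with ⟨a, b, h, h1, h2⟩ | ⟨k, ⟨h1, h2⟩ | ⟨h1, h2⟩⟩
  · left
    refine ⟨g • a, g • b, hR.adj g a b h, ?_, ?_⟩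
    · rw [h1, smul_expE]
    · rw [h2, smul_expE]
  · right
    refine ⟨g * k, Or.inl ⟨?_, ?_⟩⟩
    · rw [h1, mul_smul]; rfl
    · rw [h2]; rfl
  · right
    refine ⟨g * k, Or.inr ⟨?_, ?_⟩⟩
    · rw [h1, mul_smul]; rfl
    · rw [h2]; rfl

theorem expG_ta (hR : TA G R) (hA : ED G R z A) : TA G (expG hR hA) := by
  refine ⟨expG_tree hR hA, expG_smul hR hA, ?_⟩
  intro g x y h h1 h2
  by_cases hne : expR hA x = expR hA y
  · obtain ⟨k, ⟨h3, h4⟩ | ⟨h3, h4⟩⟩ := expG_same hR hA x y h hne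
    · rw [h3, h4] at h1
      exact Sum.inl_ne_inr h1
    · rw [h3, h4] at h2
      exact Sum.inl_ne_inr h2
  · refine hR.noinv g _ _ (expG_diff hR hA x y h hne).1 ?_ ?_
    · rw [← smul_expR, h1]
    · rw [← smul_expR, h2]

theorem expG_retr (hR : TA G R) (hA : ED G R z A) :
    Retr G (expG hR hA) (Sum.inl : U → U ⊕ (G ⧸ expK hA)) (expR hA) := by
  refine ⟨fun v => rfl, smul_expR hA, fun g v => rfl, ?_⟩
  intro x y m hxy hm
  have hT := expG_tree hR hA
  have hc : ∀ w : U ⊕ (G ⧸ expK hA), w = Sum.inl (expR hA w) ∨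
      (expG hR hA).Adj w (Sum.inl (expR hA w)) := by
    intro w
    by_cases hw : w = Sum.inl (expR hA w)
    · exact Or.inl hw
    · exact Or.inr (expG_star hR hA w hw)
  have d0 : ∀ w : U ⊕ (G ⧸ expK hA), (expG hR hA).dist w w = 0 := fun w => SimpleGraph.dist_self
  have hm' := hm
  unfold Bt at hm
  by_cases hx : m = x
  · rw [hx]
  by_cases hy : m = y
  · rw [hy, hxy]
  have p1 : (expG hR hA).dist x m ≠ 0 := fun h => hx (st1_eq hT h).symm
  have p2 : (expG hR hA).dist m y ≠ 0 := fun h => hy (st1_eq hT h)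
  have hcx := hc x
  have hcy := hc y
  rw [← hxy] at hcy
  rcases hcx with h1 | h1
  · rcases hcy with h2 | h2
    · exfalso
      rw [← h1] at h2
      rw [h2, d0] at hm
      omega
    · exfalso
      rw [← h1] at h2
      have h3 := st1_one h2.symm
      omega
  · rcases hcy with h2 | h2
    · exfalso
      rw [← h2] at h1
      have h3 := st1_one h1
      omega
    · have t := st1_tri hT x (Sum.inl (expR hA x)) y
      have h3 := st1_one h1
      have h4 := st1_one h2.symm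
      have h5 : (expG hR hA).dist x m = 1 := by omega
      have h6 : (expG hR hA).Adj x m := SimpleGraph.dist_eq_one_iff_adj.1 h5
      have h7 : m = Sum.inl (expR hA x) := by
        refine st_uniq hT h6 h1 hm' ?_
        unfold Bt
        omega
      rw [h7, expR_inl]

end

theorem exp_exists (hR : TA G R) (z : U) (A : Set U) (hA : ED G R z A) :
    ∃ (U' : Type) (_ : MulAction G U') (R' : SimpleGraph U') (φ : U → U') (ρ : U' → U) (p : U'),
      Exp G R z A R' φ ρ p := by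
  refine ⟨U ⊕ (G ⧸ expK hA), inferInstance, expG hR hA, Sum.inl, expR hA,
    Sum.inr ((1 : G) : G ⧸ expK hA), ?_⟩
  have hp : ∀ g : G, g • (Sum.inr ((1 : G) : G ⧸ expK hA) : U ⊕ (G ⧸ expK hA)) =
      Sum.inr (g : G ⧸ expK hA) := by
    intro g
    change Sum.inr ((g * 1 : G) : G ⧸ expK hA) = _
    rw [mul_one]
  refine ⟨expG_ta hR hA, expG_retr hR hA, ?_, ?_, ?_, ?_, ?_, ?_, ?_⟩
  · ext a b
    constructor
    · rintro ⟨hne, x, y, h, rfl, rfl⟩
      exact (expG_diff hR hA x y h hne).1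
    · intro h
      exact ⟨h.ne, expE hA a b, expE hA b a, Or.inl ⟨a, b, h, rfl, rfl⟩, expR_expE hA a b,
        expR_expE hA b a⟩
  · rw [expR_inr, one_smul]
  · intro x
    rcases x with a | q
    · exact Or.inl ⟨a, rfl⟩
    · induction q using QuotientGroup.induction_on with
      | H k => exact Or.inr ⟨k, hp k⟩
  · intro v h
    exact Sum.inl_ne_inr h
  · intro g
    rw [hp g, Sum.inr.injEq, eq_comm, QuotientGroup.eq, inv_one, one_mul]
    exact expK_mem hA g
  · right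
    exact ⟨1, Or.inr ⟨by rw [one_smul], rfl⟩⟩
  · intro x y h hne
    obtain ⟨h1, h2, h3⟩ := expG_diff hR hA x y h hne
    by_cases hh : ∃ g : G, g • z = expR hA x ∧ g⁻¹ • expR hA y ∈ A
    · left
      obtain ⟨g, g1, g2⟩ := hh
      refine ⟨g, g1, g2, ?_⟩
      rw [hp g, ← expE_pos hA _ _ g g1 g2]
      exact h2
    · right
      refine ⟨fun g g1 g2 => hh ⟨g, g1, g2⟩, ?_⟩
      rw [← expE_neg hA _ _ hh]
      exact h2

/-- Whitehead data are expansion data -/
theorem WD.ed {v u : U} {A : Set U} (h : WD G R v u A) : ED G R v A := by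
  refine ⟨⟨u, h.mem⟩, h.adj, ?_⟩
  intro g hg x hx hgx y hy
  exact h.stab g hg (h.disj g hg x hx hgx) y hy

end

end VF
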