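import Pool.Agent.Lib.MP_32d917_al_vf.A02

/-!
# A07: the reduced image of an axis

`b` is the axis of `w` in `R` (period `t = tl R w`), `T = tl (qG R r) w > 0`. The jumps are the `k : ℤ` with
`r (b k) ≠ r (b (k + 1))`. The set of jumps is invariant under `k ↦ k + t` and has `T` elements in a period
(`qG_tl`), so it is unbounded in both directions and discrete; enumerate it by a strictly monotone `s : ℤ → ℤ`
(e.g. `Nat.nth`-like, or: let `j_0 < ... < j_(T-1)` be the jumps in `[0, t)` (`Finset.orderEmbOfFin`) and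
`s (q T + i) = q t + j_i` with `q = n / T`, `i = n % T`). Put `c j = r (b (s j))`. Between two consecutive jumps
`r ∘ b` is constant, so `r (b k) = c (j + 1)` for `s j < k ≤ s (j + 1)`. Distances: by `qG_dist` the distance of
`r (b k)`, `r (b l)`, `k ≤ l`, is the number of jumps in `[k, l)`; for `k = s i`, `l = s j` this is `j - i`.
`w • c j = r (b (s j + t)) = r (b (s (j + T))) = c (j + T)`.

`ecN_quo`: `EOrb G (r x) (r y) (r a) (r b)` for `R`-edges `a b` with `r a ≠ r b` is equivalent to
`EOrb G x y a b` by `qG_uniq`; edges `a b` with `r a = r b` are not in the orbit of `x y`. Elements `w` with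
`T = 0`: both sides are `0`: if `tl R w > 0` then all `r (b i) = r (b (i + 1))` by `qG_tl`, so no edge of the axis is
in the orbit of `x y`. For `T > 0` use `ecn_ax` for the axes `b` and `c`: the sum over the period of `c` of
`[EOrb (r x) (r y) (c j) (c (j + 1))]` equals the sum over the jumps `s j` in a period of `b` (the number of
elements of a periodic set in `[s 0, s 0 + t) = [s 0, s T)` and in `[0, t)` is the same).
-/

set_option autoImplicit false

namespace VF

open LatIso LatN

section

variable {G : Type} [Group G] {U V : Type} [MulAction G U] [MulAction G V] {R : SimpleGraph U}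
  {φ : V → U} {r : U → V}

open Classical in
theorem a07_count (J : ℤ → Prop) :
    ∃ N : ℤ → ℤ, ∀ k, N (k + 1) = N k + if J k then 1 else 0 := by
  refine ⟨fun k => (∑ i ∈ Finset.Ico 0 k, if J i then (1 : ℤ) else 0) -
    ∑ i ∈ Finset.Ico k 0, if J i then (1 : ℤ) else 0, fun k => ?_⟩
  rcases le_or_gt 0 k with hk | hk
  · have h1 : Finset.Ico (k + 1) 0 = ∅ := Finset.Ico_eq_empty (by omega)
    have h2 : Finset.Ico k 0 = ∅ := Finset.Ico_eq_empty (by omega)
    have h3 : Finset.Ico 0 (k + 1) = insert k (Finset.Ico 0 k) := by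
      ext x
      simp only [Finset.mem_Ico, Finset.mem_insert]
      omega
    simp only [h1, h2, h3, Finset.sum_empty]
    rw [Finset.sum_insert (by simp)]
    ring
  · have h1 : Finset.Ico 0 (k + 1) = ∅ := Finset.Ico_eq_empty (by omega)
    have h2 : Finset.Ico 0 k = ∅ := Finset.Ico_eq_empty (by omega)
    have h3 : Finset.Ico k 0 = insert k (Finset.Ico (k + 1) 0) := by
      ext x
      simp only [Finset.mem_Ico, Finset.mem_insert]
      omega
    simp only [h1, h2, h3, Finset.sum_empty]
    rw [Finset.sum_insert (by simp)]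
    ring

open Classical in
theorem a07_enum (J : ℤ → Prop) (t T : ℕ) (hper : ∀ k : ℤ, J (k + t) ↔ J k)
    (hT : T = ((Finset.range t).filter fun i : ℕ => J i).card) (hT0 : 0 < T) :
    ∃ N s : ℤ → ℤ, (∀ j, N (s j) = j) ∧ (∀ j, J (s j)) ∧ (∀ k, J k → s (N k) = k) ∧
      StrictMono s ∧ (∀ j, s (j + T) = s j + t) ∧
      (∀ j k, s j < k → k < s (j + 1) → ¬ J k) ∧
      ∀ (k : ℤ) (n : ℕ),
        (((Finset.range n).filter fun i : ℕ => J (k + i)).card : ℤ) = N (k + n) - N k := by
  obtain ⟨N, hN⟩ := a07_count J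
  have hmono : Monotone N := by
    refine monotone_int_of_le_succ fun k => ?_
    rw [hN k]
    split_ifs <;> omega
  have hcount : ∀ (k : ℤ) (n : ℕ),
      (((Finset.range n).filter fun i : ℕ => J (k + i)).card : ℤ) = N (k + n) - N k := by
    intro k n
    induction n with
    | zero => simp
    | succ n ih =>
      rw [Finset.range_add_one, Finset.filter_insert]
      have h1 : N (k + ((n + 1 : ℕ) : ℤ)) = N (k + n) + if J (k + n) then 1 else 0 := by
        rw [← hN]
        congr 1
        push_cast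
        ring
      rw [h1]
      by_cases h2 : J (k + n)
      · rw [if_pos h2, if_pos h2, Finset.card_insert_of_notMem (by simp)]
        push_cast
        rw [ih]
        ring
      · rw [if_neg h2, if_neg h2, ih]
        ring
  have hper2 : ∀ k : ℤ, N (k + t) = N k + T := by
    have h0 : N (0 + t) = N 0 + T := by
      have := hcount 0 t
      simp only [zero_add] at this
      rw [zero_add, hT]
      omega
    intro k
    induction k using Int.induction_on with
    | zero => exact h0
    | succ i ih =>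
      have h1 : (i : ℤ) + 1 + t = (i + t) + 1 := by ring
      rw [h1, hN, hN, ih]
      have := hper i
      by_cases h2 : J i
      · rw [if_pos h2, if_pos (this.mpr h2)]; ring
      · rw [if_neg h2, if_neg (fun h => h2 (this.mp h))]; ring
    | pred i ih =>
      have h1 := hN (-(i : ℤ) - 1)
      have h3 := hN (-(i : ℤ) - 1 + t)
      have h4 : -(i : ℤ) - 1 + 1 = -i := by ring
      have h5 : -(i : ℤ) - 1 + t + 1 = -i + t := by ring
      rw [h4] at h1
      rw [h5, ih, h1] at h3
      have := hper (-(i : ℤ) - 1)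
      by_cases h2 : J (-(i : ℤ) - 1)
      · rw [if_pos h2, if_pos (this.mpr h2)] at h3; omega
      · rw [if_neg h2, if_neg (fun h => h2 (this.mp h))] at h3; omega
  have hper3 : ∀ m : ℤ, N (m * t) = N 0 + m * T := by
    intro m
    induction m using Int.induction_on with
    | zero => simp
    | succ i ih =>
      have h1 : ((i : ℤ) + 1) * t = i * t + t := by ring
      rw [h1, hper2, ih]
      ring
    | pred i ih =>
      have h1 := hper2 ((-(i : ℤ) - 1) * t)
      have h2 : (-(i : ℤ) - 1) * t + t = -i * t := by ring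
      rw [h2, ih] at h1
      linarith
  have hex : ∀ j : ℤ, ∃ k, N k ≤ j ∧ ∀ z, N z ≤ j → z ≤ k := by
    intro j
    have hT1 : (1 : ℤ) ≤ T := by exact_mod_cast hT0
    apply Int.exists_greatest_of_bdd
    · refine ⟨(|j - N 0| + 1) * t, fun z hz => ?_⟩
      by_contra hcon
      push Not at hcon
      have h1 := hmono hcon.le
      rw [hper3] at h1
      have h2 : j - N 0 ≤ |j - N 0| := le_abs_self _
      have h3 := abs_nonneg (j - N 0)
      nlinarith
    · refine ⟨(-|j - N 0|) * t, ?_⟩
      rw [hper3]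
      have h2 : -|j - N 0| ≤ j - N 0 := neg_abs_le _
      have h3 := abs_nonneg (j - N 0)
      nlinarith
  choose s hs1 hs2 using hex
  have hs3 : ∀ j, N (s j) = j ∧ J (s j) := by
    intro j
    have h1 := hs1 j
    have h2 : ¬ N (s j + 1) ≤ j := by
      intro h
      have := hs2 j _ h
      omega
    have h3 := hN (s j)
    by_cases h4 : J (s j)
    · rw [if_pos h4] at h3
      exact ⟨by omega, h4⟩
    · rw [if_neg h4] at h3
      omega
  have hs4 : ∀ k, J k → s (N k) = k := by
    intro k hk
    refine le_antisymm ?_ (hs2 _ _ le_rfl)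
    by_contra hcon
    push Not at hcon
    have h1 : k + 1 ≤ s (N k) := by omega
    have h2 := hmono h1
    rw [(hs3 (N k)).1, hN, if_pos hk] at h2
    omega
  refine ⟨N, s, fun j => (hs3 j).1, fun j => (hs3 j).2, hs4, ?_, ?_, ?_, hcount⟩
  · intro i j hij
    by_contra hcon
    push Not at hcon
    have h1 := hmono hcon
    rw [(hs3 i).1, (hs3 j).1] at h1
    omega
  · intro j
    have h1 : J (s j + t) := (hper _).mpr (hs3 j).2
    have h2 := hs4 _ h1
    rw [hper2, (hs3 j).1] at h2
    exact h2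
  · intro j k h1 h2 hk
    have h3 : N (s j + 1) ≤ N k := hmono (by omega)
    have h4 : N (k + 1) ≤ N (s (j + 1)) := hmono (by omega)
    rw [hN, if_pos (hs3 j).2, (hs3 j).1] at h3
    rw [hN, if_pos hk, (hs3 (j + 1)).1] at h4
    omega

theorem a07_red (hR : TA G R) (h : Retr G R φ r) (w : G) (b : ℤ → U) (hb : IsAx G R w b)
    (hT : 0 < tl (qG R r) w) :
    ∃ (N s : ℤ → ℤ) (c : ℤ → V), StrictMono s ∧ IsAx G (qG R r) w c ∧
      (∀ j : ℤ, s (j + (tl (qG R r) w : ℤ)) = s j + (tl R w : ℤ)) ∧
      (∀ j k : ℤ, s j < k → k ≤ s (j + 1) → r (b k) = c (j + 1)) ∧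
      (∀ j : ℤ, r (b (s j)) ≠ r (b (s j + 1))) ∧
      (∀ k : ℤ, r (b k) ≠ r (b (k + 1)) → s (N k) = k) ∧ ∀ j, c j = r (b (s j)) := by
  classical
  have hrb : ∀ k : ℤ, r (b (k + (tl R w : ℤ))) = w • r (b k) := by
    intro k
    rw [← hb.2.2 k, h.equ]
  obtain ⟨N, s, hNs, hJs, hsN, hmono, hper, hno, hcount⟩ := a07_enum
    (fun k : ℤ => r (b k) ≠ r (b (k + 1))) (tl R w) (tl (qG R r) w) (by
      intro k
      have h1 : k + (tl R w : ℤ) + 1 = k + 1 + (tl R w : ℤ) := by ring
      rw [h1, hrb, hrb]
      exact not_congr (smul_left_cancel_iff w)) (by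
      rw [qG_tl hR h w b hb]
      congr 1
      ext i
      simp only [Finset.mem_filter]) hT
  have hdist : ∀ (k : ℤ) (n : ℕ), ((qG R r).dist (r (b k)) (r (b (k + n))) : ℤ) = N (k + n) - N k := by
    intro k n
    rw [← hcount k n]
    have h1 := qG_dist hR.tree h (fun i : ℕ => b (k + i)) n (by
      intro i _
      have := isAx_adj hR hb (k + i)
      have h2 : k + ((i + 1 : ℕ) : ℤ) = k + i + 1 := by push_cast; ring
      show R.Adj (b (k + i)) (b (k + ((i + 1 : ℕ) : ℤ)))
      rw [h2]
      exact this) (by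
      show R.dist (b (k + ((0 : ℕ) : ℤ))) (b (k + n)) = n
      rw [hb.2.1]
      push_cast
      omega)
    have h3 : k + ((0 : ℕ) : ℤ) = k := by push_cast; ring
    simp only [h3] at h1
    rw [h1]
    congr 2
    ext i
    have h2 : k + ((i + 1 : ℕ) : ℤ) = k + i + 1 := by push_cast; ring
    simp only [Finset.mem_filter, h2]
  have hcst : ∀ j k : ℤ, s j < k → k ≤ s (j + 1) → r (b k) = r (b (s (j + 1))) := by
    intro j k h1 h2
    obtain ⟨m, hm⟩ := Int.le.dest h2
    induction m generalizing k with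
    | zero =>
      have : k = s (j + 1) := by simpa using hm
      rw [this]
    | succ m ih =>
      push_cast at hm
      have h3 : r (b k) = r (b (k + 1)) := by
        by_contra hne
        exact hno j k h1 (by omega) hne
      rw [h3]
      exact ih (k + 1) (by omega) (by omega) (by omega)
  have hdd : ∀ i j : ℤ, i ≤ j →
      (qG R r).dist (r (b (s i))) (r (b (s j))) = (i - j).natAbs := by
    intro i j hij
    obtain ⟨m, hm⟩ := Int.le.dest (hmono.monotone hij)
    have h1 := hdist (s i) m
    rw [hm, hNs, hNs] at h1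
    omega
  refine ⟨N, s, fun j => r (b (s j)), hmono, ⟨hT, ?_, ?_⟩, hper, hcst, hJs, hsN, fun j => rfl⟩
  · intro i j
    rcases le_total i j with hij | hij
    · exact hdd i j hij
    · rw [SimpleGraph.dist_comm, hdd j i hij]
      omega
  · intro i
    show w • r (b (s i)) = r (b (s (i + (tl (qG R r) w : ℤ))))
    rw [hper, hrb]

theorem ax_red (hR : TA G R) (h : Retr G R φ r) (w : G) (b : ℤ → U) (hb : IsAx G R w b)
    (hT : 0 < tl (qG R r) w) :
    ∃ (s : ℤ → ℤ) (c : ℤ → V), StrictMono s ∧ IsAx G (qG R r) w c ∧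
      (∀ j : ℤ, s (j + (tl (qG R r) w : ℤ)) = s j + (tl R w : ℤ)) ∧
      (∀ j k : ℤ, s j < k → k ≤ s (j + 1) → r (b k) = c (j + 1)) ∧
      ∀ j : ℤ, r (b (s j)) ≠ r (b (s j + 1)) := by
  obtain ⟨_, s, c, h1, h2, h3, h4, h5, _, _⟩ := a07_red hR h w b hb hT
  exact ⟨s, c, h1, h2, h3, h4, h5⟩

theorem a07_eorb (hR : TA G R) (h : Retr G R φ r) {x y a b : U} (hxy : R.Adj x y) (hne : r x ≠ r y)
    (hab : R.Adj a b) : EOrb G (r x) (r y) (r a) (r b) ↔ EOrb G x y a b := by
  constructor
  · rintro ⟨g, ⟨h1, h2⟩ | ⟨h1, h2⟩⟩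
    · rw [← h.equ] at h1 h2
      have hne' : r (g • x) ≠ r (g • y) := by
        rw [h.equ, h.equ]
        exact fun h0 => hne (smul_left_cancel g h0)
      obtain ⟨h3, h4⟩ := qG_uniq hR.tree h (hR.adj g x y hxy) hab hne' h1.symm h2.symm
      exact ⟨g, Or.inl ⟨h3.symm, h4.symm⟩⟩
    · rw [← h.equ] at h1 h2
      have hne' : r (g • x) ≠ r (g • y) := by
        rw [h.equ, h.equ]
        exact fun h0 => hne (smul_left_cancel g h0)
      obtain ⟨h3, h4⟩ := qG_uniq hR.tree h (hR.adj g x y hxy) hab.symm hne' h1.symm h2.symm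
      exact ⟨g, Or.inr ⟨h3.symm, h4.symm⟩⟩
  · rintro ⟨g, ⟨h1, h2⟩ | ⟨h1, h2⟩⟩
    · exact ⟨g, Or.inl ⟨by rw [← h.equ, h1], by rw [← h.equ, h2]⟩⟩
    · exact ⟨g, Or.inr ⟨by rw [← h.equ, h1], by rw [← h.equ, h2]⟩⟩

theorem a07_quo (hR : TA G R) (h : Retr G R φ r) (w : G) {x y : U}
    (hxy : R.Adj x y) (hne : r x ≠ r y) : ecn G (qG R r) (r x) (r y) w = ecn G R x y w := by
  classical
  have hno : ∀ a b, EOrb G x y a b → r a ≠ r b := by
    rintro a b ⟨g, ⟨rfl, rfl⟩ | ⟨rfl, rfl⟩⟩ h0
    · rw [h.equ, h.equ] at h0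
      exact hne (smul_left_cancel g h0)
    · rw [h.equ, h.equ] at h0
      exact hne (smul_left_cancel g h0).symm
  rcases Nat.eq_zero_or_pos (tl (qG R r) w) with hT | hT
  · rw [ecn_zero w hT]
    rcases Nat.eq_zero_or_pos (tl R w) with ht | ht
    · rw [ecn_zero w ht]
    · obtain ⟨b, hb⟩ := isAx_exists hR w ht
      rw [ecn_ax hR w b hb]
      have h1 := qG_tl hR h w b hb
      rw [hT] at h1
      symm
      have h2 := Finset.card_eq_zero.mp h1.symm
      rw [Finset.card_eq_zero, Finset.filter_eq_empty_iff]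
      intro i hi hE
      exact (Finset.filter_eq_empty_iff.mp h2) hi (hno _ _ hE)
  · have ht : 0 < tl R w := by
      rcases Nat.eq_zero_or_pos (tl R w) with ht | ht
      · rw [qG_tl0 hR h w ht] at hT
        exact absurd hT (lt_irrefl _)
      · exact ht
    obtain ⟨b, hb⟩ := isAx_exists hR w ht
    obtain ⟨N, s, c, hmono, hc, hper, hcst, hJs, hsN, hcs⟩ := a07_red hR h w b hb hT
    have hb' : IsAx G R w (fun i => b (i + s 0)) := by
      refine ⟨ht, fun i j => ?_, fun i => ?_⟩
      · show R.dist (b (i + s 0)) (b (j + s 0)) = _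
        rw [hb.2.1]
        congr 1
        ring
      · show w • b (i + s 0) = b (i + (tl R w : ℤ) + s 0)
        rw [hb.2.2]
        congr 1
        ring
    rw [ecn_ax (qG_ta hR h) w c hc, ecn_ax hR w _ hb']
    have hcs1 : ∀ j, c (j + 1) = r (b (s j + 1)) := by
      intro j
      have h1 : s j < s (j + 1) := hmono (by omega)
      exact (hcst j (s j + 1) (by omega) (by omega)).symm
    have hQ : ∀ j : ℤ, EOrb G (r x) (r y) (c j) (c (j + 1)) ↔
        EOrb G x y (b (s j)) (b (s j + 1)) := by
      intro j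
      rw [hcs, hcs1]
      exact a07_eorb hR h hxy hne (isAx_adj hR hb _)
    have hsT : s (tl (qG R r) w : ℤ) = s 0 + (tl R w : ℤ) := by
      have := hper 0
      rw [zero_add] at this
      exact this
    have hs0 : ∀ j : ℕ, s 0 ≤ s j := fun j => hmono.monotone (by omega)
    refine Finset.card_bij (fun j _ => (s j - s 0).toNat) ?_ ?_ ?_
    · intro j hj
      rw [Finset.mem_filter, Finset.mem_range] at hj ⊢
      have h1 := hs0 j
      have h2 : s j < s (tl (qG R r) w : ℤ) := hmono (by exact_mod_cast hj.1)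
      rw [hsT] at h2
      refine ⟨by omega, ?_⟩
      have h3 : (((s j - s 0).toNat : ℕ) : ℤ) + s 0 = s j := by omega
      have h4 : (((s j - s 0).toNat : ℕ) : ℤ) + 1 + s 0 = s j + 1 := by omega
      show EOrb G x y (b ((((s j - s 0).toNat : ℕ) : ℤ) + s 0))
        (b ((((s j - s 0).toNat : ℕ) : ℤ) + 1 + s 0))
      rw [h3, h4]
      exact (hQ j).mp hj.2
    · intro i hi j hj hij
      have h1 := hs0 i
      have h2 := hs0 j
      have h3 : s i = s j := by
        have : (s i - s 0).toNat = (s j - s 0).toNat := hij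
        omega
      exact_mod_cast hmono.injective h3
    · intro k hk
      rw [Finset.mem_filter, Finset.mem_range] at hk
      obtain ⟨hk1, hk2⟩ := hk
      have hk3 : EOrb G x y (b ((k : ℤ) + s 0)) (b ((k : ℤ) + 1 + s 0)) := hk2
      have h1 : (k : ℤ) + 1 + s 0 = (k : ℤ) + s 0 + 1 := by ring
      rw [h1] at hk3
      have h2 := hsN _ (hno _ _ hk3)
      set j := N ((k : ℤ) + s 0) with hj
      have h3 : 0 ≤ j := by
        have : s 0 ≤ s j := by rw [h2]; omega
        exact hmono.le_iff_le.mp this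
      have h4 : j < (tl (qG R r) w : ℤ) := by
        have : s j < s (tl (qG R r) w : ℤ) := by rw [h2, hsT]; omega
        exact hmono.lt_iff_lt.mp this
      refine ⟨j.toNat, ?_, ?_⟩
      · rw [Finset.mem_filter, Finset.mem_range]
        refine ⟨by omega, ?_⟩
        rw [Int.toNat_of_nonneg h3, hQ, h2]
        exact hk3
      · show (s ((j.toNat : ℕ) : ℤ) - s 0).toNat = k
        rw [Int.toNat_of_nonneg h3, h2]
        omega

theorem ecN_quo (hR : TA G R) (h : Retr G R φ r) {ι : Type} [Fintype ι] (W : ι → G) {x y : U}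
    (hxy : R.Adj x y) (hne : r x ≠ r y) : ecN G (qG R r) (r x) (r y) W = ecN G R x y W := by
  unfold ecN
  exact Finset.sum_congr rfl fun i _ => a07_quo hR h (W i) hxy hne

end

end VF
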