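import Pool.Agent.Lib.MP_32d917_al_vf.A07

/-!
# A08: turns

For every `w = W i` with `tl S w > 0` choose an axis `c` in `S` (`isAx_exists`); for `0 ≤ j < tl S w` with
`c j = g v` for some `g` (choose `g`), the turn is `(g⁻¹ c (j - 1), g⁻¹ c (j + 1))`. `τ` is the list of all these turns
(concatenation over `i` and `j`).

`adj`: clear.
`one`: the edge `c j, c (j + 1)` is in the orbit of `v u` iff either `c j = g v` and `g⁻¹ c (j + 1)` is in the orbit of
`u` under the stabiliser `H` of `v`, or `c (j + 1) = g v` and `g⁻¹ c j` is in this orbit; these are exclusive (`noinv`).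
So the number of edges in a period is the number of `j` in a period with `c j = g v` and `g⁻¹ c (j + 1) ∈ H u` plus
the number of `j` with `c (j + 1) = g v`, `g⁻¹ c j ∈ H u`; shifting the second one by `1` (periodicity) we get the sum of
`[y ∈ H u] + [x ∈ H u]` over the turns `(x, y)`, and this is `dA v {u} x y` as `x ≠ y` (`h x = h y = u` is impossible).
`exp`: let `b` be the axis of `w` in `R` and `s`, `c'` as in `ax_red`, `c'` is an axis in `S` (differs from `c` by a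
shift, see `ecn_ax`; so we may assume that the turns are computed from `c'`, or prove first that the sum over the
turns of `w` does not depend on the axis; the choice of `g` does not matter since `dA` is invariant under `H`). The
edges `b k, b (k + 1)` in the orbit of `x y` are not jumps (`ρ x = ρ y`), so `s (j - 1) < k < k + 1 ≤ s j` for a unique `j`,
and `ρ (b k) = c' j = g v` for an element `g`. So the count in one period is the sum over `j` of the number `N j` of
the edges `b k, b (k + 1)`, `s (j - 1) < k < s j`, in the orbit. Let `a1 = g⁻¹ b (s (j - 1) + 1)`, `a2 = g⁻¹ b (s j)`, both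
in the fibre of `v`, `b1 = g⁻¹ b (s (j - 1))`, `b2 = g⁻¹ b (s j + 1)`, `(d1, d2) = (ρ b1, ρ b2)` the turn. The edges in
the orbit of `x y` inside the fibre of `v` are the edges `h x, h y` with `h ∈ H`. The geodesic from `a1` to `a2` contains
the edge `h x, h y` iff exactly one of `a1`, `a2` is on the side of `h x`, i.e. iff exactly one of `h⁻¹ d1 ∈ A`,
`h⁻¹ d2 ∈ A` holds (hypothesis on `A`). The edge `h x, h y` determines `h x` (the end which is further from `φ v`); by the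
last hypothesis all `h` with `h⁻¹ d1 ∈ A` have the same `h x`; if `h x = h' x` then `h' ⁻¹ h` fixes `x` and `φ v`, so `y`,
and preserves `A` (hypothesis on `A`, translated). So `N j = dA v A d1 d2`.
Elements with `tl S w = 0` have `tl R w = 0` (a fixed vertex `a` gives the fixed vertex `φ a`), contribution `0`.
-/

set_option autoImplicit false

namespace VF

open LatIso LatN

section

variable {G : Type} [Group G] {V : Type} [MulAction G V] {S : SimpleGraph V}

open Classical in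
/-- contribution of the path `a b c` -/
noncomputable def n3 (G : Type) [Group G] {V : Type} [MulAction G V] (v : V) (A : Set V)
    (a b c : V) : ℕ :=
  if ∃ g : G, g • v = b ∧ g⁻¹ • a ∈ A ∧ g⁻¹ • c ∈ A then 0 else
    (if ∃ g : G, g • v = b ∧ g⁻¹ • a ∈ A then 1 else 0) +
      (if ∃ g : G, g • v = b ∧ g⁻¹ • c ∈ A then 1 else 0)

theorem a08_ex (v : V) (P : V → V → Prop) {g0 : G} {a b c : V} (h : g0 • v = b) :
    (∃ k : G, k • v = v ∧ P (k • g0⁻¹ • a) (k • g0⁻¹ • c)) ↔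
      ∃ g : G, g • v = b ∧ P (g⁻¹ • a) (g⁻¹ • c) := by
  constructor
  · rintro ⟨k, hk, hP⟩
    refine ⟨g0 * k⁻¹, ?_, ?_⟩
    · rw [mul_smul, ← h]
      congr 1
      rw [inv_smul_eq_iff]
      exact hk.symm
    · rw [mul_inv_rev, inv_inv, mul_smul, mul_smul]
      exact hP
  · rintro ⟨g, hg, hP⟩
    refine ⟨g⁻¹ * g0, ?_, ?_⟩
    · rw [mul_smul, h, ← hg, inv_smul_smul]
    · rw [mul_smul, mul_smul, smul_inv_smul, smul_inv_smul]
      exact hP

theorem n3_eq (v : V) (A : Set V) {g0 : G} {a b c : V} (h : g0 • v = b) :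
    dA G v A (g0⁻¹ • a) (g0⁻¹ • c) = n3 G v A a b c := by
  have e0 := a08_ex v (fun x y => x ∈ A ∧ y ∈ A) (a := a) (c := c) h
  have e1 := a08_ex v (fun x _ => x ∈ A) (a := a) (c := c) h
  have e2 := a08_ex v (fun _ y => y ∈ A) (a := a) (c := c) h
  unfold dA n3
  beta_reduce at e0 e1 e2
  classical
  simp only [e0, e1, e2]

theorem n3_no (v : V) (A : Set V) {a b c : V} (h : ¬ ∃ g : G, g • v = b) :
    n3 G v A a b c = 0 := by
  unfold n3
  rw [if_neg (fun ⟨g, hg, _⟩ => h ⟨g, hg⟩), if_neg (fun ⟨g, hg, _⟩ => h ⟨g, hg⟩),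
    if_neg (fun ⟨g, hg, _⟩ => h ⟨g, hg⟩)]

theorem a08_ex2 (v : V) (P : V → V → Prop) (w : G) {a b c : V} :
    (∃ g : G, g • v = w • b ∧ P (g⁻¹ • w • a) (g⁻¹ • w • c)) ↔
      ∃ g : G, g • v = b ∧ P (g⁻¹ • a) (g⁻¹ • c) := by
  constructor
  · rintro ⟨g, hg, hP⟩
    refine ⟨w⁻¹ * g, ?_, ?_⟩
    · rw [mul_smul, hg, inv_smul_smul]
    · rw [mul_inv_rev, inv_inv, mul_smul, mul_smul]
      exact hP
  · rintro ⟨g, hg, hP⟩
    refine ⟨w * g, ?_, ?_⟩
    · rw [mul_smul, hg]
    · rw [mul_inv_rev, mul_smul, mul_smul, inv_smul_smul, inv_smul_smul]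
      exact hP

theorem n3_tr (v : V) (A : Set V) (w : G) (a b c : V) :
    n3 G v A (w • a) (w • b) (w • c) = n3 G v A a b c := by
  have e0 := a08_ex2 v (fun x y => x ∈ A ∧ y ∈ A) w (a := a) (b := b) (c := c)
  have e1 := a08_ex2 v (fun x _ => x ∈ A) w (a := a) (b := b) (c := c)
  have e2 := a08_ex2 v (fun _ y => y ∈ A) w (a := a) (b := b) (c := c)
  unfold n3
  beta_reduce at e0 e1 e2
  classical
  simp only [e0, e1, e2]

theorem a08_iso (f : ℤ → ℤ) (T : ℤ) (hT : 0 < T)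
    (h : ∀ i j, (f i - f j).natAbs = (i - j).natAbs) (hf : ∀ i, f (i + T) = f i + T) (i : ℤ) :
    f i = i + f 0 := by
  have h1 := h i 0
  have h2 := h i T
  have h3 := hf 0
  rw [zero_add] at h3
  omega

theorem a08_shift0 (hS : TA G S) {w : G} (b0 : ℤ → V)
    (hb1 : ∀ i j, S.dist (b0 i) (b0 j) = (i - j).natAbs)
    (hb2 : ∀ i, w • b0 i = b0 (i + tl S w)) (hb3 : ∀ x, x ∈ CC S w ↔ ∃ i, b0 i = x)
    {c : ℤ → V} (hc : IsAx G S w c) : ∃ k : ℤ, ∀ i, c i = b0 (i + k) := by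
  have hcc : ∀ i, c i ∈ CC S w := by
    intro i
    show S.dist (c i) (w • c i) = tl S w
    rw [hc.2.2, hc.2.1]
    omega
  choose f hf using fun i => (hb3 _).1 (hcc i)
  have hinj : ∀ i j, b0 i = b0 j → i = j := by
    intro i j hij
    have h1 := hb1 i j
    rw [hij, SimpleGraph.dist_self] at h1
    omega
  refine ⟨f 0, fun i => ?_⟩
  rw [← hf i]
  congr 1
  apply a08_iso f (tl S w) (by exact_mod_cast hc.1)
  · intro i j
    rw [← hb1, hf, hf, hc.2.1]
  · intro i
    apply hinj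
    rw [hf, ← hb2, hf, hc.2.2]

theorem a08_shift (hS : TA G S) {w : G} {c c' : ℤ → V} (hc : IsAx G S w c)
    (hc' : IsAx G S w c') : ∃ k : ℤ, ∀ i, c' i = c (i + k) := by
  obtain ⟨b0, hb1, hb2, hb3⟩ := tl_line hS w hc.1
  obtain ⟨k, hk⟩ := a08_shift0 hS b0 hb1 hb2 hb3 hc
  obtain ⟨k', hk'⟩ := a08_shift0 hS b0 hb1 hb2 hb3 hc'
  refine ⟨k' - k, fun i => ?_⟩
  rw [hk, hk']
  congr 1
  ring

theorem a08_per (F : ℤ → ℕ) (T : ℕ) (hF : ∀ i, F (i + T) = F i) (k : ℤ) :
    ∑ i ∈ Finset.range T, F (i + k) = ∑ i ∈ Finset.range T, F i := by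
  have step : ∀ k : ℤ, ∑ i ∈ Finset.range T, F (i + (k + 1)) = ∑ i ∈ Finset.range T, F (i + k) := by
    intro k
    have h1 := Finset.sum_range_succ (fun i : ℕ => F (i + k)) T
    have h2 := Finset.sum_range_succ' (fun i : ℕ => F (i + k)) T
    have h3 : F ((T : ℕ) + k) = F (((0 : ℕ) : ℤ) + k) := by
      rw [add_comm, hF]
      simp
    have h4 : ∀ i ∈ Finset.range T, F (((i + 1 : ℕ) : ℤ) + k) = F (i + (k + 1)) := by
      intro i _
      congr 1
      push_cast
      ring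
    rw [Finset.sum_congr rfl h4] at h2
    omega
  induction k with
  | zero => simp
  | succ k ih => rw [step, ih]
  | pred k ih =>
    rw [← ih, ← step]
    simp

theorem a08_ico1 (f : ℤ → ℕ) (a : ℤ) (t : ℕ) :
    ∑ k ∈ Finset.Ico a (a + t), f k = ∑ k ∈ Finset.range t, f (k + a) := by
  induction t with
  | zero => simp
  | succ t ih =>
    rw [Finset.sum_range_succ, ← ih]
    have h : Finset.Ico a (a + ((t + 1 : ℕ) : ℤ)) = insert (a + t) (Finset.Ico a (a + t)) := by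
      ext z
      simp only [Finset.mem_Ico, Finset.mem_insert]
      push_cast
      omega
    rw [h, Finset.sum_insert (by simp), add_comm]
    congr 2
    ring

theorem a08_ico2 (f : ℤ → ℕ) (s : ℤ → ℤ) (hs : StrictMono s) (n : ℕ) :
    ∑ k ∈ Finset.Ico (s 0) (s n), f k =
      ∑ j ∈ Finset.range n, ∑ k ∈ Finset.Ico (s j) (s (j + 1)), f k := by
  induction n with
  | zero => simp
  | succ n ih =>
    rw [Finset.sum_range_succ, ← ih]
    have h1 : s 0 ≤ s n := hs.monotone (by positivity)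
    have h2 : s n ≤ s (n + 1) := hs.monotone (by omega)
    have h : Finset.Ico (s 0) (s ((n + 1 : ℕ) : ℤ)) =
        Finset.Ico (s 0) (s n) ∪ Finset.Ico (s n) (s (n + 1)) := by
      push_cast
      exact (Finset.Ico_union_Ico_eq_Ico h1 h2).symm
    rw [h, Finset.sum_union (Finset.Ico_disjoint_Ico_consecutive _ _ _)]

open Classical in
theorem a08_card (s : Finset ℤ) (P : ℤ → Prop)
    (h : ∀ k ∈ s, ∀ k' ∈ s, P k → P k' → k = k') :
    (s.filter P).card = if ∃ k ∈ s, P k then 1 else 0 := by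
  by_cases hc : ∃ k ∈ s, P k
  · rw [if_pos hc]
    obtain ⟨k, hk, hP⟩ := hc
    rw [Finset.card_eq_one]
    refine ⟨k, ?_⟩
    ext z
    rw [Finset.mem_filter, Finset.mem_singleton]
    constructor
    · rintro ⟨hz0, hz⟩
      exact h _ hz0 _ hk hz hP
    · rintro rfl
      exact ⟨hk, hP⟩
  · rw [if_neg hc, Finset.card_eq_zero]
    ext z
    rw [Finset.mem_filter]
    constructor
    · rintro ⟨hz, hPz⟩
      exact absurd ⟨z, hz, hPz⟩ hc
    · intro hz
      simp at hz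

section Local

variable {U : Type} [MulAction G U] {R : SimpleGraph U} {φ : V → U} {ρ : U → V} {x y : U}
  {A : Set V} {v : V}

theorem a08_T1 (hR : TA G R) (hρ : Retr G R φ ρ)
    (hA1 : ∀ a b, R.Adj a b → ρ a = v → ρ b ≠ v → (ρ b ∈ A ↔ Bt R a x y)) {g : G} {e : V}
    (hg : g • v = e) {a b : U} (hab : R.Adj a b) (ha : ρ a = e) (hb : ρ b ≠ e) :
    g⁻¹ • ρ b ∈ A ↔ Bt R a (g • x) (g • y) := by
  have h1 := hA1 (g⁻¹ • a) (g⁻¹ • b) (hR.adj _ _ _ hab)
    (by rw [hρ.equ, ha, ← hg, inv_smul_smul])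
    (by
      rw [hρ.equ]
      intro h
      apply hb
      rw [inv_smul_eq_iff, hg] at h
      exact h)
  rw [hρ.equ] at h1
  rw [h1, ← ta_bt hR g, smul_inv_smul]

theorem a08_T2 (hR : TA G R) (hρ : Retr G R φ ρ) (hxy : R.Adj x y) (hB : Bt R x y (φ v))
    {g g' : G} (hg : g • v = g' • v) (hx : g • x = g' • x) : g • y = g' • y := by
  have h1 : (g'⁻¹ * g) • v = v := by rw [mul_smul, hg, inv_smul_smul]
  have h2 : (g'⁻¹ * g) • x = x := by rw [mul_smul, hx, inv_smul_smul]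
  have h3 := hR.adj (g'⁻¹ * g) _ _ hxy
  have h4 := (ta_bt hR (g'⁻¹ * g) x y (φ v)).2 hB
  rw [h2] at h3 h4
  rw [← hρ.sequ, h1] at h4
  have h5 := st_uniq hR.tree h3 hxy h4 hB
  rw [mul_smul, inv_smul_eq_iff] at h5
  exact h5

theorem a08_T3 (hA2 : ∀ h : G, h • v = v → ∀ d ∈ A, h • d ∈ A → h • x = x) {g g' : G} {e d : V}
    (hg : g • v = e) (hg' : g' • v = e) (hd : g⁻¹ • d ∈ A) (hd' : g'⁻¹ • d ∈ A) :
    g • x = g' • x := by
  have h1 := hA2 (g'⁻¹ * g) (by rw [mul_smul, hg, ← hg', inv_smul_smul]) _ hd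
    (by rw [mul_smul, smul_inv_smul]; exact hd')
  rw [mul_smul, inv_smul_eq_iff] at h1
  exact h1

theorem a08_local (hR : TA G R) (hρ : Retr G R φ ρ) (hxy : R.Adj x y) (hB : Bt R x y (φ v))
    (hA1 : ∀ a b, R.Adj a b → ρ a = v → ρ b ≠ v → (ρ b ∈ A ↔ Bt R a x y))
    (hA2 : ∀ h : G, h • v = v → ∀ d ∈ A, h • d ∈ A → h • x = x) (β : ℤ → U)
    (hβ : ∀ i j, R.dist (β i) (β j) = (i - j).natAbs) (p q : ℤ) (hpq : p ≤ q) (e : V)
    (b1 b2 : U) (h1 : R.Adj (β p) b1) (h2 : R.Adj (β q) b2) (hp : ρ (β p) = e)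
    (hq : ρ (β q) = e) (hb1 : ρ b1 ≠ e) (hb2 : ρ b2 ≠ e) :
    (∃ k ∈ Finset.Ico p q, ∃ g : G, g • v = e ∧ g • x = β k ∧ g • y = β (k + 1)) ↔
      (∃ g : G, g • v = e ∧ g⁻¹ • ρ b1 ∈ A) ∧
        ¬ ∃ g : G, g • v = e ∧ g⁻¹ • ρ b1 ∈ A ∧ g⁻¹ • ρ b2 ∈ A := by
  constructor
  · rintro ⟨k, hk, g, hg, hgx, hgy⟩
    rw [Finset.mem_Ico] at hk
    have h3 : g⁻¹ • ρ b1 ∈ A := by
      rw [a08_T1 hR hρ hA1 hg h1 hp hb1, hgx, hgy]
      unfold Bt
      rw [hβ, hβ, hβ]
      omega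
    refine ⟨⟨g, hg, h3⟩, ?_⟩
    rintro ⟨g', hg', h4, h5⟩
    have h6 := a08_T3 hA2 hg hg' h3 h4
    have h7 := a08_T2 hR hρ hxy hB (hg.trans hg'.symm) h6
    rw [a08_T1 hR hρ hA1 hg' h2 hq hb2, ← h6, ← h7, hgx, hgy] at h5
    unfold Bt at h5
    rw [hβ, hβ, hβ] at h5
    omega
  · rintro ⟨⟨g, hg, h3⟩, h4⟩
    have h5 : g⁻¹ • ρ b2 ∉ A := fun h => h4 ⟨g, hg, h3, h⟩
    rw [a08_T1 hR hρ hA1 hg h1 hp hb1] at h3
    rw [a08_T1 hR hρ hA1 hg h2 hq hb2] at h5
    have hadj : R.Adj (g • x) (g • y) := hR.adj g _ _ hxy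
    have e1 := st1_one hadj
    have e2 : R.dist (g • y) (g • x) = 1 := st1_one hadj.symm
    have h6 : R.dist (β q) (g • x) = R.dist (β q) (g • y) + 1 := by
      rcases st_adj hR.tree hadj (β q) with h | h
      · exact absurd (by unfold Bt; omega) h5
      · exact h
    have c1 : R.dist (g • x) (β q) = R.dist (β q) (g • x) := SimpleGraph.dist_comm
    have c2 : R.dist (g • y) (β q) = R.dist (β q) (g • y) := SimpleGraph.dist_comm
    have h7 : Bt R (β p) (g • x) (β q) := by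
      rcases st_bt hR.tree h3 (β q) with h | h
      · exact h
      · unfold Bt at h
        omega
    have h8 : Bt R (β p) (g • y) (β q) := by
      unfold Bt at h3 h7 ⊢
      omega
    have h9 := hβ p q
    have hpq' : R.dist (β p) (β q) = (q - p).toNat := by omega
    have h10 : β (p + R.dist (β p) (g • x)) = g • x := by
      have hle : R.dist (β p) (g • x) ≤ (q - p).toNat := by
        unfold Bt at h7
        omega
      apply st_pt_uniq hR.tree (x := β p) (y := β q) _ h7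
      · rw [hβ]
        omega
      · unfold Bt
        rw [hβ, hβ, hβ]
        omega
    have h11 : β (p + R.dist (β p) (g • x) + 1) = g • y := by
      have hle : R.dist (β p) (g • y) ≤ (q - p).toNat := by
        unfold Bt at h8
        omega
      have h12 : R.dist (β p) (g • y) = R.dist (β p) (g • x) + 1 := by
        unfold Bt at h3
        omega
      apply st_pt_uniq hR.tree (x := β p) (y := β q) _ h8
      · rw [hβ]
        omega
      · unfold Bt
        rw [hβ, hβ, hβ]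
        omega
    refine ⟨p + R.dist (β p) (g • x), ?_, g, hg, h10.symm, h11.symm⟩
    rw [Finset.mem_Ico]
    unfold Bt at h3 h8
    omega

end Local

section Count

variable {U : Type} [MulAction G U] {R : SimpleGraph U} {φ : V → U} {ρ : U → V} {x y : U}
  {A : Set V} {v : V}

open Classical in
theorem a08_seg (hR : TA G R) (hρ : Retr G R φ ρ) (hxy : R.Adj x y) (hx : ρ x = v)
    (hB : Bt R x y (φ v))
    (hA1 : ∀ a b, R.Adj a b → ρ a = v → ρ b ≠ v → (ρ b ∈ A ↔ Bt R a x y))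
    (hA2 : ∀ h : G, h • v = v → ∀ d ∈ A, h • d ∈ A → h • x = x) (β : ℤ → U)
    (hβ : ∀ i j, R.dist (β i) (β j) = (i - j).natAbs) (p q : ℤ) (hpq : p ≤ q) (e : V)
    (b1 b2 : U) (h1 : R.Adj (β p) b1) (h2 : R.Adj (β q) b2)
    (hm : ∀ k, p ≤ k → k ≤ q → ρ (β k) = e) (hb1 : ρ b1 ≠ e) (hb2 : ρ b2 ≠ e) :
    (∑ k ∈ Finset.Ico p q, if EOrb G x y (β k) (β (k + 1)) then 1 else 0) =
      n3 G v A (ρ b1) e (ρ b2) := by
  have hsplit : ∀ k ∈ Finset.Ico p q, (if EOrb G x y (β k) (β (k + 1)) then 1 else 0) =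
      (if ∃ g : G, g • v = e ∧ g • x = β k ∧ g • y = β (k + 1) then 1 else 0) +
        (if ∃ g : G, g • v = e ∧ g • x = β (k + 1) ∧ g • y = β k then 1 else 0) := by
    intro k hk
    rw [Finset.mem_Ico] at hk
    have hadj : R.Adj (β k) (β (k + 1)) := by
      rw [← SimpleGraph.dist_eq_one_iff_adj, hβ]
      omega
    by_cases c1 : ∃ g : G, g • v = e ∧ g • x = β k ∧ g • y = β (k + 1)
    · have c2 : ¬ ∃ g : G, g • v = e ∧ g • x = β (k + 1) ∧ g • y = β k := by
        rintro ⟨g', _, h4, h5⟩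
        obtain ⟨g, _, h6, h7⟩ := c1
        apply hR.noinv (g' * g⁻¹) _ _ hadj
        · rw [← h6, mul_smul, inv_smul_smul, h4]
        · rw [← h7, mul_smul, inv_smul_smul, h5]
      rw [if_pos c1, if_neg c2, if_pos]
      obtain ⟨g, _, h6, h7⟩ := c1
      exact ⟨g, Or.inl ⟨h6, h7⟩⟩
    · by_cases c2 : ∃ g : G, g • v = e ∧ g • x = β (k + 1) ∧ g • y = β k
      · rw [if_neg c1, if_pos c2, if_pos]
        obtain ⟨g, _, h6, h7⟩ := c2
        exact ⟨g, Or.inr ⟨h6, h7⟩⟩
      · rw [if_neg c1, if_neg c2, if_neg]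
        rintro ⟨g, ⟨h6, h7⟩ | ⟨h6, h7⟩⟩
        · apply c1
          refine ⟨g, ?_, h6, h7⟩
          rw [← hx, ← hρ.equ, h6]
          exact hm k hk.1 (by omega)
        · apply c2
          refine ⟨g, ?_, h6, h7⟩
          rw [← hx, ← hρ.equ, h6]
          exact hm (k + 1) (by omega) (by omega)
  have hinj : ∀ i j, β i = β j → i = j := by
    intro i j hij
    have h3 := hβ i j
    rw [hij, SimpleGraph.dist_self] at h3
    omega
  rw [Finset.sum_congr rfl hsplit, Finset.sum_add_distrib, ← Finset.card_filter,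
    ← Finset.card_filter]
  have hc1 := a08_card (Finset.Ico p q)
    (fun k => ∃ g : G, g • v = e ∧ g • x = β k ∧ g • y = β (k + 1)) (by
      rintro k hk k' hk' ⟨g, hg, hgx, hgy⟩ ⟨g', hg', hgx', hgy'⟩
      rw [Finset.mem_Ico] at hk hk'
      apply hinj
      rw [← hgx, ← hgx']
      have key : ∀ (k : ℤ) (g : G), p ≤ k → k < q → g • v = e → g • x = β k →
          g • y = β (k + 1) → g⁻¹ • ρ b1 ∈ A := by
        intro k g hk1 hk2 hg hgx hgy
        rw [a08_T1 hR hρ hA1 hg h1 (hm p le_rfl hpq) hb1, hgx, hgy]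
        unfold Bt
        rw [hβ, hβ, hβ]
        omega
      exact a08_T3 hA2 hg hg' (key k g hk.1 hk.2 hg hgx hgy) (key k' g' hk'.1 hk'.2 hg' hgx' hgy'))
  have hc2 := a08_card (Finset.Ico p q)
    (fun k => ∃ g : G, g • v = e ∧ g • x = β (k + 1) ∧ g • y = β k) (by
      rintro k hk k' hk' ⟨g, hg, hgx, hgy⟩ ⟨g', hg', hgx', hgy'⟩
      rw [Finset.mem_Ico] at hk hk'
      have key : ∀ (k : ℤ) (g : G), p ≤ k → k < q → g • v = e → g • x = β (k + 1) →
          g • y = β k → g⁻¹ • ρ b2 ∈ A := by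
        intro k g hk1 hk2 hg hgx hgy
        rw [a08_T1 hR hρ hA1 hg h2 (hm q hpq le_rfl) hb2, hgx, hgy]
        unfold Bt
        rw [hβ, hβ, hβ]
        omega
      have h3 := a08_T3 hA2 hg hg' (key k g hk.1 hk.2 hg hgx hgy)
        (key k' g' hk'.1 hk'.2 hg' hgx' hgy')
      rw [hgx, hgx'] at h3
      have := hinj _ _ h3
      omega)
  rw [hc1, hc2]
  have hl1 := a08_local hR hρ hxy hB hA1 hA2 β hβ p q hpq e b1 b2 h1 h2 (hm p le_rfl hpq)
    (hm q hpq le_rfl) hb1 hb2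
  have hl2 := a08_local hR hρ hxy hB hA1 hA2 (fun i => β (p + q - i)) (by
      intro i j
      rw [hβ]
      omega) p q hpq e b2 b1 (by
      show R.Adj (β (p + q - p)) b2
      rwa [show p + q - p = q by ring]) (by
      show R.Adj (β (p + q - q)) b1
      rwa [show p + q - q = p by ring]) (by
      show ρ (β (p + q - p)) = e
      rw [show p + q - p = q by ring]
      exact hm q hpq le_rfl) (by
      show ρ (β (p + q - q)) = e
      rw [show p + q - q = p by ring]
      exact hm p le_rfl hpq) hb2 hb1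
  have hl2' : (∃ k ∈ Finset.Ico p q,
      ∃ g : G, g • v = e ∧ g • x = β (k + 1) ∧ g • y = β k) ↔
      (∃ g : G, g • v = e ∧ g⁻¹ • ρ b2 ∈ A) ∧
        ¬ ∃ g : G, g • v = e ∧ g⁻¹ • ρ b1 ∈ A ∧ g⁻¹ • ρ b2 ∈ A := by
    have h3 : (∃ g : G, g • v = e ∧ g⁻¹ • ρ b1 ∈ A ∧ g⁻¹ • ρ b2 ∈ A) ↔
        ∃ g : G, g • v = e ∧ g⁻¹ • ρ b2 ∈ A ∧ g⁻¹ • ρ b1 ∈ A :=
      ⟨fun ⟨g, a1, a2, a3⟩ => ⟨g, a1, a3, a2⟩, fun ⟨g, a1, a2, a3⟩ => ⟨g, a1, a3, a2⟩⟩
    rw [h3, ← hl2]
    constructor
    · rintro ⟨k, hk, g, hg, hgx, hgy⟩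
      rw [Finset.mem_Ico] at hk
      refine ⟨p + q - 1 - k, by rw [Finset.mem_Ico]; omega, g, hg, ?_, ?_⟩
      · show g • x = β (p + q - (p + q - 1 - k))
        rw [hgx]
        congr 1
        ring
      · show g • y = β (p + q - (p + q - 1 - k + 1))
        rw [hgy]
        congr 1
        ring
    · rintro ⟨k, hk, g, hg, hgx, hgy⟩
      rw [Finset.mem_Ico] at hk
      have hmem : p + q - 1 - k ∈ Finset.Ico p q := by
        rw [Finset.mem_Ico]
        omega
      refine ⟨p + q - 1 - k, hmem, g, hg, ?_, ?_⟩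
      · rw [hgx]
        show β (p + q - k) = β (p + q - 1 - k + 1)
        congr 1
        ring
      · rw [hgy]
        show β (p + q - (k + 1)) = β (p + q - 1 - k)
        congr 1
        ring
  have hl1' := hl1
  unfold n3
  by_cases hb : ∃ g : G, g • v = e ∧ g⁻¹ • ρ b1 ∈ A ∧ g⁻¹ • ρ b2 ∈ A
  · rw [if_neg (fun h => (hl1'.1 h).2 hb), if_neg (fun h => (hl2'.1 h).2 hb), if_pos hb]
  · rw [if_neg hb]
    congr 1
    · by_cases hc : ∃ g : G, g • v = e ∧ g⁻¹ • ρ b1 ∈ A
      · rw [if_pos (hl1'.2 ⟨hc, hb⟩), if_pos hc]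
      · rw [if_neg (fun h => hc (hl1'.1 h).1), if_neg hc]
    · by_cases hc : ∃ g : G, g • v = e ∧ g⁻¹ • ρ b2 ∈ A
      · rw [if_pos (hl2'.2 ⟨hc, hb⟩), if_pos hc]
      · rw [if_neg (fun h => hc (hl2'.1 h).1), if_neg hc]

open Classical in
theorem a08_exp (hS : TA G (qG R ρ)) (hR : TA G R) (hρ : Retr G R φ ρ) (hxy : R.Adj x y)
    (hx : ρ x = v) (hy : ρ y = v) (hB : Bt R x y (φ v))
    (hA1 : ∀ a b, R.Adj a b → ρ a = v → ρ b ≠ v → (ρ b ∈ A ↔ Bt R a x y))
    (hA2 : ∀ h : G, h • v = v → ∀ d ∈ A, h • d ∈ A → h • x = x) (w : G) (τ : List (V × V))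
    (h0 : tl (qG R ρ) w = 0 → ∀ A, dS G v A τ = 0)
    (h1 : ∀ c, IsAx G (qG R ρ) w c → ∀ A, dS G v A τ =
      ∑ j ∈ Finset.range (tl (qG R ρ) w), n3 G v A (c ((j : ℤ) - 1)) (c j) (c (j + 1))) :
    ecn G R x y w = dS G v A τ := by
  rcases Nat.eq_zero_or_pos (tl (qG R ρ) w) with hz | hT
  · rw [h0 hz]
    apply ecn_zero
    rw [tl_eq_zero hR]
    obtain ⟨a, ha⟩ := (tl_eq_zero hS w).1 hz
    exact ⟨φ a, by rw [← hρ.sequ, ha]⟩
  have ht : 0 < tl R w := by
    rcases Nat.eq_zero_or_pos (tl R w) with hz | h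
    · have := qG_tl0 hR hρ w hz
      omega
    · exact h
  obtain ⟨b, hb⟩ := isAx_exists hR w ht
  obtain ⟨s, c, hs, hc, hsT, hsc, hsj⟩ := ax_red hR hρ w b hb hT
  rw [ecn_ax hR w b hb, h1 c hc A, Finset.card_filter]
  set t := tl R w with ht_def
  set T := tl (qG R ρ) w with hT_def
  -- the periodic function
  set f : ℤ → ℕ := fun k => if EOrb G x y (b k) (b (k + 1)) then 1 else 0 with hf
  have hfp : ∀ i, f (i + t) = f i := by
    intro i
    have e1 : b (i + t) = w • b i := (hb.2.2 i).symm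
    have e2 : b (i + t + 1) = w • b (i + 1) := by
      rw [hb.2.2]
      congr 1
      ring
    have e3 : EOrb G x y (b (i + t)) (b (i + t + 1)) ↔ EOrb G x y (b i) (b (i + 1)) := by
      rw [e1, e2]
      constructor
      · rintro ⟨g, ⟨h2, h3⟩ | ⟨h2, h3⟩⟩
        · exact ⟨w⁻¹ * g, Or.inl ⟨by rw [mul_smul, h2, inv_smul_smul],
            by rw [mul_smul, h3, inv_smul_smul]⟩⟩
        · exact ⟨w⁻¹ * g, Or.inr ⟨by rw [mul_smul, h2, inv_smul_smul],
            by rw [mul_smul, h3, inv_smul_smul]⟩⟩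
      · rintro ⟨g, ⟨h2, h3⟩ | ⟨h2, h3⟩⟩
        · exact ⟨w * g, Or.inl ⟨by rw [mul_smul, h2], by rw [mul_smul, h3]⟩⟩
        · exact ⟨w * g, Or.inr ⟨by rw [mul_smul, h2], by rw [mul_smul, h3]⟩⟩
    simp only [hf]
    by_cases h4 : EOrb G x y (b i) (b (i + 1))
    · rw [if_pos h4, if_pos (e3.2 h4)]
    · rw [if_neg h4, if_neg (fun h => h4 (e3.1 h))]
  show ∑ k ∈ Finset.range t, f k = _
  rw [← a08_per f t hfp (s 0), ← a08_ico1]
  have hsT0 : s 0 + t = s T := by
    have := hsT 0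
    rw [zero_add] at this
    exact this.symm
  rw [hsT0, a08_ico2 f s hs T]
  -- the right hand side
  set F : ℤ → ℕ := fun j => n3 G v A (c (j - 1)) (c j) (c (j + 1)) with hF
  have hFp : ∀ i, F (i + T) = F i := by
    intro i
    simp only [hF]
    have e1 : c (i + T - 1) = w • c (i - 1) := by
      rw [hc.2.2]
      congr 1
      ring
    have e2 : c (i + T) = w • c i := (hc.2.2 i).symm
    have e3 : c (i + T + 1) = w • c (i + 1) := by
      rw [hc.2.2]
      congr 1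
      ring
    rw [e1, e2, e3, n3_tr]
  show _ = ∑ j ∈ Finset.range T, F j
  rw [← a08_per F T hFp 1]
  apply Finset.sum_congr rfl
  intro j _
  have hjj : s j < s (j + 1) := hs (by omega)
  have hjj2 : s (j + 1) < s (j + 1 + 1) := hs (by omega)
  have hm : ∀ k, s j + 1 ≤ k → k ≤ s (j + 1) → ρ (b k) = c (j + 1) := by
    intro k hk1 hk2
    exact hsc j k (by omega) hk2
  have hρj : ρ (b (s j)) = c j := by
    have h2 : s (j - 1) < s j := hs (by omega)
    have h3 := hsc (j - 1) (s j) h2 (by rw [sub_add_cancel])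
    rw [h3, sub_add_cancel]
  have hρj2 : ρ (b (s (j + 1) + 1)) = c (j + 2) := by
    have h3 := hsc (j + 1) (s (j + 1) + 1) (by omega) (by omega)
    rw [h3]
    exact congrArg c (by ring)
  have hne1 : ρ (b (s j)) ≠ c (j + 1) := by
    have := hsj j
    rwa [hm (s j + 1) le_rfl (by omega)] at this
  have hne2 : ρ (b (s (j + 1) + 1)) ≠ c (j + 1) := by
    have := hsj (j + 1)
    rw [hm (s (j + 1)) (by omega) le_rfl] at this
    exact this.symm
  have hseg := a08_seg hR hρ hxy hx hB hA1 hA2 b hb.2.1 (s j + 1) (s (j + 1)) (by omega)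
    (c (j + 1)) (b (s j)) (b (s (j + 1) + 1)) (isAx_adj hR hb (s j)).symm
    (isAx_adj hR hb (s (j + 1))) hm hne1 hne2
  rw [hρj, hρj2] at hseg
  have hfs : f (s j) = 0 := by
    simp only [hf]
    rw [if_neg]
    rintro ⟨g, ⟨h2, h3⟩ | ⟨h2, h3⟩⟩
    · apply hsj j
      rw [← h2, ← h3, hρ.equ, hρ.equ, hx, hy]
    · apply hsj j
      rw [← h2, ← h3, hρ.equ, hρ.equ, hx, hy]
  have hsub : ∑ k ∈ Finset.Ico (s j + 1) (s (j + 1)), f k =
      ∑ k ∈ Finset.Ico (s j) (s (j + 1)), f k := by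
    apply Finset.sum_subset
    · intro z hz
      rw [Finset.mem_Ico] at hz ⊢
      omega
    · intro z hz hz'
      rw [Finset.mem_Ico] at hz hz'
      have : z = s j := by omega
      rw [this]
      exact hfs
  rw [← hsub]
  have hF1 : F ((j : ℤ) + 1) = n3 G v A (c j) (c (j + 1)) (c (j + 2)) := by
    simp only [hF]
    rw [show (j : ℤ) + 1 - 1 = j by ring, show (j : ℤ) + 1 + 1 = j + 2 by ring]
  rw [hF1, ← hseg]

end Count

theorem a08_flat (v : V) (A : Set V) {β : Type} (l : List β) (f : β → List (V × V)) :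
    dS G v A (l.flatMap f) = (l.map fun b => dS G v A (f b)).sum := by
  induction l with
  | nil => simp [dS]
  | cons a l ih =>
    rw [List.flatMap_cons, List.map_cons, List.sum_cons, ← ih]
    unfold dS
    rw [List.map_append, List.sum_append]

theorem a08_range (n : ℕ) (f : ℕ → ℕ) :
    ((List.range n).map f).sum = ∑ i ∈ Finset.range n, f i := by
  induction n with
  | zero => simp
  | succ n ih =>
    rw [List.range_succ, List.map_append, List.sum_append, Finset.sum_range_succ, ih]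
    simp

open Classical in
theorem a08_tau (hS : TA G S) (w : G) (v : V) : ∃ τ : List (V × V),
    (∀ t ∈ τ, S.Adj v t.1 ∧ S.Adj v t.2 ∧ t.1 ≠ t.2) ∧
    (tl S w = 0 → ∀ A, dS G v A τ = 0) ∧
    ∀ c, IsAx G S w c → ∀ A, dS G v A τ =
      ∑ j ∈ Finset.range (tl S w), n3 G v A (c ((j : ℤ) - 1)) (c j) (c (j + 1)) := by
  rcases Nat.eq_zero_or_pos (tl S w) with hz | hT
  · refine ⟨[], by simp, fun _ A => by simp [dS], fun c hc => ?_⟩
    exact absurd hc.1 (by omega)
  obtain ⟨c0, hc0⟩ := isAx_exists hS w hT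
  have hch : ∀ j : ℤ, ∃ l : List (V × V),
      (∀ t ∈ l, S.Adj v t.1 ∧ S.Adj v t.2 ∧ t.1 ≠ t.2) ∧
      ∀ A, dS G v A l = n3 G v A (c0 (j - 1)) (c0 j) (c0 (j + 1)) := by
    intro j
    by_cases hg : ∃ g : G, g • v = c0 j
    · obtain ⟨g, hg⟩ := hg
      refine ⟨[(g⁻¹ • c0 (j - 1), g⁻¹ • c0 (j + 1))], ?_, ?_⟩
      · intro t ht
        rw [List.mem_singleton] at ht
        subst ht
        have hv : g⁻¹ • c0 j = v := by rw [← hg, inv_smul_smul]
        refine ⟨?_, ?_, ?_⟩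
        · have h1 := isAx_adj hS hc0 (j - 1)
          rw [sub_add_cancel] at h1
          have h2 := hS.adj g⁻¹ _ _ h1
          rw [hv] at h2
          exact h2.symm
        · have h2 := hS.adj g⁻¹ _ _ (isAx_adj hS hc0 j)
          rwa [hv] at h2
        · intro h
          have h1 := smul_left_cancel g⁻¹ h
          have h2 := hc0.2.1 (j - 1) (j + 1)
          rw [h1, SimpleGraph.dist_self] at h2
          omega
      · intro A
        unfold dS
        rw [List.map_singleton, List.sum_singleton]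
        exact n3_eq v A hg
    · exact ⟨[], by simp, fun A => by rw [n3_no v A hg]; simp [dS]⟩
  choose l hl1 hl2 using hch
  refine ⟨(List.range (tl S w)).flatMap (fun j : ℕ => l (j : ℤ)), ?_, fun h => by omega, ?_⟩
  · intro t ht
    rw [List.mem_flatMap] at ht
    obtain ⟨j, _, hj⟩ := ht
    exact hl1 _ t hj
  · intro c hc A
    rw [a08_flat, a08_range]
    simp only [hl2]
    obtain ⟨k, hk⟩ := a08_shift hS hc0 hc
    have hper := a08_per (fun j => n3 G v A (c0 (j - 1)) (c0 j) (c0 (j + 1))) (tl S w) (by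
      intro i
      show n3 G v A (c0 (i + tl S w - 1)) (c0 (i + tl S w)) (c0 (i + tl S w + 1)) = _
      have e1 : c0 (i + tl S w - 1) = w • c0 (i - 1) := by
        rw [hc0.2.2]
        congr 1
        ring
      have e2 : c0 (i + tl S w) = w • c0 i := (hc0.2.2 i).symm
      have e3 : c0 (i + tl S w + 1) = w • c0 (i + 1) := by
        rw [hc0.2.2]
        congr 1
        ring
      rw [e1, e2, e3, n3_tr]) k
    rw [← hper]
    apply Finset.sum_congr rfl
    intro j _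
    show n3 G v A (c0 (j + k - 1)) (c0 (j + k)) (c0 (j + k + 1)) = _
    rw [hk, hk, hk]
    congr 2
    · ring
    · ring

open Classical in
theorem a08_one (hS : TA G S) (w : G) {v u : V} (_hvu : S.Adj v u) (τ : List (V × V))
    (h0 : tl S w = 0 → ∀ A, dS G v A τ = 0)
    (h1 : ∀ c, IsAx G S w c → ∀ A, dS G v A τ =
      ∑ j ∈ Finset.range (tl S w), n3 G v A (c ((j : ℤ) - 1)) (c j) (c (j + 1))) :
    ecn G S v u w = dS G v {u} τ := by
  rcases Nat.eq_zero_or_pos (tl S w) with hz | hT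
  · rw [ecn_zero w hz, h0 hz]
  obtain ⟨c, hc⟩ := isAx_exists hS w hT
  rw [ecn_ax hS w c hc, h1 c hc, Finset.card_filter]
  have e1 : ∀ j : ℤ, (if EOrb G v u (c j) (c (j + 1)) then 1 else 0) =
      (if ∃ g : G, g • v = c j ∧ g • u = c (j + 1) then 1 else 0) +
        (if ∃ g : G, g • v = c (j + 1) ∧ g • u = c (j + 1 - 1) then 1 else 0) := by
    intro j
    have hadj := isAx_adj hS hc j
    rw [add_sub_cancel_right]
    by_cases c1 : ∃ g : G, g • v = c j ∧ g • u = c (j + 1)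
    · have c2 : ¬ ∃ g : G, g • v = c (j + 1) ∧ g • u = c j := by
        rintro ⟨g', h4, h5⟩
        obtain ⟨g, h6, h7⟩ := c1
        apply hS.noinv (g' * g⁻¹) _ _ hadj
        · rw [← h6, mul_smul, inv_smul_smul, h4]
        · rw [← h7, mul_smul, inv_smul_smul, h5]
      rw [if_pos c1, if_neg c2, if_pos]
      obtain ⟨g, h6, h7⟩ := c1
      exact ⟨g, Or.inl ⟨h6, h7⟩⟩
    · by_cases c2 : ∃ g : G, g • v = c (j + 1) ∧ g • u = c j
      · rw [if_neg c1, if_pos c2, if_pos]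
        obtain ⟨g, h6, h7⟩ := c2
        exact ⟨g, Or.inr ⟨h6, h7⟩⟩
      · rw [if_neg c1, if_neg c2, if_neg]
        rintro ⟨g, ⟨h6, h7⟩ | ⟨h6, h7⟩⟩
        · exact c1 ⟨g, h6, h7⟩
        · exact c2 ⟨g, h6, h7⟩
  have e2 : ∀ j : ℤ, n3 G v {u} (c (j - 1)) (c j) (c (j + 1)) =
      (if ∃ g : G, g • v = c j ∧ g • u = c (j - 1) then 1 else 0) +
        (if ∃ g : G, g • v = c j ∧ g • u = c (j + 1) then 1 else 0) := by
    intro j
    unfold n3
    have hb : ¬ ∃ g : G, g • v = c j ∧ g⁻¹ • c (j - 1) ∈ ({u} : Set V) ∧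
        g⁻¹ • c (j + 1) ∈ ({u} : Set V) := by
      rintro ⟨g, _, h2, h3⟩
      rw [Set.mem_singleton_iff, inv_smul_eq_iff] at h2 h3
      have h4 := hc.2.1 (j - 1) (j + 1)
      rw [h2, h3, SimpleGraph.dist_self] at h4
      omega
    have hi : ∀ a : V, (∃ g : G, g • v = c j ∧ g⁻¹ • a ∈ ({u} : Set V)) ↔
        ∃ g : G, g • v = c j ∧ g • u = a := by
      intro a
      constructor
      · rintro ⟨g, h2, h3⟩
        rw [Set.mem_singleton_iff, inv_smul_eq_iff] at h3
        exact ⟨g, h2, h3.symm⟩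
      · rintro ⟨g, h2, h3⟩
        exact ⟨g, h2, by rw [Set.mem_singleton_iff, inv_smul_eq_iff]; exact h3.symm⟩
    rw [if_neg hb]
    congr 1
    · by_cases h2 : ∃ g : G, g • v = c j ∧ g • u = c (j - 1)
      · rw [if_pos h2, if_pos ((hi _).2 h2)]
      · rw [if_neg h2, if_neg (fun h => h2 ((hi _).1 h))]
    · by_cases h2 : ∃ g : G, g • v = c j ∧ g • u = c (j + 1)
      · rw [if_pos h2, if_pos ((hi _).2 h2)]
      · rw [if_neg h2, if_neg (fun h => h2 ((hi _).1 h))]
  have hper := a08_per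
    (fun j => if ∃ g : G, g • v = c j ∧ g • u = c (j - 1) then 1 else 0) (tl S w) (by
      intro i
      have e3 : c (i + tl S w - 1) = w • c (i - 1) := by
        rw [hc.2.2]
        congr 1
        ring
      have e4 : c (i + tl S w) = w • c i := (hc.2.2 i).symm
      have e5 : (∃ g : G, g • v = c (i + tl S w) ∧ g • u = c (i + tl S w - 1)) ↔
          ∃ g : G, g • v = c i ∧ g • u = c (i - 1) := by
        rw [e3, e4]
        constructor
        · rintro ⟨g, h2, h3⟩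
          exact ⟨w⁻¹ * g, by rw [mul_smul, h2, inv_smul_smul], by
            rw [mul_smul, h3, inv_smul_smul]⟩
        · rintro ⟨g, h2, h3⟩
          exact ⟨w * g, by rw [mul_smul, h2], by rw [mul_smul, h3]⟩
      by_cases h2 : ∃ g : G, g • v = c i ∧ g • u = c (i - 1)
      · exact (if_pos (e5.2 h2)).trans (if_pos h2).symm
      · exact (if_neg (fun h => h2 (e5.1 h))).trans (if_neg h2).symm) 1
  beta_reduce at hper
  have E1 : (∑ j ∈ Finset.range (tl S w), if EOrb G v u (c (j : ℤ)) (c ((j : ℤ) + 1)) then 1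
      else 0) = ∑ j ∈ Finset.range (tl S w),
      ((if ∃ g : G, g • v = c (j : ℤ) ∧ g • u = c ((j : ℤ) + 1) then 1 else 0) +
        (if ∃ g : G, g • v = c ((j : ℤ) + 1) ∧ g • u = c ((j : ℤ) + 1 - 1) then 1 else 0)) :=
    Finset.sum_congr rfl (fun j _ => e1 (j : ℤ))
  have E2 : (∑ j ∈ Finset.range (tl S w), n3 G v {u} (c ((j : ℤ) - 1)) (c (j : ℤ))
      (c ((j : ℤ) + 1))) = ∑ j ∈ Finset.range (tl S w),
      ((if ∃ g : G, g • v = c (j : ℤ) ∧ g • u = c ((j : ℤ) - 1) then 1 else 0) +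
        (if ∃ g : G, g • v = c (j : ℤ) ∧ g • u = c ((j : ℤ) + 1) then 1 else 0)) :=
    Finset.sum_congr rfl (fun j _ => e2 (j : ℤ))
  rw [E1, E2, Finset.sum_add_distrib, Finset.sum_add_distrib, hper, add_comm]

theorem turns (hS : TA G S) {ι : Type} [Fintype ι] (W : ι → G) (v : V) :
    ∃ τ : List (V × V), Tu G S W v τ := by
  choose l hl1 hl2 hl3 using fun i => a08_tau hS (W i) v
  have hsum : ∀ A : Set V, dS G v A ((Finset.univ : Finset ι).toList.flatMap l) =
      ∑ i, dS G v A (l i) := by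
    intro A
    rw [a08_flat]
    exact Finset.sum_map_toList _ _
  refine ⟨(Finset.univ : Finset ι).toList.flatMap l, ?_, ?_, ?_⟩
  · intro t ht
    rw [List.mem_flatMap] at ht
    obtain ⟨i, _, hi⟩ := ht
    exact hl1 i t hi
  · intro u hu
    rw [hsum]
    exact Finset.sum_congr rfl (fun i _ => a08_one hS (W i) hu (l i) (hl2 i) (hl3 i))
  · intro U _ R φ ρ x y A hR hρ hq hxy hx hy hB hA1 hA2
    subst hq
    rw [hsum]
    exact Finset.sum_congr rfl (fun i _ => a08_exp hS hR hρ hxy hx hy hB hA1 hA2 (W i) (l i)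
      (hl2 i) (hl3 i))

end

end VF
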