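import Pool.Agent.Lib.MP_32d917_al_vf.A02
import Pool.Agent.Lib.MP_32d917_al_vf.A03
import Pool.Agent.Lib.MP_32d917_al_vf.A04

/-!
# A09: trees with two orbits of additional vertices

`two_retr`: `parent_retr` (A04) for `c (φ v) = φ v`, `c (g p) = g x`, `c (g q) = g y` (well defined by `stp`, `stq`, `npq`,
`np`, `nq`). `c^[2]` of any vertex is in the image of `φ` by `ac`. `col`: the edges `a b` with `c a = b` are the
`g p, g x` and `g q, g y` (`c (φ v) = φ v` is not adjacent to `φ v`).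

`two_len`: `qG_len2`. The orbits of the edges `p x` and `q y` are different: if `g` maps `{p, x}` to
`{q, y}` then `g p = y`, `g x = q` (by `npq`), and then `x`, `y` are not in the image of `φ`, against `ac`.

`two_low`: use `exch_low` with the pair `(r p, r' p)` or `(r q, r' q)`. A vertex `z` with `r z ≠ r' z` is `g p` or `g q`
(`r (φ v) = v = r' (φ v)`).
* `x = x'`: if `x = φ v` then `r p = r' p = v`, so `z = g q`. If `x = g0 q` then `r p = g0 r q`, `r' p = g0 r' q`. In both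
  cases the pair `(r q, r' q)` works. (`x` is `φ v` or `g0 q`: by `ac`.)
* `y = y'`: symmetric, pair `(r p, r' p)`.
* `g0 q = x`, `g0 y' = p`: `r p = r x = g0 r q` and `r' q = r' y' = g0⁻¹ r' p`; so `(r p, r' p) = (g0 r q, g0 r' q)`.
* `g0 p = y`, `g0 x' = q`: symmetric.
-/

set_option autoImplicit false

namespace VF

open LatIso LatN

section

variable {G : Type} [Group G] {U V : Type} [MulAction G U] [MulAction G V] {R : SimpleGraph U}
  {φ : V → U} {p q x y x' y' : U} {r r' : U → V}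

/-- `w` is the parent of `z` -/
def A09_rel (G : Type) [Group G] {U V : Type} [MulAction G U] (φ : V → U) (p q x y z w : U) :
    Prop :=
  (∃ v, φ v = z ∧ w = z) ∨ (∃ g : G, g • p = z ∧ w = g • x) ∨ ∃ g : G, g • q = z ∧ w = g • y

theorem A09_rel_ex (T : Two G R φ p q) (z : U) : ∃ w, A09_rel G φ p q x y z w := by
  rcases T.cov z with ⟨v, hv⟩ | ⟨g, hg⟩ | ⟨g, hg⟩
  · exact ⟨z, Or.inl ⟨v, hv, rfl⟩⟩
  · exact ⟨g • x, Or.inr (Or.inl ⟨g, hg, rfl⟩)⟩
  · exact ⟨g • y, Or.inr (Or.inr ⟨g, hg, rfl⟩)⟩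

theorem A09_img_p (T : Two G R φ p q) {v : V} {g : G} (h : φ v = g • p) : False := by
  apply T.np (g⁻¹ • v)
  rw [T.equ, h, inv_smul_smul]

theorem A09_img_q (T : Two G R φ p q) {v : V} {g : G} (h : φ v = g • q) : False := by
  apply T.nq (g⁻¹ • v)
  rw [T.equ, h, inv_smul_smul]

theorem A09_pq (T : Two G R φ p q) {g g' : G} (h : g • p = g' • q) : False := by
  apply T.npq (g'⁻¹ * g)
  rw [mul_smul, h, inv_smul_smul]

theorem A09_rel_uniq (T : Two G R φ p q) (a : Asg G R φ p q x y) {z w w' : U}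
    (h : A09_rel G φ p q x y z w) (h' : A09_rel G φ p q x y z w') : w = w' := by
  rcases h with ⟨v, h1, rfl⟩ | ⟨g, h1, rfl⟩ | ⟨g, h1, rfl⟩ <;>
    rcases h' with ⟨v', h2, rfl⟩ | ⟨g', h2, rfl⟩ | ⟨g', h2, rfl⟩
  · rfl
  · exact (A09_img_p T (h1.trans h2.symm)).elim
  · exact (A09_img_q T (h1.trans h2.symm)).elim
  · exact (A09_img_p T (h2.trans h1.symm)).elim
  · have h3 : (g'⁻¹ * g) • p = p := by rw [mul_smul, h1, ← h2, inv_smul_smul]
    have h4 := a.stp _ h3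
    rw [mul_smul, inv_smul_eq_iff] at h4
    exact h4
  · exact (A09_pq T (h1.trans h2.symm)).elim
  · exact (A09_img_q T (h2.trans h1.symm)).elim
  · exact (A09_pq T (h2.trans h1.symm)).elim
  · have h3 : (g'⁻¹ * g) • q = q := by rw [mul_smul, h1, ← h2, inv_smul_smul]
    have h4 := a.stq _ h3
    rw [mul_smul, inv_smul_eq_iff] at h4
    exact h4

theorem A09_rel_smul (T : Two G R φ p q) {z w : U} (h : A09_rel G φ p q x y z w) (g : G) :
    A09_rel G φ p q x y (g • z) (g • w) := by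
  rcases h with ⟨v, h1, rfl⟩ | ⟨g', h1, rfl⟩ | ⟨g', h1, rfl⟩
  · exact Or.inl ⟨g • v, by rw [T.equ, h1], rfl⟩
  · exact Or.inr (Or.inl ⟨g * g', by rw [mul_smul, h1], by rw [mul_smul]⟩)
  · exact Or.inr (Or.inr ⟨g * g', by rw [mul_smul, h1], by rw [mul_smul]⟩)

theorem two_retr (T : Two G R φ p q) (a : Asg G R φ p q x y) : ∃ r, RAs G R φ p q x y r := by
  choose c hc using fun z => A09_rel_ex (x := x) (y := y) T z
  have hu : ∀ z w, A09_rel G φ p q x y z w → c z = w := fun z w h => A09_rel_uniq T a (hc z) h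
  have hcp : ∀ g : G, c (g • p) = g • x := fun g => hu _ _ (Or.inr (Or.inl ⟨g, rfl, rfl⟩))
  have hcq : ∀ g : G, c (g • q) = g • y := fun g => hu _ _ (Or.inr (Or.inr ⟨g, rfl, rfl⟩))
  have hcφ : ∀ v, c (φ v) = φ v := fun v => hu _ _ (Or.inl ⟨v, rfl, rfl⟩)
  obtain ⟨r, hr, hrc, hra⟩ := parent_retr T.ta T.inj T.equ c
    (fun g z => hu _ _ (A09_rel_smul T (hc z) g)) hcφ
    (by
      intro z hz
      rcases T.cov z with ⟨v, hv⟩ | ⟨g, rfl⟩ | ⟨g, rfl⟩
      · exact absurd hv (hz v)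
      · rw [hcp]; exact T.ta.adj g _ _ a.adjp
      · rw [hcq]; exact T.ta.adj g _ _ a.adjq)
    (by
      intro z
      rcases T.cov z with ⟨v, hv⟩ | ⟨g, rfl⟩ | ⟨g, rfl⟩
      · exact ⟨0, v, hv.symm⟩
      · rcases a.ac with ⟨v, hv, _⟩ | ⟨w, hw, g', hg'⟩
        · refine ⟨1, g • v, ?_⟩
          rw [Function.iterate_one, hcp, T.equ, hv]
        · refine ⟨2, (g * g') • w, ?_⟩
          show c (c (g • p)) = _
          rw [hcp, ← hg', ← mul_smul, hcq, T.equ, hw]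
      · rcases a.ac with ⟨v, hv, ⟨w, hw⟩ | ⟨g', hg'⟩⟩ | ⟨w, hw, _⟩
        · refine ⟨1, g • w, ?_⟩
          rw [Function.iterate_one, hcq, T.equ, hw]
        · refine ⟨2, (g * g') • v, ?_⟩
          show c (c (g • q)) = _
          rw [hcq, ← hg', ← mul_smul, hcp, T.equ, hv]
        · refine ⟨1, g • w, ?_⟩
          rw [Function.iterate_one, hcq, T.equ, hw])
  have hp : c p = x := by have := hcp 1; rwa [one_smul, one_smul] at this
  have hq : c q = y := by have := hcq 1; rwa [one_smul, one_smul] at this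
  have key : ∀ a b, R.Adj a b → c a = b → EOrb G p x a b ∨ EOrb G q y a b := by
    intro a b hab hcab
    rcases T.cov a with ⟨v, rfl⟩ | ⟨g, rfl⟩ | ⟨g, rfl⟩
    · rw [hcφ] at hcab
      exact absurd hcab hab.ne
    · exact Or.inl ⟨g, Or.inl ⟨rfl, by rw [← hcp, hcab]⟩⟩
    · exact Or.inr ⟨g, Or.inl ⟨rfl, by rw [← hcq, hcab]⟩⟩
  have esymm : ∀ {a b u v : U}, EOrb G a b u v → EOrb G a b v u := by
    rintro a b u v ⟨g, h | h⟩
    · exact ⟨g, Or.inr h⟩
    · exact ⟨g, Or.inl h⟩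
  refine ⟨r, hr, ?_, ?_, ?_⟩
  · have := hrc p; rw [hp] at this; exact this.symm
  · have := hrc q; rw [hq] at this; exact this.symm
  · intro u v huv
    rw [hra u v huv]
    constructor
    · rintro (h | h)
      · exact key u v huv h
      · rcases key v u huv.symm h with h1 | h1
        · exact Or.inl (esymm h1)
        · exact Or.inr (esymm h1)
    · rintro (⟨g, ⟨h1, h2⟩ | ⟨h1, h2⟩⟩ | ⟨g, ⟨h1, h2⟩ | ⟨h1, h2⟩⟩)
      · left; rw [← h1, ← h2, hcp]
      · right; rw [← h1, ← h2, hcp]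
      · left; rw [← h1, ← h2, hcq]
      · right; rw [← h1, ← h2, hcq]

theorem two_len {ι : Type} [Fintype ι] (W : ι → G) (T : Two G R φ p q) (a : Asg G R φ p q x y)
    (hr : RAs G R φ p q x y r) :
    len G (qG R r) W + ecN G R p x W + ecN G R q y W = len G R W := by
  refine qG_len2 T.ta hr.retr W p x q y ?_ hr.col
  rintro ⟨g, ⟨h1, _⟩ | ⟨h1, h2⟩⟩
  · exact T.npq g h1
  · rcases a.ac with ⟨v, hv, _⟩ | ⟨w, hw, _⟩
    · rw [← hv, ← T.equ] at h2
      exact T.nq _ h2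
    · rw [← hw] at h1
      exact A09_img_p T h1.symm

theorem A09_low {ι : Type} [Fintype ι] (W : ι → G) (m : ℕ) (T : Two G R φ p q)
    (hr : Retr G R φ r) (hr' : Retr G R φ r')
    (H : r p = r' p ∨ r q = r' q ∨ ∃ g : G, r p = g • r q ∧ r' p = g • r' q) :
    Low G W m (qG R r) (qG R r') := by
  rcases H with H | H | ⟨g0, H1, H2⟩
  · refine exch_low W m T.ta hr hr' (r q) (r' q) fun z hz => ?_
    rcases T.cov z with ⟨v, rfl⟩ | ⟨g, rfl⟩ | ⟨g, rfl⟩
    · exact absurd ((hr.sec v).trans (hr'.sec v).symm) hz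
    · rw [hr.equ, hr'.equ, H] at hz
      exact absurd rfl hz
    · exact ⟨g⁻¹, by rw [inv_smul_smul], by rw [inv_smul_smul]⟩
  · refine exch_low W m T.ta hr hr' (r p) (r' p) fun z hz => ?_
    rcases T.cov z with ⟨v, rfl⟩ | ⟨g, rfl⟩ | ⟨g, rfl⟩
    · exact absurd ((hr.sec v).trans (hr'.sec v).symm) hz
    · exact ⟨g⁻¹, by rw [inv_smul_smul], by rw [inv_smul_smul]⟩
    · rw [hr.equ, hr'.equ, H] at hz
      exact absurd rfl hz
  · refine exch_low W m T.ta hr hr' (r q) (r' q) fun z hz => ?_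
    rcases T.cov z with ⟨v, rfl⟩ | ⟨g, rfl⟩ | ⟨g, rfl⟩
    · exact absurd ((hr.sec v).trans (hr'.sec v).symm) hz
    · refine ⟨g0⁻¹ * g⁻¹, ?_, ?_⟩
      · rw [mul_smul, inv_smul_smul, hr.equ, H1, inv_smul_smul]
      · rw [mul_smul, inv_smul_smul, hr'.equ, H2, inv_smul_smul]
    · exact ⟨g⁻¹, by rw [inv_smul_smul], by rw [inv_smul_smul]⟩

theorem two_low {ι : Type} [Fintype ι] (W : ι → G) (m : ℕ) (T : Two G R φ p q)
    (a : Asg G R φ p q x y) (a' : Asg G R φ p q x' y') (hr : RAs G R φ p q x y r)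
    (hr' : RAs G R φ p q x' y' r')
    (hs : x = x' ∨ y = y' ∨ (∃ g : G, g • q = x ∧ g • y' = p) ∨ ∃ g : G, g • p = y ∧ g • x' = q) :
    Low G W m (qG R r) (qG R r') := by
  have hflip : (∃ g : G, r q = g • r p ∧ r' q = g • r' p) →
      ∃ g : G, r p = g • r q ∧ r' p = g • r' q := by
    rintro ⟨g, h1, h2⟩
    exact ⟨g⁻¹, by rw [h1, inv_smul_smul], by rw [h2, inv_smul_smul]⟩
  refine A09_low W m T hr.retr hr'.retr ?_
  rcases hs with rfl | rfl | ⟨g, h1, h2⟩ | ⟨g, h1, h2⟩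
  · rcases a.ac with ⟨v, hv, _⟩ | ⟨w, hw, g, hg⟩
    · left
      rw [hr.rp, hr'.rp, ← hv, hr.retr.sec, hr'.retr.sec]
    · right; right
      refine ⟨g, ?_, ?_⟩
      · rw [hr.rp, ← hg, hr.retr.equ]
      · rw [hr'.rp, ← hg, hr'.retr.equ]
  · rcases a.ac with ⟨v, hv, ⟨w, hw⟩ | ⟨g, hg⟩⟩ | ⟨w, hw, _⟩
    · right; left
      rw [hr.rq, hr'.rq, ← hw, hr.retr.sec, hr'.retr.sec]
    · right; right
      refine hflip ⟨g, ?_, ?_⟩
      · rw [hr.rq, ← hg, hr.retr.equ]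
      · rw [hr'.rq, ← hg, hr'.retr.equ]
    · right; left
      rw [hr.rq, hr'.rq, ← hw, hr.retr.sec, hr'.retr.sec]
  · right; right
    refine ⟨g, ?_, ?_⟩
    · rw [hr.rp, ← h1, hr.retr.equ]
    · rw [hr'.rq, ← hr'.retr.equ, h2]
  · right; right
    refine hflip ⟨g, ?_, ?_⟩
    · rw [hr.rq, ← h1, hr.retr.equ]
    · rw [hr'.rp, ← hr'.retr.equ, h2]

end

end VF
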