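import Pool.Agent.Lib.MP_32d917_al_vf.A06
import Pool.Agent.Lib.MP_32d917_al_vf.A08
import Pool.Agent.Lib.MP_32d917_al_vf.A03
import Pool.Agent.Lib.MP_32d917_al_vf.A04

/-!
# A10: the length after a Whitehead move, and the inverse move

Let `R` be the expansion of `S` given by `v`, `A` (`exp_exists`, `WD.ed`), with new vertex `p`, `ρ : R → S`. Let `x1`
be the vertex adjacent to `p` with `ρ x1 = u` (lift of the edge `v u`: there is an `R`-edge `a b` with `ρ a = v`,
`ρ b = u`, as `qG R ρ = S`; by `fin` and `mem` we have `a = g • p` with `g v = v`, `g⁻¹ u ∈ A`, so `g ∈ ` stabiliser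
of `u` by `disj`, and `g p = p` by `stab`). `x1` is not in the orbit of `p`: if `x1 = g p`, then `g v = u` and
`p = g⁻¹ x1`... the edge from `p` to `g⁻¹ p` has image `v, g⁻¹ v`, so `g⁻¹ v ∈ A` by `fin`, against `inv`. So
`x1 = φ u`. The stabiliser of `p` is the one of `v` and `u` (`stab` of `Exp`, `stab`, `disj` of `WD`), it fixes `x1`.
Let `r1` be the retraction with the parent map `c (g p) = g x1`, `c (φ a) = φ a` (`parent_retr`). The pair `(ρ, r1)` satisfies the
hypothesis of A03 with `(v, u)` and `exA R ρ r1 v u = A`: a vertex `x` with `ρ x = v`, `r1 x = u` is `g p` with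
`g v = v`, `g u = u`, so `x = p`; the neighbours `x'` of `p` with `ρ x' ≠ v` have `ρ x' ∈ A` by `fin`, and every element of `A`
is obtained (lift as above). So `whG G S v u A = qG R r1` (`wh_model`), and `wh_ta` by `qG_ta`.
Lengths: `qG_len1` for `ρ` (collapsed orbit: edge `p, φ v`) and for `r1` (collapsed orbit: `p, x1`): `len S + ecN p (φ v) =
len R = len S' + ecN p x1`; `ecN R p x1 = ecN S v u = dS v {u} τ` by `ecN_quo`, `Tu.one`, and `ecN R p (φ v) = dS v A τ` by
`Tu.exp` (with `x = p`, `y = φ v`; the fibre of `v` consists of `φ v` and of the `h p`, `h v = v`, all adjacent to `φ v`, so a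
vertex `a` of the fibre is on the side of `p` iff `a = p`; the edges from `p` out of the fibre are those with direction in
`A`, and by `qG_uniq` the other ones have direction not in `A`).
`wh_symm`: `exch` for `(r1, ρ)` and `(u, v)`: `exch_wd`, `exch_eq`.
`dS_rev`: `Tu.one` for `g⁻¹ v` and for `u'`, and `ecN_orb` (`g` maps the edge `g⁻¹ v, v` to `v, u'`).
`wh_tr`: translation of the data does not change the graph.
-/

set_option autoImplicit false

namespace VF

open LatIso LatN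

section

variable {G : Type} [Group G] {V : Type} [MulAction G V] {S : SimpleGraph V} {v u : V} {A : Set V}

theorem a10_stab {U : Type} [MulAction G U] {R : SimpleGraph U} {φ : V → U} {ρ : U → V} {p : U}
    (hA : WD G S v u A) (E : Exp G S v A R φ ρ p) (g : G) :
    g • p = p ↔ g • v = v ∧ g • u = u := by
  rw [E.stab]
  constructor
  · rintro ⟨h1, h2⟩
    exact ⟨h1, hA.disj g h1 u hA.mem (h2 u hA.mem)⟩
  · rintro ⟨h1, h2⟩
    exact ⟨h1, hA.stab g h1 h2⟩

theorem a10_inv_fix {W : Type} [MulAction G W] {g : G} {x : W} (h : g • x = x) : g⁻¹ • x = x := by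
  rw [inv_smul_eq_iff]
  exact h.symm

/-- start of the lift of an edge with direction in `A` -/
theorem a10_start {U : Type} [MulAction G U] {R : SimpleGraph U} {φ : V → U} {ρ : U → V} {p : U}
    (hA : WD G S v u A) (E : Exp G S v A R φ ρ p) {a b : U} (hab : R.Adj a b) (ha : ρ a = v)
    (hb : ρ b ∈ A) (hne : ρ a ≠ ρ b) : a = p := by
  rcases E.fin a b hab hne with ⟨g, hg, hgA, rfl⟩ | ⟨h1, h2⟩
  · rw [ha] at hg
    have h3 := hA.disj g⁻¹ (a10_inv_fix hg) (ρ b) hb hgA
    have h4 := a10_inv_fix h3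
    rw [inv_inv] at h4
    exact (a10_stab hA E g).2 ⟨hg, h4⟩
  · exfalso
    apply h1 1 (by rw [one_smul]; exact ha.symm)
    simpa using hb

theorem a10_ne (hA : WD G S v u A) {d : V} (hd : d ∈ A) : v ≠ d := (hA.adj d hd).ne

theorem a10_lift {U : Type} [MulAction G U] {R : SimpleGraph U} {φ : V → U} {ρ : U → V} {p : U}
    (hA : WD G S v u A) (E : Exp G S v A R φ ρ p) {d : V} (hd : d ∈ A) :
    ∃ x, R.Adj p x ∧ ρ x = d := by
  have h1 := hA.adj d hd
  rw [← E.quo] at h1
  obtain ⟨h2, a, b, hab, ha, hb⟩ := h1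
  have h3 : a = p := a10_start hA E hab ha (by rw [hb]; exact hd) (by rw [ha, hb]; exact h2)
  subst h3
  exact ⟨b, hab, hb⟩

theorem a10_dir {U : Type} [MulAction G U] {R : SimpleGraph U} {φ : V → U} {ρ : U → V} {p : U}
    (E : Exp G S v A R φ ρ p) {x : U} (hx : R.Adj p x) (hne : ρ x ≠ v) : ρ x ∈ A := by
  rcases E.fin p x hx (by rw [E.rp]; exact hne.symm) with ⟨g, hg, hgA, hp⟩ | ⟨h1, h2⟩
  · have h3 := ((E.stab g).1 hp.symm).2 _ hgA
    rwa [smul_inv_smul] at h3
  · exact absurd h2.symm (E.new _)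

theorem a10_x1 {U : Type} [MulAction G U] {R : SimpleGraph U} {φ : V → U} {ρ : U → V} {p : U}
    (hA : WD G S v u A) (E : Exp G S v A R φ ρ p) : R.Adj p (φ u) := by
  obtain ⟨x, hx, hρ⟩ := a10_lift hA E hA.mem
  rcases E.cov x with ⟨w, rfl⟩ | ⟨g, rfl⟩
  · rw [E.retr.sec] at hρ
    rw [← hρ]
    exact hx
  · exfalso
    rw [E.retr.equ, E.rp] at hρ
    have h1 : R.Adj p (g⁻¹ • p) := by
      have := E.ta.adj g⁻¹ _ _ hx
      rw [inv_smul_smul] at this
      exact this.symm
    apply hA.inv g hρ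
    have h2 : ρ (g⁻¹ • p) = g⁻¹ • v := by rw [E.retr.equ, E.rp]
    rw [← h2]
    apply a10_dir E h1
    rw [h2]
    intro h3
    apply a10_ne hA hA.mem
    rw [← hρ]
    rw [inv_smul_eq_iff] at h3
    exact h3

/-- no triangles in a tree -/
theorem a10_tri {U : Type} {R : SimpleGraph U} (hR : R.IsTree) {a b c : U} (h1 : R.Adj c a)
    (h2 : R.Adj c b) (h3 : R.Adj a b) : False := by
  have e1 := st1_one h1
  have e2 := st1_one h2
  rcases st_adj hR h3 c with h | h <;> omega

theorem a10_col {U : Type} [MulAction G U] {R : SimpleGraph U} {φ : V → U} {ρ : U → V} {p : U}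
    (E : Exp G S v A R φ ρ p) (a b : U) (hab : R.Adj a b) :
    ρ a = ρ b ↔ EOrb G p (φ v) a b := by
  have hadj : ∀ g : G, R.Adj (g • p) (φ (g • v)) := by
    intro g
    rw [E.retr.sequ]
    exact E.ta.adj g _ _ E.adj
  constructor
  · intro h
    rcases E.cov a with ⟨w, rfl⟩ | ⟨g, rfl⟩
    · rcases E.cov b with ⟨w', rfl⟩ | ⟨g', rfl⟩
      · rw [E.retr.sec, E.retr.sec] at h
        subst h
        exact absurd rfl hab.ne
      · rw [E.retr.sec, E.retr.equ, E.rp] at h
        exact ⟨g', Or.inr ⟨rfl, by rw [h, E.retr.sequ]⟩⟩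
    · rcases E.cov b with ⟨w', rfl⟩ | ⟨g', rfl⟩
      · rw [E.retr.sec, E.retr.equ, E.rp] at h
        exact ⟨g, Or.inl ⟨rfl, by rw [← h, E.retr.sequ]⟩⟩
      · exfalso
        rw [E.retr.equ, E.retr.equ, E.rp] at h
        have h1 := hadj g
        have h2 := hadj g'
        rw [← h] at h2
        exact a10_tri E.ta.tree h1.symm h2.symm hab
  · rintro ⟨g, ⟨rfl, rfl⟩ | ⟨rfl, rfl⟩⟩
    · rw [E.retr.equ, E.retr.equ, E.rp, E.retr.sec]
    · rw [E.retr.equ, E.retr.equ, E.rp, E.retr.sec]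

open Classical in
theorem wh_model (hS : TA G S) (hA : WD G S v u A) :
    ∃ (U : Type) (_ : MulAction G U) (R : SimpleGraph U) (φ : V → U) (ρ r : U → V) (p : U),
      Exp G S v A R φ ρ p ∧ Retr G R φ r ∧ r p = u ∧ R.Adj p (φ u) ∧ qG R r = whG G S v u A ∧
      (∀ a b, R.Adj a b → (ρ a = ρ b ↔ EOrb G p (φ v) a b)) ∧
      (∀ a b, R.Adj a b → (r a = r b ↔ EOrb G p (φ u) a b)) ∧
      ∀ g : G, g • p = p ↔ g • v = v ∧ g • u = u := by
  obtain ⟨U, inst, R, φ, ρ, p, E⟩ := exp_exists hS v A hA.ed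
  have hx1 := a10_x1 hA E
  have hst := a10_stab hA E
  have hφ : Function.Injective φ := by
    intro a b hab
    have := congrArg ρ hab
    rwa [E.retr.sec, E.retr.sec] at this
  -- parent map
  have hwd : ∀ g g' : G, g • p = g' • p → g • u = g' • u := by
    intro g g' h
    have h1 : (g'⁻¹ * g) • p = p := by
      rw [mul_smul, h, inv_smul_smul]
    have h2 := ((hst _).1 h1).2
    rw [mul_smul, inv_smul_eq_iff] at h2
    exact h2
  obtain ⟨c, hcφ, hcp⟩ : ∃ c : U → U, (∀ a, c (φ a) = φ a) ∧ ∀ g : G, c (g • p) = φ (g • u) := by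
    refine ⟨fun x => if h : ∃ g : G, g • p = x then φ (h.choose • u) else x, ?_, ?_⟩
    · intro a
      have hno : ¬ ∃ g : G, g • p = φ a := by
        rintro ⟨g, hg⟩
        apply E.new (g⁻¹ • a)
        rw [E.retr.sequ, ← hg, inv_smul_smul]
      exact dif_neg hno
    · intro g
      have hyes : ∃ g' : G, g' • p = g • p := ⟨g, rfl⟩
      show (if h : ∃ g' : G, g' • p = g • p then φ (h.choose • u) else g • p) = φ (g • u)
      rw [dif_pos hyes, hwd _ _ hyes.choose_spec]
  have hnim : ∀ (g : G) (w : V), φ w ≠ g • p := by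
    intro g w hw
    apply E.new (g⁻¹ • w)
    rw [E.retr.sequ, hw, inv_smul_smul]
  have hadj : ∀ g : G, R.Adj (g • p) (φ (g • u)) := by
    intro g
    rw [E.retr.sequ]
    exact E.ta.adj g _ _ hx1
  obtain ⟨r, hr, hrc, hcol⟩ := parent_retr E.ta hφ E.retr.sequ c (by
      intro g x
      rcases E.cov x with ⟨w, rfl⟩ | ⟨k, rfl⟩
      · rw [hcφ, ← E.retr.sequ, hcφ]
      · rw [hcp, ← mul_smul, hcp, mul_smul, E.retr.sequ]) hcφ (by
      intro x hx
      rcases E.cov x with ⟨w, rfl⟩ | ⟨k, rfl⟩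
      · exact absurd rfl (hx w)
      · rw [hcp]
        exact hadj k) (by
      intro x
      rcases E.cov x with ⟨w, rfl⟩ | ⟨k, rfl⟩
      · exact ⟨0, w, rfl⟩
      · exact ⟨1, k • u, by rw [Function.iterate_one, hcp]⟩)
  have hrp : r p = u := by
    have h1 := hrc p
    have h2 := hcp 1
    rw [one_smul, one_smul] at h2
    rw [h2, hr.sec] at h1
    exact h1.symm
  have hvu : v ≠ u := a10_ne hA hA.mem
  have hm : ∀ x, ρ x ≠ r x → ∃ g : G, ρ (g • x) = v ∧ r (g • x) = u := by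
    intro x hx
    rcases E.cov x with ⟨w, rfl⟩ | ⟨k, rfl⟩
    · rw [E.retr.sec, hr.sec] at hx
      exact absurd rfl hx
    · exact ⟨k⁻¹, by rw [inv_smul_smul]; exact ⟨E.rp, hrp⟩⟩
  have hexA : exA R ρ r v u = A := by
    ext y
    constructor
    · rintro ⟨hyv, x, x', hxx, hxv, hxu, rfl⟩
      rcases E.cov x with ⟨w, rfl⟩ | ⟨k, rfl⟩
      · rw [E.retr.sec] at hxv
        rw [hr.sec] at hxu
        exact absurd (hxv.symm.trans hxu) hvu
      · rw [E.retr.equ, E.rp] at hxv
        rw [hr.equ, hrp] at hxu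
        have h1 := (hst k).2 ⟨hxv, hxu⟩
        rw [h1] at hxx
        exact a10_dir E hxx hyv
    · intro hy
      obtain ⟨x', hx', hρ⟩ := a10_lift hA E hy
      exact ⟨(a10_ne hA hy).symm, p, x', hx', E.rp, hrp, hρ⟩
  refine ⟨U, inst, R, φ, ρ, r, p, E, hr, hrp, hx1, ?_, a10_col E, ?_, hst⟩
  · have h1 := exch_eq E.ta E.retr hr hvu ⟨p, E.rp, hrp⟩ hm
    rw [hexA, E.quo] at h1
    exact h1
  · intro a b hab
    rw [hcol a b hab]
    constructor
    · rintro (h | h)
      · rcases E.cov a with ⟨w, rfl⟩ | ⟨k, rfl⟩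
        · rw [hcφ] at h
          exact absurd h hab.ne
        · rw [hcp] at h
          exact ⟨k, Or.inl ⟨rfl, by rw [← h, E.retr.sequ]⟩⟩
      · rcases E.cov b with ⟨w, rfl⟩ | ⟨k, rfl⟩
        · rw [hcφ] at h
          exact absurd h hab.symm.ne
        · rw [hcp] at h
          exact ⟨k, Or.inr ⟨rfl, by rw [← h, E.retr.sequ]⟩⟩
    · rintro ⟨g, ⟨rfl, rfl⟩ | ⟨rfl, rfl⟩⟩
      · left
        rw [hcp, E.retr.sequ]
      · right
        rw [hcp, E.retr.sequ]

theorem wh_ta (hS : TA G S) (hA : WD G S v u A) : TA G (whG G S v u A) := by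
  obtain ⟨U, inst, R, φ, ρ, r, p, E, hr, hrp, hx1, hq, -⟩ := wh_model hS hA
  rw [← hq]
  exact qG_ta E.ta hr

theorem len_wh {ι : Type} [Fintype ι] {W : ι → G} {τ : List (V × V)} (hS : TA G S)
    (hA : WD G S v u A) (hτ : Tu G S W v τ) :
    len G (whG G S v u A) W + dS G v {u} τ = len G S W + dS G v A τ := by
  obtain ⟨U, inst, R, φ, ρ, r, p, E, hr, hrp, hx1, hq, hc1, hc2, hst⟩ := wh_model hS hA
  have h1 := qG_len1 E.ta E.retr W p (φ v) hc1
  have h2 := qG_len1 E.ta hr W p (φ u) hc2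
  rw [E.quo] at h1
  rw [hq] at h2
  have hvu : v ≠ u := a10_ne hA hA.mem
  have h3 := ecN_quo E.ta E.retr W hx1 (by rw [E.rp, E.retr.sec]; exact hvu)
  rw [E.quo, E.rp, E.retr.sec] at h3
  have h4 := hτ.one u (hA.adj u hA.mem)
  have h5 := hτ.exp U R φ ρ p (φ v) A E.ta E.retr E.quo E.adj E.rp (E.retr.sec v)
    (by unfold Bt; rw [SimpleGraph.dist_self, Nat.add_zero])
    (by
      intro a b hab ha hb
      constructor
      · intro hbA
        have h6 : a = p := a10_start hA E hab ha hbA (by rw [ha]; exact hb.symm)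
        rw [h6]
        unfold Bt
        rw [SimpleGraph.dist_self, Nat.zero_add]
      · intro hB
        rcases E.cov a with ⟨w, rfl⟩ | ⟨k, rfl⟩
        · exfalso
          rw [E.retr.sec] at ha
          subst ha
          unfold Bt at hB
          rw [SimpleGraph.dist_self] at hB
          have h7 := st1_one E.adj
          omega
        · rw [E.retr.equ, E.rp] at ha
          have h8 : R.Adj (k • p) (φ v) := by
            have := E.ta.adj k _ _ E.adj
            rwa [← E.retr.sequ, ha] at this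
          have h7 := st1_one E.adj
          have h9 := st1_one h8
          unfold Bt at hB
          have h10 : k • p = p := st1_eq E.ta.tree (by omega)
          rw [h10] at hab
          exact a10_dir E hab hb)
    (by
      intro h hv d hd hhd
      exact (hst h).2 ⟨hv, hA.disj h hv d hd hhd⟩)
  omega

theorem wh_symm (hS : TA G S) {S' : SimpleGraph V} (h : WhS G S S') : WhS G S' S := by
  obtain ⟨v, u, A, hA, rfl⟩ := h
  obtain ⟨U, inst, R, φ, ρ, r, p, E, hr, hrp, hx1, hq, hc1, hc2, hst⟩ := wh_model hS hA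
  have hvu : v ≠ u := a10_ne hA hA.mem
  have hm : ∀ x, r x ≠ ρ x → ∃ g : G, r (g • x) = u ∧ ρ (g • x) = v := by
    intro x hx
    rcases E.cov x with ⟨w, rfl⟩ | ⟨k, rfl⟩
    · rw [E.retr.sec, hr.sec] at hx
      exact absurd rfl hx
    · exact ⟨k⁻¹, by rw [inv_smul_smul]; exact ⟨hrp, E.rp⟩⟩
  have h1 := exch_wd E.ta hr E.retr hvu.symm ⟨p, hrp, E.rp⟩ hm
  have h2 := exch_eq E.ta hr E.retr hvu.symm ⟨p, hrp, E.rp⟩ hm
  rw [hq] at h1 h2
  rw [E.quo] at h2
  exact ⟨u, v, _, h1, h2⟩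

theorem dS_rev {ι : Type} [Fintype ι] {W : ι → G} {τ : List (V × V)} (hτ : Tu G S W v τ) {g : G}
    {u' : V} (h : g • v = u') (h1 : S.Adj v (g⁻¹ • v)) (h2 : S.Adj v u') :
    dS G v {g⁻¹ • v} τ = dS G v {u'} τ := by
  rw [← hτ.one _ h1, ← hτ.one _ h2]
  exact ecN_orb W ⟨g, Or.inr ⟨h, smul_inv_smul g v⟩⟩

theorem wd_tr (hS : TA G S) (hA : WD G S v u A) (g : G) : WD G S (g • v) (g • u) {x | g⁻¹ • x ∈ A} := by
  refine ⟨?_, ?_, ?_, ?_, ?_⟩
  · intro x hx
    have h1 := hS.adj g _ _ (hA.adj _ hx)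
    rwa [smul_inv_smul] at h1
  · show g⁻¹ • g • u ∈ A
    rw [inv_smul_smul]
    exact hA.mem
  · intro k hkv hku x hx
    have h1 := hA.stab (g⁻¹ * k * g) (by rw [mul_smul, mul_smul, hkv, inv_smul_smul])
      (by rw [mul_smul, mul_smul, hku, inv_smul_smul]) (g⁻¹ • x) hx
    rwa [mul_smul, mul_smul, smul_inv_smul] at h1
  · intro k hkv x hx hkx
    have h1 := hA.disj (g⁻¹ * k * g) (by rw [mul_smul, mul_smul, hkv, inv_smul_smul])
      (g⁻¹ • x) hx (by rw [mul_smul, mul_smul, smul_inv_smul]; exact hkx)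
    rw [mul_smul, mul_smul, inv_smul_eq_iff] at h1
    exact h1
  · intro k hk hcon
    have h1 : g⁻¹ • k⁻¹ • g • v ∈ A := hcon
    apply hA.inv (g⁻¹ * k * g) (by rw [mul_smul, mul_smul, hk, inv_smul_smul])
    rw [mul_inv_rev, mul_inv_rev, inv_inv, mul_smul, mul_smul]
    exact h1

theorem a10_mvd (v u : V) (A : Set V) (g : G) (x y z : V) :
    Mvd G (g • v) (g • u) {x | g⁻¹ • x ∈ A} x y z ↔ Mvd G v u A x y z := by
  constructor
  · rintro ⟨k, h1, h2, h3, h4⟩
    refine ⟨k * g, by rw [mul_smul]; exact h1, ?_, ?_, by rw [mul_smul]; exact h4⟩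
    · rw [mul_inv_rev, mul_smul]
      exact h2
    · rw [mul_inv_rev, mul_smul]
      intro h5
      apply h3
      rw [inv_smul_eq_iff] at h5
      exact h5
  · rintro ⟨k, h1, h2, h3, h4⟩
    refine ⟨k * g⁻¹, by rw [mul_smul, inv_smul_smul]; exact h1, ?_, ?_,
      by rw [mul_smul, inv_smul_smul]; exact h4⟩
    · show g⁻¹ • (k * g⁻¹)⁻¹ • y ∈ A
      rw [mul_inv_rev, inv_inv, mul_smul, inv_smul_smul]
      exact h2
    · rw [mul_inv_rev, inv_inv, mul_smul]
      intro h5
      exact h3 (smul_left_cancel g h5)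

theorem wh_tr (S : SimpleGraph V) (v u : V) (A : Set V) (g : G) :
    whG G S (g • v) (g • u) {x | g⁻¹ • x ∈ A} = whG G S v u A := by
  have hN : ∀ x y z, NEnd G (g • v) (g • u) {x | g⁻¹ • x ∈ A} x y z ↔ NEnd G v u A x y z := by
    intro x y z
    unfold NEnd
    rw [a10_mvd]
    simp only [a10_mvd]
  ext a b
  show (a ≠ b ∧ ∃ x y, S.Adj x y ∧ _ ∧ _) ↔ (a ≠ b ∧ ∃ x y, S.Adj x y ∧ _ ∧ _)
  simp only [hN]

/-- composition through a tree of small length -/
theorem low_trans {ι : Type} [Fintype ι] {W : ι → G} {m : ℕ} {S₁ S₂ S₃ : SimpleGraph V}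
    (h : Low G W m S₁ S₂) (h2 : len G S₂ W < m) (h' : Low G W m S₂ S₃) : Low G W m S₁ S₃ := by
  induction h with
  | refl S => exact h'
  | one S S' hw => exact Low.step _ _ _ hw h2 h'
  | step S R S' hw hl _ ih => exact Low.step _ _ _ hw hl (ih h2 h')

theorem a10_whta {S' : SimpleGraph V} (hS : TA G S) (h : WhS G S S') : TA G S' := by
  obtain ⟨v, u, A, hA, rfl⟩ := h
  exact wh_ta hS hA

theorem low_symm {ι : Type} [Fintype ι] {W : ι → G} {m : ℕ} {S' : SimpleGraph V} (hS : TA G S)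
    (h : Low G W m S S') : Low G W m S' S := by
  induction h with
  | refl S => exact Low.refl _
  | one S S' hw => exact Low.one _ _ (wh_symm hS hw)
  | step S R S' hw hl _ ih =>
    exact low_trans (ih (a10_whta hS hw)) hl (Low.one _ _ (wh_symm hS hw))

end

end VF
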