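import Pool.Agent.Lib.MP_32d917_al_vf.A06
import Pool.Agent.Lib.MP_32d917_al_vf.A04

/-!
# A11: double expansions

General facts on `Exp R z A R' φ ρ p` which are useful here (prove them first):
(a) for an edge `a b` of `R` there is a unique edge `x y` of `R'` with `ρ x = a`, `ρ y = b` (`quo`, `qG_uniq`), and by
`fin`: `x = g p` if `g z = a`, `g⁻¹ b ∈ A`, and `x = φ a` if there is no such `g`;
(b) the neighbours of `p` are `φ z` and the ends `y` of the lifts of the edges `z b`, `b ∈ A`: an edge `p y` with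
`ρ y = z`: `y = φ z` or `y = g p`, `g z = z`; the second is impossible: e.g. the path `p, φ z, g p` in the tree.
(c) `φ` is injective (`Retr.sec`), composition of retractions: if `Retr G R2 φ2 ρ2`, `Retr G R1 φ1 ρ1`,
`qG R2 ρ2 = R1` then `Retr G R2 (φ2 ∘ φ1) (ρ1 ∘ ρ2)` and `qG R2 (ρ1 ∘ ρ2) = qG R1 ρ1` (convexity: if `ρ1 ρ2 x = ρ1 ρ2 y` and
`m` is between `x` and `y` then `ρ2 m` is between `ρ2 x` and `ρ2 y`, e.g. since the image of the geodesic is a path without
repetition apart from constant parts, `qG_dist`; or use that convex = connected for subsets of a tree and that the preimage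
of a connected set under `ρ2` is connected).

`dd_exists`: `R1, φ1, ρ1, p1` the expansion of `S` by `v`, `A` (`WD.ed`). Let `z = φ1 v'` and
`B1 = {y | R1.Adj z y ∧ ρ1 y ∈ B}`. For every `b ∈ B` the lift of the edge `v' b` starts at `φ1 v' = z` (by (a): otherwise
`g v = v'`, `g⁻¹ b ∈ A`, against `hd`), so `ρ1` is a bijection from `B1` to `B`. `B1` is expansion data at `z` (an
element fixing `z` fixes `v'`). Let `R, φ2, ρ2, q` be the expansion of `R1` by `z`, `B1`, and `p = φ2 p1`, `φ = φ2 ∘ φ1`,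
`r = ρ1 ∘ ρ2`. `stq`: `g q = q` iff `g v' = v'` and `g B1 ⊆ B1` iff `g v' = v'`, `g u' = u'` (`WD.stab`, `WD.disj`).
`nbp`: by (a) for `R1`: the neighbours of `p` in `R` are the ends of the lifts of the edges of `R1` at `p1` (`p1` is not
in the orbit of `z`); among them the edge `p1, φ1 v`, whose lift ends in `φ2 φ1 v` (the direction of `p1` at `φ1 v` is not in
a translate of `B1` since `ρ1 p1 = v`). `ras`: `r p = v = r (φ v)`, `r q = v'`, and the edges inside the fibres of `r` are the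
translates of `p, φ v` and of `q, φ v'`.

`dn_exists`: `R1, φ1, ρ1, q1` the expansion of `S` by `v`, `B`; `A1 = {y | R1.Adj q1 y ∧ ρ1 y ∈ A}`; as `A ⊆ B` the
lift of the edge `v a`, `a ∈ A`, starts at `q1`: by (a) it starts at `g q1` with `g v = v`, `g⁻¹ a ∈ B`, and
`a ∈ B`, so `g⁻¹` maps an element of `B` to `B`, and `g q1 = q1`. `A1` is expansion data at `q1`: an element `g` fixing
`q1` and mapping an element of `A1` to `A1` maps an element of `A` to `A`, so `g u = u`, and it preserves `A` and `A1`.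
Let `R, φ2, ρ2, p` be the expansion of `R1` by `q1`, `A1`, `q = φ2 q1`. `stp`: `g p = p` iff `g q1 = q1` and
`g A1 ⊆ A1`; if `g v = v`, `g u = u` then `g` maps `u ∈ B` to `B`, so `g u' = u'` and `g q1 = q1`. `nbq`: the neighbours of
`q` out of the fibre of `v` are the ends of the lifts of the edges of `R1` at `q1` with direction `d ∈ B` such that no
`h` with `h q1 = q1` maps `d` to `A`; if `h v = v` and `h d ∈ A` then `h d ∈ B` and `h u' = u'`, `h q1 = q1` (`WD.disj`).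
The edge `q1, φ1 v` of `R1` lifts to `q, φ2 φ1 v`.
-/

set_option autoImplicit false

namespace VF

open LatIso LatN

section

variable {G : Type} [Group G]

/-- betweenness in quotients -/
theorem a11_bt {U V : Type} [MulAction G U] [MulAction G V] {R : SimpleGraph U} {φ : V → U}
    {r : U → V} (hR : R.IsTree) (h : Retr G R φ r) {x m y : U} (hm : Bt R x m y) :
    Bt (qG R r) (r x) (r m) (r y) := by
  classical
  have hex : ∀ i : ℕ, ∃ w, R.dist x w = min i (R.dist x y) ∧ Bt R x w y :=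
    fun i => st_pt hR x y (min i (R.dist x y)) (min_le_right _ _)
  choose γ hγ1 hγ2 using hex
  have hbt : R.dist x m + R.dist m y = R.dist x y := by
    have := hm
    unfold Bt at this
    omega
  have hadj : ∀ i < R.dist x y, R.Adj (γ i) (γ (i + 1)) := by
    intro i hi
    have e1 := hγ1 i
    have e2 := hγ1 (i + 1)
    rw [min_eq_left (by omega)] at e1 e2
    obtain ⟨h1, -⟩ := st_seg hR (hγ2 i) (hγ2 (i + 1)) (by omega)
    unfold Bt at h1
    exact SimpleGraph.dist_eq_one_iff_adj.1 (by omega)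
  have h0 : γ 0 = x := by
    have e1 := hγ1 0
    rw [Nat.zero_min] at e1
    exact (st1_eq hR e1).symm
  have hn : γ (R.dist x y) = y := by
    have e1 := hγ1 (R.dist x y)
    have e2 := hγ2 (R.dist x y)
    rw [min_self] at e1
    unfold Bt at e2
    exact st1_eq hR (by omega)
  have hk : γ (R.dist x m) = m := by
    refine st_pt_uniq hR (hγ2 _) hm ?_
    rw [hγ1, min_eq_left (by omega)]
  have q1 := qG_dist hR h γ (R.dist x y) hadj (by rw [h0, hn])
  have q2 := qG_dist hR h γ (R.dist x m) (fun i hi => hadj i (by omega)) (by rw [h0, hk])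
  have q3 := qG_dist hR h (fun i => γ (R.dist x m + i)) (R.dist m y)
    (fun i hi => hadj (R.dist x m + i) (by omega)) (by
      simp only [add_zero]
      rw [hk, hbt, hn])
  simp only [add_zero] at q3
  rw [hk, hbt, hn] at q3
  rw [h0, hn] at q1
  rw [h0, hk] at q2
  unfold Bt
  rw [q1, q2, q3, ← hbt]
  simp only [Finset.card_filter]
  rw [Finset.sum_range_add]
  rfl

/-- composition of retractions -/
theorem a11_comp {U U' V : Type} [MulAction G U] [MulAction G U'] [MulAction G V]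
    {R1 : SimpleGraph U} {R2 : SimpleGraph U'} {φ1 : V → U} {r1 : U → V} {φ2 : U → U'}
    {r2 : U' → U} (hR : R2.IsTree) (h2 : Retr G R2 φ2 r2) (h1 : Retr G R1 φ1 r1)
    (hq : qG R2 r2 = R1) :
    Retr G R2 (fun v => φ2 (φ1 v)) (fun x => r1 (r2 x)) := by
  refine ⟨?_, ?_, ?_, ?_⟩
  · intro v
    change r1 (r2 (φ2 (φ1 v))) = v
    rw [h2.sec, h1.sec]
  · intro g x
    change r1 (r2 (g • x)) = g • r1 (r2 x)
    rw [h2.equ, h1.equ]
  · intro g v
    change φ2 (φ1 (g • v)) = g • φ2 (φ1 v)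
    rw [h1.sequ, h2.sequ]
  · intro x y m hxy hm
    have h3 := a11_bt hR h2 hm
    rw [hq] at h3
    exact h1.cvx _ _ _ hxy h3

theorem a11_qG {U U' V : Type} {R1 : SimpleGraph U} {R2 : SimpleGraph U'} {r1 : U → V}
    {r2 : U' → U} (hq : qG R2 r2 = R1) : qG R2 (fun x => r1 (r2 x)) = qG R1 r1 := by
  subst hq
  ext a b
  constructor
  · rintro ⟨hne, x, y, h, h1, h2⟩
    refine ⟨hne, r2 x, r2 y, ⟨?_, x, y, h, rfl, rfl⟩, h1, h2⟩
    intro e
    apply hne
    rw [← h1, ← h2]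
    change r1 (r2 x) = r1 (r2 y)
    rw [e]
  · rintro ⟨hne, x, y, ⟨-, x', y', h, h3, h4⟩, h1, h2⟩
    subst h3 h4
    exact ⟨hne, x', y', h, h1, h2⟩

section

variable {U U' : Type} [MulAction G U] [MulAction G U'] {R : SimpleGraph U} {z : U} {A : Set U}
  {R' : SimpleGraph U'} {φ : U → U'} {ρ : U' → U} {p : U'}

theorem a11_lift (E : Exp G R z A R' φ ρ p) {a b : U} (h : R.Adj a b) :
    ∃ x y, R'.Adj x y ∧ ρ x = a ∧ ρ y = b := by
  have h1 : (qG R' ρ).Adj a b := by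
    rw [E.quo]
    exact h
  exact h1.2

theorem a11_img (E : Exp G R z A R' φ ρ p) {x y : U'} (h : R'.Adj x y) (hne : ρ x ≠ ρ y) :
    R.Adj (ρ x) (ρ y) := by
  rw [← E.quo]
  exact ⟨hne, x, y, h, rfl, rfl⟩

theorem a11_inj (E : Exp G R z A R' φ ρ p) : Function.Injective φ := by
  intro a b h
  rw [← E.retr.sec a, h, E.retr.sec]

theorem a11_newg (E : Exp G R z A R' φ ρ p) {a : U} {g : G} (h : φ a = g • p) : False := by
  apply E.new (g⁻¹ • a)
  rw [E.retr.sequ, h, inv_smul_smul]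

/-- the edges in the fibres -/
theorem a11_same (E : Exp G R z A R' φ ρ p) {x y : U'} (h : R'.Adj x y) (he : ρ x = ρ y) :
    ∃ g : G, (g • p = x ∧ g • φ z = y) ∨ (g • p = y ∧ g • φ z = x) := by
  have key : ∀ (g : G) (w : U'), R'.Adj (g • p) w → ρ (g • p) = ρ w → g • φ z = w := by
    intro g w hw hρ
    rw [E.retr.equ, E.rp] at hρ
    rcases E.cov w with ⟨v, hv⟩ | ⟨k, hk⟩
    · subst hv
      rw [E.retr.sec] at hρ
      rw [← hρ, E.retr.sequ]
    · exfalso
      subst hk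
      rw [E.retr.equ, E.rp] at hρ
      have h1 : R'.Adj (g • p) (φ (g • z)) := by
        rw [E.retr.sequ]
        exact E.ta.adj g _ _ E.adj
      have h2 : R'.Adj (k • p) (φ (g • z)) := by
        rw [hρ, E.retr.sequ]
        exact E.ta.adj k _ _ E.adj
      have h3 := st_parity E.ta.tree (g • p) (φ (g • z)) (k • p)
      rw [st1_one h1, st1_one h2.symm, st1_one hw] at h3
      exact absurd h3 (by decide)
  rcases E.cov x with ⟨v, hv⟩ | ⟨g, hg⟩
  · rcases E.cov y with ⟨w, hw⟩ | ⟨g, hg⟩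
    · exfalso
      subst hv hw
      rw [E.retr.sec, E.retr.sec] at he
      rw [he] at h
      exact h.ne rfl
    · subst hg
      exact ⟨g, Or.inr ⟨rfl, key g x h.symm he.symm⟩⟩
  · subst hg
    exact ⟨g, Or.inl ⟨rfl, key g y h he⟩⟩

/-- the end at `a` if the direction is not in a translate of `A` -/
theorem a11_old (E : Exp G R z A R' φ ρ p) {x y : U'} (h : R'.Adj x y) (hne : ρ x ≠ ρ y)
    (hn : ∀ g : G, g • z = ρ x → g⁻¹ • ρ y ∈ A → False) : x = φ (ρ x) := by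
  rcases E.fin x y h hne with ⟨g, h1, h2, _⟩ | ⟨_, h2⟩
  · exact (hn g h1 h2).elim
  · exact h2

/-- the lift of an edge at `z` in a direction in `A` starts at `p` -/
theorem a11_up (hA : ED G R z A) (E : Exp G R z A R' φ ρ p) {b : U} (hb : b ∈ A) :
    ∃ y, R'.Adj p y ∧ ρ y = b := by
  obtain ⟨x, y, h, hx, hy⟩ := a11_lift E (hA.adj b hb)
  have hne : ρ x ≠ ρ y := by
    rw [hx, hy]
    exact (hA.adj b hb).ne
  rcases E.fin x y h hne with ⟨g, h1, h2, h3⟩ | ⟨h1, _⟩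
  · rw [hx] at h1
    rw [hy] at h2
    have h4 : g • p = p := by
      rw [E.stab]
      refine ⟨h1, hA.disj g h1 _ h2 ?_⟩
      rw [smul_inv_smul]
      exact hb
    rw [h4] at h3
    subst h3
    exact ⟨y, h, hy⟩
  · exfalso
    refine h1 1 (by rw [one_smul, hx]) ?_
    rw [inv_one, one_smul, hy]
    exact hb

/-- the neighbours of `p` -/
theorem a11_dn (E : Exp G R z A R' φ ρ p) {y : U'} (h : R'.Adj p y) (hne : ρ y ≠ z) :
    ρ y ∈ A := by
  have hne' : ρ p ≠ ρ y := by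
    rw [E.rp]
    exact hne.symm
  rcases E.fin p y h hne' with ⟨g, _, h2, h3⟩ | ⟨_, h2⟩
  · have h4 := ((E.stab g).1 h3.symm).2 _ h2
    rw [smul_inv_smul] at h4
    exact h4
  · exact (E.new _ h2.symm).elim

end

variable {V : Type} [MulAction G V] {S : SimpleGraph V} {v u v' u' : V}
  {A B : Set V}

theorem a11_wd (hA : WD G S v u A) {g : G} (hg : g • v = v) :
    (∀ y ∈ A, g • y ∈ A) ↔ g • u = u :=
  ⟨fun h => hA.disj g hg u hA.mem (h u hA.mem), fun h => hA.stab g hg h⟩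

theorem a11_nm (hA : WD G S v u A) : v ∉ A := fun h => (hA.adj v h).ne rfl

theorem dd_exists (hS : TA G S) (hA : WD G S v u A) (hB : WD G S v' u' B)
    (hd : ∀ g : G, g • v = v' → ∀ x ∈ A, g • x ∉ B) :
    ∃ (U : Type) (_ : MulAction G U) (R : SimpleGraph U) (φ : V → U) (r : U → V) (p q : U),
      DD G S v u A v' u' B R φ r p q := by
  obtain ⟨U1, i1, R1, φ1, ρ1, p1, E1⟩ := exp_exists hS v A hA.ed
  -- the lifts of the edges at `v'` with directions in `B`
  have hlB : ∀ b ∈ B, ∃ y, R1.Adj (φ1 v') y ∧ ρ1 y = b := by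
    intro b hb
    obtain ⟨x, y, h, hx, hy⟩ := a11_lift E1 (hB.adj b hb)
    have hne : ρ1 x ≠ ρ1 y := by
      rw [hx, hy]
      exact (hB.adj b hb).ne
    have h1 := a11_old E1 h hne (by
      intro g g1 g2
      rw [hx] at g1
      rw [hy] at g2
      refine hd g g1 _ g2 ?_
      rw [smul_inv_smul]
      exact hb)
    rw [hx] at h1
    subst h1
    exact ⟨y, h, hy⟩
  have hfz : ∀ g : G, g • φ1 v' = φ1 v' ↔ g • v' = v' := by
    intro g
    rw [← E1.retr.sequ]
    exact (a11_inj E1).eq_iff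
  obtain ⟨B1, hB1⟩ : ∃ B1 : Set U1, ∀ y, y ∈ B1 ↔ R1.Adj (φ1 v') y ∧ ρ1 y ∈ B :=
    ⟨{y | R1.Adj (φ1 v') y ∧ ρ1 y ∈ B}, fun y => Iff.rfl⟩
  have hBB : ∀ g : G, g • v' = v' → g • u' = u' → ∀ y ∈ B1, g • y ∈ B1 := by
    intro g g1 g2 y hy
    rw [hB1] at hy ⊢
    refine ⟨?_, ?_⟩
    · have h1 := E1.ta.adj g _ _ hy.1
      rw [(hfz g).2 g1] at h1
      exact h1
    · rw [E1.retr.equ]
      exact hB.stab g g1 g2 _ hy.2
  have hed : ED G R1 (φ1 v') B1 := by
    refine ⟨?_, fun y hy => ((hB1 y).1 hy).1, ?_⟩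
    · obtain ⟨y, h1, h2⟩ := hlB u' hB.mem
      refine ⟨y, (hB1 y).2 ⟨h1, ?_⟩⟩
      rw [h2]
      exact hB.mem
    · intro g g1 x hx hgx
      have g1' := (hfz g).1 g1
      have h2 := ((hB1 _).1 hgx).2
      rw [E1.retr.equ] at h2
      exact hBB g g1' (hB.disj g g1' _ ((hB1 x).1 hx).2 h2)
  obtain ⟨U2, i2, R2, φ2, ρ2, q, E2⟩ := exp_exists E1.ta (φ1 v') B1 hed
  have hret := a11_comp E2.ta.tree E2.retr E1.retr E2.quo
  have hquo : qG R2 (fun x => ρ1 (ρ2 x)) = S := by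
    rw [a11_qG E2.quo, E1.quo]
  -- the lifts of the edges of `R1` at the new vertices
  have hl1 : ∀ (g : G) (x y : U2), R2.Adj x y → ρ2 x = g • p1 → ρ2 y ≠ g • p1 →
      x = g • φ2 p1 := by
    intro g x y h hx hy
    have h1 := a11_old E2 h (by rw [hx]; exact hy.symm) (by
      intro k k1 _
      rw [hx, ← E1.retr.sequ] at k1
      exact a11_newg E1 k1)
    rw [h1, hx, E2.retr.sequ]
  have hl2 : ∀ (g : G) (x y : U2), R2.Adj x y → ρ2 x = g • φ1 v → ρ2 y = g • p1 →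
      x = g • φ2 (φ1 v) := by
    intro g x y h hx hy
    have hne : g • φ1 v ≠ g • p1 := fun e => E1.new v (smul_left_cancel g e)
    have h1 := a11_old E2 h (by rw [hx, hy]; exact hne) (by
      intro k k1 k2
      rw [hx, ← E1.retr.sequ, ← E1.retr.sequ] at k1
      have k3 := a11_inj E1 k1
      rw [hy, hB1] at k2
      have k4 := k2.2
      rw [E1.retr.equ, E1.retr.equ, E1.rp, ← k3, inv_smul_smul] at k4
      exact a11_nm hB k4)
    rw [h1, hx, E2.retr.sequ]
  have hedge : ∀ (g : G) (x y : U2), R2.Adj x y → ρ2 x = g • p1 → ρ2 y = g • φ1 v →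
      x = g • φ2 p1 ∧ y = g • φ2 (φ1 v) := by
    intro g x y h hx hy
    have hne : g • φ1 v ≠ g • p1 := fun e => E1.new v (smul_left_cancel g e)
    exact ⟨hl1 g x y h hx (by rw [hy]; exact hne), hl2 g y x h.symm hy hx⟩
  have hrp : ρ1 (ρ2 (φ2 p1)) = v := by rw [E2.retr.sec, E1.rp]
  have hrq : ρ1 (ρ2 q) = v' := by rw [E2.rp, E1.retr.sec]
  refine ⟨U2, i2, R2, fun w => φ2 (φ1 w), fun x => ρ1 (ρ2 x), φ2 p1, q, ?_⟩
  refine ⟨?_, ?_, ?_, ?_, hquo, ?_, ?_, ?_, ?_⟩
  · refine ⟨E2.ta, fun a b h => a11_inj E1 (a11_inj E2 h), hret.sequ, ?_, ?_, ?_, ?_⟩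
    · intro x
      rcases E2.cov x with ⟨w, rfl⟩ | h
      · rcases E1.cov w with ⟨a, rfl⟩ | ⟨g, rfl⟩
        · exact Or.inl ⟨a, rfl⟩
        · exact Or.inr (Or.inl ⟨g, (E2.retr.sequ g p1).symm⟩)
      · exact Or.inr (Or.inr h)
    · intro a h
      exact E1.new a (a11_inj E2 h)
    · intro a h
      exact E2.new _ h
    · intro g h
      rw [← E2.retr.sequ] at h
      exact E2.new _ h
  · refine ⟨hret, ?_, ?_, ?_⟩
    · change ρ1 (ρ2 (φ2 p1)) = ρ1 (ρ2 (φ2 (φ1 v)))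
      rw [hrp, E2.retr.sec, E1.retr.sec]
    · change ρ1 (ρ2 q) = ρ1 (ρ2 (φ2 (φ1 v')))
      rw [hrq, E2.retr.sec, E1.retr.sec]
    · intro a b h
      constructor
      · intro e
        by_cases h2 : ρ2 a = ρ2 b
        · right
          obtain ⟨g, ⟨h3, h4⟩ | ⟨h3, h4⟩⟩ := a11_same E2 h h2
          · exact ⟨g, Or.inl ⟨h3, h4⟩⟩
          · exact ⟨g, Or.inr ⟨h3, h4⟩⟩
        · left
          obtain ⟨g, ⟨h3, h4⟩ | ⟨h3, h4⟩⟩ := a11_same E1 (a11_img E2 h h2) e
          · obtain ⟨h5, h6⟩ := hedge g a b h h3.symm h4.symm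
            exact ⟨g, Or.inl ⟨h5.symm, h6.symm⟩⟩
          · obtain ⟨h5, h6⟩ := hedge g b a h.symm h3.symm h4.symm
            exact ⟨g, Or.inr ⟨h5.symm, h6.symm⟩⟩
      · have e1 : ∀ g : G, ρ1 (ρ2 (g • φ2 p1)) = ρ1 (ρ2 (g • φ2 (φ1 v))) := by
          intro g
          rw [E2.retr.equ, E1.retr.equ, hrp, E2.retr.equ, E1.retr.equ, E2.retr.sec, E1.retr.sec]
        have e2 : ∀ g : G, ρ1 (ρ2 (g • q)) = ρ1 (ρ2 (g • φ2 (φ1 v'))) := by
          intro g
          rw [E2.retr.equ, E1.retr.equ, hrq, E2.retr.equ, E1.retr.equ, E2.retr.sec, E1.retr.sec]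
        rintro (⟨g, ⟨h3, h4⟩ | ⟨h3, h4⟩⟩ | ⟨g, ⟨h3, h4⟩ | ⟨h3, h4⟩⟩)
        · subst h3 h4
          exact e1 g
        · subst h3 h4
          exact (e1 g).symm
        · subst h3 h4
          exact e2 g
        · subst h3 h4
          exact (e2 g).symm
  · obtain ⟨x, y, h, hx, hy⟩ := a11_lift E2 E1.adj
    obtain ⟨h1, h2⟩ := hedge 1 x y h (by rw [one_smul]; exact hx) (by rw [one_smul]; exact hy)
    rw [one_smul] at h1 h2
    subst h1 h2
    exact h
  · exact E2.adj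
  · intro g
    rw [← E2.retr.sequ, (a11_inj E2).eq_iff, E1.stab]
    constructor
    · rintro ⟨h1, h2⟩
      exact ⟨h1, (a11_wd hA h1).1 h2⟩
    · rintro ⟨h1, h2⟩
      exact ⟨h1, (a11_wd hA h1).2 h2⟩
  · intro g
    rw [E2.stab]
    constructor
    · rintro ⟨h1, h2⟩
      have h3 := (hfz g).1 h1
      refine ⟨h3, ?_⟩
      obtain ⟨y, y1, y2⟩ := hlB u' hB.mem
      have h4 := ((hB1 _).1 (h2 y ((hB1 y).2 ⟨y1, by rw [y2]; exact hB.mem⟩))).2
      rw [E1.retr.equ, y2] at h4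
      exact hB.disj g h3 u' hB.mem h4
    · rintro ⟨h1, h2⟩
      exact ⟨(hfz g).2 h1, hBB g h1 h2⟩
  · intro d
    constructor
    · intro hdA
      obtain ⟨y1, h1, h2⟩ := a11_up hA.ed E1 hdA
      obtain ⟨a, x, h3, h4, h5⟩ := a11_lift E2 h1
      have h6 := hl1 1 a x h3 (by rw [one_smul]; exact h4) (by
        rw [one_smul, h5]
        exact h1.ne')
      rw [one_smul] at h6
      subst h6
      refine ⟨x, h3, ?_, ?_⟩
      · change ρ1 (ρ2 x) = d
        rw [h5, h2]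
      · exact (hA.adj d hdA).ne'
    · rintro ⟨x, h1, h2, h3⟩
      change ρ1 (ρ2 x) = d at h2
      have h4 : ρ2 (φ2 p1) ≠ ρ2 x := by
        intro e
        apply h3
        rw [← h2, ← e, E2.retr.sec, E1.rp]
      have h5 := a11_img E2 h1 h4
      rw [E2.retr.sec] at h5
      have h6 := a11_dn E1 h5 (by rw [h2]; exact h3)
      rw [h2] at h6
      exact h6
  · intro d
    constructor
    · intro hdB
      obtain ⟨y, y1, y2⟩ := hlB d hdB
      obtain ⟨x, h1, h2⟩ := a11_up hed E2 ((hB1 y).2 ⟨y1, by rw [y2]; exact hdB⟩)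
      refine ⟨x, h1, ?_, ?_⟩
      · change ρ1 (ρ2 x) = d
        rw [h2, y2]
      · exact (hB.adj d hdB).ne'
    · rintro ⟨x, h1, h2, h3⟩
      change ρ1 (ρ2 x) = d at h2
      have h4 := a11_dn E2 h1 (by
        intro e
        apply h3
        rw [← h2, e, E1.retr.sec])
      have h5 := ((hB1 _).1 h4).2
      rw [h2] at h5
      exact h5

theorem dn_exists (hS : TA G S) (hA : WD G S v u A) (hB : WD G S v u' B) (hAB : A ⊆ B)
    (hd : ∀ h : G, h • v = v → ∀ x ∈ A, h • x ∈ B → h • u' = u') :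
    ∃ (U : Type) (_ : MulAction G U) (R : SimpleGraph U) (φ : V → U) (r : U → V) (p q : U),
      DN G S v u A u' B R φ r p q := by
  obtain ⟨U1, i1, R1, φ1, ρ1, q1, E1⟩ := exp_exists hS v B hB.ed
  obtain ⟨A1, hA1⟩ : ∃ A1 : Set U1, ∀ y, y ∈ A1 ↔ R1.Adj q1 y ∧ ρ1 y ∈ A :=
    ⟨{y | R1.Adj q1 y ∧ ρ1 y ∈ A}, fun y => Iff.rfl⟩
  have hfq : ∀ g : G, g • q1 = q1 ↔ g • v = v ∧ g • u' = u' := by
    intro g
    rw [E1.stab]
    constructor
    · rintro ⟨h1, h2⟩
      exact ⟨h1, (a11_wd hB h1).1 h2⟩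
    · rintro ⟨h1, h2⟩
      exact ⟨h1, (a11_wd hB h1).2 h2⟩
  have hAA : ∀ g : G, g • q1 = q1 → g • u = u → ∀ y ∈ A1, g • y ∈ A1 := by
    intro g g1 g2 y hy
    rw [hA1] at hy ⊢
    refine ⟨?_, ?_⟩
    · have h1 := E1.ta.adj g _ _ hy.1
      rw [g1] at h1
      exact h1
    · rw [E1.retr.equ]
      exact hA.stab g ((hfq g).1 g1).1 g2 _ hy.2
  have hed : ED G R1 q1 A1 := by
    refine ⟨?_, fun y hy => ((hA1 y).1 hy).1, ?_⟩
    · obtain ⟨y, h1, h2⟩ := a11_up hB.ed E1 (hAB hA.mem)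
      refine ⟨y, (hA1 y).2 ⟨h1, ?_⟩⟩
      rw [h2]
      exact hA.mem
    · intro g g1 x hx hgx
      have h2 := ((hA1 _).1 hgx).2
      rw [E1.retr.equ] at h2
      exact hAA g g1 (hA.disj g ((hfq g).1 g1).1 _ ((hA1 x).1 hx).2 h2)
  obtain ⟨U2, i2, R2, φ2, ρ2, p, E2⟩ := exp_exists E1.ta q1 A1 hed
  have hret := a11_comp E2.ta.tree E2.retr E1.retr E2.quo
  have hquo : qG R2 (fun x => ρ1 (ρ2 x)) = S := by
    rw [a11_qG E2.quo, E1.quo]
  have hrq : ρ1 (ρ2 (φ2 q1)) = v := by rw [E2.retr.sec, E1.rp]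
  have hrp : ρ1 (ρ2 p) = v := by rw [E2.rp, E1.rp]
  have hedge : ∀ (g : G) (x y : U2), R2.Adj x y → ρ2 x = g • q1 → ρ2 y = g • φ1 v →
      x = g • φ2 q1 ∧ y = g • φ2 (φ1 v) := by
    intro g x y h hx hy
    have hne : g • φ1 v ≠ g • q1 := fun e => E1.new v (smul_left_cancel g e)
    constructor
    · have h1 := a11_old E2 h (by rw [hx, hy]; exact hne.symm) (by
        intro k k1 k2
        rw [hx] at k1
        rw [hy, hA1] at k2
        have k3 := k2.2
        rw [E1.retr.equ, E1.retr.equ, E1.retr.sec] at k3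
        have k4 : (k⁻¹ * g) • q1 = q1 := by rw [mul_smul, ← k1, inv_smul_smul]
        have k5 := ((hfq _).1 k4).1
        rw [mul_smul] at k5
        rw [k5] at k3
        exact a11_nm hA k3)
      rw [h1, hx, E2.retr.sequ]
    · have h1 := a11_old E2 h.symm (by rw [hx, hy]; exact hne) (by
        intro k k1 _
        rw [hy, ← E1.retr.sequ] at k1
        exact a11_newg E1 k1.symm)
      rw [h1, hy, E2.retr.sequ]
  refine ⟨U2, i2, R2, fun w => φ2 (φ1 w), fun x => ρ1 (ρ2 x), p, φ2 q1, ?_⟩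
  refine ⟨?_, ?_, ?_, ?_, hquo, ?_, ?_, ?_, ?_⟩
  · refine ⟨E2.ta, fun a b h => a11_inj E1 (a11_inj E2 h), hret.sequ, ?_, ?_, ?_, ?_⟩
    · intro x
      rcases E2.cov x with ⟨w, rfl⟩ | h
      · rcases E1.cov w with ⟨a, rfl⟩ | ⟨g, rfl⟩
        · exact Or.inl ⟨a, rfl⟩
        · exact Or.inr (Or.inr ⟨g, (E2.retr.sequ g q1).symm⟩)
      · exact Or.inr (Or.inl h)
    · intro a h
      exact E2.new _ h
    · intro a h
      exact E1.new a (a11_inj E2 h)
    · intro g h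
      exact a11_newg E2 (a := g⁻¹ • q1) (g := 1) (by
        rw [E2.retr.sequ, ← h, inv_smul_smul, one_smul])
  · refine ⟨hret, ?_, ?_, ?_⟩
    · change ρ1 (ρ2 p) = ρ1 (ρ2 (φ2 q1))
      rw [hrp, hrq]
    · change ρ1 (ρ2 (φ2 q1)) = ρ1 (ρ2 (φ2 (φ1 v)))
      rw [hrq, E2.retr.sec, E1.retr.sec]
    · intro a b h
      constructor
      · intro e
        by_cases h2 : ρ2 a = ρ2 b
        · left
          obtain ⟨g, ⟨h3, h4⟩ | ⟨h3, h4⟩⟩ := a11_same E2 h h2
          · exact ⟨g, Or.inl ⟨h3, h4⟩⟩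
          · exact ⟨g, Or.inr ⟨h3, h4⟩⟩
        · right
          obtain ⟨g, ⟨h3, h4⟩ | ⟨h3, h4⟩⟩ := a11_same E1 (a11_img E2 h h2) e
          · obtain ⟨h5, h6⟩ := hedge g a b h h3.symm h4.symm
            exact ⟨g, Or.inl ⟨h5.symm, h6.symm⟩⟩
          · obtain ⟨h5, h6⟩ := hedge g b a h.symm h3.symm h4.symm
            exact ⟨g, Or.inr ⟨h5.symm, h6.symm⟩⟩
      · have e1 : ∀ g : G, ρ1 (ρ2 (g • p)) = ρ1 (ρ2 (g • φ2 q1)) := by
          intro g
          rw [E2.retr.equ, E1.retr.equ, hrp, E2.retr.equ, E1.retr.equ, hrq]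
        have e2 : ∀ g : G, ρ1 (ρ2 (g • φ2 q1)) = ρ1 (ρ2 (g • φ2 (φ1 v))) := by
          intro g
          rw [E2.retr.equ, E1.retr.equ, hrq, E2.retr.equ, E1.retr.equ, E2.retr.sec, E1.retr.sec]
        rintro (⟨g, ⟨h3, h4⟩ | ⟨h3, h4⟩⟩ | ⟨g, ⟨h3, h4⟩ | ⟨h3, h4⟩⟩)
        · subst h3 h4
          exact e1 g
        · subst h3 h4
          exact (e1 g).symm
        · subst h3 h4
          exact e2 g
        · subst h3 h4
          exact (e2 g).symm
  · exact E2.adj
  · obtain ⟨x, y, h, hx, hy⟩ := a11_lift E2 E1.adj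
    obtain ⟨h1, h2⟩ := hedge 1 x y h (by rw [one_smul]; exact hx) (by rw [one_smul]; exact hy)
    rw [one_smul] at h1 h2
    subst h1 h2
    exact h
  · intro g
    rw [E2.stab]
    constructor
    · rintro ⟨h1, h2⟩
      have h3 := ((hfq g).1 h1).1
      refine ⟨h3, ?_⟩
      obtain ⟨y, y1, y2⟩ := a11_up hB.ed E1 (hAB hA.mem)
      have h4 := ((hA1 _).1 (h2 y ((hA1 y).2 ⟨y1, by rw [y2]; exact hA.mem⟩))).2
      rw [E1.retr.equ, y2] at h4
      exact hA.disj g h3 u hA.mem h4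
    · rintro ⟨h1, h2⟩
      have h3 : g • u' = u' := hd g h1 u hA.mem (by rw [h2]; exact hAB hA.mem)
      have h4 := (hfq g).2 ⟨h1, h3⟩
      exact ⟨h4, hAA g h4 h2⟩
  · intro g
    rw [← E2.retr.sequ, (a11_inj E2).eq_iff]
    exact hfq g
  · intro d
    constructor
    · intro hdA
      obtain ⟨y, y1, y2⟩ := a11_up hB.ed E1 (hAB hdA)
      obtain ⟨x, h1, h2⟩ := a11_up hed E2 ((hA1 y).2 ⟨y1, by rw [y2]; exact hdA⟩)
      refine ⟨x, h1, ?_, ?_⟩
      · change ρ1 (ρ2 x) = d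
        rw [h2, y2]
      · exact (hA.adj d hdA).ne'
    · rintro ⟨x, h1, h2, h3⟩
      change ρ1 (ρ2 x) = d at h2
      have h4 := a11_dn E2 h1 (by
        intro e
        apply h3
        rw [← h2, e, E1.rp])
      have h5 := ((hA1 _).1 h4).2
      rw [h2] at h5
      exact h5
  · intro d
    constructor
    · rintro ⟨hdB, hdA⟩
      obtain ⟨y, y1, y2⟩ := a11_up hB.ed E1 hdB
      obtain ⟨a, x, h3, h4, h5⟩ := a11_lift E2 y1
      have h6 := a11_old E2 h3 (by rw [h4, h5]; exact y1.ne) (by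
        intro k k1 k2
        rw [h4] at k1
        rw [h5, hA1] at k2
        have k3 := k2.2
        rw [E1.retr.equ, y2] at k3
        refine hdA k⁻¹ ?_ k3
        rw [inv_smul_eq_iff]
        exact ((hfq k).1 k1).1.symm)
      rw [h4] at h6
      subst h6
      refine ⟨x, h3, ?_, ?_⟩
      · change ρ1 (ρ2 x) = d
        rw [h5, y2]
      · exact (hB.adj d hdB).ne'
    · rintro ⟨x, h1, h2, h3⟩
      change ρ1 (ρ2 x) = d at h2
      have h4 : ρ2 (φ2 q1) ≠ ρ2 x := by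
        intro e
        apply h3
        rw [← h2, ← e, E2.retr.sec, E1.rp]
      have h5 := a11_img E2 h1 h4
      rw [E2.retr.sec] at h5
      have h6 := a11_dn E1 h5 (by rw [h2]; exact h3)
      rw [h2] at h6
      refine ⟨h6, ?_⟩
      intro k k1 k2
      have k3 : k • u' = u' := hB.disj k k1 d h6 (hAB k2)
      have k4 := (hfq k).2 ⟨k1, k3⟩
      rcases E2.fin _ _ h1 h4 with ⟨g, _, _, g3⟩ | ⟨g1, _⟩
      · exact a11_newg E2 g3
      · refine g1 k⁻¹ ?_ ?_
        · rw [E2.retr.sec, inv_smul_eq_iff]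
          exact k4.symm
        · rw [inv_inv, hA1]
          refine ⟨?_, ?_⟩
          · have h7 := E1.ta.adj k _ _ h5
            rw [k4] at h7
            exact h7
          · rw [E1.retr.equ, h2]
            exact k2

end

end VF
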