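import Pool.Agent.Lib.MP_32d917_al_vf.A09
import Pool.Agent.Lib.MP_32d917_al_vf.A10
import Pool.Agent.Lib.MP_32d917_al_vf.A11

/-!
# A12: peak reduction for disjoint sets

Take `D : DD ...` from `dd_exists`; write `a = ecN R p (φ v)`, `b = ecN R q (φ v')`, `Λ = len R`. Trees given by
admissible choices of parents `(x, y)`: `T (x, y)`, of length `Λ - ecN p x - ecN q y` (`two_len`); `S = T (φ v, φ v')`.
Let `x1` be the neighbour of `p` with `r x1 = u`, `y1` the neighbour of `q` with `r y1 = u'` (`nbp`, `nbq`). `x1` is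
`φ u` or `g q` with `g v' = u` (not `g p`: then `g v = u`, and the neighbour `g⁻¹ p` of `p` gives `g⁻¹ v ∈ A`, against
`inv`); `y1` is `φ u'` or `g' p` with `g' v = u'`. The choice `(x1, φ v')` is admissible (`stp`: the stabiliser of `p`
fixes `v`, `u`, and the lift `x1` of the edge `v u`, by `qG_uniq`), and `T (x1, φ v') = whG G S v u A` by A03 (`exA = A`: a vertex
`x` with `r x = v`, `r1 x = u` is `g p` with `g v = v` and `r1 (g p) = g u = u`, or `g q` with `r (g q) = g v' = v` and
`r1 (g q) = g v' = u`, impossible as `u ≠ v`). Similarly `T (φ v, y1) = whG G S v' u' B`. Put `n1 = ecN p x1`,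
`n2 = ecN q y1`. The hypotheses give `a ≤ n1`, `b ≤ n2`, `a + b < n1 + n2`.
(α) `x1` or `y1` is in the image of `φ`: then `(x1, y1)` is admissible, of length `Λ - n1 - n2 < Λ - a - b = len S`, and
`two_low` for `(x1, φ v'), (x1, y1)` and for `(x1, y1), (φ v, y1)`; `low_trans`.
(β) `x1 = g q`, `y1 = g' p`, and `g' = g⁻¹` up to the stabilisers, i.e. `g y1 = p`: `two_low` directly for
`(g q, φ v')`, `(φ v, y1)`, third alternative.
(γ) `x1 = g q`, `y1 = g' p`, `g y1 ≠ p`: The stabiliser of `p` fixes `x1 = g q`, the stabiliser of `q` fixes `g' p`: so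
`st p ≤ g (st q) g⁻¹`, `st q ≤ g' (st p) g'⁻¹`. As `st p` is the stabiliser of the pair `(v, u)` and `st q` the one of
`(v', u')`: `cinv` for the pair `(v, u)` and the element `g g'`: `st p ≤ (g g') st p (g g')⁻¹`, so equality (note that
`cinv` says: if `st (v, x) ≤ g st (v, x) g⁻¹` then equality), so `g⁻¹ (st p) g = st q`
and `g'⁻¹ (st q) g' = st p`. So the choices `(φ v, g⁻¹ p)` and `(g'⁻¹ q, φ v')` are admissible too (adjacency: translate the
edges `p, g q` and `q, g' p`). Lengths: `ecN q (g⁻¹ p) = n1` and `ecN p (g'⁻¹ q) = n2` (`ecN_orb`). `len T (φ v, g⁻¹ p) - len S =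
b - n1`, `len T (g'⁻¹ q, φ v') - len S = a - n2`; the sum is negative, so one of the two is `< 0`. Path:
`(g q, φ v') → (φ v, g⁻¹ p) → (φ v, y1)` (third alternative with `g`, then `x = x'`), or
`(g q, φ v') → (g'⁻¹ q, φ v') → (φ v, y1)` (`y = y'`; then `x = g'⁻¹ q`, `y' = y1 = g' p`, third alternative with `g'⁻¹`).
-/

set_option autoImplicit false

namespace VF

open LatIso LatN

section

variable {G : Type} [Group G] {V : Type} [MulAction G V] {S : SimpleGraph V} {v u v' u' : V}
  {A B : Set V}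

omit [MulAction G V] in
theorem dd_adj_inv {U : Type} [MulAction G U] {R : SimpleGraph U} (hR : TA G R) {p x : U} {g : G}
    (h : R.Adj p (g • x)) : R.Adj x (g⁻¹ • p) := by
  have := hR.adj g⁻¹ _ _ h
  rw [inv_smul_smul] at this
  exact this.symm

theorem Two.symm' {U : Type} [MulAction G U] {R : SimpleGraph U} {φ : V → U} {p q : U}
    (T : Two G R φ p q) : Two G R φ q p where
  ta := T.ta
  inj := T.inj
  equ := T.equ
  cov x := by
    rcases T.cov x with h | h | h
    · exact Or.inl h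
    · exact Or.inr (Or.inr h)
    · exact Or.inr (Or.inl h)
  np := T.nq
  nq := T.np
  npq g h := T.npq g⁻¹ (by rw [← h, inv_smul_smul])

omit [MulAction G V] in
theorem Asg.symm' {U : Type} [MulAction G U] {R : SimpleGraph U} {φ : V → U} {p q x y : U}
    (a : Asg G R φ p q x y) : Asg G R φ q p y x where
  adjp := a.adjq
  adjq := a.adjp
  stp := a.stq
  stq := a.stp
  ac := by
    rcases a.ac with ⟨w, hw, h | h⟩ | ⟨w, hw, h⟩
    · obtain ⟨w', hw'⟩ := h
      exact Or.inl ⟨w', hw', Or.inl ⟨w, hw⟩⟩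
    · exact Or.inr ⟨w, hw, h⟩
    · exact Or.inl ⟨w, hw, Or.inr h⟩

theorem RAs.symm' {U : Type} [MulAction G U] {R : SimpleGraph U} {φ : V → U} {p q x y : U}
    {r : U → V} (a : RAs G R φ p q x y r) : RAs G R φ q p y x r where
  retr := a.retr
  rp := a.rq
  rq := a.rp
  col b c h := (a.col b c h).trans or_comm

theorem DD.symm' {U : Type} [MulAction G U] {R : SimpleGraph U} {φ : V → U} {r : U → V} {p q : U}
    (D : DD G S v u A v' u' B R φ r p q) : DD G S v' u' B v u A R φ r q p where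
  two := D.two.symm'
  ras := D.ras.symm'
  adjp := D.adjq
  adjq := D.adjp
  quo := D.quo
  stp := D.stq
  stq := D.stp
  nbp := D.nbq
  nbq := D.nbp

/-- the first move in the double expansion -/
theorem dd_model {U : Type} [MulAction G U] {R : SimpleGraph U} {φ : V → U} {r : U → V} {p q : U}
    (D : DD G S v u A v' u' B R φ r p q) (hA : WD G S v u A) :
    ∃ (x1 : U) (r1 : U → V), R.Adj p x1 ∧ r x1 = u ∧ Asg G R φ p q x1 (φ v') ∧
      RAs G R φ p q x1 (φ v') r1 ∧ qG R r1 = whG G S v u A ∧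
      (x1 = φ u ∨ ∃ g : G, g • q = x1) := by
  have hR := D.two.ta
  have hr := D.ras.retr
  have hrp : r p = v := D.ras.rp.trans (hr.sec v)
  have hrq : r q = v' := D.ras.rq.trans (hr.sec v')
  obtain ⟨x1, hx1, hrx, huv⟩ := (D.nbp u).1 hA.mem
  have hx1c : x1 = φ u ∨ ∃ g : G, g • q = x1 := by
    rcases D.two.cov x1 with ⟨w, hw⟩ | ⟨g, hg⟩ | ⟨g, hg⟩
    · left
      rw [← hw, hr.sec] at hrx
      rw [← hw, hrx]
    · exfalso
      have hgv : g • v = u := by rw [← hrp, ← hr.equ, hg, hrx]
      refine hA.inv g hgv ((D.nbp _).2 ⟨g⁻¹ • p, ?_, ?_, ?_⟩)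
      · exact dd_adj_inv hR (by rw [hg]; exact hx1)
      · rw [hr.equ, hrp]
      · intro h
        apply huv
        rw [← hgv]
        calc g • v = g • g⁻¹ • v := by rw [h]
          _ = v := smul_inv_smul _ _
    · exact Or.inr ⟨g, hg⟩
  have hne : r p ≠ r x1 := by rw [hrp, hrx]; exact huv.symm
  have hstp : ∀ g : G, g • p = p → g • x1 = x1 := by
    intro g hg
    have h1 := (D.stp g).1 hg
    have h2 := hR.adj g _ _ hx1
    exact (qG_uniq hR.tree hr hx1 h2 hne (by rw [hg]) (by rw [hr.equ, hrx, h1.2])).2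
  have a1 : Asg G R φ p q x1 (φ v') :=
    { adjp := hx1
      adjq := D.adjq
      stp := hstp
      stq := fun g hg => by rw [← D.two.equ, ((D.stq g).1 hg).1]
      ac := by
        rcases hx1c with h | h
        · exact Or.inl ⟨u, h.symm, Or.inl ⟨v', rfl⟩⟩
        · exact Or.inr ⟨v', rfl, h⟩ }
  obtain ⟨r1, h1⟩ := two_retr D.two a1
  have hr1 := h1.retr
  have hr1q : r1 q = v' := h1.rq.trans (hr1.sec v')
  have hr1p : r1 p = u := by
    rw [h1.rp]
    rcases hx1c with h | ⟨g, h⟩
    · rw [h, hr1.sec]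
    · rw [← h, hr1.equ, hr1q, ← hrq, ← hr.equ, h, hrx]
  refine ⟨x1, r1, hx1, hrx, a1, h1, ?_, hx1c⟩
  have he := exch_eq hR hr hr1 huv.symm ⟨p, hrp, hr1p⟩ (by
    intro x hx
    rcases D.two.cov x with ⟨w, hw⟩ | ⟨g, hg⟩ | ⟨g, hg⟩
    · exact absurd (by rw [← hw, hr.sec, hr1.sec]) hx
    · exact ⟨g⁻¹, by rw [← hg, inv_smul_smul, hrp], by rw [← hg, inv_smul_smul, hr1p]⟩
    · exact absurd (by rw [← hg, hr.equ, hr1.equ, hrq, hr1q]) hx)
  rw [he, D.quo]
  congr 1
  ext y
  constructor
  · rintro ⟨hy, x, x', hxx, hx, hx', hxy⟩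
    rcases D.two.cov x with ⟨w, hw⟩ | ⟨g, hg⟩ | ⟨g, hg⟩
    · exfalso
      rw [← hw, hr.sec] at hx
      rw [← hw, hr1.sec] at hx'
      exact huv (hx'.symm.trans hx)
    · have hgp : g • p = p := by
        rw [D.stp]
        constructor
        · rw [← hg, hr.equ, hrp] at hx
          exact hx
        · rw [← hg, hr1.equ, hr1p] at hx'
          exact hx'
      rw [← hg, hgp] at hxx
      exact (D.nbp y).2 ⟨x', hxx, hxy, hy⟩
    · exfalso
      rw [← hg, hr.equ, hrq] at hx
      rw [← hg, hr1.equ, hr1q] at hx'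
      exact huv (hx'.symm.trans hx)
  · intro hy
    obtain ⟨x', hx', hxy, hyv⟩ := (D.nbp y).1 hy
    exact ⟨hyv, p, x', hx', hrp, hr1p, hxy⟩

theorem pl_disj {ι : Type} [Fintype ι] (W : ι → G) (hS : TLat G S) (hA : WD G S v u A)
    (hB : WD G S v' u' B) (hd : ∀ g : G, g • v = v' → ∀ x ∈ A, g • x ∉ B)
    (h1 : len G (whG G S v u A) W ≤ len G S W) (h2 : len G (whG G S v' u' B) W ≤ len G S W)
    (h3 : len G (whG G S v u A) W + len G (whG G S v' u' B) W < 2 * len G S W) :
    Low G W (len G S W) (whG G S v u A) (whG G S v' u' B) := by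
  obtain ⟨U, _, R, φ, r, p, q, D⟩ := dd_exists hS.ta hA hB hd
  have hR := D.two.ta
  have hr := D.ras.retr
  have T := D.two
  obtain ⟨x1, r1, hx1, hrx, a1, hr1, hq1, c1⟩ := dd_model D hA
  obtain ⟨y1, r2, hy1, hry, a2', hr2', hq2, c2⟩ := dd_model D.symm' hB
  have a2 := a2'.symm'
  have hr2 := hr2'.symm'
  have a0 : Asg G R φ p q (φ v) (φ v') :=
    { adjp := D.adjp
      adjq := D.adjq
      stp := fun g hg => by rw [← T.equ, ((D.stp g).1 hg).1]
      stq := fun g hg => by rw [← T.equ, ((D.stq g).1 hg).1]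
      ac := Or.inl ⟨v, rfl, Or.inl ⟨v', rfl⟩⟩ }
  have l0 := two_len W T a0 D.ras
  have l1 := two_len W T a1 hr1
  have l2 := two_len W T a2 hr2
  rw [D.quo] at l0
  rw [hq1] at l1
  rw [hq2] at l2
  by_cases hα : x1 = φ u ∨ y1 = φ u'
  · have a3 : Asg G R φ p q x1 y1 :=
      { adjp := hx1
        adjq := hy1
        stp := a1.stp
        stq := a2.stq
        ac := by
          rcases hα with h | h
          · refine Or.inl ⟨u, h.symm, ?_⟩
            rcases c2 with h' | h'
            · exact Or.inl ⟨u', h'.symm⟩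
            · exact Or.inr h'
          · rcases c1 with h' | h'
            · exact Or.inl ⟨u, h'.symm, Or.inl ⟨u', h.symm⟩⟩
            · exact Or.inr ⟨u', h.symm, h'⟩ }
    obtain ⟨r3, hr3⟩ := two_retr T a3
    have l3 := two_len W T a3 hr3
    have s1 := two_low W (len G S W) T a1 a3 hr1 hr3 (Or.inl rfl)
    have s2 := two_low W (len G S W) T a3 a2 hr3 hr2 (Or.inr (Or.inl rfl))
    rw [hq1] at s1
    rw [hq2] at s2
    exact low_trans s1 (by omega) s2
  · push Not at hα
    obtain ⟨g, hg⟩ := c1.resolve_left hα.1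
    obtain ⟨g', hg'⟩ := c2.resolve_left hα.2
    subst hg hg'
    -- the stabilisers
    have k1 : ∀ k : G, k • p = p → k • g • q = g • q := a1.stp
    have k2 : ∀ k : G, k • q = q → k • g' • p = g' • p := a2.stq
    have k3 : ∀ k : G, k • (g * g') • p = (g * g') • p → k • p = p := by
      intro k hk
      have conj : ∀ (a b : G) (z : U), a • b • z = b • z ↔ (b⁻¹ * a * b) • z = z := by
        intro a b z
        rw [mul_smul, mul_smul, inv_smul_eq_iff]
      have hc := hS.cinv v u (g * g') (by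
        intro k hkv hku
        have e1 : k • p = p := (D.stp k).2 ⟨hkv, hku⟩
        have e2 := (conj _ _ _).1 (k1 k e1)
        have e3 := (conj _ _ _).1 (k2 _ e2)
        have e4 := (D.stp _).1 e3
        have e5 : g'⁻¹ * (g⁻¹ * k * g) * g' = (g * g')⁻¹ * k * (g * g') := by group
        rw [e5] at e4
        constructor
        · have := e4.1
          rw [mul_smul, mul_smul, inv_smul_eq_iff] at this
          exact this
        · have := e4.2
          rw [mul_smul, mul_smul, inv_smul_eq_iff] at this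
          exact this) k
      have e6 := (D.stp _).1 ((conj _ _ _).1 hk)
      rw [D.stp]
      apply hc
      · have := e6.1
        rw [mul_smul, mul_smul, inv_smul_eq_iff] at this
        exact this
      · have := e6.2
        rw [mul_smul, mul_smul, inv_smul_eq_iff] at this
        exact this
    have k4 : ∀ k : G, k • q = q → k • g⁻¹ • p = g⁻¹ • p := by
      intro k hk
      have e1 := k2 k hk
      have e2 : (g * k * g⁻¹) • (g * g') • p = (g * g') • p := by
        have : (g * k * g⁻¹) * (g * g') = g * (k * g') := by group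
        rw [← mul_smul, this, mul_smul, mul_smul, e1, ← mul_smul]
      have e3 := k3 _ e2
      rw [mul_smul, mul_smul] at e3
      exact eq_inv_smul_iff.2 e3
    have k5 : ∀ k : G, k • p = p → k • g'⁻¹ • q = g'⁻¹ • q := by
      intro k hk
      have e2 : (g * (g' * k * g'⁻¹) * g⁻¹) • (g * g') • p = (g * g') • p := by
        have : (g * (g' * k * g'⁻¹) * g⁻¹) * (g * g') = (g * g') * k := by group
        rw [← mul_smul, this, mul_smul, hk]
      have e3 := k1 _ (k3 _ e2)
      have e4 : (g * (g' * k * g'⁻¹) * g⁻¹) • g • q = g • (g' * k * g'⁻¹) • q := by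
        rw [← mul_smul, ← mul_smul]
        congr 1
        group
      rw [e4] at e3
      have e5 := smul_left_cancel g e3
      rw [mul_smul, mul_smul] at e5
      exact eq_inv_smul_iff.2 e5
    have a4 : Asg G R φ p q (φ v) (g⁻¹ • p) :=
      { adjp := D.adjp
        adjq := dd_adj_inv hR hx1
        stp := a0.stp
        stq := k4
        ac := Or.inl ⟨v, rfl, Or.inr ⟨g⁻¹, rfl⟩⟩ }
    have a5 : Asg G R φ p q (g'⁻¹ • q) (φ v') :=
      { adjp := dd_adj_inv hR hy1
        adjq := D.adjq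
        stp := k5
        stq := a0.stq
        ac := Or.inr ⟨v', rfl, ⟨g'⁻¹, rfl⟩⟩ }
    obtain ⟨r4, hr4⟩ := two_retr T a4
    obtain ⟨r5, hr5⟩ := two_retr T a5
    have l4 := two_len W T a4 hr4
    have l5 := two_len W T a5 hr5
    have o4 : ecN G R q (g⁻¹ • p) W = ecN G R p (g • q) W :=
      ecN_orb W ⟨g, Or.inr ⟨rfl, smul_inv_smul _ _⟩⟩
    have o5 : ecN G R p (g'⁻¹ • q) W = ecN G R q (g' • p) W :=
      ecN_orb W ⟨g', Or.inr ⟨rfl, smul_inv_smul _ _⟩⟩
    rw [o4] at l4
    rw [o5] at l5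
    by_cases hlt : len G (qG R r4) W < len G S W
    · have s1 := two_low W (len G S W) T a1 a4 hr1 hr4
        (Or.inr (Or.inr (Or.inl ⟨g, rfl, smul_inv_smul _ _⟩)))
      have s2 := two_low W (len G S W) T a4 a2 hr4 hr2 (Or.inl rfl)
      rw [hq1] at s1
      rw [hq2] at s2
      exact low_trans s1 hlt s2
    · have s1 := two_low W (len G S W) T a1 a5 hr1 hr5 (Or.inr (Or.inl rfl))
      have s2 := two_low W (len G S W) T a5 a2 hr5 hr2
        (Or.inr (Or.inr (Or.inl ⟨g'⁻¹, rfl, inv_smul_smul _ _⟩)))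
      rw [hq1] at s1
      rw [hq2] at s2
      exact low_trans s1 (by omega) s2

end

end VF
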