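import Pool.Agent.Lib.MP_32d917_al_vf.A09
import Pool.Agent.Lib.MP_32d917_al_vf.A10
import Pool.Agent.Lib.MP_32d917_al_vf.A11

/-!
# A13: peak reduction for nested sets

Take `D : DN ...` from `dn_exists`; `a = ecN R p q`, `b = ecN R q (φ v)`, `Λ = len R`. Trees given by admissible choices
of parents `(x, y)`: `T (x, y)`, of length `Λ - ecN p x - ecN q y` (`two_len`); `S = T (q, φ v)`. The stabiliser of `p` is
contained in the one of `q` (`h v = v`, `h u = u`, then `h u' = u'` by `hd` with `x = u`).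
Let `x1` be the neighbour of `p` with `r x1 = u`: `x1 = φ u` or `x1 = g q`, `g v = u` (not `g p`, by `inv`).
`T (x1, φ v) = whG G S v u A`: A03 for `(v, u)`; a vertex `x` with `r x = v`, `r1 x = u` is `g p`, `g v = v`, `g u = u`, so
`x = p` (`g q` is impossible: `r1 (g q) = g v = r (g q)`), and `exA = A` by `nbp`: the neighbours of `p` outside of the
fibre of `v` under `r`. `n1 = ecN p x1`.

Case 1: no `h` with `h v = v`, `h u' ∈ A`. Let `y1` be the neighbour of `q` with `r y1 = u'` (`nbq`). `y1 = φ u'`: if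
`y1 = g q` then `g v = u'`, and `g⁻¹ q` is a neighbour of `q`, so `g⁻¹ v ∈ B`, against `inv` for `B`; if `y1 = g p` then
`g v = u'` and `g⁻¹ q` is a neighbour of `p`, so `g⁻¹ v ∈ A ⊆ B`, against `inv`. `T (q, φ u') = whG G S v u' B` (A03 for
`(v, u')`: the vertices `x` with `r x = v`, `r2 x = u'` are `q` and the `g p` with `g q = q`; their neighbours outside
of the fibre of `v` give `B`). `n2 = ecN q y1`. `a ≤ n1`, `b ≤ n2`, `a + b < n1 + n2`. The choice `(x1, φ u')` is
admissible, its length is `Λ - n1 - n2 < len S`; path `(x1, φ v) → (x1, φ u') → (q, φ u')`.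

Case 2: `h v = v`, `h u' ∈ A` for some `h`. Then `u' ∈ A`: `h` maps `u'`, with `h u' ∈ A ⊆ B`, so `h u' = u'` by `WD.disj` for
`B`. So the stabiliser of `q` (i.e. of `(v, u')`) is contained in the one of `(v, u)` (`WD.disj` for `A`, `x = u'`), so `p` and
`q` have the same stabiliser. Let `y1` be the neighbour of `p` with `r y1 = u'`. `y1 = φ u'` (if `y1 = g p` then `g v = u'`,
`g⁻¹ v ∈ A ⊆ B`; if `y1 = g q` then `g⁻¹ p` is a neighbour of `q`, so `g⁻¹ v ∈ B` by `nbq`; both against `inv`).
The choice `(φ u', p)` is admissible and `T (φ u', p) = whG G S v u' B`. Now `n2 = ecN p (φ u')`, `ecN q p = a`.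
`a ≤ n1`, `b ≤ n2`, `a + b < n1 + n2`. If `u = u'`: then `x1 = φ u'` and `(x1, φ v)`, `(φ u', p)` have `x = x'`: `two_low`.
(i) `x1 = φ u`: the choices `(φ u', φ v)` and `(φ u, p)` are admissible, of lengths `Λ - n2 - b`, `Λ - a - n1`; minus `len S`:
`a - n2`, `b - n1`, the sum is negative. Paths `(φ u, φ v) → (φ u', φ v) → (φ u', p)` or
`(φ u, φ v) → (φ u, p) → (φ u', p)`. (The last step has `y = y' = p`.)
(ii) `x1 = g q`: The stabiliser of `p` fixes `g q`; the stabiliser of `q` is the one of `p`, it is the stabiliser of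
`(v, u)`: `cinv` gives `st q = g⁻¹ (st p) g`. The choice `(φ u', g⁻¹ p)` is admissible, of length `Λ - n2 - n1 < len S`
(`ecN q (g⁻¹ p) = n1`, `ecN_orb`). Path `(g q, φ v) → (φ u', g⁻¹ p) → (φ u', p)` (third alternative of `two_low`, then
`x = x'`).
-/

set_option autoImplicit false

namespace VF

open LatIso LatN

section

variable {G : Type} [Group G] {V : Type} [MulAction G V] {S : SimpleGraph V} {v u u' : V}
  {A B : Set V}

/-- a retraction mapping `p` and `q` to `u'` gives the second move -/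
theorem dn_model {U : Type} [MulAction G U] {R : SimpleGraph U} {φ : V → U} {r r2 : U → V} {p q : U}
    (D : DN G S v u A u' B R φ r p q) (hB : WD G S v u' B) (hAB : A ⊆ B)
    (hd : ∀ h : G, h • v = v → ∀ x ∈ A, h • x ∈ B → h • u' = u') (huv : u' ≠ v)
    (hr2 : Retr G R φ r2) (hr2p : r2 p = u') (hr2q : r2 q = u') :
    qG R r2 = whG G S v u' B := by
  have hR := D.two.ta
  have hr := D.ras.retr
  have hrq : r q = v := D.ras.rq.trans (hr.sec v)
  have hrp : r p = v := D.ras.rp.trans hrq
  have he := exch_eq hR hr hr2 huv.symm ⟨p, hrp, hr2p⟩ (by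
    intro x hx
    rcases D.two.cov x with ⟨w, hw⟩ | ⟨g, hg⟩ | ⟨g, hg⟩
    · exact absurd (by rw [← hw, hr.sec, hr2.sec]) hx
    · exact ⟨g⁻¹, by rw [← hg, inv_smul_smul, hrp], by rw [← hg, inv_smul_smul, hr2p]⟩
    · exact ⟨g⁻¹, by rw [← hg, inv_smul_smul, hrq], by rw [← hg, inv_smul_smul, hr2q]⟩)
  rw [he, D.quo]
  congr 1
  ext y
  constructor
  · rintro ⟨hy, x, x', hxx, hx, hx', hxy⟩
    rcases D.two.cov x with ⟨w, hw⟩ | ⟨g, hg⟩ | ⟨g, hg⟩
    · exfalso
      rw [← hw, hr.sec] at hx
      rw [← hw, hr2.sec] at hx'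
      exact huv (hx'.symm.trans hx)
    · rw [← hg, hr.equ, hrp] at hx
      rw [← hg, hr2.equ, hr2p] at hx'
      have h1 : R.Adj p (g⁻¹ • x') := by
        have := hR.adj g⁻¹ _ _ hxx
        rwa [← hg, inv_smul_smul] at this
      have h2 : g⁻¹ • y ∈ A := by
        refine (D.nbp _).2 ⟨g⁻¹ • x', h1, ?_, ?_⟩
        · rw [hr.equ, hxy]
        · intro h
          apply hy
          rw [inv_smul_eq_iff, hx] at h
          exact h
      have h3 := hB.stab g hx hx' _ (hAB h2)
      rwa [smul_inv_smul] at h3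
    · have hgq : g • q = q := by
        rw [D.stq]
        constructor
        · rw [← hg, hr.equ, hrq] at hx
          exact hx
        · rw [← hg, hr2.equ, hr2q] at hx'
          exact hx'
      rw [← hg, hgq] at hxx
      exact ((D.nbq y).2 ⟨x', hxx, hxy, hy⟩).1
  · intro hy
    by_cases hc : ∀ h : G, h • v = v → h • y ∉ A
    · obtain ⟨x', hx', hxy, hyv⟩ := (D.nbq y).1 ⟨hy, hc⟩
      exact ⟨hyv, q, x', hx', hrq, hr2q, hxy⟩
    · push Not at hc
      obtain ⟨h, hv, hyA⟩ := hc
      have hu' : h • u' = u' := hB.disj h hv y hy (hAB hyA)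
      obtain ⟨x', hx', hxy, hyv⟩ := (D.nbp _).1 hyA
      refine ⟨?_, h⁻¹ • p, h⁻¹ • x', hR.adj h⁻¹ _ _ hx', ?_, ?_, ?_⟩
      · rintro rfl
        exact hyv hv
      · rw [hr.equ, hrp, inv_smul_eq_iff, hv]
      · rw [hr2.equ, hr2p, inv_smul_eq_iff, hu']
      · rw [hr.equ, hxy, inv_smul_smul]

theorem pl_nest {ι : Type} [Fintype ι] (W : ι → G) (hS : TLat G S) (hA : WD G S v u A)
    (hB : WD G S v u' B) (hAB : A ⊆ B)
    (hd : ∀ h : G, h • v = v → ∀ x ∈ A, h • x ∈ B → h • u' = u')
    (h1 : len G (whG G S v u A) W ≤ len G S W) (h2 : len G (whG G S v u' B) W ≤ len G S W)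
    (h3 : len G (whG G S v u A) W + len G (whG G S v u' B) W < 2 * len G S W) :
    Low G W (len G S W) (whG G S v u A) (whG G S v u' B) := by
  obtain ⟨U, _, R, φ, r, p, q, D⟩ := dn_exists hS.ta hA hB hAB hd
  have hR := D.two.ta
  have T := D.two
  have hr := D.ras.retr
  have hrq : r q = v := D.ras.rq.trans (hr.sec v)
  have hrp : r p = v := D.ras.rp.trans hrq
  have hadj : ∀ {a b : U} {g : G}, R.Adj a (g • b) → R.Adj b (g⁻¹ • a) := by
    intro a b g h
    have := hR.adj g⁻¹ _ _ h
    rw [inv_smul_smul] at this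
    exact this.symm
  have hginv : ∀ {g : G} {z : V}, g • v = z → z ≠ v → g⁻¹ • v ≠ v := by
    intro g z h1 h2 h3
    apply h2
    rw [← h1]
    calc g • v = g • g⁻¹ • v := by rw [h3]
      _ = v := smul_inv_smul _ _
  obtain ⟨x1, hx1, hrx, huv⟩ := (D.nbp u).1 hA.mem
  have c1 : x1 = φ u ∨ ∃ g : G, g • q = x1 := by
    rcases D.two.cov x1 with ⟨w, hw⟩ | ⟨g, hg⟩ | ⟨g, hg⟩
    · left
      rw [← hw, hr.sec] at hrx
      rw [← hw, hrx]
    · exfalso
      have hgv : g • v = u := by rw [← hrp, ← hr.equ, hg, hrx]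
      refine hA.inv g hgv ((D.nbp _).2 ⟨g⁻¹ • p, hadj (by rw [hg]; exact hx1), ?_, hginv hgv huv⟩)
      rw [hr.equ, hrp]
    · exact Or.inr ⟨g, hg⟩
  have hne : r p ≠ r x1 := by rw [hrp, hrx]; exact huv.symm
  have stpx : ∀ g : G, g • p = p → g • x1 = x1 := by
    intro g hg
    have h1 := (D.stp g).1 hg
    have h2 := hR.adj g _ _ hx1
    exact (qG_uniq hR.tree hr hx1 h2 hne (by rw [hg]) (by rw [hr.equ, hrx, h1.2])).2
  have stpq : ∀ g : G, g • p = p → g • q = q := by
    intro g hg
    have h1 := (D.stp g).1 hg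
    exact (D.stq g).2 ⟨h1.1, hd g h1.1 u hA.mem (by rw [h1.2]; exact hAB hA.mem)⟩
  have stqv : ∀ g : G, g • q = q → g • φ v = φ v := by
    intro g hg
    rw [← T.equ, ((D.stq g).1 hg).1]
  have stqu : ∀ g : G, g • q = q → g • φ u' = φ u' := by
    intro g hg
    rw [← T.equ, ((D.stq g).1 hg).2]
  have a0 : Asg G R φ p q q (φ v) :=
    { adjp := D.adjp
      adjq := D.adjq
      stp := stpq
      stq := stqv
      ac := Or.inr ⟨v, rfl, 1, one_smul _ _⟩ }
  have a1 : Asg G R φ p q x1 (φ v) :=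
    { adjp := hx1
      adjq := D.adjq
      stp := stpx
      stq := stqv
      ac := by
        rcases c1 with h | h
        · exact Or.inl ⟨u, h.symm, Or.inl ⟨v, rfl⟩⟩
        · exact Or.inr ⟨v, rfl, h⟩ }
  obtain ⟨r1, hr1⟩ := two_retr T a1
  have hr1r := hr1.retr
  have hr1q : r1 q = v := hr1.rq.trans (hr1r.sec v)
  have hr1p : r1 p = u := by
    rw [hr1.rp]
    rcases c1 with h | ⟨g, h⟩
    · rw [h, hr1r.sec]
    · rw [← h, hr1r.equ, hr1q, ← hrq, ← hr.equ, h, hrx]
  have hq1 : qG R r1 = whG G S v u A := by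
    have he := exch_eq hR hr hr1r huv.symm ⟨p, hrp, hr1p⟩ (by
      intro x hx
      rcases D.two.cov x with ⟨w, hw⟩ | ⟨g, hg⟩ | ⟨g, hg⟩
      · exact absurd (by rw [← hw, hr.sec, hr1r.sec]) hx
      · exact ⟨g⁻¹, by rw [← hg, inv_smul_smul, hrp], by rw [← hg, inv_smul_smul, hr1p]⟩
      · exact absurd (by rw [← hg, hr.equ, hr1r.equ, hrq, hr1q]) hx)
    rw [he, D.quo]
    congr 1
    ext y
    constructor
    · rintro ⟨hy, x, x', hxx, hx, hx', hxy⟩
      rcases D.two.cov x with ⟨w, hw⟩ | ⟨g, hg⟩ | ⟨g, hg⟩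
      · exfalso
        rw [← hw, hr.sec] at hx
        rw [← hw, hr1r.sec] at hx'
        exact huv (hx'.symm.trans hx)
      · have hgp : g • p = p := by
          rw [D.stp]
          constructor
          · rw [← hg, hr.equ, hrp] at hx
            exact hx
          · rw [← hg, hr1r.equ, hr1p] at hx'
            exact hx'
        rw [← hg, hgp] at hxx
        exact (D.nbp y).2 ⟨x', hxx, hxy, hy⟩
      · exfalso
        rw [← hg, hr.equ, hrq] at hx
        rw [← hg, hr1r.equ, hr1q] at hx'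
        exact huv (hx'.symm.trans hx)
    · intro hy
      obtain ⟨x', hx', hxy, hyv⟩ := (D.nbp y).1 hy
      exact ⟨hyv, p, x', hx', hrp, hr1p, hxy⟩
  have l0 := two_len W T a0 D.ras
  have l1 := two_len W T a1 hr1
  rw [D.quo] at l0
  rw [hq1] at l1
  by_cases hcase : ∀ h : G, h • v = v → h • u' ∉ A
  · -- case 1
    obtain ⟨y1, hy1, hry, huv'⟩ := (D.nbq u').1 ⟨hB.mem, hcase⟩
    have hy1u : y1 = φ u' := by
      rcases D.two.cov y1 with ⟨w, hw⟩ | ⟨g, hg⟩ | ⟨g, hg⟩
      · rw [← hw, hr.sec] at hry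
        rw [← hw, hry]
      · exfalso
        have hgv : g • v = u' := by rw [← hrp, ← hr.equ, hg, hry]
        refine hB.inv g hgv (hAB ((D.nbp _).2 ⟨g⁻¹ • q, hadj (by rw [hg]; exact hy1), ?_,
          hginv hgv huv'⟩))
        rw [hr.equ, hrq]
      · exfalso
        have hgv : g • v = u' := by rw [← hrq, ← hr.equ, hg, hry]
        refine hB.inv g hgv ((D.nbq _).2 ⟨g⁻¹ • q, hadj (by rw [hg]; exact hy1), ?_,
          hginv hgv huv'⟩).1
        rw [hr.equ, hrq]
    subst hy1u
    have a2 : Asg G R φ p q q (φ u') :=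
      { adjp := D.adjp
        adjq := hy1
        stp := stpq
        stq := stqu
        ac := Or.inr ⟨u', rfl, 1, one_smul _ _⟩ }
    have a3 : Asg G R φ p q x1 (φ u') :=
      { adjp := hx1
        adjq := hy1
        stp := stpx
        stq := stqu
        ac := by
          rcases c1 with h | h
          · exact Or.inl ⟨u, h.symm, Or.inl ⟨u', rfl⟩⟩
          · exact Or.inr ⟨u', rfl, h⟩ }
    obtain ⟨r2, hr2⟩ := two_retr T a2
    obtain ⟨r3, hr3⟩ := two_retr T a3
    have hr2q : r2 q = u' := hr2.rq.trans (hr2.retr.sec u')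
    have hq2 := dn_model D hB hAB hd huv' hr2.retr (hr2.rp.trans hr2q) hr2q
    have l2 := two_len W T a2 hr2
    have l3 := two_len W T a3 hr3
    rw [hq2] at l2
    have s1 := two_low W (len G S W) T a1 a3 hr1 hr3 (Or.inl rfl)
    have s2 := two_low W (len G S W) T a3 a2 hr3 hr2 (Or.inr (Or.inl rfl))
    rw [hq1] at s1
    rw [hq2] at s2
    exact low_trans s1 (by omega) s2
  · -- case 2
    push Not at hcase
    obtain ⟨h, hv, hhu⟩ := hcase
    have hu'A : u' ∈ A := by
      have := hB.disj h hv u' hB.mem (hAB hhu)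
      rwa [this] at hhu
    have stqp : ∀ g : G, g • q = q → g • p = p := by
      intro k hk
      have h1 := (D.stq k).1 hk
      exact (D.stp k).2 ⟨h1.1, hA.disj k h1.1 u' hu'A (by rw [h1.2]; exact hu'A)⟩
    obtain ⟨y1, hy1, hry, huv'⟩ := (D.nbp u').1 hu'A
    have hy1u : y1 = φ u' := by
      rcases D.two.cov y1 with ⟨w, hw⟩ | ⟨g, hg⟩ | ⟨g, hg⟩
      · rw [← hw, hr.sec] at hry
        rw [← hw, hry]
      · exfalso
        have hgv : g • v = u' := by rw [← hrp, ← hr.equ, hg, hry]
        refine hB.inv g hgv (hAB ((D.nbp _).2 ⟨g⁻¹ • p, hadj (by rw [hg]; exact hy1), ?_,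
          hginv hgv huv'⟩))
        rw [hr.equ, hrp]
      · exfalso
        have hgv : g • v = u' := by rw [← hrq, ← hr.equ, hg, hry]
        refine hB.inv g hgv ((D.nbq _).2 ⟨g⁻¹ • p, hadj (by rw [hg]; exact hy1), ?_,
          hginv hgv huv'⟩).1
        rw [hr.equ, hrp]
    subst hy1u
    have stpu : ∀ g : G, g • p = p → g • φ u' = φ u' := fun g hg => stqu g (stpq g hg)
    have a2 : Asg G R φ p q (φ u') p :=
      { adjp := hy1
        adjq := D.adjp.symm
        stp := stpu
        stq := stqp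
        ac := Or.inl ⟨u', rfl, Or.inr ⟨1, one_smul _ _⟩⟩ }
    obtain ⟨r2, hr2⟩ := two_retr T a2
    have hr2p : r2 p = u' := hr2.rp.trans (hr2.retr.sec u')
    have hq2 := dn_model D hB hAB hd huv' hr2.retr hr2p (hr2.rq.trans hr2p)
    have l2 := two_len W T a2 hr2
    rw [hq2] at l2
    have o2 : ecN G R q p W = ecN G R p q W :=
      ecN_orb W ⟨1, Or.inr ⟨one_smul _ _, one_smul _ _⟩⟩
    rw [o2] at l2
    rcases c1 with hx | ⟨g, hg⟩
    · subst hx
      have a4 : Asg G R φ p q (φ u') (φ v) :=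
        { adjp := hy1
          adjq := D.adjq
          stp := stpu
          stq := stqv
          ac := Or.inl ⟨u', rfl, Or.inl ⟨v, rfl⟩⟩ }
      have a5 : Asg G R φ p q (φ u) p :=
        { adjp := hx1
          adjq := D.adjp.symm
          stp := stpx
          stq := stqp
          ac := Or.inl ⟨u, rfl, Or.inr ⟨1, one_smul _ _⟩⟩ }
      obtain ⟨r4, hr4⟩ := two_retr T a4
      obtain ⟨r5, hr5⟩ := two_retr T a5
      have l4 := two_len W T a4 hr4
      have l5 := two_len W T a5 hr5
      rw [o2] at l5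
      by_cases hlt : len G (qG R r4) W < len G S W
      · have s1 := two_low W (len G S W) T a1 a4 hr1 hr4 (Or.inr (Or.inl rfl))
        have s2 := two_low W (len G S W) T a4 a2 hr4 hr2 (Or.inl rfl)
        rw [hq1] at s1
        rw [hq2] at s2
        exact low_trans s1 hlt s2
      · have s1 := two_low W (len G S W) T a1 a5 hr1 hr5 (Or.inl rfl)
        have s2 := two_low W (len G S W) T a5 a2 hr5 hr2 (Or.inr (Or.inl rfl))
        rw [hq1] at s1
        rw [hq2] at s2
        exact low_trans s1 (by omega) s2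
    · subst hg
      have k1 : ∀ k : G, k • p = p → k • g • q = g • q := a1.stp
      have k3 : ∀ k : G, k • g • p = g • p → k • p = p := by
        intro k hk
        have conj : ∀ (a b : G) (z : U), a • b • z = b • z ↔ (b⁻¹ * a * b) • z = z := by
          intro a b z
          rw [mul_smul, mul_smul, inv_smul_eq_iff]
        have hc := hS.cinv v u g (by
          intro k hkv hku
          have e1 : k • p = p := (D.stp k).2 ⟨hkv, hku⟩
          have e2 := stqp _ ((conj _ _ _).1 (k1 k e1))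
          have e4 := (D.stp _).1 e2
          constructor
          · have := e4.1
            rw [mul_smul, mul_smul, inv_smul_eq_iff] at this
            exact this
          · have := e4.2
            rw [mul_smul, mul_smul, inv_smul_eq_iff] at this
            exact this) k
        have e6 := (D.stp _).1 ((conj _ _ _).1 hk)
        rw [D.stp]
        apply hc
        · have := e6.1
          rw [mul_smul, mul_smul, inv_smul_eq_iff] at this
          exact this
        · have := e6.2
          rw [mul_smul, mul_smul, inv_smul_eq_iff] at this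
          exact this
      have k4 : ∀ k : G, k • q = q → k • g⁻¹ • p = g⁻¹ • p := by
        intro k hk
        have e1 := stqp k hk
        have e2 : (g * k * g⁻¹) • g • p = g • p := by
          have : (g * k * g⁻¹) * g = g * k := by group
          rw [← mul_smul, this, mul_smul, e1]
        have e3 := k3 _ e2
        rw [mul_smul, mul_smul] at e3
        exact eq_inv_smul_iff.2 e3
      have a4 : Asg G R φ p q (φ u') (g⁻¹ • p) :=
        { adjp := hy1
          adjq := hadj hx1
          stp := stpu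
          stq := k4
          ac := Or.inl ⟨u', rfl, Or.inr ⟨g⁻¹, rfl⟩⟩ }
      obtain ⟨r4, hr4⟩ := two_retr T a4
      have l4 := two_len W T a4 hr4
      have o4 : ecN G R q (g⁻¹ • p) W = ecN G R p (g • q) W :=
        ecN_orb W ⟨g, Or.inr ⟨rfl, smul_inv_smul _ _⟩⟩
      rw [o4] at l4
      have s1 := two_low W (len G S W) T a1 a4 hr1 hr4
        (Or.inr (Or.inr (Or.inl ⟨g, rfl, smul_inv_smul _ _⟩)))
      have s2 := two_low W (len G S W) T a4 a2 hr4 hr2 (Or.inl rfl)
      rw [hq1] at s1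
      rw [hq2] at s2
      exact low_trans s1 (by omega) s2

end

end VF
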