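import Pool.Agent.Lib.MP_32d917_al_vf.ADefs

/-!
# A14: inequalities

Everything is pointwise: for all `x y`, `dA (X) x y + dA (Y) x y ≤ dA A x y + dA B x y`, then sum over `τ`
(`dS` is a sum of `dA` over a list). Let `H` be the stabiliser of `v`, `C`, `D` the stabilisers of `u`, `u'` in `H`. Then
for `h ∈ H`: `h A = A` iff `h ∈ C` iff `h A` meets `A`; same for `B`, `D`. Label of `x`: the set `a = {h ∈ H | h⁻¹ x ∈ A}`,
empty or a coset `g C`; and `b = {h ∈ H | h⁻¹ x ∈ B}`, empty or a coset `g D`. `dA A x y` is `0` if `x`, `y` have the same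
label (also both empty), `1` if exactly one label is empty, `2` if both are not empty and different. (Distance in a
star with centre the empty label.) It is convenient to prove first this description, for any block system.

`dS_diff`: labels of `X`: `a` if `b = ∅`, else `∅`; of `Y`: `b` if `a = ∅`, else `∅`. Cases:
both `b = ∅ = b'`: equality; both `b, b' ≠ ∅`: `d_X = 0`, and `d_Y ≤ d_B` if `a = a' = ∅`; `d_Y = 0` if both are not
empty; `d_Y = 1 = d_A` if exactly one is empty; exactly one of `b`, `b'` empty, say `b = ∅`: `d_X = [a ≠ ∅]`, `d_Y = [a' = ∅]`,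
`d_B = 1`; if both are `1` then `d_A = 1`.

From now on `C ≤ D` (`hCD`); `π : H/C → H/D`. `x` is native if `a, b ≠ ∅`, `a ⊆ b`, foreign if `a, b ≠ ∅`, not `a ⊆ b`
(then `a` and `b` are disjoint).

`dS_un` (no foreign elements): labels of `X = A ∩ B`: `a` if `b ≠ ∅`, else `∅`. Labels of `Y`: `b` if `b ≠ ∅`, `π a` if
`b = ∅ ≠ a`, `∅` otherwise. Pairs: `(a,∅),(a',∅)`: `0 + d(πa,πa') ≤ d(a,a')`. `(a,∅),(∅,b)`: `0 + d(πa,b) ≤ 2`.
`(a,∅),(a',πa')`: `1 + d(πa,πa') ≤ d(a,a') + 1`. `(∅,b),(a',πa')`: `1 + d(b,πa')`, equality. `(∅,b),(∅,b')`: equality.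
native, native: equality. `(∅,∅),(a,∅)`: `0+1`. `(∅,∅),(∅,b)`: `0+1`. `(∅,∅),(a,πa)`: `1+1`.

`dS_fo`: labels of `X`: `a` if `x` is not foreign, else `∅`; of `Y`: `b` if `x` is not foreign, else `∅`. Pairs: both
foreign `0`; both not foreign: equality; `x` foreign, `x'` not: `[a' ≠ ∅] + [b' ≠ ∅] ≤ d(a,a') + d(b,b')`: if
`a' = ∅` or `b' = ∅` then one term on the right is `1` and the left side is at most `1`; if `x'` is native, then `a = a'` and
`b = b'` is impossible and each term on the right is `0` or `2`.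

`dS_in`: `X = A ∩ B`, `Y = {x ∈ B | k x ∈ A}`, `k ∈ H`, `k ∉ D`, `k D k⁻¹ ≤ C ≤ D`. `x` is in a translate of `X` iff `x` is
native, with label `a`. `x` is in a translate of `Y` iff there is `g ∈ H` with `g x ∈ B`, `k g x ∈ A`, i.e. `g⁻¹ ∈ b`,
`g⁻¹ k⁻¹ ∈ a`; then this holds for all `g⁻¹ ∈ b` (as `k D k⁻¹ ≤ C`), so `a = b k⁻¹` as sets `⊇`; label `b`. Both
cannot happen: `a ⊆ b`, and `b k⁻¹` meets `a`, `k ∈ D`. Types `N`, `K`, `O` (other). `N N`: `d_X = d(a,a')`, `d_Y = 0`. `K K`: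
`d_X = 0`, `d_Y = d(b,b')`. `N K`: left `2`; right: `a = a'` and `b = b'` is impossible, so the right side is `≥ 2`. `N O`,
`K O`: left `1`, right `≥ 1` since otherwise the labels are equal and the types too. `O O`: `0`.
-/

set_option autoImplicit false

namespace VF

open LatIso LatN

section

variable {G : Type} [Group G] {V : Type} [MulAction G V] {S : SimpleGraph V} {v u u' : V}
  {A B : Set V}

/-- some translate of `x` by the stabiliser of `v` is in `A` -/
def A14_one (G : Type) [Group G] {V : Type} [MulAction G V] (v : V) (A : Set V) (x : V) : Prop :=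
  ∃ h : G, h • v = v ∧ h • x ∈ A

/-- `x` and `y` have the same label -/
def A14_two (G : Type) [Group G] {V : Type} [MulAction G V] (v : V) (A : Set V) (x y : V) : Prop :=
  ∃ h : G, h • v = v ∧ h • x ∈ A ∧ h • y ∈ A

open Classical in
/-- the propositional form of the distance of two labels -/
noncomputable def A14_d (p q r : Prop) : ℕ :=
  if r then 0 else (if p then 1 else 0) + (if q then 1 else 0)

theorem A14_dA (v : V) (A : Set V) (x y : V) :
    dA G v A x y = A14_d (A14_one G v A x) (A14_one G v A y) (A14_two G v A x y) := by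
  unfold dA A14_d A14_one A14_two
  rfl

theorem A14_two_left {A : Set V} {x y : V} (h : A14_two G v A x y) : A14_one G v A x :=
  let ⟨g, h1, h2, _⟩ := h
  ⟨g, h1, h2⟩

theorem A14_two_right {A : Set V} {x y : V} (h : A14_two G v A x y) : A14_one G v A y :=
  let ⟨g, h1, _, h2⟩ := h
  ⟨g, h1, h2⟩

theorem A14_sum {X Y A B : Set V}
    (h : ∀ x y, dA G v X x y + dA G v Y x y ≤ dA G v A x y + dA G v B x y) (τ : List (V × V)) :
    dS G v X τ + dS G v Y τ ≤ dS G v A τ + dS G v B τ := by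
  induction τ with
  | nil => simp [dS]
  | cons t τ ih =>
    have h1 := h t.1 t.2
    simp only [dS, List.map_cons, List.sum_cons] at ih ⊢
    omega

theorem A14_inv {h : G} (hh : h • v = v) : h⁻¹ • v = v := by
  rw [inv_smul_eq_iff]
  exact hh.symm

theorem A14_mul {g h : G} (hg : g • v = v) (hh : h • v = v) : (g * h) • v = v := by
  rw [mul_smul, hh, hg]

/-- two elements which carry `x` into `A` differ by the stabiliser of `u` -/
theorem A14_same (hA : WD G S v u A) {g h : G} (hg : g • v = v) (hh : h • v = v) {x : V}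
    (hgx : g • x ∈ A) (hhx : h • x ∈ A) : (g * h⁻¹) • u = u := by
  apply hA.disj (g * h⁻¹) (A14_mul hg (A14_inv hh)) (h • x) hhx
  rw [smul_smul, mul_assoc, inv_mul_cancel, mul_one]
  exact hgx

/-- the stabiliser of `u` preserves `A` -/
theorem A14_move (hA : WD G S v u A) {g h : G} (hg : g • v = v) (hh : h • v = v) {x : V}
    (hgx : g • x ∈ A) (hgh : (h * g⁻¹) • u = u) : h • x ∈ A := by
  have := hA.stab (h * g⁻¹) (A14_mul hh (A14_inv hg)) hgh (g • x) hgx
  rwa [smul_smul, mul_assoc, inv_mul_cancel, mul_one] at this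

/-- if `x`, `y` have the same label then every element which carries `x` into `A` carries `y` into `A` -/
theorem A14_trans (hA : WD G S v u A) {g : G} (hg : g • v = v) {x y : V}
    (hgx : g • x ∈ A) (h : A14_two G v A x y) : g • y ∈ A := by
  obtain ⟨k, hk, hkx, hky⟩ := h
  exact A14_move hA hk hg hky (A14_same hA hg hk hgx hkx)

theorem dS_diff (hA : WD G S v u A) (hB : WD G S v u' B) (τ : List (V × V)) :
    dS G v (dfA G v A B) τ + dS G v (dfA G v B A) τ ≤ dS G v A τ + dS G v B τ := by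
  apply A14_sum
  intro x y
  have k1 : ∀ (A B : Set V) (x : V),
      A14_one G v (dfA G v A B) x ↔ (A14_one G v A x ∧ ¬ A14_one G v B x) := by
    intro A B x
    constructor
    · rintro ⟨h, h1, h2, h3⟩
      refine ⟨⟨h, h1, h2⟩, ?_⟩
      rintro ⟨k, hk, hkx⟩
      apply h3 (k * h⁻¹) (A14_mul hk (A14_inv h1))
      rwa [smul_smul, mul_assoc, inv_mul_cancel, mul_one]
    · rintro ⟨⟨h, h1, h2⟩, h3⟩
      refine ⟨h, h1, h2, ?_⟩
      intro k hk hkx
      apply h3
      exact ⟨k * h, A14_mul hk h1, by rwa [mul_smul]⟩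
  have k2 : ∀ (A B : Set V) (x y : V),
      A14_two G v (dfA G v A B) x y ↔
        (A14_two G v A x y ∧ ¬ A14_one G v B x ∧ ¬ A14_one G v B y) := by
    intro A B x y
    constructor
    · intro h
      have hx := ((k1 A B x).1 (A14_two_left h)).2
      have hy := ((k1 A B y).1 (A14_two_right h)).2
      obtain ⟨h, h1, h2, h3⟩ := h
      exact ⟨⟨h, h1, h2.1, h3.1⟩, hx, hy⟩
    · rintro ⟨⟨h, h1, h2, h3⟩, hx, hy⟩
      refine ⟨h, h1, ⟨h2, ?_⟩, ⟨h3, ?_⟩⟩
      · intro k hk hkx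
        exact hx ⟨k * h, A14_mul hk h1, by rwa [mul_smul]⟩
      · intro k hk hkx
        exact hy ⟨k * h, A14_mul hk h1, by rwa [mul_smul]⟩
  simp only [A14_dA, k1, k2]
  have e1 : A14_two G v A x y → A14_one G v A x ∧ A14_one G v A y :=
    fun h => ⟨A14_two_left h, A14_two_right h⟩
  have e2 : A14_two G v B x y → A14_one G v B x ∧ A14_one G v B y :=
    fun h => ⟨A14_two_left h, A14_two_right h⟩
  generalize A14_one G v A x = ax at *
  generalize A14_one G v A y = ay at *
  generalize A14_one G v B x = bx at *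
  generalize A14_one G v B y = by' at *
  generalize A14_two G v A x y = aa at *
  generalize A14_two G v B x y = bb at *
  unfold A14_d
  by_cases h1 : ax <;> by_cases h2 : ay <;> by_cases h3 : bx <;> by_cases h4 : by' <;>
    by_cases h5 : aa <;> by_cases h6 : bb <;> simp_all

theorem dS_un (hA : WD G S v u A) (hB : WD G S v u' B)
    (hCD : ∀ h : G, h • v = v → h • u = u → h • u' = u')
    (nf : ∀ h : G, h • v = v → ∀ x ∈ A, h • x ∈ B → h • u' = u') (τ : List (V × V)) :
    dS G v (A ∩ B) τ + dS G v (unA G v u' A B) τ ≤ dS G v A τ + dS G v B τ := by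
  apply A14_sum
  intro x y
  -- an element of `A` with a translate in `B` is in `B`
  have key : ∀ (h : G), h • v = v → ∀ z, h • z ∈ A → A14_one G v B z → h • z ∈ B := by
    rintro h hh z hz ⟨k, hk, hkz⟩
    have h1 : (k * h⁻¹) • u' = u' := by
      apply nf (k * h⁻¹) (A14_mul hk (A14_inv hh)) (h • z) hz
      rwa [smul_smul, mul_assoc, inv_mul_cancel, mul_one]
    apply A14_move hB hk hh hkz
    have h2 := A14_inv (v := u') h1
    rwa [mul_inv_rev, inv_inv] at h2
  have k1 : ∀ z, A14_one G v (A ∩ B) z ↔ (A14_one G v A z ∧ A14_one G v B z) := by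
    intro z
    constructor
    · rintro ⟨h, h1, h2, h3⟩
      exact ⟨⟨h, h1, h2⟩, ⟨h, h1, h3⟩⟩
    · rintro ⟨⟨h, h1, h2⟩, hb⟩
      exact ⟨h, h1, h2, key h h1 z h2 hb⟩
  have k2 : A14_two G v (A ∩ B) x y ↔
      (A14_two G v A x y ∧ A14_one G v B x ∧ A14_one G v B y) := by
    constructor
    · rintro ⟨h, h1, h2, h3⟩
      exact ⟨⟨h, h1, h2.1, h3.1⟩, ⟨h, h1, h2.2⟩, ⟨h, h1, h3.2⟩⟩
    · rintro ⟨⟨h, h1, h2, h3⟩, hx, hy⟩
      exact ⟨h, h1, ⟨h2, key h h1 x h2 hx⟩, ⟨h3, key h h1 y h3 hy⟩⟩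
  have k3 : ∀ z, A14_one G v (unA G v u' A B) z ↔ (A14_one G v A z ∨ A14_one G v B z) := by
    intro z
    constructor
    · rintro ⟨h, h1, h2 | ⟨k, hk, hk', hkz⟩⟩
      · exact Or.inr ⟨h, h1, h2⟩
      · exact Or.inl ⟨k * h, A14_mul hk h1, by rwa [mul_smul]⟩
    · rintro (⟨h, h1, h2⟩ | ⟨h, h1, h2⟩)
      · exact ⟨h, h1, Or.inr ⟨1, one_smul _ _, one_smul _ _, by rwa [one_smul]⟩⟩
      · exact ⟨h, h1, Or.inl h2⟩
  have k4 : A14_two G v A x y → A14_two G v (unA G v u' A B) x y := by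
    rintro ⟨h, h1, h2, h3⟩
    exact ⟨h, h1, Or.inr ⟨1, one_smul _ _, one_smul _ _, by rwa [one_smul]⟩,
      Or.inr ⟨1, one_smul _ _, one_smul _ _, by rwa [one_smul]⟩⟩
  -- an element of the union with a translate in `B` is in `B`
  have key2 : ∀ (h : G), h • v = v → ∀ z, h • z ∈ unA G v u' A B → A14_one G v B z →
      h • z ∈ B := by
    rintro h hh z (hz | ⟨k, hk, hk', hkz⟩) hb
    · exact hz
    · rw [smul_smul] at hkz
      have h1 := key (k * h) (A14_mul hk hh) z hkz hb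
      apply A14_move hB (A14_mul hk hh) hh h1
      rw [mul_inv_rev, ← mul_assoc, mul_inv_cancel, one_mul]
      exact A14_inv hk'
  have k5 : A14_one G v B x → A14_one G v B y →
      (A14_two G v (unA G v u' A B) x y ↔ A14_two G v B x y) := by
    intro hx hy
    constructor
    · rintro ⟨h, h1, h2, h3⟩
      exact ⟨h, h1, key2 h h1 x h2 hx, key2 h h1 y h3 hy⟩
    · rintro ⟨h, h1, h2, h3⟩
      exact ⟨h, h1, Or.inl h2, Or.inl h3⟩
  simp only [A14_dA, k1, k2, k3]
  have e1 : A14_two G v A x y → A14_one G v A x ∧ A14_one G v A y :=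
    fun h => ⟨A14_two_left h, A14_two_right h⟩
  have e2 : A14_two G v B x y → A14_one G v B x ∧ A14_one G v B y :=
    fun h => ⟨A14_two_left h, A14_two_right h⟩
  generalize A14_one G v A x = ax at *
  generalize A14_one G v A y = ay at *
  generalize A14_one G v B x = bx at *
  generalize A14_one G v B y = by' at *
  generalize A14_two G v A x y = aa at *
  generalize A14_two G v B x y = bb at *
  generalize A14_two G v (unA G v u' A B) x y = yy at *
  clear k1 k2 k3 key key2 nf hCD hA hB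
  unfold A14_d
  by_cases h1 : ax <;> by_cases h2 : ay <;> by_cases h3 : bx <;> by_cases h4 : by' <;>
    by_cases h5 : aa <;> by_cases h6 : bb <;> by_cases h7 : yy <;> simp_all

theorem dS_fo (hA : WD G S v u A) (hB : WD G S v u' B)
    (hCD : ∀ h : G, h • v = v → h • u = u → h • u' = u') (τ : List (V × V)) :
    dS G v (foA G v u' A B) τ + dS G v (foB G v u' A B) τ ≤ dS G v A τ + dS G v B τ := by
  apply A14_sum
  intro x y
  -- `P z`: `z` is not foreign
  let P : V → Prop := fun z => ∀ h k : G, h • v = v → k • v = v → h • z ∈ A → k • z ∈ B →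
    (k * h⁻¹) • u' = u'
  have key : ∀ (h k h' k' : G) (z z' : V), h • v = v → k • v = v → h' • v = v → k' • v = v →
      h • z ∈ A → h' • z ∈ A → k • z ∈ B → k' • z ∈ B → (k * h⁻¹) • u' = u' →
      (k' * h'⁻¹) • u' = u' := by
    intro h k h' k' z z' hh hk hh' hk' hhz hhz' hkz hkz' e
    have e1 : (k' * k⁻¹) • u' = u' := A14_same hB hk' hk hkz' hkz
    have e2 : (h * h'⁻¹) • u' = u' :=
      hCD _ (A14_mul hh (A14_inv hh')) (A14_same hA hh hh' hhz hhz')
    have : k' * h'⁻¹ = (k' * k⁻¹) * ((k * h⁻¹) * (h * h'⁻¹)) := by group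
    rw [this]
    exact A14_mul e1 (A14_mul e e2)
  have kA : ∀ (h : G) (z : V), h • v = v → (h • z ∈ foA G v u' A B ↔ h • z ∈ A ∧ P z) := by
    intro h z hh
    constructor
    · rintro ⟨h1, h2⟩
      refine ⟨h1, ?_⟩
      intro h' k' hh' hk' hhz' hkz'
      have e : (k' * h⁻¹) • u' = u' := by
        apply h2 (k' * h⁻¹) (A14_mul hk' (A14_inv hh))
        rwa [smul_smul, mul_assoc, inv_mul_cancel, mul_one]
      exact key h k' h' k' z z hh hk' hh' hk' h1 hhz' hkz' hkz' e
    · rintro ⟨h1, h2⟩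
      refine ⟨h1, ?_⟩
      intro k hk hkz
      rw [smul_smul] at hkz
      have := h2 h (k * h) hh (A14_mul hk hh) h1 hkz
      rwa [mul_assoc, mul_inv_cancel, mul_one] at this
  have kB : ∀ (h : G) (z : V), h • v = v → (h • z ∈ foB G v u' A B ↔ h • z ∈ B ∧ P z) := by
    intro h z hh
    constructor
    · rintro ⟨h1, h2⟩
      refine ⟨h1, ?_⟩
      intro h' k' hh' hk' hhz' hkz'
      have e : (h' * h⁻¹) • u' = u' := by
        apply h2 (h' * h⁻¹) (A14_mul hh' (A14_inv hh))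
        rwa [smul_smul, mul_assoc, inv_mul_cancel, mul_one]
      have e' : (h * h'⁻¹) • u' = u' := by
        have := A14_inv (v := u') e
        rwa [mul_inv_rev, inv_inv] at this
      exact key h' h h' k' z z hh' hh hh' hk' hhz' hhz' h1 hkz' e'
    · rintro ⟨h1, h2⟩
      refine ⟨h1, ?_⟩
      intro k hk hkz
      rw [smul_smul] at hkz
      have := h2 (k * h) h (A14_mul hk hh) hh hkz h1
      have := A14_inv (v := u') this
      rwa [mul_inv_rev, inv_inv, mul_assoc, mul_inv_cancel, mul_one] at this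
  have k1 : ∀ z, A14_one G v (foA G v u' A B) z ↔ (A14_one G v A z ∧ P z) := by
    intro z
    constructor
    · rintro ⟨h, h1, h2⟩
      exact ⟨⟨h, h1, ((kA h z h1).1 h2).1⟩, ((kA h z h1).1 h2).2⟩
    · rintro ⟨⟨h, h1, h2⟩, h3⟩
      exact ⟨h, h1, (kA h z h1).2 ⟨h2, h3⟩⟩
  have k2 : ∀ z, A14_one G v (foB G v u' A B) z ↔ (A14_one G v B z ∧ P z) := by
    intro z
    constructor
    · rintro ⟨h, h1, h2⟩
      exact ⟨⟨h, h1, ((kB h z h1).1 h2).1⟩, ((kB h z h1).1 h2).2⟩
    · rintro ⟨⟨h, h1, h2⟩, h3⟩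
      exact ⟨h, h1, (kB h z h1).2 ⟨h2, h3⟩⟩
  have k3 : A14_two G v (foA G v u' A B) x y ↔ (A14_two G v A x y ∧ P x ∧ P y) := by
    constructor
    · rintro ⟨h, h1, h2, h3⟩
      exact ⟨⟨h, h1, ((kA h x h1).1 h2).1, ((kA h y h1).1 h3).1⟩, ((kA h x h1).1 h2).2,
        ((kA h y h1).1 h3).2⟩
    · rintro ⟨⟨h, h1, h2, h3⟩, hx, hy⟩
      exact ⟨h, h1, (kA h x h1).2 ⟨h2, hx⟩, (kA h y h1).2 ⟨h3, hy⟩⟩
  have k4 : A14_two G v (foB G v u' A B) x y ↔ (A14_two G v B x y ∧ P x ∧ P y) := by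
    constructor
    · rintro ⟨h, h1, h2, h3⟩
      exact ⟨⟨h, h1, ((kB h x h1).1 h2).1, ((kB h y h1).1 h3).1⟩, ((kB h x h1).1 h2).2,
        ((kB h y h1).1 h3).2⟩
    · rintro ⟨⟨h, h1, h2, h3⟩, hx, hy⟩
      exact ⟨h, h1, (kB h x h1).2 ⟨h2, hx⟩, (kB h y h1).2 ⟨h3, hy⟩⟩
  have k5 : ∀ z, ¬ P z → A14_one G v A z ∧ A14_one G v B z := by
    intro z hz
    simp only [P] at hz
    push Not at hz
    obtain ⟨h, k, hh, hk, h1, h2, _⟩ := hz
    exact ⟨⟨h, hh, h1⟩, ⟨k, hk, h2⟩⟩
  have k6 : A14_two G v A x y → A14_two G v B x y → (P x ↔ P y) := by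
    intro ha hb
    constructor
    · intro hP h k hh hk h1 h2
      have ha' : A14_two G v A y x := let ⟨g, a, b, c⟩ := ha; ⟨g, a, c, b⟩
      have hb' : A14_two G v B y x := let ⟨g, a, b, c⟩ := hb; ⟨g, a, c, b⟩
      exact hP h k hh hk (A14_trans hA hh h1 ha') (A14_trans hB hk h2 hb')
    · intro hP h k hh hk h1 h2
      exact hP h k hh hk (A14_trans hA hh h1 ha) (A14_trans hB hk h2 hb)
  have k7x := k5 x
  have k7y := k5 y
  simp only [A14_dA, k1, k2, k3, k4]
  have e1 : A14_two G v A x y → A14_one G v A x ∧ A14_one G v A y :=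
    fun h => ⟨A14_two_left h, A14_two_right h⟩
  have e2 : A14_two G v B x y → A14_one G v B x ∧ A14_one G v B y :=
    fun h => ⟨A14_two_left h, A14_two_right h⟩
  clear k1 k2 k3 k4 k5 kA kB key
  generalize P x = px at *
  generalize P y = py at *
  clear P
  generalize A14_one G v A x = ax at *
  generalize A14_one G v A y = ay at *
  generalize A14_one G v B x = bx at *
  generalize A14_one G v B y = by' at *
  generalize A14_two G v A x y = aa at *
  generalize A14_two G v B x y = bb at *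
  clear hCD hA hB
  unfold A14_d
  by_cases h1 : ax <;> by_cases h2 : ay <;> by_cases h3 : bx <;> by_cases h4 : by' <;>
    by_cases h5 : aa <;> by_cases h6 : bb <;> by_cases h7 : px <;> by_cases h8 : py <;> simp_all

theorem dS_in (hA : WD G S v u A) (hB : WD G S v u' B)
    (hCD : ∀ h : G, h • v = v → h • u = u → h • u' = u') (k : G) (hk : k • v = v) (hk' : k • u' ≠ u')
    (hDC : ∀ d : G, d • v = v → d • u' = u' → (k * d * k⁻¹) • u = u) (τ : List (V × V)) :
    dS G v (A ∩ B) τ + dS G v {x | x ∈ B ∧ k • x ∈ A} τ ≤ dS G v A τ + dS G v B τ := by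
  apply A14_sum
  intro x y
  have k1 : A14_two G v (A ∩ B) x y ↔
      (A14_two G v A x y ∧ A14_one G v (A ∩ B) x ∧ A14_one G v (A ∩ B) y) := by
    constructor
    · intro h
      refine ⟨?_, A14_two_left h, A14_two_right h⟩
      obtain ⟨h, h1, h2, h3⟩ := h
      exact ⟨h, h1, h2.1, h3.1⟩
    · rintro ⟨⟨h, h1, h2, h3⟩, ⟨g, g1, g2⟩, ⟨l, l1, l2⟩⟩
      refine ⟨h, h1, ⟨h2, ?_⟩, ⟨h3, ?_⟩⟩
      · exact A14_move hB g1 h1 g2.2
          (hCD _ (A14_mul h1 (A14_inv g1)) (A14_same hA h1 g1 h2 g2.1))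
      · exact A14_move hB l1 h1 l2.2
          (hCD _ (A14_mul h1 (A14_inv l1)) (A14_same hA h1 l1 h3 l2.1))
  set Y : Set V := {x | x ∈ B ∧ k • x ∈ A} with hY
  have kmv : ∀ (g h : G) (z : V), g • v = v → h • v = v → g • z ∈ Y → h • z ∈ B → h • z ∈ Y := by
    intro g h z hg hh hz hb
    refine ⟨hb, ?_⟩
    have e : (h * g⁻¹) • u' = u' := A14_same hB hh hg hb hz.1
    have e1 := hDC _ (A14_mul hh (A14_inv hg)) e
    have h2 : k • g • z ∈ A := hz.2
    have h3 := hA.stab _ (A14_mul (A14_mul hk (A14_mul hh (A14_inv hg))) (A14_inv hk)) e1 _ h2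
    have h4 : (k * (h * g⁻¹) * k⁻¹) • k • g • z = k • h • z := by
      rw [smul_smul, smul_smul, smul_smul]
      congr 1
      group
    rwa [h4] at h3
  have k2 : A14_two G v Y x y ↔ (A14_two G v B x y ∧ A14_one G v Y x ∧ A14_one G v Y y) := by
    constructor
    · intro h
      refine ⟨?_, A14_two_left h, A14_two_right h⟩
      obtain ⟨h, h1, h2, h3⟩ := h
      exact ⟨h, h1, h2.1, h3.1⟩
    · rintro ⟨⟨h, h1, h2, h3⟩, ⟨g, g1, g2⟩, ⟨l, l1, l2⟩⟩
      exact ⟨h, h1, kmv g h x g1 h1 g2 h2, kmv l h y l1 h1 l2 h3⟩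
  have k3 : ∀ z, A14_one G v (A ∩ B) z → A14_one G v Y z → False := by
    rintro z ⟨h, h1, h2, h3⟩ ⟨g, g1, g2, g3⟩
    have e1 : (g * h⁻¹) • u' = u' := A14_same hB g1 h1 g2 h3
    have g3' : (k * g) • z ∈ A := by
      rw [mul_smul]
      exact g3
    have e2 : (k * g * h⁻¹) • u' = u' :=
      hCD _ (A14_mul (A14_mul hk g1) (A14_inv h1)) (A14_same hA (A14_mul hk g1) h1 g3' h2)
    apply hk'
    have : k = (k * g * h⁻¹) * (g * h⁻¹)⁻¹ := by group
    rw [this]
    exact A14_mul e2 (A14_inv e1)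
  have k4 : ∀ z z', A14_two G v A z z' → A14_two G v B z z' → A14_one G v (A ∩ B) z →
      A14_one G v (A ∩ B) z' := by
    rintro z z' ha hb ⟨h, h1, h2, h3⟩
    exact ⟨h, h1, A14_trans hA h1 h2 ha, A14_trans hB h1 h3 hb⟩
  have k5 : ∀ z z', A14_two G v A z z' → A14_two G v B z z' → A14_one G v Y z →
      A14_one G v Y z' := by
    rintro z z' ha hb ⟨h, h1, h2, h3⟩
    refine ⟨h, h1, A14_trans hB h1 h2 hb, ?_⟩
    have h3' : (k * h) • z ∈ A := by
      rw [mul_smul]
      exact h3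
    have := A14_trans hA (A14_mul hk h1) h3' ha
    rwa [mul_smul] at this
  have sy : ∀ (A : Set V) (z z' : V), A14_two G v A z z' → A14_two G v A z' z :=
    fun A z z' h => let ⟨g, a, b, c⟩ := h; ⟨g, a, c, b⟩
  have q1 : ∀ z, A14_one G v (A ∩ B) z → A14_one G v A z ∧ A14_one G v B z := by
    rintro z ⟨h, h1, h2, h3⟩
    exact ⟨⟨h, h1, h2⟩, ⟨h, h1, h3⟩⟩
  have q2 : ∀ z, A14_one G v Y z → A14_one G v A z ∧ A14_one G v B z := by
    rintro z ⟨h, h1, h2, h3⟩
    exact ⟨⟨k * h, A14_mul hk h1, by rw [mul_smul]; exact h3⟩, ⟨h, h1, h2⟩⟩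
  have q1x := q1 x
  have q1y := q1 y
  have q2x := q2 x
  have q2y := q2 y
  have k3x := k3 x
  have k3y := k3 y
  have k4x := k4 x y
  have k4y := fun ha hb => k4 y x (sy A x y ha) (sy B x y hb)
  have k5x := k5 x y
  have k5y := fun ha hb => k5 y x (sy A x y ha) (sy B x y hb)
  simp only [A14_dA, k1, k2]
  have e1 : A14_two G v A x y → A14_one G v A x ∧ A14_one G v A y :=
    fun h => ⟨A14_two_left h, A14_two_right h⟩
  have e2 : A14_two G v B x y → A14_one G v B x ∧ A14_one G v B y :=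
    fun h => ⟨A14_two_left h, A14_two_right h⟩
  clear k1 k2 k3 k4 k5 kmv sy q1 q2 hDC hCD hA hB
  generalize A14_one G v (A ∩ B) x = nx at *
  generalize A14_one G v (A ∩ B) y = ny at *
  generalize A14_one G v Y x = kx at *
  generalize A14_one G v Y y = ky at *
  generalize A14_one G v A x = ax at *
  generalize A14_one G v A y = ay at *
  generalize A14_one G v B x = bx at *
  generalize A14_one G v B y = by' at *
  generalize A14_two G v A x y = aa at *
  generalize A14_two G v B x y = bb at *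
  unfold A14_d
  by_cases h1 : nx <;> by_cases h2 : ny <;> by_cases h3 : kx <;> by_cases h4 : ky <;>
    by_cases h5 : aa <;> by_cases h6 : bb <;> by_cases h7 : ax <;> by_cases h8 : ay <;>
    by_cases h9 : bx <;> by_cases h10 : by' <;> simp_all

end

end VF
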