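import Pool.Agent.Lib.MP_32d917_al_vf.ADefs

/-!
# A15: Whitehead data for the sets of the uncrossing

`wd_sub` is clear. The others follow from it: let `H` be the stabiliser of `v`; `C`, `D` the stabilisers of `u`, `u'` in
`H`; `h ∈ H` preserves `A` iff `h ∈ C` iff `h A` meets `A`.
* `wd_diff`: `u` has no translate in `B`; the set is `C`-invariant (`x ↦ g x`: `h g x ∈ B` would give a translate of `x`).
* `wd_int`: `u ∈ A ∩ B`, `C ≤ D` (`h u = u ∈ B` and `u ∈ B`, so `h` preserves `B`).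
* `wd_foA`: for `g ∈ C`, `x` in the set, `h g x ∈ B` implies `h g ∈ D`, and `g ∈ C ≤ D`, so `h ∈ D`. `u` is in the set: if
  `h u ∈ B` then `h ∈ D`, as `u ∈ B`.
* `wd_foB`: for `g ∈ D`: `h g x ∈ A` implies `h g ∈ D`, so `h ∈ D`.
* `wd_un`: `u' ∈ B`. adjacency: `h x ∈ A`, `h v = v`, so `v x` is an edge. `stab`: clear (`g ∈ D`: if `h x ∈ A`, `h ∈ D` then
  `(h g⁻¹) (g x) ∈ A`). `disj`: `g ∈ H`, `x, g x` in the union: if `x, g x ∈ B` then `g ∈ D`; if `h x ∈ A`, `h' g x ∈ A`,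
  `h, h' ∈ D`, then `h' g h⁻¹ ∈ C ≤ D`; if `h x ∈ A`, `g x ∈ B`: `g h⁻¹` maps `h x ∈ A` to `B`, so it is in `D` by `nf`;
  if `x ∈ B`, `h g x ∈ A`: `(h g)⁻¹` maps an element of `A` to `B`, so it is in `D`. `inv`: `g v = u'`: `g⁻¹ v ∉ B`, and
  if `h g⁻¹ v ∈ A`, `h ∈ D`, then `(g h⁻¹) v = u'` and `(g h⁻¹)⁻¹ v ∈ A`, against `hinv`.
* `wd_in`: the set is contained in `B` and contains `u'`; `g ∈ D`: `k g x = (k g k⁻¹) k x ∈ A` by `hDC`.
* `wd_rev`: `x = g⁻¹ v ∈ A`, `g v = u'`, `C ≤ D`. The stabiliser `E` of `(v, x)` is `≤ C` (`x ∈ A`, `disj`), so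
  `E ≤ C ≤ D`, and `D = g E g⁻¹` since `g (v, x) = (u', v)`. `cinv` for the pair `(v, x)` and `g`: `D ≤ E`. So `E = C = D`.
-/

set_option autoImplicit false

namespace VF

open LatIso LatN

section

variable {G : Type} [Group G] {V : Type} [MulAction G V] {S : SimpleGraph V} {v u u' : V}
  {A B : Set V}

theorem a15_inv {g : G} {x : V} (h : g • x = x) : g⁻¹ • x = x := by
  rw [inv_smul_eq_iff]
  exact h.symm

theorem wd_sub (hA : WD G S v u A) {X : Set V} (h1 : X ⊆ A) (h2 : u ∈ X)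
    (h3 : ∀ g : G, g • v = v → g • u = u → ∀ x ∈ X, g • x ∈ X) : WD G S v u X :=
  ⟨fun x hx => hA.adj x (h1 hx), h2, h3, fun g hg x hx hgx => hA.disj g hg x (h1 hx) (h1 hgx),
    fun g hg hx => hA.inv g hg (h1 hx)⟩

theorem wd_diff (hA : WD G S v u A) (hB : WD G S v u' B) (h : ∀ h : G, h • v = v → h • u ∉ B) :
    WD G S v u (dfA G v A B) := by
  have _ := hB
  refine wd_sub hA (fun x hx => hx.1) ⟨hA.mem, h⟩ ?_
  intro g hg hu x hx
  refine ⟨hA.stab g hg hu x hx.1, ?_⟩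
  intro k hk
  rw [← mul_smul]
  exact hx.2 (k * g) (by rw [mul_smul, hg, hk])

theorem wd_int (hA : WD G S v u A) (hB : WD G S v u' B) (h : u ∈ B) : WD G S v u (A ∩ B) := by
  refine wd_sub hA Set.inter_subset_left ⟨hA.mem, h⟩ ?_
  intro g hg hu x hx
  have h1 : g • u' = u' := hB.disj g hg u h (by rw [hu]; exact h)
  exact ⟨hA.stab g hg hu x hx.1, hB.stab g hg h1 x hx.2⟩

theorem wd_foA (hA : WD G S v u A) (hB : WD G S v u' B) (h : u ∈ B) :
    WD G S v u (foA G v u' A B) := by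
  refine wd_sub hA (fun x hx => hx.1) ⟨hA.mem, fun k hk hku => hB.disj k hk u h hku⟩ ?_
  intro g hg hu x hx
  refine ⟨hA.stab g hg hu x hx.1, ?_⟩
  intro k hk hkx
  have h1 : g • u' = u' := hB.disj g hg u h (by rw [hu]; exact h)
  have h2 := hx.2 (k * g) (by rw [mul_smul, hg, hk]) (by rw [mul_smul]; exact hkx)
  rw [mul_smul, h1] at h2
  exact h2

theorem wd_foB (hB : WD G S v u' B) (h : ∀ h : G, h • v = v → h • u' ∈ A → h • u' = u') :
    WD G S v u' (foB G v u' A B) := by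
  refine wd_sub hB (fun x hx => hx.1) ⟨hB.mem, h⟩ ?_
  intro g hg hu x hx
  refine ⟨hB.stab g hg hu x hx.1, ?_⟩
  intro k hk hkx
  have h2 := hx.2 (k * g) (by rw [mul_smul, hg, hk]) (by rw [mul_smul]; exact hkx)
  rw [mul_smul, hu] at h2
  exact h2

theorem wd_un (hS : TLat G S) (hA : WD G S v u A) (hB : WD G S v u' B)
    (hCD : ∀ h : G, h • v = v → h • u = u → h • u' = u')
    (nf : ∀ h : G, h • v = v → ∀ x ∈ A, h • x ∈ B → h • u' = u')
    (hinv : ∀ g : G, g • v = u' → g⁻¹ • v ∉ A) : WD G S v u' (unA G v u' A B) := by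
  refine ⟨?_, Or.inl hB.mem, ?_, ?_, ?_⟩
  · rintro x (hx | ⟨h, hv, _, hx⟩)
    · exact hB.adj x hx
    · have h1 := hS.ta.adj h⁻¹ _ _ (hA.adj _ hx)
      rwa [a15_inv hv, inv_smul_smul] at h1
  · rintro g hg hu x (hx | ⟨h, hv, hu', hx⟩)
    · exact Or.inl (hB.stab g hg hu x hx)
    · refine Or.inr ⟨h * g⁻¹, ?_, ?_, ?_⟩
      · rw [mul_smul, a15_inv hg, hv]
      · rw [mul_smul, a15_inv hu, hu']
      · rw [mul_smul, inv_smul_smul]
        exact hx
  · rintro g hg x hx hgx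
    rcases hx with hx | ⟨h, hv, hu', hx⟩
    · rcases hgx with hgx | ⟨k, kv, ku', hgx⟩
      · exact hB.disj g hg x hx hgx
      · have h1 := nf (k * g)⁻¹ (a15_inv (by rw [mul_smul, hg, kv])) (k • g • x) hgx (by
          rw [← mul_smul k g, inv_smul_smul]
          exact hx)
        rw [mul_inv_rev, mul_smul, a15_inv ku'] at h1
        rw [inv_smul_eq_iff] at h1
        exact h1.symm
    · rcases hgx with hgx | ⟨k, kv, ku', hgx⟩
      · have h1 := nf (g * h⁻¹) (by rw [mul_smul, a15_inv hv, hg]) (h • x) hx (by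
          rw [mul_smul, inv_smul_smul]
          exact hgx)
        rw [mul_smul, a15_inv hu'] at h1
        exact h1
      · have hv1 : (k * g * h⁻¹) • v = v := by
          rw [mul_smul, mul_smul, a15_inv hv, hg, kv]
        have h1 := hA.disj (k * g * h⁻¹) hv1 (h • x) hx (by
          rw [mul_smul, mul_smul, inv_smul_smul]
          exact hgx)
        have h2 := hCD _ hv1 h1
        rw [mul_smul, mul_smul, a15_inv hu'] at h2
        have h3 : k⁻¹ • u' = g • u' := by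
          rw [inv_smul_eq_iff]
          exact h2.symm
        rw [← h3]
        exact a15_inv ku'
  · rintro g hg (hx | ⟨h, hv, hu', hx⟩)
    · exact hB.inv g hg hx
    · apply hinv (g * h⁻¹)
      · rw [mul_smul, a15_inv hv, hg]
      · rw [mul_inv_rev, inv_inv, mul_smul]
        exact hx

theorem wd_in (hA : WD G S v u A) (hB : WD G S v u' B) (k : G) (hk : k • v = v) (hk' : k • u' ∈ A)
    (hDC : ∀ d : G, d • v = v → d • u' = u' → (k * d * k⁻¹) • u = u) :
    WD G S v u' {x | x ∈ B ∧ k • x ∈ A} := by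
  refine wd_sub hB (fun x hx => hx.1) ⟨hB.mem, hk'⟩ ?_
  intro g hg hu x hx
  refine ⟨hB.stab g hg hu x hx.1, ?_⟩
  have h1 := hA.stab (k * g * k⁻¹) (by rw [mul_smul, mul_smul, a15_inv hk, hg, hk])
    (hDC g hg hu) (k • x) hx.2
  rw [mul_smul, mul_smul, inv_smul_smul] at h1
  exact h1

theorem wd_rev (hS : TLat G S) (hA : WD G S v u A)
    (hCD : ∀ h : G, h • v = v → h • u = u → h • u' = u') {g : G} (hg : g • v = u')
    (hx : g⁻¹ • v ∈ A) :
    (∀ h : G, h • v = v → h • u' = u' → h • u = u) ∧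
      ∀ h : G, h • v = v → (h • (g⁻¹ • v) = g⁻¹ • v ↔ h • u = u) := by
  have hEC : ∀ k : G, k • v = v → k • (g⁻¹ • v) = g⁻¹ • v → k • u = u := by
    intro k hk hkx
    exact hA.disj k hk _ hx (by rw [hkx]; exact hx)
  have hDE : ∀ k : G, k • v = v → k • u' = u' → k • (g⁻¹ • v) = g⁻¹ • v := by
    intro k hk hku
    have h1 := hS.cinv v (g⁻¹ • v) g (by
      intro j hj hjx
      rw [hg, smul_inv_smul]
      exact ⟨hCD j hj (hEC j hj hjx), hj⟩) k (by rw [hg]; exact hku)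
      (by rw [smul_inv_smul]; exact hk)
    exact h1.2
  refine ⟨fun h hv hu => hEC h hv (hDE h hv hu), fun h hv => ⟨hEC h hv, fun hu => ?_⟩⟩
  exact hDE h hv (hCD h hv hu)

/-- `E` = stabiliser of `(v, x)`, `x = g⁻¹ v`; `E = C = D` by `wd_rev`. `x` has no translate in `B` by `inv` for `B`
(`(g h⁻¹) v = u'`). `inv`: if `g' v = x` then `h = g g'` fixes `v` and `g'⁻¹ v = h⁻¹ g v = h⁻¹ u'`. -/
theorem wd_corner (hS : TLat G S) (hA : WD G S v u A) (hB : WD G S v u' B)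
    (hCD : ∀ h : G, h • v = v → h • u = u → h • u' = u') {g : G} (hg : g • v = u')
    (hx : g⁻¹ • v ∈ A) (hq : ∀ h : G, h • v = v → h • u' ∉ dfA G v A B) :
    WD G S v (g⁻¹ • v) (dfA G v A B) := by
  obtain ⟨_, h2⟩ := wd_rev hS hA hCD hg hx
  refine ⟨fun y hy => hA.adj y hy.1, ⟨hx, ?_⟩, ?_, ?_, ?_⟩
  · intro h hv hb
    apply hB.inv (g * h⁻¹)
    · rw [mul_smul, a15_inv hv, hg]
    · rw [mul_inv_rev, inv_inv, mul_smul]
      exact hb
  · intro k hk hkx y hy
    refine ⟨hA.stab k hk ((h2 k hk).1 hkx) y hy.1, ?_⟩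
    intro h hv
    rw [← mul_smul]
    exact hy.2 (h * k) (by rw [mul_smul, hk, hv])
  · intro k hk y hy hky
    exact (h2 k hk).2 (hA.disj k hk y hy.1 hky.1)
  · intro k hk hmem
    apply hq (g * k)⁻¹
    · apply a15_inv
      rw [mul_smul, hk, smul_inv_smul]
    · rw [mul_inv_rev, mul_smul, ← hg, inv_smul_smul]
      exact hmem

end

end VF
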