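import Pool.Agent.Lib.MP_32d917_al_vf.A12
import Pool.Agent.Lib.MP_32d917_al_vf.A13
import Pool.Agent.Lib.MP_32d917_al_vf.A14
import Pool.Agent.Lib.MP_32d917_al_vf.A15

/-!
# A16: peak reduction at one vertex

Let `τ` be the turns at `v` (`turns`), `m = len S`, `n1 = dS {u}`, `n2 = dS {u'}`, `d X = dS X`. By `len_wh` the move with
data `(z, Z)` has length `m + d Z - d {z}`. The hypotheses: `d A ≤ n1`, `d B ≤ n2`, `d A + d B < n1 + n2`. Let `H` be the
stabiliser of `v` and `C`, `D` the stabilisers of `u`, `u'` in `H`; `h ∈ H` preserves `A` iff `h ∈ C` iff `h A` meets `A`.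

Method: find data `(z, Z)` at `v` with `d Z < d {z}` for which the statement is known for the pairs `(A, Z)` and `(Z, B)`
(`pl_disj`, `pl_nest`, or induction); conclude by `low_trans`, `low_symm`. Write `Z ≺ A` if `pl_nest` applies:
`Z ⊆ A` and `h z ∈ A`, `z ∈ Z`, `h ∈ H` implies `h u = u`; it does if `Z ⊆ A` (by `WD.disj` for `A`).

Induction on `n`. (We may exchange `A` and `B` by `low_symm`, and replace `(A, u)` by `(h A, h u)`, `h ∈ H`: `wd_tr`,
`wh_tr`; the numbers `d` do not change: this follows from `wh_tr` and `len_wh`, it is simplest to formulate everything with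
lengths; the number of elements does not change.)

Case 1: no translate (under `H`) of `u` is in `B` and no translate of `u'` is in `A`. `X = dfA A B` with `u`,
`Y = dfA B A` with `u'` (`wd_diff`), `d X + d Y ≤ d A + d B < n1 + n2` (`dS_diff`), so `d X < n1` or `d Y < n2`. `X ≺ A`, and
`(X, B)` by `pl_disj`; `Y ≺ B` and `(A, Y)` by `pl_disj`.

Case 2: otherwise; we may assume `u ∈ B`. Then `C ≤ D` (`WD.disj` for `B`, `x = u`).

Case 2b: there is `k ∈ H` with `k u' ∈ A`, `k u' ≠ u'`. For `d ∈ D`: `k d k⁻¹` fixes `k u' ∈ A`, so it is in `C`. `X = A ∩ B` with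
`u` (`wd_int`), `Y = {x ∈ B | k x ∈ A}` with `u'` (`wd_in`), `dS_in`: `d X < n1` or `d Y < n2`. `X ≺ A`, `X ≺ B`, `Y ≺ B`,
`k Y ≺ A` (with letter `k u'`).

Case 2F: `k u' ∈ A`, `k ∈ H` implies `k u' = u'`, and there are `h ∈ H`, `x ∈ A` with `h x ∈ B`, `h u' ≠ u'`.
`X = foA u' A B` with `u` (`wd_foA`), `Y = foB u' A B` with `u'` (`wd_foB`), `dS_fo`: `d X < n1` or `d Y < n2`. `X ≺ A`,
`(X, B)` by induction, as `x ∈ A \ X`. `Y ≺ B`, `(A, Y)` by induction, as `h x ∈ B \ Y`.

Case 2N: `k u' ∈ A`, `k ∈ H` implies `k u' = u'`, and (`nf`) `h ∈ H`, `x ∈ A`, `h x ∈ B` implies `h ∈ D`.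

Case 2N-1: `u' ∉ A` (so no translate of `u'` is in `A`).
 (a) `g v = u'` implies `g⁻¹ v ∉ A`. `X = A ∩ B` with `u`, `Y = unA u' A B` with `u'` (`wd_un`), `dS_un`: `d X < n1` or `d Y < n2`.
 `X ≺ A`, `X ≺ B`, `A ≺ Y`, `B ≺ Y`.
 (b) `g v = u'`, `x0 = g⁻¹ v ∈ A`. By `wd_rev`: `C = D` = stabiliser of `x0` in `H`. `d {x0} = n2` by `dS_rev`. `wd_corner`:
 `Z2 = dfA A B` with `x0` (`hq`: no translate of `u'` is in `A`). `Z2 ≺ A`, `(Z2, B)` by `pl_disj`.
   (b1) `g v = u` implies `g⁻¹ v ∉ B`. `Z1 = A ∩ B` with `u`, `Z3 = dfA B A` with `u'` (`wd_diff`), `Z4 = unA u B A` with `u`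
   (`wd_un` with the roles exchanged; `C = D`). `dS_un` (exchanged): `d Z1 + d Z4 ≤ d A + d B`, `dS_diff`: `d Z2 + d Z3 ≤ d A + d B`. So
   `(d Z1 - n1) + (d Z4 - n1) + (d Z2 - n2) + (d Z3 - n2) < 0` and one of the terms is negative. `Z1 ≺ A, B`;
   `A, B ≺ Z4`; `Z2`: above; `Z3 ≺ B`, `(A, Z3)` by `pl_disj`.
   (b2) `g1 v = u`, `y0 = g1⁻¹ v ∈ B`: `Z3 = dfA B A` with `y0` (`wd_corner` exchanged, `hq`: if `h u ∈ dfA B A`, `h ∈ H`, then
   `h u ∈ B`, `u ∈ B`, so `h ∈ D = C`, `h u = u ∈ A`, contradiction), `d {y0} = n1`. `d Z2 + d Z3 ≤ d A + d B < n2 + n1`.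

Case 2N-2: `u' ∈ A`. Then `D ≤ C`, so `C = D`; `u, u' ∈ A ∩ B`.
 (i) `g v = u` implies `g⁻¹ v ∉ B`: `X = A ∩ B` with `u'`, `Y = unA u B A` with `u`.
 (ii) `g v = u'` implies `g⁻¹ v ∉ A`: `X = A ∩ B` with `u`, `Y = unA u' A B` with `u'`.
 (iii) otherwise `x0 = g⁻¹ v ∈ A`, `g v = u'`, `y0 = g1⁻¹ v ∈ B`, `g1 v = u`: `Z2 = dfA A B` with `x0`, `Z3 = dfA B A` with `y0`
 (`wd_corner`; `hq`: if `h u' ∈ dfA A B` then `h u' ∈ A`, `u' ∈ A`, `h ∈ C = D`, `h u' = u' ∈ B`), `d {x0} = n2`, `d {y0} = n1`.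
-/

set_option autoImplicit false

namespace VF

open LatIso LatN

section

variable {G : Type} [Group G] {V : Type} [MulAction G V] {S : SimpleGraph V} {v : V}

theorem a16_sym {ι : Type} [Fintype ι] {W : ι → G} (hS : TLat G S) {m : ℕ} {u u' : V} {A B : Set V}
    (hA : WD G S v u A) (h : Low G W m (whG G S v u A) (whG G S v u' B)) :
    Low G W m (whG G S v u' B) (whG G S v u A) :=
  low_symm (wh_ta hS.ta hA) h

theorem a16_nest {ι : Type} [Fintype ι] (W : ι → G) (hS : TLat G S) {u u' : V} {A B : Set V}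
    (hA : WD G S v u A) (hB : WD G S v u' B) (hAB : A ⊆ B)
    (h1 : len G (whG G S v u A) W ≤ len G S W) (h2 : len G (whG G S v u' B) W ≤ len G S W)
    (h3 : len G (whG G S v u A) W + len G (whG G S v u' B) W < 2 * len G S W) :
    Low G W (len G S W) (whG G S v u A) (whG G S v u' B) :=
  pl_nest W hS hA hB hAB (fun h hv x hx hhx => hB.disj h hv x (hAB hx) hhx) h1 h2 h3

/-- `Z` is contained in `A`, `Z` reducing: from `A` to `Z` -/
theorem a16_down {ι : Type} [Fintype ι] (W : ι → G) (hS : TLat G S) {u z : V} {A Z : Set V}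
    (hA : WD G S v u A) (hZ : WD G S v z Z) (hZA : Z ⊆ A)
    (h1 : len G (whG G S v u A) W ≤ len G S W) (h2 : len G (whG G S v z Z) W < len G S W) :
    Low G W (len G S W) (whG G S v u A) (whG G S v z Z) :=
  a16_sym hS hZ (a16_nest W hS hZ hA hZA h2.le h1 (by omega))

theorem a16_up {ι : Type} [Fintype ι] (W : ι → G) (hS : TLat G S) {u z : V} {A Z : Set V}
    (hA : WD G S v u A) (hZ : WD G S v z Z) (hAZ : A ⊆ Z)
    (h1 : len G (whG G S v u A) W ≤ len G S W) (h2 : len G (whG G S v z Z) W < len G S W) :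
    Low G W (len G S W) (whG G S v u A) (whG G S v z Z) :=
  a16_nest W hS hA hZ hAZ h1 h2.le (by omega)

theorem a16_disj {ι : Type} [Fintype ι] (W : ι → G) (hS : TLat G S) {u z : V} {A Z : Set V}
    (hA : WD G S v u A) (hZ : WD G S v z Z)
    (hd : ∀ g : G, g • v = v → ∀ x ∈ A, g • x ∉ Z)
    (h1 : len G (whG G S v u A) W ≤ len G S W) (h2 : len G (whG G S v z Z) W < len G S W) :
    Low G W (len G S W) (whG G S v u A) (whG G S v z Z) :=
  pl_disj W hS hA hZ hd h1 h2.le (by omega)

theorem a16_inv_fix {g : G} {x : V} (h : g • x = x) : g⁻¹ • x = x := by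
  rw [inv_smul_eq_iff]
  exact h.symm

/-- closing a pair through a reducing third set -/
theorem a16_via {ι : Type} [Fintype ι] (W : ι → G) (hS : TLat G S) {u u' z : V} {A B Z : Set V}
    (hB : WD G S v u' B) (hZ : len G (whG G S v z Z) W < len G S W)
    (h1 : Low G W (len G S W) (whG G S v u A) (whG G S v z Z))
    (h2 : Low G W (len G S W) (whG G S v u' B) (whG G S v z Z)) :
    Low G W (len G S W) (whG G S v u A) (whG G S v u' B) :=
  low_trans h1 hZ (a16_sym hS hB h2)

theorem a16_diff_sub {v : V} {A B : Set V} : dfA G v A B ⊆ A := fun _ hx => hx.1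

theorem a16_diff_l {v : V} {A B : Set V} : ∀ g : G, g • v = v → ∀ x ∈ dfA G v A B, g • x ∉ B :=
  fun g hg _ hx => hx.2 g hg

theorem a16_diff_r {v : V} {A B : Set V} : ∀ g : G, g • v = v → ∀ x ∈ B, g • x ∉ dfA G v A B := by
  intro g hg x hx h
  apply h.2 g⁻¹ (a16_inv_fix hg)
  rw [inv_smul_smul]
  exact hx

theorem a16_main {ι : Type} [Fintype ι] (W : ι → G) (hS : TLat G S) (n : ℕ)
    (IH : ∀ (u u' : V) (A B : Set V), A.ncard + B.ncard ≤ n → WD G S v u A → WD G S v u' B →
      len G (whG G S v u A) W ≤ len G S W → len G (whG G S v u' B) W ≤ len G S W →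
      len G (whG G S v u A) W + len G (whG G S v u' B) W < 2 * len G S W →
      Low G W (len G S W) (whG G S v u A) (whG G S v u' B))
    (u u' : V) (A B : Set V) (hn : A.ncard + B.ncard ≤ n + 1) (hA : WD G S v u A)
    (hB : WD G S v u' B)
    (h1 : len G (whG G S v u A) W ≤ len G S W) (h2 : len G (whG G S v u' B) W ≤ len G S W)
    (h3 : len G (whG G S v u A) W + len G (whG G S v u' B) W < 2 * len G S W)
    (huB : u ∈ B) :
    Low G W (len G S W) (whG G S v u A) (whG G S v u' B) := by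
  obtain ⟨τ, hτ⟩ := turns hS.ta W v
  have hlA := len_wh hS.ta hA hτ
  have hlB := len_wh hS.ta hB hτ
  have finA : A.Finite := (hS.loc v).subset (fun x hx => hA.adj x hx)
  have finB : B.Finite := (hS.loc v).subset (fun x hx => hB.adj x hx)
  have hCD : ∀ h : G, h • v = v → h • u = u → h • u' = u' := by
    intro h hv hu
    exact hB.disj h hv u huB (by rw [hu]; exact huB)
  -- Case 2b
  by_cases c2b : ∃ k : G, k • v = v ∧ k • u' ∈ A ∧ k • u' ≠ u'
  · obtain ⟨k, hk, hkA, hkne⟩ := c2b
    have hDC : ∀ d : G, d • v = v → d • u' = u' → (k * d * k⁻¹) • u = u := by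
      intro d hd hd'
      have hkv : k⁻¹ • v = v := a16_inv_fix hk
      apply hA.disj (k * d * k⁻¹) (by rw [mul_smul, mul_smul, hkv, hd, hk]) (k • u') hkA
      rw [mul_smul, mul_smul, inv_smul_smul, hd']
      exact hkA
    have hX := wd_int hA hB huB
    have hY := wd_in hA hB k hk hkA hDC
    have hd := dS_in hA hB hCD k hk hkne hDC τ
    have hlX := len_wh hS.ta hX hτ
    have hlY := len_wh hS.ta hY hτ
    rcases Nat.lt_or_ge (len G (whG G S v u (A ∩ B)) W) (len G S W) with hc | hc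
    · exact a16_via W hS hB hc (a16_down W hS hA hX Set.inter_subset_left h1 hc)
        (a16_down W hS hB hX Set.inter_subset_right h2 hc)
    · have hc' : len G (whG G S v u' {x | x ∈ B ∧ k • x ∈ A}) W < len G S W := by omega
      have hY2 := wd_tr hS.ta hY k
      have hgr := wh_tr S v u' {x | x ∈ B ∧ k • x ∈ A} k
      rw [hk] at hY2 hgr
      rw [← hgr] at hc'
      have hsub : {x | k⁻¹ • x ∈ {x | x ∈ B ∧ k • x ∈ A}} ⊆ A := by
        intro x hx
        have := hx.2
        rwa [smul_inv_smul] at this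
      refine a16_via W hS hB hc' (a16_down W hS hA hY2 hsub h1 hc') ?_
      rw [hgr] at hc' ⊢
      exact a16_down W hS hB hY (fun x hx => hx.1) h2 hc'
  have hk : ∀ k : G, k • v = v → k • u' ∈ A → k • u' = u' := by
    intro k hk hkA
    by_contra hne
    exact c2b ⟨k, hk, hkA, hne⟩
  -- Case 2F
  by_cases c2f : ∃ h : G, h • v = v ∧ ∃ x ∈ A, h • x ∈ B ∧ h • u' ≠ u'
  · obtain ⟨h, hv, x, hxA, hxB, hne⟩ := c2f
    have hX := wd_foA hA hB huB
    have hY := wd_foB (A := A) hB hk
    have hd := dS_fo hA hB hCD τ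
    have hlX := len_wh hS.ta hX hτ
    have hlY := len_wh hS.ta hY hτ
    have hXA : foA G v u' A B ⊆ A := fun _ hx => hx.1
    have hYB : foB G v u' A B ⊆ B := fun _ hx => hx.1
    have hxX : x ∉ foA G v u' A B := fun hx => hne (hx.2 h hv hxB)
    have hxY : h • x ∉ foB G v u' A B := by
      intro hx
      have := hx.2 h⁻¹ (a16_inv_fix hv) (by rw [inv_smul_smul]; exact hxA)
      apply hne
      have h4 := a16_inv_fix this
      rwa [inv_inv] at h4
    rcases Nat.lt_or_ge (len G (whG G S v u (foA G v u' A B)) W) (len G S W) with hc | hc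
    · have hcard : (foA G v u' A B).ncard < A.ncard :=
        Set.ncard_lt_ncard ⟨hXA, fun hsub => hxX (hsub hxA)⟩ finA
      refine low_trans (a16_down W hS hA hX hXA h1 hc) hc ?_
      exact IH u u' _ _ (by omega) hX hB hc.le h2 (by omega)
    · have hc' : len G (whG G S v u' (foB G v u' A B)) W < len G S W := by omega
      have hcard : (foB G v u' A B).ncard < B.ncard :=
        Set.ncard_lt_ncard ⟨hYB, fun hsub => hxY (hsub hxB)⟩ finB
      refine a16_via W hS hB hc' ?_ (a16_down W hS hB hY hYB h2 hc')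
      exact IH u u' _ _ (by omega) hA hY h1 hc'.le (by omega)
  have nf : ∀ h : G, h • v = v → ∀ x ∈ A, h • x ∈ B → h • u' = u' := by
    intro h hv x hx hhx
    by_contra hne
    exact c2f ⟨h, hv, x, hx, hhx, hne⟩
  by_cases huA : u' ∈ A
  · -- Case 2N-2
    have hDC : ∀ h : G, h • v = v → h • u' = u' → h • u = u := by
      intro h hv hu
      exact hA.disj h hv u' huA (by rw [hu]; exact huA)
    have nf' : ∀ h : G, h • v = v → ∀ x ∈ B, h • x ∈ A → h • u = u := by
      intro h hv x hx hhx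
      apply hDC h hv
      have h5 := nf h⁻¹ (a16_inv_fix hv) (h • x) hhx (by rw [inv_smul_smul]; exact hx)
      have h6 := a16_inv_fix h5
      rwa [inv_inv] at h6
    by_cases ci : ∀ g : G, g • v = u → g⁻¹ • v ∉ B
    · have hX := wd_int hB hA huA
      have hY := wd_un hS hB hA hDC nf' ci
      have hd := dS_un hB hA hDC nf' τ
      have hlX := len_wh hS.ta hX hτ
      have hlY := len_wh hS.ta hY hτ
      rcases Nat.lt_or_ge (len G (whG G S v u' (B ∩ A)) W) (len G S W) with hc | hc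
      · exact a16_via W hS hB hc (a16_down W hS hA hX Set.inter_subset_right h1 hc)
          (a16_down W hS hB hX Set.inter_subset_left h2 hc)
      · have hc' : len G (whG G S v u (unA G v u B A)) W < len G S W := by omega
        refine a16_via W hS hB hc' (a16_up W hS hA hY (fun x hx => Or.inl hx) h1 hc')
          (a16_up W hS hB hY (fun x hx => Or.inr ⟨1, by simp, by simp, by simpa using hx⟩) h2 hc')
    by_cases cii : ∀ g : G, g • v = u' → g⁻¹ • v ∉ A
    · have hX := wd_int hA hB huB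
      have hY := wd_un hS hA hB hCD nf cii
      have hd := dS_un hA hB hCD nf τ
      have hlX := len_wh hS.ta hX hτ
      have hlY := len_wh hS.ta hY hτ
      rcases Nat.lt_or_ge (len G (whG G S v u (A ∩ B)) W) (len G S W) with hc | hc
      · exact a16_via W hS hB hc (a16_down W hS hA hX Set.inter_subset_left h1 hc)
          (a16_down W hS hB hX Set.inter_subset_right h2 hc)
      · have hc' : len G (whG G S v u' (unA G v u' A B)) W < len G S W := by omega
        refine a16_via W hS hB hc'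
          (a16_up W hS hA hY (fun x hx => Or.inr ⟨1, by simp, by simp, by simpa using hx⟩) h1 hc')
          (a16_up W hS hB hY (fun x hx => Or.inl hx) h2 hc')
    push Not at ci cii
    obtain ⟨g1, hg1, hy0⟩ := ci
    obtain ⟨g, hg, hx0⟩ := cii
    have hZ2 := wd_corner hS hA hB hCD hg hx0 (by
      intro h hv hh
      have h5 := hA.disj h hv u' huA hh.1
      have h6 := hCD h hv h5
      rw [h6] at hh
      exact hh.2 1 (by simp) (by simpa using hB.mem))
    have hZ3 := wd_corner hS hB hA hDC hg1 hy0 (by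
      intro h hv hh
      have h5 := hB.disj h hv u huB hh.1
      have h6 := hDC h hv h5
      rw [h6] at hh
      exact hh.2 1 (by simp) (by simpa using hA.mem))
    have hr2 := dS_rev hτ hg (hA.adj _ hx0) (hB.adj _ hB.mem)
    have hr3 := dS_rev hτ hg1 (hB.adj _ hy0) (hA.adj _ hA.mem)
    have hd := dS_diff hA hB τ
    have hl2 := len_wh hS.ta hZ2 hτ
    have hl3 := len_wh hS.ta hZ3 hτ
    rcases Nat.lt_or_ge (len G (whG G S v (g⁻¹ • v) (dfA G v A B)) W) (len G S W) with hc | hc
    · exact a16_via W hS hB hc (a16_down W hS hA hZ2 a16_diff_sub h1 hc)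
        (a16_disj W hS hB hZ2 a16_diff_r h2 hc)
    · have hc' : len G (whG G S v (g1⁻¹ • v) (dfA G v B A)) W < len G S W := by omega
      exact a16_via W hS hB hc' (a16_disj W hS hA hZ3 a16_diff_r h1 hc')
        (a16_down W hS hB hZ3 a16_diff_sub h2 hc')
  · -- Case 2N-1
    have hq0 : ∀ h : G, h • v = v → h • u' ∉ A := by
      intro h hv hh
      rw [hk h hv hh] at hh
      exact huA hh
    by_cases ca : ∀ g : G, g • v = u' → g⁻¹ • v ∉ A
    · have hX := wd_int hA hB huB
      have hY := wd_un hS hA hB hCD nf ca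
      have hd := dS_un hA hB hCD nf τ
      have hlX := len_wh hS.ta hX hτ
      have hlY := len_wh hS.ta hY hτ
      rcases Nat.lt_or_ge (len G (whG G S v u (A ∩ B)) W) (len G S W) with hc | hc
      · exact a16_via W hS hB hc (a16_down W hS hA hX Set.inter_subset_left h1 hc)
          (a16_down W hS hB hX Set.inter_subset_right h2 hc)
      · have hc' : len G (whG G S v u' (unA G v u' A B)) W < len G S W := by omega
        refine a16_via W hS hB hc'
          (a16_up W hS hA hY (fun x hx => Or.inr ⟨1, by simp, by simp, by simpa using hx⟩) h1 hc')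
          (a16_up W hS hB hY (fun x hx => Or.inl hx) h2 hc')
    push Not at ca
    obtain ⟨g, hg, hx0⟩ := ca
    obtain ⟨hDC, hE⟩ := wd_rev hS hA hCD hg hx0
    have nf' : ∀ h : G, h • v = v → ∀ x ∈ B, h • x ∈ A → h • u = u := by
      intro h hv x hx hhx
      apply hDC h hv
      have h5 := nf h⁻¹ (a16_inv_fix hv) (h • x) hhx (by rw [inv_smul_smul]; exact hx)
      have h6 := a16_inv_fix h5
      rwa [inv_inv] at h6
    have hZ2 := wd_corner hS hA hB hCD hg hx0 (fun h hv hh => hq0 h hv hh.1)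
    have hr2 := dS_rev hτ hg (hA.adj _ hx0) (hB.adj _ hB.mem)
    have hl2 := len_wh hS.ta hZ2 hτ
    have hd := dS_diff hA hB τ
    rcases Nat.lt_or_ge (len G (whG G S v (g⁻¹ • v) (dfA G v A B)) W) (len G S W) with hc | hc
    · exact a16_via W hS hB hc (a16_down W hS hA hZ2 a16_diff_sub h1 hc)
        (a16_disj W hS hB hZ2 a16_diff_r h2 hc)
    by_cases cb : ∀ g : G, g • v = u → g⁻¹ • v ∉ B
    · have hZ1 := wd_int hA hB huB
      have hZ3 := wd_diff hB hA hq0
      have hZ4 := wd_un hS hB hA hDC nf' cb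
      have hdu := dS_un hB hA hDC nf' τ
      have hl1 := len_wh hS.ta hZ1 hτ
      have hl3 := len_wh hS.ta hZ3 hτ
      have hl4 := len_wh hS.ta hZ4 hτ
      rw [Set.inter_comm B A] at hdu
      rcases Nat.lt_or_ge (len G (whG G S v u (A ∩ B)) W) (len G S W) with hc1 | hc1
      · exact a16_via W hS hB hc1 (a16_down W hS hA hZ1 Set.inter_subset_left h1 hc1)
          (a16_down W hS hB hZ1 Set.inter_subset_right h2 hc1)
      rcases Nat.lt_or_ge (len G (whG G S v u' (dfA G v B A)) W) (len G S W) with hc3 | hc3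
      · exact a16_via W hS hB hc3 (a16_disj W hS hA hZ3 a16_diff_r h1 hc3)
          (a16_down W hS hB hZ3 a16_diff_sub h2 hc3)
      have hc4 : len G (whG G S v u (unA G v u B A)) W < len G S W := by omega
      exact a16_via W hS hB hc4 (a16_up W hS hA hZ4 (fun x hx => Or.inl hx) h1 hc4)
        (a16_up W hS hB hZ4 (fun x hx => Or.inr ⟨1, by simp, by simp, by simpa using hx⟩) h2 hc4)
    · push Not at cb
      obtain ⟨g1, hg1, hy0⟩ := cb
      have hZ3 := wd_corner hS hB hA hDC hg1 hy0 (by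
        intro h hv hh
        have h5 := hB.disj h hv u huB hh.1
        have h6 := hDC h hv h5
        rw [h6] at hh
        exact hh.2 1 (by simp) (by simpa using hA.mem))
      have hr3 := dS_rev hτ hg1 (hB.adj _ hy0) (hA.adj _ hA.mem)
      have hl3 := len_wh hS.ta hZ3 hτ
      have hc' : len G (whG G S v (g1⁻¹ • v) (dfA G v B A)) W < len G S W := by omega
      exact a16_via W hS hB hc' (a16_disj W hS hA hZ3 a16_diff_r h1 hc')
        (a16_down W hS hB hZ3 a16_diff_sub h2 hc')

theorem a16_ncard_tr (g : G) (A : Set V) : {x | g⁻¹ • x ∈ A}.ncard = A.ncard := by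
  have h : {x | g⁻¹ • x ∈ A} = (fun x => g • x) '' A := by
    ext x
    simp only [Set.mem_setOf_eq, Set.mem_image]
    constructor
    · intro hx
      exact ⟨g⁻¹ • x, hx, smul_inv_smul g x⟩
    · rintro ⟨y, hy, rfl⟩
      rwa [inv_smul_smul]
  rw [h]
  exact Set.ncard_image_of_injective A (MulAction.injective g)

theorem pl_same {ι : Type} [Fintype ι] (W : ι → G) (hS : TLat G S) (n : ℕ) :
    ∀ (u u' : V) (A B : Set V), A.ncard + B.ncard ≤ n → WD G S v u A → WD G S v u' B →
      len G (whG G S v u A) W ≤ len G S W → len G (whG G S v u' B) W ≤ len G S W →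
      len G (whG G S v u A) W + len G (whG G S v u' B) W < 2 * len G S W →
      Low G W (len G S W) (whG G S v u A) (whG G S v u' B) := by
  induction n with
  | zero =>
    intro u u' A B hn hA hB h1 h2 h3
    exfalso
    have finA : A.Finite := (hS.loc v).subset (fun x hx => hA.adj x hx)
    have : 0 < A.ncard := (Set.ncard_pos finA).2 ⟨u, hA.mem⟩
    omega
  | succ n IH =>
    intro u u' A B hn hA hB h1 h2 h3
    by_cases c1 : ∃ h : G, h • v = v ∧ h • u ∈ B
    · obtain ⟨h, hv, hu⟩ := c1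
      have hA' := wd_tr hS.ta hA h
      have hgr := wh_tr S v u A h
      rw [hv] at hA' hgr
      rw [← hgr] at h1 h3 ⊢
      exact a16_main W hS n IH _ _ _ _ (by rw [a16_ncard_tr]; exact hn) hA' hB h1 h2 h3 hu
    by_cases c2 : ∃ h : G, h • v = v ∧ h • u' ∈ A
    · obtain ⟨h, hv, hu⟩ := c2
      have hB' := wd_tr hS.ta hB h
      have hgr := wh_tr S v u' B h
      rw [hv] at hB' hgr
      rw [← hgr] at h2 h3 ⊢
      refine a16_sym hS hB' ?_
      exact a16_main W hS n IH _ _ _ _ (by rw [a16_ncard_tr]; omega) hB' hA h2 h1 (by omega) hu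
    · push Not at c1 c2
      obtain ⟨τ, hτ⟩ := turns hS.ta W v
      have hlA := len_wh hS.ta hA hτ
      have hlB := len_wh hS.ta hB hτ
      have hX := wd_diff hA hB c1
      have hY := wd_diff hB hA c2
      have hd := dS_diff hA hB τ
      have hlX := len_wh hS.ta hX hτ
      have hlY := len_wh hS.ta hY hτ
      rcases Nat.lt_or_ge (len G (whG G S v u (dfA G v A B)) W) (len G S W) with hc | hc
      · exact a16_via W hS hB hc (a16_down W hS hA hX a16_diff_sub h1 hc)
          (a16_disj W hS hB hX a16_diff_r h2 hc)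
      · have hc' : len G (whG G S v u' (dfA G v B A)) W < len G S W := by omega
        exact a16_via W hS hB hc' (a16_disj W hS hA hY a16_diff_r h1 hc')
          (a16_down W hS hB hY a16_diff_sub h2 hc')

/-- If `g v = v'` for some `g` translate the first data by `g` (`wd_tr`, `wh_tr`) and use `pl_same`; otherwise
`pl_disj`. -/
theorem pl {ι : Type} [Fintype ι] (W : ι → G) (hS : TLat G S) {S₁ S₂ : SimpleGraph V}
    (h1 : WhS G S S₁) (h2 : WhS G S S₂) (h3 : len G S₁ W ≤ len G S W)
    (h4 : len G S₂ W ≤ len G S W) (h5 : len G S₁ W + len G S₂ W < 2 * len G S W) :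
    Low G W (len G S W) S₁ S₂ := by
  obtain ⟨v, u, A, hA, rfl⟩ := h1
  obtain ⟨v', u', B, hB, rfl⟩ := h2
  by_cases hc : ∃ g : G, g • v = v'
  · obtain ⟨g, rfl⟩ := hc
    have hA' := wd_tr hS.ta hA g
    have hgr := wh_tr S v u A g
    rw [← hgr] at h3 h5 ⊢
    exact pl_same W hS _ _ _ _ _ le_rfl hA' hB h3 h4 h5
  · exact pl_disj W hS hA hB (fun g hg => absurd ⟨g, hg⟩ hc) h3 h4 h5

end

end VF
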