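import Pool.Agent.Lib.MP_32d917_al_vf.ADefs

/-!
# A17: slides are Whitehead moves

Let `v, x, u` be as in `Slide`, `H` the stabiliser of `v`, `C` the stabiliser of `u` in `H`; `A = {u} ∪ {g x | g ∈ C}`.
`WD`: `disj`: let `g ∈ H`, `y, g y ∈ A`. `y = u`: `g u = u`, or `g u = g' x` with `g' ∈ C` and then `g⁻¹ g' x = u`, excluded.
`y = g' x`, `g' ∈ C`: `g g' x = u` is excluded; `g g' x = g'' x`, `g'' ∈ C`: `g''⁻¹ g g'` fixes `v`, `x`, so `u`, and
`g u = u`. `inv`: let `g v = u`. `g⁻¹ v = u`: `g` exchanges `u`, `v`, excluded by `noinv`. `g⁻¹ v = g' x`, `g' ∈ C`: then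
`g g' v = u`, `g g' x = v`, excluded.
The graph: `Mvd G v u A a b z` iff there is `g` with `g v = a`, `g x = b`, `g u = z` (replace `g` by `g g'`). The end at `x` of the edge
`v x` is not moved: `g v = x`, `g x = v` is excluded by `noinv`. So the edges `g v, g x` are replaced by `g u, g x`
and the other ones are not changed. (`u ≠ x` since `g = 1` is excluded.)
-/

set_option autoImplicit false

namespace VF

open LatIso LatN

section

variable {G : Type} [Group G] {V : Type} [MulAction G V] {S S' : SimpleGraph V}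

theorem A17_mvd {v x u : V} (hux : ∀ g : G, ¬ (g • v = v ∧ g • x = u)) (a b z : V) :
    Mvd G v u {y | y = u ∨ ∃ g : G, g • v = v ∧ g • u = u ∧ y = g • x} a b z ↔
      ∃ g : G, g • v = a ∧ g • x = b ∧ g • u = z := by
  constructor
  · rintro ⟨g, h1, h2, h3, h4⟩
    rcases h2 with h2 | ⟨g', h5, h6, h7⟩
    · exact absurd h2 h3
    · refine ⟨g * g', ?_, ?_, ?_⟩
      · rw [mul_smul, h5, h1]
      · rw [mul_smul, ← h7, smul_inv_smul]
      · rw [mul_smul, h6, h4]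
  · rintro ⟨g, h1, h2, h3⟩
    have hxu : x ≠ u := fun h => hux 1 ⟨one_smul _ _, by rw [one_smul, h]⟩
    have h4 : g⁻¹ • b = x := by rw [← h2, inv_smul_smul]
    refine ⟨g, h1, ?_, ?_, h3⟩
    · rw [h4]
      exact Or.inr ⟨1, one_smul _ _, one_smul _ _, (one_smul _ _).symm⟩
    · rw [h4]
      exact hxu

theorem slide_wh (hS : TA G S) (h : Slide G S S') : WhS G S S' := by
  obtain ⟨v, x, u, hvx, hvu, hxu, hinv, hst, hS'⟩ := h
  refine ⟨v, u, {y | y = u ∨ ∃ g : G, g • v = v ∧ g • u = u ∧ y = g • x}, ?_, ?_⟩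
  · refine ⟨?_, Or.inl rfl, ?_, ?_, ?_⟩
    · rintro y (rfl | ⟨g, h1, -, rfl⟩)
      · exact hvu
      · have := hS.adj g v x hvx
        rwa [h1] at this
    · rintro g h1 h2 y (rfl | ⟨g', h3, h4, rfl⟩)
      · exact Or.inl h2
      · exact Or.inr ⟨g * g', by rw [mul_smul, h3, h1], by rw [mul_smul, h4, h2],
          by rw [mul_smul]⟩
    · rintro g h1 y (rfl | ⟨g', h3, h4, rfl⟩) hy
      · rcases hy with hy | ⟨g'', h5, h6, h7⟩
        · exact hy
        · exact absurd ⟨by rw [mul_smul, h5, inv_smul_eq_iff, h1],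
            by rw [mul_smul, ← h7, inv_smul_smul]⟩ (hxu (g⁻¹ * g''))
      · rcases hy with hy | ⟨g'', h5, h6, h7⟩
        · exact absurd ⟨by rw [mul_smul, h3, h1], by rw [mul_smul, hy]⟩ (hxu (g * g'))
        · have h8 := hst (g''⁻¹ * (g * g'))
            (by rw [mul_smul, mul_smul, h3, h1, inv_smul_eq_iff, h5])
            (by rw [mul_smul, mul_smul, h7, inv_smul_smul])
          rw [mul_smul, mul_smul, h4, inv_smul_eq_iff, h6] at h8
          exact h8
    · rintro g h1 (h2 | ⟨g', h3, h4, h5⟩)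
      · have h6 : g • u = v := by rw [← h2, smul_inv_smul]
        exact hS.noinv g v u hvu h1 h6
      · exact hinv (g * g') ⟨by rw [mul_smul, h3, h1],
          by rw [mul_smul, ← h5, smul_inv_smul]⟩
  · have hno : ∀ g h : G, h • v = g • x → h • x ≠ g • v := by
      intro g h h1 h2
      exact hS.noinv (g⁻¹ * h) v x hvx (by rw [mul_smul, h1, inv_smul_smul])
        (by rw [mul_smul, h2, inv_smul_smul])
    have hux : u ≠ x := fun h => hxu 1 ⟨one_smul _ _, by rw [one_smul, h]⟩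
    have key : ∀ a b, (∃ g : G, g • u = a ∧ g • x = b) →
        (whG G S v u {y | y = u ∨ ∃ g : G, g • v = v ∧ g • u = u ∧ y = g • x}).Adj a b := by
      rintro a b ⟨g, rfl, rfl⟩
      refine ⟨fun h => hux (MulAction.injective g h), g • v, g • x, hS.adj g v x hvx,
        Or.inl ((A17_mvd hxu _ _ _).2 ⟨g, rfl, rfl, rfl⟩), Or.inr ⟨fun z' hz' => ?_, rfl⟩⟩
      obtain ⟨h, h1, h2, -⟩ := (A17_mvd hxu _ _ _).1 hz'
      exact hno g h h1 h2
    ext a b
    rw [hS' a b]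
    constructor
    · rintro (⟨h1, h2⟩ | ⟨g, h1 | h1⟩)
      · refine ⟨h1.ne, a, b, h1, Or.inr ⟨fun z' hz' => ?_, rfl⟩, Or.inr ⟨fun z' hz' => ?_, rfl⟩⟩
        · obtain ⟨g, h3, h4, -⟩ := (A17_mvd hxu _ _ _).1 hz'
          exact (h2 g).1 ⟨h3, h4⟩
        · obtain ⟨g, h3, h4, -⟩ := (A17_mvd hxu _ _ _).1 hz'
          exact (h2 g).2 ⟨h3, h4⟩
      · exact key a b ⟨g, h1⟩
      · exact (key b a ⟨g, h1⟩).symm
    · rintro ⟨hab, p, q, hpq, h1, h2⟩
      rcases h1 with h1 | ⟨h1, rfl⟩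
      · obtain ⟨g, h3, h4, h5⟩ := (A17_mvd hxu _ _ _).1 h1
        rcases h2 with h2 | ⟨-, rfl⟩
        · obtain ⟨h, h6, h7, -⟩ := (A17_mvd hxu _ _ _).1 h2
          exact absurd (h7.trans h3.symm) (hno g h (h6.trans h4.symm))
        · exact Or.inr ⟨g, Or.inl ⟨h5, h4⟩⟩
      · rcases h2 with h2 | ⟨h2, rfl⟩
        · obtain ⟨h, h6, h7, h8⟩ := (A17_mvd hxu _ _ _).1 h2
          exact Or.inr ⟨h, Or.inr ⟨h8, h7⟩⟩
        · refine Or.inl ⟨hpq, fun g => ⟨fun h3 => ?_, fun h3 => ?_⟩⟩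
          · exact h1 (g • u) ((A17_mvd hxu _ _ _).2 ⟨g, h3.1, h3.2, rfl⟩)
          · exact h2 (g • u) ((A17_mvd hxu _ _ _).2 ⟨g, h3.1, h3.2, rfl⟩)

end

end VF
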