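import Pool.Agent.Lib.MP_32d917_al_vf.A10

/-!
# A18: further properties of Whitehead moves

`wh_tlat`: `ta` by `wh_ta`; `fin`, `cinv` do not depend on the graph. `loc`: let `z` be a vertex. A neighbour `b` of `z` in
`whG` comes from an edge `x y` of `S` with `NEnd x y z`, `NEnd y x b`. There are finitely many possible `x`: `x = z`, or
`g v = x`, `g u = z`, so `x` is adjacent to `z`. For given `x` there are finitely many `y`, and `b` is determined by `(x, y)`
(if `g v = g' v = x`, `g⁻¹ y, g'⁻¹ y ∈ A` then `g⁻¹ g'` fixes `v` and maps an element of `A` to `A`, so it fixes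
`u`).

`wh_lip`: by induction on the distance it is enough that the ends of an edge `a b` of `S` have distance `≤ 3` in `whG`. Let
`a'`, `b'` be the new ends. `a'` is `a` or `g u` with `g v = a`, and then `a a'` is an edge of `whG`: the edge `v u` of
`S` is not moved (at `v` since `≠ u`; at `u` by `inv`). Same for `b'`. And `a' = b'` or `a' b'` is an edge. So the distance
is at most `3`. Connectedness of `whG`: `wh_ta`.

`wh_edge`: use `wh_model`: directed edges of `S` are the directed edges of `R` which are not in the orbit of `p, φ v` or its reverse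
(`qG_uniq`), those of `whG` are the directed edges of `R` not in the orbit of `p, φ u` or its reverse. Let `β x` be the
image under `r` of the lift of `x`, if it is not collapsed; the lift of `g v, g u` is `g p, g (φ u)`, it is collapsed, let
`β (g v, g u) = (g u, g v)` and `β (g u, g v) = (g v, g u)` (well defined as `g` is unique up to the stabiliser of `v`, `u`;
`(g v, g u) = (g' u, g' v)` is impossible by `noinv`); these are the images of `g p, g (φ v)` and its reverse. `β x = x` if `x` is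
not an edge.
-/

set_option autoImplicit false

namespace VF

open LatIso LatN

section

variable {G : Type} [Group G] {V : Type} [MulAction G V] {S S' : SimpleGraph V}

theorem a18_ex (v u : V) (A : Set V) (x y : V) : ∃ z, NEnd G v u A x y z := by
  by_cases h : ∃ z, Mvd G v u A x y z
  · obtain ⟨z, hz⟩ := h
    exact ⟨z, Or.inl hz⟩
  · exact ⟨x, Or.inr ⟨fun z' hz' => h ⟨z', hz'⟩, rfl⟩⟩

theorem a18_uniq {v u : V} {A : Set V} (hA : WD G S v u A) {x y z z' : V}
    (h : NEnd G v u A x y z) (h' : NEnd G v u A x y z') : z = z' := by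
  rcases h with h | ⟨h1, h2⟩
  · rcases h' with h' | ⟨h1', h2'⟩
    · obtain ⟨g, g1, g2, g3, g4⟩ := h
      obtain ⟨k, k1, k2, k3, k4⟩ := h'
      have e1 : (k⁻¹ * g) • v = v := by
        rw [mul_smul, g1, ← k1, inv_smul_smul]
      have e2 : (k⁻¹ * g) • (g⁻¹ • y) = k⁻¹ • y := by
        rw [mul_smul, smul_inv_smul]
      have e3 : (k⁻¹ * g) • u = u := by
        apply hA.disj _ e1 _ g2
        rw [e2]
        exact k2
      rw [mul_smul, inv_smul_eq_iff] at e3
      rw [← g4, ← k4, e3]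
    · exact absurd h (h1' z)
  · rcases h' with h' | ⟨h1', h2'⟩
    · exact absurd h' (h1 z')
    · rw [h2, h2']

theorem a18_mvd_equ {v u : V} {A : Set V} (k : G) {x y z : V} (h : Mvd G v u A x y z) :
    Mvd G v u A (k • x) (k • y) (k • z) := by
  obtain ⟨g, g1, g2, g3, g4⟩ := h
  have e : (k * g)⁻¹ • (k • y) = g⁻¹ • y := by
    rw [mul_inv_rev, mul_smul, inv_smul_smul]
  refine ⟨k * g, ?_, ?_, ?_, ?_⟩
  · rw [mul_smul, g1]
  · rw [e]
    exact g2
  · rw [e]
    exact g3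
  · rw [mul_smul, g4]

theorem a18_equ {v u : V} {A : Set V} (k : G) {x y z : V} (h : NEnd G v u A x y z) :
    NEnd G v u A (k • x) (k • y) (k • z) := by
  rcases h with h | ⟨h1, h2⟩
  · exact Or.inl (a18_mvd_equ k h)
  · refine Or.inr ⟨fun z' hz' => h1 (k⁻¹ • z') ?_, by rw [h2]⟩
    have := a18_mvd_equ k⁻¹ hz'
    rwa [inv_smul_smul, inv_smul_smul] at this

/-- the edge `g v, g u` is not moved -/
theorem a18_fix {v u : V} {A : Set V} (hA : WD G S v u A) (g : G) :
    NEnd G v u A (g • v) (g • u) (g • v) ∧ NEnd G v u A (g • u) (g • v) (g • u) := by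
  constructor
  · refine Or.inr ⟨?_, rfl⟩
    rintro z ⟨k, k1, k2, k3, k4⟩
    apply k3
    have e1 : (k⁻¹ * g) • v = v := by
      rw [mul_smul, ← k1, inv_smul_smul]
    have e2 := hA.disj _ e1 u hA.mem (by rw [mul_smul]; exact k2)
    rw [mul_smul] at e2
    exact e2
  · refine Or.inr ⟨?_, rfl⟩
    rintro z ⟨k, k1, k2, k3, k4⟩
    apply hA.inv (g⁻¹ * k)
    · rw [mul_smul, k1, inv_smul_smul]
    · rw [mul_inv_rev, inv_inv, mul_smul]
      exact k2

theorem a18_adj_wh {v u : V} {A : Set V} (hS : TA G S) (hA : WD G S v u A) (g : G) :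
    (whG G S v u A).Adj (g • v) (g • u) := by
  have hvu : S.Adj (g • v) (g • u) := hS.adj g _ _ (hA.adj u hA.mem)
  exact ⟨hvu.ne, g • v, g • u, hvu, (a18_fix hA g).1, (a18_fix hA g).2⟩

theorem wh_tlat (hS : TLat G S) (h : WhS G S S') : TLat G S' := by
  obtain ⟨v, u, A, hA, rfl⟩ := h
  refine ⟨wh_ta hS.ta hA, ?_, hS.fin, hS.cinv⟩
  intro z
  have hfin : (⋃ x ∈ insert z (S.neighborSet z), ⋃ y ∈ S.neighborSet x,
      {b | NEnd G v u A y x b}).Finite := by
    apply Set.Finite.biUnion ((hS.loc z).insert z)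
    intro x _
    apply Set.Finite.biUnion (hS.loc x)
    intro y _
    apply Set.Subsingleton.finite
    intro b hb b' hb'
    exact a18_uniq hA hb hb'
  apply hfin.subset
  rintro b ⟨hne, x, y, hxy, h1, h2⟩
  simp only [Set.mem_iUnion]
  refine ⟨x, ?_, y, hxy, h2⟩
  rcases h1 with ⟨g, g1, g2, g3, g4⟩ | ⟨h1, h3⟩
  · right
    have := hS.ta.adj g _ _ (hA.adj u hA.mem)
    rw [g1, g4] at this
    exact this.symm
  · left
    exact h3.symm

theorem a18_adj3 (hS : TA G S) {v u : V} {A : Set V} (hA : WD G S v u A) {a b : V} (hab : S.Adj a b) :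
    (whG G S v u A).dist a b ≤ 3 := by
  have hT := (wh_ta hS hA).tree
  have key : ∀ x y z, NEnd G v u A x y z → (whG G S v u A).dist x z ≤ 1 := by
    rintro x y z (⟨g, g1, g2, g3, g4⟩ | ⟨h1, h3⟩)
    · have := a18_adj_wh hS hA g
      rw [g1, g4] at this
      rw [st1_one this]
    · rw [h3, SimpleGraph.dist_self]
      exact Nat.zero_le _
  obtain ⟨a', ha'⟩ := a18_ex (G := G) v u A a b
  obtain ⟨b', hb'⟩ := a18_ex (G := G) v u A b a
  have h1 := key _ _ _ ha'
  have h2 := key _ _ _ hb'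
  have h3 : (whG G S v u A).dist a' b' ≤ 1 := by
    by_cases hne : a' = b'
    · rw [hne, SimpleGraph.dist_self]
      exact Nat.zero_le _
    · have : (whG G S v u A).Adj a' b' := ⟨hne, a, b, hab, ha', hb'⟩
      rw [st1_one this]
  have t1 := st1_tri hT a a' b
  have t2 := st1_tri hT a' b' b
  rw [SimpleGraph.dist_comm (u := b) (v := b')] at h2
  omega

theorem wh_lip (hS : TA G S) (h : WhS G S S') (x y : V) : S'.dist x y ≤ 3 * S.dist x y := by
  obtain ⟨v, u, A, hA, rfl⟩ := h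
  have hT := (wh_ta hS hA).tree
  obtain ⟨n, hn⟩ : ∃ n, S.dist x y = n := ⟨_, rfl⟩
  induction n generalizing x with
  | zero =>
    have := st1_eq hS.tree hn
    subst this
    rw [SimpleGraph.dist_self]
    exact Nat.zero_le _
  | succ n ih =>
    have hne : x ≠ y := by
      rintro rfl
      rw [SimpleGraph.dist_self] at hn
      omega
    obtain ⟨m, hm1, hm2⟩ := st_next hS.tree hne
    unfold Bt at hm2
    rw [st1_one hm1] at hm2
    have e := ih m (by omega)
    have t := st1_tri hT x m y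
    have := a18_adj3 hS hA hm1
    omega

theorem wh_edge (hS : TA G S) (h : WhS G S S') : ∃ β : V × V → V × V,
    (∀ x, S.Adj x.1 x.2 → S'.Adj (β x).1 (β x).2) ∧
    (∀ x y, S.Adj x.1 x.2 → S.Adj y.1 y.2 → β x = β y → x = y) ∧
    (∀ y, S'.Adj y.1 y.2 → ∃ x, S.Adj x.1 x.2 ∧ β x = y) ∧
    ∀ (g : G) (x : V × V), S.Adj x.1 x.2 → β (g • x.1, g • x.2) = (g • (β x).1, g • (β x).2) := by
  obtain ⟨v, u, A, hA, rfl⟩ := h
  choose f hf using fun x y => a18_ex (G := G) v u A x y
  have hfu : ∀ x y z, NEnd G v u A x y z → f x y = z := fun x y z hz => a18_uniq hA (hf x y) hz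
  obtain ⟨U, _, R, φ, ρ, r, p, hE, hr, hrp, hpu, hq, hρc, hrc, hst⟩ := wh_model hS hA
  have hRt : R.IsTree := hE.ta.tree
  -- lifts
  have lift : ∀ x y, S.Adj x y → ∃ a b, R.Adj a b ∧ ρ a = x ∧ ρ b = y := by
    intro x y hxy
    rw [← hE.quo] at hxy
    exact hxy.2
  -- special edges
  have hend : ∀ a b, R.Adj a b → ρ a ≠ ρ b → (¬ ∃ g : G, ρ a = g • v ∧ ρ b = g • u) →
      f (ρ a) (ρ b) = r a := by
    intro a b hab hne hs
    apply hfu
    rcases hE.fin a b hab hne with ⟨g, g1, g2, g3⟩ | ⟨g1, g2⟩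
    · left
      refine ⟨g, g1, g2, ?_, ?_⟩
      · intro e
        apply hs
        refine ⟨g, g1.symm, ?_⟩
        rw [← e, smul_inv_smul]
      · rw [g3, hr.equ, hrp]
    · right
      constructor
      · rintro z ⟨g, k1, k2, k3, k4⟩
        exact g1 g k1 k2
      · rw [g2, hr.sec]
        rw [hE.retr.sec]
  have hspec : ∀ g : G, f (g • v) (g • u) = g • v ∧ f (g • u) (g • v) = g • u := fun g =>
    ⟨hfu _ _ _ (a18_fix hA g).1, hfu _ _ _ (a18_fix hA g).2⟩
  -- description of β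
  have hdesc : ∀ x y, S.Adj x y →
      (∃ a b, R.Adj a b ∧ ρ a = x ∧ ρ b = y ∧ r a = f x y ∧ r b = f y x ∧ r a ≠ r b) ∨
      ((∃ g : G, (x = g • v ∧ y = g • u) ∨ (x = g • u ∧ y = g • v)) ∧ f x y = x ∧ f y x = y) := by
    intro x y hxy
    by_cases hs : ∃ g : G, (x = g • v ∧ y = g • u) ∨ (x = g • u ∧ y = g • v)
    · right
      refine ⟨hs, ?_⟩
      obtain ⟨g, ⟨rfl, rfl⟩ | ⟨rfl, rfl⟩⟩ := hs
      · exact hspec g
      · exact ⟨(hspec g).2, (hspec g).1⟩
    · left
      obtain ⟨a, b, hab, rfl, rfl⟩ := lift x y hxy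
      refine ⟨a, b, hab, rfl, rfl, ?_, ?_, ?_⟩
      · exact (hend a b hab hxy.ne fun ⟨g, h1, h2⟩ => hs ⟨g, Or.inl ⟨h1, h2⟩⟩).symm
      · exact (hend b a hab.symm hxy.ne.symm fun ⟨g, h1, h2⟩ => hs ⟨g, Or.inr ⟨h2, h1⟩⟩).symm
      · intro e
        obtain ⟨g, ⟨h1, h2⟩ | ⟨h1, h2⟩⟩ := (hrc a b hab).1 e
        · apply hs
          refine ⟨g, Or.inl ⟨?_, ?_⟩⟩
          · rw [← h1, hE.retr.equ, hE.rp]
          · rw [← h2, hE.retr.equ, hE.retr.sec]
        · apply hs
          refine ⟨g, Or.inr ⟨?_, ?_⟩⟩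
          · rw [← h2, hE.retr.equ, hE.retr.sec]
          · rw [← h1, hE.retr.equ, hE.rp]
  have hmix : ∀ (x y a b : V) (c d : U), S.Adj a b → (∃ g : G, (x = g • v ∧ y = g • u) ∨ (x = g • u ∧ y = g • v)) →
      R.Adj c d → ρ c = a → ρ d = b → r c = x → r d = y → False := by
    intro x y a b c d hab hg hcd hc hd hx hy
    obtain ⟨g, ⟨h1, h2⟩ | ⟨h1, h2⟩⟩ := hg
    · have e1 : R.Adj (g • φ v) (g • p) := hE.ta.adj g _ _ hE.adj.symm
      have e2 : r (g • φ v) = g • v := by rw [hr.equ, hr.sec]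
      have e3 : r (g • p) = g • u := by rw [hr.equ, hrp]
      have hne : r (g • φ v) ≠ r (g • p) := by
        rw [e2, e3]
        exact (hS.adj g _ _ (hA.adj u hA.mem)).ne
      obtain ⟨q1, q2⟩ := qG_uniq hRt hr e1 hcd hne (by rw [hx, e2, h1]) (by rw [hy, e3, h2])
      apply hab.ne
      rw [← hc, ← hd, q1, q2, hE.retr.equ, hE.retr.equ, hE.retr.sec, hE.rp]
    · have e1 : R.Adj (g • p) (g • φ v) := hE.ta.adj g _ _ hE.adj
      have e2 : r (g • φ v) = g • v := by rw [hr.equ, hr.sec]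
      have e3 : r (g • p) = g • u := by rw [hr.equ, hrp]
      have hne : r (g • p) ≠ r (g • φ v) := by
        rw [e2, e3]
        exact (hS.adj g _ _ (hA.adj u hA.mem)).ne.symm
      obtain ⟨q1, q2⟩ := qG_uniq hRt hr e1 hcd hne (by rw [hx, e3, h1]) (by rw [hy, e2, h2])
      apply hab.ne
      rw [← hc, ← hd, q1, q2, hE.retr.equ, hE.retr.equ, hE.retr.sec, hE.rp]
  refine ⟨fun x => (f x.1 x.2, f x.2 x.1), ?_, ?_, ?_, ?_⟩
  · rintro ⟨x, y⟩ hxy
    refine ⟨?_, x, y, hxy, hf x y, hf y x⟩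
    rcases hdesc x y hxy with ⟨a, b, hab, h1, h2, h3, h4, h5⟩ | ⟨-, h1, h2⟩
    · simp only
      rw [← h3, ← h4]
      exact h5
    · simp only
      rw [h1, h2]
      exact hxy.ne
  · rintro ⟨x, y⟩ ⟨x', y'⟩ hxy hxy' he
    simp only [Prod.mk.injEq] at he ⊢
    simp only at hxy hxy'
    obtain ⟨he1, he2⟩ := he
    rcases hdesc x y hxy with ⟨a, b, hab, h1, h2, h3, h4, h5⟩ | ⟨hg, h1, h2⟩
    · rcases hdesc x' y' hxy' with ⟨a', b', hab', h1', h2', h3', h4', h5'⟩ | ⟨hg', h1', h2'⟩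
      · obtain ⟨q1, q2⟩ := qG_uniq hRt hr hab hab' h5 (by rw [h3, h3', he1]) (by rw [h4, h4', he2])
        rw [← h1, ← h2, ← h1', ← h2', q1, q2]
        exact ⟨rfl, rfl⟩
      · exact (hmix x' y' x y a b hxy hg' hab h1 h2 (by rw [h3, he1, h1']) (by rw [h4, he2, h2'])).elim
    · rcases hdesc x' y' hxy' with ⟨a', b', hab', h1', h2', h3', h4', h5'⟩ | ⟨hg', h1', h2'⟩
      · exact (hmix x y x' y' a' b' hxy' hg hab' h1' h2' (by rw [h3', ← he1, h1])
          (by rw [h4', ← he2, h2])).elim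
      · rw [h1, h1'] at he1
        rw [h2, h2'] at he2
        exact ⟨he1, he2⟩
  · rintro ⟨a, b⟩ ⟨hne, x, y, hxy, h1, h2⟩
    exact ⟨(x, y), hxy, by simp only [hfu _ _ _ h1, hfu _ _ _ h2]⟩
  · rintro g ⟨x, y⟩ hxy
    simp only
    rw [hfu _ _ _ (a18_equ g (hf x y)), hfu _ _ _ (a18_equ g (hf y x))]

end

end VF
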