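import Pool.Agent.Lib.MP_32d917_al.N.NS4
import Pool.Agent.Lib.MP_32d917_al_vf.A16
import Pool.Agent.Lib.MP_32d917_al_vf.A17
import Pool.Agent.Lib.MP_32d917_al_vf.A18

/-!
# A19: the theorem of Whitehead for trees

`tniel` (NS4) and `slide_wh`, `wh_tlat`: there is a chain of Whitehead moves from `S` to `S'`. Let `m ≥ M`. Let `Ch m k X Y` be
(inductive) the existence of a chain from `X` to `Y` in which all trees after `X` have length `≤ m + 1` and exactly `k` of them have
length `m + 1`: `nil : Ch 0 X X`; `lo : WhS X X1 → len X1 ≤ m → Ch k X1 Y → Ch k X Y`; `hi : WhS X X1 → len X1 = m + 1 →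
Ch k X1 Y → Ch (k + 1) X Y`. Claim: `Ch (k + 1) X Y`, `TLat X`, `len X ≤ m`, `len Y ≤ m` imply `Ch k X Y`. Induction on the chain:
first step `lo`: clear. First step `hi`: `X → X1`, `len X1 = m + 1`; the chain `Ch k X1 Y` is not `nil` (as
`len Y ≤ m`), so it starts with `X1 → X2`. `pl` at `X1` (for `WhS X1 X` (`wh_symm`) and `WhS X1 X2`; `len X ≤ m`,
`len X2 ≤ m + 1`) gives a chain `Low W (m + 1) X X2` with intermediate trees of length `≤ m`; together with the rest of the chain
(from `X1 → X2` on) we get `Ch k X Y` (count: if `len X2 = m + 1` then `X2` is counted in the rest of the chain; the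
last step of the `Low` chain goes to `X2`). So by induction on `k` and on `m - M` (downwards) there is a chain with all trees of length
`≤ M`.
-/

set_option autoImplicit false

namespace VF

open LatIso LatN

section

variable {G : Type} [Group G] {V : Type} [MulAction G V] {S S' : SimpleGraph V}

/-- one step -/
def EStep (G : Type) [Group G] {V : Type} [MulAction G V] {ι : Type} [Fintype ι] (W : ι → G) (M : ℕ)
    (X Y : SimpleGraph V) : Prop := TLat G X ∧ TLat G Y ∧ WhS G X Y ∧ len G Y W ≤ M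

/-- A chain of Whitehead moves in which all trees after the first one have length at most `m + 1`, and
exactly `k` of them have length `m + 1`. -/
inductive A19Ch (G : Type) [Group G] {V : Type} [MulAction G V] {ι : Type} [Fintype ι] (W : ι → G)
    (m : ℕ) : ℕ → SimpleGraph V → SimpleGraph V → Prop
  | nil (X) : A19Ch G W m 0 X X
  | lo (k X X1 Y) : WhS G X X1 → len G X1 W ≤ m → A19Ch G W m k X1 Y → A19Ch G W m k X Y
  | hi (k X X1 Y) : WhS G X X1 → len G X1 W = m + 1 → A19Ch G W m k X1 Y →
      A19Ch G W m (k + 1) X Y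

theorem a19_low_lo {ι : Type} [Fintype ι] {W : ι → G} {m n k : ℕ} {X X2 Y : SimpleGraph V}
    (h : Low G W n X X2) (hn : n = m + 1) (h2 : len G X2 W ≤ m) (h3 : A19Ch G W m k X2 Y) :
    A19Ch G W m k X Y := by
  induction h with
  | refl S => exact h3
  | one S S' hw => exact A19Ch.lo _ _ _ _ hw h2 h3
  | step S R S' hw hl _ ih => exact A19Ch.lo _ _ _ _ hw (by omega) (ih h2 h3)

theorem a19_low_hi {ι : Type} [Fintype ι] {W : ι → G} {m n k : ℕ} {X X2 Y : SimpleGraph V}
    (h : Low G W n X X2) (hn : n = m + 1) (h0 : len G X W ≤ m) (h2 : len G X2 W = m + 1)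
    (h3 : A19Ch G W m k X2 Y) : A19Ch G W m (k + 1) X Y := by
  induction h with
  | refl S => omega
  | one S S' hw => exact A19Ch.hi _ _ _ _ hw h2 h3
  | step S R S' hw hl _ ih => exact A19Ch.lo _ _ _ _ hw (by omega) (ih (by omega) h2 h3)

theorem a19_red {ι : Type} [Fintype ι] {W : ι → G} {m j : ℕ} {X Y : SimpleGraph V}
    (h : A19Ch G W m j X Y) : ∀ k, j = k + 1 → TLat G X → len G X W ≤ m → len G Y W ≤ m →
    A19Ch G W m k X Y := by
  induction h with
  | nil X => intro k hk; omega
  | lo j X X1 Y hw hl _ ih =>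
    intro k hk hX _ hY
    exact A19Ch.lo _ _ _ _ hw hl (ih k hk (wh_tlat hX hw) hl hY)
  | hi j X X1 Y hw hl hr _ =>
    intro k hk hX hXl hY
    have hjk : j = k := by omega
    subst hjk
    have hX1 := wh_tlat hX hw
    have hws := wh_symm hX.ta hw
    cases hr with
    | nil X => omega
    | lo j X1 X2 Y hw2 hl2 hr2 =>
      have h1 := pl W hX1 hws hw2 (by omega) (by omega) (by omega)
      exact a19_low_lo h1 hl hl2 hr2
    | hi j X1 X2 Y hw2 hl2 hr2 =>
      have h1 := pl W hX1 hws hw2 (by omega) (by omega) (by omega)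
      exact a19_low_hi h1 hl hXl hl2 hr2

theorem a19_zero {ι : Type} [Fintype ι] {W : ι → G} {m : ℕ} {X Y : SimpleGraph V} (hX : TLat G X)
    (h1 : len G X W ≤ m) (h2 : len G Y W ≤ m) : ∀ k, A19Ch G W m k X Y → A19Ch G W m 0 X Y := by
  intro k
  induction k with
  | zero => exact id
  | succ k ih => exact fun h => ih (a19_red h k rfl hX h1 h2)

theorem a19_out {ι : Type} [Fintype ι] {W : ι → G} {m j : ℕ} {X Y : SimpleGraph V}
    (h : A19Ch G W m j X Y) : j = 0 → TLat G X → Relation.ReflTransGen (EStep G W m) X Y := by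
  induction h with
  | nil X => intro _ _; exact Relation.ReflTransGen.refl
  | lo j X X1 Y hw hl _ ih =>
    intro hj hX
    exact Relation.ReflTransGen.head ⟨hX, wh_tlat hX hw, hw, hl⟩ (ih hj (wh_tlat hX hw))
  | hi j X X1 Y hw hl hr _ => intro hj; omega

theorem a19_in {ι : Type} [Fintype ι] {W : ι → G} {m : ℕ} {X Y : SimpleGraph V}
    (h : Relation.ReflTransGen (EStep G W (m + 1)) X Y) : ∃ k, A19Ch G W m k X Y := by
  induction h using Relation.ReflTransGen.head_induction_on with
  | refl => exact ⟨0, A19Ch.nil _⟩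
  | @head A B h _ ih =>
    obtain ⟨k, hk⟩ := ih
    rcases Nat.lt_or_ge m (len G B W) with h1 | h1
    · exact ⟨k + 1, A19Ch.hi _ _ _ _ h.2.2.1 (le_antisymm h.2.2.2 h1) hk⟩
    · exact ⟨k, A19Ch.lo _ _ _ _ h.2.2.1 h1 hk⟩

theorem a19_down {ι : Type} [Fintype ι] {W : ι → G} {m : ℕ} {X Y : SimpleGraph V} (hX : TLat G X)
    (h1 : len G X W ≤ m) (h2 : len G Y W ≤ m)
    (h : Relation.ReflTransGen (EStep G W (m + 1)) X Y) :
    Relation.ReflTransGen (EStep G W m) X Y := by
  obtain ⟨k, hk⟩ := a19_in h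
  exact a19_out (a19_zero hX h1 h2 k hk) rfl hX

theorem a19_down_add {ι : Type} [Fintype ι] {W : ι → G} {m : ℕ} {X Y : SimpleGraph V}
    (hX : TLat G X) (h1 : len G X W ≤ m) (h2 : len G Y W ≤ m) (j : ℕ)
    (h : Relation.ReflTransGen (EStep G W (m + j)) X Y) :
    Relation.ReflTransGen (EStep G W m) X Y := by
  induction j with
  | zero => exact h
  | succ j ih => exact ih (a19_down hX (by omega) (by omega) h)

theorem a19_mono {ι : Type} [Fintype ι] {W : ι → G} {m n : ℕ} (hmn : m ≤ n) {X Y : SimpleGraph V}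
    (h : Relation.ReflTransGen (EStep G W m) X Y) : Relation.ReflTransGen (EStep G W n) X Y := by
  induction h with
  | refl => exact Relation.ReflTransGen.refl
  | tail _ h ih =>
    exact Relation.ReflTransGen.tail ih ⟨h.1, h.2.1, h.2.2.1, h.2.2.2.trans hmn⟩

theorem a19_start {ι : Type} [Fintype ι] (W : ι → G) {X Y : SimpleGraph V} (hX : TLat G X)
    (h : Relation.ReflTransGen (Slide G) X Y) :
    TLat G Y ∧ ∃ m, Relation.ReflTransGen (EStep G W m) X Y := by
  induction h with
  | refl => exact ⟨hX, 0, Relation.ReflTransGen.refl⟩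
  | @tail Y Z _ hs ih =>
    obtain ⟨hY, m, hm⟩ := ih
    have hw := slide_wh hY.ta hs
    have hZ := wh_tlat hY hw
    refine ⟨hZ, max m (len G Z W), ?_⟩
    exact Relation.ReflTransGen.tail (a19_mono (le_max_left _ _) hm)
      ⟨hY, hZ, hw, le_max_right _ _⟩

theorem ew {ι : Type} [Fintype ι] (W : ι → G) (M : ℕ) (L : TLat G S) (L' : TLat G S')
    (h : len G S W ≤ M) (h' : len G S' W ≤ M) : Relation.ReflTransGen (EStep G W M) S S' := by
  obtain ⟨_, m, hm⟩ := a19_start W L (tniel L L')
  exact a19_down_add L h h' m (a19_mono (Nat.le_add_left _ _) hm)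

end

end VF
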