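import Pool.Agent.Lib.MP_32d917_al.NDefs

/-!
# Equivariant Whitehead moves on trees with a fixed set of vertices: definitions

`G` acts on the set `V`; we consider trees `S` with the set of vertices `V` on which `G` acts
(`TLat G S`).
-/

set_option autoImplicit false

namespace VF

open LatIso LatN

section

variable (G : Type) [Group G] {V : Type} [MulAction G V]

/-- Whitehead data at the vertex `v`: a set `A` of neighbours of `v` containing `u`, such that the
stabiliser of `A` in the stabiliser of `v` is the stabiliser of `u`, all other translates of `A`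
under the stabiliser of `v` are disjoint from `A`, and no translate of the edge from `u` back to `v`
starts at `v` with direction in `A`. -/
structure WD (S : SimpleGraph V) (v u : V) (A : Set V) : Prop where
  adj : ∀ x ∈ A, S.Adj v x
  mem : u ∈ A
  stab : ∀ g : G, g • v = v → g • u = u → ∀ x ∈ A, g • x ∈ A
  disj : ∀ g : G, g • v = v → ∀ x ∈ A, g • x ∈ A → g • u = u
  inv : ∀ g : G, g • v = u → g⁻¹ • v ∉ A

/-- the end at `x` of the edge `x y` is moved to `z` -/
def Mvd (v u : V) (A : Set V) (x y z : V) : Prop :=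
  ∃ g : G, g • v = x ∧ g⁻¹ • y ∈ A ∧ g⁻¹ • y ≠ u ∧ g • u = z

/-- `z` is the new position of the end at `x` of the edge `x y` -/
def NEnd (v u : V) (A : Set V) (x y z : V) : Prop :=
  Mvd G v u A x y z ∨ ((∀ z', ¬ Mvd G v u A x y z') ∧ z = x)

/-- the graph obtained by the Whitehead move: the ends at `g v` of the edges from `g v` to the elements of
`g A`, different from `g u`, are moved to `g u` -/
def whG (S : SimpleGraph V) (v u : V) (A : Set V) : SimpleGraph V where
  Adj a b := a ≠ b ∧ ∃ x y, S.Adj x y ∧ NEnd G v u A x y a ∧ NEnd G v u A y x b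
  symm := ⟨by
    rintro a b ⟨h, x, y, h1, h2, h3⟩
    exact ⟨h.symm, y, x, h1.symm, h3, h2⟩⟩
  loopless := ⟨fun a h => h.1 rfl⟩

/-- Whitehead moves -/
def WhS (S S' : SimpleGraph V) : Prop := ∃ v u A, WD G S v u A ∧ S' = whG G S v u A

/-- total translation length of a tuple -/
noncomputable def len {ι : Type} [Fintype ι] (S : SimpleGraph V) (W : ι → G) : ℕ :=
  ∑ i, tl S (W i)

/-- a chain of Whitehead moves such that all trees between the first and the last one have total length less
than `m` -/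
inductive Low {ι : Type} [Fintype ι] (W : ι → G) (m : ℕ) : SimpleGraph V → SimpleGraph V → Prop
  | refl (S) : Low W m S S
  | one (S S') : WhS G S S' → Low W m S S'
  | step (S R S') : WhS G S R → len G R W < m → Low W m R S' → Low W m S S'

/-! ### Retractions -/

/-- `V` is a `G`-subset of the set of vertices `U` of the tree `R` (by `φ`), and `r` is an equivariant
retraction with convex fibres -/
structure Retr {U : Type} [MulAction G U] (R : SimpleGraph U) (φ : V → U) (r : U → V) : Prop where
  sec : ∀ v, r (φ v) = v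
  equ : ∀ (g : G) (x : U), r (g • x) = g • r x
  sequ : ∀ (g : G) (v : V), φ (g • v) = g • φ v
  cvx : ∀ x y m, r x = r y → Bt R x m y → r m = r x

end

/-- the quotient of the graph `R` by the map `r` -/
def qG {U V : Type} (R : SimpleGraph U) (r : U → V) : SimpleGraph V where
  Adj a b := a ≠ b ∧ ∃ x y, R.Adj x y ∧ r x = a ∧ r y = b
  symm := ⟨by
    rintro a b ⟨h, x, y, h1, h2, h3⟩
    exact ⟨h.symm, y, x, h1.symm, h3, h2⟩⟩
  loopless := ⟨fun a h => h.1 rfl⟩

section

variable (G : Type) [Group G]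

/-- `b` is the axis of the hyperbolic element `w` -/
def IsAx {U : Type} [MulAction G U] (R : SimpleGraph U) (w : G) (b : ℤ → U) : Prop :=
  0 < tl R w ∧ (∀ i j : ℤ, R.dist (b i) (b j) = (i - j).natAbs) ∧
    ∀ i : ℤ, w • b i = b (i + (tl R w : ℤ))

/-- the edges `x y` and `x' y'` are in the same orbit, up to orientation -/
def EOrb {U : Type} [MulAction G U] (x y x' y' : U) : Prop :=
  ∃ g : G, (g • x = x' ∧ g • y = y') ∨ (g • x = y' ∧ g • y = x')

/-- number of edges in the orbit of the edge `x y` in one period of the axis of `w` (`0` if `w` is elliptic) -/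
noncomputable def ecn {U : Type} [MulAction G U] (R : SimpleGraph U) (x y : U) (w : G) : ℕ := by
  classical
  exact if h : ∃ b : ℤ → U, IsAx G R w b then
    ((Finset.range (tl R w)).filter fun i => EOrb G x y (h.choose i) (h.choose (i + 1))).card else 0

/-- total number of edges in the orbit of `x y` in the axes -/
noncomputable def ecN {U : Type} [MulAction G U] {ι : Type} [Fintype ι] (R : SimpleGraph U) (x y : U)
    (W : ι → G) : ℕ := ∑ i, ecn G R x y (W i)

/-! ### Turns -/

/-- number of translates of `A` by the stabiliser of `v` which contain exactly one of `x`, `y` (if the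
translates are disjoint) -/
noncomputable def dA {V : Type} [MulAction G V] (v : V) (A : Set V) (x y : V) : ℕ := by
  classical
  exact if ∃ h : G, h • v = v ∧ h • x ∈ A ∧ h • y ∈ A then 0 else
    (if ∃ h : G, h • v = v ∧ h • x ∈ A then 1 else 0) +
      (if ∃ h : G, h • v = v ∧ h • y ∈ A then 1 else 0)

/-- sum over a list of turns -/
noncomputable def dS {V : Type} [MulAction G V] (v : V) (A : Set V) (τ : List (V × V)) : ℕ :=
  (τ.map fun t => dA G v A t.1 t.2).sum

/-- expansion data at the vertex `z`: the translates of `A` by elements of the stabiliser of `z` are equal to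
`A` or disjoint from `A` -/
structure ED {U : Type} [MulAction G U] (R : SimpleGraph U) (z : U) (A : Set U) : Prop where
  ne : A.Nonempty
  adj : ∀ x ∈ A, R.Adj z x
  disj : ∀ g : G, g • z = z → ∀ x ∈ A, g • x ∈ A → ∀ y ∈ A, g • y ∈ A

/-- `R'` with the new vertices `G p` is the expansion of `R` given by `z`, `A`; `φ` is the inclusion of the old
vertices, `ρ` the retraction -/
structure Exp {U U' : Type} [MulAction G U] [MulAction G U'] (R : SimpleGraph U) (z : U) (A : Set U)
    (R' : SimpleGraph U') (φ : U → U') (ρ : U' → U) (p : U') : Prop where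
  ta : TA G R'
  retr : Retr G R' φ ρ
  quo : qG R' ρ = R
  rp : ρ p = z
  cov : ∀ x : U', (∃ v, φ v = x) ∨ ∃ g : G, g • p = x
  new : ∀ v, φ v ≠ p
  stab : ∀ g : G, g • p = p ↔ g • z = z ∧ ∀ y ∈ A, g • y ∈ A
  adj : R'.Adj p (φ z)
  /-- the end at `a` of the edge `a b` of `R` -/
  fin : ∀ x y : U', R'.Adj x y → ρ x ≠ ρ y →
    (∃ g : G, g • z = ρ x ∧ g⁻¹ • ρ y ∈ A ∧ x = g • p) ∨
      ((∀ g : G, g • z = ρ x → g⁻¹ • ρ y ∉ A) ∧ x = φ (ρ x))

/-- `R` is a tree with the vertices `φ v`, `g p`, `g q` -/
structure Two {V U : Type} [MulAction G V] [MulAction G U] (R : SimpleGraph U) (φ : V → U)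
    (p q : U) : Prop where
  ta : TA G R
  inj : Function.Injective φ
  equ : ∀ (g : G) (v : V), φ (g • v) = g • φ v
  cov : ∀ x : U, (∃ v, φ v = x) ∨ (∃ g : G, g • p = x) ∨ ∃ g : G, g • q = x
  np : ∀ v, φ v ≠ p
  nq : ∀ v, φ v ≠ q
  npq : ∀ g : G, g • p ≠ q

/-- admissible choice of parents: `x` for `p` and `y` for `q` -/
structure Asg {V U : Type} [MulAction G U] (R : SimpleGraph U) (φ : V → U)
    (p q x y : U) : Prop where
  adjp : R.Adj p x
  adjq : R.Adj q y
  stp : ∀ g : G, g • p = p → g • x = x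
  stq : ∀ g : G, g • q = q → g • y = y
  ac : (∃ v, φ v = x ∧ ((∃ w, φ w = y) ∨ ∃ g : G, g • p = y)) ∨
    (∃ w, φ w = y ∧ ∃ g : G, g • q = x)

/-- the retraction `r` belongs to the choice `x`, `y` of parents -/
structure RAs {V U : Type} [MulAction G V] [MulAction G U] (R : SimpleGraph U) (φ : V → U)
    (p q x y : U) (r : U → V) : Prop where
  retr : Retr G R φ r
  rp : r p = r x
  rq : r q = r y
  col : ∀ a b, R.Adj a b → (r a = r b ↔ EOrb G p x a b ∨ EOrb G q y a b)

/-- double expansion, `A` and `B` are disjoint (or at different vertices): `p` and `q` are adjacent to `φ v`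
and `φ v'` -/
structure DD {V U : Type} [MulAction G V] [MulAction G U] (S : SimpleGraph V) (v u : V) (A : Set V)
    (v' u' : V) (B : Set V) (R : SimpleGraph U) (φ : V → U) (r : U → V) (p q : U) : Prop where
  two : Two G R φ p q
  ras : RAs G R φ p q (φ v) (φ v') r
  adjp : R.Adj p (φ v)
  adjq : R.Adj q (φ v')
  quo : qG R r = S
  stp : ∀ g : G, g • p = p ↔ g • v = v ∧ g • u = u
  stq : ∀ g : G, g • q = q ↔ g • v' = v' ∧ g • u' = u'
  nbp : ∀ d, d ∈ A ↔ ∃ x, R.Adj p x ∧ r x = d ∧ d ≠ v
  nbq : ∀ d, d ∈ B ↔ ∃ x, R.Adj q x ∧ r x = d ∧ d ≠ v'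

/-- double expansion, `A` is contained in `B`: `q` is adjacent to `p` and `φ v` -/
structure DN {V U : Type} [MulAction G V] [MulAction G U] (S : SimpleGraph V) (v u : V) (A : Set V)
    (u' : V) (B : Set V) (R : SimpleGraph U) (φ : V → U) (r : U → V) (p q : U) : Prop where
  two : Two G R φ p q
  ras : RAs G R φ p q q (φ v) r
  adjp : R.Adj p q
  adjq : R.Adj q (φ v)
  quo : qG R r = S
  stp : ∀ g : G, g • p = p ↔ g • v = v ∧ g • u = u
  stq : ∀ g : G, g • q = q ↔ g • v = v ∧ g • u' = u'
  nbp : ∀ d, d ∈ A ↔ ∃ x, R.Adj p x ∧ r x = d ∧ d ≠ v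
  nbq : ∀ d, (d ∈ B ∧ ∀ h : G, h • v = v → h • d ∉ A) ↔ ∃ x, R.Adj q x ∧ r x = d ∧ d ≠ v

/-- `τ` is a list of turns of the axes of `W` at `v` -/
structure Tu {V : Type} [MulAction G V] (S : SimpleGraph V) {ι : Type} [Fintype ι] (W : ι → G)
    (v : V) (τ : List (V × V)) : Prop where
  adj : ∀ t ∈ τ, S.Adj v t.1 ∧ S.Adj v t.2 ∧ t.1 ≠ t.2
  one : ∀ u, S.Adj v u → ecN G S v u W = dS G v {u} τ
  exp : ∀ (U : Type) [MulAction G U] (R : SimpleGraph U) (φ : V → U) (ρ : U → V) (x y : U)
    (A : Set V), TA G R → Retr G R φ ρ → qG R ρ = S → R.Adj x y → ρ x = v → ρ y = v →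
    Bt R x y (φ v) → (∀ a b, R.Adj a b → ρ a = v → ρ b ≠ v → (ρ b ∈ A ↔ Bt R a x y)) →
    (∀ h : G, h • v = v → ∀ d ∈ A, h • d ∈ A → h • x = x) → ecN G R x y W = dS G v A τ

/-! ### Uncrossing -/

/-- elements of `A` no translate of which is in `B` -/
def dfA {V : Type} [MulAction G V] (v : V) (A B : Set V) : Set V :=
  {x | x ∈ A ∧ ∀ h : G, h • v = v → h • x ∉ B}

/-- union of `B` and of the translates of `A` by the stabiliser of `u'` -/
def unA {V : Type} [MulAction G V] (v u' : V) (A B : Set V) : Set V :=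
  {x | x ∈ B ∨ ∃ h : G, h • v = v ∧ h • u' = u' ∧ h • x ∈ A}

/-- `A` without the translates of `B` which are not equal to `B` -/
def foA {V : Type} [MulAction G V] (v u' : V) (A B : Set V) : Set V :=
  {x | x ∈ A ∧ ∀ h : G, h • v = v → h • x ∈ B → h • u' = u'}

/-- `B` without the translates of `A` by elements outside of the stabiliser of `B` -/
def foB {V : Type} [MulAction G V] (v u' : V) (A B : Set V) : Set V :=
  {x | x ∈ B ∧ ∀ h : G, h • v = v → h • x ∈ A → h • u' = u'}

end

end VF
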