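import Pool.Agent.Lib.MP_32d917_al_vf.BDefs
import Pool.Agent.Lib.MP_32d917_al.TL1

/-!
# B01: elementary facts on marked quotients

`q 1 = e`: `q 1 * q 1 = q 1` in the finite group (cancel with `iv`). `D 1 = 0`, `D g⁻¹ = - ep (q g) * D g`.
`pc_conj`: `g c g⁻¹` has `q = e` and fixes all vertices (`V` is not empty), so it is `c ^ k` (`free`); `D (g c g⁻¹) = ep (q g) R`, so
`k = ep (q g)`.
`pc_eq`: `h⁻¹ g` has `q = e` and fixes `v`, so it is `c ^ k`; `D g = D (h c ^ k) = D h + ep (q h) k R`, so `k = 0`.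
`pc_ta`: if `g` exchanges the ends of an edge with label `a` then `aA (q g) a = i a`, against `ni`.
`pc_tlat`: `loc`: labels are injective and `A` is finite; `fin`: `tr`, `onto`, `P` finite; `cinv`: let `C ≤ g⁻¹ C g`... precisely
let `C` be the stabiliser of `(v, x)`; the hypothesis says `C ≤ g C g⁻¹` (stabiliser of `(g v, g x)`), where both groups contain `<c>`
with the same finite index (`C / <c>` embeds into `Q` by `q`: `free`), so they are equal. (E.g. count the sets `q '' C` and `q '' (g C g⁻¹)`,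
which have the same number of elements; if `k` is in the second group there is `k'` in the first one with the same `q`, and
`k'⁻¹ k ∈ <c> ≤ C`.)
`pc_red`: `red` of `Nice`: let `S.Adj v x`, stab `v` ≤ stab `x`, label `a`. If `aP y (o a) = o a`, take `g` with `q g = y`; `g v` has the same
label as `v`, so after multiplication by an element of `ker q` `g v = v`, so `g x = x` and `aA y a = a`.
-/

set_option autoImplicit false

namespace VF

open LatIso LatN AdmIso

section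

variable {E : Type} [Group E] {V : Type} [MulAction E V] {S : SimpleGraph V} {P A Q : Type}
  {X : PD P A Q} {c : E} {q : E → Q} {D : E → ℤ} {p : V → P} {al : V → V → A}

theorem ok_ep (hX : X.Ok) (x : Q) : X.ep x * X.ep x = 1 := by
  rcases hX.ep1 x with h | h <;> rw [h] <;> norm_num

theorem ok_epe (hX : X.Ok) : X.ep X.e = 1 := by
  have h1 := hX.epm X.e X.e
  rw [hX.em, ok_ep hX] at h1
  exact h1

theorem pc_q1 (hX : X.Ok) (h : PC E S X c q D p al) : q 1 = X.e := by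
  have h1 := h.qm 1 1
  rw [mul_one] at h1
  obtain ⟨y, _, hy⟩ := hX.iv (q 1)
  calc q 1 = X.m X.e (q 1) := (hX.em _).symm
    _ = X.m (X.m y (q 1)) (q 1) := by rw [hy]
    _ = X.m y (X.m (q 1) (q 1)) := hX.as _ _ _
    _ = X.m y (q 1) := by rw [← h1]
    _ = X.e := hy

theorem pc_qinv (hX : X.Ok) (h : PC E S X c q D p al) (g : E) :
    X.m (q g) (q g⁻¹) = X.e ∧ X.m (q g⁻¹) (q g) = X.e := by
  constructor
  · rw [← h.qm, mul_inv_cancel, pc_q1 hX h]
  · rw [← h.qm, inv_mul_cancel, pc_q1 hX h]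

theorem pc_D1 (hX : X.Ok) (h : PC E S X c q D p al) : D 1 = 0 := by
  have h1 := h.Dm 1 1
  rw [mul_one, pc_q1 hX h, ok_epe hX, one_mul] at h1
  omega

theorem pc_Dinv (hX : X.Ok) (h : PC E S X c q D p al) (g : E) : D g⁻¹ = - (X.ep (q g) * D g) := by
  have h1 := h.Dm g g⁻¹
  rw [mul_inv_cancel, pc_D1 hX h] at h1
  rcases hX.ep1 (q g) with h2 | h2 <;> rw [h2] at h1 ⊢ <;> linarith

theorem pc_cz (hX : X.Ok) (h : PC E S X c q D p al) (k : ℤ) :
    q (c ^ k) = X.e ∧ D (c ^ k) = k * X.R ∧ ∀ v : V, (c ^ k) • v = v := by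
  have hq : q c⁻¹ = X.e := by
    have h1 := (pc_qinv hX h c).1
    rwa [h.qc, hX.em] at h1
  have hD : D c⁻¹ = - X.R := by
    rw [pc_Dinv hX h, h.qc, ok_epe hX, h.Dc, one_mul]
  have hv : ∀ v : V, c⁻¹ • v = v := fun v => by
    rw [inv_smul_eq_iff, h.cf]
  induction k using Int.induction_on with
  | zero =>
    rw [zpow_zero]
    refine ⟨pc_q1 hX h, ?_, fun v => one_smul _ v⟩
    rw [pc_D1 hX h, zero_mul]
  | succ k ih =>
    obtain ⟨i1, i2, i3⟩ := ih
    rw [zpow_add_one]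
    refine ⟨?_, ?_, fun v => ?_⟩
    · rw [h.qm, i1, h.qc, hX.em]
    · rw [h.Dm, i1, i2, h.Dc, ok_epe hX, one_mul, add_mul, one_mul]
    · rw [mul_smul, h.cf, i3]
  | pred k ih =>
    obtain ⟨i1, i2, i3⟩ := ih
    rw [zpow_sub_one]
    refine ⟨?_, ?_, fun v => ?_⟩
    · rw [h.qm, i1, hq, hX.em]
    · rw [h.Dm, i1, i2, hD, ok_epe hX]
      ring
    · rw [mul_smul, hv, i3]

theorem pc_inf (hX : X.Ok) (h : PC E S X c q D p al) (k : ℤ) (hk : c ^ k = 1) : k = 0 := by
  have h1 := (pc_cz hX h k).2.1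
  rw [hk, pc_D1 hX h] at h1
  rcases mul_eq_zero.1 h1.symm with h2 | h2
  · exact h2
  · exact absurd h2 hX.R0.ne'

theorem pc_conj (hX : X.Ok) (h : PC E S X c q D p al) (g : E) :
    g * c * g⁻¹ = c ^ X.ep (q g) := by
  obtain ⟨v⟩ := h.tree.connected.nonempty
  have h1 : q (g * c) = q g := by rw [h.qm, h.qc, hX.me]
  have h2 : q (g * c * g⁻¹) = X.e := by
    rw [h.qm, h1]
    exact (pc_qinv hX h g).1
  have h3 : (g * c * g⁻¹) • v = v := by
    rw [mul_smul, mul_smul, h.cf, smul_inv_smul]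
  obtain ⟨k, hk⟩ := h.free _ v h2 h3
  have h4 : D (g * c * g⁻¹) = X.ep (q g) * X.R := by
    rw [h.Dm, h1, h.Dm, h.Dc, pc_Dinv hX h]
    have := ok_ep hX (q g)
    linear_combination (-D g) * this
  rw [hk, (pc_cz hX h k).2.1] at h4
  have h5 : k = X.ep (q g) := mul_right_cancel₀ hX.R0.ne' h4
  rw [hk, h5]

/-- `free` in the form which is used most -/
theorem pc_eqc (hX : X.Ok) (h : PC E S X c q D p al) {g k : E} {v : V} (h1 : q g = q k)
    (h2 : g • v = k • v) : ∃ j : ℤ, g = k * c ^ j := by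
  obtain ⟨j, hj⟩ := h.free (k⁻¹ * g) v (by rw [h.qm, h1]; exact (pc_qinv hX h k).2)
    (by rw [mul_smul, h2, inv_smul_smul])
  exact ⟨j, by rw [← hj, mul_inv_cancel_left]⟩

theorem pc_eq (hX : X.Ok) (h : PC E S X c q D p al) {g k : E} {v : V} (h1 : q g = q k)
    (h2 : g • v = k • v) (h3 : D g = D k) : g = k := by
  obtain ⟨j, hj⟩ := pc_eqc hX h h1 h2
  have h4 : X.ep (q k) * (j * X.R) = 0 := by
    rw [hj, h.Dm, (pc_cz hX h j).2.1] at h3
    omega
  have h5 : j = 0 := by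
    have h6 := hX.R0.ne'
    rcases hX.ep1 (q k) with h7 | h7 <;> rw [h7] at h4
    · rw [one_mul] at h4
      exact (mul_eq_zero.1 h4).resolve_right h6
    · rw [neg_one_mul, neg_eq_zero] at h4
      exact (mul_eq_zero.1 h4).resolve_right h6
  rw [hj, h5, zpow_zero, mul_one]

theorem pc_ta (hX : X.Ok) (h : PC E S X c q D p al) : TA E S where
  tree := h.tree
  adj := h.adj
  noinv := by
    intro g x y hxy h1 h2
    have h3 := h.alq g x y hxy
    rw [h1, h2, h.ali x y hxy] at h3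
    exact hX.ni _ _ h3.symm

theorem pc_tlat [Finite P] [Finite A] [Finite Q] (hX : X.Ok) (h : PC E S X c q D p al) :
    TLat E S where
  ta := pc_ta hX h
  loc := by
    intro v
    refine Set.Finite.of_finite_image (f := fun w => al v w) (Set.toFinite _) ?_
    intro w hw w' hw' he
    exact h.inj v w w' hw hw' he
  fin := by
    choose f hf using h.onto
    refine ⟨(Set.finite_range f).toFinset, fun v => ?_⟩
    obtain ⟨g, _, hg⟩ := h.tr v (f (p v)) (hf (p v)).symm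
    refine ⟨g, ?_⟩
    rw [hg, Set.Finite.mem_toFinset]
    exact ⟨p v, rfl⟩
  cinv := by
    intro v x g hC k hk1 hk2
    set C : Set E := {k | k • v = v ∧ k • x = x} with hCd
    set C' : Set E := {k | k • g • v = g • v ∧ k • g • x = g • x} with hCd'
    have hsub : q '' C ⊆ q '' C' := Set.image_mono fun k hk => hC k hk.1 hk.2
    have hsub2 : q '' C' ⊆ (fun y => X.m (X.m (q g) y) (q g⁻¹)) '' (q '' C) := by
      rintro _ ⟨k, hk, rfl⟩
      refine ⟨q (g⁻¹ * k * g), ⟨g⁻¹ * k * g, ⟨?_, ?_⟩, rfl⟩, ?_⟩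
      · rw [mul_smul, mul_smul, hk.1, inv_smul_smul]
      · rw [mul_smul, mul_smul, hk.2, inv_smul_smul]
      · show X.m (X.m (q g) (q (g⁻¹ * k * g))) (q g⁻¹) = q k
        rw [← h.qm, ← h.qm]
        congr 1
        group
    have hle : (q '' C').ncard ≤ (q '' C).ncard :=
      (Set.ncard_le_ncard hsub2 (Set.toFinite _)).trans (Set.ncard_image_le (Set.toFinite _))
    have heq := Set.eq_of_subset_of_ncard_le hsub hle (Set.toFinite _)
    have hkm : q k ∈ q '' C := by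
      rw [heq]
      exact ⟨k, ⟨hk1, hk2⟩, rfl⟩
    obtain ⟨k', hk', hq⟩ := hkm
    have hk'2 := hC k' hk'.1 hk'.2
    obtain ⟨j, hj⟩ := pc_eqc hX h (g := k) (k := k') (v := g • v) hq.symm (by
      rw [hk1, hk'2.1])
    have hcj := (pc_cz hX h j).2.2
    rw [hj]
    exact ⟨by rw [mul_smul, hcj, hk'.1], by rw [mul_smul, hcj, hk'.2]⟩

theorem pc_leafless (hN : X.Nice) (h : PC E S X c q D p al) : Leafless S where
  two := by
    intro v
    obtain ⟨a, a', hne, h1, h2⟩ := hN.two (p v)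
    obtain ⟨w, hw, hw1⟩ := h.sur v a h1
    obtain ⟨w', hw', hw1'⟩ := h.sur v a' h2
    refine ⟨w, w', ?_, hw, hw'⟩
    rintro rfl
    exact hne (hw1.symm.trans hw1')
  three := by
    obtain ⟨a, a', a'', h1, h2, h3, e1, e2⟩ := hN.three
    obtain ⟨v, hv⟩ := h.onto (X.o a)
    obtain ⟨w, hw, hw1⟩ := h.sur v a hv.symm
    obtain ⟨w', hw', hw1'⟩ := h.sur v a' (by rw [hv, e1])
    obtain ⟨w'', hw'', hw1''⟩ := h.sur v a'' (by rw [hv, e1, e2])
    refine ⟨v, w, w', w'', ?_, ?_, ?_, hw, hw', hw''⟩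
    · rintro rfl
      exact h1 (hw1.symm.trans hw1')
    · rintro rfl
      exact h2 (hw1'.symm.trans hw1'')
    · rintro rfl
      exact h3 (hw1.symm.trans hw1'')

theorem pc_red (hX : X.Ok) (hN : X.Nice) (h : PC E S X c q D p al) : Red E S := by
  intro v x hvx hst
  have ho : X.o (al v x) = p v := h.po v x hvx
  have ho' : X.o (X.i (al v x)) = p x := by
    rw [← h.ali v x hvx]
    exact h.po x v hvx.symm
  obtain ⟨y, hy⟩ := hN.red (al v x) (by
    intro y hy
    obtain ⟨g, rfl⟩ := h.qs y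
    rw [ho] at hy
    obtain ⟨k, hk, hk2⟩ := h.tr (g • v) v (by rw [h.pq, hy])
    have h1 : (k * g) • v = v := by rw [mul_smul, hk2]
    have h2 := hst _ h1
    have h3 := h.alq (k * g) v x hvx
    rw [h1, h2, h.qm, hk, hX.em] at h3
    exact h3.symm)
  obtain ⟨g, rfl⟩ := h.qs y
  rw [ho, ho'] at hy
  obtain ⟨k, hk, hk2⟩ := h.tr (g • v) x (by rw [h.pq, hy])
  exact ⟨k * g, by rw [mul_smul, hk2]⟩

/-- every element has a positive power in `ker q` -/
theorem pc_pow [Finite Q] (hX : X.Ok) (h : PC E S X c q D p al) (g : E) :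
    ∃ k : ℕ, 0 < k ∧ q (g ^ k) = X.e := by
  obtain ⟨i, j, hij, he⟩ : ∃ i j : ℕ, i < j ∧ q (g ^ i) = q (g ^ j) := by
    obtain ⟨i, j, hne, he⟩ := Finite.exists_ne_map_eq_of_infinite (fun n : ℕ => q (g ^ n))
    rcases lt_or_gt_of_ne hne with h1 | h1
    · exact ⟨i, j, h1, he⟩
    · exact ⟨j, i, h1, he.symm⟩
  refine ⟨j - i, Nat.sub_pos_of_lt hij, ?_⟩
  have h1 : g ^ j = g ^ i * g ^ (j - i) := by
    rw [← pow_add, Nat.add_sub_cancel' hij.le]
  rw [h1, h.qm] at he
  obtain ⟨y, _, hy⟩ := hX.iv (q (g ^ i))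
  calc q (g ^ (j - i)) = X.m (X.m y (q (g ^ i))) (q (g ^ (j - i))) := by rw [hy, hX.em]
    _ = X.m y (X.m (q (g ^ i)) (q (g ^ (j - i)))) := hX.as _ _ _
    _ = X.e := by rw [← he, hy]

end

end VF
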