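import Pool.Agent.Lib.MP_32d917_al_vf.B01
import Pool.Agent.Lib.MP_32d917_al.TTL

/-!
# B02: unique lifting, strict isomorphisms

`lift_exists`: a map `ψ : V → V'` twisted by `x` with `ψ v = v'`: along the geodesic from `v` (or: by induction on the distance from
`v`): `ψ b` for a neighbour `b` of `a` further from `v` is the neighbour of `ψ a` with label `aA x (al a b)` (`sur`, `inj`). Compare
`NUNIQ_half` in N/NUNIQ. `lift_uniq`: connectedness, `inj`. The inverse: the same for `y` with `x y = e`.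

`pc_strict`: let `ψ` be the lift with `ψ v = v'`, `x = e`. For `g : E` choose `g'` with `q' g' = q g` (`qs`); the vertices `ψ (g v)` and `g' v'`
have the same label `aP (q g) (p v)`, so `g'' g' v' = ψ (g v)` for some `g''` with `q' g'' = e` (`tr`); `D' (g'' g')` and `D g` are congruent
modulo `R` (`De`), so after multiplication by a power of `c'` there is `f g` with `f g • v' = ψ (g v)`, `q' (f g) = q g`, `D' (f g) = D g`,
unique by `pc_eq`. `f g • ψ a = ψ (g • a)` for all `a` by `lift_uniq` (both sides are lifts of labels twisted by `q g`). `f` is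
multiplicative by `pc_eq`; inverse: the same construction for `ψ⁻¹`. `f c = c'` by `pc_eq`.
-/

set_option autoImplicit false

namespace VF

open LatIso LatN AdmIso

section

variable {E : Type} [Group E] {V : Type} [MulAction E V] {S : SimpleGraph V} {P A Q : Type}
  {X : PD P A Q} {c : E} {q : E → Q} {D : E → ℤ} {p : V → P} {al : V → V → A}
  {E' : Type} [Group E'] {V' : Type} [MulAction E' V'] {S' : SimpleGraph V'} {c' : E'} {q' : E' → Q}
  {D' : E' → ℤ} {p' : V' → P} {al' : V' → V' → A}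

theorem B02_half (hX : X.Ok) (h : PC E S X c q D p al) (h' : PC E' S' X c' q' D' p' al')
    (x : Q) (v : V) (v' : V') (hv : p' v' = X.aP x (p v)) :
    ∃ ψ : V → V', ψ v = v' ∧ (∀ a, p' (ψ a) = X.aP x (p a)) ∧
      ∀ a b, S.Adj a b → S'.Adj (ψ a) (ψ b) ∧ al' (ψ a) (ψ b) = X.aA x (al a b) := by
  classical
  let ph : V → V → V' → V' := fun a b y =>
    if hh : ∃ z, S'.Adj y z ∧ al' y z = X.aA x (al a b) then hh.choose else y
  have phs : ∀ a b y, S.Adj a b → p' y = X.aP x (p a) →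
      S'.Adj y (ph a b y) ∧ al' y (ph a b y) = X.aA x (al a b) := by
    intro a b y hab hy
    have hh : ∃ z, S'.Adj y z ∧ al' y z = X.aA x (al a b) :=
      h'.sur y _ (by rw [hX.oA, h.po a b hab, hy])
    have h1 : ph a b y = hh.choose := by
      simp only [ph, dif_pos hh]
    rw [h1]
    exact hh.choose_spec
  have hQ : ∀ a b y, S.Adj a b → p' y = X.aP x (p a) → p' (ph a b y) = X.aP x (p b) := by
    intro a b y hab hy
    obtain ⟨h1, h2⟩ := phs a b y hab hy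
    have h3 := h'.po _ _ h1.symm
    rw [← h3, h'.ali _ _ h1, h2, hX.iA, hX.oA, ← h.ali _ _ hab, h.po _ _ hab.symm]
  obtain ⟨f, hf0, hf1, hf2⟩ := ttl h.tree (fun a y => p' y = X.aP x (p a)) ph hQ
    (fun a b y hab hy => by
      obtain ⟨h1, h2⟩ := phs a b y hab hy
      obtain ⟨h3, h4⟩ := phs b a (ph a b y) hab.symm (hQ a b y hab hy)
      refine h'.inj _ _ _ h3 h1.symm ?_
      rw [h4, h'.ali _ _ h1, h2, hX.iA, ← h.ali _ _ hab]) v v' hv
  refine ⟨f, hf0, hf1, fun a b hab => ?_⟩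
  rw [hf2 a b hab]
  exact phs a b (f a) hab (hf1 a)

theorem lift_uniq (h : PC E S X c q D p al) (h' : PC E' S' X c' q' D' p' al')
    (x : Q) (ψ φ : V → V') (v : V) (hv : ψ v = φ v)
    (h1 : ∀ a b, S.Adj a b → S'.Adj (ψ a) (ψ b) ∧ al' (ψ a) (ψ b) = X.aA x (al a b))
    (h2 : ∀ a b, S.Adj a b → S'.Adj (φ a) (φ b) ∧ al' (φ a) (φ b) = X.aA x (al a b)) (a : V) :
    ψ a = φ a := by
  refine ttl_ind h.tree.connected (fun a => ψ a = φ a) v hv ?_ a
  intro a b hab ha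
  obtain ⟨h3, h4⟩ := h1 a b hab
  obtain ⟨h5, h6⟩ := h2 a b hab
  rw [← ha] at h5 h6
  exact h'.inj _ _ _ h3 h5 (by rw [h4, h6])

theorem lift_exists (hX : X.Ok) (h : PC E S X c q D p al) (h' : PC E' S' X c' q' D' p' al')
    (x : Q) (v : V) (v' : V') (hv : p' v' = X.aP x (p v)) :
    ∃ ψ : V ≃ V', ψ v = v' ∧ (∀ a b, S.Adj a b ↔ S'.Adj (ψ a) (ψ b)) ∧
      (∀ a, p' (ψ a) = X.aP x (p a)) ∧ ∀ a b, S.Adj a b → al' (ψ a) (ψ b) = X.aA x (al a b) := by
  obtain ⟨y, hxy, hyx⟩ := hX.iv x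
  obtain ⟨ψ, a1, a2, a3⟩ := B02_half hX h h' x v v' hv
  obtain ⟨φ, b1, b2, b3⟩ := B02_half hX h' h y v' v (by
    rw [hv, ← hX.aPm, hyx, hX.aPe])
  have e1 : ∀ a, φ (ψ a) = a := by
    intro a
    refine lift_uniq h h X.e (fun a => φ (ψ a)) (fun a => a) v (by simp [a1, b1]) ?_ ?_ a
    · intro a b hab
      obtain ⟨c1, c2⟩ := a3 a b hab
      obtain ⟨c3, c4⟩ := b3 _ _ c1
      exact ⟨c3, by rw [c4, c2, ← hX.aAm, hyx]⟩
    · intro a b hab
      exact ⟨hab, by rw [hX.aAe]⟩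
  have e2 : ∀ a, ψ (φ a) = a := by
    intro a
    refine lift_uniq h' h' X.e (fun a => ψ (φ a)) (fun a => a) v' (by simp [a1, b1]) ?_ ?_ a
    · intro a b hab
      obtain ⟨c1, c2⟩ := b3 a b hab
      obtain ⟨c3, c4⟩ := a3 _ _ c1
      exact ⟨c3, by rw [c4, c2, ← hX.aAm, hxy]⟩
    · intro a b hab
      exact ⟨hab, by rw [hX.aAe]⟩
  refine ⟨⟨ψ, φ, e1, e2⟩, a1, fun a b => ⟨fun hab => (a3 a b hab).1, fun hab => ?_⟩, a2,
    fun a b hab => (a3 a b hab).2⟩
  have h3 := (b3 _ _ hab).1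
  simp only [Equiv.coe_fn_mk] at h3
  rwa [e1, e1] at h3

theorem B02_strict (hX : X.Ok) (h : PC E S X c q D p al) (h' : PC E' S' X c' q' D' p' al')
    (v : V) (v' : V') (ψ : V → V') (hp : ∀ a, p' (ψ a) = p a) (hv : ψ v = v') (g : E) :
    ∃ f : E', q' f = q g ∧ D' f = D g ∧ f • v' = ψ (g • v) := by
  obtain ⟨g', hg'⟩ := h'.qs (q g)
  obtain ⟨g'', h1, h2⟩ := h'.tr (g' • v') (ψ (g • v)) (by
    rw [h'.pq, hg', hp, h.pq, ← hv, hp])
  have hq : q' (g'' * g') = q g := by rw [h'.qm, h1, hX.em, hg']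
  have hd1 := h'.De (g'' * g')
  have hd2 := h.De g
  rw [hq] at hd1
  have hd3 : X.R ∣ D g - D' (g'' * g') := by
    have := dvd_sub hd2 hd1
    rwa [sub_sub_sub_cancel_right] at this
  obtain ⟨j, hj⟩ := hd3
  obtain ⟨z1, z2, z3⟩ := pc_cz hX h' (X.ep (q g) * j)
  refine ⟨g'' * g' * c' ^ (X.ep (q g) * j), ?_, ?_, ?_⟩
  · rw [h'.qm, z1, hX.me, hq]
  · rw [h'.Dm, z2, hq]
    have h3 := ok_ep hX (q g)
    have h4 : X.ep (q g) * (X.ep (q g) * j * X.R) = (X.ep (q g) * X.ep (q g)) * (X.R * j) := by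
      ring
    rw [h4, h3, one_mul, ← hj]
    ring
  · rw [mul_smul, z3, mul_smul, h2]

theorem pc_strict (hX : X.Ok) (h : PC E S X c q D p al) (h' : PC E' S' X c' q' D' p' al')
    (v : V) (v' : V') (hv : p' v' = p v) :
    ∃ (f : E ≃* E') (ψ : V ≃ V'), ψ v = v' ∧ (∀ a b, S.Adj a b ↔ S'.Adj (ψ a) (ψ b)) ∧
      (∀ a, p' (ψ a) = p a) ∧ (∀ a b, S.Adj a b → al' (ψ a) (ψ b) = al a b) ∧
      (∀ g a, ψ (g • a) = f g • ψ a) ∧ (∀ g, q' (f g) = q g) ∧ (∀ g, D' (f g) = D g) ∧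
      f c = c' := by
  obtain ⟨ψ, p1, p2, p3, p4⟩ := lift_exists hX h h' X.e v v' (by rw [hX.aPe, hv])
  have p3' : ∀ a, p' (ψ a) = p a := fun a => by rw [p3, hX.aPe]
  have p4' : ∀ a b, S.Adj a b → al' (ψ a) (ψ b) = al a b := fun a b hab => by
    rw [p4 a b hab, hX.aAe]
  have s3 : ∀ a, p (ψ.symm a) = p' a := fun a => by
    rw [← p3', Equiv.apply_symm_apply]
  have s1 : ψ.symm v' = v := by rw [← p1, Equiv.symm_apply_apply]
  choose F F1 F2 F3 using B02_strict hX h h' v v' ψ p3' p1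
  choose F' G1 G2 G3 using B02_strict hX h' h v' v ψ.symm s3 s1
  have hFF : ∀ g, F' (F g) = g := by
    intro g
    refine pc_eq hX h (v := v) (by rw [G1, F1]) ?_ (by rw [G2, F2])
    rw [G3, F3, Equiv.symm_apply_apply]
  have hFF' : ∀ g, F (F' g) = g := by
    intro g
    refine pc_eq hX h' (v := v') (by rw [F1, G1]) ?_ (by rw [F2, G2])
    rw [F3, G3, Equiv.apply_symm_apply]
  have heq : ∀ g a, ψ (g • a) = F g • ψ a := by
    intro g a
    refine lift_uniq h h' (q g) (fun a => ψ (g • a)) (fun a => F g • ψ a) v ?_ ?_ ?_ a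
    · simp only [p1, F3]
    · intro a b hab
      have h1 := h.adj g a b hab
      exact ⟨(p2 _ _).1 h1, by rw [p4' _ _ h1, h.alq g a b hab]⟩
    · intro a b hab
      have h1 := (p2 _ _).1 hab
      exact ⟨h'.adj _ _ _ h1, by rw [h'.alq _ _ _ h1, F1, p4' a b hab]⟩
  have hmul : ∀ g k, F (g * k) = F g * F k := by
    intro g k
    refine pc_eq hX h' (v := v') ?_ ?_ ?_
    · rw [F1, h'.qm, F1, F1, h.qm]
    · rw [F3, mul_smul, mul_smul, F3, heq]
    · rw [F2, h'.Dm, F2, F2, F1, h.Dm]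
  refine ⟨⟨⟨F, F', hFF, hFF'⟩, hmul⟩, ψ, p1, p2, p3', p4', heq, F1, F2, ?_⟩
  change F c = c'
  refine pc_eq hX h' (v := v') ?_ ?_ ?_
  · rw [F1, h.qc, h'.qc]
  · rw [F3, h.cf, h'.cf, p1]
  · rw [F2, h.Dc, h'.Dc]

end

end VF
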