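import Pool.Agent.Lib.MP_32d917_al_vf.B02
import Pool.Agent.Lib.MP_32d917_al.UC

/-!
# B03: the data are realised

The tree: `uc_exists` for `X.o`, `X.i`, `p0` (`A` is not empty if there is a second point or by `hA`), with `S`, `v0`, `p`, `al`. Every label
class occurs (`onto`): follow the spanning tree `δ`. Twisted lifts exist as in B02 (reprove the construction for label-preserving
twisted maps of this tree to itself; the proofs of B02 only use `tree`, `po`, `ali`, `inj`, `sur`; if convenient state them for these hypotheses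
first). The group `E`: all triples `(φ, x, t)`, `φ` an automorphism of `S` with `p (φ a) = aP x (p a)`, `al (φ a) (φ b) = aA x (al a b)`,
`x : Q`, `t : ℤ` with `R ∣ t - de x`; product `(φ φ', x x', t + ep x * t')`; it is closed by `dem`. (Associativity: `epm`, `as`. Inverse: `iv`,
`(φ⁻¹, y, - ep y * t)`; `R ∣ - ep y * t - de y` by `dem` for `y, x`, `de0`.) `c = (1, e, R)`, `q`, `D` the components. `free`: `x = e`,
`φ v = v` gives `φ = 1` (unique lifting), `t` is a multiple of `R` (`de0`). `tr`: lifts for `x = e`. `qs`: lifts for `x`, from `v0` to some vertex with the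
label `aP x (p v0)`; `t = de x`.
-/

set_option autoImplicit false

namespace VF

open LatIso LatN AdmIso

section

/-- labelled tree -/
structure LT {V P A Q : Type} (S : SimpleGraph V) (X : PD P A Q) (p : V → P) (al : V → V → A) :
    Prop where
  tree : S.IsTree
  po : ∀ v w, S.Adj v w → X.o (al v w) = p v
  ali : ∀ v w, S.Adj v w → al w v = X.i (al v w)
  inj : ∀ v w w', S.Adj v w → S.Adj v w' → al v w = al v w' → w = w'
  sur : ∀ v a, X.o a = p v → ∃ w, S.Adj v w ∧ al v w = a

/-- twisted automorphisms -/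
structure TW {V P A Q : Type} (S : SimpleGraph V) (X : PD P A Q) (p : V → P) (al : V → V → A)
    (x : Q) (φ : V → V) : Prop where
  adj : ∀ a b, S.Adj a b → S.Adj (φ a) (φ b)
  pp : ∀ a, p (φ a) = X.aP x (p a)
  al : ∀ a b, S.Adj a b → al (φ a) (φ b) = X.aA x (al a b)

section

variable {V P A Q : Type} {S : SimpleGraph V} {X : PD P A Q} {p : V → P} {al : V → V → A}

theorem lt_half (hX : X.Ok) (h : LT S X p al) (x : Q) (v v' : V) (hv : p v' = X.aP x (p v)) :
    ∃ ψ : V → V, ψ v = v' ∧ TW S X p al x ψ := by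
  classical
  have hpar : ∀ a, ∃ b, a ≠ v → S.Adj a b ∧ Bt S a b v := by
    intro a
    by_cases hav : a = v
    · exact ⟨a, fun h1 => absurd hav h1⟩
    · obtain ⟨b, hb⟩ := st_next h.tree hav
      exact ⟨b, fun _ => hb⟩
  choose par hpar using hpar
  have hnxt : ∀ (u : V) (d : A), ∃ w, X.o d = p u → S.Adj u w ∧ al u w = d := by
    intro u d
    by_cases hd : X.o d = p u
    · obtain ⟨w, hw⟩ := h.sur u d hd
      exact ⟨w, fun _ => hw⟩
    · exact ⟨u, fun h1 => absurd h1 hd⟩
  choose nxt hnxt using hnxt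
  have hdpar : ∀ a, a ≠ v → S.dist v a = S.dist v (par a) + 1 := by
    intro a ha
    obtain ⟨h1, h2⟩ := hpar a ha
    have e1 := st1_one h1
    unfold Bt at h2
    have c1 : S.dist (par a) v = S.dist v (par a) := SimpleGraph.dist_comm
    have c2 : S.dist a v = S.dist v a := SimpleGraph.dist_comm
    omega
  let f : ℕ → V → V := fun n => Nat.rec (fun _ => v')
    (fun _ g a => if a = v then v' else nxt (g (par a)) (X.aA x (al (par a) a))) n
  let ψ : V → V := fun a => f (S.dist v a) a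
  have hψv : ψ v = v' := by
    show f (S.dist v v) v = v'
    rw [SimpleGraph.dist_self]
    rfl
  have hψ : ∀ a, a ≠ v → ψ a = nxt (ψ (par a)) (X.aA x (al (par a) a)) := by
    intro a ha
    show f (S.dist v a) a = nxt (f (S.dist v (par a)) (par a)) (X.aA x (al (par a) a))
    rw [hdpar a ha]
    show (if a = v then v' else nxt (f (S.dist v (par a)) (par a)) (X.aA x (al (par a) a))) = _
    rw [if_neg ha]
  have key : ∀ n a, S.dist v a = n → p (ψ a) = X.aP x (p a) ∧
      (a ≠ v → S.Adj (ψ (par a)) (ψ a) ∧ al (ψ (par a)) (ψ a) = X.aA x (al (par a) a)) := by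
    intro n
    induction n with
    | zero =>
      intro a ha
      have h1 : v = a := st1_eq h.tree ha
      subst h1
      exact ⟨by rw [hψv, hv], fun h2 => absurd rfl h2⟩
    | succ n ih =>
      intro a ha
      have hav : a ≠ v := by
        rintro rfl
        rw [SimpleGraph.dist_self] at ha
        omega
      have h1 := hdpar a hav
      obtain ⟨h2, -⟩ := ih (par a) (by omega)
      have h3 := (hpar a hav).1
      have h4 : X.o (X.aA x (al (par a) a)) = p (ψ (par a)) := by
        rw [hX.oA, h.po _ _ h3.symm, h2]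
      have h5 := hnxt _ _ h4
      rw [← hψ a hav] at h5
      refine ⟨?_, fun _ => h5⟩
      rw [← h.po _ _ h5.1.symm, h.ali _ _ h5.1, h5.2, hX.iA, ← h.ali _ _ h3.symm, hX.oA,
        h.po _ _ h3]
  have hedge : ∀ a b, S.Adj a b → S.dist v a = S.dist v b + 1 → S.Adj (ψ a) (ψ b) ∧
      al (ψ a) (ψ b) = X.aA x (al a b) := by
    intro a b hab hd
    have hav : a ≠ v := by
      rintro rfl
      rw [SimpleGraph.dist_self] at hd
      omega
    have h1 : par a = b := by
      obtain ⟨h2, h3⟩ := hpar a hav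
      refine st_uniq h.tree h2 hab h3 ?_
      have e1 := st1_one hab
      unfold Bt
      have c1 : S.dist b v = S.dist v b := SimpleGraph.dist_comm
      have c2 : S.dist a v = S.dist v a := SimpleGraph.dist_comm
      omega
    obtain ⟨-, h2⟩ := key _ a rfl
    obtain ⟨h3, h4⟩ := h2 hav
    rw [h1] at h3 h4
    refine ⟨h3.symm, ?_⟩
    rw [h.ali _ _ h3, h4, hX.iA, ← h.ali _ _ hab.symm]
  refine ⟨ψ, hψv, ⟨?_, fun a => (key _ a rfl).1, ?_⟩⟩
  · intro a b hab
    rcases st_adj h.tree hab v with h1 | h1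
    · exact (hedge b a hab.symm h1).1.symm
    · exact (hedge a b hab h1).1
  · intro a b hab
    rcases st_adj h.tree hab v with h1 | h1
    · obtain ⟨h2, h3⟩ := hedge b a hab.symm h1
      rw [h.ali _ _ h2, h3, hX.iA, ← h.ali _ _ hab.symm]
    · exact (hedge a b hab h1).2

theorem lt_uniq (h : LT S X p al) (x : Q) (ψ φ : V → V) (v : V) (hv : ψ v = φ v)
    (h1 : TW S X p al x ψ) (h2 : TW S X p al x φ) (a : V) : ψ a = φ a := by
  obtain ⟨w⟩ := h.tree.connected.preconnected v a
  induction w with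
  | nil => exact hv
  | cons hadj _ ih =>
    apply ih
    apply h.inj (ψ _) _ _ (h1.adj _ _ hadj)
    · rw [hv]
      exact h2.adj _ _ hadj
    · rw [h1.al _ _ hadj]
      rw [hv, h2.al _ _ hadj]

theorem tw_one (hX : X.Ok) : TW S X p al X.e (fun a => a) where
  adj := fun _ _ h => h
  pp := fun a => (hX.aPe _).symm
  al := fun a b _ => (hX.aAe _).symm

theorem tw_comp (hX : X.Ok) {x y : Q} {φ ψ : V → V} (h1 : TW S X p al x φ)
    (h2 : TW S X p al y ψ) : TW S X p al (X.m x y) (fun a => φ (ψ a)) where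
  adj := fun a b h => h1.adj _ _ (h2.adj _ _ h)
  pp := fun a => by rw [h1.pp, h2.pp, hX.aPm]
  al := fun a b h => by rw [h1.al _ _ (h2.adj _ _ h), h2.al _ _ h, hX.aAm]

theorem lt_lift (hX : X.Ok) (h : LT S X p al) (x : Q) (v v' : V) (hv : p v' = X.aP x (p v)) :
    ∃ φ : Equiv.Perm V, φ v = v' ∧ TW S X p al x φ := by
  obtain ⟨y, hy1, hy2⟩ := hX.iv x
  obtain ⟨ψ, hψ1, hψ2⟩ := lt_half hX h x v v' hv
  have hv' : p v = X.aP y (p v') := by rw [hv, ← hX.aPm, hy2, hX.aPe]
  obtain ⟨ψ', hψ1', hψ2'⟩ := lt_half hX h y v' v hv'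
  have e1 : ∀ a, ψ' (ψ a) = a := by
    have h3 := tw_comp hX hψ2' hψ2
    rw [hy2] at h3
    exact lt_uniq h X.e (fun a => ψ' (ψ a)) (fun a => a) v (by rw [hψ1, hψ1']) h3 (tw_one hX)
  have e2 : ∀ a, ψ (ψ' a) = a := by
    have h3 := tw_comp hX hψ2 hψ2'
    rw [hy1] at h3
    exact lt_uniq h X.e (fun a => ψ (ψ' a)) (fun a => a) v' (by rw [hψ1', hψ1]) h3 (tw_one hX)
  exact ⟨⟨ψ, ψ', e1, e2⟩, hψ1, hψ2⟩

theorem tw_inv (hX : X.Ok) (h : LT S X p al) {x y : Q} (hy1 : X.m x y = X.e)
    (hy2 : X.m y x = X.e) {φ : Equiv.Perm V} (h1 : TW S X p al x φ) :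
    TW S X p al y (φ⁻¹ : Equiv.Perm V) := by
  have hne : Nonempty V := h.tree.connected.nonempty
  obtain ⟨v⟩ := hne
  have hv : p v = X.aP y (p (φ v)) := by rw [h1.pp, ← hX.aPm, hy2, hX.aPe]
  obtain ⟨ψ, hψ1, hψ2⟩ := lt_half hX h y (φ v) v hv
  have h3 := tw_comp hX hψ2 h1
  rw [hy2] at h3
  have e1 : ∀ a, ψ (φ a) = a :=
    lt_uniq h X.e (fun a => ψ (φ a)) (fun a => a) v hψ1 h3 (tw_one hX)
  have e2 : ((φ⁻¹ : Equiv.Perm V) : V → V) = ψ := by
    funext a
    have h4 := e1 (φ.symm a)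
    rw [Equiv.apply_symm_apply] at h4
    exact h4.symm
  rw [e2]
  exact hψ2

theorem ok_epe' (hX : X.Ok) : X.ep X.e = 1 := by
  have h1 := hX.epm X.e X.e
  rw [hX.em] at h1
  rcases hX.ep1 X.e with h2 | h2
  · exact h2
  · rw [h2] at h1
    norm_num at h1

variable (S X p al) in
/-- the group of the triples -/
def EG : Type := {g : Equiv.Perm V × Q × ℤ // TW S X p al g.2.1 g.1 ∧ X.R ∣ g.2.2 - X.de g.2.1}

theorem eg_mul_mem (hX : X.Ok) {g k : Equiv.Perm V × Q × ℤ}
    (hg : TW S X p al g.2.1 g.1 ∧ X.R ∣ g.2.2 - X.de g.2.1)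
    (hk : TW S X p al k.2.1 k.1 ∧ X.R ∣ k.2.2 - X.de k.2.1) :
    TW S X p al (X.m g.2.1 k.2.1) ((g.1 * k.1 : Equiv.Perm V) : V → V) ∧
      X.R ∣ (g.2.2 + X.ep g.2.1 * k.2.2) - X.de (X.m g.2.1 k.2.1) := by
  refine ⟨(tw_comp hX hg.1 hk.1 : TW S X p al (X.m g.2.1 k.2.1) (fun a => g.1 (k.1 a))), ?_⟩
  have e1 : (g.2.2 + X.ep g.2.1 * k.2.2) - X.de (X.m g.2.1 k.2.1) =
      (g.2.2 - X.de g.2.1) + X.ep g.2.1 * (k.2.2 - X.de k.2.1) +
        (X.de g.2.1 + X.ep g.2.1 * X.de k.2.1 - X.de (X.m g.2.1 k.2.1)) := by ring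
  rw [e1]
  exact dvd_add (dvd_add hg.2 (Dvd.dvd.mul_left hk.2 _)) (hX.dem _ _)

theorem eg_inv_mem (hX : X.Ok) (h : LT S X p al) {g : Equiv.Perm V × Q × ℤ}
    (hg : TW S X p al g.2.1 g.1 ∧ X.R ∣ g.2.2 - X.de g.2.1) {y : Q}
    (hy1 : X.m g.2.1 y = X.e) (hy2 : X.m y g.2.1 = X.e) :
    TW S X p al y ((g.1⁻¹ : Equiv.Perm V) : V → V) ∧
      X.R ∣ (- (X.ep y * g.2.2)) - X.de y := by
  refine ⟨tw_inv hX h hy1 hy2 hg.1, ?_⟩
  have h2 := hX.dem y g.2.1
  rw [hy2, hX.de0] at h2
  have e1 : (- (X.ep y * g.2.2)) - X.de y =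
      - (X.de y + X.ep y * X.de g.2.1 - 0) - X.ep y * (g.2.2 - X.de g.2.1) := by ring
  rw [e1]
  exact dvd_sub (dvd_neg.mpr h2) (Dvd.dvd.mul_left hg.2 _)

/-- the group structure -/
@[instance_reducible]
noncomputable def egGroup (hX : X.Ok) (h : LT S X p al) : Group (EG S X p al) :=
  letI : Mul (EG S X p al) := ⟨fun g k => ⟨(g.1.1 * k.1.1, X.m g.1.2.1 k.1.2.1,
    g.1.2.2 + X.ep g.1.2.1 * k.1.2.2), eg_mul_mem hX g.2 k.2⟩⟩
  letI : One (EG S X p al) := ⟨⟨(1, X.e, 0), tw_one hX, by rw [hX.de0, sub_zero]; exact dvd_zero _⟩⟩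
  letI : Inv (EG S X p al) := ⟨fun g => ⟨(g.1.1⁻¹, (hX.iv g.1.2.1).choose,
    - (X.ep (hX.iv g.1.2.1).choose * g.1.2.2)),
    eg_inv_mem hX h g.2 (hX.iv g.1.2.1).choose_spec.1 (hX.iv g.1.2.1).choose_spec.2⟩⟩
  Group.ofLeftAxioms
    (by
      intro a b c
      apply Subtype.ext
      apply Prod.ext
      · exact mul_assoc _ _ _
      apply Prod.ext
      · exact hX.as _ _ _
      · show a.1.2.2 + X.ep a.1.2.1 * b.1.2.2 + X.ep (X.m a.1.2.1 b.1.2.1) * c.1.2.2 =
          a.1.2.2 + X.ep a.1.2.1 * (b.1.2.2 + X.ep b.1.2.1 * c.1.2.2)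
        rw [hX.epm]
        ring)
    (by
      intro a
      apply Subtype.ext
      apply Prod.ext
      · exact one_mul _
      apply Prod.ext
      · exact hX.em _
      · show 0 + X.ep X.e * a.1.2.2 = a.1.2.2
        rw [ok_epe' hX]
        ring)
    (by
      intro a
      apply Subtype.ext
      apply Prod.ext
      · exact inv_mul_cancel _
      apply Prod.ext
      · exact (hX.iv a.1.2.1).choose_spec.2
      · show - (X.ep (hX.iv a.1.2.1).choose * a.1.2.2) +
          X.ep (hX.iv a.1.2.1).choose * a.1.2.2 = 0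
        ring)

end

theorem pc_exists {P A Q : Type} [Nonempty A] {X : PD P A Q} (hX : X.Ok) {p0 : P} {δ : P → A}
    {r : P → ℕ} (hs : X.Span p0 δ r) :
    ∃ (E : Type) (_ : Group E) (V : Type) (_ : MulAction E V) (S : SimpleGraph V) (c : E)
      (q : E → Q) (D : E → ℤ) (p : V → P) (al : V → V → A), PC E S X c q D p al := by
  obtain ⟨V, S, v0, p, al, hS, hp0, hpo, hali, hinj, hsur⟩ := uc_exists X.o X.i hX.ii p0
  have h : LT S X p al := ⟨hS, hpo, hali, fun v w w' => hinj v w w', hsur⟩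
  have honto : ∀ b : P, ∃ v, p v = b := by
    have key : ∀ n b, r b = n → ∃ v, p v = b := by
      intro n
      induction n using Nat.strong_induction_on with
      | _ n ih =>
        intro b hb
        by_cases hb0 : b = p0
        · exact ⟨v0, by rw [hp0, hb0]⟩
        · obtain ⟨h1, h2⟩ := hs b hb0
          obtain ⟨v, hv⟩ := ih (r (X.o (δ b))) (by omega) _ rfl
          obtain ⟨w, hw1, hw2⟩ := h.sur v (δ b) hv.symm
          exact ⟨w, by rw [← h.po _ _ hw1.symm, h.ali _ _ hw1, hw2, h1]⟩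
    exact fun b => key _ b rfl
  letI : Group (EG S X p al) := egGroup hX h
  letI act : MulAction (EG S X p al) V :=
    { smul := fun g v => g.1.1 v
      one_smul := fun v => rfl
      mul_smul := fun g k v => rfl }
  let cE : EG S X p al := ⟨(1, X.e, X.R), tw_one hX, by rw [hX.de0, sub_zero]⟩
  let fz : Multiplicative ℤ →* EG S X p al :=
    { toFun := fun k => ⟨(1, X.e, k.toAdd * X.R), tw_one hX, by
        rw [hX.de0, sub_zero]
        exact dvd_mul_left _ _⟩
      map_one' := by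
        apply Subtype.ext
        apply Prod.ext
        · rfl
        apply Prod.ext
        · rfl
        · show (0 : ℤ) * X.R = 0
          ring
      map_mul' := by
        intro a b
        apply Subtype.ext
        apply Prod.ext
        · rfl
        apply Prod.ext
        · exact (hX.em _).symm
        · show (a.toAdd + b.toAdd) * X.R = a.toAdd * X.R + X.ep X.e * (b.toAdd * X.R)
          rw [ok_epe' hX]
          ring }
  have hfz1 : fz (Multiplicative.ofAdd 1) = cE := by
    apply Subtype.ext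
    apply Prod.ext
    · rfl
    apply Prod.ext
    · rfl
    · show (1 : ℤ) * X.R = X.R
      ring
  refine ⟨EG S X p al, inferInstance, V, act, S, cE, fun g => g.1.2.1, fun g => g.1.2.2, p, al, ?_⟩
  exact
    { tree := hS
      adj := fun g x y hxy => g.2.1.adj x y hxy
      qm := fun g k => rfl
      qs := by
        intro x
        obtain ⟨v, hv⟩ := honto (X.aP x (p v0))
        obtain ⟨φ, -, hφ⟩ := lt_lift hX h x v0 v hv
        exact ⟨⟨(φ, x, X.de x), hφ, by rw [sub_self]; exact dvd_zero _⟩, rfl⟩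
      Dm := fun g k => rfl
      De := fun g => g.2.2
      qc := rfl
      Dc := rfl
      cf := fun v => rfl
      free := by
        intro g v hq hv
        obtain ⟨⟨φ, x, t⟩, hg1, hg2⟩ := g
        change x = X.e at hq
        change φ v = v at hv
        subst hq
        have hφ : φ = 1 := by
          apply Equiv.ext
          intro a
          exact lt_uniq h X.e φ (fun a => a) v hv hg1 (tw_one hX) a
        subst hφ
        change X.R ∣ t - X.de X.e at hg2
        rw [hX.de0, sub_zero] at hg2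
        obtain ⟨k, hk⟩ := hg2
        refine ⟨k, ?_⟩
        have h1 : cE ^ k = fz (Multiplicative.ofAdd k) := by
          rw [← hfz1, ← map_zpow]
          congr 1
          rw [← ofAdd_zsmul]
          simp
        rw [h1]
        apply Subtype.ext
        apply Prod.ext
        · rfl
        apply Prod.ext
        · rfl
        · show t = k * X.R
          rw [hk, mul_comm]
      po := hpo
      ali := hali
      inj := fun v w w' => hinj v w w'
      sur := hsur
      pq := fun g v => g.2.1.pp v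
      alq := fun g v w hvw => g.2.1.al v w hvw
      tr := by
        intro v w hvw
        obtain ⟨φ, hφ1, hφ⟩ := lt_lift hX h X.e v w (by rw [hX.aPe, hvw])
        exact ⟨⟨(φ, X.e, 0), hφ, by rw [hX.de0, sub_zero]; exact dvd_zero _⟩, rfl, hφ1⟩
      onto := honto }

end

end VF
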