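import Pool.Agent.Lib.MP_32d917_al_vf.B02

/-!
# B04: presentation

Lifts `t v` of the points along the spanning tree: `t p0` any vertex with label `p0`, `t v` the neighbour of `t (o (δ v))` with label `δ v`
(recursion on the rank). For a dart `a` let `w` be the neighbour of `t (o a)` with label `a`; `p w = o (i a)`, so there is `g` with
`q g = e`, `g • t (o (i a)) = w`; `D g` is divisible by `R`, so by changing it by a power of `c` (`pc_cz`) we may assume `D g = 0`; this is
`ga a`, unique by `pc_eq`. For `x`, `v` there is a unique element `sx x v` with `q = x`, `sx x v • t v = t (aP x v)`, `D = de x`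
(`qs`, `tr`, `De`). The relations hold in `E` by `pc_eq`: `inv`, `tree` (`w = t v` for `a = δ v`), `mul`, `com`, `sc` (`pc_conj`), `act`: both
`s x (o a) * g a` and `g (aA x a) * s x (o (i a))` have `q = x`, `D = de x`, and map `t (o (i a))` to the neighbour of
`t (aP x (o a))` with label `aA x a`. So there is a homomorphism `F : PG X p0 δ →* E`.

`F` is bijective. Surjective: for `g : E` let `a_1, ..., a_n` be the labels of the geodesic from `t p0` to `g • t p0`; then
`ga a_1 * ... * ga a_n` maps `t v` to `g • t p0` with `v = aP (q g) p0` (induction on `n`; general statement: from `t u` to any vertex). So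
`g = ga a_1 ... ga a_n * sx (q g) p0 * c ^ k`.
Injective: every element of `PG` has the form `(g a_1) ... (g a_n) * s x p0 * c ^ k` with a path `a_1, ..., a_n` in the graph from `p0` to
`aP x p0` (`o a_1 = p0`, `o (i a_j) = o a_(j+1)`, `o (i a_n) = aP x p0`): the set of these elements contains `1` (`s e v = 1` by `mul`) and is
closed under left multiplication by the generators and their inverses: for `c` clear (`com`); for `g a`: insert the tree path: from `p0` to
`o a` there is a path of darts `δ`, whose `g` is `1` (`tree`), same from `o (i a)` to `p0`: `g a = g(τ) g a g(τ')⁻¹`, then the closed path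
`τ a τ'⁻¹` at `p0` is put in front; for `s x v`: `s x v = s x p0` up to tree paths: `s x p0 * g(path from p0 to v) = g(image path) * s x v`
by `act`, where the first path is a tree path, so `s x v = g(image path)⁻¹ s x p0`, and `s x p0 * g(path) = g(image path) * s x (end)`, and
`s x (aP y p0) * s y p0 = c ^ k * s (x y) p0` (`mul`). The path may be taken reduced (`a_(j+1) ≠ i a_j`, by `inv`). If such an element is in the kernel of
`F` then `x = e`, and the path lifts to a path without backtracking from `t p0` to itself in the tree, so `n = 0`; and `c ^ k = 1`, `k = 0`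
(`pc_inf`), so the element is `1`.
-/

set_option autoImplicit false

namespace VF

open LatIso LatN AdmIso

section

variable {E : Type} [Group E] {V : Type} [MulAction E V] {S : SimpleGraph V} {P A Q : Type}
  {X : PD P A Q} {c : E} {q : E → Q} {D : E → ℤ} {p : V → P} {al : V → V → A}

theorem b04_p (h : PC E S X c q D p al) {w w' : V} (hw : S.Adj w w') :
    p w' = X.o (X.i (al w w')) := by
  rw [← h.ali w w' hw, h.po w' w hw.symm]

theorem b04_lift (hX : X.Ok) (h : PC E S X c q D p al) (x : Q) (w w' : V) (d : ℤ)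
    (hp : p w' = X.aP x (p w)) (hd : X.R ∣ d - X.de x) : ∃ g : E, q g = x ∧ D g = d ∧ g • w = w' := by
  obtain ⟨g0, hg0⟩ := h.qs x
  have h1 : p (g0 • w) = p w' := by rw [h.pq, hg0, hp]
  obtain ⟨g1, hg1, hg1'⟩ := h.tr _ _ h1
  have hq : q (g1 * g0) = x := by rw [h.qm, hg1, hg0, hX.em]
  have h2 := h.De (g1 * g0)
  rw [hq] at h2
  obtain ⟨k, hk⟩ : X.R ∣ D (g1 * g0) - d := by
    have := dvd_sub h2 hd
    have e : D (g1 * g0) - X.de x - (d - X.de x) = D (g1 * g0) - d := by ring
    rwa [e] at this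
  obtain ⟨c1, c2, c3⟩ := pc_cz hX h (-(X.ep x * k))
  refine ⟨g1 * g0 * c ^ (-(X.ep x * k)), ?_, ?_, ?_⟩
  · rw [h.qm, hq, c1, hX.me]
  · rw [h.Dm, hq, c2]
    linear_combination hk - X.R * k * ok_ep hX x
  · rw [mul_smul, c3, mul_smul, hg1']

theorem b04_t (h : PC E S X c q D p al) {p0 : P} {δ : P → A} {r : P → ℕ}
    (hs : X.Span p0 δ r) : ∃ t : P → V, (∀ v, p (t v) = v) ∧
      ∀ v, v ≠ p0 → S.Adj (t (X.o (δ v))) (t v) ∧ al (t (X.o (δ v))) (t v) = δ v := by
  classical
  obtain ⟨v0, hv0⟩ := h.onto p0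
  have hnb : ∀ (w : V) (a : A), ∃ w' : V, X.o a = p w → S.Adj w w' ∧ al w w' = a := by
    intro w a
    by_cases ha : X.o a = p w
    · obtain ⟨w', h1, h2⟩ := h.sur w a ha
      exact ⟨w', fun _ => ⟨h1, h2⟩⟩
    · exact ⟨w, fun h' => absurd h' ha⟩
  choose nb hnb using hnb
  let wf := (measure r).wf
  let T : P → V := wf.fix (fun v ih =>
    if hv : v = p0 then v0 else nb (ih (X.o (δ v)) (hs v hv).2) (δ v))
  have hT : ∀ v, T v = if v = p0 then v0 else nb (T (X.o (δ v))) (δ v) := by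
    intro v
    have := wf.fix_eq (fun v ih =>
      if hv : v = p0 then v0 else nb (ih (X.o (δ v)) (hs v hv).2) (δ v)) v
    simp only [dite_eq_ite] at this
    exact this
  have hpT : ∀ n v, r v < n → p (T v) = v := by
    intro n
    induction n with
    | zero => intro v hv; exact absurd hv (Nat.not_lt_zero _)
    | succ n ih =>
      intro v hv
      rw [hT]
      by_cases hv0' : v = p0
      · rw [if_pos hv0', hv0, hv0']
      · rw [if_neg hv0']
        obtain ⟨s1, s2⟩ := hs v hv0'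
        have h1 := ih (X.o (δ v)) (by omega)
        obtain ⟨n1, n2⟩ := hnb (T (X.o (δ v))) (δ v) h1.symm
        rw [b04_p h n1, n2, s1]
  refine ⟨T, fun v => hpT (r v + 1) v (Nat.lt_succ_self _), ?_⟩
  intro v hv
  have e : T v = nb (T (X.o (δ v))) (δ v) := by rw [hT v, if_neg hv]
  rw [e]
  exact hnb _ _ (hpT (r (X.o (δ v)) + 1) _ (Nat.lt_succ_self _)).symm

theorem b04_conn (hS : S.IsTree) (Pr : V → Prop) (v0 : V) (h0 : Pr v0)
    (hst : ∀ w w', S.Adj w w' → Pr w → Pr w') (w : V) : Pr w := by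
  obtain ⟨W⟩ := hS.connected v0 w
  induction W with
  | nil => exact h0
  | cons hadj _ ih => exact ih (hst _ _ hadj h0)

theorem b04_pot (hS : S.IsTree) {H : Type} [Group H] (f : V → V → H)
    (hf : ∀ w w', S.Adj w w' → f w w' * f w' w = 1) (v0 : V) :
    ∃ η : V → H, η v0 = 1 ∧ ∀ w w', S.Adj w w' → η w' = η w * f w w' := by
  classical
  have hpar : ∀ w, ∃ n, w ≠ v0 → S.Adj w n ∧ Bt S w n v0 := by
    intro w
    by_cases hw : w = v0
    · exact ⟨w, fun h => absurd hw h⟩
    · obtain ⟨n, h1, h2⟩ := st_next hS hw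
      exact ⟨n, fun _ => ⟨h1, h2⟩⟩
  choose par hpar using hpar
  have hdist : ∀ w, w ≠ v0 → S.dist v0 (par w) < S.dist v0 w := by
    intro w hw
    obtain ⟨h1, h2⟩ := hpar w hw
    unfold Bt at h2
    rw [st1_one h1, SimpleGraph.dist_comm (u := par w), SimpleGraph.dist_comm (u := w)] at h2
    omega
  let wf := (measure (fun w : V => S.dist v0 w)).wf
  let η : V → H := wf.fix (fun w ih =>
    if hw : w = v0 then 1 else ih (par w) (hdist w hw) * f (par w) w)
  have hη : ∀ w, η w = if w = v0 then 1 else η (par w) * f (par w) w := by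
    intro w
    have := wf.fix_eq (fun w ih =>
      if hw : w = v0 then (1 : H) else ih (par w) (hdist w hw) * f (par w) w) w
    simp only [dite_eq_ite] at this
    exact this
  have key : ∀ w w', S.Adj w w' → S.dist v0 w' = S.dist v0 w + 1 → η w' = η w * f w w' := by
    intro w w' hw hd
    have hne : w' ≠ v0 := by
      rintro rfl
      rw [SimpleGraph.dist_self] at hd
      omega
    obtain ⟨h1, h2⟩ := hpar w' hne
    have h3 : Bt S w' w v0 := by
      unfold Bt
      rw [st1_one hw.symm, SimpleGraph.dist_comm (u := w), SimpleGraph.dist_comm (u := w'), hd]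
      omega
    have h4 : par w' = w := st_uniq hS h1 hw.symm h2 h3
    rw [hη w', if_neg hne, h4]
  refine ⟨η, ?_, ?_⟩
  · rw [hη, if_pos rfl]
  · intro w w' hw
    rcases st_adj hS hw v0 with h1 | h1
    · exact key w w' hw h1
    · rw [key w' w hw.symm h1, mul_assoc, hf w' w hw.symm, mul_one]

/-! ### Relations -/

theorem b04_rinv (p0 : P) (δ : P → A) (a : A) :
    PG.g X p0 δ a * PG.g X p0 δ (X.i a) = 1 := by
  have := PresentedGroup.one_of_mem (rels := {r | PRel X p0 δ r}) (PRel.inv a)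
  simp only [map_mul] at this
  exact this

theorem b04_rtree (p0 : P) (δ : P → A) (v : P) (hv : v ≠ p0) : PG.g X p0 δ (δ v) = 1 :=
  PresentedGroup.one_of_mem (rels := {r | PRel X p0 δ r}) (PRel.tree v hv)

theorem b04_rmul (p0 : P) (δ : P → A) (x y : Q) (v : P) :
    PG.s X p0 δ x (X.aP y v) * PG.s X p0 δ y v =
      PG.c X p0 δ ^ ((X.de x + X.ep x * X.de y - X.de (X.m x y)) / X.R) *
        PG.s X p0 δ (X.m x y) v := by
  have := PresentedGroup.one_of_mem (rels := {r | PRel X p0 δ r}) (PRel.mul x y v)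
  simp only [map_mul, map_inv, map_zpow] at this
  change PG.s X p0 δ x (X.aP y v) * PG.s X p0 δ y v * (PG.s X p0 δ (X.m x y) v)⁻¹ *
    (PG.c X p0 δ ^ ((X.de x + X.ep x * X.de y - X.de (X.m x y)) / X.R))⁻¹ = 1 at this
  rw [mul_inv_eq_one] at this
  rw [← this]
  group

theorem b04_rcom (p0 : P) (δ : P → A) (a : A) :
    PG.c X p0 δ * PG.g X p0 δ a = PG.g X p0 δ a * PG.c X p0 δ := by
  have := PresentedGroup.one_of_mem (rels := {r | PRel X p0 δ r}) (PRel.com a)
  simp only [map_mul, map_inv, map_zpow] at this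
  change PG.c X p0 δ * PG.g X p0 δ a * (PG.c X p0 δ)⁻¹ * (PG.g X p0 δ a)⁻¹ = 1 at this
  rw [mul_inv_eq_one, mul_inv_eq_iff_eq_mul] at this
  exact this

theorem b04_rsc (p0 : P) (δ : P → A) (x : Q) (v : P) :
    PG.s X p0 δ x v * PG.c X p0 δ * (PG.s X p0 δ x v)⁻¹ = PG.c X p0 δ ^ X.ep x := by
  have := PresentedGroup.one_of_mem (rels := {r | PRel X p0 δ r}) (PRel.sc x v)
  simp only [map_mul, map_inv, map_zpow] at this
  change PG.s X p0 δ x v * PG.c X p0 δ * (PG.s X p0 δ x v)⁻¹ * (PG.c X p0 δ ^ X.ep x)⁻¹ = 1 at this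
  rwa [mul_inv_eq_one] at this

theorem b04_ract (p0 : P) (δ : P → A) (x : Q) (a : A) :
    PG.s X p0 δ x (X.o a) * PG.g X p0 δ a =
      PG.g X p0 δ (X.aA x a) * PG.s X p0 δ x (X.o (X.i a)) := by
  have := PresentedGroup.one_of_mem (rels := {r | PRel X p0 δ r}) (PRel.act x a)
  simp only [map_mul, map_inv, map_zpow] at this
  change PG.s X p0 δ x (X.o a) * PG.g X p0 δ a * (PG.s X p0 δ x (X.o (X.i a)))⁻¹ *
    (PG.g X p0 δ (X.aA x a))⁻¹ = 1 at this
  rw [mul_inv_eq_one, mul_inv_eq_iff_eq_mul] at this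
  exact this

theorem b04_rcs (hX : X.Ok) (p0 : P) (δ : P → A) (x : Q) (v : P) (j : ℤ) :
    PG.c X p0 δ ^ j * PG.s X p0 δ x v = PG.s X p0 δ x v * PG.c X p0 δ ^ (X.ep x * j) := by
  have h1 := b04_rsc (X := X) p0 δ x v
  have h2 : PG.s X p0 δ x v * PG.c X p0 δ ^ (X.ep x * j) * (PG.s X p0 δ x v)⁻¹ =
      PG.c X p0 δ ^ j := by
    rw [← conj_zpow, h1, ← zpow_mul]
    congr 1
    linear_combination j * ok_ep hX x
  rw [← h2]
  group

theorem b04_rcg (p0 : P) (δ : P → A) (a : A) (j : ℤ) :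
    PG.c X p0 δ ^ j * PG.g X p0 δ a = PG.g X p0 δ a * PG.c X p0 δ ^ j := by
  have h1 : Commute (PG.c X p0 δ) (PG.g X p0 δ a) := b04_rcom p0 δ a
  exact (h1.zpow_left j).eq

theorem b04_rse (hX : X.Ok) (p0 : P) (δ : P → A) (v : P) : PG.s X p0 δ X.e v = 1 := by
  have h1 := b04_rmul (X := X) p0 δ X.e X.e v
  rw [hX.aPe, hX.em, hX.de0] at h1
  simp only [mul_zero, add_zero, sub_self, EuclideanDomain.zero_div, zpow_zero, one_mul] at h1
  exact mul_eq_left.mp h1

theorem pc_pres (hX : X.Ok) (h : PC E S X c q D p al) {p0 : P} {δ : P → A} {r : P → ℕ}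
    (hs : X.Span p0 δ r) : ∃ (t : P → V) (F : PG X p0 δ ≃* E), (∀ v, p (t v) = v) ∧
      (∀ v, v ≠ p0 → S.Adj (t (X.o (δ v))) (t v) ∧ al (t (X.o (δ v))) (t v) = δ v) ∧
      F (PG.c X p0 δ) = c ∧
      (∀ a, q (F (PG.g X p0 δ a)) = X.e ∧ D (F (PG.g X p0 δ a)) = 0 ∧
        S.Adj (t (X.o a)) (F (PG.g X p0 δ a) • t (X.o (X.i a))) ∧
        al (t (X.o a)) (F (PG.g X p0 δ a) • t (X.o (X.i a))) = a) ∧
      ∀ x v, q (F (PG.s X p0 δ x v)) = x ∧ D (F (PG.s X p0 δ x v)) = X.de x ∧
        F (PG.s X p0 δ x v) • t v = t (X.aP x v) := by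
  obtain ⟨t, ht, htt⟩ := b04_t h hs
  have hq1 := pc_q1 hX h
  have hD1 := pc_D1 hX h
  have hepe := ok_epe hX
  have hR := hX.R0
  -- the elements `ga`
  have hga : ∀ a, ∃ g : E, q g = X.e ∧ D g = 0 ∧ S.Adj (t (X.o a)) (g • t (X.o (X.i a))) ∧
      al (t (X.o a)) (g • t (X.o (X.i a))) = a := by
    intro a
    obtain ⟨w, hw1, hw2⟩ := h.sur (t (X.o a)) a (ht _).symm
    have h1 : p w = X.aP X.e (p (t (X.o (X.i a)))) := by
      rw [hX.aPe, ht, b04_p h hw1, hw2]
    obtain ⟨g, g1, g2, g3⟩ := b04_lift hX h X.e (t (X.o (X.i a))) w 0 h1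
      (by rw [hX.de0, sub_self]; exact dvd_zero _)
    exact ⟨g, g1, g2, by rw [g3]; exact hw1, by rw [g3]; exact hw2⟩
  choose ga gaq gaD gaA gaL using hga
  have hsx : ∀ x v, ∃ g : E, q g = x ∧ D g = X.de x ∧ g • t v = t (X.aP x v) := by
    intro x v
    exact b04_lift hX h x (t v) (t (X.aP x v)) (X.de x) (by rw [ht, ht])
      (by rw [sub_self]; exact dvd_zero _)
  choose sx sxq sxD sxt using hsx
  -- images of edges
  have hadj : ∀ (g : E) (w w' : V), S.Adj w w' → S.Adj (g • w) (g • w') := h.adj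
  -- uniqueness of neighbours
  have hnu : ∀ (w w1 w2 : V) (a : A), S.Adj w w1 → S.Adj w w2 → al w w1 = a → al w w2 = a →
      w1 = w2 := fun w w1 w2 a h1 h2 h3 h4 => h.inj w w1 w2 h1 h2 (h3.trans h4.symm)
  -- `g` with `q g = e` and `g • t (p w) = w` maps the end of `ga a` to the neighbour
  have hstep : ∀ (γ : E) (w w' : V), q γ = X.e → γ • t (p w) = w → S.Adj w w' →
      (γ * ga (al w w')) • t (p w') = w' := by
    intro γ w w' hγ hγ' hw
    have ho := h.po w w' hw
    have h1 := gaA (al w w')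
    have h2 := gaL (al w w')
    rw [← b04_p h hw] at h1 h2
    rw [ho] at h1 h2
    have h3 := hadj γ _ _ h1
    have h4 := h.alq γ _ _ h1
    rw [hγ', hγ, h2, hX.aAe] at h4
    rw [hγ'] at h3
    rw [mul_smul]
    exact hnu w _ _ _ h3 hw h4 rfl
  let f : Gn P A Q → E := fun x => match x with
    | Gn.g a => ga a
    | Gn.s x v => sx x v
    | Gn.c => c
  have hrel : ∀ r ∈ {r | PRel X p0 δ r}, FreeGroup.lift f r = 1 := by
    intro r hr
    cases hr with
    | inv a =>
      rw [map_mul, FreeGroup.lift_apply_of, FreeGroup.lift_apply_of]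
      change ga a * ga (X.i a) = 1
      refine pc_eq hX h (v := t (X.o a)) ?_ ?_ ?_
      · rw [h.qm, gaq, gaq, hX.em, hq1]
      · -- the neighbour
        have h1 := gaA a
        have h2 := gaL a
        have h3 := hstep (ga a) (ga a • t (X.o (X.i a))) (t (X.o a)) (gaq a) ?_ h1.symm
        · rw [h.ali _ _ h1, h2, ht] at h3
          rw [h3, one_smul]
        · rw [b04_p h h1, h2]
      · rw [h.Dm, gaD, gaD, mul_zero, add_zero, hD1]
    | tree v hv =>
      rw [FreeGroup.lift_apply_of]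
      change ga (δ v) = 1
      obtain ⟨a1, a2⟩ := htt v hv
      obtain ⟨s1, s2⟩ := hs v hv
      refine pc_eq hX h (v := t v) ?_ ?_ ?_
      · rw [gaq, hq1]
      · have h1 := gaA (δ v)
        have h2 := gaL (δ v)
        rw [s1] at h1 h2
        rw [one_smul]
        exact hnu _ _ _ _ h1 a1 h2 a2
      · rw [gaD, hD1]
    | mul x y v =>
      simp only [map_mul, map_inv, map_zpow, FreeGroup.lift_apply_of]
      change sx x (X.aP y v) * sx y v * (sx (X.m x y) v)⁻¹ *
        (c ^ ((X.de x + X.ep x * X.de y - X.de (X.m x y)) / X.R))⁻¹ = 1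
      rw [mul_inv_eq_one, mul_inv_eq_iff_eq_mul]
      obtain ⟨c1, c2, c3⟩ := pc_cz hX h ((X.de x + X.ep x * X.de y - X.de (X.m x y)) / X.R)
      refine pc_eq hX h (v := t v) ?_ ?_ ?_
      · rw [h.qm, h.qm, sxq, sxq, sxq, c1, hX.em]
      · rw [mul_smul, mul_smul, c3, sxt, sxt, sxt, hX.aPm]
      · rw [h.Dm, h.Dm, sxD, sxD, sxD, sxq, c1, c2, hepe,
          Int.ediv_mul_cancel (hX.dem x y)]
        ring
    | com a =>
      simp only [map_mul, map_inv, map_zpow, FreeGroup.lift_apply_of]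
      change c * ga a * c⁻¹ * (ga a)⁻¹ = 1
      have h1 := pc_conj hX h (ga a)
      rw [gaq, hepe, zpow_one, mul_inv_eq_iff_eq_mul] at h1
      rw [mul_inv_eq_one, mul_inv_eq_iff_eq_mul]
      exact h1.symm
    | sc x v =>
      simp only [map_mul, map_inv, map_zpow, FreeGroup.lift_apply_of]
      change sx x v * c * (sx x v)⁻¹ * (c ^ X.ep x)⁻¹ = 1
      have h1 := pc_conj hX h (sx x v)
      rw [sxq] at h1
      rw [mul_inv_eq_one]
      exact h1
    | act x a =>
      simp only [map_mul, map_inv, map_zpow, FreeGroup.lift_apply_of]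
      change sx x (X.o a) * ga a * (sx x (X.o (X.i a)))⁻¹ * (ga (X.aA x a))⁻¹ = 1
      rw [mul_inv_eq_one, mul_inv_eq_iff_eq_mul]
      refine pc_eq hX h (v := t (X.o (X.i a))) ?_ ?_ ?_
      · rw [h.qm, h.qm, sxq, sxq, gaq, gaq, hX.me, hX.em]
      · rw [mul_smul, mul_smul, sxt]
        have h1 := gaA a
        have h2 := gaL a
        have h3 := hadj (sx x (X.o a)) _ _ h1
        have h4 := h.alq (sx x (X.o a)) _ _ h1
        rw [sxt] at h3 h4
        rw [sxq, h2] at h4
        have h5 := gaA (X.aA x a)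
        have h6 := gaL (X.aA x a)
        rw [hX.oA, hX.iA, hX.oA] at h5 h6
        exact hnu _ _ _ _ h3 h5 h4 h6
      · rw [h.Dm, h.Dm, sxD, sxD, gaD, gaD, gaq, sxq, hepe]
        ring
  let F : PG X p0 δ →* E := PresentedGroup.toGroup hrel
  have hFg : ∀ a, F (PG.g X p0 δ a) = ga a := fun a => PresentedGroup.toGroup.of hrel
  have hFs : ∀ x v, F (PG.s X p0 δ x v) = sx x v := fun x v => PresentedGroup.toGroup.of hrel
  have hFc : F (PG.c X p0 δ) = c := PresentedGroup.toGroup.of hrel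
  -- the potential
  obtain ⟨η, hη0, hη⟩ := b04_pot h.tree (fun w w' => PG.g X p0 δ (al w w')) (by
    intro w w' hw
    rw [h.ali w w' hw]
    exact b04_rinv p0 δ _) (t p0)
  have hηt : ∀ n v, r v < n → η (t v) = 1 := by
    intro n
    induction n with
    | zero => intro v hv; exact absurd hv (Nat.not_lt_zero _)
    | succ n ih =>
      intro v hv
      by_cases hv0 : v = p0
      · rw [hv0, hη0]
      · obtain ⟨a1, a2⟩ := htt v hv0
        obtain ⟨s1, s2⟩ := hs v hv0
        rw [hη _ _ a1, a2, ih _ (by omega), b04_rtree p0 δ v hv0, one_mul]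
  have hηt' : ∀ v, η (t v) = 1 := fun v => hηt _ v (Nat.lt_succ_self _)
  -- properties of `F (η w)`
  have hFη : ∀ w, q (F (η w)) = X.e ∧ D (F (η w)) = 0 ∧ F (η w) • t (p w) = w := by
    apply b04_conn h.tree (fun w => q (F (η w)) = X.e ∧ D (F (η w)) = 0 ∧ F (η w) • t (p w) = w)
      (t p0)
    · rw [hη0, map_one, one_smul, ht]
      exact ⟨hq1, hD1, rfl⟩
    · rintro w w' hw ⟨i1, i2, i3⟩
      rw [hη w w' hw, map_mul, hFg]
      refine ⟨?_, ?_, hstep _ w w' i1 i3 hw⟩
      · rw [h.qm, i1, gaq, hX.em]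
      · rw [h.Dm, i2, gaD, mul_zero, add_zero]
  choose κ hκ using h.De
  let Γ : E → PG X p0 δ := fun g =>
    η (g • t p0) * PG.s X p0 δ (q g) p0 * PG.c X p0 δ ^ (X.ep (q g) * κ g)
  have hstar : ∀ (g : E) (w : V), η (g • w) * PG.s X p0 δ (q g) (p w) *
      PG.c X p0 δ ^ (X.ep (q g) * κ g) = Γ g * η w := by
    intro g
    apply b04_conn h.tree (fun w => η (g • w) * PG.s X p0 δ (q g) (p w) *
      PG.c X p0 δ ^ (X.ep (q g) * κ g) = Γ g * η w) (t p0)
    · rw [hη0, mul_one, ht]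
    · intro w w' hw ih
      rw [hη w w' hw, ← mul_assoc, ← ih, hη _ _ (hadj g w w' hw), h.alq g w w' hw]
      have h1 := b04_ract (X := X) p0 δ (q g) (al w w')
      rw [h.po w w' hw, ← b04_p h hw] at h1
      calc η (g • w) * PG.g X p0 δ (X.aA (q g) (al w w')) * PG.s X p0 δ (q g) (p w') *
            PG.c X p0 δ ^ (X.ep (q g) * κ g)
          = η (g • w) * (PG.g X p0 δ (X.aA (q g) (al w w')) * PG.s X p0 δ (q g) (p w')) *
            PG.c X p0 δ ^ (X.ep (q g) * κ g) := by simp only [mul_assoc]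
        _ = η (g • w) * (PG.s X p0 δ (q g) (p w) * PG.g X p0 δ (al w w')) *
            PG.c X p0 δ ^ (X.ep (q g) * κ g) := by rw [h1]
        _ = η (g • w) * PG.s X p0 δ (q g) (p w) *
            (PG.g X p0 δ (al w w') * PG.c X p0 δ ^ (X.ep (q g) * κ g)) := by
              simp only [mul_assoc]
        _ = η (g • w) * PG.s X p0 δ (q g) (p w) *
            (PG.c X p0 δ ^ (X.ep (q g) * κ g) * PG.g X p0 δ (al w w')) := by
              rw [b04_rcg]
        _ = _ := by simp only [mul_assoc]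
  have hΓm : ∀ g k, Γ (g * k) = Γ g * Γ k := by
    intro g k
    have h1 := hstar g (k • t p0)
    have h2 : Γ g * Γ k = Γ g * η (k • t p0) * (PG.s X p0 δ (q k) p0 *
        PG.c X p0 δ ^ (X.ep (q k) * κ k)) := by
      simp only [Γ, mul_assoc]
    rw [h2, ← h1, h.pq, ht]
    have h3 : Γ (g * k) = η (g • k • t p0) * PG.s X p0 δ (X.m (q g) (q k)) p0 *
        PG.c X p0 δ ^ (X.ep (X.m (q g) (q k)) * κ (g * k)) := by
      simp only [Γ, mul_smul, h.qm]
    rw [h3]
    have h4 := b04_rmul (X := X) p0 δ (q g) (q k) p0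
    have h5 : X.ep (X.m (q g) (q k)) * κ (g * k) =
        X.ep (X.m (q g) (q k)) * ((X.de (q g) + X.ep (q g) * X.de (q k) -
          X.de (X.m (q g) (q k))) / X.R) +
        (X.ep (q k) * (X.ep (q g) * κ g) + X.ep (q k) * κ k) := by
      have e1 := hκ g
      have e2 := hκ k
      have e3 := hκ (g * k)
      rw [h.qm, h.Dm] at e3
      have e4 := Int.mul_ediv_cancel' (hX.dem (q g) (q k))
      have e5 := hX.epm (q g) (q k)
      have e6 := ok_ep hX (q g)
      apply mul_left_cancel₀ hR.ne'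
      generalize (X.de (q g) + X.ep (q g) * X.de (q k) - X.de (X.m (q g) (q k))) / X.R = N at *
      rw [e5]
      linear_combination (-(X.ep (q g) * X.ep (q k))) * e3 + (-(X.ep (q g) * X.ep (q k))) * e4
        + (X.ep (q g) * X.ep (q k)) * e1 + (X.ep (q k)) * e2
        + (X.ep (q k) * (D k - X.de (q k))) * e6
    calc η (g • k • t p0) * PG.s X p0 δ (X.m (q g) (q k)) p0 *
          PG.c X p0 δ ^ (X.ep (X.m (q g) (q k)) * κ (g * k))
        = η (g • k • t p0) * (PG.s X p0 δ (X.m (q g) (q k)) p0 *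
          PG.c X p0 δ ^ (X.ep (X.m (q g) (q k)) * ((X.de (q g) + X.ep (q g) * X.de (q k) -
          X.de (X.m (q g) (q k))) / X.R))) * PG.c X p0 δ ^ (X.ep (q k) * (X.ep (q g) * κ g)) *
          PG.c X p0 δ ^ (X.ep (q k) * κ k) := by
            rw [h5, zpow_add, zpow_add]; simp only [mul_assoc]
      _ = η (g • k • t p0) * (PG.c X p0 δ ^ ((X.de (q g) + X.ep (q g) * X.de (q k) -
          X.de (X.m (q g) (q k))) / X.R) * PG.s X p0 δ (X.m (q g) (q k)) p0) *
          PG.c X p0 δ ^ (X.ep (q k) * (X.ep (q g) * κ g)) *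
          PG.c X p0 δ ^ (X.ep (q k) * κ k) := by rw [b04_rcs hX p0 δ (X.m (q g) (q k))]
      _ = η (g • k • t p0) * (PG.s X p0 δ (q g) (X.aP (q k) p0) * PG.s X p0 δ (q k) p0) *
          PG.c X p0 δ ^ (X.ep (q k) * (X.ep (q g) * κ g)) *
          PG.c X p0 δ ^ (X.ep (q k) * κ k) := by rw [h4]
      _ = η (g • k • t p0) * PG.s X p0 δ (q g) (X.aP (q k) p0) * (PG.s X p0 δ (q k) p0 *
          PG.c X p0 δ ^ (X.ep (q k) * (X.ep (q g) * κ g))) *
          PG.c X p0 δ ^ (X.ep (q k) * κ k) := by simp only [mul_assoc]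
      _ = η (g • k • t p0) * PG.s X p0 δ (q g) (X.aP (q k) p0) *
          (PG.c X p0 δ ^ (X.ep (q g) * κ g) * PG.s X p0 δ (q k) p0) *
          PG.c X p0 δ ^ (X.ep (q k) * κ k) := by rw [b04_rcs hX p0 δ (q k)]
      _ = _ := by simp only [mul_assoc]
  let Γh : E →* PG X p0 δ := MonoidHom.mk' Γ hΓm
  have hΓh : ∀ g, Γh g = Γ g := fun _ => rfl
  have hκ0 : ∀ g, D g = X.de (q g) → κ g = 0 := by
    intro g hg
    have := hκ g
    rw [hg, sub_self] at this
    rcases mul_eq_zero.mp this.symm with h1 | h1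
    · exact absurd h1 hR.ne'
    · exact h1
  have hid : Γh.comp F = MonoidHom.id _ := by
    apply PresentedGroup.ext
    intro x
    rw [MonoidHom.comp_apply, MonoidHom.id_apply]
    cases x with
    | g a =>
      change Γh (F (PG.g X p0 δ a)) = PG.g X p0 δ a
      rw [hFg, hΓh]
      have h1 := hstar (ga a) (t (X.o (X.i a)))
      rw [hηt', mul_one, hη _ _ (gaA a), hηt', one_mul, gaL, gaq, b04_rse hX, mul_one,
        hκ0 _ (by rw [gaD, gaq, hX.de0]), mul_zero, zpow_zero, mul_one] at h1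
      exact h1.symm
    | s x v =>
      change Γh (F (PG.s X p0 δ x v)) = PG.s X p0 δ x v
      rw [hFs, hΓh]
      have h1 := hstar (sx x v) (t v)
      rw [hηt', mul_one, sxt, hηt', one_mul, sxq, ht, hκ0 _ (by rw [sxD, sxq]), mul_zero,
        zpow_zero, mul_one] at h1
      exact h1.symm
    | c =>
      change Γh (F (PG.c X p0 δ)) = PG.c X p0 δ
      rw [hFc, hΓh]
      have h1 : κ c = 1 := by
        have := hκ c
        rw [h.Dc, h.qc, hX.de0, sub_zero] at this
        apply mul_left_cancel₀ hR.ne'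
        rw [mul_one]
        exact this.symm
      simp only [Γ]
      rw [h.cf, hη0, h.qc, b04_rse hX, hepe, h1, one_mul, one_mul, one_mul, zpow_one]
  have hinj : Function.Injective F := by
    intro a b hab
    have h1 : (Γh.comp F) a = (Γh.comp F) b := by
      rw [MonoidHom.comp_apply, MonoidHom.comp_apply, hab]
    rw [hid] at h1
    exact h1
  have hsur : Function.Surjective F := by
    intro g
    refine ⟨Γ g, ?_⟩
    obtain ⟨i1, i2, i3⟩ := hFη (g • t p0)
    obtain ⟨c1, c2, c3⟩ := pc_cz hX h (X.ep (q g) * κ g)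
    have hFΓ : F (Γ g) = F (η (g • t p0)) * sx (q g) p0 * c ^ (X.ep (q g) * κ g) := by
      simp only [Γ, map_mul, map_zpow, hFs, hFc]
    rw [hFΓ]
    refine pc_eq hX h (v := t p0) ?_ ?_ ?_
    · rw [h.qm, h.qm, i1, sxq, c1, hX.me, hX.em]
    · rw [mul_smul, mul_smul, c3, sxt]
      rw [h.pq, ht] at i3
      exact i3
    · rw [h.Dm, h.Dm, h.qm, i1, i2, sxq, sxD, c2, hX.em, hepe]
      have e1 := hκ g
      linear_combination (-1 : ℤ) * e1 + X.R * κ g * ok_ep hX (q g)
  refine ⟨t, MulEquiv.ofBijective F ⟨hinj, hsur⟩, ht, htt, hFc, ?_, ?_⟩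
  · intro a
    change q (F (PG.g X p0 δ a)) = X.e ∧ D (F (PG.g X p0 δ a)) = 0 ∧
        S.Adj (t (X.o a)) (F (PG.g X p0 δ a) • t (X.o (X.i a))) ∧
        al (t (X.o a)) (F (PG.g X p0 δ a) • t (X.o (X.i a))) = a
    rw [hFg]
    exact ⟨gaq a, gaD a, gaA a, gaL a⟩
  · intro x v
    change q (F (PG.s X p0 δ x v)) = x ∧ D (F (PG.s X p0 δ x v)) = X.de x ∧
        F (PG.s X p0 δ x v) • t v = t (X.aP x v)
    rw [hFs]
    exact ⟨sxq x v, sxD x v, sxt x v⟩

end

end VF
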