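import Pool.Agent.Lib.MP_32d917_al_vf.B03
import Pool.Agent.Lib.MP_32d917_al_vf.B04

/-!
# B05: the presented group

`pc_exists` and `pc_pres`; transport the action and the functions to `PG X p0 δ` along `F` (`MulAction.compHom`).
`PGt`: what we know. `pg_bdd`: let `e` move `t p0` by at most `n`; let `a_1, ..., a_m`, `m ≤ n`, be the labels of the geodesic from `t p0` to
`e • t p0`; as in B04 `g a_1 * ... * g a_m` maps `t (aP (q e) p0)` to `e • t p0`, so `e = g a_1 ... g a_m * s (q e) p0 * c ^ k` (`pc_eqc`).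
`pg_move`: converse. `t_dist`: the distance from `t p0` to `t v` is at most the number of points minus one: the path given by `δ` has strictly
decreasing ranks, so it has no repetition.
-/

set_option autoImplicit false

namespace VF

open LatIso LatN AdmIso

section

/-- the action of the presented group on its tree; `t` are the lifts of the points -/
structure PGt {P A Q : Type} (X : PD P A Q) (p0 : P) (δ : P → A) {V : Type}
    [MulAction (PG X p0 δ) V] (S : SimpleGraph V) (q : PG X p0 δ → Q) (D : PG X p0 δ → ℤ)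
    (p : V → P) (al : V → V → A) (t : P → V) : Prop where
  pc : PC (PG X p0 δ) S X (PG.c X p0 δ) q D p al
  pt : ∀ v, p (t v) = v
  tt : ∀ v, v ≠ p0 → S.Adj (t (X.o (δ v))) (t v) ∧ al (t (X.o (δ v))) (t v) = δ v
  g : ∀ a, q (PG.g X p0 δ a) = X.e ∧ D (PG.g X p0 δ a) = 0 ∧
    S.Adj (t (X.o a)) (PG.g X p0 δ a • t (X.o (X.i a))) ∧
    al (t (X.o a)) (PG.g X p0 δ a • t (X.o (X.i a))) = a
  s : ∀ x v, q (PG.s X p0 δ x v) = x ∧ D (PG.s X p0 δ x v) = X.de x ∧
    PG.s X p0 δ x v • t v = t (X.aP x v)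

/-- elements given by words with at most `n` letters `g a`, one letter `s` and a power of `c` -/
def Bdd {P A Q : Type} (X : PD P A Q) (p0 : P) (δ : P → A) (n : ℕ) (e : PG X p0 δ) : Prop :=
  ∃ (l : List A) (x : Q) (k : ℤ), l.length ≤ n ∧
    e = (l.map (PG.g X p0 δ)).prod * PG.s X p0 δ x p0 * PG.c X p0 δ ^ k

theorem pg_exists {P A Q : Type} [Nonempty A] {X : PD P A Q} (hX : X.Ok) {p0 : P} {δ : P → A}
    {r : P → ℕ} (hs : X.Span p0 δ r) :
    ∃ (V : Type) (_ : MulAction (PG X p0 δ) V) (S : SimpleGraph V) (q : PG X p0 δ → Q)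
      (D : PG X p0 δ → ℤ) (p : V → P) (al : V → V → A) (t : P → V), PGt X p0 δ S q D p al t := by
  obtain ⟨E, _, V, _, S, c, q, D, p, al, h⟩ := pc_exists hX hs
  obtain ⟨t, F, h1, h2, h3, h4, h5⟩ := pc_pres hX h hs
  refine ⟨V, MulAction.compHom V F.toMonoidHom, S, fun g => q (F g), fun g => D (F g), p, al, t, ?_⟩
  letI : MulAction (PG X p0 δ) V := MulAction.compHom V F.toMonoidHom
  have hsm : ∀ (g : PG X p0 δ) (v : V), g • v = F g • v := fun _ _ => rfl
  refine ⟨?_, h1, h2, ?_, ?_⟩
  · refine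
      { tree := h.tree
        adj := fun g x y hxy => by rw [hsm, hsm]; exact h.adj _ _ _ hxy
        qm := fun g k => by rw [map_mul]; exact h.qm _ _
        qs := fun x => by
          obtain ⟨g, hg⟩ := h.qs x
          exact ⟨F.symm g, by rw [F.apply_symm_apply]; exact hg⟩
        Dm := fun g k => by rw [map_mul]; exact h.Dm _ _
        De := fun g => h.De _
        qc := by rw [h3]; exact h.qc
        Dc := by rw [h3]; exact h.Dc
        cf := fun v => by rw [hsm, h3]; exact h.cf v
        free := fun g v hg hv => by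
          rw [hsm] at hv
          obtain ⟨k, hk⟩ := h.free _ v hg hv
          refine ⟨k, F.injective ?_⟩
          rw [map_zpow, h3]
          exact hk
        po := h.po
        ali := h.ali
        inj := h.inj
        sur := h.sur
        pq := fun g v => by rw [hsm]; exact h.pq _ _
        alq := fun g v w hvw => by rw [hsm, hsm]; exact h.alq _ _ _ hvw
        tr := fun v w hvw => by
          obtain ⟨g, hg1, hg2⟩ := h.tr v w hvw
          refine ⟨F.symm g, ?_, ?_⟩
          · rw [F.apply_symm_apply]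
            exact hg1
          · rw [hsm, F.apply_symm_apply]
            exact hg2
        onto := h.onto }
  · intro a
    exact h4 a
  · intro x v
    exact h5 x v

/-- words along geodesics -/
theorem pg_word {P A Q : Type} {X : PD P A Q} (hX : X.Ok) {p0 : P} {δ : P → A} {V : Type}
    [MulAction (PG X p0 δ) V] {S : SimpleGraph V} {q : PG X p0 δ → Q} {D : PG X p0 δ → ℤ}
    {p : V → P} {al : V → V → A} {t : P → V} (h : PGt X p0 δ S q D p al t) (n : ℕ) :
    ∀ (u : P) (w : V), S.dist (t u) w = n → ∃ l : List A, l.length = n ∧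
      q (l.map (PG.g X p0 δ)).prod = X.e ∧ (l.map (PG.g X p0 δ)).prod • t (p w) = w := by
  induction n with
  | zero =>
    intro u w hw
    have e := st1_eq h.pc.tree hw
    refine ⟨[], rfl, ?_, ?_⟩
    · simp only [List.map_nil, List.prod_nil]
      exact pc_q1 hX h.pc
    · simp only [List.map_nil, List.prod_nil, one_smul]
      rw [← e, h.pt]
  | succ n ih =>
    intro u w hw
    have hta := pc_ta hX h.pc
    have hne : t u ≠ w := by
      intro e
      rw [e, SimpleGraph.dist_self] at hw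
      omega
    obtain ⟨w1, hw1, hb⟩ := st_next h.pc.tree hne
    unfold Bt at hb
    rw [st1_one hw1] at hb
    have ho : X.o (al (t u) w1) = u := by rw [h.pc.po _ _ hw1, h.pt]
    obtain ⟨g1, g2, g3, g4⟩ := h.g (al (t u) w1)
    rw [ho] at g3 g4
    have e1 : PG.g X p0 δ (al (t u) w1) • t (X.o (X.i (al (t u) w1))) = w1 :=
      h.pc.inj _ _ _ g3 hw1 g4
    obtain ⟨l, hl1, hl2, hl3⟩ := ih (X.o (X.i (al (t u) w1))) ((PG.g X p0 δ (al (t u) w1))⁻¹ • w) (by
      rw [← ta_dist hta (PG.g X p0 δ (al (t u) w1)), e1, smul_inv_smul]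
      omega)
    have e2 : p ((PG.g X p0 δ (al (t u) w1))⁻¹ • w) = p w := by
      have e3 := h.pc.pq (PG.g X p0 δ (al (t u) w1)) ((PG.g X p0 δ (al (t u) w1))⁻¹ • w)
      rw [smul_inv_smul, g1, hX.aPe] at e3
      exact e3.symm
    rw [e2] at hl3
    refine ⟨al (t u) w1 :: l, by rw [List.length_cons, hl1], ?_, ?_⟩
    · rw [List.map_cons, List.prod_cons, h.pc.qm, g1, hl2, hX.em]
    · rw [List.map_cons, List.prod_cons, mul_smul, hl3, smul_inv_smul]

theorem pg_bdd {P A Q : Type} {X : PD P A Q} (hX : X.Ok) {p0 : P} {δ : P → A} {V : Type}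
    [MulAction (PG X p0 δ) V] {S : SimpleGraph V} {q : PG X p0 δ → Q} {D : PG X p0 δ → ℤ}
    {p : V → P} {al : V → V → A} {t : P → V} (h : PGt X p0 δ S q D p al t) (n : ℕ)
    (e : PG X p0 δ) (he : S.dist (t p0) (e • t p0) ≤ n) : Bdd X p0 δ n e := by
  obtain ⟨l, hl1, hl2, hl3⟩ := pg_word hX h _ p0 (e • t p0) rfl
  obtain ⟨s1, s2, s3⟩ := h.s (q e) p0
  have hp : p (e • t p0) = X.aP (q e) p0 := by rw [h.pc.pq, h.pt]
  rw [hp] at hl3
  obtain ⟨j, hj⟩ := pc_eqc hX h.pc (g := e) (k := (l.map (PG.g X p0 δ)).prod * PG.s X p0 δ (q e) p0)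
    (v := t p0) (by rw [h.pc.qm, hl2, s1, hX.em]) (by rw [mul_smul, s3, hl3])
  exact ⟨l, q e, j, by omega, hj⟩

theorem t_dist {a : ℕ} {A Q : Type} {X : PD (Fin (a + 1)) A Q} (hX : X.Ok)
    {p0 : Fin (a + 1)} {δ : Fin (a + 1) → A} {r : Fin (a + 1) → ℕ} (hs : X.Span p0 δ r) {V : Type}
    [MulAction (PG X p0 δ) V] {S : SimpleGraph V} {q : PG X p0 δ → Q} {D : PG X p0 δ → ℤ}
    {p : V → Fin (a + 1)} {al : V → V → A} {t : Fin (a + 1) → V}
    (h : PGt X p0 δ S q D p al t) (v : Fin (a + 1)) : S.dist (t p0) (t v) ≤ a := by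
  have key : ∀ (n : ℕ) (v : Fin (a + 1)), r v = n →
      S.dist (t p0) (t v) ≤ (Finset.univ.filter fun w => r w < r v).card := by
    intro n
    induction n using Nat.strong_induction_on with
    | _ n ih =>
      intro v hv
      by_cases hp : v = p0
      · rw [hp, SimpleGraph.dist_self]
        exact Nat.zero_le _
      · obtain ⟨h1, h2⟩ := hs v hp
        obtain ⟨h3, h4⟩ := h.tt v hp
        have e1 := ih (r (X.o (δ v))) (by omega) (X.o (δ v)) rfl
        have e2 := st1_tri h.pc.tree (t p0) (t (X.o (δ v))) (t v)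
        rw [st1_one h3] at e2
        have e3 : (Finset.univ.filter fun w => r w < r (X.o (δ v))).card + 1 ≤
            (Finset.univ.filter fun w => r w < r v).card := by
          rw [← Finset.card_insert_of_notMem (s := Finset.univ.filter fun w => r w < r (X.o (δ v)))
            (a := X.o (δ v)) (by simp)]
          apply Finset.card_le_card
          intro w hw
          rw [Finset.mem_insert] at hw
          simp only [Finset.mem_filter, Finset.mem_univ, true_and] at hw ⊢
          rcases hw with hw | hw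
          · rw [hw]
            exact h2
          · omega
        omega
  have e := key _ v rfl
  have e2 : (Finset.univ.filter fun w => r w < r v).card ≤ (Finset.univ.erase v).card := by
    apply Finset.card_le_card
    intro w hw
    simp only [Finset.mem_filter, Finset.mem_univ, true_and] at hw
    rw [Finset.mem_erase]
    refine ⟨?_, Finset.mem_univ _⟩
    rintro rfl
    exact lt_irrefl _ hw
  rw [Finset.card_erase_of_mem (Finset.mem_univ _), Finset.card_univ, Fintype.card_fin] at e2
  omega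

theorem gen_dist {a : ℕ} {A Q : Type} {X : PD (Fin (a + 1)) A Q} (hX : X.Ok)
    {p0 : Fin (a + 1)} {δ : Fin (a + 1) → A} {r : Fin (a + 1) → ℕ} (hs : X.Span p0 δ r) {V : Type}
    [MulAction (PG X p0 δ) V] {S : SimpleGraph V} {q : PG X p0 δ → Q} {D : PG X p0 δ → ℤ}
    {p : V → Fin (a + 1)} {al : V → V → A} {t : Fin (a + 1) → V}
    (h : PGt X p0 δ S q D p al t) (γ : Gn (Fin (a + 1)) A Q) :
    S.dist (t p0) ((PresentedGroup.of γ : PG X p0 δ) • t p0) ≤ 2 * a + 1 := by
  have hta := pc_ta hX h.pc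
  have hT := h.pc.tree
  cases γ with
  | g b =>
    change S.dist (t p0) (PG.g X p0 δ b • t p0) ≤ 2 * a + 1
    obtain ⟨g1, g2, g3, g4⟩ := h.g b
    have e1 := st1_tri hT (t p0) (t (X.o b)) (PG.g X p0 δ b • t p0)
    have e2 := st1_tri hT (t (X.o b)) (PG.g X p0 δ b • t (X.o (X.i b))) (PG.g X p0 δ b • t p0)
    rw [st1_one g3, ta_dist hta] at e2
    have e3 := t_dist hX hs h (X.o b)
    have e4 := t_dist hX hs h (X.o (X.i b))
    rw [SimpleGraph.dist_comm (u := t (X.o (X.i b)))] at e2
    omega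
  | s x v =>
    change S.dist (t p0) (PG.s X p0 δ x v • t p0) ≤ 2 * a + 1
    obtain ⟨s1, s2, s3⟩ := h.s x v
    have e1 := st1_tri hT (t p0) (t (X.aP x v)) (PG.s X p0 δ x v • t p0)
    have e2 : S.dist (t (X.aP x v)) (PG.s X p0 δ x v • t p0) = S.dist (t v) (t p0) := by
      rw [← s3, ta_dist hta]
    have e3 := t_dist hX hs h (X.aP x v)
    have e4 := t_dist hX hs h v
    rw [SimpleGraph.dist_comm (u := t p0) (v := t v)] at e4
    omega
  | c =>
    change S.dist (t p0) (PG.c X p0 δ • t p0) ≤ 2 * a + 1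
    rw [h.pc.cf, SimpleGraph.dist_self]
    exact Nat.zero_le _

end

end VF
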