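import Pool.Agent.Lib.MP_32d917_al_vf.B01
import Pool.Agent.Lib.MP_32d917_al_vf.A18

/-!
# B06: Whitehead moves and labels

`β` from `wh_edge` (A18). Put `al' v w = al (β⁻¹ (v, w))` (the label of the directed edge of `S` corresponding to the directed edge `(v, w)` of
`S'`), for non edges anything (`Nonempty A` holds since `two` or an edge exist; if there is no edge at all take `al' = al`). Two directed
edges of `S'` have the same label iff they are in the same orbit under `ker q` (true for `S`: `tr`, `inj`, `alq`; `β` is equivariant). `o' a` = `p v`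
for a directed edge `(v, w)` of `S'` with label `a` (every `a` occurs: `onto` for `o a`, `sur`), `i' a` = label of `(w, v)`; well defined. `alq`
holds with the same `aA`. `inj`: `(v, w)`, `(v, w')` with the same label: `g (v, w) = (v, w')` with `q g = e`, so `g = c ^ k` and `w = w'`. `sur`: let
`o' a = p v`, `(v1, w1)` a directed edge with label `a`, `p v1 = p v`, so `g v1 = v`, `q g = e`, and `(v, g w1)` has label `a`.
`ni`: if `aA x a = i' a` for the label `a` of `(v, w)`: `g` with `q g = x`; `(g v, g w)` and `(w, v)` have the same label, so `k g` exchanges `v`, `w` for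
some `k` with `q k = e`; `S'` has no inversions (`wh_tlat`, or `wh_ta`).
-/

set_option autoImplicit false

namespace VF

open LatIso LatN AdmIso

section

variable {E : Type} [Group E] {V : Type} [MulAction E V] {S : SimpleGraph V} {P A Q : Type}
  {X : PD P A Q} {c : E} {q : E → Q} {D : E → ℤ} {p : V → P} {al : V → V → A}

theorem pc_move (hX : X.Ok) (h : PC E S X c q D p al) {S' : SimpleGraph V}
    (hw : WhS E S S') : ∃ (o' : A → P) (i' : A → A) (al' : V → V → A),
      ({ X with o := o', i := i' } : PD P A Q).Ok ∧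
      PC E S' ({ X with o := o', i := i' } : PD P A Q) c q D p al' := by
  classical
  have hta : TA E S := pc_ta hX h
  obtain ⟨β, b1, b2, b3, b4⟩ := wh_edge hta hw
  have hta' : TA E S' := by
    obtain ⟨v, u, B, hB, rfl⟩ := hw
    exact wh_ta hta hB
  -- labels of the directed edges of `S'`
  let al' : V → V → A := fun v w =>
    if hh : ∃ x : V × V, S.Adj x.1 x.2 ∧ β x = (v, w) then al hh.choose.1 hh.choose.2 else al v w
  have hal : ∀ x : V × V, S.Adj x.1 x.2 → al' (β x).1 (β x).2 = al x.1 x.2 := by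
    intro x hx
    have hh : ∃ y : V × V, S.Adj y.1 y.2 ∧ β y = ((β x).1, (β x).2) := ⟨x, hx, rfl⟩
    have h1 : al' (β x).1 (β x).2 = al hh.choose.1 hh.choose.2 := dif_pos hh
    rw [h1, b2 _ _ hh.choose_spec.1 hx hh.choose_spec.2]
  have halq : ∀ (g : E) (v w : V), S'.Adj v w → al' (g • v) (g • w) = X.aA (q g) (al' v w) := by
    intro g v w hvw
    obtain ⟨x, hx, hxy⟩ := b3 (v, w) hvw
    have h1 := b4 g x hx
    have h2 : S.Adj (g • x.1) (g • x.2) := h.adj g _ _ hx
    have h3 := hal (g • x.1, g • x.2) h2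
    rw [h1, hxy] at h3
    have h4 := hal x hx
    rw [hxy] at h4
    rw [h3, h4, h.alq g _ _ hx]
  have hsame : ∀ v w v' w' : V, S'.Adj v w → S'.Adj v' w' → al' v w = al' v' w' →
      ∃ g : E, q g = X.e ∧ g • v = v' ∧ g • w = w' := by
    intro v w v' w' h1 h2 h3
    obtain ⟨x, hx, hxy⟩ := b3 (v, w) h1
    obtain ⟨x', hx', hxy'⟩ := b3 (v', w') h2
    have h4 := hal x hx
    rw [hxy] at h4
    have h5 := hal x' hx'
    rw [hxy'] at h5
    have h6 : al x.1 x.2 = al x'.1 x'.2 := by rw [← h4, ← h5]; exact h3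
    obtain ⟨g, hg, hgx⟩ := h.tr x.1 x'.1 (by rw [← h.po _ _ hx, ← h.po _ _ hx', h6])
    have h7 : g • x.2 = x'.2 := by
      apply h.inj x'.1 _ _ _ hx'
      · rw [← hgx, h.alq g _ _ hx, hg, hX.aAe, hgx, h6]
      · rw [← hgx]
        exact h.adj g _ _ hx
    have h8 := b4 g x hx
    rw [hgx, h7, hxy] at h8
    have h9 : (v', w') = (g • v, g • w) := by rw [← hxy', ← h8]
    rw [Prod.mk.injEq] at h9
    exact ⟨g, hg, h9.1.symm, h9.2.symm⟩
  have hex : ∀ a : A, ∃ y : V × V, S'.Adj y.1 y.2 ∧ al' y.1 y.2 = a := by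
    intro a
    obtain ⟨v, hv⟩ := h.onto (X.o a)
    obtain ⟨w, hvw, ha⟩ := h.sur v a hv.symm
    exact ⟨β (v, w), b1 (v, w) hvw, by rw [hal (v, w) hvw]; exact ha⟩
  choose ed he1 he2 using hex
  let o' : A → P := fun a => p (ed a).1
  let i' : A → A := fun a => al' (ed a).2 (ed a).1
  have hpe : ∀ (g : E) (v : V), q g = X.e → p (g • v) = p v := by
    intro g v hg
    rw [h.pq, hg, hX.aPe]
  have hpo : ∀ v w, S'.Adj v w → o' (al' v w) = p v := by
    intro v w hvw
    obtain ⟨g, hg, hg1, -⟩ := hsame _ _ v w (he1 (al' v w)) hvw (he2 (al' v w))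
    show p (ed (al' v w)).1 = p v
    have h1 := hpe g (ed (al' v w)).1 hg
    rw [hg1] at h1
    exact h1.symm
  have hali : ∀ v w, S'.Adj v w → al' w v = i' (al' v w) := by
    intro v w hvw
    obtain ⟨g, hg, hg1, hg2⟩ := hsame _ _ v w (he1 (al' v w)) hvw (he2 (al' v w))
    show al' w v = al' (ed (al' v w)).2 (ed (al' v w)).1
    have h1 := halq g _ _ (he1 (al' v w)).symm
    rw [hg, hX.aAe, hg1, hg2] at h1
    exact h1
  refine ⟨o', i', al', ?_, ?_⟩
  · refine ⟨?_, hX.as, hX.em, hX.me, hX.iv, hX.aPe, hX.aPm, hX.aAe, hX.aAm, ?_, ?_, ?_, hX.ep1, hX.epm,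
      hX.de0, hX.dem, hX.R0⟩
    · intro a
      show i' (i' a) = a
      have h1 := hali _ _ (he1 a).symm
      have h2 : i' (i' a) = al' (ed a).1 (ed a).2 := h1.symm
      rw [h2, he2]
    · intro x a
      show o' (X.aA x a) = X.aP x (o' a)
      obtain ⟨g, rfl⟩ := h.qs x
      have h1 := halq g _ _ (he1 a)
      rw [he2] at h1
      rw [← h1, hpo _ _ (hta'.adj g _ _ (he1 a)), h.pq]
    · intro x a
      show i' (X.aA x a) = X.aA x (i' a)
      obtain ⟨g, rfl⟩ := h.qs x
      have h1 := halq g _ _ (he1 a)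
      rw [he2] at h1
      rw [← h1, ← hali _ _ (hta'.adj g _ _ (he1 a)), halq g _ _ (he1 a).symm]
    · intro x a hxa
      obtain ⟨g, rfl⟩ := h.qs x
      have h1 := halq g _ _ (he1 a)
      rw [he2] at h1
      have h2 : al' (g • (ed a).1) (g • (ed a).2) = al' (ed a).2 (ed a).1 := h1.trans hxa
      obtain ⟨k, -, hk1, hk2⟩ := hsame _ _ _ _ (hta'.adj g _ _ (he1 a)) (he1 a).symm h2
      exact hta'.noinv (k * g) _ _ (he1 a) (by rw [mul_smul, hk1]) (by rw [mul_smul, hk2])
  · refine ⟨hta'.tree, hta'.adj, h.qm, h.qs, h.Dm, h.De, h.qc, h.Dc, h.cf, h.free, hpo, hali, ?_, ?_,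
      h.pq, halq, h.tr, h.onto⟩
    · intro v w w' h1 h2 h3
      obtain ⟨g, hg, hg1, hg2⟩ := hsame _ _ _ _ h1 h2 h3
      obtain ⟨k, rfl⟩ := h.free g v hg hg1
      rw [← hg2, (pc_cz hX h k).2.2 w]
    · intro v a hva
      obtain ⟨g, hg, hg1⟩ := h.tr (ed a).1 v hva
      refine ⟨g • (ed a).2, ?_, ?_⟩
      · rw [← hg1]
        exact hta'.adj g _ _ (he1 a)
      · rw [← hg1, halq g _ _ (he1 a), hg, hX.aAe, he2]

end

end VF
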