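import Pool.Agent.Lib.MP_32d917_al_vf.B02

/-!
# B07: labels of paths

`pth_exists`: a geodesic. `pth_uniq`: `inj`. `strict_conj`: `e1 = g (f e0) g⁻¹` maps `v'` to `g (f e0) (ψ v) = g ψ (e0 v)`; the path from `v` to `e0 v` with
labels `l` is mapped by `ψ` and then by `g` (`q g = e`, labels do not change) to a path with the labels `l` from `v'` to `e1 v'`; so
`e1 v' = e0 v'` (`pth_uniq`). `q e1 = q e0`; `D e1 = D g + D (f e0) + ep (q e0) D (g⁻¹) = D e0` as `ep = 1`, `D g⁻¹ = - D g`. So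
`e1 = e0` by `pc_eq`.
-/

set_option autoImplicit false

namespace VF

open LatIso LatN AdmIso

section

variable {E : Type} [Group E] {V : Type} [MulAction E V] {S : SimpleGraph V} {P A Q : Type}
  {X : PD P A Q} {c : E} {q : E → Q} {D : E → ℤ} {p : V → P} {al : V → V → A}

/-- paths with labels -/
inductive Pth {V A : Type} (S : SimpleGraph V) (al : V → V → A) : V → List A → V → Prop
  | nil (v : V) : Pth S al v [] v
  | cons (v u w : V) (l : List A) (h : S.Adj v u) : Pth S al u l w → Pth S al v (al v u :: l) w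

theorem b07_walk {V A : Type} {S : SimpleGraph V} (al : V → V → A) :
    ∀ {v w : V} (p : S.Walk v w), ∃ l, Pth S al v l w ∧ l.length = p.length
  | _, _, SimpleGraph.Walk.nil => ⟨[], Pth.nil _, rfl⟩
  | _, _, SimpleGraph.Walk.cons h p => by
    obtain ⟨l, h1, h2⟩ := b07_walk al p
    exact ⟨_, Pth.cons _ _ _ l h h1, by simp [h2]⟩

theorem pth_exists {V A : Type} {S : SimpleGraph V} (hS : S.Connected) (al : V → V → A)
    (v w : V) : ∃ l, Pth S al v l w ∧ l.length = S.dist v w := by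
  obtain ⟨p, hp⟩ := hS.exists_walk_length_eq_dist v w
  obtain ⟨l, h1, h2⟩ := b07_walk al p
  exact ⟨l, h1, by rw [h2, hp]⟩

theorem pth_len {V A : Type} {S : SimpleGraph V} (hS : S.Connected) {al : V → V → A}
    {v w : V} {l : List A} (h : Pth S al v l w) : S.dist v w ≤ l.length := by
  induction h with
  | nil v => simp
  | cons v u w l h _ ih =>
    have h1 : S.dist v w ≤ S.dist v u + S.dist u w := hS.dist_triangle
    have h2 : S.dist v u = 1 := SimpleGraph.dist_eq_one_iff_adj.2 h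
    rw [List.length_cons]
    omega

theorem pth_map {V V' A : Type} {S : SimpleGraph V} {al : V → V → A} {S' : SimpleGraph V'}
    {al' : V' → V' → A} (ψ : V → V')
    (hψ : ∀ a b, S.Adj a b → S'.Adj (ψ a) (ψ b) ∧ al' (ψ a) (ψ b) = al a b) {v w : V} {l : List A}
    (h : Pth S al v l w) : Pth S' al' (ψ v) l (ψ w) := by
  induction h with
  | nil v => exact Pth.nil _
  | cons v u w l h _ ih =>
    rw [← (hψ v u h).2]
    exact Pth.cons _ _ _ _ (hψ v u h).1 ih

theorem b07_inv {V A : Type} {S : SimpleGraph V} {al : V → V → A} {v w : V} {l : List A}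
    (h : Pth S al v l w) : (l = [] ∧ v = w) ∨
      ∃ u l', S.Adj v u ∧ l = al v u :: l' ∧ Pth S al u l' w := by
  cases h with
  | nil => exact Or.inl ⟨rfl, rfl⟩
  | cons _ u _ l' h h' => exact Or.inr ⟨u, l', h, rfl, h'⟩

theorem pth_uniq (h : PC E S X c q D p al) {v w w' : V} {l : List A} (h1 : Pth S al v l w)
    (h2 : Pth S al v l w') : w = w' := by
  induction h1 with
  | nil v =>
    rcases b07_inv h2 with ⟨-, h3⟩ | ⟨u, l', -, h3, -⟩
    · exact h3
    · exact absurd h3 (by simp)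
  | cons v u w l h4 _ ih =>
    rcases b07_inv h2 with ⟨h3, -⟩ | ⟨u', l', h5, h3, h6⟩
    · exact absurd h3 (by simp)
    · rw [List.cons.injEq] at h3
      have h7 : u = u' := h.inj v u u' h4 h5 h3.1
      rw [h7, h3.2] at ih
      exact ih h6

theorem strict_conj (hX : X.Ok) (h : PC E S X c q D p al) {S' : SimpleGraph V}
    {al' : V → V → A} (h' : PC E S' X c q D p al') (f : E ≃* E) (ψ : V ≃ V)
    (hψ : ∀ a b, S.Adj a b → S'.Adj (ψ a) (ψ b) ∧ al' (ψ a) (ψ b) = al a b)
    (he : ∀ g a, ψ (g • a) = f g • ψ a) (hq : ∀ g, q (f g) = q g) (hD : ∀ g, D (f g) = D g)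
    {e0 g : E} {v v' : V} {l : List A} (h1 : Pth S al v l (e0 • v)) (h2 : Pth S' al' v' l (e0 • v'))
    (hep : X.ep (q e0) = 1) (hg : q g = X.e) (hgv : g • ψ v = v') : f e0 = g⁻¹ * e0 * g := by
  have h3 : Pth S' al' (ψ v) l (ψ (e0 • v)) := pth_map ψ hψ h1
  have h4 : Pth S' al' (g • ψ v) l (g • ψ (e0 • v)) := by
    refine pth_map (fun a => g • a) (fun a b hab => ⟨h'.adj g a b hab, ?_⟩) h3
    show al' (g • a) (g • b) = al' a b
    rw [h'.alq g a b hab, hg, hX.aAe]
  rw [hgv] at h4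
  have h5 : e0 • v' = g • ψ (e0 • v) := pth_uniq h' h2 h4
  have h6 : (g * f e0 * g⁻¹) • v' = e0 • v' := by
    rw [h5, he, mul_smul, mul_smul, ← hgv, inv_smul_smul]
  have h7 : q g⁻¹ = X.e := by
    have := (pc_qinv hX h' g).1
    rwa [hg, hX.em] at this
  have h8 : q (g * f e0) = q e0 := by
    rw [h'.qm, hg, hX.em, hq]
  have h9 : q (g * f e0 * g⁻¹) = q e0 := by
    rw [h'.qm, h8, h7, hX.me]
  have h10 : D (g * f e0 * g⁻¹) = D e0 := by
    rw [h'.Dm, h8, hep, h'.Dm, pc_Dinv hX h' g, hg, ok_epe hX, hD]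
    ring
  have h11 : g * f e0 * g⁻¹ = e0 := pc_eq hX h' h9 h6 h10
  calc f e0 = g⁻¹ * (g * f e0 * g⁻¹) * g := by group
    _ = g⁻¹ * e0 * g := by rw [h11]

end

end VF
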