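import Pool.Agent.Lib.MP_32d917_al_vf.B06
import Pool.Agent.Lib.MP_32d917_al_vf.B07
import Pool.Agent.Lib.MP_32d917_al_vf.A19
import Pool.Agent.Lib.MP_32d917_al_adm.T03

/-!
# B08: the bound

`E` acts on the trees `S` (with labels) and `S''` on the same set of vertices `V`.

Twisting. Let `f : E ≃* E`, `ψ : V ≃ V` with `ψ (g v) = f g • ψ v`, and `f (hh i)` conjugate to `hh i` for all `i`. For a tree `R` on `V` let
`R.comap ψ` be the pulled back tree. `TLat E R → TLat E (R.comap ψ)`, `WhS E R R' → WhS E (R.comap ψ) (R'.comap ψ)` (data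
`ψ⁻¹ v, ψ⁻¹ u, ψ⁻¹ A`), `len (R.comap ψ) hh = len R hh`, distances: `(R.comap ψ).dist x y = R.dist (ψ x) (ψ y)`; hence
`EStep E hh M R R' → EStep E hh M (R.comap ψ) (R'.comap ψ)`.

Codes. By `ew` there is a chain `S = S_0, ..., S_n = S''` of `EStep`s. By `pc_move` every `S_j` has labels `al_j` with
`PC E S_j {X with o := o_j, i := i_j} c q D p al_j`, Ok. As `hh i` has no fixed vertex, its translation length `t` in `S_j` is positive, and at most
`M` (`len ≤ M`); choose `v_i` in `CC S_j (hh i)` and the labels `l_i` of the path from `v_i` to `hh i • v_i`, of length `t ≤ M`. `bb i` fixes `v_i`: it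
commutes with `hh i`, so it acts on the axis of `hh i` by a translation (`t03_trans` in adm/T03), and this is trivial since `bb i` fixes some vertex
(a translation by `d ≠ 0` of a line: the element has translation length `|d| > 0`, e.g. by `tl_axis`). Code of `S_j`: `(o_j, i_j, (p v_i, l_i)_i)`; `l_i`
coded as a function `Fin M → Option (Fin (b + 1))`. The number of codes is at most `NB a b k M`, `k = ` number of elements of `ι`.

Claim. For all `n` and all `S''` with a chain of length `n` from `S` to `S''`: there are `f, ψ` as in the statement (without the distances) and a chain of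
length at most `NB` from `S` to `S''.comap ψ`. Induction on `n` (strong): if `n ≤ NB`: `f = 1`. Otherwise two trees `S_i`, `S_j`, `i < j`, in the chain
have the same code, so the same `X' = {X with ..}`. Let `f0, ψ0` be as in `pc_strict` for `S_i`, `S_j` (same `E`, `q`, `D`, `c`, `p`). By `strict_conj`: for the index
`i'` let `g` with `q g = e`, `g • ψ0 v = v'` where `v`, `v'` are the base points in `S_i`, `S_j` (same label); then `f0 (hh i') = g⁻¹ hh i' g` and (path of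
length `0`) `f0 (bb i') = g⁻¹ bb i' g`. `S_i = S_j.comap ψ0`. So `S, ..., S_i = S_j.comap ψ0, ..., S''.comap ψ0` is a shorter chain from `S` to
`S''.comap ψ0`; induction gives `f1, ψ1` for `S''.comap ψ0`; take `ψ = ψ0 ∘ ψ1`, `f = f0 ∘ f1` (conjugating elements multiply:
`f0 (g1⁻¹ h g1) = f0(g1)⁻¹ g⁻¹ h g f0(g1)`).

Distances: a chain of length `m` changes distances by at most the factor `3 ^ m` in both directions (`wh_lip`, `wh_symm`).
-/

set_option autoImplicit false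

namespace VF

open LatIso LatN AdmIso

section

/-- number of codes -/
def NB (a b k M : ℕ) : ℕ :=
  (a + 1) ^ (b + 1) * (b + 1) ^ (b + 1) * ((a + 1) * (b + 2) ^ M) ^ k

theorem b08_dist {V V' : Type} {R : SimpleGraph V} (hR : R.Connected) (ψ : V' ≃ V) (x y : V') :
    (R.comap ψ).dist x y = R.dist (ψ x) (ψ y) := by
  have hc : (R.comap ψ).Connected := (SimpleGraph.Iso.comap ψ R).connected_iff.2 hR
  apply le_antisymm
  · obtain ⟨w, hw⟩ := hR.exists_walk_length_eq_dist (ψ x) (ψ y)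
    let F : R →g R.comap ψ := ⟨fun z => ψ.symm z, fun {a b} hab => by
      change R.Adj (ψ (ψ.symm a)) (ψ (ψ.symm b))
      rw [Equiv.apply_symm_apply, Equiv.apply_symm_apply]
      exact hab⟩
    have h1 := SimpleGraph.dist_le (w.map F)
    rw [SimpleGraph.Walk.length_map, hw] at h1
    have e : ∀ z, F (ψ z) = z := fun z => ψ.symm_apply_apply z
    rw [e, e] at h1
    exact h1
  · obtain ⟨w, hw⟩ := hc.exists_walk_length_eq_dist x y
    let F : R.comap ψ →g R := ⟨fun z => ψ z, fun {a b} hab => hab⟩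
    have h1 := SimpleGraph.dist_le (w.map F)
    rw [SimpleGraph.Walk.length_map, hw] at h1
    exact h1

section

variable {E : Type} [Group E] {V : Type} [MulAction E V]

/-- the pull back of the tree by a twisted equivariant bijection -/
theorem b08_tlat {R : SimpleGraph V} (L : TLat E R) {f : E ≃* E} {ψ : V ≃ V}
    (hψ : ∀ g v, ψ (g • v) = f g • ψ v) : TLat E (R.comap ψ) := by
  refine ⟨⟨?_, ?_, ?_⟩, ?_, L.fin, L.cinv⟩
  · exact (SimpleGraph.Iso.comap ψ R).isTree_iff.mpr L.ta.tree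
  · intro g x y h
    rw [SimpleGraph.comap_adj] at h ⊢
    rw [hψ, hψ]
    exact L.ta.adj _ _ _ h
  · intro g x y h h1 h2
    rw [SimpleGraph.comap_adj] at h
    refine L.ta.noinv (f g) _ _ h ?_ ?_
    · rw [← hψ, h1]
    · rw [← hψ, h2]
  · intro v
    have h1 : (R.comap ψ).neighborSet v = ψ ⁻¹' (R.neighborSet (ψ v)) := by
      ext y
      simp
    rw [h1]
    exact (L.loc (ψ v)).preimage ψ.injective.injOn

theorem b08_key {f : E ≃* E} {ψ : V ≃ V} (hψ : ∀ g v, ψ (g • v) = f g • ψ v) (g : E) (x y : V) :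
    g • x = y ↔ f g • ψ x = ψ y := by
  rw [← hψ, ψ.apply_eq_iff_eq]

theorem b08_keyi {f : E ≃* E} {ψ : V ≃ V} (hψ : ∀ g v, ψ (g • v) = f g • ψ v) (g : E) (x : V) :
    ψ (g⁻¹ • x) = (f g)⁻¹ • ψ x := by
  rw [hψ, map_inv]

theorem b08_wd {R : SimpleGraph V} {v u : V} {A : Set V} (h : WD E R v u A) {f : E ≃* E}
    {ψ : V ≃ V} (hψ : ∀ g v, ψ (g • v) = f g • ψ v) :
    WD E (R.comap ψ) (ψ.symm v) (ψ.symm u) (ψ ⁻¹' A) := by
  refine ⟨?_, ?_, ?_, ?_, ?_⟩
  · intro x hx
    rw [SimpleGraph.comap_adj, Equiv.apply_symm_apply]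
    exact h.adj _ hx
  · change ψ (ψ.symm u) ∈ A
    rw [Equiv.apply_symm_apply]
    exact h.mem
  · intro g h1 h2 x hx
    rw [b08_key hψ, Equiv.apply_symm_apply] at h1 h2
    change ψ (g • x) ∈ A
    rw [hψ]
    exact h.stab _ h1 h2 _ hx
  · intro g h1 x hx hgx
    rw [b08_key hψ, Equiv.apply_symm_apply] at h1 ⊢
    change ψ (g • x) ∈ A at hgx
    rw [hψ] at hgx
    exact h.disj _ h1 _ hx hgx
  · intro g h1
    rw [b08_key hψ, Equiv.apply_symm_apply, Equiv.apply_symm_apply] at h1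
    change ψ (g⁻¹ • ψ.symm v) ∉ A
    rw [b08_keyi hψ, Equiv.apply_symm_apply]
    exact h.inv _ h1

theorem b08_mvd {v u : V} {A : Set V} {f : E ≃* E} {ψ : V ≃ V}
    (hψ : ∀ g v, ψ (g • v) = f g • ψ v) (x y z : V) :
    Mvd E (ψ.symm v) (ψ.symm u) (ψ ⁻¹' A) x y z ↔ Mvd E v u A (ψ x) (ψ y) (ψ z) := by
  have hne : ∀ (g : E), g⁻¹ • y ≠ ψ.symm u ↔ (f g)⁻¹ • ψ y ≠ u := by
    intro g
    rw [← b08_keyi hψ, ne_eq, ne_eq, Equiv.eq_symm_apply]
  constructor
  · rintro ⟨g, h1, h2, h3, h4⟩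
    rw [b08_key hψ, Equiv.apply_symm_apply] at h1 h4
    change ψ (g⁻¹ • y) ∈ A at h2
    rw [b08_keyi hψ] at h2
    exact ⟨f g, h1, h2, (hne g).1 h3, h4⟩
  · rintro ⟨k, h1, h2, h3, h4⟩
    obtain ⟨g, rfl⟩ := f.surjective k
    refine ⟨g, ?_, ?_, (hne g).2 h3, ?_⟩
    · rw [b08_key hψ, Equiv.apply_symm_apply]
      exact h1
    · change ψ (g⁻¹ • y) ∈ A
      rw [b08_keyi hψ]
      exact h2
    · rw [b08_key hψ, Equiv.apply_symm_apply]
      exact h4

theorem b08_nend {v u : V} {A : Set V} {f : E ≃* E} {ψ : V ≃ V}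
    (hψ : ∀ g v, ψ (g • v) = f g • ψ v) (x y z : V) :
    NEnd E (ψ.symm v) (ψ.symm u) (ψ ⁻¹' A) x y z ↔ NEnd E v u A (ψ x) (ψ y) (ψ z) := by
  unfold NEnd
  rw [b08_mvd hψ, ψ.apply_eq_iff_eq]
  have h1 : (∀ z', ¬ Mvd E (ψ.symm v) (ψ.symm u) (ψ ⁻¹' A) x y z') ↔
      ∀ z', ¬ Mvd E v u A (ψ x) (ψ y) z' := by
    constructor
    · intro h z' hz
      refine h (ψ.symm z') ?_
      rw [b08_mvd hψ, Equiv.apply_symm_apply]
      exact hz
    · intro h z' hz
      rw [b08_mvd hψ] at hz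
      exact h _ hz
  rw [h1]

theorem b08_whs {R R' : SimpleGraph V} (h : WhS E R R') {f : E ≃* E} {ψ : V ≃ V}
    (hψ : ∀ g v, ψ (g • v) = f g • ψ v) : WhS E (R.comap ψ) (R'.comap ψ) := by
  obtain ⟨v, u, A, hA, rfl⟩ := h
  refine ⟨ψ.symm v, ψ.symm u, ψ ⁻¹' A, b08_wd hA hψ, ?_⟩
  ext a b
  rw [SimpleGraph.comap_adj]
  constructor
  · rintro ⟨h1, x, y, h2, h3, h4⟩
    refine ⟨fun e => h1 (by rw [e]), ψ.symm x, ψ.symm y, ?_, ?_, ?_⟩
    · rw [SimpleGraph.comap_adj, Equiv.apply_symm_apply, Equiv.apply_symm_apply]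
      exact h2
    · rw [b08_nend hψ, Equiv.apply_symm_apply, Equiv.apply_symm_apply]
      exact h3
    · rw [b08_nend hψ, Equiv.apply_symm_apply, Equiv.apply_symm_apply]
      exact h4
  · rintro ⟨h1, x, y, h2, h3, h4⟩
    refine ⟨fun e => h1 (ψ.injective e), ψ x, ψ y, h2, ?_, ?_⟩
    · rw [b08_nend hψ] at h3
      exact h3
    · rw [b08_nend hψ] at h4
      exact h4

theorem b08_tl {R : SimpleGraph V} (hR : R.Connected) {f : E ≃* E} {ψ : V ≃ V}
    (hψ : ∀ g v, ψ (g • v) = f g • ψ v) (g : E) : tl (R.comap ψ) g = tl R (f g) := by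
  unfold tl
  congr 1
  ext n
  simp only [Set.mem_range]
  constructor
  · rintro ⟨x, rfl⟩
    exact ⟨ψ x, by rw [b08_dist hR, hψ]⟩
  · rintro ⟨x, rfl⟩
    exact ⟨ψ.symm x, by rw [b08_dist hR, hψ, Equiv.apply_symm_apply]⟩

/-- good twists -/
def b08_Gd {ι : Type} (c : E) (hh bb : ι → E) (f : E ≃* E) (ψ : V ≃ V) : Prop :=
  (∀ g v, ψ (g • v) = f g • ψ v) ∧ f c = c ∧
    ∀ i, ∃ g, f (hh i) = g⁻¹ * hh i * g ∧ f (bb i) = g⁻¹ * bb i * g

theorem b08_estep {ι : Type} [Fintype ι] {c : E} {hh bb : ι → E} {M : ℕ} {R R' : SimpleGraph V}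
    (h : EStep E hh M R R') {f : E ≃* E} {ψ : V ≃ V} (hg : b08_Gd c hh bb f ψ) :
    EStep E hh M (R.comap ψ) (R'.comap ψ) := by
  obtain ⟨L, L', h1, h2⟩ := h
  obtain ⟨hψ, -, hc⟩ := hg
  refine ⟨b08_tlat L hψ, b08_tlat L' hψ, b08_whs h1 hψ, ?_⟩
  refine le_trans (le_of_eq ?_) h2
  unfold len
  refine Finset.sum_congr rfl fun i _ => ?_
  obtain ⟨g, hg1, -⟩ := hc i
  rw [b08_tl L'.ta.tree.connected hψ, hg1]
  have h3 := tl_conj L'.ta g⁻¹ (hh i)
  rw [inv_inv] at h3
  exact h3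

theorem b08_comp {ι : Type} {c : E} {hh bb : ι → E} {f0 f1 : E ≃* E} {ψ0 ψ1 : V ≃ V}
    (h0 : b08_Gd c hh bb f0 ψ0) (h1 : b08_Gd c hh bb f1 ψ1) :
    b08_Gd c hh bb (f1.trans f0) (ψ1.trans ψ0) := by
  refine ⟨?_, ?_, ?_⟩
  · intro g v
    change ψ0 (ψ1 (g • v)) = f0 (f1 g) • ψ0 (ψ1 v)
    rw [h1.1, h0.1]
  · change f0 (f1 c) = c
    rw [h1.2.1, h0.2.1]
  · intro i
    obtain ⟨g0, a0, b0⟩ := h0.2.2 i
    obtain ⟨g1, a1, b1⟩ := h1.2.2 i
    refine ⟨g0 * f0 g1, ?_, ?_⟩
    · change f0 (f1 (hh i)) = _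
      rw [a1, map_mul, map_mul, map_inv, a0]
      group
    · change f0 (f1 (bb i)) = _
      rw [b1, map_mul, map_mul, map_inv, b0]
      group

/-- the elliptic element fixes the axis -/
theorem b08_fix {R : SimpleGraph V} (hta : TA E R) {g k : E} (hc : g * k = k * g)
    (hg : 0 < tl R g) (hk : ∃ v : V, k • v = v) {x : V} (hx : x ∈ CC R g) : k • x = x := by
  obtain ⟨b, hb1, hb2, hb3⟩ := tl_line hta g hg
  obtain ⟨d, hd⟩ := t03_trans hta g b hg hb1 hb2 hb3 k hc
  obtain ⟨j, rfl⟩ := (hb3 x).1 hx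
  have h0 : tl R k = 0 := (tl_eq_zero hta k).2 hk
  have h1 : R.dist (b j) (k • b j) = d.natAbs := by
    rw [hd, hb1]
    omega
  have h2 : R.dist (b j) (k • k • b j) = 2 * d.natAbs := by
    rw [hd, hd, hb1]
    omega
  have h3 : d = 0 := by
    by_contra hne
    have h4 : 0 < R.dist (b j) (k • b j) := by
      rw [h1]
      omega
    have h5 : R.dist (b j) (k • b j) = tl R k := tl_axis hta k (b j) h4 (by rw [h2, h1])
    omega
  rw [hd, h3, add_zero]

end

section

variable {E : Type} [Group E] {V : Type} [MulAction E V] {a b : ℕ} {Q : Type}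

/-- the data with new origins and inverses -/
abbrev b08_X (X : PD (Fin (a + 1)) (Fin (b + 1)) Q) (o : Fin (b + 1) → Fin (a + 1))
    (i : Fin (b + 1) → Fin (b + 1)) : PD (Fin (a + 1)) (Fin (b + 1)) Q := { X with o := o, i := i }

/-- codes -/
abbrev b08_Cd (a b M : ℕ) (ι : Type) : Type :=
  (Fin (b + 1) → Fin (a + 1)) × (Fin (b + 1) → Fin (b + 1)) ×
    (ι → Fin (a + 1) × (Fin M → Option (Fin (b + 1))))

theorem b08_card (a b M : ℕ) (ι : Type) [Fintype ι] [DecidableEq ι] :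
    Fintype.card (b08_Cd a b M ι) = NB a b (Fintype.card ι) M := by
  simp only [Fintype.card_prod, Fintype.card_fun, Fintype.card_fin, Fintype.card_option, NB]
  ring

/-- `κ` is a code of the tree `R` -/
def b08_code {ι : Type} (X : PD (Fin (a + 1)) (Fin (b + 1)) Q) (c : E) (q : E → Q) (D : E → ℤ)
    (p : V → Fin (a + 1)) (hh bb : ι → E) (M : ℕ) (R : SimpleGraph V)
    (κ : b08_Cd a b M ι) : Prop :=
  ∃ (al : V → V → Fin (b + 1)) (v : ι → V) (l : ι → List (Fin (b + 1))),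
    (b08_X X κ.1 κ.2.1).Ok ∧ PC E R (b08_X X κ.1 κ.2.1) c q D p al ∧
    ∀ j, Pth R al (v j) (l j) (hh j • v j) ∧ (l j).length ≤ M ∧ bb j • v j = v j ∧
      κ.2.2 j = (p (v j), fun m : Fin M => (l j)[(m : ℕ)]?)

theorem b08_code_exists {ι : Type} [Fintype ι] {X : PD (Fin (a + 1)) (Fin (b + 1)) Q} {c : E}
    {q : E → Q} {D : E → ℤ} {p : V → Fin (a + 1)} {hh bb : ι → E} {M : ℕ} {R : SimpleGraph V}
    {o : Fin (b + 1) → Fin (a + 1)} {i : Fin (b + 1) → Fin (b + 1)} {al : V → V → Fin (b + 1)}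
    (hO : (b08_X X o i).Ok) (h : PC E R (b08_X X o i) c q D p al) (hl : len E R hh ≤ M)
    (hc : ∀ i, hh i * bb i = bb i * hh i) (hy : ∀ i (v : V), hh i • v ≠ v)
    (el : ∀ i, ∃ v : V, bb i • v = v) :
    ∃ κ : b08_Cd a b M ι, b08_code X c q D p hh bb M R κ := by
  have hta := pc_ta hO h
  have hex : ∀ j, ∃ (v : V) (l : List (Fin (b + 1))), Pth R al v l (hh j • v) ∧
      l.length ≤ M ∧ bb j • v = v := by
    intro j
    have hpos : 0 < tl R (hh j) := by
      rw [Nat.pos_iff_ne_zero]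
      intro h0
      obtain ⟨v, hv⟩ := (tl_eq_zero hta _).1 h0
      exact hy j v hv
    obtain ⟨v, hv⟩ := cc_nonempty hta (hh j)
    obtain ⟨l, hl1, hl2⟩ := pth_exists hta.tree.connected al v (hh j • v)
    refine ⟨v, l, hl1, ?_, b08_fix hta (hc j) hpos (el j) hv⟩
    rw [hl2]
    have e1 : R.dist v (hh j • v) = tl R (hh j) := hv
    rw [e1]
    refine le_trans ?_ hl
    unfold len
    exact Finset.single_le_sum (f := fun i => tl R (hh i)) (fun _ _ => Nat.zero_le _)
      (Finset.mem_univ j)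
  choose v l h1 h2 h3 using hex
  exact ⟨(o, i, fun j => (p (v j), fun m : Fin M => (l j)[(m : ℕ)]?)), al, v, l, hO, h,
    fun j => ⟨h1 j, h2 j, h3 j, rfl⟩⟩

theorem b08_list {A : Type} {M : ℕ} {l l' : List A} (h : l.length ≤ M) (h' : l'.length ≤ M)
    (he : (fun m : Fin M => l[(m : ℕ)]?) = fun m : Fin M => l'[(m : ℕ)]?) : l = l' := by
  apply List.ext_getElem?
  intro n
  rcases Nat.lt_or_ge n M with hn | hn
  · exact congrFun he ⟨n, hn⟩
  · rw [List.getElem?_eq_none (by omega), List.getElem?_eq_none (by omega)]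

theorem b08_code_eq {ι : Type} {X : PD (Fin (a + 1)) (Fin (b + 1)) Q} {c : E}
    {q : E → Q} {D : E → ℤ} {p : V → Fin (a + 1)} {hh bb : ι → E} {M : ℕ} {R R' : SimpleGraph V}
    (he : ∀ i, X.ep (q (hh i)) = 1) (he' : ∀ i, X.ep (q (bb i)) = 1) {κ : b08_Cd a b M ι}
    (h : b08_code X c q D p hh bb M R κ) (h' : b08_code X c q D p hh bb M R' κ) :
    ∃ (f : E ≃* E) (ψ : V ≃ V), b08_Gd c hh bb f ψ ∧ R = R'.comap ψ := by
  obtain ⟨al, v, l, hO, hP, hj⟩ := h
  obtain ⟨al', v', l', -, hP', hj'⟩ := h'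
  obtain ⟨v0, hv0⟩ := hP.onto 0
  obtain ⟨f, ψ, -, hadj, hp, hal, hequ, hq, hD, hfc⟩ := pc_strict hO hP hP' v0 v0 rfl
  refine ⟨f, ψ, ⟨hequ, hfc, ?_⟩, ?_⟩
  · intro j
    obtain ⟨a1, a2, a3, a4⟩ := hj j
    obtain ⟨b1, b2, b3, b4⟩ := hj' j
    rw [a4] at b4
    have e1 : p (v j) = p (v' j) := congrArg Prod.fst b4
    have e2 : l j = l' j := b08_list a2 b2 (congrArg Prod.snd b4)
    obtain ⟨g, hg1, hg2⟩ := hP'.tr (ψ (v j)) (v' j) (by rw [hp, e1])
    rw [← e2] at b1
    refine ⟨g, ?_, ?_⟩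
    · exact strict_conj hO hP hP' f ψ (fun x y hxy => ⟨(hadj x y).1 hxy, hal x y hxy⟩) hequ hq hD
        a1 b1 (he j) hg1 hg2
    · refine strict_conj hO hP hP' f ψ (fun x y hxy => ⟨(hadj x y).1 hxy, hal x y hxy⟩) hequ hq hD
        (v := v j) (v' := v' j) (l := []) ?_ ?_ (he' j) hg1 hg2
      · rw [a3]
        exact Pth.nil _
      · rw [b3]
        exact Pth.nil _
  · ext x y
    exact hadj x y

end

theorem b08_chain {E : Type} [Group E] {V : Type} [MulAction E V] {ι : Type} [Fintype ι]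
    {hh : ι → E} {M : ℕ} {S S'' : SimpleGraph V}
    (h : Relation.ReflTransGen (EStep E hh M) S S'') :
    ∃ (n : ℕ) (Z : ℕ → SimpleGraph V), Z 0 = S ∧ Z n = S'' ∧
      ∀ i < n, EStep E hh M (Z i) (Z (i + 1)) := by
  induction h with
  | refl => exact ⟨0, fun _ => S, rfl, rfl, fun i hi => absurd hi (Nat.not_lt_zero i)⟩
  | @tail Y W _ h2 ih =>
    obtain ⟨n, Z, h0, hn, hs⟩ := ih
    refine ⟨n + 1, fun i => if i ≤ n then Z i else W, ?_, ?_, ?_⟩
    · simp only [Nat.zero_le, if_true]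
      exact h0
    · simp only [Nat.not_succ_le_self, if_false]
    · intro i hi
      by_cases hin : i < n
      · simp only [show i ≤ n by omega, show i + 1 ≤ n by omega, if_true]
        exact hs i hin
      · have e : i = n := by omega
        subst e
        simp only [le_refl, if_true, Nat.not_succ_le_self, if_false]
        rw [hn]
        exact h2

theorem b08_lip {E : Type} [Group E] {V : Type} [MulAction E V] {ι : Type} [Fintype ι]
    {hh : ι → E} {M : ℕ} (Z : ℕ → SimpleGraph V) (m : ℕ)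
    (hs : ∀ i < m, EStep E hh M (Z i) (Z (i + 1))) (x y : V) :
    (Z m).dist x y ≤ 3 ^ m * (Z 0).dist x y ∧ (Z 0).dist x y ≤ 3 ^ m * (Z m).dist x y := by
  induction m with
  | zero => simp
  | succ m ih =>
    obtain ⟨h1, h2⟩ := ih (fun i hi => hs i (by omega))
    obtain ⟨L, L', hw, -⟩ := hs m (by omega)
    have h3 := wh_lip L.ta hw x y
    have h4 := wh_lip L'.ta (wh_symm L.ta hw) x y
    constructor
    · calc (Z (m + 1)).dist x y ≤ 3 * (Z m).dist x y := h3
        _ ≤ 3 * (3 ^ m * (Z 0).dist x y) := Nat.mul_le_mul_left 3 h1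
        _ = _ := by ring
    · calc (Z 0).dist x y ≤ 3 ^ m * (Z m).dist x y := h2
        _ ≤ 3 ^ m * (3 * (Z (m + 1)).dist x y) := Nat.mul_le_mul_left _ h4
        _ = _ := by ring

theorem b08_main {E : Type} [Group E] {V : Type} [MulAction E V] {S : SimpleGraph V} {a b : ℕ}
    {Q : Type} {X : PD (Fin (a + 1)) (Fin (b + 1)) Q} {c : E} {q : E → Q} {D : E → ℤ}
    {p : V → Fin (a + 1)} {al : V → V → Fin (b + 1)} (hX : X.Ok) (h : PC E S X c q D p al)
    {ι : Type} [Fintype ι] (hh bb : ι → E) (M : ℕ)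
    (h1 : len E S hh ≤ M) (hc : ∀ i, hh i * bb i = bb i * hh i)
    (he : ∀ i, X.ep (q (hh i)) = 1) (he' : ∀ i, X.ep (q (bb i)) = 1)
    (hy : ∀ i (v : V), hh i • v ≠ v) (el : ∀ i, ∃ v : V, bb i • v = v) :
    ∀ (n : ℕ) (Z : ℕ → SimpleGraph V), Z 0 = S → (∀ i < n, EStep E hh M (Z i) (Z (i + 1))) →
      ∃ (f : E ≃* E) (ψ : V ≃ V), b08_Gd c hh bb f ψ ∧ ∃ m ≤ NB a b (Fintype.card ι) M,
        ∃ Y : ℕ → SimpleGraph V, Y 0 = S ∧ Y m = (Z n).comap ψ ∧
          ∀ i < m, EStep E hh M (Y i) (Y (i + 1)) := by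
  classical
  intro n
  induction n using Nat.strong_induction_on with
  | _ n ih =>
    intro Z hZ0 hZ
    rcases Nat.lt_or_ge (NB a b (Fintype.card ι) M) n with hn | hn
    · -- labels
      have hlab : ∀ i ≤ n, ∃ (o : Fin (b + 1) → Fin (a + 1)) (i' : Fin (b + 1) → Fin (b + 1))
          (al' : V → V → Fin (b + 1)), (b08_X X o i').Ok ∧
          PC E (Z i) (b08_X X o i') c q D p al' := by
        intro i
        induction i with
        | zero =>
          intro _
          rw [hZ0]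
          exact ⟨X.o, X.i, al, hX, h⟩
        | succ i ihi =>
          intro hi
          obtain ⟨o, i', al', hO, hP⟩ := ihi (by omega)
          obtain ⟨o2, i2, al2, hO2, hP2⟩ := pc_move hO hP (hZ i (by omega)).2.2.1
          exact ⟨o2, i2, al2, hO2, hP2⟩
      have hlen : ∀ i ≤ n, len E (Z i) hh ≤ M := by
        intro i hi
        cases i with
        | zero =>
          rw [hZ0]
          exact h1
        | succ i => exact (hZ i (by omega)).2.2.2
      have hcode : ∀ i : Fin (n + 1), ∃ κ : b08_Cd a b M ι,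
          b08_code X c q D p hh bb M (Z i) κ := by
        intro i
        obtain ⟨o, i', al', hO, hP⟩ := hlab i (by omega)
        exact b08_code_exists hO hP (hlen i (by omega)) hc hy el
      choose κ hκ using hcode
      obtain ⟨i, j, hij, he2⟩ := Fintype.exists_ne_map_eq_of_card_lt κ (by
        rw [b08_card, Fintype.card_fin]
        omega)
      -- order
      obtain ⟨i, j, hij, hjn, he2⟩ : ∃ i j : ℕ, i < j ∧ j ≤ n ∧
          ∃ κ0 : b08_Cd a b M ι, b08_code X c q D p hh bb M (Z i) κ0 ∧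
            b08_code X c q D p hh bb M (Z j) κ0 := by
        have hne : (i : ℕ) ≠ j := fun e => hij (Fin.ext e)
        rcases Nat.lt_or_ge (i : ℕ) j with h3 | h3
        · exact ⟨i, j, h3, by omega, κ i, hκ i, by rw [he2]; exact hκ j⟩
        · exact ⟨j, i, by omega, by omega, κ i, by rw [he2]; exact hκ j, hκ i⟩
      obtain ⟨κ0, c1, c2⟩ := he2
      obtain ⟨f0, ψ0, hg0, hZij⟩ := b08_code_eq he he' c1 c2
      obtain ⟨f1, ψ1, hg1, m, hm, Y, hY0, hYm, hY⟩ := ih (n - (j - i)) (by omega)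
        (fun t => if t < i then Z t else (Z (t + (j - i))).comap ψ0) (by
          by_cases h0 : 0 < i
          · simp only [h0, if_true]
            exact hZ0
          · have e : i = 0 := by omega
            subst e
            simp only [lt_irrefl, if_false, zero_add, Nat.sub_zero]
            rw [← hZij]
            exact hZ0) (by
          intro t ht
          by_cases h3 : t < i
          · by_cases h4 : t + 1 < i
            · simp only [h3, h4, if_true]
              exact hZ t (by omega)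
            · have e : t + 1 = i := by omega
              simp only [h3, h4, if_true, if_false]
              have e2 : t + 1 + (j - i) = j := by omega
              rw [e2, ← hZij, ← e]
              exact hZ t (by omega)
          · have h4 : ¬ t + 1 < i := by omega
            simp only [h3, h4, if_false]
            have e2 : t + 1 + (j - i) = t + (j - i) + 1 := by omega
            rw [e2]
            exact b08_estep (hZ (t + (j - i)) (by omega)) hg0)
      refine ⟨f1.trans f0, ψ1.trans ψ0, b08_comp hg0 hg1, m, hm, Y, hY0, ?_, hY⟩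
      rw [hYm]
      have h5 : ¬ n - (j - i) < i := by omega
      have h6 : n - (j - i) + (j - i) = n := by omega
      simp only [h5, if_false, h6]
      ext x y
      rfl
    · refine ⟨MulEquiv.refl E, Equiv.refl V, ⟨fun _ _ => rfl, rfl, fun i => ⟨1, ?_, ?_⟩⟩, n, hn,
        Z, hZ0, ?_, hZ⟩
      · change hh i = _
        group
      · change bb i = _
        group
      · ext x y
        rfl

theorem bnd {E : Type} [Group E] {V : Type} [MulAction E V] {S : SimpleGraph V} {a b : ℕ}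
    {Q : Type} [Finite Q] {X : PD (Fin (a + 1)) (Fin (b + 1)) Q} {c : E} {q : E → Q} {D : E → ℤ}
    {p : V → Fin (a + 1)} {al : V → V → Fin (b + 1)} (hX : X.Ok) (h : PC E S X c q D p al)
    {S'' : SimpleGraph V} (L : TLat E S'') {ι : Type} [Fintype ι] (hh bb : ι → E) (M : ℕ)
    (h1 : len E S hh ≤ M) (h2 : len E S'' hh ≤ M) (hc : ∀ i, hh i * bb i = bb i * hh i)
    (he : ∀ i, X.ep (q (hh i)) = 1) (he' : ∀ i, X.ep (q (bb i)) = 1)
    (hy : ∀ i (v : V), hh i • v ≠ v) (el : ∀ i, ∃ v : V, bb i • v = v) :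
    ∃ (f : E ≃* E) (ψ : V ≃ V), (∀ g v, ψ (g • v) = f g • ψ v) ∧ f c = c ∧
      (∀ i, ∃ g, f (hh i) = g⁻¹ * hh i * g ∧ f (bb i) = g⁻¹ * bb i * g) ∧
      ∀ x y, S''.dist (ψ x) (ψ y) ≤ 3 ^ NB a b (Fintype.card ι) M * S.dist x y ∧
        S.dist x y ≤ 3 ^ NB a b (Fintype.card ι) M * S''.dist (ψ x) (ψ y) := by
  obtain ⟨n, Z, hZ0, hZn, hZ⟩ := b08_chain (ew hh M (pc_tlat hX h) L h1 h2)
  obtain ⟨f, ψ, hg, m, hm, Y, hY0, hYm, hY⟩ :=
    b08_main hX h hh bb M h1 hc he he' hy el n Z hZ0 hZ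
  refine ⟨f, ψ, hg.1, hg.2.1, hg.2.2, ?_⟩
  intro x y
  obtain ⟨k1, k2⟩ := b08_lip Y m hY x y
  rw [hY0, hYm, hZn, b08_dist L.ta.tree.connected] at k1 k2
  have h3 : 3 ^ m ≤ 3 ^ NB a b (Fintype.card ι) M := Nat.pow_le_pow_right (by norm_num) hm
  exact ⟨k1.trans (Nat.mul_le_mul_right _ h3), k2.trans (Nat.mul_le_mul_right _ h3)⟩

end

end VF
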