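import Pool.Agent.Lib.MP_32d917_al_vf.B08
import Pool.Agent.Lib.MP_32d917_al.N.NS3
import Pool.Agent.Lib.MP_32d917_al.FIX

/-!
# B09: two trees with different sets of vertices

`E` acts on `S` and on `S'`, `c' = c` or `c⁻¹`. Both are `TLat` and reduced (`pc_tlat`, `pc_red`). The stabiliser of `v : V` fixes a vertex of `S'`:
it contains `<c>` with finite index (`pc_eqc`: `g ↦ q g` is injective modulo `<c>` on it), and `c` acts trivially on `S'`, so its orbits on `V'` are
finite: `fix_of_finite` (FIX). So `StabLe` in both directions, and `tvset` (N/NS3) gives an equivariant bijection `φ : V ≃ V'`. Apply `bnd` to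
`S'' = S'.comap φ`. `len`: `AxM` gives `tl S (h i) = n i` (`tl_axis` in TL1) and `tl S' (h i) = n' i`, and no fixed vertex: in `V` the element `h i` is
hyperbolic. `ep (q (b i)) = 1`: `b ^ m = c` commutes with `b`, `pc_conj`, `pc_inf`; `ep (q (h i)) = 1`: `h` commutes with `b ^ m = c`.
-/

set_option autoImplicit false

namespace VF

open LatIso LatN AdmIso

section

/-- `v` lies on the axis of `h`, which has translation length `n`; `b` fixes `v` and commutes with `h` -/
structure AxM (E : Type) [Group E] {V : Type} [MulAction E V] (S : SimpleGraph V) (h b : E) (v : V)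
    (n : ℕ) : Prop where
  n0 : 0 < n
  d1 : S.dist v (h • v) = n
  d2 : S.dist v (h • h • v) = 2 * n
  bv : b • v = v
  com : h * b = b * h

theorem b09_iso_le {V U : Type} {S : SimpleGraph V} {R : SimpleGraph U} (hS : S.Connected)
    (f : S →g R) (x y : V) : R.dist (f x) (f y) ≤ S.dist x y := by
  obtain ⟨w, hw⟩ := hS.exists_walk_length_eq_dist x y
  rw [← hw]
  have := SimpleGraph.dist_le (w.map f)
  rwa [SimpleGraph.Walk.length_map] at this

theorem b09_dist {V U : Type} {R : SimpleGraph U} (φ : V ≃ U) (hR : R.IsTree) (x y : V) :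
    (R.comap φ).dist x y = R.dist (φ x) (φ y) := by
  have hT : (R.comap φ).IsTree := (SimpleGraph.Iso.comap φ R).isTree_iff.2 hR
  apply le_antisymm
  · have := b09_iso_le hR.connected (SimpleGraph.Iso.comap φ R).symm.toHom (φ x) (φ y)
    have e : ∀ z, (SimpleGraph.Iso.comap φ R).symm.toHom (φ z) = z := fun z =>
      φ.symm_apply_apply z
    rw [e, e] at this
    exact this
  · exact b09_iso_le hT.connected (SimpleGraph.Iso.comap φ R).toHom x y

theorem b09_tl {E : Type} [Group E] {V U : Type} [MulAction E V] [MulAction E U]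
    {R : SimpleGraph U} (φ : V ≃ U) (hR : R.IsTree) (hφ : ∀ (g : E) (v : V), φ (g • v) = g • φ v)
    (g : E) : tl (R.comap φ) g = tl R g := by
  unfold tl
  congr 1
  ext n
  constructor
  · rintro ⟨x, rfl⟩
    refine ⟨φ x, ?_⟩
    show R.dist (φ x) (g • φ x) = (R.comap φ).dist x (g • x)
    rw [b09_dist φ hR, hφ]
  · rintro ⟨y, rfl⟩
    refine ⟨φ.symm y, ?_⟩
    show (R.comap φ).dist (φ.symm y) (g • φ.symm y) = R.dist y (g • y)
    rw [b09_dist φ hR, hφ, φ.apply_symm_apply]

theorem b09_tlat {E : Type} [Group E] {V U : Type} [MulAction E V] [MulAction E U]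
    {R : SimpleGraph U} (L : TLat E R) (φ : V ≃ U)
    (hφ : ∀ (g : E) (v : V), φ (g • v) = g • φ v) : TLat E (R.comap φ) where
  ta :=
    { tree := (SimpleGraph.Iso.comap φ R).isTree_iff.2 L.ta.tree
      adj := by
        intro g x y hxy
        rw [SimpleGraph.comap_adj] at hxy ⊢
        rw [hφ, hφ]
        exact L.ta.adj g _ _ hxy
      noinv := by
        intro g x y hxy h1 h2
        rw [SimpleGraph.comap_adj] at hxy
        exact L.ta.noinv g _ _ hxy (by rw [← hφ, h1]) (by rw [← hφ, h2]) }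
  loc := by
    intro v
    have h1 : (R.comap φ).neighborSet v = φ ⁻¹' (R.neighborSet (φ v)) := rfl
    rw [h1]
    exact (L.loc (φ v)).preimage φ.injective.injOn
  fin := by
    classical
    obtain ⟨F, hF⟩ := L.fin
    refine ⟨F.image φ.symm, fun v => ?_⟩
    obtain ⟨g, hg⟩ := hF (φ v)
    refine ⟨g, Finset.mem_image.2 ⟨_, hg, ?_⟩⟩
    rw [← hφ, φ.symm_apply_apply]
  cinv := by
    intro v x g h1 k h2 h3
    have h4 := L.cinv (φ v) (φ x) g (fun k h5 h6 => by
      have h7 := h1 k (φ.injective (by rw [hφ, h5])) (φ.injective (by rw [hφ, h6]))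
      refine ⟨?_, ?_⟩
      · rw [← hφ, ← hφ, h7.1]
      · rw [← hφ, ← hφ, h7.2]) k (by rw [← hφ, ← hφ, h2]) (by rw [← hφ, ← hφ, h3])
    exact ⟨φ.injective (by rw [hφ, h4.1]), φ.injective (by rw [hφ, h4.2])⟩

theorem b09_stab {E : Type} [Group E] {V : Type} [MulAction E V] {S : SimpleGraph V}
    {P A Q : Type} [Finite Q] {X : PD P A Q} {c : E} {q : E → Q} {D : E → ℤ} {p : V → P}
    {al : V → V → A} (hX : X.Ok) (h : PC E S X c q D p al) {V' : Type} [MulAction E V']
    {S' : SimpleGraph V'} (T : TA E S') (hc : ∀ v : V', c • v = v) (v : V) :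
    ∃ v' : V', StabLe E v v' := by
  classical
  obtain ⟨w⟩ := T.tree.connected.nonempty
  have key : ∀ k k' : E, k • v = v → k' • v = v → q k = q k' → k • w = k' • w := by
    intro k k' h1 h2 h3
    obtain ⟨j, hj⟩ := pc_eqc hX h (v := v) h3 (by rw [h1, h2])
    have h4 : c ^ j ∈ MulAction.stabilizer E w := Subgroup.zpow_mem _ (hc w) j
    rw [hj, mul_smul, MulAction.mem_stabilizer_iff.1 h4]
  have hfin : (Set.range fun k : MulAction.stabilizer E v => (k : E) • w).Finite := by
    refine (Set.finite_range fun y : Q => if hy : ∃ k : E, k • v = v ∧ q k = y then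
      hy.choose • w else w).subset ?_
    rintro _ ⟨k, rfl⟩
    have hy : ∃ k' : E, k' • v = v ∧ q k' = q k := ⟨k, k.2, rfl⟩
    refine ⟨q k, ?_⟩
    show (if hy : ∃ k' : E, k' • v = v ∧ q k' = q k then hy.choose • w else w) = (k : E) • w
    rw [dif_pos hy]
    exact key _ _ hy.choose_spec.1 k.2 hy.choose_spec.2
  obtain ⟨x, hx⟩ := fix_of_finite T (MulAction.stabilizer E v) w hfin
  exact ⟨x, fun g hg => hx g hg⟩

theorem b09_ep {E : Type} [Group E] {V : Type} [MulAction E V] {S : SimpleGraph V}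
    {P A Q : Type} {X : PD P A Q} {c : E} {q : E → Q} {D : E → ℤ} {p : V → P}
    {al : V → V → A} (hX : X.Ok) (h : PC E S X c q D p al) (g : E) (hg : g * c = c * g) :
    X.ep (q g) = 1 := by
  have h1 := pc_conj hX h g
  rw [hg, mul_inv_cancel_right] at h1
  rcases hX.ep1 (q g) with h2 | h2
  · exact h2
  · rw [h2] at h1
    have h3 : c ^ (2 : ℤ) = 1 := by
      calc c ^ (2 : ℤ) = c ^ (1 : ℤ) * c ^ (1 : ℤ) := by rw [← zpow_add]; norm_num
        _ = c * c := by rw [zpow_one]
        _ = c * c ^ (-1 : ℤ) := by rw [← h1]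
        _ = 1 := by rw [zpow_neg_one, mul_inv_cancel]
    have := pc_inf hX h 2 h3
    omega

theorem b09_ax {E : Type} [Group E] {V : Type} [MulAction E V] {S : SimpleGraph V} (T : TA E S)
    {h b : E} {v : V} {n : ℕ} (hA : AxM E S h b v n) : tl S h = n := by
  have h1 := tl_axis T h v (by rw [hA.d1]; exact hA.n0) (by rw [hA.d2, hA.d1])
  have h2 : S.dist v (h • v) = tl S h := h1
  rw [← h2, hA.d1]

theorem bnd_two {E : Type} [Group E] {V : Type} [MulAction E V] {S : SimpleGraph V} {a b : ℕ}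
    {Q : Type} [Finite Q] {X : PD (Fin (a + 1)) (Fin (b + 1)) Q} {c : E} {q : E → Q} {D : E → ℤ}
    {p : V → Fin (a + 1)} {al : V → V → Fin (b + 1)} (hX : X.Ok) (hN : X.Nice)
    (h : PC E S X c q D p al)
    {V' : Type} [MulAction E V'] {S' : SimpleGraph V'} {a' b' : ℕ}
    {Q' : Type} [Finite Q'] {X' : PD (Fin (a' + 1)) (Fin (b' + 1)) Q'} {c' : E} {q' : E → Q'}
    {D' : E → ℤ} {p' : V' → Fin (a' + 1)} {al' : V' → V' → Fin (b' + 1)} (hX' : X'.Ok)
    (hN' : X'.Nice) (h' : PC E S' X' c' q' D' p' al') (hcc : c' = c ∨ c' = c⁻¹)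
    {ι : Type} [Fintype ι] (hh bb : ι → E) (v : ι → V) (v' : ι → V') (n n' : ι → ℕ)
    (h1 : ∀ i, AxM E S (hh i) (bb i) (v i) (n i)) (h2 : ∀ i, AxM E S' (hh i) (bb i) (v' i) (n' i))
    (h3 : ∀ i, ∃ m : ℕ, 0 < m ∧ bb i ^ m = c) :
    ∃ (f : E ≃* E) (χ : V ≃ V'), (∀ g v, χ (g • v) = f g • χ v) ∧ f c = c ∧
      (∀ i, ∃ g, f (hh i) = g⁻¹ * hh i * g ∧ f (bb i) = g⁻¹ * bb i * g) ∧
      ∀ x y, S'.dist (χ x) (χ y) ≤
          3 ^ NB a b (Fintype.card ι) (∑ i, n i + ∑ i, n' i) * S.dist x y ∧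
        S.dist x y ≤
          3 ^ NB a b (Fintype.card ι) (∑ i, n i + ∑ i, n' i) * S'.dist (χ x) (χ y) := by
  classical
  have L := pc_tlat hX h
  have L' := pc_tlat hX' h'
  have hR := pc_red hX hN h
  have hR' := pc_red hX' hN' h'
  have hc : ∀ v : V', c • v = v := by
    intro v
    have h4 := h'.cf v
    rcases hcc with h5 | h5
    · rw [← h5]
      exact h4
    · rw [h5, inv_smul_eq_iff] at h4
      exact h4.symm
  have hc' : ∀ v : V, c' • v = v := by
    intro v
    rcases hcc with h5 | h5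
    · rw [h5]
      exact h.cf v
    · rw [h5, inv_smul_eq_iff]
      exact (h.cf v).symm
  obtain ⟨φ, hφ⟩ := tvset L L' hR hR' (b09_stab hX h L'.ta hc) (b09_stab hX' h' L.ta hc')
  have hbc : ∀ i, bb i * c = c * bb i := by
    intro i
    obtain ⟨m, _, hm⟩ := h3 i
    rw [← hm, ← pow_succ', ← pow_succ]
  have hhc : ∀ i, hh i * c = c * hh i := by
    intro i
    obtain ⟨m, _, hm⟩ := h3 i
    rw [← hm]
    exact (Commute.pow_right (show Commute (hh i) (bb i) from (h1 i).com) m).eq
  have e1 : len E S hh = ∑ i, n i := by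
    unfold len
    exact Finset.sum_congr rfl fun i _ => b09_ax L.ta (h1 i)
  have e2 : len E (S'.comap φ) hh = ∑ i, n' i := by
    unfold len
    exact Finset.sum_congr rfl fun i _ => by
      rw [b09_tl φ L'.ta.tree hφ]
      exact b09_ax L'.ta (h2 i)
  obtain ⟨f, ψ, f1, f2, f3, f4⟩ := bnd hX h (b09_tlat L' φ hφ) hh bb (∑ i, n i + ∑ i, n' i)
    (by rw [e1]; exact Nat.le_add_right _ _) (by rw [e2]; exact Nat.le_add_left _ _)
    (fun i => (h1 i).com) (fun i => b09_ep hX h _ (hhc i)) (fun i => b09_ep hX h _ (hbc i))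
    (by
      intro i w hw
      have h4 := (tl_eq_zero L.ta (hh i)).2 ⟨w, hw⟩
      rw [b09_ax L.ta (h1 i)] at h4
      exact (h1 i).n0.ne' h4)
    (fun i => ⟨v i, (h1 i).bv⟩)
  refine ⟨f, ψ.trans φ, ?_, f2, f3, ?_⟩
  · intro g w
    show φ (ψ (g • w)) = f g • φ (ψ w)
    rw [f1, hφ]
  · intro x y
    have h4 := f4 x y
    rw [b09_dist φ L'.ta.tree] at h4
    exact h4

end

end VF
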