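import Pool.Agent.Lib.MP_32d917_al_vf.B09
import Pool.Agent.Lib.MP_32d917_al_vf.B05
import Pool.Agent.Lib.MP_32d917_al.N.NS1

/-!
# B10: bounded words

Let `θ` be given. `PG X` acts on `V'` by `g • v' := θ g • v'` (`MulAction.compHom`), with `PC` for `c'' = θ⁻¹ c'` (transport). `θ c = c' ^ (±1)`:
`b ^ m = c`, `b' ^ m' = c'`, so `θ (b ^ (m m'))` is conjugate to `b' ^ (± m m')`, i.e. `θ (c ^ m') = g c' ^ (± m) g⁻¹ = c' ^ (± m)`
(`pc_conj`), and symmetrically... to get the exponent exactly: `θ c` has `q' = e` after a power and is elliptic on `S'` — use `PieceG`-like argument: `θ c`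
is normalised by everything, some power of it is in `<c'>`, so it acts trivially on `S'`: it is elliptic, its set of fixed vertices is invariant under the whole
group (`g (θ c) g⁻¹ = (θ c) ^ (±1)`), convex and non empty, and every vertex lies between translates of any vertex (no leaves, finitely many orbits:
`two`; an invariant subtree is everything). So `q' (θ c)` acts trivially on the points and darts of `X'`, and `ep' = 1` (`θ c` commutes with a power of itself in `<c'>`), so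
`q' (θ c) = e` by `fai` and `θ c ∈ <c'>` (`free`). By symmetry `θ⁻¹ c' ∈ <c>`, so `θ c = c' ^ (±1)`.
`h2` of `bnd_two`: the point `g_i t' (v' i)` with `g_i` from the hypothesis: `h' ^ (±1) b' ^ τ` moves `t' (v' i)` to `h' ^ (±1) t' (v' i)`.

Let `f, χ` be as in `bnd_two`, `N` the exponent. `θ0 = θ ∘ f` satisfies the same hypotheses, and `χ (g v) = θ0 g • χ v`. The vertex `χ (t p0)` has the same label as
`t' v1` for some `v1`, so `k χ (t p0) = t' v1` for some `k` with `q' k = e`. Put `θ1 = conj k ∘ θ0`, `χ1 = k χ`: `χ1 (g v) = θ1 g • χ1 v`, and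
`d' (t' p0', χ1 (t p0)) ≤ a'` (`t_dist`).
* Generators of `PG X`: `d (t p0, γ t p0) ≤ 2 a + 1` (`gen_dist`), so `d' (χ1 (t p0), θ1 γ χ1 (t p0)) ≤ 3 ^ N (2 a + 1)`, and
  `d' (t' p0', θ1 γ t' p0') ≤ 3 ^ N (2 a + 1) + 2 a'`. `pg_bdd`.
* Generators of `PG X'`: `d' (χ1 (t p0), γ' χ1 (t p0)) ≤ 2 a' + 2 a' + 1`, and `d (t p0, θ1⁻¹ γ' t p0) ≤ 3 ^ N (4 a' + 1)`.
* Conjugators: `θ1 (h i) = g (h' i ^ s b' i ^ τ) g⁻¹`, and the same `g` for `b i`. Let `z = χ1 (t (v i))`; `d' (z, θ1 (h i) z) ≤ 3 ^ N n_i`. The distance of `z` to the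
  axis of `θ1 (h i)` is at most this number (`tl_disp`), let `y` be a nearest vertex of the axis. The axis is `g` (axis of `h' i`), which contains `g t' (v' i)`; the
  translates of this vertex under `g h' i ^ k g⁻¹` divide the axis into segments of length `n'_i`; replace `g` by `g h' i ^ k` (it commutes with `h' i`,
  `b' i`) so that `d' (y, g t' (v' i)) ≤ n'_i`. Then `d' (t' p0', g t' p0') ≤ d' (t' p0', χ1 (t p0)) + d' (χ1 (t p0), z) + d' (z, y) + d' (y, g t' (v' i)) +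
  d' (g t' (v' i), g t' p0') ≤ a' + 3 ^ N a + 3 ^ N M + M + a'`.
All numbers are at most `BB`.
-/

set_option autoImplicit false

namespace VF

open LatIso LatN AdmIso

section

/-- the bound -/
def BB (a b a' k M : ℕ) : ℕ := 3 ^ NB a b k M * (4 * (a + a' + M) + 4) + 4 * (a + a' + M) + 4

/-- elements normalised by everything with a power in the centre -/
theorem b10_triv {E : Type} [Group E] {V : Type} [MulAction E V] {S : SimpleGraph V} {P A Q : Type}
    [Finite P] [Finite A] [Finite Q] {X : PD P A Q} {c : E} {q : E → Q} {D : E → ℤ} {p : V → P}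
    {al : V → V → A} (hX : X.Ok) (hN : X.Nice) (h : PC E S X c q D p al) {z : E}
    (hz : ∀ g : E, g * z * g⁻¹ = z ∨ g * z * g⁻¹ = z⁻¹) {m : ℕ} (hm : 0 < m) {k : ℤ} (hk : k ≠ 0)
    (hzm : z ^ m = c ^ k) : ∃ j : ℤ, z = c ^ j := by
  have L : TLat E S := pc_tlat hX h
  have hl : Leafless S := pc_leafless hN h
  have h0 : tl S z = 0 := by
    have h1 : tl S (z ^ m) = 0 := by
      rw [tl_eq_zero L.ta]
      obtain ⟨v⟩ := L.ta.tree.connected.nonempty
      exact ⟨v, by rw [hzm]; exact (pc_cz hX h k).2.2 v⟩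
    rw [tl_pow L.ta] at h1
    rcases Nat.mul_eq_zero.1 h1 with h2 | h2
    · omega
    · exact h2
  have hfix : ∀ x : V, z • x = x := by
    intro x
    have h1 : x ∈ CC S z := by
      refine tmin L hl (CC S z) (cc_cvx L.ta z) (cc_nonempty L.ta z) ?_ x
      intro g y hy
      rw [← cc_conj L.ta g z y] at hy
      rcases hz g with h2 | h2
      · rw [h2] at hy
        exact hy
      · rw [h2, cc_inv L.ta] at hy
        exact hy
    have h2 : S.dist x (z • x) = 0 := by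
      rw [← h0]
      exact h1
    exact (L.ta.tree.connected.dist_eq_zero_iff.1 h2).symm
  have hP : ∀ v, X.aP (q z) v = v := by
    intro v
    obtain ⟨w, rfl⟩ := h.onto v
    rw [← h.pq, hfix]
  have hA : ∀ a, X.aA (q z) a = a := by
    intro a
    obtain ⟨v, hv⟩ := h.onto (X.o a)
    obtain ⟨w, h1, h2⟩ := h.sur v a hv.symm
    have h3 := h.alq z v w h1
    rw [hfix, hfix, h2] at h3
    exact h3.symm
  have hep : X.ep (q z) = 1 := by
    rcases hX.ep1 (q z) with h1 | h1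
    · exact h1
    · exfalso
      have h2 := pc_conj hX h z
      rw [h1] at h2
      have h3 : z * c ^ k * z⁻¹ = c ^ (-k) := by
        rw [← conj_zpow, h2, ← zpow_mul]
        congr 1
        ring
      have h4 : z * c ^ k * z⁻¹ = c ^ k := by
        rw [← hzm]
        group
      rw [h4] at h3
      have h5 : c ^ (2 * k) = 1 := by
        rw [two_mul, zpow_add]
        nth_rewrite 1 [h3]
        rw [← zpow_add, neg_add_cancel, zpow_zero]
      have h6 := pc_inf hX h _ h5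
      omega
  have hq := hN.fai (q z) hP hA hep
  obtain ⟨v⟩ := L.ta.tree.connected.nonempty
  exact h.free z v hq (hfix v)

theorem b10_sq (σ : ℤˣ) : (σ : ℤ) * σ = 1 := by
  rcases Int.units_eq_one_or σ with rfl | rfl <;> rfl

theorem b10_c {E : Type} [Group E] {V : Type} [MulAction E V] {S : SimpleGraph V} {P A Q : Type}
    {X : PD P A Q} {c : E} {q : E → Q} {D : E → ℤ} {p : V → P}
    {al : V → V → A} (hX : X.Ok) (h : PC E S X c q D p al)
    {E' : Type} [Group E'] {V' : Type} [MulAction E' V'] {S' : SimpleGraph V'} {P' A' Q' : Type}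
    [Finite P'] [Finite A'] [Finite Q']
    {X' : PD P' A' Q'} {c' : E'} {q' : E' → Q'} {D' : E' → ℤ} {p' : V' → P'}
    {al' : V' → V' → A'} (hX' : X'.Ok) (hN' : X'.Nice) (h' : PC E' S' X' c' q' D' p' al')
    (θ : E ≃* E') {b : E} {b' g : E'} {m m' : ℕ} (hm : 0 < m) (hm' : 0 < m') (hb : b ^ m = c)
    (hb' : b' ^ m' = c') (σ : ℤˣ) (hθ : θ b = g * b' ^ (σ : ℤ) * g⁻¹) : ∃ j : ℤ, θ c = c' ^ j := by
  have h1 : (θ c) ^ m' = c' ^ (X'.ep (q' g) * (σ * m)) := by
    have e1 : θ c = g * (b' ^ (σ : ℤ)) ^ m * g⁻¹ := by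
      rw [← hb, map_pow, hθ, conj_pow]
    have e2 : ((b' ^ (σ : ℤ)) ^ m) ^ m' = c' ^ ((σ : ℤ) * m) := by
      rw [← hb', ← zpow_natCast, ← zpow_natCast, ← zpow_natCast, ← zpow_mul, ← zpow_mul,
        ← zpow_mul]
      congr 1
      ring
    rw [e1, conj_pow, e2, ← conj_zpow, pc_conj hX' h' g, ← zpow_mul]
  refine b10_triv hX' hN' h' ?_ hm' ?_ h1
  · intro x
    obtain ⟨y, rfl⟩ := θ.surjective x
    have e1 : θ y * θ c * (θ y)⁻¹ = θ (y * c * y⁻¹) := by
      rw [map_mul, map_mul, map_inv]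
    rw [e1, pc_conj hX h y]
    rcases hX.ep1 (q y) with h2 | h2
    · rw [h2, zpow_one]
      exact Or.inl rfl
    · rw [h2, zpow_neg, zpow_one, map_inv]
      exact Or.inr rfl
  · have e1 : X'.ep (q' g) ≠ 0 := by
      rcases hX'.ep1 (q' g) with h2 | h2 <;> rw [h2] <;> decide
    have e2 : (m : ℤ) ≠ 0 := by exact_mod_cast hm.ne'
    exact mul_ne_zero e1 (mul_ne_zero σ.ne_zero e2)

theorem b10_cc {E : Type} [Group E] {V : Type} [MulAction E V] {S : SimpleGraph V} {P A Q : Type}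
    [Finite P] [Finite A] [Finite Q]
    {X : PD P A Q} {c : E} {q : E → Q} {D : E → ℤ} {p : V → P}
    {al : V → V → A} (hX : X.Ok) (hN : X.Nice) (h : PC E S X c q D p al)
    {E' : Type} [Group E'] {V' : Type} [MulAction E' V'] {S' : SimpleGraph V'} {P' A' Q' : Type}
    [Finite P'] [Finite A'] [Finite Q']
    {X' : PD P' A' Q'} {c' : E'} {q' : E' → Q'} {D' : E' → ℤ} {p' : V' → P'}
    {al' : V' → V' → A'} (hX' : X'.Ok) (hN' : X'.Nice) (h' : PC E' S' X' c' q' D' p' al')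
    (θ : E ≃* E') {b : E} {b' g : E'} {m m' : ℕ} (hm : 0 < m) (hm' : 0 < m') (hb : b ^ m = c)
    (hb' : b' ^ m' = c') (σ : ℤˣ) (hθ : θ b = g * b' ^ (σ : ℤ) * g⁻¹) :
    θ.symm c' = c ∨ θ.symm c' = c⁻¹ := by
  obtain ⟨j, hj⟩ := b10_c hX h hX' hN' h' θ hm hm' hb hb' σ hθ
  have hθ' : θ.symm b' = (θ.symm g)⁻¹ * b ^ (σ : ℤ) * (θ.symm g)⁻¹⁻¹ := by
    rw [inv_inv]
    apply θ.injective
    rw [MulEquiv.apply_symm_apply, map_mul, map_mul, map_inv, MulEquiv.apply_symm_apply, map_zpow,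
      hθ, conj_zpow, ← zpow_mul, b10_sq, zpow_one]
    group
  obtain ⟨i, hi⟩ := b10_c hX' h' hX hN h θ.symm hm' hm hb' hb σ hθ'
  have h1 : c' = c' ^ (j * i) := by
    rw [zpow_mul, ← hj, ← map_zpow, ← hi, MulEquiv.apply_symm_apply]
  have h2 : c' ^ (j * i - 1) = 1 := by
    rw [zpow_sub, ← h1, zpow_one, mul_inv_cancel]
  have h3 := pc_inf hX' h' _ h2
  have h4 : j * i = 1 := by omega
  rcases Int.eq_one_or_neg_one_of_mul_eq_one' h4 with ⟨-, h5⟩ | ⟨-, h5⟩
  · left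
    rw [hi, h5, zpow_one]
  · right
    rw [hi, h5, zpow_neg, zpow_one]

/-- the twisted action -/
theorem b10_tw {E : Type} [Group E] {E' : Type} [Group E'] {V' : Type} [MulAction E' V']
    [MulAction E V'] {S' : SimpleGraph V'} {P' A' Q' : Type}
    {X' : PD P' A' Q'} {c' : E'} {q' : E' → Q'} {D' : E' → ℤ} {p' : V' → P'}
    {al' : V' → V' → A'} (h' : PC E' S' X' c' q' D' p' al')
    (θ : E ≃* E') (hact : ∀ (g : E) (v : V'), g • v = θ g • v) :
    PC E S' X' (θ.symm c') (fun g => q' (θ g)) (fun g => D' (θ g)) p' al' where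
  tree := h'.tree
  adj := by
    intro g x y hxy
    rw [hact, hact]
    exact h'.adj _ _ _ hxy
  qm := by
    intro g k
    rw [map_mul]
    exact h'.qm _ _
  qs := by
    intro x
    obtain ⟨g, hg⟩ := h'.qs x
    exact ⟨θ.symm g, by rw [MulEquiv.apply_symm_apply]; exact hg⟩
  Dm := by
    intro g k
    rw [map_mul]
    exact h'.Dm _ _
  De := fun g => h'.De _
  qc := by
    rw [MulEquiv.apply_symm_apply]
    exact h'.qc
  Dc := by
    rw [MulEquiv.apply_symm_apply]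
    exact h'.Dc
  cf := by
    intro v
    rw [hact, MulEquiv.apply_symm_apply]
    exact h'.cf v
  free := by
    intro g v hg hv
    rw [hact] at hv
    obtain ⟨k, hk⟩ := h'.free (θ g) v hg hv
    refine ⟨k, ?_⟩
    apply θ.injective
    rw [hk, map_zpow, MulEquiv.apply_symm_apply]
  po := h'.po
  ali := h'.ali
  inj := h'.inj
  sur := h'.sur
  pq := by
    intro g v
    rw [hact]
    exact h'.pq _ _
  alq := by
    intro g v w hvw
    rw [hact, hact]
    exact h'.alq _ _ _ hvw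
  tr := by
    intro v w hvw
    obtain ⟨g, hg1, hg2⟩ := h'.tr v w hvw
    refine ⟨θ.symm g, ?_, ?_⟩
    · rw [MulEquiv.apply_symm_apply]
      exact hg1
    · rw [hact, MulEquiv.apply_symm_apply]
      exact hg2
  onto := h'.onto

theorem b10_zpow_fix {E : Type} [Group E] {V : Type} [MulAction E V] {b : E} {x : V}
    (h : b • x = x) (τ : ℤ) : b ^ τ • x = x := by
  have h1 : b ∈ MulAction.stabilizer E x := h
  exact (MulAction.stabilizer E x).zpow_mem h1 τ

/-- marked axes after a change of the element -/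
theorem b10_ax {E : Type} [Group E] {V : Type} [MulAction E V] {S : SimpleGraph V} (hta : TA E S)
    {h b : E} {x : V} {n : ℕ} (a : AxM E S h b x n) (s : ℤˣ) (τ : ℤ) :
    S.dist x ((h ^ (s : ℤ) * b ^ τ) • x) = n ∧
      S.dist x ((h ^ (s : ℤ) * b ^ τ) • (h ^ (s : ℤ) * b ^ τ) • x) = 2 * n ∧
      (h ^ (s : ℤ) * b ^ τ) * b = b * (h ^ (s : ℤ) * b ^ τ) := by
  have hc : Commute h b := a.com
  have hx : ∀ y : E, Commute y b → b ^ τ • y • x = y • x := by
    intro y hy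
    rw [← mul_smul, ← (hy.zpow_right τ).eq, mul_smul, b10_zpow_fix a.bv]
  have hcs : Commute (h ^ (s : ℤ)) b := hc.zpow_left _
  refine ⟨?_, ?_, ?_⟩
  · rw [mul_smul, b10_zpow_fix a.bv]
    rcases Int.units_eq_one_or s with rfl | rfl
    · rw [Units.val_one, zpow_one]
      exact a.d1
    · rw [Units.val_neg, Units.val_one, zpow_neg, zpow_one, tl1_disp_inv hta]
      exact a.d1
  · rw [mul_smul (h ^ (s : ℤ)) (b ^ τ) x, b10_zpow_fix a.bv, mul_smul, hx _ hcs]
    rcases Int.units_eq_one_or s with rfl | rfl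
    · rw [Units.val_one, zpow_one]
      exact a.d2
    · rw [Units.val_neg, Units.val_one, zpow_neg, zpow_one, ← ta_dist hta h, smul_inv_smul,
        ← ta_dist hta h, smul_inv_smul, SimpleGraph.dist_comm]
      exact a.d2
  · exact (hcs.mul_left ((Commute.refl b).zpow_left τ)).eq

theorem b10_axis_pow {E : Type} [Group E] {V : Type} [MulAction E V] {u : E} {β : ℤ → V} {T : ℤ}
    (h : ∀ i, u • β i = β (i + T)) (κ : ℤ) (j : ℤ) : u ^ κ • β j = β (j + κ * T) := by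
  induction κ using Int.induction_on generalizing j with
  | zero => simp
  | succ i ih =>
    rw [zpow_add, zpow_one, mul_smul, h, ih]
    congr 1
    ring
  | pred i ih =>
    have h1 : u⁻¹ • β j = β (j - T) := by
      rw [inv_smul_eq_iff, h, sub_add_cancel]
    rw [zpow_sub, zpow_one, mul_smul, h1, ih]
    congr 1
    ring

theorem bnd_words {a b : ℕ} {Q : Type} [Finite Q] {X : PD (Fin (a + 1)) (Fin (b + 1)) Q}
    (hX : X.Ok) (hN : X.Nice) {p0 : Fin (a + 1)} {δ : Fin (a + 1) → Fin (b + 1)}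
    {r : Fin (a + 1) → ℕ} (hs : X.Span p0 δ r) {V : Type} [MulAction (PG X p0 δ) V]
    {S : SimpleGraph V} {q : PG X p0 δ → Q} {D : PG X p0 δ → ℤ} {p : V → Fin (a + 1)}
    {al : V → V → Fin (b + 1)} {t : Fin (a + 1) → V} (h : PGt X p0 δ S q D p al t)
    {a' b' : ℕ} {Q' : Type} [Finite Q'] {X' : PD (Fin (a' + 1)) (Fin (b' + 1)) Q'}
    (hX' : X'.Ok) (hN' : X'.Nice) {p0' : Fin (a' + 1)} {δ' : Fin (a' + 1) → Fin (b' + 1)}
    {r' : Fin (a' + 1) → ℕ} (hs' : X'.Span p0' δ' r') {V' : Type} [MulAction (PG X' p0' δ') V']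
    {S' : SimpleGraph V'} {q' : PG X' p0' δ' → Q'} {D' : PG X' p0' δ' → ℤ}
    {p' : V' → Fin (a' + 1)} {al' : V' → V' → Fin (b' + 1)} {t' : Fin (a' + 1) → V'}
    (h' : PGt X' p0' δ' S' q' D' p' al' t')
    {ι : Type} [Fintype ι] [Nonempty ι] (hh bb : ι → PG X p0 δ) (v : ι → Fin (a + 1))
    (n : ι → ℕ) (hh' bb' : ι → PG X' p0' δ') (v' : ι → Fin (a' + 1)) (n' : ι → ℕ)
    (h1 : ∀ i, AxM (PG X p0 δ) S (hh i) (bb i) (t (v i)) (n i))
    (h2 : ∀ i, AxM (PG X' p0' δ') S' (hh' i) (bb' i) (t' (v' i)) (n' i))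
    (h3 : ∀ i, ∃ m : ℕ, 0 < m ∧ bb i ^ m = PG.c X p0 δ)
    (h4 : ∀ i, ∃ m : ℕ, 0 < m ∧ bb' i ^ m = PG.c X' p0' δ') (s σ : ι → ℤˣ) (τ : ι → ℤ)
    (θ : PG X p0 δ ≃* PG X' p0' δ')
    (hθ : ∀ i, ∃ g, θ (hh i) = g * (hh' i ^ (s i : ℤ) * bb' i ^ τ i) * g⁻¹ ∧
      θ (bb i) = g * bb' i ^ (σ i : ℤ) * g⁻¹) (B : ℕ)
    (hB : BB a b a' (Fintype.card ι) (∑ i, n i + ∑ i, n' i) ≤ B) :
    ∃ θ' : PG X p0 δ ≃* PG X' p0' δ',
      (∀ i, ∃ g, Bdd X' p0' δ' B g ∧ θ' (hh i) = g * (hh' i ^ (s i : ℤ) * bb' i ^ τ i) * g⁻¹ ∧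
        θ' (bb i) = g * bb' i ^ (σ i : ℤ) * g⁻¹) ∧
      (∀ γ : Gn (Fin (a + 1)) (Fin (b + 1)) Q, Bdd X' p0' δ' B (θ' (PresentedGroup.of γ))) ∧
      ∀ γ : Gn (Fin (a' + 1)) (Fin (b' + 1)) Q', Bdd X p0 δ B (θ'.symm (PresentedGroup.of γ)) := by
  classical
  have hPC := h.pc
  have hPC' := h'.pc
  have hta := pc_ta hX hPC
  have hta' := pc_ta hX' hPC'
  choose g hg1 hg2 using hθ
  have hcc : θ.symm (PG.c X' p0' δ') = PG.c X p0 δ ∨
      θ.symm (PG.c X' p0' δ') = (PG.c X p0 δ)⁻¹ := by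
    obtain ⟨i0⟩ := ‹Nonempty ι›
    obtain ⟨m, hm, hb⟩ := h3 i0
    obtain ⟨m', hm', hb'⟩ := h4 i0
    exact b10_cc hX hN hPC hX' hN' hPC' θ hm hm' hb hb' (σ i0) (hg2 i0)
  letI inst : MulAction (PG X p0 δ) V' := MulAction.compHom V' θ.toMonoidHom
  have hact : ∀ (x : PG X p0 δ) (w : V'), x • w = θ x • w := fun _ _ => rfl
  have htw := b10_tw hPC' θ hact
  have h2' : ∀ i, AxM (PG X p0 δ) S' (hh i) (bb i) (g i • t' (v' i)) (n' i) := by
    intro i
    obtain ⟨a1, a2, a3⟩ := b10_ax hta' (h2 i) (s i) (τ i)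
    refine ⟨(h2 i).n0, ?_, ?_, ?_, (h1 i).com⟩
    · rw [hact, hg1, mul_smul, inv_smul_smul, mul_smul, ta_dist hta']
      exact a1
    · rw [hact, hact, hg1]
      have e : (g i * (hh' i ^ (s i : ℤ) * bb' i ^ τ i) * (g i)⁻¹) •
          (g i * (hh' i ^ (s i : ℤ) * bb' i ^ τ i) * (g i)⁻¹) • g i • t' (v' i) =
          g i • (hh' i ^ (s i : ℤ) * bb' i ^ τ i) • (hh' i ^ (s i : ℤ) * bb' i ^ τ i) •
            t' (v' i) := by
        rw [mul_smul, mul_smul (g i * _) (g i)⁻¹ (g i • t' (v' i)), inv_smul_smul,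
          mul_smul (g i) _ (t' (v' i)), inv_smul_smul, mul_smul (g i)]
      rw [e, ta_dist hta']
      exact a2
    · rw [hact, hg2, mul_smul, inv_smul_smul, mul_smul, b10_zpow_fix (h2 i).bv]
  obtain ⟨f, χ, hχ, -, hconj, hdist⟩ := bnd_two hX hN hPC hX' hN' htw hcc hh bb
    (fun i => t (v i)) (fun i => g i • t' (v' i)) n n' h1 h2' h3
  obtain ⟨k, -, hk2⟩ := hPC'.tr (χ (t p0)) (t' (p' (χ (t p0)))) (by rw [h'.pt])
  obtain ⟨K, hK⟩ : ∃ K, K = 3 ^ NB a b (Fintype.card ι) (∑ i, n i + ∑ i, n' i) := ⟨_, rfl⟩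
  obtain ⟨M, hM⟩ : ∃ M, M = ∑ i, n i + ∑ i, n' i := ⟨_, rfl⟩
  have hBK : K * (4 * (a + a' + M) + 4) + 4 * (a + a' + M) + 4 ≤ B := by
    rw [hK, hM]
    exact hB
  have hBK' : 4 * (K * a) + 4 * (K * a') + 4 * (K * M) + 4 * K + 4 * a + 4 * a' + 4 * M + 4 ≤
      B := by
    refine le_trans (le_of_eq ?_) hBK
    ring
  have hK1 : 1 ≤ K := by
    rw [hK]
    exact Nat.one_le_pow _ _ (by norm_num)
  rw [← hK] at hdist
  have hnM : ∀ i, n i ≤ M := by
    intro i
    have e1 := Finset.single_le_sum (f := n) (fun _ _ => Nat.zero_le _) (Finset.mem_univ i)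
    omega
  have hnM' : ∀ i, n' i ≤ M := by
    intro i
    have e1 := Finset.single_le_sum (f := n') (fun _ _ => Nat.zero_le _) (Finset.mem_univ i)
    omega
  obtain ⟨θ1, hθ1⟩ : ∃ θ1 : PG X p0 δ ≃* PG X' p0' δ', ∀ x, θ1 x = k * θ (f x) * k⁻¹ :=
    ⟨(f.trans θ).trans (MulAut.conj k), fun x => rfl⟩
  have hχ1 : ∀ (x : PG X p0 δ) (w : V), k • χ (x • w) = θ1 x • k • χ w := by
    intro x w
    rw [hχ, hact, hθ1, mul_smul, inv_smul_smul, mul_smul]
  have dχ : ∀ x y, S'.dist (k • χ x) (k • χ y) ≤ K * S.dist x y ∧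
      S.dist x y ≤ K * S'.dist (k • χ x) (k • χ y) := by
    intro x y
    rw [ta_dist hta']
    exact hdist x y
  have hbase : S'.dist (t' p0') (k • χ (t p0)) ≤ a' := by
    rw [hk2]
    exact t_dist hX' hs' h' _
  have tri : ∀ x y z, S'.dist x z ≤ S'.dist x y + S'.dist y z := fun x y z =>
    hta'.tree.connected.dist_triangle
  refine ⟨θ1, ?_, ?_, ?_⟩
  · intro i
    obtain ⟨g0, e1, e2⟩ := hconj i
    obtain ⟨u, hu⟩ : ∃ u, u = hh' i ^ (s i : ℤ) * bb' i ^ τ i := ⟨_, rfl⟩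
    obtain ⟨G1, hG1⟩ : ∃ G1, G1 = k * (θ g0)⁻¹ * g i := ⟨_, rfl⟩
    have t1 : θ1 (hh i) = G1 * u * G1⁻¹ := by
      rw [hθ1, e1, map_mul, map_mul, map_inv, hg1, ← hu, hG1]
      group
    have t2 : θ1 (bb i) = G1 * bb' i ^ (σ i : ℤ) * G1⁻¹ := by
      rw [hθ1, e2, map_mul, map_mul, map_inv, hg2, hG1]
      group
    obtain ⟨a1, a2, a3⟩ := b10_ax hta' (h2 i) (s i) (τ i)
    rw [← hu] at a1 a2 a3
    have hn0 := (h2 i).n0
    have hxu : t' (v' i) ∈ CC S' u :=
      tl_axis hta' u (t' (v' i)) (by rw [a1]; exact hn0) (by rw [a2, a1])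
    have htl : tl S' u = n' i := by
      have e3 : S'.dist (t' (v' i)) (u • t' (v' i)) = tl S' u := hxu
      rw [← e3]
      exact a1
    obtain ⟨β, hβ1, hβ2, hβ3⟩ := tl_line hta' u (by rw [htl]; exact hn0)
    obtain ⟨z, hz⟩ : ∃ z, z = k • χ (t (v i)) := ⟨_, rfl⟩
    obtain ⟨y, hy, hyd⟩ := tl_disp hta' (θ1 (hh i)) z
    have hzd : S'.dist z (θ1 (hh i) • z) ≤ K * n i := by
      rw [hz, ← hχ1]
      refine (dχ _ _).1.trans ?_
      rw [(h1 i).d1]
    have hzy : S'.dist z y ≤ K * n i := by omega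
    have hy' : G1⁻¹ • y ∈ CC S' u := by
      rw [← cc_conj hta' G1, smul_inv_smul, ← t1]
      exact hy
    obtain ⟨j0, hj0⟩ := (hβ3 _).1 hxu
    obtain ⟨j1, hj1⟩ := (hβ3 _).1 hy'
    rw [htl] at hβ2
    have hpow := b10_axis_pow hβ2 ((j1 - j0) / (n' i : ℤ)) j0
    obtain ⟨κ, hκ⟩ : ∃ κ, κ = (j1 - j0) / (n' i : ℤ) := ⟨_, rfl⟩
    rw [← hκ] at hpow
    have hd1 : S'.dist y ((G1 * u ^ κ) • t' (v' i)) ≤ n' i := by
      have e3 : S'.dist y ((G1 * u ^ κ) • t' (v' i)) = S'.dist (β j1) (u ^ κ • t' (v' i)) := by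
        rw [mul_smul, hj1, ← ta_dist hta' G1 (G1⁻¹ • y), smul_inv_smul]
      rw [e3, ← hj0, hpow, hβ1]
      have e4 := Int.mul_ediv_add_emod (j1 - j0) (n' i : ℤ)
      have e5 := Int.emod_nonneg (j1 - j0) (show (n' i : ℤ) ≠ 0 by omega)
      have e6 := Int.emod_lt_of_pos (j1 - j0) (show (0 : ℤ) < n' i by omega)
      have e7 : j1 - (j0 + κ * (n' i : ℤ)) = (j1 - j0) % (n' i : ℤ) := by
        rw [hκ]
        linarith
      rw [e7]
      omega
    refine ⟨G1 * u ^ κ, ?_, ?_, ?_⟩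
    · apply pg_bdd hX' h' B
      have r1 := tri (t' p0') (k • χ (t p0)) ((G1 * u ^ κ) • t' p0')
      have r2 := tri (k • χ (t p0)) z ((G1 * u ^ κ) • t' p0')
      have r3 := tri z y ((G1 * u ^ κ) • t' p0')
      have r4 := tri y ((G1 * u ^ κ) • t' (v' i)) ((G1 * u ^ κ) • t' p0')
      have r5 : S'.dist ((G1 * u ^ κ) • t' (v' i)) ((G1 * u ^ κ) • t' p0') ≤ a' := by
        rw [ta_dist hta', SimpleGraph.dist_comm]
        exact t_dist hX' hs' h' _
      have r6 : S'.dist (k • χ (t p0)) z ≤ K * a := by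
        rw [hz]
        exact (dχ _ _).1.trans (Nat.mul_le_mul_left K (t_dist hX hs h _))
      have r7 : K * n i ≤ K * M := Nat.mul_le_mul_left K (hnM i)
      have r8 := hnM' i
      omega
    · rw [t1, ← hu]
      group
    · rw [t2]
      have hcm : Commute u (bb' i) := a3
      have e3 : u ^ κ * bb' i ^ (σ i : ℤ) = bb' i ^ (σ i : ℤ) * u ^ κ :=
        (hcm.zpow_zpow κ (σ i : ℤ)).eq
      rw [mul_assoc G1 (u ^ κ), e3]
      group
  · intro γ
    apply pg_bdd hX' h' B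
    have r0 := gen_dist hX hs h γ
    have r1 := tri (t' p0') (k • χ (t p0)) (θ1 (PresentedGroup.of γ) • t' p0')
    have r2 := tri (k • χ (t p0)) (θ1 (PresentedGroup.of γ) • k • χ (t p0))
      (θ1 (PresentedGroup.of γ) • t' p0')
    have r3 : S'.dist (θ1 (PresentedGroup.of γ) • k • χ (t p0))
        (θ1 (PresentedGroup.of γ) • t' p0') ≤ a' := by
      rw [ta_dist hta', SimpleGraph.dist_comm]
      exact hbase
    have r4 : S'.dist (k • χ (t p0)) (θ1 (PresentedGroup.of γ) • k • χ (t p0)) ≤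
        K * (2 * a + 1) := by
      rw [← hχ1]
      exact (dχ _ _).1.trans (Nat.mul_le_mul_left K r0)
    have r5 : K * (2 * a + 1) = 2 * (K * a) + K := by ring
    omega
  · intro γ
    apply pg_bdd hX h B
    have r0 := gen_dist hX' hs' h' γ
    have r1 := (dχ (t p0) (θ1.symm (PresentedGroup.of γ) • t p0)).2
    rw [hχ1, MulEquiv.apply_symm_apply] at r1
    have r2 := tri (k • χ (t p0)) (t' p0') ((PresentedGroup.of γ : PG X' p0' δ') • k • χ (t p0))
    have r3 := tri (t' p0') ((PresentedGroup.of γ : PG X' p0' δ') • t' p0')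
      ((PresentedGroup.of γ : PG X' p0' δ') • k • χ (t p0))
    have r4 : S'.dist ((PresentedGroup.of γ : PG X' p0' δ') • t' p0')
        ((PresentedGroup.of γ : PG X' p0' δ') • k • χ (t p0)) ≤ a' := by
      rw [ta_dist hta']
      exact hbase
    have r5 : S'.dist (k • χ (t p0)) (t' p0') ≤ a' := by
      rw [SimpleGraph.dist_comm]
      exact hbase
    have r6 : S'.dist (k • χ (t p0)) ((PresentedGroup.of γ : PG X' p0' δ') • k • χ (t p0)) ≤
        4 * a' + 1 := by omega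
    have r7 := Nat.mul_le_mul_left K r6
    have r8 : K * (4 * a' + 1) = 4 * (K * a') + K := by ring
    omega

end

end VF
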