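import Pool.Agent.Lib.MP_32d917_al.NDefs
import Pool.Agent.Lib.MP_32d917_al_adm.RDefs

/-!
# Pieces: definitions

A piece group `E` has an infinite cyclic normal subgroup generated by `c`; `E / <c>` is virtually free and
acts on a tree. The finite data: the quotient graph of the tree by a normal subgroup `ker q` of finite
index, the action of the finite group `Q = E / ker q` on it, the signs `ep` (conjugation on `c`), and the
residues modulo `R` of a derivation `D` with `D c = R`.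
-/

set_option autoImplicit false

namespace VF

open LatIso LatN AdmIso

/-- `c` generates the virtual centre of `K`, which is infinite cyclic, and `K` has a subgroup of finite
index isomorphic to `F × ℤ`, `F` free of rank at least two -/
structure PieceG (K : Type) [Group K] (c : K) : Prop where
  vfz : ∃ n, 2 ≤ n ∧ ∃ H : Subgroup K, H.index ≠ 0 ∧ Nonempty (FZ n ≃* H)
  nrm : ∀ x : K, x * c * x⁻¹ = c ∨ x * c * x⁻¹ = c⁻¹
  inf : ∀ k : ℤ, c ^ k = 1 → k = 0
  fc : ∀ z : K, (∃ H : Subgroup K, H.index ≠ 0 ∧ ∀ h ∈ H, z * h = h * z) → ∃ k : ℤ, z = c ^ k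

/-- finite data of a piece: points `P`, darts `A`, finite group `Q` acting on them -/
structure PD (P A Q : Type) where
  o : A → P
  i : A → A
  m : Q → Q → Q
  e : Q
  aP : Q → P → P
  aA : Q → A → A
  ep : Q → ℤ
  de : Q → ℤ
  R : ℤ

/-- axioms -/
structure PD.Ok {P A Q : Type} (X : PD P A Q) : Prop where
  ii : ∀ a, X.i (X.i a) = a
  as : ∀ x y z, X.m (X.m x y) z = X.m x (X.m y z)
  em : ∀ x, X.m X.e x = x
  me : ∀ x, X.m x X.e = x
  iv : ∀ x, ∃ y, X.m x y = X.e ∧ X.m y x = X.e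
  aPe : ∀ v, X.aP X.e v = v
  aPm : ∀ x y v, X.aP (X.m x y) v = X.aP x (X.aP y v)
  aAe : ∀ a, X.aA X.e a = a
  aAm : ∀ x y a, X.aA (X.m x y) a = X.aA x (X.aA y a)
  oA : ∀ x a, X.o (X.aA x a) = X.aP x (X.o a)
  iA : ∀ x a, X.i (X.aA x a) = X.aA x (X.i a)
  ni : ∀ x a, X.aA x a ≠ X.i a
  ep1 : ∀ x, X.ep x = 1 ∨ X.ep x = -1
  epm : ∀ x y, X.ep (X.m x y) = X.ep x * X.ep y
  de0 : X.de X.e = 0
  dem : ∀ x y, X.R ∣ X.de x + X.ep x * X.de y - X.de (X.m x y)
  R0 : 0 < X.R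

/-- spanning trees: the dart `δ v` ends at `v` and starts at a point of smaller rank -/
def PD.Span {P A Q : Type} (X : PD P A Q) (p0 : P) (δ : P → A) (r : P → ℕ) : Prop :=
  ∀ v, v ≠ p0 → X.o (X.i (δ v)) = v ∧ r (X.o (δ v)) < r v

/-- further conditions: no leaves, not a line, elements of `Q` with sign `1` acting trivially are trivial,
reduced -/
structure PD.Nice {P A Q : Type} (X : PD P A Q) : Prop where
  two : ∀ v, ∃ a a', a ≠ a' ∧ X.o a = v ∧ X.o a' = v
  three : ∃ a a' a'', a ≠ a' ∧ a' ≠ a'' ∧ a ≠ a'' ∧ X.o a = X.o a' ∧ X.o a' = X.o a''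
  fai : ∀ x, (∀ v, X.aP x v = v) → (∀ a, X.aA x a = a) → X.ep x = 1 → x = X.e
  red : ∀ a, (∀ x, X.aP x (X.o a) = X.o a → X.aA x a = a) → ∃ x, X.aP x (X.o a) = X.o (X.i a)

/-- `X` is the quotient of the action of `E` on the tree `S`, with the labels `p`, `al`; `q` is the
homomorphism to `Q`, `D` the derivation -/
structure PC (E : Type) [Group E] {V : Type} [MulAction E V] (S : SimpleGraph V) {P A Q : Type}
    (X : PD P A Q) (c : E) (q : E → Q) (D : E → ℤ) (p : V → P) (al : V → V → A) : Prop where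
  tree : S.IsTree
  adj : ∀ (g : E) (x y : V), S.Adj x y → S.Adj (g • x) (g • y)
  qm : ∀ g h, q (g * h) = X.m (q g) (q h)
  qs : ∀ x, ∃ g, q g = x
  Dm : ∀ g h, D (g * h) = D g + X.ep (q g) * D h
  De : ∀ g, X.R ∣ D g - X.de (q g)
  qc : q c = X.e
  Dc : D c = X.R
  cf : ∀ v : V, c • v = v
  free : ∀ (g : E) (v : V), q g = X.e → g • v = v → ∃ k : ℤ, g = c ^ k
  po : ∀ v w, S.Adj v w → X.o (al v w) = p v
  ali : ∀ v w, S.Adj v w → al w v = X.i (al v w)
  inj : ∀ v w w', S.Adj v w → S.Adj v w' → al v w = al v w' → w = w'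
  sur : ∀ v a, X.o a = p v → ∃ w, S.Adj v w ∧ al v w = a
  pq : ∀ (g : E) v, p (g • v) = X.aP (q g) (p v)
  alq : ∀ (g : E) v w, S.Adj v w → al (g • v) (g • w) = X.aA (q g) (al v w)
  tr : ∀ v w, p v = p w → ∃ g, q g = X.e ∧ g • v = w
  onto : ∀ b : P, ∃ v, p v = b

/-! ### The presented group -/

/-- generators -/
inductive Gn (P A Q : Type)
  | g (a : A)
  | s (x : Q) (v : P)
  | c

/-- relators; the exponent of `c` in `mul` is `(de x + ep x * de y - de (x y)) / R` -/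
inductive PRel {P A Q : Type} (X : PD P A Q) (p0 : P) (δ : P → A) : FreeGroup (Gn P A Q) → Prop
  | inv (a : A) : PRel X p0 δ (FreeGroup.of (Gn.g a) * FreeGroup.of (Gn.g (X.i a)))
  | tree (v : P) (h : v ≠ p0) : PRel X p0 δ (FreeGroup.of (Gn.g (δ v)))
  | mul (x y : Q) (v : P) : PRel X p0 δ
      (FreeGroup.of (Gn.s x (X.aP y v)) * FreeGroup.of (Gn.s y v) *
        (FreeGroup.of (Gn.s (X.m x y) v))⁻¹ *
        (FreeGroup.of Gn.c ^ ((X.de x + X.ep x * X.de y - X.de (X.m x y)) / X.R))⁻¹)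
  | com (a : A) : PRel X p0 δ
      (FreeGroup.of Gn.c * FreeGroup.of (Gn.g a) * (FreeGroup.of Gn.c)⁻¹ *
        (FreeGroup.of (Gn.g a))⁻¹)
  | sc (x : Q) (v : P) : PRel X p0 δ
      (FreeGroup.of (Gn.s x v) * FreeGroup.of Gn.c * (FreeGroup.of (Gn.s x v))⁻¹ *
        (FreeGroup.of Gn.c ^ (X.ep x))⁻¹)
  | act (x : Q) (a : A) : PRel X p0 δ
      (FreeGroup.of (Gn.s x (X.o a)) * FreeGroup.of (Gn.g a) *
        (FreeGroup.of (Gn.s x (X.o (X.i a))))⁻¹ * (FreeGroup.of (Gn.g (X.aA x a)))⁻¹)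

/-- the group of the data -/
abbrev PG {P A Q : Type} (X : PD P A Q) (p0 : P) (δ : P → A) : Type :=
  PresentedGroup {r | PRel X p0 δ r}

section

variable {P A Q : Type} (X : PD P A Q) (p0 : P) (δ : P → A)

/-- generators of the group -/
def PG.g (a : A) : PG X p0 δ := PresentedGroup.of (Gn.g a)
def PG.s (x : Q) (v : P) : PG X p0 δ := PresentedGroup.of (Gn.s x v)
def PG.c : PG X p0 δ := PresentedGroup.of Gn.c

end

end VF
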