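import Pool.Agent.Lib.MP_32d917_al_vf.TDefs
import Pool.Agent.Lib.MP_32d917_al_adm.CDefs

/-!
# Codes: definitions
-/

set_option autoImplicit false

namespace VF

open LatIso LatN AdmIso

/-! ### Words in presentations -/

/-- value of a word -/
def wv (P : Pres) (w : Wd) : P.Grp := PresentedGroup.mk P.rels (FreeGroup.mk w)

/-- value of the generator number zero -/
def zv (P : Pres) : P.Grp := wv P [(0, true)]

/-- substitution of words for generators -/
def sub (σ : List Wd) (w : Wd) : Wd :=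
  w.flatMap fun x => if x.2 then σ.getD x.1 [] else FreeGroup.invRev (σ.getD x.1 [])

/-- the relator `x_0 ^ N` is added -/
def qN (P : Pres) (N : ℕ) : Pres := (P.1, List.replicate N ((0, true) : ℕ × Bool) :: P.2)

/-- action of a word on `{0, ..., n}`; `T` are the tables of the generators, `T'` of their inverses;
letters `≥ m` act trivially -/
def wact (m n : ℕ) (T T' : List ℕ) (w : Wd) (x : ℕ) : ℕ :=
  w.foldr (fun l y => if l.1 < m then
    (if l.2 then CB.dg n (T.getD l.1 0) y else CB.dg n (T'.getD l.1 0) y) else y) x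

/-- the tables give permutations of `{0, ..., n}` satisfying the relators, and `w` moves a point -/
def SepT (P : Pres) (w : Wd) (t : ℕ × List ℕ × List ℕ) : Prop :=
  (∀ j < P.1, ∀ x < t.1 + 1,
    CB.dg t.1 (t.2.1.getD j 0) (CB.dg t.1 (t.2.2.getD j 0) x) = x ∧
      CB.dg t.1 (t.2.2.getD j 0) (CB.dg t.1 (t.2.1.getD j 0) x) = x) ∧
  (∀ r ∈ P.2, ∀ x < t.1 + 1, wact P.1 t.1 t.2.1 t.2.2 r x = x) ∧
  ∃ x < t.1 + 1, ¬ wact P.1 t.1 t.2.1 t.2.2 w x = x

/-- the word `w` is not trivial in some finite quotient -/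
def Sep (P : Pres) (w : Wd) : Prop := ∃ t, SepT P w t

/-- the generator number zero generates an infinite cyclic normal subgroup, and the quotients by its
subgroups are residually finite -/
structure GoodP (P : Pres) : Prop where
  pos : 0 < P.1
  nrm : ∀ x : P.Grp, x * zv P * x⁻¹ = zv P ∨ x * zv P * x⁻¹ = (zv P)⁻¹
  inf : ∀ k : ℤ, zv P ^ k = 1 → k = 0
  rf : ∀ N : ℕ, 0 < N → ∀ w : Wd, (∀ k : ℤ, wv P w ≠ zv P ^ ((N : ℤ) * k)) → Sep (qN P N) w

/-! ### Homomorphisms with values known up to powers of `z` -/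

/-- there is a homomorphism with the values `σ j z ^ k` on the generators, `k = 0` for `j = 0`, which
satisfies the equations `L` -/
def HomEx (P P' : Pres) (σ : List Wd) (L : List (Wd × Wd)) : Prop :=
  ∃ θ : P.Grp →* P'.Grp, (∀ j < P.1, ∃ k : ℤ, (j = 0 → k = 0) ∧
    θ (wv P [(j, true)]) = wv P' (σ.getD j []) * zv P' ^ k) ∧ ∀ e ∈ L, θ (wv P e.1) = wv P' e.2

/-- the words `σ` multiplied by powers of `x_0` given by the digits of `m` -/
def shf (σ : List Wd) (n N m : ℕ) : List Wd := (List.range n).map fun j =>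
  if j = 0 then σ.getD j [] else σ.getD j [] ++ List.replicate (CB.dg N m j) ((0, true) : ℕ × Bool)

/-- certificate against `HomEx` -/
def NHom (P P' : Pres) (σ : List Wd) (L : List (Wd × Wd)) : Prop :=
  ∃ N : ℕ, ∀ m < (N + 1) ^ P.1, ∃ e ∈ P.2.map (fun r => ((r, []) : Wd × Wd)) ++ L,
    Sep (qN P' (N + 1)) (sub (shf σ P.1 N m) e.1 ++ FreeGroup.invRev e.2)

/-! ### Isomorphisms with prescribed values up to conjugation -/

/-- instances: pairs `(h, b)`, `(u, w)`; `h ↦ g u g⁻¹`, `b ↦ g w g⁻¹` -/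
abbrev Inst : Type := List ((Wd × Wd) × (Wd × Wd))

/-- the problem -/
def PPL (P P' : Pres) (L : Inst) : Prop :=
  ∃ θ : P.Grp ≃* P'.Grp, ∀ x ∈ L, ∃ g : P'.Grp, θ (wv P x.1.1) = g * wv P' x.2.1 * g⁻¹ ∧
    θ (wv P x.1.2) = g * wv P' x.2.2 * g⁻¹

/-- the equations for given conjugators -/
def eqs (L : Inst) (γ : List Wd) : List (Wd × Wd) :=
  (List.range L.length).flatMap fun i =>
    [((L.getD i (([], []), ([], []))).1.1,
        γ.getD i [] ++ (L.getD i (([], []), ([], []))).2.1 ++ FreeGroup.invRev (γ.getD i [])),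
      ((L.getD i (([], []), ([], []))).1.2,
        γ.getD i [] ++ (L.getD i (([], []), ([], []))).2.2 ++ FreeGroup.invRev (γ.getD i []))]

/-- candidates: values of the isomorphism, of the inverse (both up to powers of `z`), conjugators -/
abbrev Kd : Type := List Wd × List Wd × List Wd

/-- certificate against the candidate -/
def NCand (P P' : Pres) (L : Inst) (K : Kd) : Prop :=
  NHom P P' K.1 (eqs L K.2.2) ∨ NHom P' P K.2.1 [] ∨
  (∃ j < P.1, 0 < j ∧ Sep (qN P 1) (sub K.2.1 (K.1.getD j []) ++ [(j, false)])) ∨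
  ∃ j < P'.1, 0 < j ∧ Sep (qN P' 1) (sub K.1 (K.2.1.getD j []) ++ [(j, false)])

/-- words with letters `< n`, of length at most `B` -/
def wds (n : ℕ) : ℕ → List Wd
  | 0 => [[]]
  | B + 1 => [] :: (wds n B).flatMap fun w =>
      (List.range n).flatMap fun j => [(j, true) :: w, (j, false) :: w]

/-- lists of length `n` with entries in `l` -/
def tup (l : List Wd) : ℕ → List (List Wd)
  | 0 => [[]]
  | n + 1 => (tup l n).flatMap fun s => l.map fun w => w :: s

/-- certificate against `PPL`: all candidates with words of length at most `B` are excluded -/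
def NPP (P P' : Pres) (L : Inst) (B : ℕ) : Prop :=
  ∀ a ∈ ([[(0, true)], [(0, false)]] : List Wd), ∀ a' ∈ ([[(0, true)], [(0, false)]] : List Wd),
    ∀ σ ∈ tup (wds P'.1 B) (P.1 - 1), ∀ σ' ∈ tup (wds P.1 B) (P'.1 - 1),
      ∀ γ ∈ tup (wds P'.1 B) L.length, NCand P P' L (a :: σ, a' :: σ', γ)

/-- elements given by words of length at most `B` and a power of `z` -/
def BWd (P : Pres) (B : ℕ) (x : P.Grp) : Prop := ∃ w ∈ wds P.1 B, ∃ k : ℤ, x = wv P w * zv P ^ k

/-! ### Edges at a piece -/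

section

variable {P A Q : Type}

/-- powers in `Q` -/
def PD.pw (X : PD P A Q) (x : Q) (n : ℕ) : Q := (X.m x)^[n] X.e

/-- paths in the graph -/
def PD.IsPth (X : PD P A Q) : P → List A → P → Prop
  | v, [], w => v = w
  | v, a :: l, w => X.o a = v ∧ X.IsPth (X.o (X.i a)) l w

/-- An axis through the lift of the point `v`: `γ` are the labels of a period, `xh` the value of `q` at the
translation `h`; `y` the value of `q` at the elliptic element `b`; `kh`, `kb` exponents of `c`. -/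
structure EDat (P A Q : Type) where
  v : P
  γ : List A
  xh : Q
  kh : ℤ
  y : Q
  kb : ℤ

/-- the hyperbolic element -/
def EDat.hel (X : PD P A Q) (p0 : P) (δ : P → A) (e : EDat P A Q) : PG X p0 δ :=
  (e.γ.map (PG.g X p0 δ)).prod * PG.s X p0 δ e.xh e.v * PG.c X p0 δ ^ e.kh

/-- the elliptic element -/
def EDat.bel (X : PD P A Q) (p0 : P) (δ : P → A) (e : EDat P A Q) : PG X p0 δ :=
  PG.s X p0 δ e.y e.v * PG.c X p0 δ ^ e.kb

/-- labels along the axis -/
def EDat.lam (X : PD P A Q) (e : EDat P A Q) (i : ℕ) : Option A :=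
  (e.γ[i % e.γ.length]?).map (X.aA (X.pw e.xh (i / e.γ.length)))

/-- the axis with the reversed orientation, `z` is the inverse of `xh` -/
def EDat.rev (X : PD P A Q) (e : EDat P A Q) (z : Q) : EDat P A Q :=
  { e with γ := e.γ.reverse.map fun a => X.aA z (X.i a), xh := z }

/-- validity -/
structure EDat.Ok (X : PD P A Q) (e : EDat P A Q) : Prop where
  ne : e.γ ≠ []
  path : X.IsPth e.v e.γ (X.aP e.xh e.v)
  red : ∀ i, i + 1 < 2 * e.γ.length → e.lam X (i + 1) ≠ (e.lam X i).map X.i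
  yv : X.aP e.y e.v = e.v
  yg : ∀ a ∈ e.γ, X.aA e.y a = a
  com : X.m e.xh e.y = X.m e.y e.xh
  eph : X.ep e.xh = 1
  epy : X.ep e.y = 1
  bm : ∃ m : ℕ, 0 < m ∧ (m : ℤ) * (X.de e.y + e.kb * X.R) = X.R ∧ X.pw e.y m = X.e

/-- no unexpected element maps the axis of `e` to the axis of `f` -/
structure ESep (X : PD P A Q) (same : Prop) (e f : EDat P A Q) : Prop where
  pos : ∀ (x : Q) (s : ℕ), s < f.γ.length →
    (∀ i, (e.lam X i).map (X.aA x) = f.lam X (i + s)) → same ∧ s = 0 ∧ ∃ j, x = X.pw f.y j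
  neg : ∀ (x z : Q) (s : ℕ), s < f.γ.length → X.m z f.xh = X.e →
    ∃ i, (e.lam X i).map (X.aA x) ≠ (f.rev X z).lam X (i + s)

end

/-! ### Codes of pieces -/

/-- sizes, tables, residues, ranks -/
abbrev PCd : Type := (ℕ × ℕ × ℕ) × List ℕ × List PI × List ℕ

/-- number of points minus one -/
abbrev pa (c : PCd) : ℕ := c.1.1
/-- number of darts minus one -/
abbrev pb (c : PCd) : ℕ := c.1.2.1
/-- order of the finite group minus one -/
abbrev pd (c : PCd) : ℕ := c.1.2.2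

/-- table number `k` -/
def tb (c : PCd) (k : ℕ) : ℕ := c.2.1.getD k 0

def hO (c : PCd) (x : ℕ) : ℕ := CB.dg (pa c) (tb c 0) x
def hI (c : PCd) (x : ℕ) : ℕ := CB.dg (pb c) (tb c 1) x
def hM (c : PCd) (x y : ℕ) : ℕ := CB.dg (pd c) (tb c 2) (x * (pd c + 1) + y)
def hE (c : PCd) : ℕ := CB.dg (pd c) (tb c 3) 0
def hP (c : PCd) (x v : ℕ) : ℕ := CB.dg (pa c) (tb c 4) (x * (pa c + 1) + v)
def hA (c : PCd) (x a : ℕ) : ℕ := CB.dg (pb c) (tb c 5) (x * (pb c + 1) + a)
def hS (c : PCd) (x : ℕ) : ℕ := CB.dg 1 (tb c 6) x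
def hR (c : PCd) : ℕ := tb c 7 + 1
def hDl (c : PCd) (v : ℕ) : ℕ := CB.dg (pb c) (tb c 8) v
def hDe (c : PCd) (x : ℕ) : PI := c.2.2.1.getD x (0, 0)
def hRk (c : PCd) (v : ℕ) : ℕ := c.2.2.2.getD v 0

/-- the data given by a code -/
def toPD (c : PCd) : PD (Fin (pa c + 1)) (Fin (pb c + 1)) (Fin (pd c + 1)) where
  o x := ⟨hO c x, CB.dg_lt _ _ _⟩
  i x := ⟨hI c x, CB.dg_lt _ _ _⟩
  m x y := ⟨hM c x y, CB.dg_lt _ _ _⟩
  e := ⟨hE c, CB.dg_lt _ _ _⟩
  aP x v := ⟨hP c x v, CB.dg_lt _ _ _⟩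
  aA x a := ⟨hA c x a, CB.dg_lt _ _ _⟩
  ep x := (-1) ^ hS c x
  de x := iv (hDe c x)
  R := (hR c : ℤ)

/-- the spanning tree given by a code -/
def toDl (c : PCd) (v : Fin (pa c + 1)) : Fin (pb c + 1) := ⟨hDl c v, CB.dg_lt _ _ _⟩

/-- the group given by a code -/
abbrev GP (c : PCd) : Type := PG (toPD c) 0 (toDl c)

/-- valid codes of pieces -/
def PVal (c : PCd) : Prop :=
  (toPD c).Ok ∧ (toPD c).Nice ∧ (toPD c).Span 0 (toDl c) (fun v => hRk c v)

/-! The generators of the presentation of a piece: `0` for `c`, then `gG a`, `gS c x v`. -/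

/-- number of generators -/
def ng (c : PCd) : ℕ := 1 + (pb c + 1) + (pd c + 1) * (pa c + 1)
def gG (a : ℕ) : ℕ := 1 + a
def gS (c : PCd) (x v : ℕ) : ℕ := 1 + (pb c + 1) + (x * (pa c + 1) + v)

/-- the exponent of `c` in the relator `mul`, as a coded integer (`R` divides the number for valid codes) -/
def kmul (c : PCd) (x y : ℕ) : PI :=
  let z : PI := psub ((hDe c x).1 + (AdmIso.sg (hS c x) (hDe c y)).1,
    (hDe c x).2 + (AdmIso.sg (hS c x) (hDe c y)).2) (hDe c (hM c x y))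
  ((z.1 - z.2) / hR c, (z.2 - z.1) / hR c)

/-- relators -/
def PRl (c : PCd) : List Wd :=
  ((List.range (pb c + 1)).map fun a => [(gG a, true), (gG (hI c a), true)]) ++
  (((List.range (pa c)).map fun v => [(gG (hDl c (v + 1)), true)]) ++
  (((List.range (pd c + 1)).flatMap fun x => (List.range (pd c + 1)).flatMap fun y =>
    (List.range (pa c + 1)).map fun v =>
      [(gS c x (hP c y v), true), (gS c y v, true), (gS c (hM c x y) v, false)] ++
        FreeGroup.invRev (pwW [(0, true)] (kmul c x y))) ++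
  (((List.range (pb c + 1)).map fun a => cmW 0 (gG a)) ++
  (((List.range (pd c + 1)).flatMap fun x => (List.range (pa c + 1)).map fun v =>
      [(gS c x v, true), (0, true), (gS c x v, false), (0, decide (hS c x = 1))]) ++
  ((List.range (pd c + 1)).flatMap fun x => (List.range (pb c + 1)).map fun a =>
      [(gS c x (hO c a), true), (gG a, true), (gS c x (hO c (hI c a)), false),
        (gG (hA c x a), false)])))))

/-- the presentation of the group of the piece -/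
def pPres (c : PCd) : Pres := (ng c, PRl c)

/-! ### Codes of edges -/

/-- (piece, flat, point), `γ`, ((`xh`, `kh`), (`y`, `kb`)), (`ze`, `om`) -/
abbrev ECd : Type := (ℕ × ℕ × ℕ) × List ℕ × ((ℕ × PI) × (ℕ × PI)) × (PV × PV)

/-- the edge data given by a code, at a piece with code `c` -/
def toE (c : PCd) (e : ECd) : EDat (Fin (pa c + 1)) (Fin (pb c + 1)) (Fin (pd c + 1)) where
  v := ⟨e.1.2.2 % (pa c + 1), Nat.mod_lt _ (Nat.succ_pos _)⟩
  γ := e.2.1.map fun x => ⟨x % (pb c + 1), Nat.mod_lt _ (Nat.succ_pos _)⟩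
  xh := ⟨e.2.2.1.1.1 % (pd c + 1), Nat.mod_lt _ (Nat.succ_pos _)⟩
  kh := iv e.2.2.1.1.2
  y := ⟨e.2.2.1.2.1 % (pd c + 1), Nat.mod_lt _ (Nat.succ_pos _)⟩
  kb := iv e.2.2.1.2.2

/-- the word of `h` -/
def hW (c : PCd) (e : ECd) : Wd :=
  (e.2.1.map fun x => ((gG (x % (pb c + 1)), true) : ℕ × Bool)) ++
    ([(gS c (e.2.2.1.1.1 % (pd c + 1)) (e.1.2.2 % (pa c + 1)), true)] ++
      pwW [(0, true)] e.2.2.1.1.2)

/-- the word of `b` -/
def bW (c : PCd) (e : ECd) : Wd :=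
  [(gS c (e.2.2.1.2.1 % (pd c + 1)) (e.1.2.2 % (pa c + 1)), true)] ++
    pwW [(0, true)] e.2.2.1.2.2

/-! ### Codes -/

/-- sizes, pieces, edges, spanning tree -/
abbrev Cd : Type := (ℕ × ℕ × ℕ) × List PCd × List ECd × TrC

/-- number of pieces minus one -/
abbrev nP (c : Cd) : ℕ := c.1.1
/-- number of flats minus one -/
abbrev nQ (c : Cd) : ℕ := c.1.2.1
/-- number of edges minus one -/
abbrev nE (c : Cd) : ℕ := c.1.2.2

/-- default piece -/
def dPc : PCd := ((0, 0, 0), [], [], [])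
/-- default edge -/
def dEc : ECd := ((0, 0, 0), [], ((0, (0, 0)), (0, (0, 0))), (((0, 0), (0, 0)), ((0, 0), (0, 0))))

/-- piece number `p` -/
def pcd (c : Cd) (p : ℕ) : PCd := c.2.1.getD p dPc
/-- edge number `e` -/
def ecd (c : Cd) (e : ℕ) : ECd := c.2.2.1.getD e dEc

def kpc (c : Cd) (e : ℕ) : ℕ := (ecd c e).1.1 % (nP c + 1)
def kfl (c : Cd) (e : ℕ) : ℕ := (ecd c e).1.2.1 % (nQ c + 1)
def kze (c : Cd) (e : ℕ) : PV := (ecd c e).2.2.2.1
def kom (c : Cd) (e : ℕ) : PV := (ecd c e).2.2.2.2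
def kp0 (c : Cd) : ℕ := c.2.2.2.1 % (nP c + 1)
def kep (c : Cd) (p : ℕ) : ℕ := c.2.2.2.2.1.getD p 0 % (nE c + 1)
def kef (c : Cd) (q : ℕ) : ℕ := c.2.2.2.2.2.1.getD q 0 % (nE c + 1)
def krp (c : Cd) (p : ℕ) : ℕ := c.2.2.2.2.2.2.1.getD p 0
def krq (c : Cd) (q : ℕ) : ℕ := c.2.2.2.2.2.2.2.getD q 0

/-- the groups of the pieces -/
abbrev KK (c : Cd) (p : Fin (nP c + 1)) : Type := (pPres (pcd c p)).Grp

/-- the data given by a code -/
def toTD (c : Cd) : TD (Fin (nP c + 1)) (Fin (nQ c + 1)) (Fin (nE c + 1)) (KK c) where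
  pc e := ⟨kpc c e, Nat.mod_lt _ (Nat.succ_pos _)⟩
  fl e := ⟨kfl c e, Nat.mod_lt _ (Nat.succ_pos _)⟩
  c p := zv (pPres (pcd c p))
  h p e := wv (pPres (pcd c p)) (hW (pcd c p) (ecd c e))
  b p e := wv (pPres (pcd c p)) (bW (pcd c p) (ecd c e))
  ze e := vv (kze c e)
  om e := vv (kom c e)

/-- root of the tree -/
def tp0 (c : Cd) : Fin (nP c + 1) := ⟨kp0 c, Nat.mod_lt _ (Nat.succ_pos _)⟩
/-- edges of the tree at the pieces -/
def tep (c : Cd) (p : Fin (nP c + 1)) : Fin (nE c + 1) := ⟨kep c p, Nat.mod_lt _ (Nat.succ_pos _)⟩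
/-- edges of the tree at the flats -/
def tef (c : Cd) (q : Fin (nQ c + 1)) : Fin (nE c + 1) := ⟨kef c q, Nat.mod_lt _ (Nat.succ_pos _)⟩

/-- validity of codes -/
structure CVal (c : Cd) : Prop where
  pc : ∀ p < nP c + 1, PVal (pcd c p)
  ed : ∀ e < nE c + 1, (toE (pcd c (kpc c e)) (ecd c e)).Ok (toPD (pcd c (kpc c e)))
  sep : ∀ e < nE c + 1, ∀ f < nE c + 1, kpc c e = kpc c f →
    ESep (toPD (pcd c (kpc c e))) (e = f) (toE (pcd c (kpc c e)) (ecd c e))
      (toE (pcd c (kpc c e)) (ecd c f))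
  det : ∀ e < nE c + 1, PEq (pdt (kom c e) (kze c e)) (1, 0)
  ind : ∀ e < nE c + 1, ∀ f < nE c + 1, ¬ e = f → kfl c e = kfl c f →
    ¬ PEq (pdt (kze c e) (kze c f)) (0, 0)
  two : ∀ q < nQ c + 1, ∃ e < nE c + 1, ∃ f < nE c + 1, ¬ e = f ∧ kfl c e = q ∧ kfl c f = q
  trp : ∀ p < nP c + 1, ¬ p = kp0 c → kpc c (kep c p) = p ∧ krq c (kfl c (kep c p)) < krp c p
  trq : ∀ q < nQ c + 1, kfl c (kef c q) = q ∧ krp c (kpc c (kef c q)) < krq c q

/-! ### Presentations -/

/-- generator number `j` of the piece `p` -/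
def jp (p j : ℕ) : ℕ := Nat.pair 0 (Nat.pair p j)
/-- generators of the flats -/
def ja (q s : ℕ) : ℕ := Nat.pair 1 (Nat.pair q s)
/-- generators of the edges -/
def jy (e : ℕ) : ℕ := Nat.pair 2 e

/-- words in the generators of the piece `p` as words in the generators of the presentation -/
def ren (p : ℕ) (w : Wd) : Wd := w.map fun x => (jp p x.1, x.2)

/-- basis vectors of the flats -/
def bas (s : ℕ) : PV := if s = 0 then ((1, 0), (0, 0)) else ((0, 0), (1, 0))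

/-- the relator of the edge `e` for the basis vector number `s` -/
def jrel (c : Cd) (e s : ℕ) : Wd :=
  [(ja (kfl c e) s, true), (jy e, true)] ++
  FreeGroup.invRev (ren (kpc c e) (
    pwW (hW (pcd c (kpc c e)) (ecd c e)) (pdt (bas s) (kze c e)) ++
    pwW (bW (pcd c (kpc c e)) (ecd c e)) (pdt (kom c e) (bas s)))) ++
  [(jy e, false)]

/-- the number `j` is used as a generator -/
def UsedN (c : Cd) (j : ℕ) : Prop :=
  (j.unpair.1 = 0 ∧ j.unpair.2.unpair.1 < nP c + 1 ∧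
    j.unpair.2.unpair.2 < ng (pcd c j.unpair.2.unpair.1)) ∨
  (j.unpair.1 = 1 ∧ j.unpair.2.unpair.1 < nQ c + 1 ∧ j.unpair.2.unpair.2 < 2) ∨
  (j.unpair.1 = 2 ∧ j.unpair.2 < nE c + 1)

/-- relators -/
inductive RelC (c : Cd) : Wd → Prop
  | piece (p : ℕ) (w : Wd) : p < nP c + 1 → w ∈ PRl (pcd c p) → RelC c (ren p w)
  | flat (q : ℕ) : q < nQ c + 1 → RelC c (cmW (ja q 0) (ja q 1))
  | edge (e s : ℕ) : e < nE c + 1 → s < 2 → RelC c (jrel c e s)
  | treeP (p : ℕ) : p < nP c + 1 → p ≠ kp0 c → RelC c [(jy (kep c p), true)]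
  | treeQ (q : ℕ) : q < nQ c + 1 → RelC c [(jy (kef c q), true)]
  | unused (j : ℕ) : ¬ UsedN c j → RelC c [(j, true)]

/-- `P` is the presentation given by the code -/
structure IsPr (c : Cd) (P : Pres) : Prop where
  used : ∀ j, UsedN c j → j < P.1
  sound : ∀ w ∈ P.2, RelC c w
  complete : ∀ w, RelC c w → w ∈ P.2 ∨ ∃ j, P.1 ≤ j ∧ w = [(j, true)]

/-- the property of the function -/
def IsF (f : Cd → Pres) : Prop := ∀ c, IsPr c (f c)

/-- `c` is a code for the group presented by `P` -/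
def CodeFor (f : Cd → Pres) (P : Pres) (c : Cd) : Prop := CVal c ∧ Nonempty (P.Grp ≃* (f c).Grp)

/-! ### Matchings -/

/-- matchings: digits of `sp`, `sf`, `se` and of the signs `sg`, `de` -/
abbrev Mt : Type := ℕ × ℕ × ℕ × ℕ × ℕ

def msp (c : Cd) (t : Mt) (p : ℕ) : ℕ := CB.dg (nP c) t.1 p
def msf (c : Cd) (t : Mt) (q : ℕ) : ℕ := CB.dg (nQ c) t.2.1 q
def mse (c : Cd) (t : Mt) (e : ℕ) : ℕ := CB.dg (nE c) t.2.2.1 e
def msg (t : Mt) (e : ℕ) : ℕ := CB.dg 1 t.2.2.2.1 e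
def mde (t : Mt) (q : ℕ) : ℕ := CB.dg 1 t.2.2.2.2 q

/-- bounds for the numbers of a matching -/
def InB (c : Cd) (t : Mt) : Prop :=
  t.1 < (nP c + 1) ^ (nP c + 1) ∧ t.2.1 < (nQ c + 1) ^ (nQ c + 1) ∧
    t.2.2.1 < (nE c + 1) ^ (nE c + 1) ∧ t.2.2.2.1 < 2 ^ (nE c + 1) ∧ t.2.2.2.2 < 2 ^ (nQ c + 1)

/-- the right hand side of the equation for `ta e` -/
def rhs (c c' : Cd) (t : Mt) (e f : ℕ) : PI :=
  psub (AdmIso.sg (msg t e) (pdt (kom c e) (kze c f)))
    (AdmIso.sg (msg t f) (pdt (kom c' (mse c t e)) (kze c' (mse c t f))))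

/-- the equations for the number `u` of the edge `e` -/
def TauE (c c' : Cd) (t : Mt) (e : ℕ) (u : PI) : Prop :=
  ∀ f < nE c + 1, kfl c e = kfl c f → ¬ e = f →
    PEq (pmul (pdt (kze c e) (kze c f)) u) (rhs c c' t e f)

/-- conditions on a matching -/
def MatN (c c' : Cd) (t : Mt) : Prop :=
  c'.1 = c.1 ∧
  (∀ p < nP c + 1, ∀ p' < nP c + 1, msp c t p = msp c t p' → p = p') ∧
  (∀ q < nQ c + 1, ∀ q' < nQ c + 1, msf c t q = msf c t q' → q = q') ∧
  (∀ e < nE c + 1, ∀ e' < nE c + 1, mse c t e = mse c t e' → e = e') ∧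
  (∀ e < nE c + 1, kpc c' (mse c t e) = msp c t (kpc c e) ∧
    kfl c' (mse c t e) = msf c t (kfl c e)) ∧
  (∀ e < nE c + 1, ∀ f < nE c + 1, kfl c e = kfl c f →
    PEq (AdmIso.sg (mde t (kfl c e) + msg t e) (pdt (kze c e) (kze c f)))
      (AdmIso.sg (msg t f) (pdt (kze c' (mse c t e)) (kze c' (mse c t f))))) ∧
  ∀ e < nE c + 1, ∃ f < nE c + 1, kfl c e = kfl c f ∧ ¬ e = f ∧
    ∃ u < (rhs c c' t e f).1 + (rhs c c' t e f).2 + 1,
      ∃ v < (rhs c c' t e f).1 + (rhs c c' t e f).2 + 1, TauE c c' t e (u, v)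

/-- instance at the piece `p` -/
def inst (c c' : Cd) (t : Mt) (ta : List PI) (p : ℕ) : Inst :=
  (List.range (nE c + 1)).flatMap fun e => if kpc c e = p then
    [((hW (pcd c p) (ecd c e), bW (pcd c p) (ecd c e)),
      (pwW (hW (pcd c' (msp c t p)) (ecd c' (mse c t e)))
          (AdmIso.sg (mde t (kfl c e) + msg t e) (1, 0)) ++
        pwW (bW (pcd c' (msp c t p)) (ecd c' (mse c t e))) (ta.getD e (0, 0)),
      pwW (bW (pcd c' (msp c t p)) (ecd c' (mse c t e))) (AdmIso.sg (msg t e) (1, 0))))] else []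

/-- total length of the axes -/
def totl (c : Cd) : ℕ := ∑ e ∈ Finset.range (nE c + 1), (ecd c e).2.1.length

/-- bound for the lengths of words -/
def bdN (c c' : Cd) (t : Mt) (p : ℕ) : ℕ :=
  3 ^ ((pa (pcd c p) + 1) ^ (pb (pcd c p) + 1) * (pb (pcd c p) + 1) ^ (pb (pcd c p) + 1) *
      ((pa (pcd c p) + 1) * (pb (pcd c p) + 2) ^ (totl c + totl c')) ^ (nE c + 1)) *
    (4 * (pa (pcd c p) + pa (pcd c' (msp c t p)) + (totl c + totl c')) + 4) +
    4 * (pa (pcd c p) + pa (pcd c' (msp c t p)) + (totl c + totl c')) + 4 + 1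

/-- certificate against the matching -/
def NGood (c c' : Cd) (t : Mt) : Prop :=
  ¬ MatN c c' t ∨ ∃ ta : List PI, (∀ e < nE c + 1, TauE c c' t e (ta.getD e (0, 0))) ∧
    ∃ p < nP c + 1, NPP (pPres (pcd c p)) (pPres (pcd c' (msp c t p))) (inst c c' t ta p)
      (bdN c c' t p)

/-- certificate of non-isomorphism -/
def NoCert (f : Cd → Pres) (P Q : Pres) : Prop :=
  ∃ z : Cd × Cd, CodeFor f P z.1 ∧ CodeFor f Q z.2 ∧ ∀ t : Mt, InB z.1 t → NGood z.1 z.2 t

end VF
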