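import Pool.Agent.Lib.MP_32d917_al_vf.B05
import Pool.Agent.Lib.MP_32d917_al_vf.B09
import Pool.Agent.Lib.MP_32d917_al_vf.HDefs

/-!
# E01: the elements given by edge data
-/

set_option autoImplicit false

namespace VF

open LatIso LatN AdmIso

section

/-- reduced lines are geodesics -/
theorem e01_dist {V : Type} {S : SimpleGraph V} (hS : S.IsTree) (w : ℤ → V)
    (hadj : ∀ i, S.Adj (w i) (w (i + 1))) (hne : ∀ i, w (i + 2) ≠ w i) (i j : ℤ) :
    S.dist (w i) (w j) = (i - j).natAbs := by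
  have key : ∀ (k : ℕ) (i : ℤ), S.dist (w i) (w (i + k)) = k ∧
      S.dist (w i) (w (i + k + 1)) = k + 1 := by
    intro k
    induction k with
    | zero =>
      intro i
      refine ⟨?_, ?_⟩
      · rw [Nat.cast_zero, add_zero, SimpleGraph.dist_self]
      · rw [Nat.cast_zero, add_zero, st1_one (hadj i)]
    | succ k ih =>
      intro i
      obtain ⟨h1, h2⟩ := ih i
      have e1 : i + ((k + 1 : ℕ) : ℤ) = i + k + 1 := by push_cast; ring
      rw [e1]
      refine ⟨h2, ?_⟩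
      have h3 := hadj (i + k + 1)
      rcases st_adj hS h3 (w i) with h4 | h4
      · rw [h4, h2]
      · exfalso
        have h5 := hadj (i + k)
        have h6 : w (i + k) = w (i + k + 1 + 1) := by
          refine st_uniq hS (x := w (i + k + 1)) (y := w i) h5.symm h3 ?_ ?_
          · unfold Bt
            rw [st1_one h5.symm, SimpleGraph.dist_comm (u := w (i + k)),
              SimpleGraph.dist_comm (u := w (i + k + 1)), h1, h2]
            omega
          · unfold Bt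
            rw [st1_one h3, SimpleGraph.dist_comm (u := w (i + k + 1 + 1)),
              SimpleGraph.dist_comm (u := w (i + k + 1)), h4]
            omega
        apply hne (i + k)
        rw [h6]
        congr 1
        ring
  rcases le_total i j with hij | hij
  · obtain ⟨k, hk⟩ := Int.eq_ofNat_of_zero_le (sub_nonneg.2 hij)
    have e : j = i + k := by omega
    rw [e, (key k i).1]
    omega
  · obtain ⟨k, hk⟩ := Int.eq_ofNat_of_zero_le (sub_nonneg.2 hij)
    have e : i = j + k := by omega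
    rw [e, SimpleGraph.dist_comm, (key k j).1]
    omega

variable {P A Q : Type} {X : PD P A Q} {p0 : P} {δ : P → A} {V : Type} [MulAction (PG X p0 δ) V]
  {S : SimpleGraph V} {q : PG X p0 δ → Q} {D : PG X p0 δ → ℤ} {p : V → P} {al : V → V → A}
  {t : P → V}

theorem e01_path (hX : X.Ok) (h : PGt X p0 δ S q D p al t) : ∀ (l : List A) (u u' : P),
    X.IsPth u l u' → ∃ w : ℕ → V, w 0 = t u ∧ (∀ i < l.length, S.Adj (w i) (w (i + 1)) ∧
      l[i]? = some (al (w i) (w (i + 1)))) ∧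
      w l.length = (l.map (PG.g X p0 δ)).prod • t u' ∧
      q (l.map (PG.g X p0 δ)).prod = X.e := by
  intro l
  induction l with
  | nil =>
    intro u u' hp
    have hu : u = u' := hp
    refine ⟨fun _ => t u, rfl, fun i hi => absurd hi (Nat.not_lt_zero i), ?_, ?_⟩
    · rw [List.map_nil, List.prod_nil, one_smul, hu]
    · rw [List.map_nil, List.prod_nil]
      exact pc_q1 hX h.pc
  | cons a l ih =>
    intro u u' hp
    obtain ⟨ho, hp'⟩ := hp
    obtain ⟨w, hw0, hw1, hw2, hw3⟩ := ih _ _ hp'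
    obtain ⟨g1, g2, g3, g4⟩ := h.g a
    refine ⟨fun i => if i = 0 then t u else PG.g X p0 δ a • w (i - 1), if_pos rfl, ?_, ?_, ?_⟩
    · intro i hi
      rcases Nat.eq_zero_or_pos i with rfl | hi0
      · simp only [if_true]
        rw [if_neg (by omega), Nat.zero_add, Nat.sub_self, hw0, ← ho]
        exact ⟨g3, by rw [g4]; rfl⟩
      · obtain ⟨j, rfl⟩ : ∃ j, i = j + 1 := ⟨i - 1, by omega⟩
        rw [List.length_cons] at hi
        obtain ⟨k1, k2⟩ := hw1 j (by omega)
        simp only [if_neg (Nat.succ_ne_zero j), if_neg (Nat.succ_ne_zero (j + 1)),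
          Nat.add_sub_cancel]
        refine ⟨h.pc.adj _ _ _ k1, ?_⟩
        rw [List.getElem?_cons_succ, k2, h.pc.alq _ _ _ k1, g1, hX.aAe]
    · rw [List.length_cons]
      show (if l.length + 1 = 0 then t u else PG.g X p0 δ a • w (l.length + 1 - 1)) = _
      rw [if_neg (Nat.succ_ne_zero _), Nat.add_sub_cancel, hw2, List.map_cons,
        List.prod_cons, mul_smul]
    · rw [List.map_cons, List.prod_cons, h.pc.qm, g1, hw3, hX.em]

/-- the axis of the hyperbolic element -/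
structure Ln (X : PD P A Q) (S : SimpleGraph V) (al : V → V → A) (t : P → V)
    (p0 : P) (δ : P → A) [MulAction (PG X p0 δ) V] (e : EDat P A Q) (w : ℤ → V) : Prop where
  w0 : w 0 = t e.v
  adj : ∀ i, S.Adj (w i) (w (i + 1))
  hw : ∀ i, w (i + e.γ.length) = e.hel X p0 δ • w i
  lab : ∀ i : ℕ, i < e.γ.length → e.γ[i]? = some (al (w i) (w (i + 1)))

theorem e01_pw (hX : X.Ok) (h : PGt X p0 δ S q D p al t) (g : PG X p0 δ) (n : ℕ) :
    q (g ^ n) = X.pw (q g) n := by
  unfold PD.pw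
  induction n with
  | zero =>
    rw [pow_zero]
    exact pc_q1 hX h.pc
  | succ n ih =>
    rw [pow_succ', h.pc.qm, ih, Function.iterate_succ_apply']

theorem e01_pwa (hX : X.Ok) (x : Q) (m n : ℕ) : X.pw x (m + n) = X.m (X.pw x m) (X.pw x n) := by
  induction m with
  | zero =>
    rw [Nat.zero_add]
    exact (hX.em _).symm
  | succ m ih =>
    have e1 : m + 1 + n = (m + n) + 1 := by ring
    rw [e1]
    unfold PD.pw at ih ⊢
    rw [Function.iterate_succ_apply', Function.iterate_succ_apply', ih, hX.as]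

theorem e01_hq (hX : X.Ok) (h : PGt X p0 δ S q D p al t) {e : EDat P A Q} (he : e.Ok X) :
    q (e.hel X p0 δ) = e.xh := by
  obtain ⟨w, -, -, -, h1⟩ := e01_path hX h e.γ e.v _ he.path
  unfold EDat.hel
  rw [h.pc.qm, h.pc.qm, h1, (h.s _ _).1, (pc_cz hX h.pc _).1, hX.me, hX.em]

theorem e01_bq (hX : X.Ok) (h : PGt X p0 δ S q D p al t) {e : EDat P A Q} :
    q (e.bel X p0 δ) = e.y := by
  unfold EDat.bel
  rw [h.pc.qm, (h.s _ _).1, (pc_cz hX h.pc _).1, hX.me]

theorem e01_len {e : EDat P A Q} (he : e.Ok X) : 0 < e.γ.length :=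
  List.length_pos_iff.2 he.ne

theorem e01_ln (hX : X.Ok) (h : PGt X p0 δ S q D p al t) {e : EDat P A Q} (he : e.Ok X) :
    ∃ w : ℤ → V, Ln X S al t p0 δ e w := by
  obtain ⟨w, hw0, hw1, hw2, hw3⟩ := e01_path hX h e.γ e.v _ he.path
  have hn := e01_len he
  obtain ⟨n, hnn⟩ : ∃ n, n = e.γ.length := ⟨_, rfl⟩
  rw [← hnn] at hw1 hw2 hn
  have hz : (n : ℤ) ≠ 0 := by exact_mod_cast hn.ne'
  have hwn : w n = e.hel X p0 δ • w 0 := by
    rw [hw2, hw0]
    unfold EDat.hel
    rw [mul_smul, mul_smul, (pc_cz hX h.pc _).2.2, (h.s _ _).2.2]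
  -- the extension
  let W : ℤ → V := fun i => e.hel X p0 δ ^ (i / n) • w (i % n).toNat
  have hW1 : ∀ i, W (i + 1) = e.hel X p0 δ ^ (i / n) • w ((i % n).toNat + 1) := by
    intro i
    have h1 := Int.emod_nonneg i hz
    have h2 := Int.emod_lt_of_pos i (by exact_mod_cast hn : (0 : ℤ) < n)
    have h3 := Int.mul_ediv_add_emod i n
    by_cases h4 : i % n + 1 < n
    · have e1 : (i + 1) / n = i / n := by
        have : i + 1 = (i % n + 1) + n * (i / n) := by omega
        rw [this, Int.add_mul_ediv_left _ _ hz, Int.ediv_eq_zero_of_lt (by omega) h4, zero_add]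
      have e2 : (i + 1) % n = i % n + 1 := by
        have : i + 1 = (i % n + 1) + n * (i / n) := by omega
        rw [this, Int.add_mul_emod_self_left, Int.emod_eq_of_lt (by omega) h4]
      show e.hel X p0 δ ^ ((i + 1) / n) • w ((i + 1) % n).toNat = _
      rw [e1, e2]
      congr 2
      omega
    · have h5 : i % n = n - 1 := by omega
      have e0 : i + 1 = 0 + n * (i / n + 1) := by
        have : (n : ℤ) * (i / n + 1) = n * (i / n) + n := by ring
        omega
      have e1 : (i + 1) / n = i / n + 1 := by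
        rw [e0, Int.add_mul_ediv_left _ _ hz, Int.zero_ediv, zero_add]
      have e2 : (i + 1) % n = 0 := by
        rw [e0, Int.add_mul_emod_self_left, Int.zero_emod]
      show e.hel X p0 δ ^ ((i + 1) / n) • w ((i + 1) % n).toNat = _
      rw [e1, e2]
      have e3 : (i % n).toNat + 1 = n := by omega
      rw [e3, hwn, zpow_add_one, mul_smul]
      rfl
  have hlt : ∀ i : ℤ, (i % n).toNat < n := by
    intro i
    have h1 := Int.emod_nonneg i hz
    have h2 := Int.emod_lt_of_pos i (by exact_mod_cast hn : (0 : ℤ) < n)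
    omega
  refine ⟨W, ?_, ?_, ?_, ?_⟩
  · show e.hel X p0 δ ^ ((0 : ℤ) / n) • w ((0 : ℤ) % n).toNat = t e.v
    rw [Int.zero_ediv, Int.zero_emod, zpow_zero, one_smul]
    exact hw0
  · intro i
    rw [hW1]
    exact h.pc.adj _ _ _ (hw1 _ (hlt i)).1
  · intro i
    rw [← hnn]
    show e.hel X p0 δ ^ ((i + n) / n) • w ((i + n) % n).toNat =
      e.hel X p0 δ • e.hel X p0 δ ^ (i / n) • w (i % n).toNat
    rw [Int.add_emod_right, Int.add_ediv_of_dvd_right (dvd_refl _), Int.ediv_self hz, add_comm,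
      zpow_one_add, mul_smul]
  · intro i hi
    rw [← hnn] at hi
    have e1 : W i = w i := by
      show e.hel X p0 δ ^ ((i : ℤ) / n) • w ((i : ℤ) % n).toNat = w i
      rw [Int.ediv_eq_zero_of_lt (by omega) (by omega), Int.emod_eq_of_lt (by omega) (by omega),
        zpow_zero, one_smul, Int.toNat_natCast]
    have e2 : W ((i : ℤ) + 1) = w (i + 1) := by
      rw [hW1, Int.ediv_eq_zero_of_lt (by omega) (by omega),
        Int.emod_eq_of_lt (by omega) (by omega), zpow_zero, one_smul, Int.toNat_natCast]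
    rw [e1, e2]
    exact (hw1 i hi).2

/-- translation by powers -/
theorem Ln.hwz {e : EDat P A Q} {w : ℤ → V} (L : Ln X S al t p0 δ e w) (k i : ℤ) :
    w (i + k * e.γ.length) = e.hel X p0 δ ^ k • w i := by
  induction k using Int.induction_on with
  | zero => rw [zero_mul, add_zero, zpow_zero, one_smul]
  | succ k ih =>
    have e1 : i + ((k : ℤ) + 1) * e.γ.length = i + (k : ℤ) * e.γ.length + e.γ.length := by ring
    rw [e1, L.hw, ih, zpow_add_one, ← mul_smul]
    congr 1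
    exact (zpow_one_add (e.hel X p0 δ) (k : ℤ)).symm.trans (by rw [add_comm, zpow_add_one])
  | pred k ih =>
    have e1 : i + -(k : ℤ) * e.γ.length = (i + (-(k : ℤ) - 1) * e.γ.length) + e.γ.length := by ring
    rw [e1, L.hw, ← eq_inv_smul_iff, ← mul_smul] at ih
    rw [ih]
    congr 1
    rw [← zpow_neg_one, ← zpow_add]
    congr 1
    ring

/-- labels along the axis -/
theorem Ln.lam (hX : X.Ok) (h : PGt X p0 δ S q D p al t) {e : EDat P A Q} (he : e.Ok X) {w : ℤ → V}
    (L : Ln X S al t p0 δ e w) (i : ℕ) : e.lam X i = some (al (w i) (w (i + 1))) := by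
  have hn := e01_len he
  have h1 := L.lab (i % e.γ.length) (Nat.mod_lt _ hn)
  unfold EDat.lam
  rw [h1, Option.map_some]
  have e1 : (i : ℤ) = ((i % e.γ.length : ℕ) : ℤ) + ((i / e.γ.length : ℕ) : ℤ) * e.γ.length := by
    have := Nat.mod_add_div i e.γ.length
    have h2 : ((i % e.γ.length + e.γ.length * (i / e.γ.length) : ℕ) : ℤ) = i := by rw [this]
    rw [← h2]
    push_cast
    ring
  have e2 : (i : ℤ) + 1 = (((i % e.γ.length : ℕ) : ℤ) + 1) +
      ((i / e.γ.length : ℕ) : ℤ) * e.γ.length := by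
    rw [e1]
    push_cast
    ring
  have e3 : w (i : ℤ) = e.hel X p0 δ ^ ((i / e.γ.length : ℕ) : ℤ) •
      w ((i % e.γ.length : ℕ) : ℤ) := by rw [← L.hwz, ← e1]
  have e4 : w ((i : ℤ) + 1) = e.hel X p0 δ ^ ((i / e.γ.length : ℕ) : ℤ) •
      w (((i % e.γ.length : ℕ) : ℤ) + 1) := by rw [← L.hwz, ← e2]
  rw [e3, e4, h.pc.alq _ _ _ (L.adj _), zpow_natCast, e01_pw hX h, e01_hq hX h he]

theorem Ln.ne (hX : X.Ok) (h : PGt X p0 δ S q D p al t) {e : EDat P A Q} (he : e.Ok X) {w : ℤ → V}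
    (L : Ln X S al t p0 δ e w) (i : ℤ) : w (i + 2) ≠ w i := by
  have hn := e01_len he
  have hz : (e.γ.length : ℤ) ≠ 0 := by exact_mod_cast hn.ne'
  -- the case `0 ≤ i < n`
  have key : ∀ j : ℕ, j < e.γ.length → w ((j : ℤ) + 2) ≠ w j := by
    intro j hj hh
    apply he.red j (by omega)
    rw [L.lam hX h he, L.lam hX h he, Option.map_some, ← h.pc.ali _ _ (L.adj _)]
    congr 1
    push_cast
    rw [add_assoc, one_add_one_eq_two, hh]
  have h1 := Int.emod_nonneg i hz
  have h2 := Int.emod_lt_of_pos i (by exact_mod_cast hn : (0 : ℤ) < e.γ.length)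
  have h3 := Int.mul_ediv_add_emod i e.γ.length
  obtain ⟨j, hj⟩ := Int.eq_ofNat_of_zero_le h1
  intro hh
  apply key j (by omega)
  have e1 : i = (j : ℤ) + (i / e.γ.length) * e.γ.length := by
    rw [← hj, mul_comm]
    omega
  have e2 : i + 2 = ((j : ℤ) + 2) + (i / e.γ.length) * e.γ.length := by
    omega
  have e3 : w i = e.hel X p0 δ ^ (i / (e.γ.length : ℤ)) • w (j : ℤ) := by rw [← L.hwz, ← e1]
  have e4 : w (i + 2) = e.hel X p0 δ ^ (i / (e.γ.length : ℤ)) • w ((j : ℤ) + 2) := by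
    rw [← L.hwz, ← e2]
  rw [e3, e4] at hh
  exact smul_left_cancel _ hh

theorem Ln.dist (hX : X.Ok) (h : PGt X p0 δ S q D p al t) {e : EDat P A Q} (he : e.Ok X)
    {w : ℤ → V} (L : Ln X S al t p0 δ e w) (i j : ℤ) : S.dist (w i) (w j) = (i - j).natAbs :=
  e01_dist h.pc.tree w L.adj (L.ne hX h he) i j

theorem e01_bD (hX : X.Ok) (h : PGt X p0 δ S q D p al t) {e : EDat P A Q} (he : e.Ok X) :
    D (e.bel X p0 δ) = X.de e.y + e.kb * X.R := by
  unfold EDat.bel
  rw [h.pc.Dm, (h.s _ _).2.1, (h.s _ _).1, (pc_cz hX h.pc _).2.1, he.epy, one_mul]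

theorem e01_Dpow (hX : X.Ok) (h : PGt X p0 δ S q D p al t) (g : PG X p0 δ) (hg : X.ep (q g) = 1)
    (n : ℕ) : D (g ^ n) = n * D g ∧ X.ep (q (g ^ n)) = 1 := by
  induction n with
  | zero =>
    rw [pow_zero, pc_D1 hX h.pc, pc_q1 hX h.pc]
    exact ⟨by rw [Nat.cast_zero, zero_mul], ok_epe hX⟩
  | succ n ih =>
    rw [pow_succ, h.pc.Dm, h.pc.qm, hX.epm, ih.1, ih.2, hg]
    refine ⟨?_, one_mul _⟩
    push_cast
    ring

theorem e01_b0 (hX : X.Ok) (h : PGt X p0 δ S q D p al t) {e : EDat P A Q} (he : e.Ok X) :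
    e.bel X p0 δ • t e.v = t e.v := by
  unfold EDat.bel
  rw [mul_smul, (pc_cz hX h.pc _).2.2, (h.s _ _).2.2, he.yv]

theorem Ln.b_seg (hX : X.Ok) (h : PGt X p0 δ S q D p al t) {e : EDat P A Q} (he : e.Ok X)
    {w : ℤ → V} (L : Ln X S al t p0 δ e w) (i : ℕ) (hi : i ≤ e.γ.length) :
    e.bel X p0 δ • w i = w i := by
  induction i with
  | zero =>
    have := e01_b0 hX h he
    rw [← L.w0] at this
    exact this
  | succ i ih =>
    have h1 := ih (by omega)
    have h2 := L.lab i (by omega)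
    have h3 := L.adj i
    push_cast
    refine h.pc.inj (w i) _ _ ?_ h3 ?_
    · have h4 := h.pc.adj (e.bel X p0 δ) _ _ h3
      rw [h1] at h4
      exact h4
    · have h4 := h.pc.alq (e.bel X p0 δ) _ _ h3
      rw [h1, e01_bq hX h] at h4
      rw [h4]
      exact he.yg _ (List.mem_of_getElem? h2)

theorem e01_com (hX : X.Ok) (h : PGt X p0 δ S q D p al t) {e : EDat P A Q} (he : e.Ok X) :
    e.hel X p0 δ * e.bel X p0 δ = e.bel X p0 δ * e.hel X p0 δ := by
  obtain ⟨w, L⟩ := e01_ln hX h he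
  have h1 := L.b_seg hX h he e.γ.length le_rfl
  have h2 := L.hw 0
  rw [zero_add, L.w0] at h2
  rw [h2] at h1
  refine pc_eq hX h.pc (v := t e.v) ?_ ?_ ?_
  · rw [h.pc.qm, h.pc.qm, e01_hq hX h he, e01_bq hX h, he.com]
  · rw [mul_smul, mul_smul, h1, e01_b0 hX h he]
  · rw [h.pc.Dm, h.pc.Dm, e01_hq hX h he, e01_bq hX h, he.eph, he.epy]
    ring

theorem Ln.b (hX : X.Ok) (h : PGt X p0 δ S q D p al t) {e : EDat P A Q} (he : e.Ok X)
    {w : ℤ → V} (L : Ln X S al t p0 δ e w) (i : ℤ) : e.bel X p0 δ • w i = w i := by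
  have hn := e01_len he
  have hz : (e.γ.length : ℤ) ≠ 0 := by exact_mod_cast hn.ne'
  have h1 := Int.emod_nonneg i hz
  have h2 := Int.emod_lt_of_pos i (by exact_mod_cast hn : (0 : ℤ) < e.γ.length)
  have h3 := Int.mul_ediv_add_emod i e.γ.length
  obtain ⟨j, hj⟩ := Int.eq_ofNat_of_zero_le h1
  have e1 : i = (j : ℤ) + (i / e.γ.length) * e.γ.length := by
    rw [← hj, mul_comm]
    omega
  have hc : Commute (e.bel X p0 δ) (e.hel X p0 δ) := (e01_com hX h he).symm
  rw [e1, L.hwz, ← mul_smul, (hc.zpow_right _).eq, mul_smul, L.b_seg hX h he j (by omega)]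

theorem e01_bm (hX : X.Ok) (h : PGt X p0 δ S q D p al t) {e : EDat P A Q} (he : e.Ok X) :
    ∃ m : ℕ, 0 < m ∧ e.bel X p0 δ ^ m = PG.c X p0 δ := by
  obtain ⟨m, hm, h1, h2⟩ := he.bm
  refine ⟨m, hm, ?_⟩
  have hep : X.ep (q (e.bel X p0 δ)) = 1 := by
    rw [e01_bq hX h]
    exact he.epy
  refine pc_eq hX h.pc (v := t e.v) ?_ ?_ ?_
  · rw [e01_pw hX h, e01_bq hX h, h2, h.pc.qc]
  · rw [h.pc.cf]
    have h3 : e.bel X p0 δ ∈ MulAction.stabilizer _ (t e.v) := e01_b0 hX h he
    exact Subgroup.pow_mem _ h3 m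
  · rw [(e01_Dpow hX h _ hep m).1, h.pc.Dc, e01_bD hX h he, h1]

theorem edat_ax (hX : X.Ok) (h : PGt X p0 δ S q D p al t) {e : EDat P A Q} (he : e.Ok X) :
    AxM (PG X p0 δ) S (e.hel X p0 δ) (e.bel X p0 δ) (t e.v) e.γ.length ∧
      (∃ m : ℕ, 0 < m ∧ e.bel X p0 δ ^ m = PG.c X p0 δ) ∧
      q (e.hel X p0 δ) = e.xh ∧ q (e.bel X p0 δ) = e.y ∧
      ∀ k j : ℤ, k ≠ 0 → e.hel X p0 δ ^ k ≠ PG.c X p0 δ ^ j := by
  obtain ⟨w, L⟩ := e01_ln hX h he
  have hn := e01_len he
  refine ⟨⟨hn, ?_, ?_, e01_b0 hX h he, e01_com hX h he⟩, e01_bm hX h he, e01_hq hX h he,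
    e01_bq hX h, ?_⟩
  · rw [← L.w0, ← L.hw, L.dist hX h he]
    omega
  · rw [← L.w0, ← L.hw, ← L.hw, L.dist hX h he]
    omega
  · intro k j hk hkj
    have h1 := L.hwz k 0
    rw [hkj, (pc_cz hX h.pc j).2.2] at h1
    have h2 := L.dist hX h he (0 + k * e.γ.length) 0
    rw [h1, SimpleGraph.dist_self] at h2
    have h3 : k * (e.γ.length : ℤ) = 0 := by omega
    rcases mul_eq_zero.1 h3 with h4 | h4
    · exact hk h4
    · omega

end

end VF
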