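import Pool.Agent.Lib.MP_32d917_al_vf.E01

/-!
# E03: separation
-/

set_option autoImplicit false

namespace VF

open LatIso LatN AdmIso

section

theorem e03_int (f : ℤ → ℤ) (hf : ∀ i j, (f i - f j).natAbs = (i - j).natAbs) :
    ∃ σ : ℤ, (σ = 1 ∨ σ = -1) ∧ ∀ i, f i = σ * i + f 0 := by
  have h1 := hf 1 0
  have h2 : f 1 - f 0 = 1 ∨ f 1 - f 0 = -1 := by omega
  rcases h2 with h2 | h2
  · refine ⟨1, Or.inl rfl, fun i => ?_⟩
    have h3 := hf i 0
    have h4 := hf i 1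
    omega
  · refine ⟨-1, Or.inr rfl, fun i => ?_⟩
    have h3 := hf i 0
    have h4 := hf i 1
    omega

/-- lines translated by the same element coincide -/
theorem e03_lines {G : Type} [Group G] {V : Type} [MulAction G V] {S : SimpleGraph V}
    (T : TA G S) (g : G) (u w : ℤ → V) (k l : ℤ) (hk : k ≠ 0) (hl : l ≠ 0)
    (hu : ∀ i j, S.dist (u i) (u j) = (i - j).natAbs)
    (hw : ∀ i j, S.dist (w i) (w j) = (i - j).natAbs)
    (hgu : ∀ i, g • u i = u (i + k)) (hgw : ∀ i, g • w i = w (i + l)) :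
    ∃ σ s : ℤ, (σ = 1 ∨ σ = -1) ∧ ∀ i, u i = w (σ * i + s) := by
  have key : ∀ (v : ℤ → V) (m : ℤ), m ≠ 0 → (∀ i j, S.dist (v i) (v j) = (i - j).natAbs) →
      (∀ i, g • v i = v (i + m)) → ∀ i, S.dist (v i) (g • v i) = tl S g := by
    intro v m hm hv hgv i
    have h1 : S.dist (v i) (g • v i) = m.natAbs := by
      rw [hgv, hv]
      omega
    refine tl_axis T g (v i) (by omega) ?_
    rw [h1, hgv, hgv, hv]
    omega
  have k1 := key u k hk hu hgu
  have k2 := key w l hl hw hgw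
  have hpos : 0 < tl S g := by
    rw [← k1 0, hgu, hu]
    omega
  obtain ⟨b, hb1, -, hb3⟩ := tl_line T g hpos
  have m1 : ∀ i, ∃ j, b j = u i := fun i => (hb3 _).1 (k1 i)
  have m2 : ∀ i, ∃ j, b j = w i := fun i => (hb3 _).1 (k2 i)
  choose φ hφ using m1
  choose ψ hψ using m2
  obtain ⟨σ, hσ, h1⟩ := e03_int φ (fun i j => by rw [← hb1, hφ, hφ, hu])
  obtain ⟨τ, hτ, h2⟩ := e03_int ψ (fun i j => by rw [← hb1, hψ, hψ, hw])
  refine ⟨τ * σ, τ * (φ 0 - ψ 0), ?_, fun i => ?_⟩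
  · rcases hσ with rfl | rfl <;> rcases hτ with rfl | rfl <;> omega
  · rw [← hφ, ← hψ]
    congr 1
    rw [h1, h2]
    rcases hτ with rfl | rfl <;> ring

variable {P A Q : Type} {X : PD P A Q} {p0 : P} {δ : P → A} {V : Type} [MulAction (PG X p0 δ) V]
  {S : SimpleGraph V} {q : PG X p0 δ → Q} {D : PG X p0 δ → ℤ} {p : V → P} {al : V → V → A}
  {t : P → V}

theorem e03_rlen (X : PD P A Q) (e : EDat P A Q) (z : Q) :
    (e.rev X z).γ.length = e.γ.length := by
  unfold EDat.rev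
  simp only [List.length_map, List.length_reverse]

theorem e03_zq (hX : X.Ok) (h : PGt X p0 δ S q D p al t) {g : PG X p0 δ} {z : Q}
    (hz : X.m z (q g) = X.e) : z = q g⁻¹ := by
  have h1 := (pc_qinv hX h.pc g).1
  calc z = X.m z X.e := (hX.me _).symm
    _ = X.m z (X.m (q g) (q g⁻¹)) := by rw [h1]
    _ = X.m (X.m z (q g)) (q g⁻¹) := (hX.as _ _ _).symm
    _ = q g⁻¹ := by rw [hz, hX.em]

/-- labels along the reversed axis -/
theorem Ln.rlam (hX : X.Ok) (h : PGt X p0 δ S q D p al t) {e : EDat P A Q} (he : e.Ok X) {w : ℤ → V}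
    (L : Ln X S al t p0 δ e w) {z : Q} (hz : X.m z e.xh = X.e) (i : ℕ) :
    (e.rev X z).lam X i = some (al (w (-i)) (w (-i - 1))) := by
  have hn := e01_len he
  have hz' : z = q (e.hel X p0 δ)⁻¹ := e03_zq hX h (by rw [e01_hq hX h he]; exact hz)
  obtain ⟨n, hnn⟩ : ∃ n, n = e.γ.length := ⟨_, rfl⟩
  -- the first period
  have key : ∀ j : ℕ, j < n → (e.rev X z).γ[j]? = some (al (w (-j)) (w (-j - 1))) := by
    intro j hj
    have h1 : (e.rev X z).γ[j]? = (e.γ[n - 1 - j]?).map fun a => X.aA z (X.i a) := by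
      show (e.γ.reverse.map fun a => X.aA z (X.i a))[j]? = _
      rw [List.getElem?_map, List.getElem?_reverse (by omega), ← hnn]
    rw [h1, L.lab (n - 1 - j) (by omega), Option.map_some, ← h.pc.ali _ _ (L.adj _), hz',
      ← h.pc.alq _ _ _ (L.adj _).symm]
    have e1 : (((n - 1 - j : ℕ) : ℤ) + 1) = -j + 1 * e.γ.length := by
      rw [← hnn]
      omega
    have e2 : ((n - 1 - j : ℕ) : ℤ) = (-j - 1) + 1 * e.γ.length := by
      rw [← hnn]
      omega
    rw [e1, e2, L.hwz, L.hwz, zpow_one, inv_smul_smul, inv_smul_smul]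
  unfold EDat.lam
  rw [e03_rlen, ← hnn, key _ (Nat.mod_lt _ (by omega)), Option.map_some]
  have e0 : i = i % n + n * (i / n) := (Nat.mod_add_div i n).symm
  have e0' : (i : ℤ) = ((i % n : ℕ) : ℤ) + (n : ℤ) * ((i / n : ℕ) : ℤ) := by
    exact_mod_cast e0
  have e1 : w (-(i : ℤ)) = e.hel X p0 δ ^ (-((i / n : ℕ) : ℤ)) • w (-((i % n : ℕ) : ℤ)) := by
    rw [← L.hwz, ← hnn]
    congr 1
    rw [e0']
    ring
  have e2 : w (-(i : ℤ) - 1) = e.hel X p0 δ ^ (-((i / n : ℕ) : ℤ)) •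
      w (-((i % n : ℕ) : ℤ) - 1) := by
    rw [← L.hwz, ← hnn]
    congr 1
    rw [e0']
    ring
  have hadj : ∀ j : ℤ, S.Adj (w j) (w (j - 1)) := by
    intro j
    have h1 := L.adj (j - 1)
    rw [sub_add_cancel] at h1
    exact h1.symm
  rw [e1, e2, h.pc.alq _ _ _ (hadj _), zpow_neg, zpow_natCast, ← inv_pow, e01_pw hX h, ← hz']
  rfl

theorem e03_cc (hX : X.Ok) (h : PGt X p0 δ S q D p al t) (x : PG X p0 δ) (j : ℤ) :
    ∃ l : ℤ, x⁻¹ * PG.c X p0 δ ^ j * x = PG.c X p0 δ ^ l := by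
  have h1 := pc_conj hX h.pc x⁻¹
  rw [inv_inv] at h1
  refine ⟨X.ep (q x⁻¹) * j, ?_⟩
  have h2 : x⁻¹ * PG.c X p0 δ ^ j * x = (x⁻¹ * PG.c X p0 δ * x) ^ j := by
    have := conj_zpow (i := j) (a := x⁻¹) (b := PG.c X p0 δ)
    rw [inv_inv] at this
    exact this.symm
  rw [h2, h1, ← zpow_mul]

/-- the powers of the hyperbolic element -/
theorem e03_powers (hX : X.Ok) (h : PGt X p0 δ S q D p al t) {e f : EDat P A Q}
    (he : e.Ok X) (hf : f.Ok X) (x : PG X p0 δ) (k i j : ℤ) (hk : k ≠ 0)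
    (hx : x * e.hel X p0 δ ^ k * x⁻¹ = f.hel X p0 δ ^ i * f.bel X p0 δ ^ j) :
    ∃ K I l : ℤ, K ≠ 0 ∧ I ≠ 0 ∧
      x * e.hel X p0 δ ^ K * x⁻¹ = f.hel X p0 δ ^ I * PG.c X p0 δ ^ l := by
  obtain ⟨m, hm, hb⟩ := e01_bm hX h hf
  have hcom : Commute (f.hel X p0 δ) (f.bel X p0 δ) := e01_com hX h hf
  have h1 : x * e.hel X p0 δ ^ (k * m) * x⁻¹ = f.hel X p0 δ ^ (i * m) * PG.c X p0 δ ^ j := by
    have e1 : x * e.hel X p0 δ ^ (k * m) * x⁻¹ = (x * e.hel X p0 δ ^ k * x⁻¹) ^ m := by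
      rw [conj_pow, zpow_mul, zpow_natCast]
    rw [e1, hx, ((hcom.zpow_zpow i j)).mul_pow, zpow_mul, zpow_natCast, ← hb]
    congr 1
    rw [← zpow_natCast, ← zpow_mul, ← zpow_natCast, ← zpow_mul, mul_comm]
  refine ⟨k * m, i * m, j, mul_ne_zero hk (by exact_mod_cast hm.ne'), ?_, h1⟩
  intro hI
  rw [hI, zpow_zero, one_mul] at h1
  obtain ⟨l, hl⟩ := e03_cc hX h x j
  have h2 : e.hel X p0 δ ^ (k * m) = x⁻¹ * PG.c X p0 δ ^ j * x := by
    rw [← h1]
    group
  rw [hl] at h2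
  exact (edat_ax hX h he).2.2.2.2 _ _ (mul_ne_zero hk (by exact_mod_cast hm.ne')) h2

theorem e03_align (hX : X.Ok) [Finite Q] (h : PGt X p0 δ S q D p al t) {e f : EDat P A Q}
    (he : e.Ok X) (hf : f.Ok X) {u w : ℤ → V} (Le : Ln X S al t p0 δ e u)
    (Lf : Ln X S al t p0 δ f w)
    (x : PG X p0 δ) (k i j : ℤ) (hk : k ≠ 0)
    (hx : x * e.hel X p0 δ ^ k * x⁻¹ = f.hel X p0 δ ^ i * f.bel X p0 δ ^ j) :
    ∃ σ s : ℤ, (σ = 1 ∨ σ = -1) ∧ ∀ i, x • u i = w (σ * i + s) := by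
  obtain ⟨K, I, l, hK, hI, h1⟩ := e03_powers hX h he hf x k i j hk hx
  have ne := e01_len he
  have nf := e01_len hf
  refine e03_lines (pc_ta hX h.pc) (f.hel X p0 δ ^ I * PG.c X p0 δ ^ l) (fun i => x • u i) w
    (K * e.γ.length) (I * f.γ.length) (mul_ne_zero hK (by exact_mod_cast ne.ne'))
    (mul_ne_zero hI (by exact_mod_cast nf.ne')) ?_ (Lf.dist hX h hf) ?_ ?_
  · intro i j
    rw [ta_dist (pc_ta hX h.pc), Le.dist hX h he]
  · intro i
    rw [← h1, mul_smul, mul_smul, inv_smul_smul, Le.hwz]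
  · intro i
    rw [mul_smul, (pc_cz hX h.pc l).2.2, Lf.hwz]

theorem edat_sep [Finite Q] (hX : X.Ok) (h : PGt X p0 δ S q D p al t) {e f : EDat P A Q}
    (he : e.Ok X) (hf : f.Ok X) {same : Prop} (hef : same → e = f) (hs : ESep X same e f)
    (x : PG X p0 δ) (k i j : ℤ) (hk : k ≠ 0)
    (hx : x * e.hel X p0 δ ^ k * x⁻¹ = f.hel X p0 δ ^ i * f.bel X p0 δ ^ j) :
    same ∧ ∃ i j : ℤ, x = f.hel X p0 δ ^ i * f.bel X p0 δ ^ j := by
  obtain ⟨u, Le⟩ := e01_ln hX h he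
  obtain ⟨w, Lf⟩ := e01_ln hX h hf
  obtain ⟨σ, s, hσ, h1⟩ := e03_align hX h he hf Le Lf x k i j hk hx
  have nf := e01_len hf
  have hz : (f.γ.length : ℤ) ≠ 0 := by exact_mod_cast nf.ne'
  have nf' : (0 : ℤ) < f.γ.length := by exact_mod_cast nf
  rcases hσ with rfl | rfl
  · -- the same direction
    obtain ⟨s', hs'⟩ := Int.eq_ofNat_of_zero_le (Int.emod_nonneg s hz)
    have hlt := Int.emod_lt_of_pos s nf'
    have h3 := Int.mul_ediv_add_emod s f.γ.length
    obtain ⟨r, hr⟩ : ∃ r, r = s / f.γ.length := ⟨_, rfl⟩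
    rw [← hr] at h3
    have h2 : ∀ i : ℤ, (f.hel X p0 δ ^ (-r) * x) • u i = w (i + s') := by
      intro i
      rw [mul_smul, h1, ← Lf.hwz]
      congr 1
      rw [← hs', one_mul]
      linear_combination h3.symm
    obtain ⟨hsame, hs0, m, hm⟩ := hs.pos (q (f.hel X p0 δ ^ (-r) * x)) s' (by omega) (by
      intro i
      rw [Le.lam hX h he, Lf.lam hX h hf, Option.map_some, ← h.pc.alq _ _ _ (Le.adj _), h2, h2]
      congr 3
      push_cast
      ring)
    refine ⟨hsame, ?_⟩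
    have heq := hef hsame
    have h4 := h2 0
    rw [hs0, Nat.cast_zero, add_zero, Le.w0, Lf.w0, heq] at h4
    obtain ⟨l, hl⟩ := pc_eqc hX h.pc (g := f.hel X p0 δ ^ (-r) * x) (k := f.bel X p0 δ ^ m)
      (v := t f.v) (by rw [hm, e01_pw hX h, e01_bq hX h]) (by
        rw [h4]
        have h5 : f.bel X p0 δ ∈ MulAction.stabilizer _ (t f.v) := e01_b0 hX h hf
        exact (Subgroup.pow_mem _ h5 m).symm)
    obtain ⟨m', _, hm'⟩ := e01_bm hX h hf
    refine ⟨r, m + m' * l, ?_⟩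
    have e1 : f.bel X p0 δ ^ ((m : ℤ) + m' * l) = f.bel X p0 δ ^ m * PG.c X p0 δ ^ l := by
      rw [zpow_add, zpow_mul, zpow_natCast, zpow_natCast, hm']
    rw [e1, ← hl, zpow_neg, mul_inv_cancel_left]
  · -- the opposite direction
    exfalso
    obtain ⟨s', hs'⟩ := Int.eq_ofNat_of_zero_le (Int.emod_nonneg (-s) hz)
    have hlt := Int.emod_lt_of_pos (-s) nf'
    have h3 := Int.mul_ediv_add_emod (-s) f.γ.length
    obtain ⟨r, hr⟩ : ∃ r, r = (-s) / f.γ.length := ⟨_, rfl⟩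
    rw [← hr] at h3
    have h2 : ∀ i : ℤ, (f.hel X p0 δ ^ r * x) • u i = w (-(i + s')) := by
      intro i
      rw [mul_smul, h1, ← Lf.hwz]
      congr 1
      rw [← hs']
      linear_combination h3
    obtain ⟨z, -, hzz⟩ := hX.iv f.xh
    obtain ⟨i, hi⟩ := hs.neg (q (f.hel X p0 δ ^ r * x)) z s' (by omega) hzz
    apply hi
    rw [Le.lam hX h he, Lf.rlam hX h hf hzz, Option.map_some, ← h.pc.alq _ _ _ (Le.adj _), h2, h2]
    congr 3
    push_cast
    ring

theorem e03_kp (hX : X.Ok) (h : PGt X p0 δ S q D p al t) (g : PG X p0 δ) (hg : q g = X.e) (k : ℕ) :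
    q (g ^ k) = X.e := by
  induction k with
  | zero =>
    rw [pow_zero]
    exact pc_q1 hX h.pc
  | succ k ih => rw [pow_succ, h.pc.qm, ih, hg, hX.em]

theorem e03_conj (hX : X.Ok) (h : PGt X p0 δ S q D p al t) (g k : PG X p0 δ) (hk : q k = X.e) :
    q (g * k * g⁻¹) = X.e := by
  rw [h.pc.qm, h.pc.qm, hk, hX.me]
  exact (pc_qinv hX h.pc g).1

/-- an element of the group from labels -/
theorem e03_lift (hX : X.Ok) (h : PGt X p0 δ S q D p al t) (x : Q) (u w : ℕ → V)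
    (hu : ∀ i, S.Adj (u i) (u (i + 1))) (hw : ∀ i, S.Adj (w i) (w (i + 1)))
    (hl : ∀ i, X.aA x (al (u i) (u (i + 1))) = al (w i) (w (i + 1))) :
    ∃ g : PG X p0 δ, q g = x ∧ ∀ i, g • u i = w i := by
  obtain ⟨g, hg1, -, hg2⟩ := b04_lift hX h.pc x (u 0) (w 0) (X.de x) (by
    rw [← h.pc.po _ _ (hw 0), ← hl, hX.oA, h.pc.po _ _ (hu 0)]) (by
    rw [sub_self]
    exact dvd_zero _)
  refine ⟨g, hg1, fun i => ?_⟩
  induction i with
  | zero => exact hg2
  | succ i ih =>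
    have h1 := h.pc.adj g _ _ (hu i)
    have h2 := h.pc.alq g _ _ (hu i)
    rw [ih] at h1 h2
    refine h.pc.inj _ _ _ h1 (hw i) ?_
    rw [h2, hg1, hl]

/-- elements mapping a ray of the axis to a ray of the axis -/
theorem e03_ray [Finite Q] (hX : X.Ok) (h : PGt X p0 δ S q D p al t) {e f : EDat P A Q}
    (he : e.Ok X) (hf : f.Ok X) {u w : ℤ → V} (Le : Ln X S al t p0 δ e u)
    (Lf : Ln X S al t p0 δ f w) (g : PG X p0 δ) (σ s : ℤ) (hσ : σ = 1 ∨ σ = -1)
    (hg : ∀ i : ℕ, g • u i = w (σ * i + s)) : ∃ K : ℕ, 0 < K ∧ ∃ l : ℤ,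
      g * e.hel X p0 δ ^ ((K : ℤ) * f.γ.length) * g⁻¹ =
        f.hel X p0 δ ^ (σ * (K * e.γ.length)) * PG.c X p0 δ ^ l := by
  obtain ⟨k1, hk1, h1⟩ := pc_pow hX h.pc (e.hel X p0 δ)
  obtain ⟨k2, hk2, h2⟩ := pc_pow hX h.pc (f.hel X p0 δ)
  refine ⟨k1 * k2, Nat.mul_pos hk1 hk2, ?_⟩
  have q1 : q (e.hel X p0 δ ^ (((k1 * k2 : ℕ) : ℤ) * f.γ.length)) = X.e := by
    have e1 : e.hel X p0 δ ^ (((k1 * k2 : ℕ) : ℤ) * f.γ.length) =
        (e.hel X p0 δ ^ k1) ^ (k2 * f.γ.length) := by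
      rw [← pow_mul, ← zpow_natCast]
      congr 1
      push_cast
      ring
    rw [e1]
    exact e03_kp hX h _ h1 _
  have q2' : q (f.hel X p0 δ ^ (k1 * k2 * e.γ.length)) = X.e := by
    have e1 : f.hel X p0 δ ^ (k1 * k2 * e.γ.length) =
        (f.hel X p0 δ ^ k2) ^ (k1 * e.γ.length) := by
      rw [← pow_mul]
      congr 1
      ring
    rw [e1]
    exact e03_kp hX h _ h2 _
  have q2 : q (f.hel X p0 δ ^ (σ * (((k1 * k2 : ℕ) : ℤ) * e.γ.length))) = X.e := by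
    have e2 : ((k1 * k2 : ℕ) : ℤ) * e.γ.length = ((k1 * k2 * e.γ.length : ℕ) : ℤ) := by
      push_cast
      ring
    rw [e2]
    rcases hσ with rfl | rfl
    · rw [one_mul, zpow_natCast]
      exact q2'
    · have h3 := (pc_qinv hX h.pc (f.hel X p0 δ ^ (k1 * k2 * e.γ.length))).1
      rw [q2', hX.em] at h3
      rw [neg_one_mul, zpow_neg, zpow_natCast]
      exact h3
  refine pc_eqc hX h.pc (v := w s) (by rw [q2]; exact e03_conj hX h _ _ q1) ?_
  have h3 := hg 0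
  rw [Nat.cast_zero, mul_zero, zero_add] at h3
  rw [← Lf.hwz, ← h3, mul_smul, mul_smul, inv_smul_smul, ← Le.hwz]
  have e3 : (0 : ℤ) + ((k1 * k2 : ℕ) : ℤ) * f.γ.length * e.γ.length =
      ((k1 * k2 * f.γ.length * e.γ.length : ℕ) : ℤ) := by
    push_cast
    ring
  rw [e3, hg]
  congr 1
  push_cast
  ring

theorem esep_of [Finite Q] (hX : X.Ok) (h : PGt X p0 δ S q D p al t) {e f : EDat P A Q}
    (he : e.Ok X) (hf : f.Ok X) {same : Prop} (hef : same → e = f)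
    (hs : ∀ (x : PG X p0 δ) (k i j : ℤ), k ≠ 0 →
      x * e.hel X p0 δ ^ k * x⁻¹ = f.hel X p0 δ ^ i * f.bel X p0 δ ^ j →
      same ∧ ∃ i j : ℤ, x = f.hel X p0 δ ^ i * f.bel X p0 δ ^ j) : ESep X same e f := by
  obtain ⟨u, Le⟩ := e01_ln hX h he
  obtain ⟨w, Lf⟩ := e01_ln hX h hf
  have nf := e01_len hf
  have ne := e01_len he
  obtain ⟨m, hm, hb⟩ := e01_bm hX h hf
  have hcb : ∀ l : ℤ, PG.c X p0 δ ^ l = f.bel X p0 δ ^ ((m : ℤ) * l) := by
    intro l
    rw [zpow_mul, zpow_natCast, hb]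
  have hadj : ∀ j : ℤ, S.Adj (w j) (w (j - 1)) := by
    intro j
    have h1 := Lf.adj (j - 1)
    rw [sub_add_cancel] at h1
    exact h1.symm
  constructor
  · intro x s hs1 hl
    obtain ⟨g, hg1, hg2⟩ := e03_lift hX h x (fun i : ℕ => u i) (fun i : ℕ => w ((i + s : ℕ) : ℤ))
      (fun i => by
        have := Le.adj i
        push_cast
        exact this)
      (fun i => by
        have := Lf.adj ((i + s : ℕ) : ℤ)
        push_cast at this ⊢
        rw [add_right_comm]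
        exact this)
      (fun i => by
        have h1 := hl i
        rw [Le.lam hX h he, Lf.lam hX h hf, Option.map_some] at h1
        have h2 := Option.some.inj h1
        have e1 : ((i + 1 + s : ℕ) : ℤ) = ((i + s : ℕ) : ℤ) + 1 := by
          push_cast
          ring
        have e2 : ((i + 1 : ℕ) : ℤ) = (i : ℤ) + 1 := by push_cast; ring
        show X.aA x (al (u i) (u ((i + 1 : ℕ) : ℤ))) =
          al (w ((i + s : ℕ) : ℤ)) (w ((i + 1 + s : ℕ) : ℤ))
        rw [e1, e2]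
        exact h2)
    have hg3 : ∀ i : ℕ, g • u i = w (1 * i + s) := by
      intro i
      have h1 := hg2 i
      rw [one_mul]
      push_cast at h1
      exact h1
    obtain ⟨K, hK, l, h1⟩ := e03_ray hX h he hf Le Lf g 1 s (Or.inl rfl) hg3
    rw [hcb] at h1
    obtain ⟨hsame, i, j, hij⟩ := hs g _ _ _
      (mul_ne_zero (by exact_mod_cast hK.ne') (by exact_mod_cast nf.ne')) h1
    have heq := hef hsame
    have h2 := hg3 0
    have h3 : f.bel X p0 δ ∈ MulAction.stabilizer _ (w 0) := Lf.b hX h hf 0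
    have h4 : (f.bel X p0 δ ^ j) • w 0 = w 0 := Subgroup.zpow_mem _ h3 j
    rw [Nat.cast_zero, mul_zero, zero_add, Le.w0, heq, ← Lf.w0, hij, mul_smul, h4,
      ← Lf.hwz] at h2
    have h5 := Lf.dist hX h hf (0 + i * f.γ.length) s
    rw [h2, SimpleGraph.dist_self] at h5
    have h6 : i * (f.γ.length : ℤ) = s := by omega
    have h7 : i = 0 := by
      rcases lt_trichotomy i 0 with h8 | h8 | h8
      · exfalso
        have : i * (f.γ.length : ℤ) < 0 := mul_neg_of_neg_of_pos h8 (by exact_mod_cast nf)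
        omega
      · exact h8
      · exfalso
        have : 1 * (f.γ.length : ℤ) ≤ i * (f.γ.length : ℤ) :=
          mul_le_mul_of_nonneg_right (by omega) (by omega)
        omega
    refine ⟨hsame, ?_, ?_⟩
    · rw [h7, zero_mul] at h6
      exact_mod_cast h6.symm
    · rw [h7, zpow_zero, one_mul] at hij
      have hm' : (m : ℤ) ≠ 0 := by exact_mod_cast hm.ne'
      obtain ⟨j', hj'⟩ := Int.eq_ofNat_of_zero_le (Int.emod_nonneg j hm')
      refine ⟨j', ?_⟩
      have h8 := Int.emod_add_mul_ediv j m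
      have e1 : f.bel X p0 δ ^ j = f.bel X p0 δ ^ j' * PG.c X p0 δ ^ (j / m) := by
        rw [hcb, ← zpow_natCast, ← zpow_add, ← hj', h8]
      rw [← hg1, hij, e1, h.pc.qm, (pc_cz hX h.pc _).1, hX.me, e01_pw hX h, e01_bq hX h]
  · intro x z s hs1 hz
    by_contra hcon
    push Not at hcon
    obtain ⟨g, hg1, hg2⟩ := e03_lift hX h x (fun i : ℕ => u i)
      (fun i : ℕ => w (-((i + s : ℕ) : ℤ)))
      (fun i => by
        have := Le.adj i
        push_cast
        exact this)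
      (fun i => by
        have := hadj (-((i + s : ℕ) : ℤ))
        have e1 : -((i + 1 + s : ℕ) : ℤ) = -((i + s : ℕ) : ℤ) - 1 := by
          push_cast
          ring
        show S.Adj (w (-((i + s : ℕ) : ℤ))) (w (-((i + 1 + s : ℕ) : ℤ)))
        rw [e1]
        exact this)
      (fun i => by
        have h1 := hcon i
        rw [Le.lam hX h he, Lf.rlam hX h hf hz, Option.map_some] at h1
        have h2 := Option.some.inj h1
        have e1 : -((i + 1 + s : ℕ) : ℤ) = -((i + s : ℕ) : ℤ) - 1 := by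
          push_cast
          ring
        have e2 : ((i + 1 : ℕ) : ℤ) = (i : ℤ) + 1 := by push_cast; ring
        show X.aA x (al (u i) (u ((i + 1 : ℕ) : ℤ))) =
          al (w (-((i + s : ℕ) : ℤ))) (w (-((i + 1 + s : ℕ) : ℤ)))
        rw [e1, e2]
        exact h2)
    have hg3 : ∀ i : ℕ, g • u i = w ((-1) * i + (-(s : ℤ))) := by
      intro i
      have h1 := hg2 i
      have e1 : -((i + s : ℕ) : ℤ) = (-1) * (i : ℤ) + (-(s : ℤ)) := by
        push_cast
        ring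
      rw [← e1]
      exact h1
    obtain ⟨K, hK, l, h1⟩ := e03_ray hX h he hf Le Lf g (-1) (-(s : ℤ)) (Or.inr rfl) hg3
    have h1' := h1
    rw [hcb] at h1'
    obtain ⟨hsame, i, j, hij⟩ := hs g _ _ _
      (mul_ne_zero (by exact_mod_cast hK.ne') (by exact_mod_cast nf.ne')) h1'
    have heq := hef hsame
    rw [heq, hij] at h1
    have hcom : Commute (f.hel X p0 δ) (f.bel X p0 δ) := e01_com hX h hf
    have h2 : Commute (f.hel X p0 δ ^ i * f.bel X p0 δ ^ j)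
        (f.hel X p0 δ ^ ((K : ℤ) * f.γ.length)) :=
      (((Commute.refl _).zpow_zpow _ _).mul_left (hcom.symm.zpow_zpow _ _))
    rw [h2.eq, mul_inv_cancel_right] at h1
    have h3 : f.hel X p0 δ ^ (2 * ((K : ℤ) * f.γ.length)) = PG.c X p0 δ ^ l := by
      rw [two_mul, zpow_add]
      nth_rewrite 1 [h1]
      have hcc : Commute (f.hel X p0 δ) (PG.c X p0 δ) := by
        rw [← hb]
        exact hcom.pow_right m
      have h4 : Commute (PG.c X p0 δ ^ l) (f.hel X p0 δ ^ ((K : ℤ) * f.γ.length)) :=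
        (hcc.symm.zpow_zpow _ _)
      rw [mul_assoc, h4.eq, ← mul_assoc, ← zpow_add]
      have e1 : -1 * ((K : ℤ) * f.γ.length) + (K : ℤ) * f.γ.length = 0 := by ring
      rw [e1, zpow_zero, one_mul]
    refine (edat_ax hX h hf).2.2.2.2 _ _ ?_ h3
    exact mul_ne_zero two_ne_zero
      (mul_ne_zero (by exact_mod_cast hK.ne') (by exact_mod_cast nf.ne'))

/-! ### Completeness -/

theorem e03_snoc (X : PD P A Q) (l : List A) (a : A) : ∀ v : P, X.IsPth v l (X.o a) →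
    X.IsPth v (l ++ [a]) (X.o (X.i a)) := by
  induction l with
  | nil =>
    intro v hv
    have h1 : v = X.o a := hv
    exact ⟨h1.symm, rfl⟩
  | cons b l ih =>
    intro v hv
    exact ⟨hv.1, ih _ hv.2⟩

/-- labels of paths -/
theorem e03_labels (hX : X.Ok) (h : PGt X p0 δ S q D p al t) (u : ℕ → V)
    (hu : ∀ i, S.Adj (u i) (u (i + 1))) (h0 : u 0 = t (p (u 0))) (n : ℕ) :
    X.IsPth (p (u 0)) ((List.range n).map fun i => al (u i) (u (i + 1))) (p (u n)) ∧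
    (((List.range n).map fun i => al (u i) (u (i + 1))).map (PG.g X p0 δ)).prod • t (p (u n)) =
      u n ∧
    q (((List.range n).map fun i => al (u i) (u (i + 1))).map (PG.g X p0 δ)).prod = X.e := by
  induction n with
  | zero =>
    refine ⟨rfl, ?_, ?_⟩
    · show (([] : List A).map (PG.g X p0 δ)).prod • t (p (u 0)) = u 0
      rw [List.map_nil, List.prod_nil, one_smul, ← h0]
    · show q (([] : List A).map (PG.g X p0 δ)).prod = X.e
      rw [List.map_nil, List.prod_nil]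
      exact pc_q1 hX h.pc
  | succ n ih =>
    obtain ⟨h1, h2, h3⟩ := ih
    have ho := h.pc.po _ _ (hu n)
    have hi := b04_p h.pc (hu n)
    obtain ⟨g1, g2, g3, g4⟩ := h.g (al (u n) (u (n + 1)))
    rw [List.range_succ, List.map_append, List.map_append, List.prod_append, List.map_singleton,
      List.map_singleton, List.prod_singleton]
    refine ⟨?_, ?_, ?_⟩
    · rw [hi]
      apply e03_snoc
      rw [ho]
      exact h1
    · rw [mul_smul, hi]
      rw [ho] at g3 g4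
      have h4 := h.pc.adj (((List.range n).map fun i => al (u i) (u (i + 1))).map
        (PG.g X p0 δ)).prod _ _ g3
      have h5 := h.pc.alq (((List.range n).map fun i => al (u i) (u (i + 1))).map
        (PG.g X p0 δ)).prod _ _ g3
      rw [h2, h3, hX.aAe, g4] at h5
      rw [h2] at h4
      exact h.pc.inj _ _ _ h4 (hu n) h5
    · rw [h.pc.qm, h3, g1, hX.em]

/-- labels along the axis, without validity -/
theorem Ln.lam' (hX : X.Ok) (h : PGt X p0 δ S q D p al t) {e : EDat P A Q} {w : ℤ → V}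
    (hn : 0 < e.γ.length) (hq : q (e.hel X p0 δ) = e.xh)
    (L : Ln X S al t p0 δ e w) (i : ℕ) : e.lam X i = some (al (w i) (w (i + 1))) := by
  have h1 := L.lab (i % e.γ.length) (Nat.mod_lt _ hn)
  unfold EDat.lam
  rw [h1, Option.map_some]
  have e1 : (i : ℤ) = ((i % e.γ.length : ℕ) : ℤ) + ((i / e.γ.length : ℕ) : ℤ) * e.γ.length := by
    have := Nat.mod_add_div i e.γ.length
    have h2 : ((i % e.γ.length + e.γ.length * (i / e.γ.length) : ℕ) : ℤ) = i := by rw [this]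
    rw [← h2]
    push_cast
    ring
  have e2 : (i : ℤ) + 1 = (((i % e.γ.length : ℕ) : ℤ) + 1) +
      ((i / e.γ.length : ℕ) : ℤ) * e.γ.length := by
    rw [e1]
    push_cast
    ring
  have e3 : w (i : ℤ) = e.hel X p0 δ ^ ((i / e.γ.length : ℕ) : ℤ) •
      w ((i % e.γ.length : ℕ) : ℤ) := by rw [← L.hwz, ← e1]
  have e4 : w ((i : ℤ) + 1) = e.hel X p0 δ ^ ((i / e.γ.length : ℕ) : ℤ) •
      w (((i % e.γ.length : ℕ) : ℤ) + 1) := by rw [← L.hwz, ← e2]
  rw [e3, e4, h.pc.alq _ _ _ (L.adj _), zpow_natCast, e01_pw hX h, hq]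

/-- an invariant line -/
theorem e03_line [Finite Q] (hX : X.Ok) (h : PGt X p0 δ S q D p al t) {hh bb : PG X p0 δ}
    (com : hh * bb = bb * hh) (hb : ∃ m : ℕ, 0 < m ∧ bb ^ m = PG.c X p0 δ)
    (hy : ∀ k j : ℤ, k ≠ 0 → hh ^ k ≠ PG.c X p0 δ ^ j) :
    ∃ (n : ℕ) (b : ℤ → V), 0 < n ∧ (∀ i j, S.dist (b i) (b j) = (i - j).natAbs) ∧
      (∀ i, hh • b i = b (i + n)) ∧ ∀ i, bb • b i = b i := by
  have hta := pc_ta hX h.pc
  have hpos : 0 < tl S hh := by
    rcases Nat.eq_zero_or_pos (tl S hh) with h0 | h0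
    · exfalso
      obtain ⟨x, hx⟩ := (tl_eq_zero hta hh).1 h0
      obtain ⟨k, hk, hq⟩ := pc_pow hX h.pc hh
      have h1 : hh ∈ MulAction.stabilizer _ x := hx
      obtain ⟨j, hj⟩ := h.pc.free (hh ^ k) x hq (Subgroup.pow_mem _ h1 k)
      apply hy k j (by exact_mod_cast hk.ne')
      rw [zpow_natCast]
      exact hj
    · exact h0
  obtain ⟨b, hb1, hb2, hb3⟩ := tl_line hta hh hpos
  refine ⟨tl S hh, b, hpos, hb1, hb2, ?_⟩
  have m1 : ∀ i, ∃ j, b j = bb • b i := by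
    intro i
    apply (hb3 _).1
    have h1 : b i ∈ CC S hh := (hb3 _).2 ⟨i, rfl⟩
    have h2 := (cc_conj hta bb hh (b i)).2 h1
    rw [← com, mul_inv_cancel_right] at h2
    exact h2
  choose φ hφ using m1
  have hinj : ∀ i j, b i = b j → i = j := by
    intro i j hij
    have h1 := hb1 i j
    rw [hij, SimpleGraph.dist_self] at h1
    omega
  obtain ⟨σ, hσ, h1⟩ := e03_int φ (fun i j => by rw [← hb1, hφ, hφ, ta_dist hta, hb1])
  have hσ1 : σ = 1 := by
    have e1 : b (φ (0 + tl S hh)) = b (φ 0 + tl S hh) := by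
      rw [hφ, ← hb2, ← hb2, hφ, ← mul_smul, ← mul_smul, com]
    have e2 := hinj _ _ e1
    rw [h1] at e2
    rcases hσ with rfl | rfl
    · rfl
    · omega
  subst hσ1
  have h2 : ∀ k : ℕ, bb ^ k • b 0 = b (k * φ 0) := by
    intro k
    induction k with
    | zero => rw [pow_zero, one_smul, Nat.cast_zero, zero_mul]
    | succ k ih =>
      rw [pow_succ', mul_smul, ih, ← hφ, h1]
      congr 1
      push_cast
      ring
  obtain ⟨m, hm, hbm⟩ := hb
  have h3 := h2 m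
  rw [hbm, h.pc.cf] at h3
  have h4 := hinj _ _ h3
  have h5 : φ 0 = 0 := by
    rcases mul_eq_zero.1 h4.symm with h6 | h6
    · omega
    · exact h6
  intro i
  rw [← hφ, h1, h5, add_zero, one_mul]

/-- completeness -/
theorem edat_exists [Finite Q] (hX : X.Ok) (h : PGt X p0 δ S q D p al t) {hh bb : PG X p0 δ}
    (com : hh * bb = bb * hh) (hb : ∃ m : ℕ, 0 < m ∧ bb ^ m = PG.c X p0 δ)
    (hy : ∀ k j : ℤ, k ≠ 0 → hh ^ k ≠ PG.c X p0 δ ^ j) :
    ∃ (e : EDat P A Q) (g : PG X p0 δ), e.Ok X ∧ g * hh * g⁻¹ = e.hel X p0 δ ∧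
      g * bb * g⁻¹ = e.bel X p0 δ := by
  obtain ⟨n, b, hn, hb1, hb2, hb3⟩ := e03_line hX h com hb hy
  have hta := pc_ta hX h.pc
  obtain ⟨g, hg1, hg2⟩ := h.pc.tr (b 0) (t (p (b 0))) (by rw [h.pt])
  obtain ⟨m, hm, hbm⟩ := hb
  -- the conjugates
  obtain ⟨H, hH⟩ : ∃ H, H = g * hh * g⁻¹ := ⟨_, rfl⟩
  obtain ⟨B, hB⟩ : ∃ B, B = g * bb * g⁻¹ := ⟨_, rfl⟩
  have hgc : g * PG.c X p0 δ * g⁻¹ = PG.c X p0 δ := by
    rw [pc_conj hX h.pc g, hg1, ok_epe hX, zpow_one]
  have hBm : B ^ m = PG.c X p0 δ := by rw [hB, conj_pow, hbm, hgc]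
  have hHB : H * B = B * H := by
    rw [hH, hB]
    have e1 : g * hh * g⁻¹ * (g * bb * g⁻¹) = g * (hh * bb) * g⁻¹ := by group
    have e2 : g * bb * g⁻¹ * (g * hh * g⁻¹) = g * (bb * hh) * g⁻¹ := by group
    rw [e1, e2, com]
  obtain ⟨u, hu⟩ : ∃ u : ℤ → V, u = fun i => g • b i := ⟨_, rfl⟩
  have hud : ∀ i j, S.dist (u i) (u j) = (i - j).natAbs := by
    intro i j
    rw [hu]
    show S.dist (g • b i) (g • b j) = _
    rw [ta_dist hta, hb1]
  have huH : ∀ i, H • u i = u (i + n) := by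
    intro i
    rw [hu, hH]
    show (g * hh * g⁻¹) • g • b i = g • b (i + n)
    rw [mul_smul, mul_smul, inv_smul_smul, hb2]
  have huB : ∀ i, B • u i = u i := by
    intro i
    rw [hu, hB]
    show (g * bb * g⁻¹) • g • b i = g • b i
    rw [mul_smul, mul_smul, inv_smul_smul, hb3]
  have huA : ∀ i, S.Adj (u i) (u (i + 1)) := by
    intro i
    rw [← SimpleGraph.dist_eq_one_iff_adj, hud]
    omega
  have hu0 : u 0 = t (p (u 0)) := by
    have e1 : u 0 = t (p (b 0)) := by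
      rw [hu]
      exact hg2
    rw [e1, h.pt]
  obtain ⟨v0, hv0⟩ : ∃ v0, v0 = p (u 0) := ⟨_, rfl⟩
  obtain ⟨l1, l2, l3⟩ := e03_labels hX h (fun i : ℕ => u i)
    (fun i => by
      have := huA i
      push_cast
      exact this) hu0 n
  obtain ⟨γ, hγ⟩ : ∃ γ : List A, γ = (List.range n).map fun i : ℕ =>
    al (u (i : ℕ)) (u ((i + 1 : ℕ) : ℤ)) := ⟨_, rfl⟩
  have l1' : X.IsPth v0 γ (p (u n)) := by
    rw [hv0, hγ]
    exact l1
  have l2' : (γ.map (PG.g X p0 δ)).prod • t (p (u n)) = u n := by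
    rw [hγ]
    exact l2
  have l3' : q (γ.map (PG.g X p0 δ)).prod = X.e := by
    rw [hγ]
    exact l3
  have hu0' : u 0 = t v0 := by rw [hv0]; exact hu0
  have hun : u n = H • t v0 := by
    rw [← hu0', huH, zero_add]
  have hpn : p (u n) = X.aP (q H) v0 := by rw [hun, h.pc.pq, h.pt]
  rw [hpn] at l1' l2'
  -- exponents
  obtain ⟨kh, hkh⟩ := pc_eqc hX h.pc (g := H)
    (k := (γ.map (PG.g X p0 δ)).prod * PG.s X p0 δ (q H) v0) (v := t v0)
    (by rw [h.pc.qm, l3', (h.s _ _).1, hX.em])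
    (by rw [mul_smul, (h.s _ _).2.2, l2', hun])
  have hyv : X.aP (q B) v0 = v0 := by
    have h1 := h.pc.pq B (t v0)
    rw [← hu0', huB, hu0', h.pt] at h1
    exact h1.symm
  obtain ⟨kb, hkb⟩ := pc_eqc hX h.pc (g := B) (k := PG.s X p0 δ (q B) v0) (v := t v0)
    (by rw [(h.s _ _).1])
    (by rw [(h.s _ _).2.2, hyv, ← hu0', huB])
  have hBc : B * PG.c X p0 δ = PG.c X p0 δ * B := by
    rw [← hBm, ← pow_succ, ← pow_succ']
  have hHc : H * PG.c X p0 δ = PG.c X p0 δ * H := by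
    rw [← hBm]
    exact (Commute.pow_right (show Commute H B from hHB) m).eq
  obtain ⟨e, hee⟩ : ∃ e : EDat P A Q, e = ⟨v0, γ, q H, kh, q B, kb⟩ := ⟨_, rfl⟩
  have hel : e.hel X p0 δ = H := by
    rw [hkh, hee]
    rfl
  have bel : e.bel X p0 δ = B := by
    rw [hkb, hee]
    rfl
  have hlen : e.γ.length = n := by
    rw [hee]
    show γ.length = n
    rw [hγ, List.length_map, List.length_range]
  have hLn : Ln X S al t p0 δ e u := by
    refine ⟨?_, huA, ?_, ?_⟩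
    · rw [hee]
      exact hu0'
    · intro i
      rw [hlen, hel, huH]
    · intro i hi
      rw [hlen] at hi
      rw [hee]
      show γ[i]? = _
      rw [hγ, List.getElem?_map, List.getElem?_range hi, Option.map_some]
      push_cast
      rfl
  have hlam := fun i => hLn.lam' hX h (by omega) (by rw [hel, hee]) i
  refine ⟨e, g, ⟨?_, ?_, ?_, ?_, ?_, ?_, ?_, ?_, ?_⟩, ?_, ?_⟩
  · intro h0
    rw [h0, List.length_nil] at hlen
    omega
  · rw [hee]
    exact l1'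
  · intro i hi h1
    rw [hlam, hlam, Option.map_some, ← h.pc.ali _ _ (huA _)] at h1
    have h2 := Option.some.inj h1
    have e1 : ((i + 1 : ℕ) : ℤ) = (i : ℤ) + 1 := by push_cast; ring
    rw [e1] at h2
    have h3 := h.pc.inj _ _ _ (huA _) (huA _).symm h2
    have h4 := hud ((i : ℤ) + 1 + 1) i
    rw [h3, SimpleGraph.dist_self] at h4
    omega
  · rw [hee]
    exact hyv
  · intro a ha
    rw [hee] at ha ⊢
    have ha' : a ∈ γ := ha
    show X.aA (q B) a = a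
    rw [hγ, List.mem_map] at ha'
    obtain ⟨i, -, rfl⟩ := ha'
    have e1 : ((i + 1 : ℕ) : ℤ) = (i : ℤ) + 1 := by push_cast; ring
    rw [e1, ← h.pc.alq _ _ _ (huA _), huB, huB]
  · rw [hee]
    show X.m (q H) (q B) = X.m (q B) (q H)
    rw [← h.pc.qm, ← h.pc.qm, hHB]
  · rw [hee]
    exact b09_ep hX h.pc H hHc
  · rw [hee]
    exact b09_ep hX h.pc B hBc
  · refine ⟨m, hm, ?_, ?_⟩
    · rw [hee]
      show (m : ℤ) * (X.de (q B) + kb * X.R) = X.R
      have hep := b09_ep hX h.pc B hBc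
      have h1 := (e01_Dpow hX h B hep m).1
      rw [hBm, h.pc.Dc] at h1
      have h2 : D B = X.de (q B) + kb * X.R := by
        conv_lhs => rw [hkb]
        rw [h.pc.Dm, (h.s _ _).2.1, (h.s _ _).1, (pc_cz hX h.pc _).2.1, hep, one_mul]
      rw [← h2]
      exact h1.symm
    · rw [hee]
      show X.pw (q B) m = X.e
      rw [← e01_pw hX h, hBm, h.pc.qc]
  · rw [hel, hH]
  · rw [bel, hB]

end

end VF
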