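import Pool.Agent.Lib.MP_32d917_al_vf.H02
import Pool.Agent.Lib.MP_32d917_al_vf.E03
import Pool.Agent.Lib.MP_32d917_al_adm.C01

/-!
# F01: valid codes give valid data

`pg`: `pval_piece` (H02). `com`, `bc`, `hh`: `edat_ax` (E01) for `toPD`, `toE` (tree from `pg_exists`), transported by `pe` (H01). `sep`: `edat_sep` (E03), same
transport; `em` in the form `h ^ i * b ^ j` with arbitrary `i`, `j` (`det`: every pair is of the form `(dt v ze, dt om v)`). `det`, `ind`: `peq_iff`, `iv_pdt` (adm/C01).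
-/

set_option autoImplicit false

namespace VF

open LatIso LatN AdmIso

theorem f01_kpc (c : Cd) (e : ℕ) : kpc c e < nP c + 1 := Nat.mod_lt _ (Nat.succ_pos _)

theorem f01_ax {c : Cd} (h : CVal c) (e : ℕ) (he : e < nE c + 1) (p : ℕ) (hp : kpc c e = p) :
    wv (pPres (pcd c p)) (hW (pcd c p) (ecd c e)) * wv (pPres (pcd c p)) (bW (pcd c p) (ecd c e)) =
      wv (pPres (pcd c p)) (bW (pcd c p) (ecd c e)) *
        wv (pPres (pcd c p)) (hW (pcd c p) (ecd c e)) ∧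
    (∃ m : ℕ, 0 < m ∧ wv (pPres (pcd c p)) (bW (pcd c p) (ecd c e)) ^ m = zv (pPres (pcd c p))) ∧
    ∀ k j : ℤ, k ≠ 0 →
      wv (pPres (pcd c p)) (hW (pcd c p) (ecd c e)) ^ k ≠ zv (pPres (pcd c p)) ^ j := by
  subst hp
  have hv := h.pc (kpc c e) (f01_kpc c e)
  obtain ⟨V, _, S, q, D, pp, al, t, hG⟩ := pg_exists hv.1 hv.2.2
  obtain ⟨ax, ⟨m, hm0, hm⟩, _, _, hh⟩ := edat_ax hv.1 hG (h.ed e he)
  obtain ⟨F, _, _, F3, F4, F5⟩ := pe hv.1
  rw [← F4, ← F5, ← F3]
  refine ⟨?_, ⟨m, hm0, ?_⟩, ?_⟩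
  · rw [← map_mul, ax.com, map_mul]
  · rw [← map_pow, hm]
  · intro k j hk hkj
    rw [← map_zpow, ← map_zpow] at hkj
    exact hh k j hk (F.injective hkj)

theorem f01_sep {c : Cd} (h : CVal c) (e f : ℕ) (he : e < nE c + 1) (hf : f < nE c + 1) (p : ℕ)
    (hpe : kpc c e = p) (hpf : kpc c f = p) (x : (pPres (pcd c p)).Grp) (k i j : ℤ) (hk : k ≠ 0)
    (hx : x * wv (pPres (pcd c p)) (hW (pcd c p) (ecd c e)) ^ k * x⁻¹ =
      wv (pPres (pcd c p)) (hW (pcd c p) (ecd c f)) ^ i *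
        wv (pPres (pcd c p)) (bW (pcd c p) (ecd c f)) ^ j) :
    e = f ∧ ∃ i j : ℤ, x = wv (pPres (pcd c p)) (hW (pcd c p) (ecd c f)) ^ i *
        wv (pPres (pcd c p)) (bW (pcd c p) (ecd c f)) ^ j := by
  subst hpe
  have hv := h.pc (kpc c e) (f01_kpc c e)
  obtain ⟨V, _, S, q, D, pp, al, t, hG⟩ := pg_exists hv.1 hv.2.2
  obtain ⟨F, _, _, F3, F4, F5⟩ := pe hv.1
  have hfo := h.ed f hf
  rw [hpf] at hfo
  have hs := h.sep e he f hf hpf.symm
  rw [← F4, ← F4, ← F5] at hx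
  rw [← F4, ← F5]
  obtain ⟨y, rfl⟩ := F.surjective x
  rw [← map_zpow, ← map_zpow, ← map_zpow, ← map_inv, ← map_mul, ← map_mul, ← map_mul] at hx
  obtain ⟨h1, i', j', h2⟩ := edat_sep hv.1 hG (h.ed e he) hfo (fun h3 => by rw [h3]) hs y k i j hk
    (F.injective hx)
  refine ⟨h1, i', j', ?_⟩
  rw [← map_zpow, ← map_zpow, ← map_mul, ← h2]

theorem toTD_ok {c : Cd} (h : CVal c) : (toTD c).Ok := by
  have hdet : ∀ e : Fin (nE c + 1), dt (vv (kom c e)) (vv (kze c e)) = 1 := by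
    intro e
    have h1 := (peq_iff _ _).1 (h.det e e.2)
    rw [iv_pdt] at h1
    rw [h1]
    rfl
  refine
    { pg := fun p => pval_piece (h.pc p p.2)
      det := hdet
      com := ?_
      bc := ?_
      hh := ?_
      ind := ?_
      two := ?_
      sep := ?_ }
  · intro p e hpe
    exact (f01_ax h e e.2 p (congrArg Fin.val hpe)).1
  · intro p e hpe
    exact (f01_ax h e e.2 p (congrArg Fin.val hpe)).2.1
  · intro p e hpe
    exact (f01_ax h e e.2 p (congrArg Fin.val hpe)).2.2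
  · intro e f hef hfl h1
    apply h.ind e e.2 f f.2 (fun h2 => hef (Fin.ext h2)) (congrArg Fin.val hfl)
    rw [peq_iff, iv_pdt]
    exact h1
  · intro q
    obtain ⟨e, he, f, hf, hef, h1, h2⟩ := h.two q q.2
    exact ⟨⟨e, he⟩, ⟨f, hf⟩, fun h3 => hef (congrArg Fin.val h3), Fin.ext h1, Fin.ext h2⟩
  · intro p e f hpe hpf x k v hk hx
    obtain ⟨h1, i, j, h2⟩ := f01_sep h e f e.2 f.2 p (congrArg Fin.val hpe) (congrArg Fin.val hpf)
      x k _ _ hk hx
    have h3 : e = f := Fin.ext h1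
    subst h3
    refine ⟨rfl, Multiplicative.ofAdd (i * (vv (kom c e)).1 + j * (vv (kze c e)).1,
      i * (vv (kom c e)).2 + j * (vv (kze c e)).2), ?_⟩
    have hd := hdet e
    have e1 : dt (i * (vv (kom c e)).1 + j * (vv (kze c e)).1,
        i * (vv (kom c e)).2 + j * (vv (kze c e)).2) (vv (kze c e)) = i := by
      unfold dt at hd ⊢
      dsimp only
      linear_combination i * hd
    have e2 : dt (vv (kom c e)) (i * (vv (kom c e)).1 + j * (vv (kze c e)).1,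
        i * (vv (kom c e)).2 + j * (vv (kze c e)).2) = j := by
      unfold dt at hd ⊢
      dsimp only
      linear_combination j * hd
    unfold TD.em
    rw [toAdd_ofAdd]
    show (toTD c).h p e ^ dt (i * (vv (kom c e)).1 + j * (vv (kze c e)).1,
        i * (vv (kom c e)).2 + j * (vv (kze c e)).2) (vv (kze c e)) *
      (toTD c).b p e ^ dt (vv (kom c e)) (i * (vv (kom c e)).1 + j * (vv (kze c e)).1,
        i * (vv (kom c e)).2 + j * (vv (kze c e)).2) = x
    rw [e1, e2]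
    exact h2.symm

theorem toTD_tr {c : Cd} (h : CVal c) : TTr (toTD c) (tp0 c) (tep c) (tef c)
    (fun p => krp c p) (fun q => krq c q) := by
  refine ⟨?_, ?_⟩
  · intro p hp
    obtain ⟨h1, h2⟩ := h.trp p p.2 (fun h3 => hp (Fin.ext h3))
    exact ⟨Fin.ext h1, h2⟩
  · intro q
    obtain ⟨h1, h2⟩ := h.trq q q.2
    exact ⟨Fin.ext h1, h2⟩

theorem f01_root {c : Cd} (h : CVal c) : ∀ (n q : ℕ), q < nQ c + 1 → krq c q = n →
    ∃ e < nE c + 1, kpc c e = kp0 c := by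
  intro n
  induction n using Nat.strong_induction_on with
  | _ n ih =>
    intro q hq hn
    obtain ⟨_, h2⟩ := h.trq q hq
    by_cases h3 : kpc c (kef c q) = kp0 c
    · exact ⟨kef c q, Nat.mod_lt _ (Nat.succ_pos _), h3⟩
    · obtain ⟨_, h5⟩ := h.trp (kpc c (kef c q)) (f01_kpc c _) h3
      exact ih (krq c (kfl c (kep c (kpc c (kef c q))))) (by omega) _
        (Nat.mod_lt _ (Nat.succ_pos _)) rfl

/-- there is an edge at every piece -/
theorem edge_at {c : Cd} (h : CVal c) (p : ℕ) (hp : p < nP c + 1) :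
    ∃ e < nE c + 1, kpc c e = p := by
  by_cases h1 : p = kp0 c
  · obtain ⟨e, he, h2⟩ := f01_root h _ 0 (Nat.succ_pos _) rfl
    exact ⟨e, he, by rw [h2, h1]⟩
  · exact ⟨kep c p, Nat.mod_lt _ (Nat.succ_pos _), (h.trp p hp h1).1⟩

end VF
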