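import Pool.Agent.Lib.MP_32d917_al_vf.TDefs
import Pool.Agent.Lib.MP_32d917_al_adm.F02

/-!
# T00: piece groups

`fi_pow`: an element of `K` has a positive power in a subgroup of finite index (Mathlib has something for
`relIndex`). `fi_inter`: intersections of subgroups of finite relative index.
`fg_fi`: if `x` in `FreeGroup (Fin n)`, `2 ≤ n`, commutes with a subgroup of finite index then `x = 1`: for a generator
`y`, `y ^ k` is in the subgroup, `x` and `y` commute with `y ^ k ≠ 1`, so with each other (`fg_comm_trans` in F01/F02); so `x` is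
central, `x = 1` (`fg_central`).
`pg_pair`: take `H ≅ FZ n` of finite index; `a = ι (x0, 1)`, `b = ι (x1, 1)` for the generators; powers of them do not commute. They commute
with `c ^ k ∈ H`... and with `c`: `a c a⁻¹ = c` or `c⁻¹`; the centre of `H` is in `<c>` (`fc`), so some `c ^ k`, `k ≠ 0`, is
in the centre of `H` and commutes with `a`, so `a c a⁻¹ = c⁻¹` is impossible (`inf`).
`pg_iso`: `Φ c` is in the virtual centre, so `Φ c = c' ^ k` and `Φ⁻¹ c' = c ^ l`, `k l = 1`.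
`pg_commens`: let `x`, `y` commute, no nonzero power of `x` or `y` in `<c>`. Powers `x ^ k = (u, s)`, `y ^ k = (v, t)` in `H ≅ FZ n`
(common `k > 0`), `u, v ≠ 1` (elements `(1, s)` are central in `H`, so in `<c>`) commute, so they are powers of one element
(`fg_cent`), `u ^ i = v ^ j`, `i, j ≠ 0`; `x ^ (k i) y ^ (- k j) = (1, r)` is in `<c>`.
-/

set_option autoImplicit false

namespace VF

open LatIso LatN AdmIso

section

theorem fg_pow_ne {α : Type} {w : FreeGroup α} (hw : w ≠ 1) {k : ℕ} (hk : 0 < k) : w ^ k ≠ 1 := by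
  intro h
  apply hw
  have h1 := pow_left_injective (M := FreeGroup α) (n := k) hk.ne'
  apply h1
  simp only [h, one_pow]

theorem fg_gen {n : ℕ} (hn : 2 ≤ n) (x : FreeGroup (Fin n))
    (hx : ∀ i : Fin n, ∃ k : ℕ, 0 < k ∧ x * FreeGroup.of i ^ k = FreeGroup.of i ^ k * x) :
    x = 1 := by
  by_contra hne
  have h1 : ∀ i : Fin n, x * FreeGroup.of i = FreeGroup.of i * x := by
    intro i
    obtain ⟨k, hk, hc⟩ := hx i
    have hof : (FreeGroup.of i : FreeGroup (Fin n)) ≠ 1 := FreeGroup.of_ne_one i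
    refine fg_comm_trans (fg_pow_ne hof hk) hc ?_
    rw [← pow_succ', ← pow_succ]
  have h2 : ∀ y : FreeGroup (Fin n), y * x = x * y := by
    intro y
    induction y using FreeGroup.induction_on with
    | C1 => rw [one_mul, mul_one]
    | of i => exact (h1 i).symm
    | inv_of i _ =>
      have h3 := h1 i
      calc (FreeGroup.of i)⁻¹ * x = (FreeGroup.of i)⁻¹ * (x * FreeGroup.of i) *
            (FreeGroup.of i)⁻¹ := by group
        _ = (FreeGroup.of i)⁻¹ * (FreeGroup.of i * x) * (FreeGroup.of i)⁻¹ := by rw [h3]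
        _ = x * (FreeGroup.of i)⁻¹ := by group
    | mul a b ha hb => rw [mul_assoc, hb, ← mul_assoc, ha, mul_assoc]
  have h3 := fg_central x hne h2
  have h4 : (⟨0, by omega⟩ : Fin n) = ⟨1, by omega⟩ := Subsingleton.elim _ _
  exact absurd (congrArg Fin.val h4) (by norm_num)

theorem fi_pow {K : Type} [Group K] {H J : Subgroup K} (h : H.relIndex J ≠ 0) {g : K} (hg : g ∈ J) :
    ∃ k : ℕ, 0 < k ∧ g ^ k ∈ H := by
  obtain ⟨k, hk, -, h1⟩ := Subgroup.exists_pow_mem_of_relIndex_ne_zero h hg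
  exact ⟨k, hk, (Subgroup.mem_inf.mp h1).1⟩

theorem fi_inter {K : Type} [Group K] {H H' J : Subgroup K} (h : H.relIndex J ≠ 0)
    (h' : H'.relIndex J ≠ 0) : (H ⊓ H').relIndex J ≠ 0 := by
  exact Subgroup.relIndex_inf_ne_zero h h'

theorem fg_fi {n : ℕ} (hn : 2 ≤ n) (H : Subgroup (FreeGroup (Fin n))) (hH : H.index ≠ 0)
    (x : FreeGroup (Fin n)) (hx : ∀ y ∈ H, x * y = y * x) : x = 1 := by
  refine fg_gen hn x fun i => ?_
  obtain ⟨k, hk, -, h1⟩ := Subgroup.exists_pow_mem_of_index_ne_zero hH (FreeGroup.of i)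
  exact ⟨k, hk, hx _ h1⟩

/-- in `FZ n`: an element commuting with a subgroup of finite index is central -/
theorem fz_fi {n : ℕ} (hn : 2 ≤ n) (H : Subgroup (FZ n)) (hH : H.index ≠ 0) (x : FZ n)
    (hx : ∀ y ∈ H, x * y = y * x) : x.1 = 1 := by
  refine fg_gen hn x.1 fun i => ?_
  obtain ⟨k, hk, -, h1⟩ := Subgroup.exists_pow_mem_of_index_ne_zero hH
    ((FreeGroup.of i, 1) : FZ n)
  exact ⟨k, hk, congrArg Prod.fst (hx _ h1)⟩

/-- in `FZ n`: two elements which commute with an element not in the centre commute -/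
theorem fz_comm {n : ℕ} (x y z : FZ n) (hx : x.1 ≠ 1) (h1 : y * x = x * y) (h2 : z * x = x * z) :
    y * z = z * y := by
  apply Prod.ext
  · exact fg_comm_trans hx (congrArg Prod.fst h1) (congrArg Prod.fst h2)
  · exact mul_comm _ _

theorem fz_pair (n : ℕ) (hn : 2 ≤ n) : ∃ a b : FZ n, ∀ k : ℕ, 0 < k → a ^ k * b ^ k ≠ b ^ k * a ^ k := by
  obtain ⟨a, b, hab⟩ := fg_nc n hn
  refine ⟨(a, 1), (b, 1), fun k hk h => hab ?_⟩
  have h1 : a ^ k * b ^ k = b ^ k * a ^ k := congrArg Prod.fst h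
  have ha : a ≠ 1 := by
    rintro rfl
    apply hab
    rw [one_mul, mul_one]
  have hb : b ≠ 1 := by
    rintro rfl
    apply hab
    rw [one_mul, mul_one]
  have h2 : a * b ^ k = b ^ k * a := by
    refine fg_comm_trans (fg_pow_ne ha hk) ?_ h1.symm
    rw [← pow_succ', ← pow_succ]
  refine fg_comm_trans (fg_pow_ne hb hk) h2 ?_
  rw [← pow_succ', ← pow_succ]

/-- a subgroup of finite index isomorphic to `FZ n`, commuting with `c`, with centre in `<c>` -/
theorem pg_fz {K : Type} [Group K] {c : K} (h : PieceG K c) : ∃ n, 2 ≤ n ∧ ∃ H : Subgroup K,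
    H.index ≠ 0 ∧ ∃ ι : FZ n ≃* H, (∀ x ∈ H, x * c = c * x) ∧
    ∀ X : FZ n, X.1 = 1 → ∃ k : ℤ, (ι X : K) = c ^ k := by
  obtain ⟨n, hn, H, hH, ⟨ι⟩⟩ := h.vfz
  have hz : ∀ X : FZ n, X.1 = 1 → ∃ k : ℤ, (ι X : K) = c ^ k := by
    intro X hX
    refine h.fc _ ⟨H, hH, fun y hy => ?_⟩
    obtain ⟨Y, hY⟩ := ι.surjective ⟨y, hy⟩
    have e1 : (ι Y : K) = y := by rw [hY]
    rw [← e1]
    have h1 := (fz_cen hn X).2 hX Y
    have h2 : ι X * ι Y = ι Y * ι X := by rw [← map_mul, ← map_mul, h1]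
    exact congrArg Subtype.val h2
  refine ⟨n, hn, H, hH, ι, ?_, hz⟩
  intro x hx
  rcases h.nrm x with h1 | h1
  · calc x * c = x * c * x⁻¹ * x := by group
      _ = c * x := by rw [h1]
  · exfalso
    obtain ⟨k, hk⟩ := hz (1, Multiplicative.ofAdd 1) rfl
    have hk0 : k ≠ 0 := by
      rintro rfl
      rw [zpow_zero] at hk
      have h2 : ι (1, Multiplicative.ofAdd 1) = 1 := Subtype.ext hk
      have h3 : ((1, Multiplicative.ofAdd 1) : FZ n) = 1 := by
        apply ι.injective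
        rw [h2, map_one]
      have h4 : (Multiplicative.ofAdd (1 : ℤ)) = 1 := congrArg Prod.snd h3
      exact absurd (congrArg Multiplicative.toAdd h4) (by decide)
    obtain ⟨X, hX⟩ := ι.surjective ⟨x, hx⟩
    have e1 : (ι X : K) = x := by rw [hX]
    have h5 : c ^ k * x = x * c ^ k := by
      rw [← hk, ← e1]
      have h6 := (fz_cen hn ((1, Multiplicative.ofAdd 1) : FZ n)).2 rfl X
      have h7 : ι (1, Multiplicative.ofAdd 1) * ι X = ι X * ι (1, Multiplicative.ofAdd 1) := by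
        rw [← map_mul, ← map_mul, h6]
      exact congrArg Subtype.val h7
    have h8 : x * c ^ k * x⁻¹ = (c⁻¹) ^ k := by
      rw [← h1]
      exact (conj_zpow (i := k) (a := x) (b := c)).symm
    have h9 : c ^ k = (c⁻¹) ^ k := by
      rw [← h8, ← h5, mul_inv_cancel_right]
    have h10 : c ^ (k + k) = 1 := by
      rw [zpow_add]
      nth_rewrite 2 [h9]
      rw [inv_zpow, mul_inv_cancel]
    have := h.inf _ h10
    omega

theorem pg_sub {K K' : Type} [Group K] [Group K'] {c : K} {c' : K'} (h : PieceG K c)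
    (h' : PieceG K' c') (Φ : K ≃* K') : ∃ k : ℤ, Φ c = c' ^ k := by
  obtain ⟨n, hn, H, hH, ι, hc, -⟩ := pg_fz h
  refine h'.fc _ ⟨H.map (Φ : K →* K'), by
    rw [Subgroup.index_map_equiv]
    exact hH, ?_⟩
  rintro _ ⟨y, hy, rfl⟩
  show Φ c * Φ y = Φ y * Φ c
  rw [← map_mul, ← map_mul, hc y hy]

theorem pg_pair {K : Type} [Group K] {c : K} (h : PieceG K c) : ∃ a b : K,
    (∀ k : ℕ, 0 < k → a ^ k * b ^ k ≠ b ^ k * a ^ k) ∧ a * c = c * a ∧ b * c = c * b := by
  obtain ⟨n, hn, H, hH, ι, hc, -⟩ := pg_fz h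
  obtain ⟨a, b, hab⟩ := fz_pair n hn
  refine ⟨ι a, ι b, fun k hk h1 => hab k hk ?_, hc _ (ι a).2, hc _ (ι b).2⟩
  apply ι.injective
  apply Subtype.ext
  rw [map_mul, map_mul, map_pow, map_pow]
  exact h1

theorem pg_count {K : Type} [Group K] {c : K} (h : PieceG K c) : Countable K ∧ Infinite K := by
  constructor
  · obtain ⟨n, hn, H, hH, ι, -⟩ := pg_fz h
    have : Countable H := ι.symm.toEquiv.countable_iff.mpr inferInstance
    have : Finite (K ⧸ H) := by
      have : H.FiniteIndex := ⟨hH⟩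
      infer_instance
    exact (Subgroup.groupEquivQuotientProdSubgroup (s := H)).countable_iff.mpr inferInstance
  · refine Infinite.of_injective (fun k : ℤ => c ^ k) ?_
    intro k l hkl
    have h1 : c ^ (k - l) = 1 := by
      rw [zpow_sub]
      show c ^ k * (c ^ l)⁻¹ = 1
      have h2 : c ^ k = c ^ l := hkl
      rw [h2, mul_inv_cancel]
    have := h.inf _ h1
    omega

theorem pg_iso {K K' : Type} [Group K] [Group K'] {c : K} {c' : K'} (h : PieceG K c)
    (h' : PieceG K' c') (Φ : K ≃* K') : Φ c = c' ∨ Φ c = c'⁻¹ := by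
  obtain ⟨k, hk⟩ := pg_sub h h' Φ
  obtain ⟨l, hl⟩ := pg_sub h' h Φ.symm
  have h1 : c = c ^ (k * l) := by
    conv_lhs => rw [← Φ.symm_apply_apply c, hk, map_zpow, hl, ← zpow_mul]
    rw [mul_comm]
  have h2 : c ^ (k * l - 1) = 1 := by
    rw [zpow_sub, zpow_one, ← h1, mul_inv_cancel]
  have h3 := h.inf _ h2
  have h4 : k * l = 1 := by omega
  rcases Int.eq_one_or_neg_one_of_mul_eq_one h4 with h5 | h5
  · left
    rw [hk, h5, zpow_one]
  · right
    rw [hk, h5, zpow_neg, zpow_one]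

theorem pg_map {K K' : Type} [Group K] [Group K'] {c : K} (h : PieceG K c) (Φ : K ≃* K') :
    PieceG K' (Φ c) := by
  obtain ⟨n, hn, H, hH, ⟨ι⟩⟩ := h.vfz
  refine ⟨⟨n, hn, H.map (Φ : K →* K'), ?_, ⟨ι.trans (Φ.subgroupMap H)⟩⟩, ?_, ?_, ?_⟩
  · rw [Subgroup.index_map_equiv]
    exact hH
  · intro x
    obtain ⟨y, rfl⟩ := Φ.surjective x
    rw [← map_inv, ← map_mul, ← map_mul, ← map_inv]
    rcases h.nrm y with h1 | h1
    · left
      rw [h1]
    · right
      rw [h1]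
  · intro k hk
    apply h.inf
    apply Φ.injective
    rw [map_zpow, hk, map_one]
  · rintro z ⟨H', hH', hz⟩
    obtain ⟨k, hk⟩ := h.fc (Φ.symm z) ⟨H'.map (Φ.symm : K' →* K), by
      rw [Subgroup.index_map_equiv]
      exact hH', by
      rintro _ ⟨y, hy, rfl⟩
      show Φ.symm z * Φ.symm y = Φ.symm y * Φ.symm z
      rw [← map_mul, ← map_mul, hz y hy]⟩
    refine ⟨k, ?_⟩
    rw [← map_zpow, ← hk, Φ.apply_symm_apply]

theorem pg_commens {K : Type} [Group K] {c : K} (h : PieceG K c) (x y : K) (hxy : x * y = y * x)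
    (hx : ∀ k j : ℤ, k ≠ 0 → x ^ k ≠ c ^ j) (hy : ∀ k j : ℤ, k ≠ 0 → y ^ k ≠ c ^ j) :
    ∃ i j l : ℤ, i ≠ 0 ∧ j ≠ 0 ∧ x ^ i = y ^ j * c ^ l := by
  obtain ⟨n, hn, H, hH, ι, hc, hz⟩ := pg_fz h
  obtain ⟨k, hk, -, hxk⟩ := Subgroup.exists_pow_mem_of_index_ne_zero hH x
  obtain ⟨k', hk', -, hyk⟩ := Subgroup.exists_pow_mem_of_index_ne_zero hH y
  obtain ⟨X, hX⟩ := ι.surjective ⟨x ^ k, hxk⟩
  obtain ⟨Y, hY⟩ := ι.surjective ⟨y ^ k', hyk⟩
  have eX : (ι X : K) = x ^ k := by rw [hX]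
  have eY : (ι Y : K) = y ^ k' := by rw [hY]
  have hX1 : X.1 ≠ 1 := by
    intro h1
    obtain ⟨j, hj⟩ := hz X h1
    apply hx k j (by exact_mod_cast hk.ne')
    rw [zpow_natCast, ← eX, hj]
  have hY1 : Y.1 ≠ 1 := by
    intro h1
    obtain ⟨j, hj⟩ := hz Y h1
    apply hy k' j (by exact_mod_cast hk'.ne')
    rw [zpow_natCast, ← eY, hj]
  have hXY : Y * X = X * Y := by
    apply ι.injective
    apply Subtype.ext
    rw [map_mul, map_mul]
    show (ι Y : K) * (ι X : K) = (ι X : K) * (ι Y : K)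
    rw [eX, eY]
    have hcm : Commute x y := hxy
    exact ((hcm.pow_pow k k').symm).eq
  obtain ⟨r, hr⟩ := fg_cent X.1 hX1
  obtain ⟨p, hp⟩ := (hr X.1).1 rfl
  obtain ⟨q, hq⟩ := (hr Y.1).1 (congrArg Prod.fst hXY)
  have hp0 : p ≠ 0 := by
    rintro rfl
    rw [zpow_zero] at hp
    exact hX1 hp
  have hq0 : q ≠ 0 := by
    rintro rfl
    rw [zpow_zero] at hq
    exact hY1 hq
  have h1 : (X ^ q * Y ^ (-p)).1 = 1 := by
    have e1 : (X ^ q * Y ^ (-p)).1 = X.1 ^ q * Y.1 ^ (-p) := rfl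
    rw [e1, hp, hq, ← zpow_mul, ← zpow_mul, ← zpow_add]
    have e2 : p * q + q * -p = 0 := by ring
    rw [e2, zpow_zero]
  obtain ⟨l, hl⟩ := hz _ h1
  refine ⟨k * q, k' * p, l, mul_ne_zero (by exact_mod_cast hk.ne') hq0,
    mul_ne_zero (by exact_mod_cast hk'.ne') hp0, ?_⟩
  have h2 : (ι (X ^ q * Y ^ (-p)) : K) = x ^ ((k : ℤ) * q) * (y ^ ((k' : ℤ) * p))⁻¹ := by
    rw [map_mul, map_zpow, map_zpow]
    show (ι X : K) ^ q * (ι Y : K) ^ (-p) = _
    rw [eX, eY, zpow_mul, zpow_mul, zpow_natCast, zpow_natCast, zpow_neg]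
  rw [h2] at hl
  have h3 : x ^ ((k : ℤ) * q) = c ^ l * y ^ ((k' : ℤ) * p) := by
    rw [← hl, inv_mul_cancel_right]
  rw [h3]
  have h4 : Commute (y ^ k') c := hc _ hyk
  have h5 : Commute (y ^ ((k' : ℤ) * p)) (c ^ l) := by
    rw [zpow_mul, zpow_natCast]
    exact (h4.zpow_left p).zpow_right l
  exact h5.symm.eq

end

end VF
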