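import Pool.Agent.Lib.MP_32d917_al_vf.B05
import Pool.Agent.Lib.MP_32d917_al_vf.T00
import Pool.Agent.Lib.MP_32d917_al.N.NS1

/-!
# H03: marked quotients come from pieces
-/

set_option autoImplicit false

namespace VF

open LatIso LatN AdmIso

section

variable {E : Type} [Group E] {V : Type} [MulAction E V] {S : SimpleGraph V} {P A Q : Type}
  {X : PD P A Q} {c : E} {q : E → Q} {D : E → ℤ} {p : V → P} {al : V → V → A}

/-- the kernel of `q` -/
def h03M (hX : X.Ok) (h : PC E S X c q D p al) : Subgroup E where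
  carrier := {g | q g = X.e}
  mul_mem' := by
    intro a b ha hb
    show q (a * b) = X.e
    rw [h.qm, show q a = X.e from ha, show q b = X.e from hb, hX.em]
  one_mem' := pc_q1 hX h
  inv_mem' := by
    intro a ha
    have h1 := (pc_qinv hX h a).1
    rw [show q a = X.e from ha, hX.em] at h1
    exact h1

theorem h03_mem (hX : X.Ok) (h : PC E S X c q D p al) (g : E) :
    g ∈ h03M hX h ↔ q g = X.e := Iff.rfl

theorem h03_normal (hX : X.Ok) (h : PC E S X c q D p al) : (h03M hX h).Normal := by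
  refine ⟨fun n hn g => ?_⟩
  rw [h03_mem] at hn ⊢
  rw [h.qm, h.qm, hn, hX.me]
  exact (pc_qinv hX h g).1

theorem h03_index [Finite Q] (hX : X.Ok) (h : PC E S X c q D p al) : (h03M hX h).index ≠ 0 := by
  have hf : Finite (E ⧸ h03M hX h) := by
    let f : E ⧸ h03M hX h → Q := fun x => q x.out
    refine Finite.of_injective f ?_
    intro x y hxy
    have h1 : q x.out = q y.out := hxy
    have h2 : (x.out)⁻¹ * y.out ∈ h03M hX h := by
      rw [h03_mem, h.qm, ← h1]
      exact (pc_qinv hX h _).2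
    have h3 : (QuotientGroup.mk x.out : E ⧸ h03M hX h) = QuotientGroup.mk y.out :=
      QuotientGroup.eq.2 h2
    rw [QuotientGroup.out_eq', QuotientGroup.out_eq'] at h3
    exact h3
  have := Subgroup.finiteIndex_of_finite_quotient (H := h03M hX h)
  exact Subgroup.FiniteIndex.index_ne_zero

/-- the data with the trivial group -/
def h03X (X : PD P A Q) : PD P A Unit where
  o := X.o
  i := X.i
  m := fun _ _ => ()
  e := ()
  aP := fun _ v => v
  aA := fun _ a => a
  ep := fun _ => 1
  de := fun _ => 0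
  R := 1

theorem h03_ok (hX : X.Ok) : (h03X X).Ok where
  ii := hX.ii
  as := fun _ _ _ => rfl
  em := fun _ => rfl
  me := fun _ => rfl
  iv := fun _ => ⟨(), rfl, rfl⟩
  aPe := fun _ => rfl
  aPm := fun _ _ _ => rfl
  aAe := fun _ => rfl
  aAm := fun _ _ _ => rfl
  oA := fun _ _ => rfl
  iA := fun _ _ => rfl
  ni := by
    intro _ a h1
    apply hX.ni X.e a
    rw [hX.aAe]
    exact h1
  ep1 := fun _ => Or.inl rfl
  epm := fun _ _ => rfl
  de0 := rfl
  dem := fun _ _ => by
    show (1 : ℤ) ∣ _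
    exact one_dvd _
  R0 := by
    show (0 : ℤ) < 1
    norm_num

theorem h03_div (hX : X.Ok) (h : PC E S X c q D p al) (g : E) (hg : q g = X.e) : X.R ∣ D g := by
  have h1 := h.De g
  rw [hg, hX.de0, sub_zero] at h1
  exact h1

theorem h03_pc (hX : X.Ok) (h : PC E S X c q D p al) :
    PC (h03M hX h) S (h03X X) (⟨c, h.qc⟩ : h03M hX h) (fun _ => ())
      (fun g => D (g : E) / X.R) p al where
  tree := h.tree
  adj := fun g x y => h.adj (g : E) x y
  qm := fun _ _ => rfl
  qs := fun _ => ⟨1, rfl⟩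
  Dm := by
    intro g k
    show D ((g : E) * (k : E)) / X.R = D (g : E) / X.R + 1 * (D (k : E) / X.R)
    have hg : q (g : E) = X.e := g.2
    rw [h.Dm, hg, ok_epe hX, one_mul, one_mul, Int.add_ediv_of_dvd_left (h03_div hX h _ hg)]
  De := fun g => by
    show (1 : ℤ) ∣ _
    exact one_dvd _
  qc := rfl
  Dc := by
    show D c / X.R = 1
    rw [h.Dc]
    exact Int.ediv_self hX.R0.ne'
  cf := fun v => h.cf v
  free := by
    intro g v _ hv
    obtain ⟨k, hk⟩ := h.free (g : E) v g.2 hv
    refine ⟨k, Subtype.ext ?_⟩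
    rw [hk]
    rfl
  po := h.po
  ali := h.ali
  inj := h.inj
  sur := h.sur
  pq := by
    intro g v
    have hg : q (g : E) = X.e := g.2
    have h1 := h.pq (g : E) v
    rw [hg, hX.aPe] at h1
    exact h1
  alq := by
    intro g v w hvw
    have hg : q (g : E) = X.e := g.2
    have h1 := h.alq (g : E) v w hvw
    rw [hg, hX.aAe] at h1
    exact h1
  tr := by
    intro v w hvw
    obtain ⟨g, hg, hg2⟩ := h.tr v w hvw
    exact ⟨⟨g, hg⟩, rfl, hg2⟩
  onto := h.onto

/-! ### the basis -/

/-- darts of the basis -/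
def h03G (X : PD P A Q) (p0 : P) (δ : P → A) (f : A → ℕ) (a : A) : Prop :=
  f a < f (X.i a) ∧ ∀ v, v ≠ p0 → a ≠ δ v ∧ X.i a ≠ δ v

open scoped Classical in
/-- image of a dart in the free group -/
noncomputable def h03g (X : PD P A Q) (p0 : P) (δ : P → A) (f : A → ℕ) (a : A) :
    FreeGroup {a : A // h03G X p0 δ f a} :=
  if h : h03G X p0 δ f a then FreeGroup.of ⟨a, h⟩ else
    if h : h03G X p0 δ f (X.i a) then (FreeGroup.of ⟨X.i a, h⟩)⁻¹ else 1

theorem h03_gi (hX : X.Ok) (p0 : P) (δ : P → A) (f : A → ℕ) (a : A) :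
    h03g X p0 δ f a * h03g X p0 δ f (X.i a) = 1 := by
  unfold h03g
  by_cases h1 : h03G X p0 δ f a
  · have h2 : ¬ h03G X p0 δ f (X.i a) := by
      intro h2
      have h3 := h1.1
      have h4 := h2.1
      rw [hX.ii] at h4
      omega
    have h5 : h03G X p0 δ f (X.i (X.i a)) := by
      rw [hX.ii]
      exact h1
    rw [dif_pos h1, dif_neg h2, dif_pos h5]
    have h6 : (⟨X.i (X.i a), h5⟩ : {a : A // h03G X p0 δ f a}) = ⟨a, h1⟩ := Subtype.ext (hX.ii a)
    rw [h6, mul_inv_cancel]
  · rw [dif_neg h1]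
    have h5 : ¬ h03G X p0 δ f (X.i (X.i a)) := by
      rw [hX.ii]
      exact h1
    by_cases h2 : h03G X p0 δ f (X.i a)
    · rw [dif_pos h2, dif_pos h2, inv_mul_cancel]
    · rw [dif_neg h2, dif_neg h2, dif_neg h5, mul_one]

theorem h03_gt (hX : X.Ok) (p0 : P) (δ : P → A) (f : A → ℕ) (v : P) (hv : v ≠ p0) :
    h03g X p0 δ f (δ v) = 1 := by
  unfold h03g
  have h1 : ¬ h03G X p0 δ f (δ v) := fun h => (h.2 v hv).1 rfl
  have h2 : ¬ h03G X p0 δ f (X.i (δ v)) := fun h => (h.2 v hv).2 (hX.ii _)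
  rw [dif_neg h1, dif_neg h2]

theorem h03_iso (hX : X.Ok) (p0 : P) (δ : P → A) (f : A → ℕ) (hf : Function.Injective f) :
    ∃ F : (FreeGroup {a : A // h03G X p0 δ f a} × Multiplicative ℤ) ≃* PG (h03X X) p0 δ,
      F (1, Multiplicative.ofAdd 1) = PG.c (h03X X) p0 δ := by
  classical
  let G := FreeGroup {a : A // h03G X p0 δ f a} × Multiplicative ℤ
  let φ : Gn P A Unit → G := fun x => match x with
    | Gn.g a => (h03g X p0 δ f a, 1)
    | Gn.s _ _ => 1
    | Gn.c => (1, Multiplicative.ofAdd 1)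
  have hrel : ∀ r ∈ {r | PRel (h03X X) p0 δ r}, FreeGroup.lift φ r = 1 := by
    intro r hr
    cases hr with
    | inv a =>
      rw [map_mul, FreeGroup.lift_apply_of, FreeGroup.lift_apply_of]
      show ((h03g X p0 δ f a, 1) : G) * (h03g X p0 δ f (X.i a), 1) = 1
      apply Prod.ext
      · exact h03_gi hX p0 δ f a
      · rfl
    | tree v hv =>
      rw [FreeGroup.lift_apply_of]
      show ((h03g X p0 δ f (δ v), 1) : G) = 1
      rw [h03_gt hX p0 δ f v hv]
      rfl
    | mul x y v =>
      simp only [map_mul, map_inv, map_zpow, FreeGroup.lift_apply_of]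
      show (1 : G) * 1 * (1 : G)⁻¹ *
        (((1, Multiplicative.ofAdd 1) : G) ^ (((0 : ℤ) + 1 * 0 - 0) / 1))⁻¹ = 1
      simp
    | com a =>
      simp only [map_mul, map_inv, map_zpow, FreeGroup.lift_apply_of]
      show ((1, Multiplicative.ofAdd 1) : G) * (h03g X p0 δ f a, 1) *
        ((1, Multiplicative.ofAdd 1) : G)⁻¹ * ((h03g X p0 δ f a, 1) : G)⁻¹ = 1
      apply Prod.ext
      · show 1 * h03g X p0 δ f a * (1)⁻¹ * (h03g X p0 δ f a)⁻¹ = 1
        group
      · show Multiplicative.ofAdd (1 : ℤ) * 1 * (Multiplicative.ofAdd (1 : ℤ))⁻¹ * (1)⁻¹ = 1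
        group
    | sc x v =>
      simp only [map_mul, map_inv, map_zpow, FreeGroup.lift_apply_of]
      show (1 : G) * ((1, Multiplicative.ofAdd 1) : G) * (1 : G)⁻¹ *
        (((1, Multiplicative.ofAdd 1) : G) ^ (1 : ℤ))⁻¹ = 1
      rw [zpow_one, one_mul, inv_one, mul_one, mul_inv_cancel]
    | act x a =>
      simp only [map_mul, map_inv, map_zpow, FreeGroup.lift_apply_of]
      show (1 : G) * ((h03g X p0 δ f a, 1) : G) * (1 : G)⁻¹ *
        ((h03g X p0 δ f a, 1) : G)⁻¹ = 1
      rw [one_mul, inv_one, mul_one, mul_inv_cancel]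
  let Φ : PG (h03X X) p0 δ →* G := PresentedGroup.toGroup hrel
  let Ψ1 : FreeGroup {a : A // h03G X p0 δ f a} →* PG (h03X X) p0 δ :=
    FreeGroup.lift fun b => PG.g (h03X X) p0 δ b.1
  let Ψ2 : Multiplicative ℤ →* PG (h03X X) p0 δ := zpowersHom _ (PG.c (h03X X) p0 δ)
  have hcomm : ∀ m n, Commute (Ψ1 m) (Ψ2 n) := by
    intro m n
    have h2 : Ψ2 n = PG.c (h03X X) p0 δ ^ (Multiplicative.toAdd n) := rfl
    rw [h2]
    apply Commute.zpow_right
    induction m using FreeGroup.induction_on with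
    | C1 =>
      rw [map_one]
      exact Commute.one_left _
    | of i =>
      have h3 : Ψ1 (FreeGroup.of i) = PG.g (h03X X) p0 δ i.1 := FreeGroup.lift_apply_of
      show Commute (Ψ1 (FreeGroup.of i)) _
      rw [h3]
      exact (b04_rcom (X := h03X X) p0 δ i.1).symm
    | inv_of i hi =>
      rw [map_inv]
      exact hi.inv_left
    | mul a b ha hb =>
      rw [map_mul]
      exact ha.mul_left hb
  let Ψ : G →* PG (h03X X) p0 δ := MonoidHom.noncommCoprod Ψ1 Ψ2 hcomm
  have hΦg : ∀ a, Φ (PG.g (h03X X) p0 δ a) = (h03g X p0 δ f a, 1) := fun a => by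
    show PresentedGroup.toGroup hrel (PresentedGroup.of (Gn.g a)) = _
    rw [PresentedGroup.toGroup.of]
  have hΦc : Φ (PG.c (h03X X) p0 δ) = (1, Multiplicative.ofAdd 1) := by
    show PresentedGroup.toGroup hrel (PresentedGroup.of Gn.c) = _
    rw [PresentedGroup.toGroup.of]
  have hΨ : ∀ x y, Ψ (x, y) = Ψ1 x * Ψ2 y := fun x y => rfl
  have hΨ1 : ∀ a, Ψ1 (h03g X p0 δ f a) = PG.g (h03X X) p0 δ a := by
    intro a
    have hi := b04_rinv (X := h03X X) p0 δ a
    unfold h03g
    by_cases h1 : h03G X p0 δ f a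
    · rw [dif_pos h1]
      exact FreeGroup.lift_apply_of
    · rw [dif_neg h1]
      by_cases h2 : h03G X p0 δ f (X.i a)
      · rw [dif_pos h2, map_inv]
        have h3 : Ψ1 (FreeGroup.of ⟨X.i a, h2⟩) = PG.g (h03X X) p0 δ (X.i a) :=
          FreeGroup.lift_apply_of
        rw [h3]
        exact (eq_inv_of_mul_eq_one_left hi).symm
      · rw [dif_neg h2, map_one]
        -- a tree dart
        have h3 : ∃ v, v ≠ p0 ∧ (a = δ v ∨ X.i a = δ v) := by
          by_contra hno
          push Not at hno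
          rcases lt_trichotomy (f a) (f (X.i a)) with h4 | h4 | h4
          · exact h1 ⟨h4, hno⟩
          · have h5 := hf h4
            apply hX.ni X.e a
            rw [hX.aAe]
            exact h5
          · refine h2 ⟨by rw [hX.ii]; exact h4, fun v hv => ?_⟩
            rw [hX.ii]
            exact ⟨(hno v hv).2, (hno v hv).1⟩
        obtain ⟨v, hv, h4 | h4⟩ := h3
        · rw [h4]
          exact (b04_rtree (X := h03X X) p0 δ v hv).symm
        · have h5 := b04_rtree (X := h03X X) p0 δ v hv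
          rw [← h4] at h5
          have h6 : PG.g (h03X X) p0 δ ((h03X X).i a) = 1 := h5
          rw [h6, mul_one] at hi
          exact hi.symm
  have h1 : Ψ.comp Φ = MonoidHom.id _ := by
    apply PresentedGroup.ext
    intro x
    cases x with
    | g a =>
      show Ψ (Φ (PG.g (h03X X) p0 δ a)) = PG.g (h03X X) p0 δ a
      rw [hΦg, hΨ, map_one, mul_one, hΨ1]
    | s x v =>
      show Ψ (Φ (PG.s (h03X X) p0 δ x v)) = PG.s (h03X X) p0 δ x v
      have e1 : PG.s (h03X X) p0 δ x v = 1 := b04_rse (h03_ok hX) p0 δ v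
      rw [e1, map_one, map_one]
    | c =>
      show Ψ (Φ (PG.c (h03X X) p0 δ)) = PG.c (h03X X) p0 δ
      rw [hΦc, hΨ, map_one, one_mul]
      show PG.c (h03X X) p0 δ ^ (1 : ℤ) = _
      rw [zpow_one]
  have h2 : ∀ x, Φ (Ψ x) = x := by
    rintro ⟨x, y⟩
    rw [hΨ, map_mul]
    have e1 : Φ (Ψ1 x) = (x, 1) := by
      induction x using FreeGroup.induction_on with
      | C1 =>
        rw [map_one, map_one]
        rfl
      | of i =>
        have h3 : Ψ1 (FreeGroup.of i) = PG.g (h03X X) p0 δ i.1 := FreeGroup.lift_apply_of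
        show Φ (Ψ1 (FreeGroup.of i)) = _
        rw [h3, hΦg]
        unfold h03g
        rw [dif_pos i.2]
      | inv_of i hi =>
        rw [map_inv, map_inv]
        have hi' : Φ (Ψ1 (FreeGroup.of i)) = (FreeGroup.of i, 1) := hi
        show (Φ (Ψ1 (FreeGroup.of i)))⁻¹ = _
        rw [hi']
        rfl
      | mul a b ha hb =>
        rw [map_mul, map_mul, ha, hb]
        rfl
    have e2 : Φ (Ψ2 y) = (1, y) := by
      have h3 : Ψ2 y = PG.c (h03X X) p0 δ ^ (Multiplicative.toAdd y) := rfl
      rw [h3, map_zpow, hΦc]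
      apply Prod.ext
      · show (1 : FreeGroup _) ^ (Multiplicative.toAdd y) = 1
        rw [one_zpow]
      · show (Multiplicative.ofAdd (1 : ℤ)) ^ (Multiplicative.toAdd y) = y
        rw [← ofAdd_zsmul, smul_eq_mul, mul_one]
        rfl
    rw [e1, e2]
    apply Prod.ext
    · exact mul_one _
    · exact one_mul _
  refine ⟨{ toFun := Ψ, invFun := Φ, left_inv := h2, right_inv := fun x => ?_,
            map_mul' := map_mul Ψ }, ?_⟩
  · exact DFunLike.congr_fun h1 x
  · show Ψ (1, Multiplicative.ofAdd 1) = _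
    rw [hΨ, map_one, one_mul]
    show PG.c (h03X X) p0 δ ^ (1 : ℤ) = _
    rw [zpow_one]

/-! ### counting -/

theorem h03_count [Finite P] [Finite A] (hX : X.Ok) (hN : X.Nice) {p0 : P} {δ : P → A} {r : P → ℕ}
    (hs : X.Span p0 δ r) (f : A → ℕ) (hf : Function.Injective f) :
    2 ≤ Nat.card {a : A // h03G X p0 δ f a} := by
  classical
  have : Fintype P := Fintype.ofFinite P
  have : Fintype A := Fintype.ofFinite A
  have hne : ∀ a, f a ≠ f (X.i a) := by
    intro a h1
    apply hX.ni X.e a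
    rw [hX.aAe]
    exact hf h1
  -- darts at the points
  have h1 : 2 * Fintype.card P < Fintype.card A := by
    have e1 : Fintype.card A = ∑ v : P, (Finset.univ.filter fun a => X.o a = v).card :=
      Finset.card_eq_sum_card_fiberwise (f := X.o) (s := Finset.univ) (t := Finset.univ)
        (fun a _ => Finset.mem_coe.2 (Finset.mem_univ _))
    have e2 : 2 * Fintype.card P = ∑ v : P, 2 := by
      rw [Finset.sum_const, Finset.card_univ, smul_eq_mul, mul_comm]
    rw [e1, e2]
    have k2 : ∀ v : P, 2 ≤ (Finset.univ.filter fun a => X.o a = v).card := by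
      intro v
      obtain ⟨a, a', hne', ha, ha'⟩ := hN.two v
      have : ({a, a'} : Finset A) ⊆ Finset.univ.filter fun a => X.o a = v := by
        intro x hx
        rw [Finset.mem_insert, Finset.mem_singleton] at hx
        rw [Finset.mem_filter]
        rcases hx with rfl | rfl
        · exact ⟨Finset.mem_univ _, ha⟩
        · exact ⟨Finset.mem_univ _, ha'⟩
      have h3 := Finset.card_le_card this
      rw [Finset.card_pair hne'] at h3
      exact h3
    obtain ⟨a, a', a'', n1, n2, n3, o1, o2⟩ := hN.three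
    refine Finset.sum_lt_sum (fun v _ => k2 v) ⟨X.o a, Finset.mem_univ _, ?_⟩
    have : ({a, a', a''} : Finset A) ⊆ Finset.univ.filter fun b => X.o b = X.o a := by
      intro x hx
      rw [Finset.mem_insert, Finset.mem_insert, Finset.mem_singleton] at hx
      rw [Finset.mem_filter]
      rcases hx with rfl | rfl | rfl
      · exact ⟨Finset.mem_univ _, rfl⟩
      · exact ⟨Finset.mem_univ _, o1.symm⟩
      · exact ⟨Finset.mem_univ _, (o1.trans o2).symm⟩
    have h3 := Finset.card_le_card this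
    have h4 : ({a, a', a''} : Finset A).card = 3 := by
      rw [Finset.card_eq_three]
      exact ⟨a, a', a'', n1, n3, n2, rfl⟩
    omega
  -- representatives
  have h2 : Fintype.card A = 2 * (Finset.univ.filter fun a => f a < f (X.i a)).card := by
    have e1 : (Finset.univ.filter fun a => f a < f (X.i a)).card +
        (Finset.univ.filter fun a => ¬ f a < f (X.i a)).card = Fintype.card A := by
      rw [← Finset.card_univ]
      exact Finset.card_filter_add_card_filter_not _
    have e2 : (Finset.univ.filter fun a => f a < f (X.i a)).card =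
        (Finset.univ.filter fun a => ¬ f a < f (X.i a)).card := by
      apply Finset.card_bij (fun a _ => X.i a)
      · intro a ha
        rw [Finset.mem_filter] at ha ⊢
        refine ⟨Finset.mem_univ _, ?_⟩
        rw [hX.ii]
        omega
      · intro a _ b _ hab
        rw [← hX.ii a, hab, hX.ii]
      · intro b hb
        rw [Finset.mem_filter] at hb
        refine ⟨X.i b, ?_, hX.ii b⟩
        rw [Finset.mem_filter]
        refine ⟨Finset.mem_univ _, ?_⟩
        rw [hX.ii]
        have := hne b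
        omega
    omega
  -- representatives in the tree
  have h3 : (Finset.univ.filter fun a => f a < f (X.i a)).card ≤
      (Finset.univ.filter fun a => h03G X p0 δ f a).card +
      (Finset.univ.filter fun v : P => v ≠ p0).card := by
    have e1 : (Finset.univ.filter fun a => f a < f (X.i a)) ⊆
        (Finset.univ.filter fun a => h03G X p0 δ f a) ∪
        (Finset.univ.filter fun v : P => v ≠ p0).image
          (fun v => if f (δ v) < f (X.i (δ v)) then δ v else X.i (δ v)) := by
      intro a ha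
      rw [Finset.mem_filter] at ha
      rw [Finset.mem_union]
      by_cases hg : h03G X p0 δ f a
      · left
        rw [Finset.mem_filter]
        exact ⟨Finset.mem_univ _, hg⟩
      · right
        have h4 : ∃ v, v ≠ p0 ∧ (a = δ v ∨ X.i a = δ v) := by
          by_contra hno
          push Not at hno
          exact hg ⟨ha.2, hno⟩
        obtain ⟨v, hv, h5⟩ := h4
        rw [Finset.mem_image]
        refine ⟨v, ?_, ?_⟩
        · rw [Finset.mem_filter]
          exact ⟨Finset.mem_univ _, hv⟩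
        · rcases h5 with h5 | h5
          · rw [← h5, if_pos ha.2]
          · rw [← h5, hX.ii, if_neg (by omega)]
    refine (Finset.card_le_card e1).trans ((Finset.card_union_le _ _).trans ?_)
    exact Nat.add_le_add_left Finset.card_image_le _
  have h4 : (Finset.univ.filter fun v : P => v ≠ p0).card + 1 = Fintype.card P := by
    have e1 : (Finset.univ.filter fun v : P => v ≠ p0) = Finset.univ.erase p0 := by
      ext v
      simp
    rw [e1, Finset.card_erase_of_mem (Finset.mem_univ _), Finset.card_univ]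
    have : 0 < Fintype.card P := Fintype.card_pos_iff.2 ⟨p0⟩
    omega
  rw [Nat.card_eq_fintype_card, Fintype.card_subtype]
  omega

theorem h03_fz [Finite P] [Finite A] (hX : X.Ok) (hN : X.Nice)
    (h : PC E S X c q D p al) {p0 : P} {δ : P → A} {r : P → ℕ}
    (hs : X.Span p0 δ r) : ∃ (n : ℕ) (φ : FZ n ≃* h03M hX h), 2 ≤ n ∧
      ((φ (1, Multiplicative.ofAdd 1) : h03M hX h) : E) = c := by
  obtain ⟨m, ⟨e⟩⟩ := Finite.exists_equiv_fin A
  let f : A → ℕ := fun a => e a
  have hf : Function.Injective f := fun a b hab => e.injective (Fin.ext hab)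
  obtain ⟨F, hF⟩ := h03_iso (X := X) hX p0 δ f hf
  obtain ⟨t, K, -, -, hK, -⟩ := pc_pres (h03_ok hX) (h03_pc hX h) (p0 := p0) (δ := δ) (r := r) hs
  have hn := h03_count hX hN hs f hf
  have hfin : Finite {a : A // h03G X p0 δ f a} := inferInstance
  let e' : {a : A // h03G X p0 δ f a} ≃ Fin (Nat.card {a : A // h03G X p0 δ f a}) :=
    Finite.equivFin _
  let φ0 : FZ (Nat.card {a : A // h03G X p0 δ f a}) ≃*
      (FreeGroup {a : A // h03G X p0 δ f a} × Multiplicative ℤ) :=
    (FreeGroup.freeGroupCongr e'.symm).prodCongr (MulEquiv.refl _)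
  refine ⟨Nat.card {a : A // h03G X p0 δ f a}, (φ0.trans F).trans K, hn, ?_⟩
  have h1 : φ0 (1, Multiplicative.ofAdd 1) = (1, Multiplicative.ofAdd 1) := by
    apply Prod.ext
    · exact map_one (FreeGroup.freeGroupCongr e'.symm)
    · rfl
  show ((K (F (φ0 (1, Multiplicative.ofAdd 1))) : h03M hX h) : E) = c
  rw [h1, hF, hK]

theorem pc_fz [Finite P] [Finite A] [Finite Q] (hX : X.Ok) (hN : X.Nice)
    (h : PC E S X c q D p al) {p0 : P} {δ : P → A} {r : P → ℕ}
    (hs : X.Span p0 δ r) : ∃ (M : Subgroup E) (n : ℕ) (φ : FZ n ≃* M), 2 ≤ n ∧ M.Normal ∧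
      M.index ≠ 0 ∧ ((φ (1, Multiplicative.ofAdd 1) : M) : E) = c := by
  obtain ⟨n, φ, hn, hφ⟩ := h03_fz hX hN h hs
  exact ⟨h03M hX h, n, φ, hn, h03_normal hX h, h03_index hX h, hφ⟩

theorem h03_root {n : ℕ} (x y : FZ n) (k : ℕ) (hk : 0 < k) (h : x ^ k = y ^ k) : x = y := by
  apply Prod.ext
  · have h1 := pow_left_injective (M := FreeGroup (Fin n)) (n := k) hk.ne'
    exact h1 (congrArg Prod.fst h)
  · have h2 : x.2 ^ k = y.2 ^ k := congrArg Prod.snd h
    have h3 : (k : ℤ) * Multiplicative.toAdd x.2 = (k : ℤ) * Multiplicative.toAdd y.2 := by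
      have h4 := congrArg Multiplicative.toAdd h2
      rw [toAdd_pow, toAdd_pow, nsmul_eq_mul, nsmul_eq_mul] at h4
      exact h4
    have h5 : Multiplicative.toAdd x.2 = Multiplicative.toAdd y.2 :=
      mul_left_cancel₀ (by exact_mod_cast hk.ne') h3
    exact h5

theorem pc_pieceG [Finite P] [Finite A] [Finite Q] (hX : X.Ok) (hN : X.Nice)
    (h : PC E S X c q D p al) {p0 : P} {δ : P → A} {r : P → ℕ}
    (hs : X.Span p0 δ r) : PieceG E c := by
  obtain ⟨n, φ, hn, hφ⟩ := h03_fz hX hN h hs
  have hM := h03_normal hX h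
  have hi := h03_index hX h
  refine ⟨⟨n, hn, h03M hX h, hi, ⟨φ⟩⟩, ?_, pc_inf hX h, ?_⟩
  · intro x
    have h1 := pc_conj hX h x
    rcases hX.ep1 (q x) with h2 | h2
    · left
      rw [h1, h2, zpow_one]
    · right
      rw [h1, h2, zpow_neg, zpow_one]
  rintro z ⟨H, hH, hz⟩
  -- `z` commutes with `M`
  have hzM : ∀ x ∈ h03M hX h, z * x = x * z := by
    intro x hx
    obtain ⟨k, hk, -, hxk⟩ := Subgroup.exists_pow_mem_of_index_ne_zero hH x
    have h1 := hz _ hxk
    have h2 : (z * x * z⁻¹) ^ k = x ^ k := by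
      rw [conj_pow, h1, mul_inv_cancel_right]
    have h3 : z * x * z⁻¹ ∈ h03M hX h := hM.conj_mem x hx z
    obtain ⟨a, ha⟩ := φ.surjective ⟨x, hx⟩
    obtain ⟨b, hb⟩ := φ.surjective ⟨z * x * z⁻¹, h3⟩
    have h4 : b ^ k = a ^ k := by
      apply φ.injective
      rw [map_pow, map_pow, ha, hb]
      exact Subtype.ext h2
    have h5 := h03_root b a k hk h4
    rw [h5, ha] at hb
    have h6 : x = z * x * z⁻¹ := congrArg Subtype.val hb
    calc z * x = z * x * z⁻¹ * z := by rw [inv_mul_cancel_right]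
      _ = x * z := by rw [← h6]
  -- a power of `z` acts trivially
  obtain ⟨k, hk, -, hzk⟩ := Subgroup.exists_pow_mem_of_index_ne_zero hi z
  have hzk2 : ∃ j : ℤ, z ^ k = c ^ j := by
    obtain ⟨a, ha⟩ := φ.surjective ⟨z ^ k, hzk⟩
    have h1 : a.1 = 1 := by
      refine (fz_cen hn a).1 fun y => ?_
      apply φ.injective
      apply Subtype.ext
      rw [map_mul, map_mul, ha]
      show z ^ k * ((φ y : h03M hX h) : E) = ((φ y : h03M hX h) : E) * z ^ k
      have h2 : Commute z ((φ y : h03M hX h) : E) := hzM _ (φ y).2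
      exact (h2.pow_left k).eq
    obtain ⟨j, hj⟩ : ∃ j : ℤ, j = Multiplicative.toAdd a.2 := ⟨_, rfl⟩
    refine ⟨j, ?_⟩
    have h2 : a = ((1, Multiplicative.ofAdd 1) : FZ n) ^ j := by
      rw [hj]
      apply Prod.ext
      · show a.1 = (1 : FreeGroup (Fin n)) ^ (Multiplicative.toAdd a.2)
        rw [one_zpow, h1]
      · show a.2 = (Multiplicative.ofAdd (1 : ℤ)) ^ (Multiplicative.toAdd a.2)
        rw [← ofAdd_zsmul, smul_eq_mul, mul_one]
        rfl
    have h3 : ((φ a : h03M hX h) : E) = z ^ k := by rw [ha]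
    rw [← h3, h2, map_zpow]
    show ((φ (1, Multiplicative.ofAdd 1) : h03M hX h) : E) ^ _ = _
    rw [hφ]
  obtain ⟨j, hj⟩ := hzk2
  have hta := pc_ta hX h
  have htl : tl S z = 0 := by
    have h1 : tl S (z ^ k) = 0 := by
      obtain ⟨v⟩ := h.tree.connected.nonempty
      rw [tl_eq_zero hta]
      exact ⟨v, by rw [hj]; exact (pc_cz hX h j).2.2 v⟩
    rw [tl_pow hta] at h1
    rcases mul_eq_zero.1 h1 with h2 | h2
    · omega
    · exact h2
  -- `z` acts trivially
  have hL : TLat (h03M hX h) S := pc_tlat (h03_ok hX) (h03_pc hX h)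
  have hzM' : ∀ x, q x = X.e → z * x = x * z := fun x hx => hzM x hx
  have hfix : ∀ v : V, z • v = v := by
    intro v
    have h1 := tmin hL (pc_leafless hN h) (CC S z) (cc_cvx hta z) (cc_nonempty hta z) (by
      intro g x hx
      have h2 : z * (g : E) = (g : E) * z := hzM' _ g.2
      have h3 := (cc_conj hta (g : E) z x).2 hx
      rw [← h2, mul_inv_cancel_right] at h3
      exact h3) v
    have h2 : S.dist v (z • v) = tl S z := h1
    rw [htl] at h2
    exact (st1_eq h.tree h2).symm
  have hep : X.ep (q z) = 1 := by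
    have h1 := pc_conj hX h z
    rw [hzM' c h.qc, mul_inv_cancel_right] at h1
    rcases hX.ep1 (q z) with h2 | h2
    · exact h2
    · exfalso
      rw [h2] at h1
      have h3 : c ^ (2 : ℤ) = 1 := by
        have h4 : c ^ (2 : ℤ) = c * c := zpow_two c
        rw [h4]
        nth_rewrite 2 [h1]
        rw [zpow_neg, zpow_one, mul_inv_cancel]
      have h5 := pc_inf hX h 2 h3
      omega
  have hqz : q z = X.e := by
    apply hN.fai _ _ _ hep
    · intro v
      obtain ⟨w, hw⟩ := h.onto v
      rw [← hw, ← h.pq, hfix]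
    · intro a
      obtain ⟨w, hw⟩ := h.onto (X.o a)
      obtain ⟨w', h1, h2⟩ := h.sur w a hw.symm
      rw [← h2, ← h.alq z w w' h1, hfix, hfix]
  obtain ⟨v⟩ := h.tree.connected.nonempty
  exact h.free z v hqz (hfix v)

end

/-- isomorphisms of pieces respect `c` up to inversion -/
theorem piece_iso_c {K K' : Type} [Group K] [Group K'] {c : K} {c' : K'} (h : PieceG K c)
    (h' : PieceG K' c') (θ : K ≃* K') : θ c = c' ∨ θ c = c'⁻¹ := pg_iso h h' θ

end VF
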