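import Pool.Agent.Lib.MP_32d917_al_vf.P01

/-!
# P08: the data of a labelled tree
-/

set_option autoImplicit false

namespace VF

open LatIso LatN AdmIso

/-- a labelled tree: the labels of vertices, darts, elements are the orbits of `M` -/
structure Lab {E : Type} [Group E] (c : E) {V : Type} [MulAction E V] (S : SimpleGraph V)
    (M : Subgroup E) (D : E → ℤ) {P A Q : Type} (p : V → P) (al : V → V → A) (q : E → Q) :
    Prop where
  ta : TA E S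
  cf : ∀ v : V, c • v = v
  normal : M.Normal
  cM : c ∈ M
  free : ∀ g ∈ M, ∀ v : V, g • v = v → ∃ k : ℤ, g = c ^ k
  sgM : ∀ g ∈ M, sg c g = 1
  DM : ∀ g ∈ M, D c ∣ D g
  Dm : ∀ x y, D (x * y) = D x + sg c x * D y
  Dc : 0 < D c
  sgm : ∀ x y, sg c (x * y) = sg c x * sg c y
  ps : ∀ b, ∃ v, p v = b
  pe : ∀ v w, p v = p w ↔ ∃ m ∈ M, m • v = w
  as : ∀ a, ∃ v w, S.Adj v w ∧ al v w = a
  ae : ∀ v w v' w', S.Adj v w → S.Adj v' w' →
    (al v w = al v' w' ↔ ∃ m ∈ M, m • v = v' ∧ m • w = w')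
  qs : ∀ x, ∃ g, q g = x
  qe : ∀ g g', q g = q g' ↔ g⁻¹ * g' ∈ M

namespace Lab

variable {E : Type} [Group E] {c : E} {V : Type} [MulAction E V] {S : SimpleGraph V}
  {M : Subgroup E} {D : E → ℤ} {P A Q : Type} {p : V → P} {al : V → V → A} {q : E → Q}

/-- representatives -/
noncomputable def rv (L : Lab c S M D p al q) (b : P) : V := (L.ps b).choose
noncomputable def r1 (L : Lab c S M D p al q) (a : A) : V := (L.as a).choose
noncomputable def r2 (L : Lab c S M D p al q) (a : A) : V := (L.as a).choose_spec.choose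
noncomputable def rg (L : Lab c S M D p al q) (x : Q) : E := (L.qs x).choose

theorem rv_spec (L : Lab c S M D p al q) (b : P) : p (L.rv b) = b := (L.ps b).choose_spec
theorem r_spec (L : Lab c S M D p al q) (a : A) : S.Adj (L.r1 a) (L.r2 a) ∧ al (L.r1 a) (L.r2 a) = a :=
  (L.as a).choose_spec.choose_spec
theorem rg_spec (L : Lab c S M D p al q) (x : Q) : q (L.rg x) = x := (L.qs x).choose_spec

open Classical in
/-- the data -/
noncomputable def X (L : Lab c S M D p al q) : PD P A Q where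
  o a := p (L.r1 a)
  i a := al (L.r2 a) (L.r1 a)
  m x y := q (L.rg x * L.rg y)
  e := q 1
  aP x b := p (L.rg x • L.rv b)
  aA x a := al (L.rg x • L.r1 a) (L.rg x • L.r2 a)
  ep x := sg c (L.rg x)
  de x := if x = q 1 then 0 else D (L.rg x)
  R := D c

variable (L : Lab c S M D p al q)

include L

theorem o_al {v w : V} (h : S.Adj v w) : L.X.o (al v w) = p v := by
  obtain ⟨h1, h2⟩ := L.r_spec (al v w)
  obtain ⟨m, hm, h3, h4⟩ := (L.ae _ _ _ _ h1 h).mp h2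
  exact (L.pe _ _).mpr ⟨m, hm, h3⟩

theorem i_al {v w : V} (h : S.Adj v w) : L.X.i (al v w) = al w v := by
  obtain ⟨h1, h2⟩ := L.r_spec (al v w)
  obtain ⟨m, hm, h3, h4⟩ := (L.ae _ _ _ _ h1 h).mp h2
  exact (L.ae _ _ _ _ h1.symm h.symm).mpr ⟨m, hm, h4, h3⟩

theorem rg_mem (g : E) : (L.rg (q g))⁻¹ * g ∈ M := (L.qe _ _).mp (L.rg_spec (q g))

theorem rg_mem' (g : E) : g * (L.rg (q g))⁻¹ ∈ M := by
  have h1 := L.normal.conj_mem _ (L.rg_mem g) (L.rg (q g))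
  have h2 : L.rg (q g) * ((L.rg (q g))⁻¹ * g) * (L.rg (q g))⁻¹ = g * (L.rg (q g))⁻¹ := by group
  rwa [h2] at h1

theorem m_q (g g' : E) : L.X.m (q g) (q g') = q (g * g') := by
  show q (L.rg (q g) * L.rg (q g')) = q (g * g')
  rw [L.qe]
  have h1 := L.normal.conj_mem _ (L.rg_mem g) (L.rg (q g'))⁻¹
  have h2 := M.mul_mem h1 (L.rg_mem g')
  have h3 : (L.rg (q g'))⁻¹ * ((L.rg (q g))⁻¹ * g) * ((L.rg (q g'))⁻¹)⁻¹ *
      ((L.rg (q g'))⁻¹ * g') = (L.rg (q g) * L.rg (q g'))⁻¹ * (g * g') := by group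
  rwa [h3] at h2

/-- the element of `M` relating `g • v` and the chosen representative -/
theorem key_mem (g m : E) (hm : m ∈ M) : g * m * (L.rg (q g))⁻¹ ∈ M := by
  have h1 := M.mul_mem (L.normal.conj_mem _ hm g) (L.rg_mem' g)
  have h2 : g * m * g⁻¹ * (g * (L.rg (q g))⁻¹) = g * m * (L.rg (q g))⁻¹ := by group
  rwa [h2] at h1

theorem aP_q (g : E) (v : V) : L.X.aP (q g) (p v) = p (g • v) := by
  show p (L.rg (q g) • L.rv (p v)) = p (g • v)
  obtain ⟨m, hm, h1⟩ := (L.pe _ _).mp (L.rv_spec (p v))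
  rw [L.pe]
  refine ⟨g * m * (L.rg (q g))⁻¹, L.key_mem g m hm, ?_⟩
  rw [mul_smul, inv_smul_smul, mul_smul, h1]

theorem aA_q (g : E) {v w : V} (h : S.Adj v w) :
    L.X.aA (q g) (al v w) = al (g • v) (g • w) := by
  show al (L.rg (q g) • L.r1 (al v w)) (L.rg (q g) • L.r2 (al v w)) = _
  obtain ⟨h1, h2⟩ := L.r_spec (al v w)
  obtain ⟨m, hm, h3, h4⟩ := (L.ae _ _ _ _ h1 h).mp h2
  rw [L.ae _ _ _ _ (L.ta.adj _ _ _ h1) (L.ta.adj _ _ _ h)]
  refine ⟨g * m * (L.rg (q g))⁻¹, L.key_mem g m hm, ?_, ?_⟩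
  · rw [mul_smul, inv_smul_smul, mul_smul, h3]
  · rw [mul_smul, inv_smul_smul, mul_smul, h4]

theorem ep_q (g : E) : L.X.ep (q g) = sg c g := by
  show sg c (L.rg (q g)) = sg c g
  have h1 := L.sgm (L.rg (q g)) ((L.rg (q g))⁻¹ * g)
  rw [L.sgM _ (L.rg_mem g), mul_one, mul_inv_cancel_left] at h1
  exact h1.symm

theorem q1_iff (g : E) : q g = q 1 ↔ g ∈ M := by
  rw [eq_comm, L.qe, inv_one, one_mul]

theorem de_q (g : E) : D c ∣ D g - L.X.de (q g) := by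
  classical
  by_cases h1 : q g = q 1
  · have h2 : L.X.de (q g) = 0 := by
      show (if q g = q 1 then (0 : ℤ) else D (L.rg (q g))) = 0
      exact if_pos h1
    rw [h2, sub_zero]
    exact L.DM g ((L.q1_iff g).mp h1)
  · have h2 : L.X.de (q g) = D (L.rg (q g)) := by
      show (if q g = q 1 then (0 : ℤ) else D (L.rg (q g))) = _
      exact if_neg h1
    rw [h2]
    have h3 := L.Dm (L.rg (q g)) ((L.rg (q g))⁻¹ * g)
    rw [mul_inv_cancel_left] at h3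
    rw [h3, add_sub_cancel_left]
    exact Dvd.dvd.mul_left (L.DM _ (L.rg_mem g)) _

theorem inj {v w w' : V} (h : S.Adj v w) (h' : S.Adj v w') (he : al v w = al v w') : w = w' := by
  obtain ⟨m, hm, h1, h2⟩ := (L.ae _ _ _ _ h h').mp he
  obtain ⟨k, hk⟩ := L.free m hm v h1
  rw [hk] at h2
  have h3 : c ∈ MulAction.stabilizer E w := L.cf w
  have h4 := Subgroup.zpow_mem _ h3 k
  have h5 : c ^ k • w = w := h4
  rw [h5] at h2
  exact h2

theorem ok : L.X.Ok := by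
  refine ⟨?_, ?_, ?_, ?_, ?_, ?_, ?_, ?_, ?_, ?_, ?_, ?_, ?_, ?_, ?_, ?_, L.Dc⟩
  · intro a
    obtain ⟨v, w, h, rfl⟩ := L.as a
    rw [L.i_al h, L.i_al h.symm]
  · intro x y z
    obtain ⟨x, rfl⟩ := L.qs x
    obtain ⟨y, rfl⟩ := L.qs y
    obtain ⟨z, rfl⟩ := L.qs z
    rw [L.m_q, L.m_q, L.m_q, L.m_q, mul_assoc]
  · intro x
    obtain ⟨x, rfl⟩ := L.qs x
    show L.X.m (q 1) (q x) = q x
    rw [L.m_q, one_mul]
  · intro x
    obtain ⟨x, rfl⟩ := L.qs x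
    show L.X.m (q x) (q 1) = q x
    rw [L.m_q, mul_one]
  · intro x
    obtain ⟨x, rfl⟩ := L.qs x
    refine ⟨q x⁻¹, ?_, ?_⟩
    · rw [L.m_q, mul_inv_cancel]
      rfl
    · rw [L.m_q, inv_mul_cancel]
      rfl
  · intro v
    obtain ⟨v, rfl⟩ := L.ps v
    show L.X.aP (q 1) (p v) = p v
    rw [L.aP_q, one_smul]
  · intro x y v
    obtain ⟨x, rfl⟩ := L.qs x
    obtain ⟨y, rfl⟩ := L.qs y
    obtain ⟨v, rfl⟩ := L.ps v
    rw [L.m_q, L.aP_q, L.aP_q, L.aP_q, mul_smul]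
  · intro a
    obtain ⟨v, w, h, rfl⟩ := L.as a
    show L.X.aA (q 1) (al v w) = al v w
    rw [L.aA_q _ h, one_smul, one_smul]
  · intro x y a
    obtain ⟨x, rfl⟩ := L.qs x
    obtain ⟨y, rfl⟩ := L.qs y
    obtain ⟨v, w, h, rfl⟩ := L.as a
    rw [L.m_q, L.aA_q _ h, L.aA_q _ h, L.aA_q _ (L.ta.adj _ _ _ h), mul_smul, mul_smul]
  · intro x a
    obtain ⟨x, rfl⟩ := L.qs x
    obtain ⟨v, w, h, rfl⟩ := L.as a
    rw [L.aA_q _ h, L.o_al (L.ta.adj _ _ _ h), L.o_al h, L.aP_q]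
  · intro x a
    obtain ⟨x, rfl⟩ := L.qs x
    obtain ⟨v, w, h, rfl⟩ := L.as a
    rw [L.aA_q _ h, L.i_al (L.ta.adj _ _ _ h), L.i_al h, L.aA_q _ h.symm]
  · intro x a
    obtain ⟨x, rfl⟩ := L.qs x
    obtain ⟨v, w, h, rfl⟩ := L.as a
    rw [L.aA_q _ h, L.i_al h]
    intro h1
    obtain ⟨m, hm, h2, h3⟩ := (L.ae _ _ _ _ (L.ta.adj _ _ _ h) h.symm).mp h1
    rw [← mul_smul] at h2 h3
    exact L.ta.noinv _ _ _ h h2 h3
  · intro x
    exact p01_sg c _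
  · intro x y
    obtain ⟨x, rfl⟩ := L.qs x
    obtain ⟨y, rfl⟩ := L.qs y
    rw [L.m_q, L.ep_q, L.ep_q, L.ep_q, L.sgm]
  · classical
    show (if q 1 = q 1 then (0 : ℤ) else D (L.rg (q 1))) = 0
    exact if_pos rfl
  · intro x y
    obtain ⟨x, rfl⟩ := L.qs x
    obtain ⟨y, rfl⟩ := L.qs y
    rw [L.m_q, L.ep_q]
    obtain ⟨k1, h1⟩ := L.de_q x
    obtain ⟨k2, h2⟩ := L.de_q y
    obtain ⟨k3, h3⟩ := L.de_q (x * y)
    have h4 := L.Dm x y
    refine ⟨-k1 - sg c x * k2 + k3, ?_⟩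
    show _ = D c * _
    linear_combination (-1 : ℤ) * h1 - sg c x * h2 + h3 - h4

theorem pc : PC E S L.X c q D p al := by
  refine ⟨L.ta.tree, L.ta.adj, ?_, L.qs, ?_, L.de_q, ?_, rfl, L.cf, ?_, ?_, ?_, ?_, ?_, ?_, ?_, ?_, L.ps⟩
  · intro g h
    exact (L.m_q g h).symm
  · intro g h
    rw [L.ep_q, L.Dm]
  · exact (L.q1_iff c).mpr L.cM
  · intro g v h1 h2
    exact L.free g ((L.q1_iff g).mp h1) v h2
  · intro v w h
    exact L.o_al h
  · intro v w h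
    exact (L.i_al h).symm
  · intro v w w' h h' he
    exact L.inj h h' he
  · intro v a h
    obtain ⟨v', w', h1, rfl⟩ := L.as a
    rw [L.o_al h1] at h
    obtain ⟨m, hm, h2⟩ := (L.pe _ _).mp h
    refine ⟨m • w', ?_, ?_⟩
    · rw [← h2]
      exact L.ta.adj _ _ _ h1
    · rw [← h2]
      exact ((L.ae _ _ _ _ h1 (L.ta.adj _ _ _ h1)).mpr ⟨m, hm, rfl, rfl⟩).symm
  · intro g v
    exact (L.aP_q g v).symm
  · intro g v w h
    exact (L.aA_q g h).symm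
  · intro v w h
    obtain ⟨m, hm, h1⟩ := (L.pe _ _).mp h
    exact ⟨m, (L.q1_iff m).mpr hm, h1⟩

end Lab

end VF
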