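import Pool.Agent.Lib.MP_32d917_al_vf.P07
import Pool.Agent.Lib.MP_32d917_al_vf.P08
import Pool.Agent.Lib.MP_32d917_al.ST1

/-!
# P09: every piece group has a finite description

`L = E / <c>` is virtually free: `H ≤ E` of finite index, `H ≅ FZ n`; the centre of `H` is contained in `<c>` (`fc`), and
`H ∩ <c>` is the centre of `H`; so the image of `H` in `L` is free of rank `n`. Tree by `KPS.kps`, reduced (`red_one` in
N/NRED), which is without leaves; `three` since `L` is not virtually cyclic. Derivation `D` with `D c = R ≠ 0` by transfer of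
the second projection of `H`, after multiplication by `-1` if
necessary `R > 0`. `M = {g | ep g = 1, R ∣ D g, image of g in the normal free subgroup of finite index of L}` is normal of
finite index, contains `c`, and `M / <c>` acts freely. `Q = E / M`, `P = M \ V`, `A = M \ darts`, numbered. `de x` = `D g` for a
chosen `g` with `q g = x`, `de e = 0`.
`fai`: let `x` act trivially on `P`, `A`, `ep x = 1`. There is `g` with `q g = x` fixing a vertex, so it acts trivially on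
the tree (labels). For `h ∈ M` the commutator `[g, h]` is in `M` and acts trivially, so it is in `<c>`; `g` commutes with
`c`; so `[g ^ m, h] = [g, h] ^ m`, and `g ^ m ∈ <c>` for some `m > 0`; so `[g, h] = 1`, `g` commutes with `M`, and
`g ∈ <c>` by `fc`, `x = e`.
-/

set_option autoImplicit false

namespace VF

open LatIso LatN AdmIso

namespace Lab

variable {E : Type} [Group E] {c : E} {V : Type} [MulAction E V] {S : SimpleGraph V}
  {M : Subgroup E} {D : E → ℤ} {P A Q : Type} {p : V → P} {al : V → V → A} {q : E → Q}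

theorem fai (L : Lab c S M D p al q) (h : PieceG E c) (hi : M.index ≠ 0) (x : Q)
    (hP : ∀ v, L.X.aP x v = v) (hA : ∀ a, L.X.aA x a = a) (he : L.X.ep x = 1) : x = L.X.e := by
  obtain ⟨g0, rfl⟩ := L.qs x
  obtain ⟨v⟩ := L.ta.tree.1.nonempty
  have h1 : p (g0 • v) = p v := by rw [← L.aP_q, hP]
  obtain ⟨m, hm, h2⟩ := (L.pe _ _).mp h1
  have h3 : q (m * g0) = q g0 := by
    rw [← L.m_q, (L.q1_iff m).mpr hm, L.m_q, one_mul]
  rw [← h3] at hP hA he ⊢
  rw [← mul_smul] at h2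
  generalize m * g0 = g at hP hA he h2
  clear h1 h3 hm
  -- `g` acts trivially
  have htr : ∀ w : V, g • w = w := by
    intro w
    obtain ⟨W⟩ := L.ta.tree.1.preconnected v w
    induction W with
    | nil => exact h2
    | @cons a b d hab W ih =>
      apply ih
      have h4 := hA (al a b)
      rw [L.aA_q _ hab, h2] at h4
      have h5 := L.ta.adj g _ _ hab
      rw [h2] at h5
      exact L.inj h5 hab h4
  have htr' : ∀ w : V, g⁻¹ • w = w := by
    intro w
    rw [inv_smul_eq_iff, htr]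
  rw [L.ep_q] at he
  have hgc : g * c = c * g := p01_comm_iff.mp he
  -- `g` commutes with `M`
  have hcom : ∀ y ∈ M, g * y = y * g := by
    intro y hy
    have h4 : g * y * g⁻¹ * y⁻¹ ∈ M := M.mul_mem (L.normal.conj_mem y hy g) (M.inv_mem hy)
    have h5 : (g * y * g⁻¹ * y⁻¹) • v = v := by
      rw [mul_smul, mul_smul, mul_smul, htr', smul_inv_smul, htr]
    obtain ⟨k, hk⟩ := L.free _ h4 v h5
    have h6 : g * y * g⁻¹ = c ^ k * y := by
      rw [← hk]
      group
    have h7 : ∀ n : ℕ, g ^ n * y * (g ^ n)⁻¹ = c ^ ((n : ℤ) * k) * y := by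
      intro n
      induction n with
      | zero => simp
      | succ n ih =>
        have h8 : g ^ (n + 1) * y * (g ^ (n + 1))⁻¹ = g * (g ^ n * y * (g ^ n)⁻¹) * g⁻¹ := by
          rw [pow_succ']
          group
        have h9 : g * (c ^ ((n : ℤ) * k) * y) * g⁻¹ =
            (g * c ^ ((n : ℤ) * k) * g⁻¹) * (g * y * g⁻¹) := by group
        rw [h8, ih, h9, h6, p01_conj h, he, one_mul, ← mul_assoc, ← zpow_add]
        congr 2
        push_cast
        ring
    obtain ⟨n, hn, -, hnM⟩ := Subgroup.exists_pow_mem_of_index_ne_zero hi g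
    have h8 : g ^ n • v = v := by
      have h9 : g ∈ MulAction.stabilizer E v := htr v
      exact Subgroup.pow_mem _ h9 n
    obtain ⟨j, hj⟩ := L.free _ hnM v h8
    have h9 := h7 n
    have h10 : y * c ^ j * y⁻¹ = c ^ j := by
      have h11 := p01_conj h y j
      rwa [L.sgM y hy, one_mul] at h11
    have h11 : c ^ j * y * (c ^ j)⁻¹ = y := by
      rw [mul_inv_eq_iff_eq_mul]
      exact (mul_inv_eq_iff_eq_mul.mp h10).symm
    rw [hj, h11] at h9
    have h12 : c ^ ((n : ℤ) * k) = 1 := by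
      have h13 : c ^ ((n : ℤ) * k) * y = 1 * y := by rw [← h9, one_mul]
      exact mul_right_cancel h13
    have h13 := h.inf _ h12
    have h14 : k = 0 := by
      rcases mul_eq_zero.mp h13 with h15 | h15
      · exfalso
        omega
      · exact h15
    rw [h14, zpow_zero, one_mul, mul_inv_eq_iff_eq_mul] at h6
    exact h6
  obtain ⟨k, hk⟩ := h.fc g ⟨M, hi, hcom⟩
  have h4 : g ∈ M := by
    rw [hk]
    exact M.zpow_mem L.cM k
  exact (L.q1_iff g).mpr h4

theorem red (L : Lab c S M D p al q) (hr : Red E S) (a : A)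
    (ha : ∀ x, L.X.aP x (L.X.o a) = L.X.o a → L.X.aA x a = a) :
    ∃ x, L.X.aP x (L.X.o a) = L.X.o (L.X.i a) := by
  obtain ⟨v, w, h, rfl⟩ := L.as a
  obtain ⟨g, hg⟩ := hr v w h (by
    intro g hg
    have h1 := ha (q g) (by rw [L.o_al h, L.aP_q, hg])
    rw [L.aA_q _ h, hg] at h1
    have h2 := L.ta.adj g _ _ h
    rw [hg] at h2
    exact L.inj h2 h h1)
  refine ⟨q g, ?_⟩
  rw [L.o_al h, L.aP_q, hg, L.i_al h, L.o_al h.symm]

theorem nice (L : Lab c S M D p al q) (h : PieceG E c) (hi : M.index ≠ 0) (hr : Red E S)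
    (two : ∀ v, ∃ x y, x ≠ y ∧ S.Adj v x ∧ S.Adj v y)
    (three : ∃ v x y z, x ≠ y ∧ y ≠ z ∧ x ≠ z ∧ S.Adj v x ∧ S.Adj v y ∧ S.Adj v z) :
    L.X.Nice := by
  refine ⟨?_, ?_, L.fai h hi, L.red hr⟩
  · intro b
    obtain ⟨v, rfl⟩ := L.ps b
    obtain ⟨x, y, hxy, h1, h2⟩ := two v
    exact ⟨al v x, al v y, fun h3 => hxy (L.inj h1 h2 h3), L.o_al h1, L.o_al h2⟩
  · obtain ⟨v, x, y, z, hxy, hyz, hxz, h1, h2, h3⟩ := three
    refine ⟨al v x, al v y, al v z, fun h4 => hxy (L.inj h1 h2 h4), fun h4 => hyz (L.inj h2 h3 h4),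
      fun h4 => hxz (L.inj h1 h3 h4), ?_, ?_⟩
    · rw [L.o_al h1, L.o_al h2]
    · rw [L.o_al h2, L.o_al h3]

theorem span (L : Lab c S M D p al q) [Nonempty A] (p0 : P) :
    ∃ (δ : P → A) (r : P → ℕ), L.X.Span p0 δ r := by
  classical
  obtain ⟨v0, hv0⟩ := L.ps p0
  let r : P → ℕ := fun y => sInf {k | ∃ x, p x = y ∧ S.dist x v0 = k}
  have r1 : ∀ x, r (p x) ≤ S.dist x v0 := fun x => Nat.sInf_le ⟨x, rfl, rfl⟩
  have r2 : ∀ y, ∃ x, p x = y ∧ S.dist x v0 = r y := by
    intro y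
    obtain ⟨x, hx⟩ := L.ps y
    exact Nat.sInf_mem (s := {k | ∃ x, p x = y ∧ S.dist x v0 = k}) ⟨_, x, hx, rfl⟩
  have key : ∀ y, ∃ a : A, y ≠ p0 → L.X.o (L.X.i a) = y ∧ r (L.X.o a) < r y := by
    intro y
    by_cases hy : y = p0
    · exact ⟨Classical.arbitrary A, fun h => absurd hy h⟩
    · obtain ⟨x, hx, hd⟩ := r2 y
      have hne : x ≠ v0 := by
        rintro rfl
        exact hy (hx.symm.trans hv0)
      obtain ⟨n, h1, h2⟩ := st_next L.ta.tree hne
      refine ⟨al n x, fun _ => ⟨?_, ?_⟩⟩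
      · rw [L.i_al h1.symm, L.o_al h1, hx]
      · rw [L.o_al h1.symm]
        have h3 := r1 n
        unfold Bt at h2
        have h4 : S.dist x n = 1 := SimpleGraph.dist_eq_one_iff_adj.mpr h1
        omega
  choose δ hδ using key
  exact ⟨δ, r, fun y hy => hδ y hy⟩

end Lab

theorem p09_lab {E : Type} [Group E] {c : E} (h : PieceG E c) {V : Type} [MulAction E V]
    {S : SimpleGraph V} {M0 : Subgroup E} (T : PTree E c S M0) {D : E → ℤ}
    (hD : ∀ x y, D (x * y) = D x + sg c x * D y) (h0 : 0 < D c) :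
    ∃ (a b d : ℕ) (p : V → Fin (a + 1)) (al : V → V → Fin (b + 1)) (q : E → Fin (d + 1)),
      Lab c S (kerG h M0 D hD) D p al q := by
  classical
  have hN := kerG_normal h M0 T.normal D hD
  have hI := kerG_index h M0 T.index D hD h0
  have hfi : (kerG h M0 D hD).FiniteIndex := ⟨hI⟩
  -- vertices
  have hne : Nonempty V := T.ta.tree.1.nonempty
  obtain ⟨a, p, p1, p2⟩ := p07_lab (kerG h M0 D hD) hN hI T.fin
  -- elements
  obtain ⟨n, ⟨e⟩⟩ := Finite.exists_equiv_fin (E ⧸ kerG h M0 D hD)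
  have hn : n ≠ 0 := by
    rintro rfl
    exact Fin.elim0 (e ((1 : E) : E ⧸ kerG h M0 D hD))
  obtain ⟨d, rfl⟩ := Nat.exists_eq_succ_of_ne_zero hn
  -- darts
  let Da : Type := {z : V × V // S.Adj z.1 z.2}
  let act : MulAction E Da :=
    { smul := fun g z => ⟨(g • z.1.1, g • z.1.2), T.ta.adj g _ _ z.2⟩
      one_smul := fun z => Subtype.ext (Prod.ext (one_smul E z.1.1) (one_smul E z.1.2))
      mul_smul := fun g k z => Subtype.ext (Prod.ext (mul_smul g k z.1.1) (mul_smul g k z.1.2)) }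
  have hneD : Nonempty Da := by
    obtain ⟨v, x, y, z, -, -, -, h1, -, -⟩ := T.three
    exact ⟨⟨(v, x), h1⟩⟩
  have hfinD : ∃ F : Finset Da, ∀ z : Da, ∃ g : E, g • z ∈ F := by
    obtain ⟨F, hF⟩ := T.fin
    have h1 : ({z : Da | z.1.1 ∈ F}).Finite := by
      have h2 : (⋃ v ∈ F, ((fun w => (v, w)) '' S.neighborSet v)).Finite := by
        apply Set.Finite.biUnion (Finset.finite_toSet F)
        intro v hv
        exact (T.loc v).image _
      have h3 : (Subtype.val '' {z : Da | z.1.1 ∈ F}).Finite := by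
        apply h2.subset
        rintro z ⟨w, hw, rfl⟩
        rw [Set.mem_iUnion₂]
        exact ⟨w.1.1, hw, w.1.2, w.2, rfl⟩
      exact Set.Finite.of_finite_image h3 Subtype.val_injective.injOn
    refine ⟨h1.toFinset, fun z => ?_⟩
    obtain ⟨g, hg⟩ := hF z.1.1
    refine ⟨g, ?_⟩
    rw [Set.Finite.mem_toFinset]
    exact hg
  obtain ⟨b, α, α1, α2⟩ := p07_lab (kerG h M0 D hD) hN hI hfinD
  let al : V → V → Fin (b + 1) := fun v w => if hvw : S.Adj v w then α ⟨(v, w), hvw⟩ else 0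
  have hal : ∀ v w (hvw : S.Adj v w), al v w = α ⟨(v, w), hvw⟩ := fun v w hvw => dif_pos hvw
  refine ⟨a, b, d, p, al, fun g => e (g : E ⧸ kerG h M0 D hD), ?_⟩
  refine ⟨T.ta, T.cf, hN, ⟨T.cM, p01_sgc c, dvd_refl _⟩, ?_, ?_, ?_, hD, h0, p01_sgmul h, p1, p2,
    ?_, ?_, ?_, ?_⟩
  · intro g hg v hv
    exact T.free g hg.1 v hv
  · intro g hg
    exact hg.2.1
  · intro g hg
    exact hg.2.2
  · intro x
    obtain ⟨⟨⟨v, w⟩, hvw⟩, hz⟩ := α1 x
    exact ⟨v, w, hvw, by rw [hal v w hvw, hz]⟩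
  · intro v w v' w' h1 h2
    rw [hal v w h1, hal v' w' h2, α2]
    constructor
    · rintro ⟨m, hm, h3⟩
      have h4 := congrArg Subtype.val h3
      exact ⟨m, hm, congrArg Prod.fst h4, congrArg Prod.snd h4⟩
    · rintro ⟨m, hm, h3, h4⟩
      exact ⟨m, hm, Subtype.ext (Prod.ext h3 h4)⟩
  · intro x
    obtain ⟨g, hg⟩ := QuotientGroup.mk_surjective (e.symm x)
    refine ⟨g, ?_⟩
    show e (g : E ⧸ kerG h M0 D hD) = x
    rw [hg, Equiv.apply_symm_apply]
  · intro g g'
    show e (g : E ⧸ kerG h M0 D hD) = e (g' : E ⧸ kerG h M0 D hD) ↔ _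
    rw [e.apply_eq_iff_eq, QuotientGroup.eq]

theorem piece_code {E : Type} [Group E] {c : E} (h : PieceG E c) :
    ∃ (a b d : ℕ) (X : PD (Fin (a + 1)) (Fin (b + 1)) (Fin (d + 1))) (δ : Fin (a + 1) → Fin (b + 1))
      (r : Fin (a + 1) → ℕ) (V : Type) (_ : MulAction E V) (S : SimpleGraph V)
      (q : E → Fin (d + 1)) (D : E → ℤ) (p : V → Fin (a + 1)) (al : V → V → Fin (b + 1)),
      X.Ok ∧ X.Nice ∧ X.Span 0 δ r ∧ PC E S X c q D p al := by
  obtain ⟨V, act, S, M0, T⟩ := pg_tree h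
  obtain ⟨D, hD, h0⟩ := pg_deriv h
  obtain ⟨a, b, d, p, al, q, L⟩ := p09_lab h T hD h0
  obtain ⟨δ, r, hs⟩ := L.span (0 : Fin (a + 1))
  exact ⟨a, b, d, L.X, δ, r, V, act, S, q, D, p, al, L.ok,
    L.nice h (kerG_index h M0 T.index D hD h0) T.red T.two T.three, hs, L.pc⟩

end VF
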