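import Pool.Agent.Lib.MP_32d917_al_vf.H01
import Pool.Agent.Lib.MP_32d917_al_vf.H03
import Pool.Agent.Lib.MP_32d917_al_vf.E03
import Pool.Agent.Lib.MP_32d917_al_vf.P09
import Pool.Agent.Lib.MP_32d917_al_adm.C04

/-!
# F02: codes exist

`pcode_exists`: `piece_code` (P09) gives data `X`, encode the tables (`CB.exists_dig`; `toPD c0 = X` with `c0 = ((a, b, d), [tables], ...)`; compare
`code_exists` in adm/C03), `pc_pres` (B04) gives `PG X 0 δ ≃* E`, and `pe`.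
`ecode_exists`: `edat_exists` (transported by `pe`), encode.
`code_data`: for every piece `pcode_exists`; for every edge `e` the code `ecode_exists` at the piece `D.pc e` with elements `Φ (D.h p e)`, `Φ (D.b p e)`;
`TEq` with the identity permutations, `Φ`, `Ψ = 1` and `κ` the conjugating elements. `ESep`: `esep_of` from `D.Ok.sep`.
-/

set_option autoImplicit false

namespace VF

open LatIso LatN AdmIso

/-! ### Codes of pieces -/

theorem f02_ext {P A Q : Type} (X Y : PD P A Q) (h1 : X.o = Y.o) (h2 : X.i = Y.i) (h3 : X.m = Y.m)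
    (h4 : X.e = Y.e) (h5 : X.aP = Y.aP) (h6 : X.aA = Y.aA) (h7 : X.ep = Y.ep) (h8 : X.de = Y.de)
    (h9 : X.R = Y.R) : X = Y := by
  cases X
  cases Y
  dsimp only at h1 h2 h3 h4 h5 h6 h7 h8 h9
  subst h1 h2 h3 h4 h5 h6 h7 h8 h9
  rfl

theorem f02_tab1 {n m : ℕ} (F : Fin (m + 1) → Fin (n + 1)) :
    ∃ w, ∀ x : Fin (m + 1), CB.dg n w x = F x := by
  obtain ⟨w, -, h⟩ := CB.exists_dig n m F
  exact ⟨w, fun x => by rw [← h x]; rfl⟩

theorem f02_tab2 {n m k : ℕ} (F : Fin (m + 1) → Fin (k + 1) → Fin (n + 1)) :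
    ∃ w, ∀ (x : Fin (m + 1)) (y : Fin (k + 1)), CB.dg n w ((x : ℕ) * (k + 1) + y) = F x y := by
  obtain ⟨w, -, h⟩ := CB.exists_dg n
    (fun t => if ht : t / (k + 1) < m + 1 then
      (F ⟨t / (k + 1), ht⟩ ⟨t % (k + 1), Nat.mod_lt _ (Nat.succ_pos _)⟩ : ℕ) else 0)
    (fun t => by
      by_cases ht : t / (k + 1) < m + 1
      · simp only [dif_pos ht]
        exact (F _ _).2
      · simp only [dif_neg ht]
        exact Nat.succ_pos n) ((m + 1) * (k + 1))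
  refine ⟨w, fun x y => ?_⟩
  have e1 : ((x : ℕ) * (k + 1) + y) / (k + 1) = x := by
    rw [mul_comm, Nat.mul_add_div (Nat.succ_pos _), Nat.div_eq_of_lt y.2, add_zero]
  have e2 : ((x : ℕ) * (k + 1) + y) % (k + 1) = y := by
    rw [mul_comm, Nat.mul_add_mod, Nat.mod_eq_of_lt y.2]
  have hlt : (x : ℕ) * (k + 1) + y < (m + 1) * (k + 1) := by
    have h1 : (x : ℕ) + 1 ≤ m + 1 := x.2
    have h2 := Nat.mul_le_mul_right (k + 1) h1
    have h3 := y.2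
    have h4 : ((x : ℕ) + 1) * (k + 1) = (x : ℕ) * (k + 1) + (k + 1) := by ring
    omega
  rw [h _ hlt]
  have h5 : ((x : ℕ) * (k + 1) + y) / (k + 1) < m + 1 := by
    rw [e1]
    exact x.2
  simp only [dif_pos h5]
  have e3 : (⟨((x : ℕ) * (k + 1) + y) / (k + 1), h5⟩ : Fin (m + 1)) = x := Fin.ext e1
  have e4 : (⟨((x : ℕ) * (k + 1) + y) % (k + 1), Nat.mod_lt _ (Nat.succ_pos _)⟩ :
    Fin (k + 1)) = y := Fin.ext e2
  rw [e3, e4]

theorem f02_pcode {a b d : ℕ} (X : PD (Fin (a + 1)) (Fin (b + 1)) (Fin (d + 1))) (hX : X.Ok)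
    (δ : Fin (a + 1) → Fin (b + 1)) (r : Fin (a + 1) → ℕ) :
    ∃ R : List ℕ × List PI × List ℕ, toPD ((a, b, d), R) = X ∧ toDl ((a, b, d), R) = δ ∧
      (fun v : Fin (a + 1) => hRk ((a, b, d), R) v) = r := by
  obtain ⟨t0, h0⟩ := f02_tab1 X.o
  obtain ⟨t1, h1⟩ := f02_tab1 X.i
  obtain ⟨t2, h2⟩ := f02_tab2 X.m
  obtain ⟨t3, h3⟩ := f02_tab1 (m := 0) (fun _ => X.e)
  obtain ⟨t4, h4⟩ := f02_tab2 X.aP
  obtain ⟨t5, h5⟩ := f02_tab2 X.aA
  obtain ⟨t6, h6⟩ := f02_tab1 (n := 1) (fun x => if X.ep x = 1 then 0 else 1)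
  obtain ⟨t8, h8⟩ := f02_tab1 δ
  choose z hz using fun x => iv_surj (X.de x)
  have hR := hX.R0
  refine ⟨([t0, t1, t2, t3, t4, t5, t6, X.R.toNat - 1, t8], List.ofFn z, List.ofFn r), ?_, ?_, ?_⟩
  · apply f02_ext
    · funext x
      exact Fin.ext (h0 x)
    · funext x
      exact Fin.ext (h1 x)
    · funext x y
      exact Fin.ext (h2 x y)
    · exact Fin.ext (h3 0)
    · funext x y
      exact Fin.ext (h4 x y)
    · funext x y
      exact Fin.ext (h5 x y)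
    · funext x
      show (-1) ^ CB.dg 1 t6 x = X.ep x
      rw [h6 x]
      rcases hX.ep1 x with h | h
      · rw [if_pos h, h]
        rfl
      · rw [if_neg (by rw [h]; norm_num), h]
        rfl
    · funext x
      show iv ((List.ofFn z).getD x (0, 0)) = X.de x
      rw [c04_getD]
      exact hz x
    · show (((X.R.toNat - 1 + 1 : ℕ)) : ℤ) = X.R
      omega
  · funext v
    exact Fin.ext (h8 v)
  · funext v
    exact c04_getD r 0 v

theorem pcode_exists {E : Type} [Group E] {c : E} (h : PieceG E c) :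
    ∃ c0 : PCd, PVal c0 ∧ ∃ F : E ≃* (pPres c0).Grp, F c = zv (pPres c0) := by
  obtain ⟨a, b, d, X, δ, r, V, _, S, q, D, p, al, hX, hN, hs, hp⟩ := piece_code h
  obtain ⟨R, e1, e2, e3⟩ := f02_pcode X hX δ r
  subst e1 e2 e3
  obtain ⟨t, F, -, -, hF, -⟩ := pc_pres hX hp hs
  obtain ⟨F', -, -, hF', -⟩ := pe (c := ((a, b, d), R)) hX
  refine ⟨((a, b, d), R), ⟨hX, hN, hs⟩, F.symm.trans F', ?_⟩
  show F' (F.symm c) = _
  rw [← hF, F.symm_apply_apply]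
  exact hF'

/-! ### Codes of edges -/

theorem f02_ecode (c : PCd) (e : EDat (Fin (pa c + 1)) (Fin (pb c + 1)) (Fin (pd c + 1)))
    (pc fl : ℕ) (ze om : PV) : ∃ e0 : ECd, e0.1.1 = pc ∧ e0.1.2.1 = fl ∧ e0.2.2.2 = (ze, om) ∧
      toE c e0 = e := by
  obtain ⟨v, γ, xh, kh, y, kb⟩ := e
  obtain ⟨n, hn⟩ := iv_surj kh
  obtain ⟨m, hm⟩ := iv_surj kb
  refine ⟨((pc, fl, (v : ℕ)), γ.map (fun a : Fin (pb c + 1) => (a : ℕ)), (((xh : ℕ), n), ((y : ℕ), m)), (ze, om)),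
    rfl, rfl, rfl, ?_⟩
  unfold toE
  dsimp only
  have e1 : (⟨(v : ℕ) % (pa c + 1), Nat.mod_lt _ (Nat.succ_pos _)⟩ : Fin (pa c + 1)) = v :=
    Fin.ext (Nat.mod_eq_of_lt v.2)
  have e2 : (⟨(xh : ℕ) % (pd c + 1), Nat.mod_lt _ (Nat.succ_pos _)⟩ : Fin (pd c + 1)) = xh :=
    Fin.ext (Nat.mod_eq_of_lt xh.2)
  have e3 : (⟨(y : ℕ) % (pd c + 1), Nat.mod_lt _ (Nat.succ_pos _)⟩ : Fin (pd c + 1)) = y :=
    Fin.ext (Nat.mod_eq_of_lt y.2)
  have e4 : (γ.map (fun a : Fin (pb c + 1) => (a : ℕ))).map (fun x => (⟨x % (pb c + 1),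
      Nat.mod_lt _ (Nat.succ_pos _)⟩ : Fin (pb c + 1))) = γ := by
    rw [List.map_map]
    conv_rhs => rw [← List.map_id γ]
    apply List.map_congr_left
    intro a _
    exact Fin.ext (Nat.mod_eq_of_lt a.2)
  rw [e1, e2, e3, e4, hn, hm]

theorem ecode_exists {c : PCd} (h : PVal c) {hh bb : (pPres c).Grp} (com : hh * bb = bb * hh)
    (hb : ∃ m : ℕ, 0 < m ∧ bb ^ m = zv (pPres c))
    (hy : ∀ k j : ℤ, k ≠ 0 → hh ^ k ≠ zv (pPres c) ^ j) (pc fl : ℕ) (ze om : PV) :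
    ∃ e : ECd, e.1.1 = pc ∧ e.1.2.1 = fl ∧ e.2.2.2 = (ze, om) ∧ (toE c e).Ok (toPD c) ∧
      ∃ g : (pPres c).Grp, g * hh * g⁻¹ = wv (pPres c) (hW c e) ∧
        g * bb * g⁻¹ = wv (pPres c) (bW c e) := by
  obtain ⟨F, -, -, hFc, hFh, hFb⟩ := pe h.1
  obtain ⟨V, _, S, q, D, p, al, t, hG⟩ := pg_exists h.1 h.2.2
  obtain ⟨hh, rfl⟩ := F.surjective hh
  obtain ⟨bb, rfl⟩ := F.surjective bb
  obtain ⟨e, g, he, e1, e2⟩ := edat_exists (hh := hh) (bb := bb) h.1 hG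
    (F.injective (by rw [map_mul, map_mul, com]))
    (by
      obtain ⟨m, hm, h1⟩ := hb
      refine ⟨m, hm, F.injective ?_⟩
      rw [map_pow, h1, hFc])
    (by
      intro k j hk h1
      apply hy k j hk
      rw [← map_zpow, h1, map_zpow, hFc])
  obtain ⟨e0, h1, h2, h3, h4⟩ := f02_ecode c e pc fl ze om
  subst h4
  refine ⟨e0, h1, h2, h3, he, F g, ?_, ?_⟩
  · rw [← map_mul, ← map_inv, ← map_mul, e1, hFh]
  · rw [← map_mul, ← map_inv, ← map_mul, e2, hFb]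

theorem esep_code {c : PCd} (h : PVal c) {e f : ECd} (he : (toE c e).Ok (toPD c))
    (hf : (toE c f).Ok (toPD c)) {same : Prop} (hef : same → e = f)
    (hs : ∀ (x : (pPres c).Grp) (k i j : ℤ), k ≠ 0 →
      x * wv (pPres c) (hW c e) ^ k * x⁻¹ =
        wv (pPres c) (hW c f) ^ i * wv (pPres c) (bW c f) ^ j →
      same ∧ ∃ i j : ℤ, x = wv (pPres c) (hW c f) ^ i * wv (pPres c) (bW c f) ^ j) :
    ESep (toPD c) same (toE c e) (toE c f) := by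
  obtain ⟨F, -, -, hFc, hFh, hFb⟩ := pe h.1
  obtain ⟨V, _, S, q, D, p, al, t, hG⟩ := pg_exists h.1 h.2.2
  refine esep_of h.1 hG he hf (fun hh => by rw [hef hh]) ?_
  intro x k i j hk hx
  have h1 := congrArg F hx
  rw [map_mul, map_mul, map_mul, map_inv, map_zpow, map_zpow, map_zpow, hFh, hFh, hFb] at h1
  obtain ⟨hsame, i', j', hij⟩ := hs (F x) k i j hk h1
  refine ⟨hsame, i', j', F.injective ?_⟩
  rw [hij, map_mul, map_zpow, map_zpow, hFh, hFb]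

/-! ### Codes of data -/

theorem f02_dt (om ze : ℤ × ℤ) (h : dt om ze = 1) (i j : ℤ) :
    ∃ v : ℤ × ℤ, dt v ze = i ∧ dt om v = j := by
  refine ⟨(i * om.1 + j * ze.1, i * om.2 + j * ze.2), ?_, ?_⟩
  · unfold dt at h ⊢
    dsimp only
    linear_combination i * h
  · unfold dt at h ⊢
    dsimp only
    linear_combination j * h

theorem f02_sep {K K' : Type} [Group K] [Group K'] (F : K ≃* K') {he hf bf : K} {He Hf Bf ge gf : K'}
    (e1 : ge * F he * ge⁻¹ = He) (e2 : gf * F hf * gf⁻¹ = Hf) (e3 : gf * F bf * gf⁻¹ = Bf)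
    {same : Prop} (hsame : same → ge = gf)
    (hs : ∀ (x : K) (k i j : ℤ), k ≠ 0 → x * he ^ k * x⁻¹ = hf ^ i * bf ^ j →
      same ∧ ∃ i j : ℤ, x = hf ^ i * bf ^ j) (x : K') (k i j : ℤ) (hk : k ≠ 0)
    (hx : x * He ^ k * x⁻¹ = Hf ^ i * Bf ^ j) : same ∧ ∃ i j : ℤ, x = Hf ^ i * Bf ^ j := by
  have c1 : ∀ k : ℤ, He ^ k = ge * F he ^ k * ge⁻¹ := fun k => by rw [← e1, conj_zpow]
  have c2 : ∀ k : ℤ, Hf ^ k = gf * F hf ^ k * gf⁻¹ := fun k => by rw [← e2, conj_zpow]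
  have c3 : ∀ k : ℤ, Bf ^ k = gf * F bf ^ k * gf⁻¹ := fun k => by rw [← e3, conj_zpow]
  obtain ⟨y, hy⟩ := F.surjective (gf⁻¹ * x * ge)
  have h1 : y * he ^ k * y⁻¹ = hf ^ i * bf ^ j := by
    apply F.injective
    rw [map_mul, map_mul, map_mul, map_inv, map_zpow, map_zpow, map_zpow, hy]
    have h2 : gf⁻¹ * x * ge * F he ^ k * (gf⁻¹ * x * ge)⁻¹ =
        gf⁻¹ * (x * (ge * F he ^ k * ge⁻¹) * x⁻¹) * gf := by group
    rw [h2, ← c1, hx, c2, c3]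
    group
  obtain ⟨hsm, i', j', hij⟩ := hs y k i j hk h1
  refine ⟨hsm, i', j', ?_⟩
  have h2 := congrArg F hij
  rw [hy, map_mul, map_zpow, map_zpow, hsame hsm] at h2
  rw [c2, c3]
  calc x = gf * (gf⁻¹ * x * gf) * gf⁻¹ := by group
    _ = gf * (F hf ^ i' * F bf ^ j') * gf⁻¹ := by rw [h2]
    _ = gf * F hf ^ i' * gf⁻¹ * (gf * F bf ^ j' * gf⁻¹) := by group

theorem code_data {a b d : ℕ} {K : Fin (a + 1) → Type} [∀ p, Group (K p)]
    (D : TD (Fin (a + 1)) (Fin (b + 1)) (Fin (d + 1)) K) (hD : D.Ok) {p0 : Fin (a + 1)}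
    {ep : Fin (a + 1) → Fin (d + 1)} {ef : Fin (b + 1) → Fin (d + 1)} {rp : Fin (a + 1) → ℕ}
    {rq : Fin (b + 1) → ℕ} (hT : TTr D p0 ep ef rp rq) :
    ∃ c : Cd, CVal c ∧ ∃ (sp : Fin (a + 1) ≃ Fin (nP c + 1)) (sf : Fin (b + 1) ≃ Fin (nQ c + 1))
      (se : Fin (d + 1) ≃ Fin (nE c + 1)), TEq D (toTD c) sp sf se := by
  choose pcode hv F hF using fun p => pcode_exists (hD.pg p)
  choose z hz using fun e => vv_surj (D.ze e)
  choose o ho using fun e => vv_surj (D.om e)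
  have hec : ∀ e : Fin (d + 1), ∃ c0 : ECd, c0.1.1 = (D.pc e : ℕ) ∧ c0.1.2.1 = (D.fl e : ℕ) ∧
      c0.2.2.2 = (z e, o e) ∧ (toE (pcode (D.pc e)) c0).Ok (toPD (pcode (D.pc e))) ∧
      ∃ g : (pPres (pcode (D.pc e))).Grp,
        g * F (D.pc e) (D.h (D.pc e) e) * g⁻¹ = wv _ (hW (pcode (D.pc e)) c0) ∧
        g * F (D.pc e) (D.b (D.pc e) e) * g⁻¹ = wv _ (bW (pcode (D.pc e)) c0) := by
    intro e
    refine ecode_exists (hv (D.pc e)) ?_ ?_ ?_ _ _ _ _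
    · rw [← map_mul, ← map_mul, hD.com _ _ rfl]
    · obtain ⟨m, hm, h1⟩ := hD.bc _ e rfl
      refine ⟨m, hm, ?_⟩
      rw [← map_pow, h1, hF]
    · intro k j hk h1
      apply hD.hh _ e rfl k j hk
      apply (F (D.pc e)).injective
      rw [map_zpow, map_zpow, hF]
      exact h1
  choose ecode h1 h2 h3 h4 g hg1 hg2 using hec
  obtain ⟨r, hr⟩ : ∃ r : List PCd × List ECd × TrC, r = (List.ofFn pcode,
    List.ofFn ecode, ((p0 : ℕ), List.ofFn (fun p => (ep p : ℕ)), List.ofFn (fun q => (ef q : ℕ)),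
      List.ofFn rp, List.ofFn rq)) := ⟨_, rfl⟩
  have k1 : ∀ p : Fin (a + 1), pcd ((a, b, d), r) p = pcode p := fun p => by
    rw [hr]
    exact c04_getD pcode dPc p
  have k2 : ∀ e : Fin (d + 1), ecd ((a, b, d), r) e = ecode e := fun e => by
    rw [hr]
    exact c04_getD ecode dEc e
  have k3 : ∀ e : Fin (d + 1), kpc ((a, b, d), r) e = D.pc e := fun e => by
    rw [kpc, k2, h1]
    exact Nat.mod_eq_of_lt (D.pc e).2
  have k4 : ∀ e : Fin (d + 1), kfl ((a, b, d), r) e = D.fl e := fun e => by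
    rw [kfl, k2, h2]
    exact Nat.mod_eq_of_lt (D.fl e).2
  have k5 : ∀ e : Fin (d + 1), vv (kze ((a, b, d), r) e) = D.ze e := fun e => by
    rw [kze, k2, h3]
    exact hz e
  have k6 : ∀ e : Fin (d + 1), vv (kom ((a, b, d), r) e) = D.om e := fun e => by
    rw [kom, k2, h3]
    exact ho e
  have k7 : kp0 ((a, b, d), r) = p0 := by
    rw [hr]
    exact Nat.mod_eq_of_lt p0.2
  have k8 : ∀ p : Fin (a + 1), kep ((a, b, d), r) p = ep p := fun p => by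
    rw [hr]
    show (List.ofFn (fun p => (ep p : ℕ))).getD p 0 % (d + 1) = ep p
    rw [c04_getD]
    exact Nat.mod_eq_of_lt (ep p).2
  have k9 : ∀ q : Fin (b + 1), kef ((a, b, d), r) q = ef q := fun q => by
    rw [hr]
    show (List.ofFn (fun q => (ef q : ℕ))).getD q 0 % (d + 1) = ef q
    rw [c04_getD]
    exact Nat.mod_eq_of_lt (ef q).2
  have k10 : ∀ p : Fin (a + 1), krp ((a, b, d), r) p = rp p := fun p => by
    rw [hr]
    exact c04_getD rp 0 p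
  have k11 : ∀ q : Fin (b + 1), krq ((a, b, d), r) q = rq q := fun q => by
    rw [hr]
    exact c04_getD rq 0 q
  -- everything at a piece
  have key : ∀ p : Fin (a + 1), ∃ (Fp : K p ≃* (pPres (pcd ((a, b, d), r) p)).Grp)
      (γ : Fin (d + 1) → (pPres (pcd ((a, b, d), r) p)).Grp), ∀ e, D.pc e = p →
      (toE (pcd ((a, b, d), r) p) (ecd ((a, b, d), r) e)).Ok (toPD (pcd ((a, b, d), r) p)) ∧
      γ e * Fp (D.h p e) * (γ e)⁻¹ = wv _ (hW (pcd ((a, b, d), r) p) (ecd ((a, b, d), r) e)) ∧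
      γ e * Fp (D.b p e) * (γ e)⁻¹ = wv _ (bW (pcd ((a, b, d), r) p) (ecd ((a, b, d), r) e)) := by
    intro p
    rw [k1]
    have h5 : ∀ e, ∃ γ : (pPres (pcode p)).Grp, D.pc e = p →
        (toE (pcode p) (ecode e)).Ok (toPD (pcode p)) ∧
        γ * F p (D.h p e) * γ⁻¹ = wv _ (hW (pcode p) (ecode e)) ∧
        γ * F p (D.b p e) * γ⁻¹ = wv _ (bW (pcode p) (ecode e)) := by
      intro e
      by_cases hp : D.pc e = p
      · subst hp
        exact ⟨g e, fun _ => ⟨h4 e, hg1 e, hg2 e⟩⟩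
      · exact ⟨1, fun h => absurd h hp⟩
    choose γ hγ using h5
    refine ⟨F p, γ, fun e he => ?_⟩
    rw [k2]
    exact hγ e he
  choose Φ γ hΦ using key
  refine ⟨((a, b, d), r), ?_, Equiv.refl _, Equiv.refl _, Equiv.refl _, ?_⟩
  · refine ⟨?_, ?_, ?_, ?_, ?_, ?_, ?_, ?_⟩
    · intro p hp
      have := k1 ⟨p, hp⟩
      have h5 := hv ⟨p, hp⟩
      rw [← this] at h5
      exact h5
    · intro e he
      have h5 := (hΦ (D.pc ⟨e, he⟩) ⟨e, he⟩ rfl).1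
      have h6 := k3 ⟨e, he⟩
      rw [← h6] at h5
      exact h5
    · intro e he f hf hef
      have he3 := k3 ⟨e, he⟩
      have hf3 := k3 ⟨f, hf⟩
      have hpc : D.pc ⟨f, hf⟩ = D.pc ⟨e, he⟩ := by
        apply Fin.ext
        rw [← he3, ← hf3]
        exact hef.symm
      have he4 : kpc ((a, b, d), r) e = D.pc ⟨e, he⟩ := he3
      rw [he4]
      obtain ⟨a1, a2, a3⟩ := hΦ (D.pc ⟨e, he⟩) ⟨e, he⟩ rfl
      obtain ⟨b1, b2, b3⟩ := hΦ (D.pc ⟨e, he⟩) ⟨f, hf⟩ hpc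
      have hPv : PVal (pcd ((a, b, d), r) (D.pc ⟨e, he⟩)) := by
        rw [k1]
        exact hv _
      refine esep_code hPv a1 b1 (fun hh => by subst hh; rfl) ?_
      refine f02_sep (Φ (D.pc ⟨e, he⟩)) a2 b2 b3 (fun hh => by subst hh; rfl) ?_
      intro x k i j hk hx
      obtain ⟨v, hv1, hv2⟩ := f02_dt _ _ (hD.det ⟨f, hf⟩) i j
      obtain ⟨h6, v', hv'⟩ := hD.sep (D.pc ⟨e, he⟩) ⟨e, he⟩ ⟨f, hf⟩ rfl hpc x k
        (Multiplicative.ofAdd v) hk (by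
          rw [hx]
          unfold TD.em
          rw [toAdd_ofAdd, hv1, hv2])
      refine ⟨Fin.ext_iff.1 h6, dt v'.toAdd (D.ze ⟨e, he⟩), dt (D.om ⟨e, he⟩) v'.toAdd, ?_⟩
      rw [← hv', ← h6]
      rfl
    · intro e he
      rw [peq_iff, iv_pdt]
      have h5 := k5 ⟨e, he⟩
      have h6 := k6 ⟨e, he⟩
      have h5' : vv (kze ((a, b, d), r) e) = D.ze ⟨e, he⟩ := h5
      have h6' : vv (kom ((a, b, d), r) e) = D.om ⟨e, he⟩ := h6
      rw [h5', h6', hD.det]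
      rfl
    · intro e he f hf hne hfl
      rw [peq_iff, iv_pdt]
      have h5 : vv (kze ((a, b, d), r) e) = D.ze ⟨e, he⟩ := k5 ⟨e, he⟩
      have h6 : vv (kze ((a, b, d), r) f) = D.ze ⟨f, hf⟩ := k5 ⟨f, hf⟩
      have h7 : kfl ((a, b, d), r) e = D.fl ⟨e, he⟩ := k4 ⟨e, he⟩
      have h8 : kfl ((a, b, d), r) f = D.fl ⟨f, hf⟩ := k4 ⟨f, hf⟩
      rw [h5, h6]
      refine hD.ind ⟨e, he⟩ ⟨f, hf⟩ (fun hh => hne (Fin.ext_iff.1 hh)) ?_
      apply Fin.ext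
      rw [← h7, ← h8, hfl]
    · intro q hq
      obtain ⟨e, f, hne, he, hf⟩ := hD.two ⟨q, hq⟩
      refine ⟨e, e.2, f, f.2, fun hh => hne (Fin.ext hh), ?_, ?_⟩
      · rw [k4, he]
      · rw [k4, hf]
    · intro p hp hp0
      have h5 : kep ((a, b, d), r) p = ep ⟨p, hp⟩ := k8 ⟨p, hp⟩
      have h6 := hT.ep ⟨p, hp⟩ (fun hh => hp0 (by
        rw [k7, ← hh]))
      have h7 : krp ((a, b, d), r) p = rp ⟨p, hp⟩ := k10 ⟨p, hp⟩
      rw [h5, k3, k4, k11, h7]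
      exact ⟨Fin.ext_iff.1 h6.1, h6.2⟩
    · intro q hq
      have h5 : kef ((a, b, d), r) q = ef ⟨q, hq⟩ := k9 ⟨q, hq⟩
      have h6 := hT.ef ⟨q, hq⟩
      have h7 : krq ((a, b, d), r) q = rq ⟨q, hq⟩ := k11 ⟨q, hq⟩
      rw [h5, k3, k4, k10, h7]
      exact ⟨Fin.ext_iff.1 h6.1, h6.2⟩
  · refine ⟨fun e => Fin.ext (k3 e), fun e => Fin.ext (k4 e), Φ, fun _ => MulEquiv.refl _,
      fun p e => (Φ p).symm (γ p e), ?_⟩
    intro p e v hp
    obtain ⟨-, a2, a3⟩ := hΦ p e hp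
    show wv (pPres (pcd ((a, b, d), r) p)) (hW (pcd ((a, b, d), r) p) (ecd ((a, b, d), r) e)) ^
        dt v.toAdd (vv (kze ((a, b, d), r) e)) *
      wv (pPres (pcd ((a, b, d), r) p)) (bW (pcd ((a, b, d), r) p) (ecd ((a, b, d), r) e)) ^
        dt (vv (kom ((a, b, d), r) e)) v.toAdd =
      Φ p ((Φ p).symm (γ p e)) * Φ p (D.em p e v) * (Φ p ((Φ p).symm (γ p e)))⁻¹
    rw [k5, k6, (Φ p).apply_symm_apply]
    unfold TD.em
    rw [map_mul, map_zpow, map_zpow, ← a2, ← a3, conj_zpow, conj_zpow]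
    group

end VF
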