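import Pool.Agent.Lib.MP_32d917_al_vf.H05

/-!
# F03: the presentation of a code is computable

As in adm/C06: `P.1` = a bound for all used numbers (function of `Encodable.encode c`), `P.2` = the list of the relators (`unused` for `j < P.1`).
-/

set_option autoImplicit false
set_option synthInstance.maxSize 2000

namespace VF

open LatIso LatN AdmIso

section

variable {β : Type} [Primcodable β] {f : β → Cd} {g : β → ℕ}

theorem p_nP (hf : Primrec f) : Primrec fun x => nP (f x) :=
  CB.p_fst (CB.p_fst hf)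

theorem p_nQ (hf : Primrec f) : Primrec fun x => nQ (f x) :=
  CB.p_fst (CB.p_snd (CB.p_fst hf))

theorem p_nE (hf : Primrec f) : Primrec fun x => nE (f x) :=
  CB.p_snd (CB.p_snd (CB.p_fst hf))

theorem p_pcd (hf : Primrec f) (hg : Primrec g) : Primrec fun x => pcd (f x) (g x) :=
  C05_getD dPc (CB.p_fst (CB.p_snd hf)) hg

theorem p_ecd (hf : Primrec f) (hg : Primrec g) : Primrec fun x => ecd (f x) (g x) :=
  C05_getD dEc (CB.p_fst (CB.p_snd (CB.p_snd hf))) hg

theorem p_kpc (hf : Primrec f) (hg : Primrec g) : Primrec fun x => kpc (f x) (g x) :=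
  CB.p_mod (CB.p_fst (CB.p_fst (p_ecd hf hg))) (CB.p_add (p_nP hf) (Primrec.const 1))

theorem p_kfl (hf : Primrec f) (hg : Primrec g) : Primrec fun x => kfl (f x) (g x) :=
  CB.p_mod (CB.p_fst (CB.p_snd (CB.p_fst (p_ecd hf hg)))) (CB.p_add (p_nQ hf) (Primrec.const 1))

theorem p_kze (hf : Primrec f) (hg : Primrec g) : Primrec fun x => kze (f x) (g x) :=
  CB.p_fst (CB.p_snd (CB.p_snd (CB.p_snd (p_ecd hf hg))))

theorem p_kom (hf : Primrec f) (hg : Primrec g) : Primrec fun x => kom (f x) (g x) :=
  CB.p_snd (CB.p_snd (CB.p_snd (CB.p_snd (p_ecd hf hg))))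

theorem p_kp0 (hf : Primrec f) : Primrec fun x => kp0 (f x) :=
  CB.p_mod (CB.p_fst (CB.p_snd (CB.p_snd (CB.p_snd hf)))) (CB.p_add (p_nP hf) (Primrec.const 1))

theorem p_kep (hf : Primrec f) (hg : Primrec g) : Primrec fun x => kep (f x) (g x) :=
  CB.p_mod (C05_getD 0 (CB.p_fst (CB.p_snd (CB.p_snd (CB.p_snd (CB.p_snd hf))))) hg)
    (CB.p_add (p_nE hf) (Primrec.const 1))

theorem p_kef (hf : Primrec f) (hg : Primrec g) : Primrec fun x => kef (f x) (g x) :=
  CB.p_mod (C05_getD 0 (CB.p_fst (CB.p_snd (CB.p_snd (CB.p_snd (CB.p_snd (CB.p_snd hf)))))) hg)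
    (CB.p_add (p_nE hf) (Primrec.const 1))

theorem p_krp (hf : Primrec f) (hg : Primrec g) : Primrec fun x => krp (f x) (g x) :=
  C05_getD 0 (CB.p_fst (CB.p_snd (CB.p_snd (CB.p_snd (CB.p_snd (CB.p_snd (CB.p_snd hf))))))) hg

theorem p_krq (hf : Primrec f) (hg : Primrec g) : Primrec fun x => krq (f x) (g x) :=
  C05_getD 0 (CB.p_snd (CB.p_snd (CB.p_snd (CB.p_snd (CB.p_snd (CB.p_snd (CB.p_snd hf))))))) hg

end

/-! ### Bounds -/

/-- elements of a list have codes at most the code of the list -/
theorem F03_getD {α : Type} [Encodable α] (d : α) (hd : Encodable.encode d = 0) (l : List α)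
    (p : ℕ) : Encodable.encode (l.getD p d) ≤ Encodable.encode l := by
  induction l generalizing p with
  | nil => simp [hd]
  | cons a l ih =>
    rw [Encodable.encode_list_cons]
    cases p with
    | zero =>
      have h1 := Nat.left_le_pair (Encodable.encode a) (Encodable.encode l)
      simpa using Nat.le_succ_of_le h1
    | succ p =>
      have h1 := ih p
      have h2 := Nat.right_le_pair (Encodable.encode a) (Encodable.encode l)
      simpa using Nat.le_succ_of_le (h1.trans h2)

theorem F03_dPc : Encodable.encode dPc = 0 := by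
  unfold dPc
  simp [Encodable.encode_prod_val, Nat.pair]

theorem F03_nP (c : Cd) : nP c ≤ Encodable.encode c := by
  have h1 := C06_fst c.1
  have h2 := C06_fst c
  exact (show nP c ≤ Encodable.encode c.1.1 from le_refl _).trans (h1.trans h2)

theorem F03_nQ (c : Cd) : nQ c ≤ Encodable.encode c := by
  have h0 := C06_fst c.1.2
  have h1 := C06_snd c.1
  have h2 := C06_fst c
  exact (show nQ c ≤ Encodable.encode c.1.2.1 from le_refl _).trans (h0.trans (h1.trans h2))

theorem F03_nE (c : Cd) : nE c ≤ Encodable.encode c := by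
  have h0 := C06_snd c.1.2
  have h1 := C06_snd c.1
  have h2 := C06_fst c
  exact (show nE c ≤ Encodable.encode c.1.2.2 from le_refl _).trans (h0.trans (h1.trans h2))

theorem F03_pcd (c : Cd) (p : ℕ) : Encodable.encode (pcd c p) ≤ Encodable.encode c := by
  have h0 := F03_getD dPc F03_dPc c.2.1 p
  have h1 := C06_fst c.2
  have h2 := C06_snd c
  exact h0.trans (h1.trans h2)

theorem F03_pa (c : PCd) : pa c ≤ Encodable.encode c := by
  have h1 := C06_fst c.1
  have h2 := C06_fst c
  exact (show pa c ≤ Encodable.encode c.1.1 from le_refl _).trans (h1.trans h2)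

theorem F03_pb (c : PCd) : pb c ≤ Encodable.encode c := by
  have h0 := C06_fst c.1.2
  have h1 := C06_snd c.1
  have h2 := C06_fst c
  exact (show pb c ≤ Encodable.encode c.1.2.1 from le_refl _).trans (h0.trans (h1.trans h2))

theorem F03_pd (c : PCd) : pd c ≤ Encodable.encode c := by
  have h0 := C06_snd c.1.2
  have h1 := C06_snd c.1
  have h2 := C06_fst c
  exact (show pd c ≤ Encodable.encode c.1.2.2 from le_refl _).trans (h0.trans (h1.trans h2))

/-- bound for the generators -/
def F03_B (c : Cd) : ℕ :=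
  (((Encodable.encode c + 3) * (Encodable.encode c + 3)) *
      ((Encodable.encode c + 3) * (Encodable.encode c + 3))) *
    (((Encodable.encode c + 3) * (Encodable.encode c + 3)) *
      ((Encodable.encode c + 3) * (Encodable.encode c + 3)))

theorem F03_ng (c : Cd) (p : ℕ) :
    ng (pcd c p) < (Encodable.encode c + 3) * (Encodable.encode c + 3) := by
  have h0 := F03_pcd c p
  have h1 := (F03_pa (pcd c p)).trans h0
  have h2 := (F03_pb (pcd c p)).trans h0
  have h3 := (F03_pd (pcd c p)).trans h0
  unfold ng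
  set K := Encodable.encode c with hK
  have h4 : (pd (pcd c p) + 1) * (pa (pcd c p) + 1) ≤ (K + 1) * (K + 1) :=
    Nat.mul_le_mul (by omega) (by omega)
  have h5 : (K + 3) * (K + 3) = (K + 1) * (K + 1) + 4 * K + 8 := by ring
  omega

theorem F03_used (c : Cd) (j : ℕ) (h : UsedN c j) : j < F03_B c := by
  have h1 := F03_nP c
  have h2 := F03_nQ c
  have h3 := F03_nE c
  have h4 := fun p => F03_ng c p
  have hB : F03_B c = (((Encodable.encode c + 3) * (Encodable.encode c + 3)) *
      ((Encodable.encode c + 3) * (Encodable.encode c + 3))) *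
    (((Encodable.encode c + 3) * (Encodable.encode c + 3)) *
      ((Encodable.encode c + 3) * (Encodable.encode c + 3))) := rfl
  rw [hB]
  set K := Encodable.encode c with hK
  set M := (K + 3) * (K + 3) with hM
  have hKM : K + 3 ≤ M := Nat.le_mul_of_pos_left _ (by omega)
  have hMM : M ≤ M * M := Nat.le_mul_of_pos_left _ (by omega)
  have hj : j = Nat.pair j.unpair.1 j.unpair.2 := (Nat.pair_unpair j).symm
  have hj2 : j.unpair.2 = Nat.pair j.unpair.2.unpair.1 j.unpair.2.unpair.2 :=
    (Nat.pair_unpair _).symm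
  rcases h with ⟨ha, hb, hc⟩ | ⟨ha, hb, hc⟩ | ⟨ha, hb⟩
  · rw [hj, ha]
    refine C06_pair (by omega) ?_
    rw [hj2]
    have h5 := h4 j.unpair.2.unpair.1
    exact C06_pair (by omega) (by omega)
  · rw [hj, ha]
    refine C06_pair (by omega) ?_
    rw [hj2]
    exact C06_pair (by omega) (by omega)
  · rw [hj, ha]
    exact C06_pair (by omega) (by omega)

noncomputable section

open Classical in
/-- the relators -/
def F03_L (c : Cd) : List Wd :=
  ((List.range (nP c + 1)).flatMap fun p => (PRl (pcd c p)).map fun w => ren p w) ++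
  (((List.range (nQ c + 1)).map fun q => cmW (ja q 0) (ja q 1)) ++
  (((List.range (nE c + 1)).flatMap fun e => (List.range 2).map fun s => jrel c e s) ++
  (((List.range (nP c + 1)).flatMap fun p => if p = kp0 c then [] else [[(jy (kep c p), true)]]) ++
  (((List.range (nQ c + 1)).map fun q => [(jy (kef c q), true)]) ++
  ((List.range (F03_B c)).flatMap fun j => if UsedN c j then [] else [[(j, true)]])))))

end

theorem F03_mem (c : Cd) (w : Wd) (hw : w ∈ F03_L c) : RelC c w := by
  classical
  unfold F03_L at hw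
  rw [List.mem_append, List.mem_append, List.mem_append, List.mem_append, List.mem_append] at hw
  rcases hw with hw | hw | hw | hw | hw | hw
  · rw [List.mem_flatMap] at hw
    obtain ⟨p, hp, hw⟩ := hw
    rw [List.mem_map] at hw
    obtain ⟨v, hv, rfl⟩ := hw
    exact RelC.piece p v (List.mem_range.1 hp) hv
  · rw [List.mem_map] at hw
    obtain ⟨q, hq, rfl⟩ := hw
    exact RelC.flat q (List.mem_range.1 hq)
  · rw [List.mem_flatMap] at hw
    obtain ⟨e, he, hw⟩ := hw
    rw [List.mem_map] at hw
    obtain ⟨s, hs, rfl⟩ := hw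
    exact RelC.edge e s (List.mem_range.1 he) (List.mem_range.1 hs)
  · rw [List.mem_flatMap] at hw
    obtain ⟨p, hp, hw⟩ := hw
    split_ifs at hw with h
    · simp at hw
    · rw [List.mem_singleton] at hw
      subst hw
      exact RelC.treeP p (List.mem_range.1 hp) h
  · rw [List.mem_map] at hw
    obtain ⟨q, hq, rfl⟩ := hw
    exact RelC.treeQ q (List.mem_range.1 hq)
  · rw [List.mem_flatMap] at hw
    obtain ⟨j, hj, hw⟩ := hw
    split_ifs at hw with h
    · simp at hw
    · rw [List.mem_singleton] at hw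
      subst hw
      exact RelC.unused j h

theorem F03_rel (c : Cd) (w : Wd) (hw : RelC c w) :
    w ∈ F03_L c ∨ ∃ j, F03_B c ≤ j ∧ w = [(j, true)] := by
  classical
  unfold F03_L
  simp only [List.mem_append]
  cases hw with
  | piece p v hp hv =>
    left; left
    rw [List.mem_flatMap]
    exact ⟨p, List.mem_range.2 hp, List.mem_map.2 ⟨v, hv, rfl⟩⟩
  | flat q hq =>
    left; right; left
    exact List.mem_map.2 ⟨q, List.mem_range.2 hq, rfl⟩
  | edge e s he hs =>
    left; right; right; left
    rw [List.mem_flatMap]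
    exact ⟨e, List.mem_range.2 he, List.mem_map.2 ⟨s, List.mem_range.2 hs, rfl⟩⟩
  | treeP p hp h =>
    left; right; right; right; left
    rw [List.mem_flatMap]
    refine ⟨p, List.mem_range.2 hp, ?_⟩
    rw [if_neg h, List.mem_singleton]
  | treeQ q hq =>
    left; right; right; right; right; left
    exact List.mem_map.2 ⟨q, List.mem_range.2 hq, rfl⟩
  | unused j h =>
    by_cases hj : F03_B c ≤ j
    · right
      exact ⟨j, hj, rfl⟩
    · left; right; right; right; right; right
      rw [List.mem_flatMap]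
      refine ⟨j, List.mem_range.2 (not_le.1 hj), ?_⟩
      rw [if_neg h, List.mem_singleton]

/-! ### Primitive recursion -/

section

variable {β : Type} [Primcodable β]

theorem F03_pB {f : β → Cd} (hf : Primrec f) : Primrec fun x => F03_B (f x) := by
  unfold F03_B
  have h1 : Primrec fun x => Encodable.encode (f x) := Primrec.encode.comp hf
  have h2 : Primrec fun x => Encodable.encode (f x) + 3 := CB.p_add h1 (Primrec.const 3)
  have h3 := CB.p_mul h2 h2
  have h4 := CB.p_mul h3 h3
  exact CB.p_mul h4 h4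

theorem F03_pjp {f g : β → ℕ} (hf : Primrec f) (hg : Primrec g) :
    Primrec fun x => jp (f x) (g x) := by
  unfold jp
  exact C06_ppair (Primrec.const 0) (C06_ppair hf hg)

theorem F03_pja {f g : β → ℕ} (hf : Primrec f) (hg : Primrec g) :
    Primrec fun x => ja (f x) (g x) := by
  unfold ja
  exact C06_ppair (Primrec.const 1) (C06_ppair hf hg)

theorem F03_pjy {f : β → ℕ} (hf : Primrec f) : Primrec fun x => jy (f x) := by
  unfold jy
  exact C06_ppair (Primrec.const 2) hf

theorem F03_pren {f : β → ℕ} {l : β → Wd} (hf : Primrec f) (hl : Primrec l) :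
    Primrec fun x => ren (f x) (l x) := by
  unfold ren
  refine Primrec.list_map hl ?_
  exact CB.p_pair (F03_pjp (hf.comp Primrec.fst) (CB.p_fst Primrec.snd)) (CB.p_snd Primrec.snd)

theorem F03_pbas {f : β → ℕ} (hf : Primrec f) : Primrec fun x => bas (f x) := by
  unfold bas
  exact Primrec.ite (CB.pp_eq hf (Primrec.const 0)) (Primrec.const _) (Primrec.const _)

theorem F03_pjrel {f : β → Cd} {g s : β → ℕ} (hf : Primrec f) (hg : Primrec g) (hs : Primrec s) :
    Primrec fun x => jrel (f x) (g x) (s x) := by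
  unfold jrel
  have hpc := p_pcd hf (p_kpc hf hg)
  have hec := p_ecd hf hg
  have h1 := C06_ppwW (p_hW hpc hec) (p_pdt (F03_pbas hs) (p_kze hf hg))
  have h2 := C06_ppwW (p_bW hpc hec) (p_pdt (p_kom hf hg) (F03_pbas hs))
  have h3 := p_invRev (F03_pren (p_kpc hf hg) (Primrec.list_append.comp h1 h2))
  have h4 : Primrec fun x => ([(ja (kfl (f x) (g x)) (s x), true), (jy (g x), true)] : Wd) :=
    C06_pcons true (F03_pja (p_kfl hf hg) hs) (C06_pl1 true (F03_pjy hg))
  exact Primrec.list_append.comp (Primrec.list_append.comp h4 h3) (C06_pl1 false (F03_pjy hg))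

theorem F03_pused {f : β → Cd} {g : β → ℕ} (hf : Primrec f) (hg : Primrec g) :
    PrimrecPred fun x => UsedN (f x) (g x) := by
  unfold UsedN
  have hu : Primrec fun x => (g x).unpair := Primrec.unpair.comp hg
  have hu1 := CB.p_fst hu
  have hu2 := CB.p_snd hu
  have hv : Primrec fun x => ((g x).unpair.2).unpair := Primrec.unpair.comp hu2
  have hv1 := CB.p_fst hv
  have hv2 := CB.p_snd hv
  refine CB.pp_or (CB.pp_and (CB.pp_eq hu1 (Primrec.const 0))
    (CB.pp_and (CB.pp_lt hv1 (CB.p_add (p_nP hf) (Primrec.const 1)))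
      (CB.pp_lt hv2 (p_ng (p_pcd hf hv1))))) (CB.pp_or ?_ ?_)
  · exact CB.pp_and (CB.pp_eq hu1 (Primrec.const 1))
      (CB.pp_and (CB.pp_lt hv1 (CB.p_add (p_nQ hf) (Primrec.const 1)))
        (CB.pp_lt hv2 (Primrec.const 2)))
  · exact CB.pp_and (CB.pp_eq hu1 (Primrec.const 2))
      (CB.pp_lt hu2 (CB.p_add (p_nE hf) (Primrec.const 1)))

end

theorem F03_pL : Primrec F03_L := by
  classical
  unfold F03_L
  have hc : Primrec fun c : Cd => c := Primrec.id
  have hc1 : Primrec fun x : Cd × ℕ => x.1 := Primrec.fst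
  have hc2 : Primrec fun x : Cd × ℕ => x.2 := Primrec.snd
  have hd1 : Primrec fun x : (Cd × ℕ) × ℕ => x.1.1 := Primrec.fst.comp Primrec.fst
  have hd2 : Primrec fun x : (Cd × ℕ) × ℕ => x.1.2 := Primrec.snd.comp Primrec.fst
  have hd3 : Primrec fun x : (Cd × ℕ) × ℕ => x.2 := Primrec.snd
  have hw2 : Primrec fun x : (Cd × ℕ) × Wd => x.1.2 := Primrec.snd.comp Primrec.fst
  have hw3 : Primrec fun x : (Cd × ℕ) × Wd => x.2 := Primrec.snd
  have rP : Primrec fun c : Cd => List.range (nP c + 1) :=
    Primrec.list_range.comp (CB.p_add (p_nP hc) (Primrec.const 1))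
  have rQ : Primrec fun c : Cd => List.range (nQ c + 1) :=
    Primrec.list_range.comp (CB.p_add (p_nQ hc) (Primrec.const 1))
  have rE : Primrec fun c : Cd => List.range (nE c + 1) :=
    Primrec.list_range.comp (CB.p_add (p_nE hc) (Primrec.const 1))
  refine Primrec.list_append.comp ?_ (Primrec.list_append.comp ?_ (Primrec.list_append.comp ?_
    (Primrec.list_append.comp ?_ (Primrec.list_append.comp ?_ ?_))))
  · refine Primrec.list_flatMap rP ?_
    refine Primrec.list_map (p_PRl (p_pcd hc1 hc2)) ?_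
    exact F03_pren hw2 hw3
  · refine Primrec.list_map rQ ?_
    exact C06_pcmW (F03_pja hc2 (Primrec.const 0)) (F03_pja hc2 (Primrec.const 1))
  · refine Primrec.list_flatMap rE ?_
    refine Primrec.list_map (Primrec.const (List.range 2)) ?_
    exact F03_pjrel hd1 hd2 hd3
  · refine Primrec.list_flatMap rP ?_
    refine Primrec.ite (CB.pp_eq hc2 (p_kp0 hc1)) (Primrec.const []) ?_
    exact Primrec.list_cons.comp (C06_pl1 true (F03_pjy (p_kep hc1 hc2))) (Primrec.const [])
  · refine Primrec.list_map rQ ?_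
    exact C06_pl1 true (F03_pjy (p_kef hc1 hc2))
  · refine Primrec.list_flatMap (Primrec.list_range.comp (F03_pB hc)) ?_
    refine Primrec.ite (F03_pused hc1 hc2) (Primrec.const []) ?_
    exact Primrec.list_cons.comp (C06_pl1 true hc2) (Primrec.const [])

theorem isF_exists : ∃ f : Cd → Pres, Primrec f ∧ IsF f := by
  refine ⟨fun c => (F03_B c, F03_L c), Primrec.pair (F03_pB Primrec.id) F03_pL, ?_⟩
  intro c
  exact ⟨F03_used c, F03_mem c, F03_rel c⟩

end VF
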