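import Pool.Agent.Lib.MP_32d917_al_vf.G01

/-!
# F04: the group of the presentation

As in adm/C07. Let `g j` be the class of the generator `j` in `P.Grp`, `g j = 1` for unused `j`. `be p` is given by `hom_ex` for `pPres (pcd c p)`: `φ j = g (jp p j)` for
`j < ng (pcd c p)`, `1` otherwise; the relators `PRl` are mapped to the classes of `ren p w` (letters `≥ ng`: `jp p j` is unused, its class is `1`);
`be p (wv _ w)` = class of `ren p w`. `al q (m, n) = g (ja q 0) ^ m * g (ja q 1) ^ n`. `y e = g (jy e)`. The relations: for the basis vectors by `jrel`; for all `v` since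
`D.em p e` is multiplicative (`com`, see `em_add` in T07).
Generation, universal property: as in C07 (for `S'` use `hom_ex` for `P`: `jp p j ↦ S'.be p (wv _ [(j, true)])`, ...).
-/

set_option autoImplicit false

namespace VF

open LatIso LatN AdmIso

theorem F04_rel {c : Cd} {P : Pres} (h : IsPr c P) (w : Wd) (hw : RelC c w) : wv P w = 1 := by
  rcases h.complete w hw with h1 | ⟨j, hj, h1⟩
  · exact wv_rel P w h1
  · rw [h1]
    exact wv_big P j hj

theorem F04_ren {H : Type} [Group H] (φ : FreeGroup ℕ →* H) (p : ℕ) (P' : Pres) (be : P'.Grp →* H)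
    (hb : ∀ j, φ (FreeGroup.of (jp p j)) = be (wv P' [(j, true)])) (w : Wd) :
    φ (FreeGroup.mk (ren p w)) = be (wv P' w) := by
  induction w with
  | nil =>
    rw [wv_nil, map_one]
    exact ev_nil φ
  | cons x w ih =>
    obtain ⟨a, b⟩ := x
    have h1 : ren p ((a, b) :: w) = [(jp p a, b)] ++ ren p w := rfl
    have h2 : ((a, b) :: w : Wd) = [(a, b)] ++ w := rfl
    rw [h1, ev_append, ih, h2, wv_append, map_mul]
    congr 1
    cases b
    · rw [ev_false, hb, wv_false, map_inv]
    · rw [ev_true, hb]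

theorem F04_cm {H : Type} [Group H] {a b : H} (h : a * b * a⁻¹ * b⁻¹ = 1) : a * b = b * a := by
  have h2 := mul_inv_eq_one.1 h
  exact mul_inv_eq_iff_eq_mul.1 h2

theorem F04_em_add {P Q E : Type} {K : P → Type} [∀ p, Group (K p)] {D : TD P Q E K} {p : P}
    {e : E} (hc : D.h p e * D.b p e = D.b p e * D.h p e) (v w : A2) :
    D.em p e (v * w) = D.em p e v * D.em p e w := by
  have hc : Commute (D.h p e) (D.b p e) := hc
  have e1 : dt (v * w).toAdd (D.ze e) = dt v.toAdd (D.ze e) + dt w.toAdd (D.ze e) := by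
    rw [toAdd_mul]
    simp only [dt, Prod.fst_add, Prod.snd_add]
    ring
  have e2 : dt (D.om e) (v * w).toAdd = dt (D.om e) v.toAdd + dt (D.om e) w.toAdd := by
    rw [toAdd_mul]
    simp only [dt, Prod.fst_add, Prod.snd_add]
    ring
  unfold TD.em
  rw [e1, e2, zpow_add, zpow_add]
  have h1 := (hc.zpow_zpow (dt w.toAdd (D.ze e)) (dt (D.om e) v.toAdd)).eq
  calc D.h p e ^ dt v.toAdd (D.ze e) * D.h p e ^ dt w.toAdd (D.ze e) *
        (D.b p e ^ dt (D.om e) v.toAdd * D.b p e ^ dt (D.om e) w.toAdd) =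
      D.h p e ^ dt v.toAdd (D.ze e) * (D.h p e ^ dt w.toAdd (D.ze e) *
        D.b p e ^ dt (D.om e) v.toAdd) * D.b p e ^ dt (D.om e) w.toAdd := by group
    _ = D.h p e ^ dt v.toAdd (D.ze e) * (D.b p e ^ dt (D.om e) v.toAdd *
        D.h p e ^ dt w.toAdd (D.ze e)) * D.b p e ^ dt (D.om e) w.toAdd := by rw [h1]
    _ = _ := by group

/-- the relators of the edges, evaluated -/
theorem F04_edge {H : Type} [Group H] (φ : FreeGroup ℕ →* H) (c : Cd) (e : Fin (nE c + 1))
    (be : KK c ((toTD c).pc e) →* H)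
    (hb : ∀ j, φ (FreeGroup.of (jp ((toTD c).pc e) j)) = be (wv _ [(j, true)])) :
    φ (FreeGroup.mk (jrel c e 0)) = φ (FreeGroup.of (ja (kfl c e) 0)) * φ (FreeGroup.of (jy e)) *
      (be ((toTD c).em ((toTD c).pc e) e (Multiplicative.ofAdd (1, 0))))⁻¹ *
        (φ (FreeGroup.of (jy e)))⁻¹ ∧
    φ (FreeGroup.mk (jrel c e 1)) = φ (FreeGroup.of (ja (kfl c e) 1)) * φ (FreeGroup.of (jy e)) *
      (be ((toTD c).em ((toTD c).pc e) e (Multiplicative.ofAdd (0, 1))))⁻¹ *
        (φ (FreeGroup.of (jy e)))⁻¹ := by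
  have key : ∀ s : ℕ, φ (FreeGroup.mk (jrel c e s)) = φ (FreeGroup.of (ja (kfl c e) s)) *
      φ (FreeGroup.of (jy e)) *
      (be ((toTD c).em ((toTD c).pc e) e (Multiplicative.ofAdd (vv (bas s)))))⁻¹ *
        (φ (FreeGroup.of (jy e)))⁻¹ := by
    intro s
    have h : [(ja (kfl c e) s, true), (jy e, true)] =
      [(ja (kfl c e) s, true)] ++ [(jy e, true)] := rfl
    have h3 := F04_ren φ ((toTD c).pc e) (pPres (pcd c ((toTD c).pc e))) be hb
      (pwW (hW (pcd c (kpc c e)) (ecd c e)) (pdt (bas s) (kze c e)) ++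
        pwW (bW (pcd c (kpc c e)) (ecd c e)) (pdt (kom c e) (bas s)))
    rw [wv_append, wv_pw, wv_pw, iv_pdt, iv_pdt] at h3
    unfold jrel
    rw [h, ev_append, ev_append, ev_append, ev_inv, ev_true, ev_true, ev_false]
    have h4 : φ (FreeGroup.mk (ren (kpc c e) (
      pwW (hW (pcd c (kpc c e)) (ecd c e)) (pdt (bas s) (kze c e)) ++
      pwW (bW (pcd c (kpc c e)) (ecd c e)) (pdt (kom c e) (bas s))))) =
      be ((toTD c).em ((toTD c).pc e) e (Multiplicative.ofAdd (vv (bas s)))) := h3
    rw [h4]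
  have v0 : vv (bas 0) = (1, 0) := rfl
  have v1 : vv (bas 1) = (0, 1) := rfl
  refine ⟨?_, ?_⟩
  · rw [key, v0]
  · rw [key, v1]

theorem F04_unp_jp (p j : ℕ) : (jp p j).unpair = (0, Nat.pair p j) := by
  unfold jp; rw [Nat.unpair_pair]
theorem F04_unp_ja (q s : ℕ) : (ja q s).unpair = (1, Nat.pair q s) := by
  unfold ja; rw [Nat.unpair_pair]
theorem F04_unp_jy (e : ℕ) : (jy e).unpair = (2, e) := by
  unfold jy; rw [Nat.unpair_pair]

/-- the system of the presentation, with its values on generators -/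
theorem F04_sy {c : Cd} (hc : (toTD c).Ok) {P : Pres} (h : IsPr c P) :
    ∃ S : TSy (toTD c) P.Grp,
    (∀ (p : Fin (nP c + 1)) w, S.be p (wv (pPres (pcd c p)) w) = wv P (ren p w)) ∧
    (∀ q : Fin (nQ c + 1), S.al q (Multiplicative.ofAdd (1, 0)) = wv P [(ja q 0, true)]) ∧
    (∀ q : Fin (nQ c + 1), S.al q (Multiplicative.ofAdd (0, 1)) = wv P [(ja q 1, true)]) ∧
    (∀ e : Fin (nE c + 1), S.y e = wv P [(jy e, true)]) := by
  have hbe : ∀ p : Fin (nP c + 1), ∃ f : (pPres (pcd c p)).Grp →* P.Grp,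
      ∀ w, f (wv (pPres (pcd c p)) w) = wv P (ren p w) := by
    intro p
    have hren : ∀ w : Wd, FreeGroup.lift (fun j => wv P [(jp p j, true)]) (FreeGroup.mk w) =
        wv P (ren p w) := by
      intro w
      induction w with
      | nil =>
        exact (ev_nil _).trans (wv_nil P).symm
      | cons x w ih =>
        obtain ⟨a, b⟩ := x
        have h1 : ren p ((a, b) :: w) = [(jp p a, b)] ++ ren p w := rfl
        have h2 : ((a, b) :: w : Wd) = [(a, b)] ++ w := rfl
        rw [h1, wv_append, ← ih, h2, ev_append]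
        congr 1
        cases b
        · rw [ev_false, FreeGroup.lift_apply_of, wv_false]
        · rw [ev_true, FreeGroup.lift_apply_of]
    obtain ⟨f, hf⟩ := hom_ex (pPres (pcd c p))
      (FreeGroup.lift (fun j => wv P [(jp p j, true)]))
      (by
        intro r hr
        rw [hren]
        exact F04_rel h _ (RelC.piece p r p.2 hr))
      (by
        intro j hj
        rw [FreeGroup.lift_apply_of]
        refine F04_rel h _ (RelC.unused _ ?_)
        rintro (⟨-, h1, h2⟩ | ⟨h1, -⟩ | ⟨h1, -⟩)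
        · rw [F04_unp_jp] at h2
          simp only [Nat.unpair_pair] at h2
          exact absurd h2 (not_lt.2 hj)
        · rw [F04_unp_jp] at h1
          exact absurd h1 (by norm_num)
        · rw [F04_unp_jp] at h1
          exact absurd h1 (by norm_num))
    exact ⟨f, fun w => (hf w).trans (hren w)⟩
  have hal : ∀ q : Fin (nQ c + 1), ∃ f : A2 →* P.Grp,
      f (Multiplicative.ofAdd (1, 0)) = wv P [(ja q 0, true)] ∧
      f (Multiplicative.ofAdd (0, 1)) = wv P [(ja q 1, true)] := by
    intro q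
    apply C07_zpow_hom
    have h1 := F04_rel h _ (RelC.flat q q.2)
    have h2 : wv P (cmW (ja q 0) (ja q 1)) = _ := ev_cm (PresentedGroup.mk P.rels) _ _
    rw [h2] at h1
    exact F04_cm h1
  choose be hbe using hbe
  choose al hal1 hal2 using hal
  refine ⟨⟨be, al, fun e => wv P [(jy e, true)], ?_⟩, hbe, hal1, hal2, fun e => rfl⟩
  rintro p e rfl v
  have key := F04_edge (PresentedGroup.mk P.rels) c e (be ((toTD c).pc e)) (by
    intro j
    rw [hbe]
    rfl)
  have r1 : PresentedGroup.mk P.rels (FreeGroup.mk (jrel c e 0)) = 1 :=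
    F04_rel h _ (RelC.edge e 0 e.2 (by norm_num))
  have r2 : PresentedGroup.mk P.rels (FreeGroup.mk (jrel c e 1)) = 1 :=
    F04_rel h _ (RelC.edge e 1 e.2 (by norm_num))
  rw [r1, r2] at key
  obtain ⟨k1, k2⟩ := key
  let em : A2 →* KK c ((toTD c).pc e) := MonoidHom.mk' ((toTD c).em ((toTD c).pc e) e)
    (F04_em_add (hc.com _ e rfl))
  have hh : ∀ v : A2, al ((toTD c).fl e) v =
      ((MulAut.conj (wv P [(jy e, true)])).toMonoidHom.comp
        ((be ((toTD c).pc e)).comp em)) v := by
    apply C07_extA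
    · rw [hal1]
      exact C07_conj k1
    · rw [hal2]
      exact C07_conj k2
  show al ((toTD c).fl e) v * wv P [(jy e, true)] = wv P [(jy e, true)] *
    be ((toTD c).pc e) ((toTD c).em ((toTD c).pc e) e v)
  rw [hh]
  show wv P [(jy e, true)] * be ((toTD c).pc e) ((toTD c).em ((toTD c).pc e) e v) *
    (wv P [(jy e, true)])⁻¹ * wv P [(jy e, true)] = _
  group

theorem F04_fun {H : Type} [Group H] {n m k : ℕ} (b : Fin (n + 1) → ℕ → H)
    (a : Fin (m + 1) → ℕ → H) (y : Fin (k + 1) → H) : ∃ f : ℕ → H,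
    (∀ (p : Fin (n + 1)) j, f (jp p j) = b p j) ∧
    (∀ (q : Fin (m + 1)) s, f (ja q s) = a q s) ∧
    (∀ e : Fin (k + 1), f (jy e) = y e) ∧
    ∀ j, (∀ (p : Fin (n + 1)) i, j = jp p i → b p i = 1) →
      (∀ (q : Fin (m + 1)) s, j = ja q s → a q s = 1) →
      (∀ e : Fin (k + 1), j ≠ jy e) → f j = 1 := by
  refine ⟨fun j => if j.unpair.1 = 0 then (if h : j.unpair.2.unpair.1 < n + 1 then
      b ⟨_, h⟩ j.unpair.2.unpair.2 else 1) else if j.unpair.1 = 1 then
      (if h : j.unpair.2.unpair.1 < m + 1 then a ⟨_, h⟩ j.unpair.2.unpair.2 else 1) else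
      if j.unpair.1 = 2 then (if h : j.unpair.2 < k + 1 then y ⟨_, h⟩ else 1) else 1,
      ?_, ?_, ?_, ?_⟩
  · intro p j
    have hp := p.2
    simp [F04_unp_jp, Nat.unpair_pair, hp]
  · intro p j
    have hp := p.2
    simp [F04_unp_ja, Nat.unpair_pair, hp]
  · intro p
    have hp := p.2
    simp [F04_unp_jy, hp]
  · intro j h1 h2 h3
    simp only
    split_ifs with c1 c2 c3 c4 c5 c6
    · refine h1 ⟨_, c2⟩ _ ?_
      show j = Nat.pair 0 (Nat.pair j.unpair.2.unpair.1 j.unpair.2.unpair.2)
      rw [Nat.pair_unpair, ← c1, Nat.pair_unpair]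
    · rfl
    · refine h2 ⟨_, c4⟩ _ ?_
      show j = Nat.pair 1 (Nat.pair j.unpair.2.unpair.1 j.unpair.2.unpair.2)
      rw [Nat.pair_unpair, ← c3, Nat.pair_unpair]
    · rfl
    · exfalso
      refine h3 ⟨_, c6⟩ ?_
      show j = Nat.pair 2 j.unpair.2
      rw [← c5, Nat.pair_unpair]
    · rfl
    · rfl

theorem pres_pi {c : Cd} (hc : (toTD c).Ok) {P : Pres} (h : IsPr c P) :
    ∃ S : TSy (toTD c) P.Grp, TPi S (tp0 c) (tep c) (tef c) := by
  obtain ⟨S, hb, ha1, ha2, hy⟩ := F04_sy hc h
  refine ⟨S, ?_, ?_, ?_⟩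
  · constructor
    · intro p hp
      rw [hy]
      exact F04_rel h _ (RelC.treeP p p.2 (fun h0 => hp (Fin.ext h0)))
    · intro q
      rw [hy]
      exact F04_rel h _ (RelC.treeQ q q.2)
  · unfold TSy.Gen
    rw [eq_top_iff, ← PresentedGroup.closure_range_of, Subgroup.closure_le]
    rintro _ ⟨j, rfl⟩
    show wv P [(j, true)] ∈ Subgroup.closure _
    by_cases hj : UsedN c j
    · apply Subgroup.subset_closure
      rcases hj with ⟨h1, h2, h3⟩ | ⟨h1, h2, h3⟩ | ⟨h1, h2⟩
      · refine Or.inl (Or.inl ⟨⟨_, h2⟩, wv _ [(j.unpair.2.unpair.2, true)], ?_⟩)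
        rw [hb]
        show wv P [(Nat.pair 0 (Nat.pair j.unpair.2.unpair.1 j.unpair.2.unpair.2), true)] = _
        rw [Nat.pair_unpair, ← h1, Nat.pair_unpair]
      · have h4 : j = ja j.unpair.2.unpair.1 j.unpair.2.unpair.2 := by
          show j = Nat.pair 1 (Nat.pair j.unpair.2.unpair.1 j.unpair.2.unpair.2)
          rw [Nat.pair_unpair, ← h1, Nat.pair_unpair]
        have h5 : j.unpair.2.unpair.2 = 0 ∨ j.unpair.2.unpair.2 = 1 := by omega
        rcases h5 with h5 | h5
        · refine Or.inl (Or.inr ⟨⟨_, h2⟩, _, (ha1 _).trans ?_⟩)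
          show wv P [(ja j.unpair.2.unpair.1 0, true)] = _
          rw [← h5, ← h4]
        · refine Or.inl (Or.inr ⟨⟨_, h2⟩, _, (ha2 _).trans ?_⟩)
          show wv P [(ja j.unpair.2.unpair.1 1, true)] = _
          rw [← h5, ← h4]
      · refine Or.inr ⟨⟨_, h2⟩, (hy _).trans ?_⟩
        show wv P [(Nat.pair 2 j.unpair.2, true)] = _
        rw [← h1, Nat.pair_unpair]
    · rw [F04_rel h _ (RelC.unused j hj)]
      exact Subgroup.one_mem _
  · intro H _ S' hN
    obtain ⟨f, f1, f2, f3, f4⟩ := F04_fun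
      (fun (p : Fin (nP c + 1)) j => S'.be p (wv (pPres (pcd c p)) [(j, true)]))
      (fun (q : Fin (nQ c + 1)) s => if s = 0 then S'.al q (Multiplicative.ofAdd (1, 0)) else
        if s = 1 then S'.al q (Multiplicative.ofAdd (0, 1)) else 1) S'.y
    have g1 : ∀ (p : Fin (nP c + 1)) j, FreeGroup.lift f (FreeGroup.of (jp p j)) =
        S'.be p (wv (pPres (pcd c p)) [(j, true)]) := by
      intro p j
      rw [FreeGroup.lift_apply_of, f1]
    have g3 : ∀ q : Fin (nQ c + 1), FreeGroup.lift f (FreeGroup.of (ja q 0)) =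
        S'.al q (Multiplicative.ofAdd (1, 0)) := by
      intro q
      rw [FreeGroup.lift_apply_of, f2]
      exact if_pos rfl
    have g4 : ∀ q : Fin (nQ c + 1), FreeGroup.lift f (FreeGroup.of (ja q 1)) =
        S'.al q (Multiplicative.ofAdd (0, 1)) := by
      intro q
      rw [FreeGroup.lift_apply_of, f2]
      exact (if_neg one_ne_zero).trans (if_pos rfl)
    have g5 : ∀ e : Fin (nE c + 1), FreeGroup.lift f (FreeGroup.of (jy e)) = S'.y e := by
      intro e
      rw [FreeGroup.lift_apply_of, f3]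
    have g6 : ∀ j, ¬ UsedN c j → FreeGroup.lift f (FreeGroup.of j) = 1 := by
      intro j hj
      rw [FreeGroup.lift_apply_of]
      apply f4
      · intro p i hji
        by_cases hi : i < ng (pcd c p)
        · exfalso
          apply hj
          left
          rw [hji, F04_unp_jp]
          simp only [Nat.unpair_pair]
          exact ⟨trivial, p.2, hi⟩
        · have h1 : wv (pPres (pcd c p)) [(i, true)] = 1 := wv_big _ _ (not_lt.1 hi)
          show S'.be p (wv (pPres (pcd c p)) [(i, true)]) = 1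
          rw [h1, map_one]
      · intro q s hqs
        by_cases hs : s < 2
        · exfalso
          apply hj
          right; left
          rw [hqs, F04_unp_ja]
          simp only [Nat.unpair_pair]
          exact ⟨trivial, q.2, hs⟩
        · show (if s = 0 then S'.al q (Multiplicative.ofAdd (1, 0)) else
            if s = 1 then S'.al q (Multiplicative.ofAdd (0, 1)) else 1) = 1
          rw [if_neg (by omega), if_neg (by omega)]
      · intro e he
        apply hj
        right; right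
        rw [he, F04_unp_jy]
        exact ⟨rfl, e.2⟩
    have hrel : ∀ w, RelC c w → FreeGroup.lift f (FreeGroup.mk w) = 1 := by
      intro w hw
      cases hw with
      | piece p w hp hw =>
        have h1 := F04_ren (FreeGroup.lift f) p (pPres (pcd c p)) (S'.be ⟨p, hp⟩) (g1 ⟨p, hp⟩) w
        rw [h1]
        have h2 : wv (pPres (pcd c p)) w = 1 := wv_rel _ _ hw
        rw [h2, map_one]
      | flat q hq =>
        rw [ev_cm]
        have h1 := g3 ⟨q, hq⟩
        have h2 := g4 ⟨q, hq⟩
        simp only at h1 h2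
        have h3 : S'.al ⟨q, hq⟩ (Multiplicative.ofAdd (1, 0)) *
            S'.al ⟨q, hq⟩ (Multiplicative.ofAdd (0, 1)) =
            S'.al ⟨q, hq⟩ (Multiplicative.ofAdd (0, 1)) *
              S'.al ⟨q, hq⟩ (Multiplicative.ofAdd (1, 0)) := C07_comm _ _ _
        rw [h1, h2, h3, mul_inv_cancel_right, mul_inv_cancel]
      | edge e s he hs =>
        have key := F04_edge (FreeGroup.lift f) c ⟨e, he⟩ (S'.be ((toTD c).pc ⟨e, he⟩))
          (fun j => g1 ((toTD c).pc ⟨e, he⟩) j)
        obtain ⟨k1, k2⟩ := key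
        have h5 := g5 ⟨e, he⟩
        have h3 := g3 ((toTD c).fl ⟨e, he⟩)
        have h4 := g4 ((toTD c).fl ⟨e, he⟩)
        have r3 := S'.rel _ ⟨e, he⟩ rfl (Multiplicative.ofAdd (1, 0))
        have r4 := S'.rel _ ⟨e, he⟩ rfl (Multiplicative.ofAdd (0, 1))
        change FreeGroup.lift f (FreeGroup.of (ja (kfl c e) 0)) = _ at h3
        change FreeGroup.lift f (FreeGroup.of (ja (kfl c e) 1)) = _ at h4
        have hs' : s = 0 ∨ s = 1 := by omega
        rcases hs' with rfl | rfl
        · refine k1.trans ?_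
          rw [h5]
          show FreeGroup.lift f (FreeGroup.of (ja (kfl c e) 0)) * _ * _ * _ = _
          rw [h3, r3]
          exact C07_aux _ _
        · refine k2.trans ?_
          rw [h5]
          show FreeGroup.lift f (FreeGroup.of (ja (kfl c e) 1)) * _ * _ * _ = _
          rw [h4, r4]
          exact C07_aux _ _
      | treeP p hp hp0 =>
        rw [ev_true]
        have h1 := hN.1 ⟨p, hp⟩ (fun h0 => hp0 (congrArg Fin.val h0))
        rw [← g5] at h1
        exact h1
      | treeQ q hq =>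
        rw [ev_true]
        have h1 := hN.2 ⟨q, hq⟩
        rw [← g5] at h1
        exact h1
      | unused j hj =>
        rw [ev_true]
        exact g6 j hj
    obtain ⟨θ, hθ⟩ := hom_ex P (FreeGroup.lift f) (fun r hr => hrel r (h.sound r hr))
      (fun j hj => g6 j (fun hu => absurd (h.used j hu) (not_lt.2 hj)))
    refine ⟨θ, ?_, ?_, ?_⟩
    · intro p x
      have h1 : θ.comp (S.be p) = S'.be p := by
        apply hom_ext
        intro j _
        rw [MonoidHom.comp_apply, hb, hθ]
        exact g1 p j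
      exact DFunLike.congr_fun h1 x
    · intro q v
      apply C07_extA (f := θ.comp (S.al q)) (g := S'.al q)
      · rw [MonoidHom.comp_apply, ha1, hθ]
        exact g3 q
      · rw [MonoidHom.comp_apply, ha2, hθ]
        exact g4 q
    · intro e
      rw [hy, hθ]
      exact g5 e

end VF
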