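import Pool.Agent.Lib.MP_32d917_al_vf.G03
import Pool.Agent.Lib.MP_32d917_al_adm.C06

/-!
# G08: computability of the certificate for a piece

Primitive recursive functions: `sub`, `shf`, `eqs`, `qN`, `wds`, `tup` (recursion: `Primrec.nat_rec`), `FreeGroup.invRev` (`p_invRev` in adm). `NHom`: `re_exists`, then
`re_forall_lt` (bound `(N + 1) ^ P.1`), then membership in a list: `re_exists` and `re_and` with `CB.pp_mem`, `sep_re`, `re_comp`. `NCand`: `re_or`. `NPP`: five times `re_forall_mem`.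
-/

set_option autoImplicit false
set_option synthInstance.maxSize 2000

namespace VF

open LatIso LatN AdmIso

section

variable {β : Type} [Primcodable β]

theorem g08_rep {n : β → ℕ} (hn : Primrec n) :
    Primrec fun x => List.replicate (n x) ((0, true) : ℕ × Bool) := by
  refine (Primrec.list_map (Primrec.list_range.comp hn)
    (Primrec.const ((0, true) : ℕ × Bool)).to₂).of_eq fun x => ?_
  rw [List.map_const', List.length_range]

theorem g08_sub {σ : β → List Wd} {w : β → Wd} (hσ : Primrec σ) (hw : Primrec w) :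
    Primrec fun x => sub (σ x) (w x) := by
  unfold sub
  refine Primrec.list_flatMap hw ?_
  have h1 : Primrec fun x : β × (ℕ × Bool) => (σ x.1).getD x.2.1 [] :=
    C05_getD [] (hσ.comp Primrec.fst) (CB.p_fst Primrec.snd)
  exact Primrec.ite (CB.pp_eq (CB.p_snd Primrec.snd) (Primrec.const true)) h1 (p_invRev h1)

theorem g08_shf {σ : β → List Wd} {n N m : β → ℕ} (hσ : Primrec σ) (hn : Primrec n)
    (hN : Primrec N) (hm : Primrec m) : Primrec fun x => shf (σ x) (n x) (N x) (m x) := by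
  unfold shf
  refine Primrec.list_map (Primrec.list_range.comp hn) ?_
  have h1 : Primrec fun x : β × ℕ => (σ x.1).getD x.2 [] :=
    C05_getD [] (hσ.comp Primrec.fst) Primrec.snd
  exact Primrec.ite (CB.pp_eq Primrec.snd (Primrec.const 0)) h1
    (Primrec.list_append.comp h1
      (g08_rep (CB.p_dg (hN.comp Primrec.fst) (hm.comp Primrec.fst) Primrec.snd)))

theorem g08_eqs {L : β → Inst} {γ : β → List Wd} (hL : Primrec L) (hγ : Primrec γ) :
    Primrec fun x => eqs (L x) (γ x) := by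
  unfold eqs
  refine Primrec.list_flatMap (Primrec.list_range.comp (Primrec.list_length.comp hL)) ?_
  have h1 : Primrec fun x : β × ℕ => (L x.1).getD x.2 (([], []), ([], [])) :=
    C05_getD (([], []), ([], [])) (hL.comp Primrec.fst) Primrec.snd
  have h2 : Primrec fun x : β × ℕ => (γ x.1).getD x.2 [] :=
    C05_getD [] (hγ.comp Primrec.fst) Primrec.snd
  have h3 : ∀ f : β × ℕ → Wd, Primrec f → Primrec fun x : β × ℕ =>
      (γ x.1).getD x.2 [] ++ f x ++ FreeGroup.invRev ((γ x.1).getD x.2 []) := fun f hf =>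
    Primrec.list_append.comp (Primrec.list_append.comp h2 hf) (p_invRev h2)
  exact Primrec.list_cons.comp (CB.p_pair (CB.p_fst (CB.p_fst h1)) (h3 _ (CB.p_fst (CB.p_snd h1))))
    (Primrec.list_cons.comp
      (CB.p_pair (CB.p_snd (CB.p_fst h1)) (h3 _ (CB.p_snd (CB.p_snd h1)))) (Primrec.const []))

theorem g08_qN {P : β → Pres} {N : β → ℕ} (hP : Primrec P) (hN : Primrec N) :
    Primrec fun x => qN (P x) (N x) := by
  unfold qN
  exact CB.p_pair (CB.p_fst hP) (Primrec.list_cons.comp (g08_rep hN) (CB.p_snd hP))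

theorem g08_wds {n B : β → ℕ} (hn : Primrec n) (hB : Primrec B) :
    Primrec fun x => wds (n x) (B x) := by
  have h1 : Primrec₂ fun (x : β) (p : ℕ × List Wd) => ([] : Wd) :: p.2.flatMap fun w =>
      (List.range (n x)).flatMap fun j => [(j, true) :: w, (j, false) :: w] := by
    refine Primrec.list_cons.comp (Primrec.const []) ?_
    refine Primrec.list_flatMap (CB.p_snd Primrec.snd) ?_
    refine Primrec.list_flatMap
      (Primrec.list_range.comp (hn.comp (Primrec.fst.comp Primrec.fst))) ?_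
    have h2 : Primrec fun x : ((β × (ℕ × List Wd)) × Wd) × ℕ => x.2 := Primrec.snd
    have h3 : Primrec fun x : ((β × (ℕ × List Wd)) × Wd) × ℕ => x.1.2 :=
      Primrec.snd.comp Primrec.fst
    exact Primrec.list_cons.comp (C06_pcons true h2 h3)
      (Primrec.list_cons.comp (C06_pcons false h2 h3) (Primrec.const []))
  refine (Primrec.nat_rec' hB (Primrec.const [[]]) h1).of_eq fun x => ?_
  induction B x with
  | zero => rfl
  | succ b ih =>
    show _ = wds (n x) (b + 1)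
    rw [wds, ← ih]

theorem g08_tup {l : β → List Wd} {n : β → ℕ} (hl : Primrec l) (hn : Primrec n) :
    Primrec fun x => tup (l x) (n x) := by
  have h1 : Primrec₂ fun (x : β) (p : ℕ × List (List Wd)) => p.2.flatMap fun s =>
      (l x).map fun w => w :: s := by
    refine Primrec.list_flatMap (CB.p_snd Primrec.snd) ?_
    refine Primrec.list_map (hl.comp (Primrec.fst.comp Primrec.fst)) ?_
    exact Primrec.list_cons.comp Primrec.snd (Primrec.snd.comp Primrec.fst)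
  refine (Primrec.nat_rec' hn (Primrec.const [[]]) h1).of_eq fun x => ?_
  induction n x with
  | zero => rfl
  | succ b ih =>
    show _ = tup (l x) (b + 1)
    rw [tup, ← ih]

theorem g08_sep {P : β → Pres} {w : β → Wd} (hP : Primrec P) (hw : Primrec w) :
    REPred fun x => Sep (P x) (w x) :=
  re_comp sep_re (CB.p_pair hP hw).to_comp

end

theorem nhom_re : REPred fun x : (Pres × Pres) × (List Wd × List (Wd × Wd)) =>
    NHom x.1.1 x.1.2 x.2.1 x.2.2 := by
  unfold NHom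
  refine re_exists (p := fun (x : (Pres × Pres) × (List Wd × List (Wd × Wd))) (N : ℕ) =>
    ∀ m < (N + 1) ^ x.1.1.1, ∃ e ∈ x.1.1.2.map (fun r => ((r, []) : Wd × Wd)) ++ x.2.2,
      Sep (qN x.1.2 (N + 1)) (sub (shf x.2.1 x.1.1.1 N m) e.1 ++ FreeGroup.invRev e.2)) ?_
  refine re_forall_lt
    (f := fun x : ((Pres × Pres) × (List Wd × List (Wd × Wd))) × ℕ => (x.2 + 1) ^ x.1.1.1.1)
    (p := fun (x : ((Pres × Pres) × (List Wd × List (Wd × Wd))) × ℕ) (m : ℕ) =>
      ∃ e ∈ x.1.1.1.2.map (fun r => ((r, []) : Wd × Wd)) ++ x.1.2.2,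
        Sep (qN x.1.1.2 (x.2 + 1))
          (sub (shf x.1.2.1 x.1.1.1.1 x.2 m) e.1 ++ FreeGroup.invRev e.2)) ?_ ?_
  · exact CB.p_pow (CB.p_add Primrec.snd (Primrec.const 1))
      (CB.p_fst (CB.p_fst (CB.p_fst Primrec.fst)))
  · refine re_exists
      (p := fun (x : (((Pres × Pres) × (List Wd × List (Wd × Wd))) × ℕ) × ℕ) (e : Wd × Wd) =>
        e ∈ x.1.1.1.1.2.map (fun r => ((r, []) : Wd × Wd)) ++ x.1.1.2.2 ∧
          Sep (qN x.1.1.1.2 (x.1.2 + 1))
            (sub (shf x.1.1.2.1 x.1.1.1.1.1 x.1.2 x.2) e.1 ++ FreeGroup.invRev e.2)) ?_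
    have a0 : Primrec fun x : ((((Pres × Pres) × (List Wd × List (Wd × Wd))) × ℕ) × ℕ) ×
        (Wd × Wd) => x.1.1.1 := CB.p_fst (CB.p_fst Primrec.fst)
    have a1 := CB.p_fst (CB.p_fst a0)
    have a2 := CB.p_snd (CB.p_fst a0)
    have a3 := CB.p_fst (CB.p_snd a0)
    have a4 := CB.p_snd (CB.p_snd a0)
    have a5 : Primrec fun x : ((((Pres × Pres) × (List Wd × List (Wd × Wd))) × ℕ) × ℕ) ×
        (Wd × Wd) => x.1.1.2 := CB.p_snd (CB.p_fst Primrec.fst)
    have a6 : Primrec fun x : ((((Pres × Pres) × (List Wd × List (Wd × Wd))) × ℕ) × ℕ) ×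
        (Wd × Wd) => x.1.2 := CB.p_snd Primrec.fst
    have a7 : Primrec fun x : ((((Pres × Pres) × (List Wd × List (Wd × Wd))) × ℕ) × ℕ) ×
        (Wd × Wd) => x.2 := Primrec.snd
    refine re_and (re_of_prim (CB.pp_mem a7 (Primrec.list_append.comp ?_ a4))) ?_
    · exact Primrec.list_map (CB.p_snd a1) (CB.p_pair Primrec.snd (Primrec.const []))
    · exact g08_sep (g08_qN a2 (CB.p_add a5 (Primrec.const 1)))
        (Primrec.list_append.comp (g08_sub (g08_shf a3 (CB.p_fst a1) a5 a6) (CB.p_fst a7))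
          (p_invRev (CB.p_snd a7)))

theorem g08_one : REPred fun x : Pres × (List Wd × List Wd) =>
    ∃ j < x.1.1, 0 < j ∧ Sep (qN x.1 1) (sub x.2.2 (x.2.1.getD j []) ++ [(j, false)]) := by
  refine re_exists (p := fun (x : Pres × (List Wd × List Wd)) (j : ℕ) =>
    j < x.1.1 ∧ 0 < j ∧ Sep (qN x.1 1) (sub x.2.2 (x.2.1.getD j []) ++ [(j, false)])) ?_
  have a1 : Primrec fun x : (Pres × (List Wd × List Wd)) × ℕ => x.1.1 := CB.p_fst Primrec.fst
  have a2 : Primrec fun x : (Pres × (List Wd × List Wd)) × ℕ => x.1.2.1 :=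
    CB.p_fst (CB.p_snd Primrec.fst)
  have a3 : Primrec fun x : (Pres × (List Wd × List Wd)) × ℕ => x.1.2.2 :=
    CB.p_snd (CB.p_snd Primrec.fst)
  have a4 : Primrec fun x : (Pres × (List Wd × List Wd)) × ℕ => x.2 := Primrec.snd
  refine re_and (re_of_prim (CB.pp_lt a4 (CB.p_fst a1)))
    (re_and (re_of_prim (CB.pp_lt (Primrec.const 0) a4)) ?_)
  exact g08_sep (g08_qN a1 (Primrec.const 1))
    (Primrec.list_append.comp (g08_sub a3 (C05_getD [] a2 a4)) (C06_pl1 false a4))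

theorem g08_cand : REPred fun x : ((Pres × Pres) × Inst) × Kd =>
    NCand x.1.1.1 x.1.1.2 x.1.2 x.2 := by
  have a1 : Primrec fun x : ((Pres × Pres) × Inst) × Kd => x.1.1 := CB.p_fst Primrec.fst
  have a2 : Primrec fun x : ((Pres × Pres) × Inst) × Kd => x.1.2 := CB.p_snd Primrec.fst
  have a3 : Primrec fun x : ((Pres × Pres) × Inst) × Kd => x.2 := Primrec.snd
  unfold NCand
  refine re_or ?_ (re_or ?_ (re_or ?_ ?_))
  · exact re_comp nhom_re (f := fun x : ((Pres × Pres) × Inst) × Kd =>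
      (x.1.1, (x.2.1, eqs x.1.2 x.2.2.2)))
      (CB.p_pair a1 (CB.p_pair (CB.p_fst a3) (g08_eqs a2 (CB.p_snd (CB.p_snd a3))))).to_comp
  · exact re_comp nhom_re (f := fun x : ((Pres × Pres) × Inst) × Kd =>
      ((x.1.1.2, x.1.1.1), (x.2.2.1, [])))
      (CB.p_pair (CB.p_pair (CB.p_snd a1) (CB.p_fst a1))
        (CB.p_pair (CB.p_fst (CB.p_snd a3)) (Primrec.const []))).to_comp
  · exact re_comp g08_one (f := fun x : ((Pres × Pres) × Inst) × Kd =>
      (x.1.1.1, (x.2.1, x.2.2.1)))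
      (CB.p_pair (CB.p_fst a1) (CB.p_pair (CB.p_fst a3) (CB.p_fst (CB.p_snd a3)))).to_comp
  · exact re_comp g08_one (f := fun x : ((Pres × Pres) × Inst) × Kd =>
      (x.1.1.2, (x.2.2.1, x.2.1)))
      (CB.p_pair (CB.p_snd a1) (CB.p_pair (CB.p_fst (CB.p_snd a3)) (CB.p_fst a3))).to_comp

/-- context of the quantifiers -/
abbrev G08X : Type := ((Pres × Pres) × Inst) × ℕ

theorem npp_re : REPred fun x : ((Pres × Pres) × Inst) × ℕ =>
    NPP x.1.1.1 x.1.1.2 x.1.2 x.2 := by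
  unfold NPP
  refine re_forall_mem (f := fun _ : G08X => ([[(0, true)], [(0, false)]] : List Wd))
    (p := fun (x : G08X) (a : Wd) =>
      ∀ a' ∈ ([[(0, true)], [(0, false)]] : List Wd),
      ∀ σ ∈ tup (wds x.1.1.2.1 x.2) (x.1.1.1.1 - 1),
      ∀ σ' ∈ tup (wds x.1.1.1.1 x.2) (x.1.1.2.1 - 1),
      ∀ γ ∈ tup (wds x.1.1.2.1 x.2) x.1.2.length,
        NCand x.1.1.1 x.1.1.2 x.1.2 (a :: σ, a' :: σ', γ)) (Primrec.const _) ?_
  refine re_forall_mem (f := fun _ : G08X × Wd => ([[(0, true)], [(0, false)]] : List Wd))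
    (p := fun (x : G08X × Wd) (a' : Wd) =>
      ∀ σ ∈ tup (wds x.1.1.1.2.1 x.1.2) (x.1.1.1.1.1 - 1),
      ∀ σ' ∈ tup (wds x.1.1.1.1.1 x.1.2) (x.1.1.1.2.1 - 1),
      ∀ γ ∈ tup (wds x.1.1.1.2.1 x.1.2) x.1.1.2.length,
        NCand x.1.1.1.1 x.1.1.1.2 x.1.1.2 (x.2 :: σ, a' :: σ', γ)) (Primrec.const _) ?_
  refine re_forall_mem
    (f := fun x : (G08X × Wd) × Wd => tup (wds x.1.1.1.1.2.1 x.1.1.2) (x.1.1.1.1.1.1 - 1))
    (p := fun (x : (G08X × Wd) × Wd) (σ : List Wd) =>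
      ∀ σ' ∈ tup (wds x.1.1.1.1.1.1 x.1.1.2) (x.1.1.1.1.2.1 - 1),
      ∀ γ ∈ tup (wds x.1.1.1.1.2.1 x.1.1.2) x.1.1.1.2.length,
        NCand x.1.1.1.1.1 x.1.1.1.1.2 x.1.1.1.2 (x.1.2 :: σ, x.2 :: σ', γ)) ?_ ?_
  · have h0 : Primrec fun x : (G08X × Wd) × Wd => x.1.1 := Primrec.fst.comp Primrec.fst
    have hP := CB.p_fst (CB.p_fst (CB.p_fst h0))
    have hP' := CB.p_snd (CB.p_fst (CB.p_fst h0))
    exact g08_tup (g08_wds (CB.p_fst hP') (CB.p_snd h0))
      (CB.p_sub (CB.p_fst hP) (Primrec.const 1))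
  refine re_forall_mem
    (f := fun x : ((G08X × Wd) × Wd) × List Wd =>
      tup (wds x.1.1.1.1.1.1.1 x.1.1.1.2) (x.1.1.1.1.1.2.1 - 1))
    (p := fun (x : ((G08X × Wd) × Wd) × List Wd) (σ' : List Wd) =>
      ∀ γ ∈ tup (wds x.1.1.1.1.1.2.1 x.1.1.1.2) x.1.1.1.1.2.length,
        NCand x.1.1.1.1.1.1 x.1.1.1.1.1.2 x.1.1.1.1.2 (x.1.1.2 :: x.2, x.1.2 :: σ', γ)) ?_ ?_
  · have h0 : Primrec fun x : ((G08X × Wd) × Wd) × List Wd => x.1.1.1 :=
      Primrec.fst.comp (Primrec.fst.comp Primrec.fst)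
    have hP := CB.p_fst (CB.p_fst (CB.p_fst h0))
    have hP' := CB.p_snd (CB.p_fst (CB.p_fst h0))
    exact g08_tup (g08_wds (CB.p_fst hP) (CB.p_snd h0))
      (CB.p_sub (CB.p_fst hP') (Primrec.const 1))
  refine re_forall_mem
    (f := fun x : (((G08X × Wd) × Wd) × List Wd) × List Wd =>
      tup (wds x.1.1.1.1.1.1.2.1 x.1.1.1.1.2) x.1.1.1.1.1.2.length)
    (p := fun (x : (((G08X × Wd) × Wd) × List Wd) × List Wd) (γ : List Wd) =>
        NCand x.1.1.1.1.1.1.1 x.1.1.1.1.1.1.2 x.1.1.1.1.1.2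
          (x.1.1.1.2 :: x.1.2, x.1.1.2 :: x.2, γ)) ?_ ?_
  · have h0 : Primrec fun x : (((G08X × Wd) × Wd) × List Wd) × List Wd => x.1.1.1.1 :=
      Primrec.fst.comp (Primrec.fst.comp (Primrec.fst.comp Primrec.fst))
    have hP' := CB.p_snd (CB.p_fst (CB.p_fst h0))
    exact g08_tup (g08_wds (CB.p_fst hP') (CB.p_snd h0))
      (Primrec.list_length.comp (CB.p_snd (CB.p_fst h0)))
  have b0 : Primrec fun x : ((((G08X × Wd) × Wd) × List Wd) × List Wd) × List Wd =>
      x.1.1.1.1.1.1 := CB.p_fst (CB.p_fst (CB.p_fst (CB.p_fst (CB.p_fst Primrec.fst))))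
  have b1 : Primrec fun x : ((((G08X × Wd) × Wd) × List Wd) × List Wd) × List Wd =>
      x.1.1.1.1.2 := CB.p_snd (CB.p_fst (CB.p_fst (CB.p_fst Primrec.fst)))
  have b2 : Primrec fun x : ((((G08X × Wd) × Wd) × List Wd) × List Wd) × List Wd =>
      x.1.1.1.2 := CB.p_snd (CB.p_fst (CB.p_fst Primrec.fst))
  have b3 : Primrec fun x : ((((G08X × Wd) × Wd) × List Wd) × List Wd) × List Wd =>
      x.1.1.2 := CB.p_snd (CB.p_fst Primrec.fst)
  have b4 : Primrec fun x : ((((G08X × Wd) × Wd) × List Wd) × List Wd) × List Wd =>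
      x.1.2 := CB.p_snd Primrec.fst
  have b5 : Primrec fun x : ((((G08X × Wd) × Wd) × List Wd) × List Wd) × List Wd =>
      x.2 := Primrec.snd
  exact re_comp g08_cand
    (f := fun x : ((((G08X × Wd) × Wd) × List Wd) × List Wd) × List Wd =>
      (x.1.1.1.1.1.1, (x.1.1.1.1.2 :: x.1.1.2, x.1.1.1.2 :: x.1.2, x.2)))
    (CB.p_pair b0 (CB.p_pair (Primrec.list_cons.comp b1 b3)
      (CB.p_pair (Primrec.list_cons.comp b2 b4) b5))).to_comp

end VF
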