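import Pool.Agent.Lib.MP_32d917_al_vf.H05
import Pool.Agent.Lib.MP_32d917_al_adm.C01

/-!
# H06: validity of codes of pieces is decidable

`PVal` is a finite conjunction of statements with bounded quantifiers.
-/

set_option autoImplicit false
set_option synthInstance.maxSize 2000

namespace VF

open LatIso LatN AdmIso

/-- the number in the condition `dem` -/
def h06z (c : PCd) (x y : ℕ) : PI :=
  psub ((hDe c x).1 + (AdmIso.sg (hS c x) (hDe c y)).1,
    (hDe c x).2 + (AdmIso.sg (hS c x) (hDe c y)).2) (hDe c (hM c x y))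

/-- the numerical form of `Ok` -/
def H06ok (c : PCd) : Prop :=
  ((∀ a < pb c + 1, hI c (hI c a) = a) ∧
  (∀ x < pd c + 1, ∀ y < pd c + 1, ∀ z < pd c + 1, hM c (hM c x y) z = hM c x (hM c y z)) ∧
  (∀ x < pd c + 1, hM c (hE c) x = x ∧ hM c x (hE c) = x ∧
    ∃ y < pd c + 1, hM c x y = hE c ∧ hM c y x = hE c) ∧
  (∀ v < pa c + 1, hP c (hE c) v = v)) ∧
  ((∀ x < pd c + 1, ∀ y < pd c + 1, ∀ v < pa c + 1, hP c (hM c x y) v = hP c x (hP c y v)) ∧
  (∀ a < pb c + 1, hA c (hE c) a = a) ∧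
  (∀ x < pd c + 1, ∀ y < pd c + 1, ∀ a < pb c + 1, hA c (hM c x y) a = hA c x (hA c y a)) ∧
  (∀ x < pd c + 1, ∀ a < pb c + 1, hO c (hA c x a) = hP c x (hO c a) ∧
    hI c (hA c x a) = hA c x (hI c a) ∧ ¬ hA c x a = hI c a)) ∧
  ((∀ x < pd c + 1, ∀ y < pd c + 1, hS c (hM c x y) = (hS c x + hS c y) % 2) ∧
  PEq (hDe c (hE c)) (0, 0) ∧
  ∀ x < pd c + 1, ∀ y < pd c + 1, ∃ k < (h06z c x y).1 + (h06z c x y).2 + 1,
    (h06z c x y).1 = (h06z c x y).2 + k * hR c ∨ (h06z c x y).2 = (h06z c x y).1 + k * hR c)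

/-- the numerical form of `Nice` -/
def H06nice (c : PCd) : Prop :=
  (∀ v < pa c + 1, ∃ a < pb c + 1, ∃ a' < pb c + 1, ¬ a = a' ∧ hO c a = v ∧ hO c a' = v) ∧
  (∃ a < pb c + 1, ∃ a' < pb c + 1, ∃ a'' < pb c + 1, ¬ a = a' ∧ ¬ a' = a'' ∧ ¬ a = a'' ∧
    hO c a = hO c a' ∧ hO c a' = hO c a'') ∧
  (∀ x < pd c + 1, (∀ v < pa c + 1, hP c x v = v) → (∀ a < pb c + 1, hA c x a = a) →
    hS c x = 0 → x = hE c) ∧
  ∀ a < pb c + 1, (∀ x < pd c + 1, hP c x (hO c a) = hO c a → hA c x a = a) →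
    ∃ x < pd c + 1, hP c x (hO c a) = hO c (hI c a)

/-- the numerical form of `Span` -/
def H06span (c : PCd) : Prop :=
  ∀ v < pa c + 1, ¬ v = 0 → hO c (hI c (hDl c v)) = v ∧ hRk c (hO c (hDl c v)) < hRk c v

theorem h06_S (c : PCd) (x : ℕ) : hS c x = 0 ∨ hS c x = 1 := by
  have h : hS c x < 1 + 1 := CB.dg_lt _ _ _
  omega

theorem h06_z (c : PCd) (x y : ℕ) : iv (h06z c x y) =
    iv (hDe c x) + (-1) ^ hS c x * iv (hDe c y) - iv (hDe c (hM c x y)) := by
  unfold h06z
  rw [iv_psub, ← iv_sg]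
  congr 1
  unfold iv
  push_cast
  ring

theorem h06_dvd (z : PI) (R : ℕ) : (R : ℤ) ∣ iv z ↔ ∃ k < z.1 + z.2 + 1,
    z.1 = z.2 + k * R ∨ z.2 = z.1 + k * R := by
  obtain ⟨u, v⟩ := z
  show (R : ℤ) ∣ (u : ℤ) - v ↔ ∃ k < u + v + 1, u = v + k * R ∨ v = u + k * R
  constructor
  · rintro ⟨k, hk⟩
    rcases le_total v u with h | h
    · by_cases hR : R = 0
      · subst hR
        refine ⟨0, by omega, Or.inl ?_⟩
        push_cast at hk
        rw [zero_mul] at hk
        omega
      · obtain ⟨j, hj⟩ : (R : ℕ) ∣ u - v := by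
          have h1 : ((u - v : ℕ) : ℤ) = R * k := by rw [Nat.cast_sub h]; exact hk
          exact Int.natCast_dvd_natCast.1 ⟨k, h1⟩
        refine ⟨j, ?_, Or.inl ?_⟩
        · have : j ≤ R * j := Nat.le_mul_of_pos_left _ (Nat.pos_of_ne_zero hR)
          omega
        · rw [mul_comm]; omega
    · by_cases hR : R = 0
      · subst hR
        refine ⟨0, by omega, Or.inl ?_⟩
        push_cast at hk
        rw [zero_mul] at hk
        omega
      · obtain ⟨j, hj⟩ : (R : ℕ) ∣ v - u := by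
          have h1 : ((v - u : ℕ) : ℤ) = R * (-k) := by
            rw [Nat.cast_sub h, mul_neg, ← hk]
            ring
          exact Int.natCast_dvd_natCast.1 ⟨-k, h1⟩
        refine ⟨j, ?_, Or.inr ?_⟩
        · have : j ≤ R * j := Nat.le_mul_of_pos_left _ (Nat.pos_of_ne_zero hR)
          omega
        · rw [mul_comm]; omega
  · rintro ⟨k, -, h | h⟩
    · exact ⟨k, by rw [h]; push_cast; ring⟩
    · exact ⟨-k, by rw [h]; push_cast; ring⟩

theorem h06_ok (c : PCd) : (toPD c).Ok ↔ H06ok c := by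
  constructor
  · intro h
    refine ⟨⟨?_, ?_, ?_, ?_⟩, ⟨?_, ?_, ?_, ?_⟩, ?_, ?_, ?_⟩
    · exact fun a ha => congrArg Fin.val (h.ii ⟨a, ha⟩)
    · exact fun x hx y hy z hz => congrArg Fin.val (h.as ⟨x, hx⟩ ⟨y, hy⟩ ⟨z, hz⟩)
    · intro x hx
      obtain ⟨y, h1, h2⟩ := h.iv ⟨x, hx⟩
      exact ⟨congrArg Fin.val (h.em ⟨x, hx⟩), congrArg Fin.val (h.me ⟨x, hx⟩), y, y.2,
        congrArg Fin.val h1, congrArg Fin.val h2⟩
    · exact fun v hv => congrArg Fin.val (h.aPe ⟨v, hv⟩)
    · exact fun x hx y hy v hv => congrArg Fin.val (h.aPm ⟨x, hx⟩ ⟨y, hy⟩ ⟨v, hv⟩)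
    · exact fun a ha => congrArg Fin.val (h.aAe ⟨a, ha⟩)
    · exact fun x hx y hy a ha => congrArg Fin.val (h.aAm ⟨x, hx⟩ ⟨y, hy⟩ ⟨a, ha⟩)
    · intro x hx a ha
      refine ⟨congrArg Fin.val (h.oA ⟨x, hx⟩ ⟨a, ha⟩), congrArg Fin.val (h.iA ⟨x, hx⟩ ⟨a, ha⟩), ?_⟩
      intro h1
      exact h.ni ⟨x, hx⟩ ⟨a, ha⟩ (Fin.ext h1)
    · intro x hx y hy
      have h1 : (-1 : ℤ) ^ hS c (hM c x y) = (-1) ^ hS c x * (-1) ^ hS c y :=
        h.epm ⟨x, hx⟩ ⟨y, hy⟩
      rcases h06_S c x with h2 | h2 <;> rcases h06_S c y with h3 | h3 <;>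
        rcases h06_S c (hM c x y) with h4 | h4 <;> rw [h2, h3, h4] at h1 <;>
        rw [h2, h3, h4] <;> first | rfl | (exfalso; norm_num at h1)
    · rw [peq_iff]
      have h1 : iv (hDe c (hE c)) = 0 := h.de0
      rw [h1]
      rfl
    · intro x hx y hy
      rw [← h06_dvd, h06_z]
      exact h.dem ⟨x, hx⟩ ⟨y, hy⟩
  · rintro ⟨⟨h1, h2, h3, h4⟩, ⟨h5, h6, h7, h8⟩, h9, h10, h11⟩
    exact
      { ii := fun a => Fin.ext (h1 a a.2)
        as := fun x y z => Fin.ext (h2 x x.2 y y.2 z z.2)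
        em := fun x => Fin.ext (h3 x x.2).1
        me := fun x => Fin.ext (h3 x x.2).2.1
        iv := fun x => by
          obtain ⟨y, hy, h12, h13⟩ := (h3 x x.2).2.2
          exact ⟨⟨y, hy⟩, Fin.ext h12, Fin.ext h13⟩
        aPe := fun v => Fin.ext (h4 v v.2)
        aPm := fun x y v => Fin.ext (h5 x x.2 y y.2 v v.2)
        aAe := fun a => Fin.ext (h6 a a.2)
        aAm := fun x y a => Fin.ext (h7 x x.2 y y.2 a a.2)
        oA := fun x a => Fin.ext (h8 x x.2 a a.2).1
        iA := fun x a => Fin.ext (h8 x x.2 a a.2).2.1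
        ni := fun x a h => (h8 x x.2 a a.2).2.2 (congrArg Fin.val h)
        ep1 := fun x => by
          show (-1 : ℤ) ^ hS c x = 1 ∨ (-1 : ℤ) ^ hS c x = -1
          rcases h06_S c x with h | h
          · left; rw [h]; rfl
          · right; rw [h]; rfl
        epm := fun x y => by
          show (-1 : ℤ) ^ hS c (hM c x y) = (-1) ^ hS c x * (-1) ^ hS c y
          rw [h9 x x.2 y y.2]
          rcases h06_S c x with h | h <;> rcases h06_S c y with h' | h' <;> rw [h, h'] <;> rfl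
        de0 := by
          rw [peq_iff] at h10
          show iv (hDe c (hE c)) = 0
          rw [h10]
          rfl
        dem := fun x y => by
          have h := h11 x x.2 y y.2
          rw [← h06_dvd, h06_z] at h
          exact h
        R0 := by
          show (0 : ℤ) < ((hR c : ℕ) : ℤ)
          unfold hR
          push_cast
          omega }

theorem h06_nice (c : PCd) : (toPD c).Nice ↔ H06nice c := by
  constructor
  · intro h
    refine ⟨?_, ?_, ?_, ?_⟩
    · intro v hv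
      obtain ⟨a, a', h1, h2, h3⟩ := h.two ⟨v, hv⟩
      exact ⟨a, a.2, a', a'.2, fun h4 => h1 (Fin.ext h4), congrArg Fin.val h2,
        congrArg Fin.val h3⟩
    · obtain ⟨a, a', a'', h1, h2, h3, h4, h5⟩ := h.three
      exact ⟨a, a.2, a', a'.2, a'', a''.2, fun h6 => h1 (Fin.ext h6), fun h6 => h2 (Fin.ext h6),
        fun h6 => h3 (Fin.ext h6), congrArg Fin.val h4, congrArg Fin.val h5⟩
    · intro x hx h1 h2 h3
      exact congrArg Fin.val (h.fai ⟨x, hx⟩ (fun v => Fin.ext (h1 v v.2))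
        (fun a => Fin.ext (h2 a a.2)) (by
          show (-1 : ℤ) ^ hS c x = 1
          rw [h3]
          rfl))
    · intro a ha h1
      obtain ⟨x, hx⟩ := h.red ⟨a, ha⟩ (fun x hx => Fin.ext (h1 x x.2 (congrArg Fin.val hx)))
      exact ⟨x, x.2, congrArg Fin.val hx⟩
  · rintro ⟨h1, h2, h3, h4⟩
    refine ⟨?_, ?_, ?_, ?_⟩
    · intro v
      obtain ⟨a, ha, a', ha', h5, h6, h7⟩ := h1 v v.2
      exact ⟨⟨a, ha⟩, ⟨a', ha'⟩, fun h => h5 (congrArg Fin.val h), Fin.ext h6, Fin.ext h7⟩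
    · obtain ⟨a, ha, a', ha', a'', ha'', h5, h6, h7, h8, h9⟩ := h2
      exact ⟨⟨a, ha⟩, ⟨a', ha'⟩, ⟨a'', ha''⟩, fun h => h5 (congrArg Fin.val h),
        fun h => h6 (congrArg Fin.val h), fun h => h7 (congrArg Fin.val h), Fin.ext h8,
        Fin.ext h9⟩
    · intro x h5 h6 h7
      refine Fin.ext (h3 x x.2 (fun v hv => congrArg Fin.val (h5 ⟨v, hv⟩))
        (fun a ha => congrArg Fin.val (h6 ⟨a, ha⟩)) ?_)
      have h8 : (-1 : ℤ) ^ hS c x = 1 := h7
      rcases h06_S c x with h | h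
      · exact h
      · rw [h] at h8
        norm_num at h8
    · intro a h5
      obtain ⟨x, hx, h6⟩ := h4 a a.2 (fun x hx h7 => congrArg Fin.val (h5 ⟨x, hx⟩ (Fin.ext h7)))
      exact ⟨⟨x, hx⟩, Fin.ext h6⟩

theorem h06_span (c : PCd) : (toPD c).Span 0 (toDl c) (fun v => hRk c v) ↔ H06span c := by
  constructor
  · intro h v hv h0
    obtain ⟨h1, h2⟩ := h ⟨v, hv⟩ (fun h3 => h0 (congrArg Fin.val h3))
    exact ⟨congrArg Fin.val h1, h2⟩
  · intro h v h0
    obtain ⟨h1, h2⟩ := h v v.2 (fun h3 => h0 (Fin.ext h3))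
    exact ⟨Fin.ext h1, h2⟩

section

variable {β : Type} [Primcodable β] {f : β → PCd} {g h : β → ℕ}

theorem h06_pa (hf : Primrec f) : Primrec fun x => pa (f x) := CB.p_fst (CB.p_fst hf)
theorem h06_pb (hf : Primrec f) : Primrec fun x => pb (f x) := CB.p_fst (CB.p_snd (CB.p_fst hf))
theorem h06_pd (hf : Primrec f) : Primrec fun x => pd (f x) := CB.p_snd (CB.p_snd (CB.p_fst hf))

theorem h06_pz (hf : Primrec f) (hg : Primrec g) (hh : Primrec h) :
    Primrec fun x => h06z (f x) (g x) (h x) := by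
  unfold h06z
  have h1 := p_hDe hf hg
  have h2 := p_sg (p_hS hf hg) (p_hDe hf hh)
  exact p_psub (CB.p_pair (CB.p_add (CB.p_fst h1) (CB.p_fst h2))
    (CB.p_add (CB.p_snd h1) (CB.p_snd h2))) (p_hDe hf (p_hM hf hg hh))

end

theorem h06_okp : PrimrecPred fun c : PCd => H06ok c := by
  unfold H06ok
  refine CB.pp_and ?_ (CB.pp_and ?_ ?_)
  · (repeat' (with_reducible first | assumption | exact CB.p_id | exact Primrec.const _ | exact CB.pp_const _ | apply p_hO | apply p_hI | apply p_hM | apply p_hE | apply p_hP | apply p_hA | apply p_hS | apply p_hR | apply p_hDl | apply p_hDe | apply p_hRk | apply h06_pa | apply h06_pb | apply h06_pd | apply h06_pz | apply pp_PEq | apply CB.p_fst | apply CB.p_snd | apply CB.p_pair | apply CB.p_add | apply CB.p_mul | apply CB.p_mod | apply CB.pp_all | apply CB.pp_ex | apply CB.pp_and | apply CB.pp_or | apply CB.pp_not | apply CB.pp_imp | apply CB.pp_lt | apply CB.pp_eq))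
  · (repeat' (with_reducible first | assumption | exact CB.p_id | exact Primrec.const _ | exact CB.pp_const _ | apply p_hO | apply p_hI | apply p_hM | apply p_hE | apply p_hP | apply p_hA | apply p_hS | apply p_hR | apply p_hDl | apply p_hDe | apply p_hRk | apply h06_pa | apply h06_pb | apply h06_pd | apply h06_pz | apply pp_PEq | apply CB.p_fst | apply CB.p_snd | apply CB.p_pair | apply CB.p_add | apply CB.p_mul | apply CB.p_mod | apply CB.pp_all | apply CB.pp_ex | apply CB.pp_and | apply CB.pp_or | apply CB.pp_not | apply CB.pp_imp | apply CB.pp_lt | apply CB.pp_eq))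
  · (repeat' (with_reducible first | assumption | exact CB.p_id | exact Primrec.const _ | exact CB.pp_const _ | apply p_hO | apply p_hI | apply p_hM | apply p_hE | apply p_hP | apply p_hA | apply p_hS | apply p_hR | apply p_hDl | apply p_hDe | apply p_hRk | apply h06_pa | apply h06_pb | apply h06_pd | apply h06_pz | apply pp_PEq | apply CB.p_fst | apply CB.p_snd | apply CB.p_pair | apply CB.p_add | apply CB.p_mul | apply CB.p_mod | apply CB.pp_all | apply CB.pp_ex | apply CB.pp_and | apply CB.pp_or | apply CB.pp_not | apply CB.pp_imp | apply CB.pp_lt | apply CB.pp_eq))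

theorem h06_nicep : PrimrecPred fun c : PCd => H06nice c := by
  unfold H06nice
  (repeat' (with_reducible first | assumption | exact CB.p_id | exact Primrec.const _ | exact CB.pp_const _ | apply p_hO | apply p_hI | apply p_hM | apply p_hE | apply p_hP | apply p_hA | apply p_hS | apply p_hR | apply p_hDl | apply p_hDe | apply p_hRk | apply h06_pa | apply h06_pb | apply h06_pd | apply h06_pz | apply pp_PEq | apply CB.p_fst | apply CB.p_snd | apply CB.p_pair | apply CB.p_add | apply CB.p_mul | apply CB.p_mod | apply CB.pp_all | apply CB.pp_ex | apply CB.pp_and | apply CB.pp_or | apply CB.pp_not | apply CB.pp_imp | apply CB.pp_lt | apply CB.pp_eq))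

theorem h06_spanp : PrimrecPred fun c : PCd => H06span c := by
  unfold H06span
  (repeat' (with_reducible first | assumption | exact CB.p_id | exact Primrec.const _ | exact CB.pp_const _ | apply p_hO | apply p_hI | apply p_hM | apply p_hE | apply p_hP | apply p_hA | apply p_hS | apply p_hR | apply p_hDl | apply p_hDe | apply p_hRk | apply h06_pa | apply h06_pb | apply h06_pd | apply h06_pz | apply pp_PEq | apply CB.p_fst | apply CB.p_snd | apply CB.p_pair | apply CB.p_add | apply CB.p_mul | apply CB.p_mod | apply CB.pp_all | apply CB.pp_ex | apply CB.pp_and | apply CB.pp_or | apply CB.pp_not | apply CB.pp_imp | apply CB.pp_lt | apply CB.pp_eq))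

theorem pval_p : PrimrecPred fun c : PCd => PVal c := by
  have h : (fun c : PCd => PVal c) = fun c => H06ok c ∧ H06nice c ∧ H06span c := by
    funext c
    unfold PVal
    rw [h06_ok, h06_nice, h06_span]
  rw [h]
  exact CB.pp_and h06_okp (CB.pp_and h06_nicep h06_spanp)

end VF
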