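import Pool.Agent.Lib.MP_32d917_al_vf.H05
import Pool.Agent.Lib.MP_32d917_al_adm.C01

/-!
# H07: validity of edges is recursively enumerable

Numerical versions of labels and powers.
-/

set_option autoImplicit false
set_option synthInstance.maxSize 2000

namespace VF

open LatIso LatN AdmIso

/-! ### Numbers -/

def h7V (c : PCd) (e : ECd) : ℕ := e.1.2.2 % (pa c + 1)
def h7G (c : PCd) (e : ECd) (i : ℕ) : ℕ := e.2.1.getD i 0 % (pb c + 1)
def h7X (c : PCd) (e : ECd) : ℕ := e.2.2.1.1.1 % (pd c + 1)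
def h7Y (c : PCd) (e : ECd) : ℕ := e.2.2.1.2.1 % (pd c + 1)
def h7L (e : ECd) : ℕ := e.2.1.length

/-- powers -/
def npw (c : PCd) (x n : ℕ) : ℕ := Nat.rec (hE c) (fun _ r => hM c x r) n

theorem npw_zero (c : PCd) (x : ℕ) : npw c x 0 = hE c := rfl
theorem npw_succ (c : PCd) (x n : ℕ) : npw c x (n + 1) = hM c x (npw c x n) := rfl

/-- labels -/
def nlam (c : PCd) (e : ECd) (i : ℕ) : ℕ :=
  hA c (npw c (h7X c e) (i / h7L e)) (h7G c e (i % h7L e))

/-- reversed labels -/
def nrl (c : PCd) (e : ECd) (z i : ℕ) : ℕ :=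
  hA c (npw c z (i / h7L e)) (hA c z (hI c (h7G c e (h7L e - 1 - i % h7L e))))

/-- vertices of the path -/
def nvt (c : PCd) (e : ECd) (i : ℕ) : ℕ :=
  if i = 0 then h7V c e else hO c (hI c (h7G c e (i - 1)))

/-- the numerical form of `Ok` -/
def H7ok (c : PCd) (e : ECd) : Prop :=
  (¬ h7L e = 0 ∧ (∀ i < h7L e, hO c (h7G c e i) = nvt c e i) ∧
    nvt c e (h7L e) = hP c (h7X c e) (h7V c e) ∧
    (∀ i < 2 * h7L e, i + 1 < 2 * h7L e → ¬ nlam c e (i + 1) = hI c (nlam c e i)) ∧
    hP c (h7Y c e) (h7V c e) = h7V c e ∧ (∀ i < h7L e, hA c (h7Y c e) (h7G c e i) = h7G c e i) ∧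
    hM c (h7X c e) (h7Y c e) = hM c (h7Y c e) (h7X c e) ∧ hS c (h7X c e) = 0 ∧
    hS c (h7Y c e) = 0) ∧
  ∃ m : ℕ, 0 < m ∧ PEq (pmul (m, 0) ((hDe c (h7Y c e)).1 + (pmul e.2.2.1.2.2 (hR c, 0)).1,
    (hDe c (h7Y c e)).2 + (pmul e.2.2.1.2.2 (hR c, 0)).2)) (hR c, 0) ∧
    npw c (h7Y c e) m = hE c

/-- the numerical form of `ESep` -/
def H7sep (c : PCd) (e f : ECd) (k l : ℕ) : Prop :=
  (h7L e = 0 ∨ h7L f = 0) ∨
  (∀ x < pd c + 1, ∀ s < h7L f, (∃ i, ¬ hA c x (nlam c e i) = nlam c f (i + s)) ∨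
    ∃ j, (k = l ∧ s = 0) ∧ x = npw c (h7Y c f) j) ∧
  ∀ x < pd c + 1, ∀ z < pd c + 1, ∀ s < h7L f, (¬ hM c z (h7X c f) = hE c) ∨
    ∃ i, ¬ hA c x (nlam c e i) = nrl c f z (i + s)

/-! ### Comparison -/

theorem h7_S (c : PCd) (x : ℕ) : hS c x = 0 ∨ hS c x = 1 := by
  have h : hS c x < 1 + 1 := CB.dg_lt _ _ _
  omega

/-- the label number `i` -/
def h7g (c : PCd) (e : ECd) (i : ℕ) : Fin (pb c + 1) :=
  ⟨h7G c e i, Nat.mod_lt _ (Nat.succ_pos _)⟩

theorem h7_gam (c : PCd) (e : ECd) : (toE c e).γ = (List.range (h7L e)).map (h7g c e) := by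
  show e.2.1.map (fun x => (⟨x % (pb c + 1), Nat.mod_lt _ (Nat.succ_pos _)⟩ : Fin (pb c + 1))) = _
  apply List.ext_getElem
  · simp [h7L]
  · intro i h1 h2
    have h3 : i < e.2.1.length := by simpa using h1
    rw [List.getElem_map, List.getElem_map, List.getElem_range]
    apply Fin.ext
    show e.2.1[i] % (pb c + 1) = e.2.1.getD i 0 % (pb c + 1)
    rw [List.getD_eq_getElem _ _ h3]

theorem h7_len (c : PCd) (e : ECd) : (toE c e).γ.length = h7L e := by
  rw [h7_gam, List.length_map, List.length_range]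

theorem h7_pw (c : PCd) (x : Fin (pd c + 1)) (n : ℕ) :
    (((toPD c).pw x n : Fin (pd c + 1)) : ℕ) = npw c x n := by
  induction n with
  | zero => rfl
  | succ n ih =>
    unfold PD.pw at ih ⊢
    rw [Function.iterate_succ_apply', npw_succ, ← ih]
    rfl

/-- labels in a general form -/
theorem h7_lamg {P A Q : Type} (X : PD P A Q) (e : EDat P A Q) (n : ℕ) (hn : 0 < n) (G : ℕ → A)
    (hG : e.γ = (List.range n).map G) (i : ℕ) :
    e.lam X i = some (X.aA (X.pw e.xh (i / n)) (G (i % n))) := by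
  unfold EDat.lam
  have h1 : e.γ.length = n := by rw [hG]; simp
  have h2 : i % n < n := Nat.mod_lt _ hn
  rw [h1, hG, List.getElem?_map, List.getElem?_range h2]
  rfl

theorem h7_lam (c : PCd) (e : ECd) (h : 0 < h7L e) (i : ℕ) : ∃ a : Fin (pb c + 1),
    (toE c e).lam (toPD c) i = some a ∧ (a : ℕ) = nlam c e i := by
  refine ⟨_, h7_lamg (toPD c) (toE c e) (h7L e) h (h7g c e) (h7_gam c e) i, ?_⟩
  show hA c ((toPD c).pw (toE c e).xh (i / h7L e) : Fin (pd c + 1)) (h7G c e (i % h7L e)) = _
  rw [h7_pw]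
  rfl

theorem h7_rev (c : PCd) (e : ECd) (h : 0 < h7L e) (z : Fin (pd c + 1)) (i : ℕ) :
    ∃ a : Fin (pb c + 1), ((toE c e).rev (toPD c) z).lam (toPD c) i = some a ∧
      (a : ℕ) = nrl c e z i := by
  have h1 : ((toE c e).rev (toPD c) z).γ = (List.range (h7L e)).map
      (fun j => (toPD c).aA z ((toPD c).i (h7g c e (h7L e - 1 - j)))) := by
    show ((toE c e).γ.reverse.map fun a => (toPD c).aA z ((toPD c).i a)) = _
    rw [h7_gam]
    apply List.ext_getElem
    · simp
    · intro j h2 h3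
      simp
  refine ⟨_, h7_lamg (toPD c) ((toE c e).rev (toPD c) z) (h7L e) h _ h1 i, ?_⟩
  show hA c ((toPD c).pw z (i / h7L e) : Fin (pd c + 1))
    (hA c z (hI c (h7G c e (h7L e - 1 - i % h7L e)))) = _
  rw [h7_pw]
  rfl

/-- paths -/
theorem h7_pth {P A Q : Type} (X : PD P A Q) (G : ℕ → A) (v w : P) (n : ℕ) :
    X.IsPth v ((List.range n).map G) w ↔
      (∀ i < n, X.o (G i) = if i = 0 then v else X.o (X.i (G (i - 1)))) ∧
        (if n = 0 then v else X.o (X.i (G (n - 1)))) = w := by
  induction n generalizing v G with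
  | zero => simp [PD.IsPth]
  | succ n ih =>
    rw [List.range_succ_eq_map, List.map_cons, List.map_map]
    show X.o (G 0) = v ∧ X.IsPth (X.o (X.i (G 0))) ((List.range n).map (G ∘ Nat.succ)) w ↔ _
    rw [ih]
    constructor
    · rintro ⟨h1, h2, h3⟩
      refine ⟨?_, ?_⟩
      · intro i hi
        cases i with
        | zero => simpa using h1
        | succ i =>
          have h4 := h2 i (by omega)
          rw [if_neg (Nat.succ_ne_zero i)]
          by_cases h0 : i = 0
          · subst h0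
            simpa using h4
          · rw [if_neg h0] at h4
            have h5 : (i - 1).succ = i + 1 - 1 := by omega
            show X.o (G (i + 1)) = X.o (X.i (G (i + 1 - 1)))
            rw [← h5]
            exact h4
      · rw [if_neg (Nat.succ_ne_zero n)]
        by_cases h0 : n = 0
        · subst h0
          simpa using h3
        · rw [if_neg h0] at h3
          have h5 : (n - 1).succ = n + 1 - 1 := by omega
          rw [← h5]
          exact h3
    · rintro ⟨h1, h2⟩
      have h3 := h1 0 (Nat.succ_pos n)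
      rw [if_pos rfl] at h3
      refine ⟨h3, ?_, ?_⟩
      · intro i hi
        have h4 := h1 (i + 1) (by omega)
        rw [if_neg (Nat.succ_ne_zero i)] at h4
        by_cases h0 : i = 0
        · subst h0
          rw [if_pos rfl]
          exact h4
        · rw [if_neg h0]
          have h5 : (i - 1).succ = i + 1 - 1 := by omega
          show X.o (G (i + 1)) = X.o (X.i (G (i - 1).succ))
          rw [h5]
          exact h4
      · rw [if_neg (Nat.succ_ne_zero n)] at h2
        by_cases h0 : n = 0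
        · subst h0
          rw [if_pos rfl]
          exact h2
        · rw [if_neg h0]
          have h5 : (n - 1).succ = n + 1 - 1 := by omega
          show X.o (X.i (G (n - 1).succ)) = w
          rw [h5]
          exact h2

theorem h7_pthn (c : PCd) (e : ECd) :
    (toPD c).IsPth (toE c e).v (toE c e).γ ((toPD c).aP (toE c e).xh (toE c e).v) ↔
      (∀ i < h7L e, hO c (h7G c e i) = nvt c e i) ∧
        nvt c e (h7L e) = hP c (h7X c e) (h7V c e) := by
  rw [h7_gam, h7_pth]
  have h1 : ∀ i, (((if i = 0 then (toE c e).v else (toPD c).o ((toPD c).i (h7g c e (i - 1)))) :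
      Fin (pa c + 1)) : ℕ) = nvt c e i := by
    intro i
    unfold nvt
    by_cases h0 : i = 0
    · rw [if_pos h0, if_pos h0]
      rfl
    · rw [if_neg h0, if_neg h0]
      rfl
  constructor
  · rintro ⟨h2, h3⟩
    refine ⟨fun i hi => ?_, ?_⟩
    · rw [← h1 i, ← h2 i hi]
      rfl
    · rw [← h1, h3]
      rfl
  · rintro ⟨h2, h3⟩
    refine ⟨fun i hi => Fin.ext ?_, Fin.ext ?_⟩
    · rw [h1 i, ← h2 i hi]
      rfl
    · rw [h1, h3]
      rfl

theorem h7_ep (c : PCd) (x : Fin (pd c + 1)) : (toPD c).ep x = 1 ↔ hS c x = 0 := by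
  show (-1 : ℤ) ^ hS c x = 1 ↔ _
  rcases h7_S c x with h | h
  · rw [h]
    simp
  · rw [h]
    norm_num

theorem h7_ok (c : PCd) (e : ECd) : (toE c e).Ok (toPD c) ↔ H7ok c e := by
  have hbm : ∀ m : ℕ, ((m : ℤ) * ((toPD c).de (toE c e).y + (toE c e).kb * (toPD c).R) =
      (toPD c).R ↔ PEq (pmul (m, 0) ((hDe c (h7Y c e)).1 + (pmul e.2.2.1.2.2 (hR c, 0)).1,
        (hDe c (h7Y c e)).2 + (pmul e.2.2.1.2.2 (hR c, 0)).2)) (hR c, 0)) := by
    intro m
    rw [peq_iff, iv_pmul]
    have h1 : iv ((m, 0) : PI) = (m : ℤ) := by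
      unfold iv
      simp
    have h2 : iv ((hR c, 0) : PI) = (hR c : ℤ) := by
      unfold iv
      simp
    have h3 : iv ((hDe c (h7Y c e)).1 + (pmul e.2.2.1.2.2 (hR c, 0)).1,
        (hDe c (h7Y c e)).2 + (pmul e.2.2.1.2.2 (hR c, 0)).2) =
        iv (hDe c (h7Y c e)) + iv e.2.2.1.2.2 * (hR c : ℤ) := by
      rw [← h2, ← iv_pmul]
      unfold iv
      push_cast
      ring
    rw [h1, h2, h3]
    rfl
  constructor
  · intro h
    have hL : ¬ h7L e = 0 := by
      intro h0
      apply h.ne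
      rw [h7_gam, h0]
      rfl
    obtain ⟨h1, h2⟩ := (h7_pthn c e).1 h.path
    refine ⟨⟨hL, h1, h2, ?_, congrArg Fin.val h.yv, ?_, congrArg Fin.val h.com,
      (h7_ep c _).1 h.eph, (h7_ep c _).1 h.epy⟩, ?_⟩
    · intro i _ hi
      obtain ⟨a, ha, ha'⟩ := h7_lam c e (by omega) i
      obtain ⟨b, hb, hb'⟩ := h7_lam c e (by omega) (i + 1)
      have h3 := h.red i (by rw [h7_len]; exact hi)
      rw [ha, hb] at h3
      rw [← hb', ← ha']
      intro h4
      exact h3 (congrArg some (Fin.ext h4))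
    · intro i hi
      have h3 : h7g c e i ∈ (toE c e).γ := by
        rw [h7_gam, List.mem_map]
        exact ⟨i, List.mem_range.2 hi, rfl⟩
      exact congrArg Fin.val (h.yg _ h3)
    · obtain ⟨m, h3, h4, h5⟩ := h.bm
      refine ⟨m, h3, (hbm m).1 h4, ?_⟩
      exact (h7_pw c (toE c e).y m).symm.trans (congrArg Fin.val h5)
  · rintro ⟨⟨hL, h1, h2, h3, h4, h5, h6, h7, h8⟩, m, h9, h10, h11⟩
    exact
      { ne := by
          intro h0
          apply hL
          rw [← h7_len c e, h0]
          rfl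
        path := (h7_pthn c e).2 ⟨h1, h2⟩
        red := by
          intro i hi
          rw [h7_len] at hi
          obtain ⟨a, ha, ha'⟩ := h7_lam c e (by omega) i
          obtain ⟨b, hb, hb'⟩ := h7_lam c e (by omega) (i + 1)
          rw [ha, hb]
          intro h12
          apply h3 i (by omega) hi
          rw [← hb', ← ha']
          exact congrArg Fin.val (Option.some.inj h12)
        yv := Fin.ext h4
        yg := by
          intro a ha
          rw [h7_gam, List.mem_map] at ha
          obtain ⟨i, hi, rfl⟩ := ha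
          exact Fin.ext (h5 i (List.mem_range.1 hi))
        com := Fin.ext h6
        eph := (h7_ep c _).2 h7
        epy := (h7_ep c _).2 h8
        bm := ⟨m, h9, (hbm m).2 h10, Fin.ext ((h7_pw c (toE c e).y m).trans h11)⟩ }

theorem h7_sep (c : PCd) (e f : ECd) (k l : ℕ) :
    ESep (toPD c) (k = l) (toE c e) (toE c f) ↔ H7sep c e f k l := by
  constructor
  · intro h
    by_cases he : h7L e = 0
    · exact Or.inl (Or.inl he)
    by_cases hf : h7L f = 0
    · exact Or.inl (Or.inr hf)
    refine Or.inr ⟨?_, ?_⟩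
    · intro x hx s hs
      by_cases h1 : ∃ i, ¬ hA c x (nlam c e i) = nlam c f (i + s)
      · exact Or.inl h1
      right
      push Not at h1
      obtain ⟨h2, h3, j, h4⟩ := h.pos ⟨x, hx⟩ s (by rw [h7_len]; exact hs) (by
        intro i
        obtain ⟨a, ha, ha'⟩ := h7_lam c e (by omega) i
        obtain ⟨b, hb, hb'⟩ := h7_lam c f (by omega) (i + s)
        rw [ha, hb]
        refine congrArg some (Fin.ext ?_)
        show hA c x a = b
        rw [ha', hb']
        exact h1 i)
      exact ⟨j, ⟨h2, h3⟩, (congrArg Fin.val h4).trans (h7_pw c (toE c f).y j)⟩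
    · intro x hx z hz s hs
      by_cases h1 : hM c z (h7X c f) = hE c
      · right
        obtain ⟨i, hi⟩ := h.neg ⟨x, hx⟩ ⟨z, hz⟩ s (by rw [h7_len]; exact hs) (Fin.ext h1)
        obtain ⟨a, ha, ha'⟩ := h7_lam c e (by omega) i
        obtain ⟨b, hb, hb'⟩ := h7_rev c f (by omega) ⟨z, hz⟩ (i + s)
        rw [ha, hb] at hi
        refine ⟨i, fun h2 => hi (congrArg some (Fin.ext ?_))⟩
        show hA c x a = b
        rw [ha', hb']
        exact h2
      · exact Or.inl h1
  · intro h
    by_cases hf : h7L f = 0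
    · refine ⟨fun x s hs => ?_, fun x z s hs => ?_⟩
      · rw [h7_len, hf] at hs
        exact absurd hs (Nat.not_lt_zero _)
      · rw [h7_len, hf] at hs
        exact absurd hs (Nat.not_lt_zero _)
    by_cases he : h7L e = 0
    · have hn : ∀ i, (toE c e).lam (toPD c) i = none := by
        intro i
        unfold EDat.lam
        have : (toE c e).γ = [] := by
          rw [h7_gam, he]
          rfl
        rw [this]
        rfl
      refine ⟨fun x s hs h1 => ?_, fun x z s hs _ => ?_⟩
      · obtain ⟨b, hb, -⟩ := h7_lam c f (by omega) (0 + s)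
        have := h1 0
        rw [hn, hb] at this
        exact absurd this (by simp)
      · obtain ⟨b, hb, -⟩ := h7_rev c f (by omega) z (0 + s)
        refine ⟨0, ?_⟩
        rw [hn, hb]
        simp
    rcases h with (h | h) | ⟨hpos, hneg⟩
    · exact absurd h he
    · exact absurd h hf
    refine ⟨fun x s hs h1 => ?_, fun x z s hs hz => ?_⟩
    · rw [h7_len] at hs
      rcases hpos x x.2 s hs with ⟨i, hi⟩ | ⟨j, ⟨h2, h3⟩, h4⟩
      · exfalso
        apply hi
        obtain ⟨a, ha, ha'⟩ := h7_lam c e (by omega) i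
        obtain ⟨b, hb, hb'⟩ := h7_lam c f (by omega) (i + s)
        have h5 := h1 i
        rw [ha, hb] at h5
        rw [← ha', ← hb']
        exact congrArg Fin.val (Option.some.inj h5)
      · exact ⟨h2, h3, j, Fin.ext (h4.trans (h7_pw c (toE c f).y j).symm)⟩
    · rw [h7_len] at hs
      rcases hneg x x.2 z z.2 s hs with h2 | ⟨i, hi⟩
      · exact absurd (congrArg Fin.val hz) h2
      · refine ⟨i, ?_⟩
        obtain ⟨a, ha, ha'⟩ := h7_lam c e (by omega) i
        obtain ⟨b, hb, hb'⟩ := h7_rev c f (by omega) z (i + s)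
        rw [ha, hb]
        intro h5
        apply hi
        rw [← ha', ← hb']
        exact congrArg Fin.val (Option.some.inj h5)

/-! ### Computability -/

section

variable {β : Type} [Primcodable β] {f : β → PCd} {e : β → ECd} {g h : β → ℕ}

theorem h7_pa (hf : Primrec f) : Primrec fun x => pa (f x) := CB.p_fst (CB.p_fst hf)
theorem h7_pb (hf : Primrec f) : Primrec fun x => pb (f x) := CB.p_fst (CB.p_snd (CB.p_fst hf))
theorem h7_pd (hf : Primrec f) : Primrec fun x => pd (f x) := CB.p_snd (CB.p_snd (CB.p_fst hf))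

theorem h7_pV (hf : Primrec f) (he : Primrec e) : Primrec fun x => h7V (f x) (e x) :=
  CB.p_mod (CB.p_snd (CB.p_snd (CB.p_fst he))) (CB.p_add (h7_pa hf) (Primrec.const 1))

theorem h7_pG (hf : Primrec f) (he : Primrec e) (hg : Primrec g) :
    Primrec fun x => h7G (f x) (e x) (g x) :=
  CB.p_mod (C05_getD 0 (CB.p_fst (CB.p_snd he)) hg) (CB.p_add (h7_pb hf) (Primrec.const 1))

theorem h7_pX (hf : Primrec f) (he : Primrec e) : Primrec fun x => h7X (f x) (e x) :=
  CB.p_mod (CB.p_fst (CB.p_fst (CB.p_fst (CB.p_snd (CB.p_snd he)))))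
    (CB.p_add (h7_pd hf) (Primrec.const 1))

theorem h7_pY (hf : Primrec f) (he : Primrec e) : Primrec fun x => h7Y (f x) (e x) :=
  CB.p_mod (CB.p_fst (CB.p_snd (CB.p_fst (CB.p_snd (CB.p_snd he)))))
    (CB.p_add (h7_pd hf) (Primrec.const 1))

theorem h7_pKb (he : Primrec e) : Primrec fun x => (e x).2.2.1.2.2 :=
  CB.p_snd (CB.p_snd (CB.p_fst (CB.p_snd (CB.p_snd he))))

theorem h7_pL (he : Primrec e) : Primrec fun x => h7L (e x) :=
  Primrec.list_length.comp (CB.p_fst (CB.p_snd he))

theorem h7_pnpw (hf : Primrec f) (hg : Primrec g) (hh : Primrec h) :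
    Primrec fun x => npw (f x) (g x) (h x) := by
  have h1 : Primrec₂ fun (x : β) (y : ℕ × ℕ) => hM (f x) (g x) y.2 := by
    have h2 : Primrec fun z : β × (ℕ × ℕ) => z.1 := Primrec.fst
    exact p_hM (hf.comp h2) (hg.comp h2) (CB.p_snd (CB.p_snd CB.p_id))
  exact Primrec.nat_rec' hh (p_hE hf) h1

theorem h7_pnlam (hf : Primrec f) (he : Primrec e) (hg : Primrec g) :
    Primrec fun x => nlam (f x) (e x) (g x) := by
  unfold nlam
  exact p_hA hf (h7_pnpw hf (h7_pX hf he) (CB.p_div hg (h7_pL he)))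
    (h7_pG hf he (CB.p_mod hg (h7_pL he)))

theorem h7_pnrl (hf : Primrec f) (he : Primrec e) (hg : Primrec g) (hh : Primrec h) :
    Primrec fun x => nrl (f x) (e x) (g x) (h x) := by
  unfold nrl
  exact p_hA hf (h7_pnpw hf hg (CB.p_div hh (h7_pL he)))
    (p_hA hf hg (p_hI hf (h7_pG hf he (CB.p_sub (CB.p_sub (h7_pL he) (Primrec.const 1))
      (CB.p_mod hh (h7_pL he))))))

theorem h7_pnvt (hf : Primrec f) (he : Primrec e) (hg : Primrec g) :
    Primrec fun x => nvt (f x) (e x) (g x) := by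
  unfold nvt
  exact Primrec.ite (CB.pp_eq hg (Primrec.const 0)) (h7_pV hf he)
    (p_hO hf (p_hI hf (h7_pG hf he (CB.p_sub hg (Primrec.const 1)))))

end

theorem eok_re : REPred fun x : PCd × ECd => (toE x.1 x.2).Ok (toPD x.1) := by
  have h : (fun x : PCd × ECd => (toE x.1 x.2).Ok (toPD x.1)) = fun x => H7ok x.1 x.2 := by
    funext x
    exact propext (h7_ok x.1 x.2)
  rw [h]
  unfold H7ok
  refine re_and (re_of_prim ?_) (re_exists (re_of_prim ?_))
  · (repeat' (with_reducible first | assumption | exact CB.p_id | exact Primrec.const _ | exact CB.pp_const _ | apply p_hO | apply p_hI | apply p_hM | apply p_hE | apply p_hP | apply p_hA | apply p_hS | apply p_hR | apply p_hDe | apply h7_pa | apply h7_pb | apply h7_pd | apply h7_pnlam | apply h7_pnrl | apply h7_pnvt | apply h7_pnpw | apply h7_pV | apply h7_pG | apply h7_pX | apply h7_pY | apply h7_pL | apply pp_PEq | apply CB.p_fst | apply CB.p_snd | apply CB.p_pair | apply CB.p_add | apply CB.p_mul | apply CB.p_mod | apply CB.pp_all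 | apply CB.pp_ex | apply CB.pp_and | apply CB.pp_or | apply CB.pp_not | apply CB.pp_imp | apply CB.pp_lt | apply CB.pp_eq))
  · (repeat' (with_reducible first | assumption | exact CB.p_id | exact Primrec.const _ | exact CB.pp_const _ | apply p_hO | apply p_hI | apply p_hM | apply p_hE | apply p_hP | apply p_hA | apply p_hS | apply p_hR | apply p_hDe | apply h7_pa | apply h7_pb | apply h7_pd | apply h7_pnlam | apply h7_pnrl | apply h7_pnvt | apply h7_pnpw | apply h7_pV | apply h7_pG | apply h7_pX | apply h7_pY | apply h7_pL | apply p_pmul | apply h7_pKb | apply pp_PEq | apply CB.p_fst | apply CB.p_snd | apply CB.p_pair | apply CB.p_add | apply CB.p_mul | apply CB.p_mod | apply CB.pp_all | apply CB.pp_ex | apply CB.pp_and | apply CB.pp_or | apply CB.pp_not | apply CB.pp_imp | apply CB.pp_lt | apply CB.pp_eq))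

theorem esep_re : REPred fun x : (PCd × (ECd × ECd)) × (ℕ × ℕ) =>
    ESep (toPD x.1.1) (x.2.1 = x.2.2) (toE x.1.1 x.1.2.1) (toE x.1.1 x.1.2.2) := by
  have h : (fun x : (PCd × (ECd × ECd)) × (ℕ × ℕ) =>
      ESep (toPD x.1.1) (x.2.1 = x.2.2) (toE x.1.1 x.1.2.1) (toE x.1.1 x.1.2.2)) =
      fun x => H7sep x.1.1 x.1.2.1 x.1.2.2 x.2.1 x.2.2 := by
    funext x
    exact propext (h7_sep _ _ _ _ _)
  rw [h]
  unfold H7sep
  refine re_or (re_of_prim ?_) (re_and ?_ ?_)
  · (repeat' (with_reducible first | assumption | exact CB.p_id | exact Primrec.const _ | exact CB.pp_const _ | apply h7_pL | apply CB.p_fst | apply CB.p_snd | apply CB.pp_or | apply CB.pp_eq))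
  · refine re_forall_lt (CB.p_add (h7_pd (CB.p_fst (CB.p_fst CB.p_id))) (Primrec.const 1)) ?_
    refine re_forall_lt (h7_pL (CB.p_snd (CB.p_snd (CB.p_fst (CB.p_fst CB.p_id))))) ?_
    refine re_or (re_exists (re_of_prim ?_)) (re_exists (re_of_prim ?_))
    · (repeat' (with_reducible first | assumption | exact CB.p_id | exact Primrec.const _ | exact CB.pp_const _ | apply p_hA | apply h7_pnlam | apply CB.p_fst | apply CB.p_snd | apply CB.p_add | apply CB.pp_not | apply CB.pp_eq))
    · (repeat' (with_reducible first | assumption | exact CB.p_id | exact Primrec.const _ | exact CB.pp_const _ | apply h7_pnpw | apply h7_pY | apply CB.p_fst | apply CB.p_snd | apply CB.p_add | apply CB.pp_and | apply CB.pp_not | apply CB.pp_eq))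
  · refine re_forall_lt (CB.p_add (h7_pd (CB.p_fst (CB.p_fst CB.p_id))) (Primrec.const 1)) ?_
    refine re_forall_lt (CB.p_add (h7_pd (CB.p_fst (CB.p_fst (CB.p_fst CB.p_id))))
      (Primrec.const 1)) ?_
    refine re_forall_lt (h7_pL (CB.p_snd (CB.p_snd (CB.p_fst (CB.p_fst (CB.p_fst CB.p_id)))))) ?_
    refine re_or (re_of_prim ?_) (re_exists (re_of_prim ?_))
    · (repeat' (with_reducible first | assumption | exact CB.p_id | exact Primrec.const _ | exact CB.pp_const _ | apply p_hM | apply p_hE | apply h7_pX | apply CB.p_fst | apply CB.p_snd | apply CB.p_add | apply CB.pp_not | apply CB.pp_eq))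
    · (repeat' (with_reducible first | assumption | exact CB.p_id | exact Primrec.const _ | exact CB.pp_const _ | apply p_hA | apply h7_pnlam | apply h7_pnrl | apply CB.p_fst | apply CB.p_snd | apply CB.p_add | apply CB.pp_not | apply CB.pp_eq))

end VF
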