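import Pool.Agent.Lib.MP_32d917_al_vf.F03
import Pool.Agent.Lib.MP_32d917_al_vf.G08
import Pool.Agent.Lib.MP_32d917_al_vf.H06
import Pool.Agent.Lib.MP_32d917_al_vf.H07

/-!
# F05: computability, assembly

`cval_re`: `re_forall_lt`, `re_and`, `pval_p`, `eok_re`, `esep_re`; the fields of `CVal` as a conjunction. `matN_p`, `tauE_p`: bounded quantifiers, as `matN_p` in
adm/C10. `inst`, `bdN`: primitive recursive. `nGood_re`: `re_or`, `re_exists`, `npp_re`. `InB`: bounded quantifiers over five numbers (`noGood_re` in adm/C10).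
-/

set_option autoImplicit false
set_option synthInstance.maxSize 2000

namespace VF

open LatIso LatN AdmIso

section

variable {β γ δ : Type} [Primcodable β] [Primcodable γ] [Primcodable δ]

private theorem f05_map {f : β → List γ} {g : β → γ → δ} (hf : Primrec f)
    (hg : Primrec fun x : β × γ => g x.1 x.2) : Primrec fun x => (f x).map fun y => g x y :=
  Primrec.list_map hf hg

private theorem f05_flatMap {f : β → List γ} {g : β → γ → List δ} (hf : Primrec f)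
    (hg : Primrec fun x : β × γ => g x.1 x.2) : Primrec fun x => (f x).flatMap fun y => g x y :=
  Primrec.list_flatMap hf hg

private theorem f05_ite {p : β → Prop} [DecidablePred p] {f g : β → γ} (hp : PrimrecPred p)
    (hf : Primrec f) (hg : Primrec g) : Primrec fun x => if p x then f x else g x :=
  Primrec.ite hp hf hg

private theorem f05_range {f : β → ℕ} (hf : Primrec f) : Primrec fun x => List.range (f x) :=
  Primrec.list_range.comp hf

private theorem f05_sum {l : β → List ℕ} (hl : Primrec l) : Primrec fun x => (l x).sum := by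
  have h : Primrec fun x => (l x).foldr (fun a s => a + s) 0 :=
    Primrec.list_foldr hl (Primrec.const 0)
      (Primrec.nat_add.comp (Primrec.fst.comp Primrec.snd) (Primrec.snd.comp Primrec.snd)).to₂
  refine h.of_eq ?_
  intro x
  rfl

variable {c c' : β → Cd} {t : β → Mt} {g h : β → ℕ}

private theorem f05_totl (hc : Primrec c) : Primrec fun x => totl (c x) := by
  have h1 : Primrec fun x => ((List.range (nE (c x) + 1)).map
      fun e => (ecd (c x) e).2.1.length).sum := by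
    refine f05_sum (f05_map (f05_range (CB.p_add (p_nE hc) (Primrec.const 1))) ?_)
    exact Primrec.list_length.comp (CB.p_fst (CB.p_snd (p_ecd (hc.comp Primrec.fst)
      Primrec.snd)))
  refine h1.of_eq ?_
  intro x
  unfold totl
  rw [Finset.sum_range, ← List.sum_ofFn]
  congr 1
  rw [List.ofFn_eq_map, ← List.map_coe_finRange_eq_range, List.map_map]
  rfl

private theorem f05_msp (hc : Primrec c) (ht : Primrec t) (hg : Primrec g) :
    Primrec fun x => msp (c x) (t x) (g x) := by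
  unfold msp
  exact CB.p_dg (p_nP hc) (CB.p_fst ht) hg

private theorem f05_msf (hc : Primrec c) (ht : Primrec t) (hg : Primrec g) :
    Primrec fun x => msf (c x) (t x) (g x) := by
  unfold msf
  exact CB.p_dg (p_nQ hc) (CB.p_fst (CB.p_snd ht)) hg

private theorem f05_mse (hc : Primrec c) (ht : Primrec t) (hg : Primrec g) :
    Primrec fun x => mse (c x) (t x) (g x) := by
  unfold mse
  exact CB.p_dg (p_nE hc) (CB.p_fst (CB.p_snd (CB.p_snd ht))) hg

private theorem f05_msg (ht : Primrec t) (hg : Primrec g) : Primrec fun x => msg (t x) (g x) := by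
  unfold msg
  exact CB.p_dg (Primrec.const 1) (CB.p_fst (CB.p_snd (CB.p_snd (CB.p_snd ht)))) hg

private theorem f05_mde (ht : Primrec t) (hg : Primrec g) : Primrec fun x => mde (t x) (g x) := by
  unfold mde
  exact CB.p_dg (Primrec.const 1) (CB.p_snd (CB.p_snd (CB.p_snd (CB.p_snd ht)))) hg

private theorem f05_rhs (hc : Primrec c) (hc' : Primrec c') (ht : Primrec t) (hg : Primrec g)
    (hh : Primrec h) : Primrec fun x => rhs (c x) (c' x) (t x) (g x) (h x) := by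
  unfold rhs
  exact p_psub (p_sg (f05_msg ht hg) (p_pdt (p_kom hc hg) (p_kze hc hh)))
    (p_sg (f05_msg ht hh) (p_pdt (p_kom hc' (f05_mse hc ht hg)) (p_kze hc' (f05_mse hc ht hh))))

private theorem f05_tauE {u : β → PI} (hc : Primrec c) (hc' : Primrec c') (ht : Primrec t)
    (hg : Primrec g) (hu : Primrec u) :
    PrimrecPred fun x => TauE (c x) (c' x) (t x) (g x) (u x) := by
  unfold TauE
  have f1 : Primrec (Prod.fst : β × ℕ → β) := Primrec.fst
  have hs : Primrec (Prod.snd : β × ℕ → ℕ) := Primrec.snd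
  have hc1 := hc.comp f1
  have hc1' := hc'.comp f1
  have ht1 := ht.comp f1
  have hg1 := hg.comp f1
  have hu1 := hu.comp f1
  refine CB.pp_all (p := fun x f => kfl (c x) (g x) = kfl (c x) f → ¬ g x = f →
    PEq (pmul (pdt (kze (c x) (g x)) (kze (c x) f)) (u x)) (rhs (c x) (c' x) (t x) (g x) f))
    (CB.p_add (p_nE hc) (Primrec.const 1)) ?_
  refine CB.pp_imp (CB.pp_eq (p_kfl hc1 hg1) (p_kfl hc1 hs)) ?_
  refine CB.pp_imp (CB.pp_not (CB.pp_eq hg1 hs)) ?_
  exact pp_PEq (p_pmul (p_pdt (p_kze hc1 hg1) (p_kze hc1 hs)) hu1) (f05_rhs hc1 hc1' ht1 hg1 hs)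

end

theorem f05_cval (c : Cd) : CVal c ↔
    ((∀ p < nP c + 1, PVal (pcd c p)) ∧
    (∀ e < nE c + 1, PEq (pdt (kom c e) (kze c e)) (1, 0)) ∧
    (∀ e < nE c + 1, ∀ f < nE c + 1, ¬ e = f → kfl c e = kfl c f →
      ¬ PEq (pdt (kze c e) (kze c f)) (0, 0)) ∧
    (∀ q < nQ c + 1, ∃ e < nE c + 1, ∃ f < nE c + 1, ¬ e = f ∧ kfl c e = q ∧ kfl c f = q) ∧
    (∀ p < nP c + 1, ¬ p = kp0 c → kpc c (kep c p) = p ∧ krq c (kfl c (kep c p)) < krp c p) ∧
    (∀ q < nQ c + 1, kfl c (kef c q) = q ∧ krp c (kpc c (kef c q)) < krq c q)) ∧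
    (∀ e < nE c + 1, (toE (pcd c (kpc c e)) (ecd c e)).Ok (toPD (pcd c (kpc c e)))) ∧
    (∀ e < nE c + 1, ∀ f < nE c + 1, kpc c e = kpc c f →
      ESep (toPD (pcd c (kpc c e))) (e = f) (toE (pcd c (kpc c e)) (ecd c e))
        (toE (pcd c (kpc c e)) (ecd c f))) := by
  constructor
  · intro h
    exact ⟨⟨h.pc, h.det, h.ind, h.two, h.trp, h.trq⟩, h.ed, h.sep⟩
  · rintro ⟨⟨h1, h2, h3, h4, h5, h6⟩, h7, h8⟩
    exact ⟨h1, h7, h8, h2, h3, h4, h5, h6⟩

private theorem f05_pv {β : Type} [Primcodable β] {f : β → PCd} (hf : Primrec f) :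
    PrimrecPred fun x => PVal (f x) := pval_p.comp hf

private theorem f05_prim : PrimrecPred fun c : Cd =>
    ((∀ p < nP c + 1, PVal (pcd c p)) ∧
    (∀ e < nE c + 1, PEq (pdt (kom c e) (kze c e)) (1, 0)) ∧
    (∀ e < nE c + 1, ∀ f < nE c + 1, ¬ e = f → kfl c e = kfl c f →
      ¬ PEq (pdt (kze c e) (kze c f)) (0, 0)) ∧
    (∀ q < nQ c + 1, ∃ e < nE c + 1, ∃ f < nE c + 1, ¬ e = f ∧ kfl c e = q ∧ kfl c f = q) ∧
    (∀ p < nP c + 1, ¬ p = kp0 c → kpc c (kep c p) = p ∧ krq c (kfl c (kep c p)) < krp c p) ∧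
    (∀ q < nQ c + 1, kfl c (kef c q) = q ∧ krp c (kpc c (kef c q)) < krq c q)) := by
  (repeat' (with_reducible first | assumption | exact CB.p_id | exact Primrec.const _ | exact CB.pp_const _ | apply f05_pv | apply p_nP | apply p_nQ | apply p_nE | apply p_pcd | apply p_ecd | apply p_kpc | apply p_kfl | apply p_kze | apply p_kom | apply p_kp0 | apply p_kep | apply p_kef | apply p_krp | apply p_krq | apply p_pdt | apply pp_PEq | apply CB.p_fst | apply CB.p_snd | apply CB.p_pair | apply CB.p_add | apply CB.pp_all | apply CB.pp_ex | apply CB.pp_and | apply CB.pp_or | apply CB.pp_not | apply CB.pp_imp | apply CB.pp_eq | apply CB.pp_lt))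

private theorem f05_ed : REPred fun c : Cd =>
    ∀ e < nE c + 1, (toE (pcd c (kpc c e)) (ecd c e)).Ok (toPD (pcd c (kpc c e))) := by
  refine re_forall_lt (p := fun (c : Cd) (e : ℕ) =>
    (toE (pcd c (kpc c e)) (ecd c e)).Ok (toPD (pcd c (kpc c e))))
    (CB.p_add (p_nE CB.p_id) (Primrec.const 1)) ?_
  have hf : Primrec fun x : Cd × ℕ => ((pcd x.1 (kpc x.1 x.2), ecd x.1 x.2) : PCd × ECd) :=
    CB.p_pair (p_pcd (CB.p_fst CB.p_id) (p_kpc (CB.p_fst CB.p_id) (CB.p_snd CB.p_id)))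
      (p_ecd (CB.p_fst CB.p_id) (CB.p_snd CB.p_id))
  exact re_comp (p := fun y : PCd × ECd => (toE y.1 y.2).Ok (toPD y.1))
    (f := fun x : Cd × ℕ => ((pcd x.1 (kpc x.1 x.2), ecd x.1 x.2) : PCd × ECd)) eok_re hf.to_comp

private theorem f05_sep : REPred fun c : Cd =>
    ∀ e < nE c + 1, ∀ f < nE c + 1, kpc c e = kpc c f →
      ESep (toPD (pcd c (kpc c e))) (e = f) (toE (pcd c (kpc c e)) (ecd c e))
        (toE (pcd c (kpc c e)) (ecd c f)) := by
  refine re_forall_lt (p := fun (c : Cd) (e : ℕ) => ∀ f < nE c + 1, kpc c e = kpc c f →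
      ESep (toPD (pcd c (kpc c e))) (e = f) (toE (pcd c (kpc c e)) (ecd c e))
        (toE (pcd c (kpc c e)) (ecd c f)))
    (CB.p_add (p_nE CB.p_id) (Primrec.const 1)) ?_
  refine re_forall_lt (p := fun (x : Cd × ℕ) (f : ℕ) => kpc x.1 x.2 = kpc x.1 f →
      ESep (toPD (pcd x.1 (kpc x.1 x.2))) (x.2 = f) (toE (pcd x.1 (kpc x.1 x.2)) (ecd x.1 x.2))
        (toE (pcd x.1 (kpc x.1 x.2)) (ecd x.1 f)))
    (CB.p_add (p_nE (CB.p_fst CB.p_id)) (Primrec.const 1)) ?_
  have q1 : Primrec fun x : (Cd × ℕ) × ℕ => x.1.1 := CB.p_fst (CB.p_fst CB.p_id)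
  have q2 : Primrec fun x : (Cd × ℕ) × ℕ => x.1.2 := CB.p_snd (CB.p_fst CB.p_id)
  have q3 : Primrec fun x : (Cd × ℕ) × ℕ => x.2 := CB.p_snd CB.p_id
  have hf : Primrec fun x : (Cd × ℕ) × ℕ =>
      (((pcd x.1.1 (kpc x.1.1 x.1.2), (ecd x.1.1 x.1.2, ecd x.1.1 x.2)), (x.1.2, x.2)) :
        (PCd × (ECd × ECd)) × (ℕ × ℕ)) :=
    CB.p_pair (CB.p_pair (p_pcd q1 (p_kpc q1 q2)) (CB.p_pair (p_ecd q1 q2) (p_ecd q1 q3)))
      (CB.p_pair q2 q3)
  have h1 := re_comp esep_re hf.to_comp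
  have h2 : REPred fun x : (Cd × ℕ) × ℕ => ¬ kpc x.1.1 x.1.2 = kpc x.1.1 x.2 :=
    re_of_prim (CB.pp_not (CB.pp_eq (p_kpc q1 q2) (p_kpc q1 q3)))
  refine (re_or h2 h1).of_eq ?_
  intro x
  constructor
  · rintro (h | h) hk
    · exact absurd hk h
    · exact h
  · intro h
    by_cases hk : kpc x.1.1 x.1.2 = kpc x.1.1 x.2
    · exact Or.inr (h hk)
    · exact Or.inl hk

theorem cval_re : REPred fun c : Cd => CVal c :=
  (re_and (re_of_prim f05_prim) (re_and f05_ed f05_sep)).of_eq fun c => (f05_cval c).symm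

theorem f05_matN : PrimrecPred fun x : (Cd × Cd) × Mt => MatN x.1.1 x.1.2 x.2 := by
  unfold MatN
  (repeat' (with_reducible first | assumption | exact CB.p_id | exact Primrec.const _ | exact CB.pp_const _ | apply f05_tauE | apply f05_rhs | apply f05_msp | apply f05_msf | apply f05_mse | apply f05_msg | apply f05_mde | apply p_nP | apply p_nQ | apply p_nE | apply p_kpc | apply p_kfl | apply p_kze | apply p_kom | apply p_sg | apply p_pdt | apply pp_PEq | apply CB.p_fst | apply CB.p_snd | apply CB.p_pair | apply CB.p_add | apply CB.pp_all | apply CB.pp_ex | apply CB.pp_and | apply CB.pp_or | apply CB.pp_not | apply CB.pp_imp | apply CB.pp_eq | apply CB.pp_lt))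

section

variable {β : Type} [Primcodable β] {c c' : β → Cd} {t : β → Mt} {g : β → ℕ}

private theorem f05_gP {f : β → List PI} (hf : Primrec f) (hg : Primrec g) :
    Primrec fun x => (f x).getD (g x) ((0, 0) : PI) := C05_getD ((0, 0) : PI) hf hg

private theorem f05_len {γ : Type} [Primcodable γ] {l : β → List γ} (hl : Primrec l) :
    Primrec fun x => (l x).length := Primrec.list_length.comp hl

private theorem f05_app {γ : Type} [Primcodable γ] {l m : β → List γ} (hl : Primrec l)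
    (hm : Primrec m) : Primrec fun x => l x ++ m x := Primrec.list_append.comp hl hm

private theorem f05_sing {γ : Type} [Primcodable γ] {f : β → γ} (hf : Primrec f) :
    Primrec fun x => [f x] := Primrec.list_cons.comp hf (Primrec.const [])

private theorem f05_bd (hc : Primrec c) (hc' : Primrec c') (ht : Primrec t) (hg : Primrec g) :
    Primrec fun x => bdN (c x) (c' x) (t x) (g x) := by
  have h1 : Primrec fun x => pa (pcd (c x) (g x)) := CB.p_fst (CB.p_fst (p_pcd hc hg))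
  have h2 : Primrec fun x => pb (pcd (c x) (g x)) :=
    CB.p_fst (CB.p_snd (CB.p_fst (p_pcd hc hg)))
  have h3 : Primrec fun x => pa (pcd (c' x) (msp (c x) (t x) (g x))) :=
    CB.p_fst (CB.p_fst (p_pcd hc' (f05_msp hc ht hg)))
  have h4 : Primrec fun x => totl (c x) + totl (c' x) := CB.p_add (f05_totl hc) (f05_totl hc')
  have h5 : Primrec fun x => pa (pcd (c x) (g x)) + 1 := CB.p_add h1 (Primrec.const 1)
  have h6 : Primrec fun x => pb (pcd (c x) (g x)) + 1 := CB.p_add h2 (Primrec.const 1)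
  have h7 : Primrec fun x => pb (pcd (c x) (g x)) + 2 := CB.p_add h2 (Primrec.const 2)
  have h8 : Primrec fun x => nE (c x) + 1 := CB.p_add (p_nE hc) (Primrec.const 1)
  have h9 : Primrec fun x => 4 * (pa (pcd (c x) (g x)) + pa (pcd (c' x) (msp (c x) (t x) (g x))) +
      (totl (c x) + totl (c' x))) :=
    CB.p_mul (Primrec.const 4) (CB.p_add (CB.p_add h1 h3) h4)
  have h10 : Primrec fun x => (pa (pcd (c x) (g x)) + 1) ^ (pb (pcd (c x) (g x)) + 1) *
      (pb (pcd (c x) (g x)) + 1) ^ (pb (pcd (c x) (g x)) + 1) *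
      ((pa (pcd (c x) (g x)) + 1) * (pb (pcd (c x) (g x)) + 2) ^ (totl (c x) + totl (c' x))) ^
        (nE (c x) + 1) :=
    CB.p_mul (CB.p_mul (CB.p_pow h5 h6) (CB.p_pow h6 h6))
      (CB.p_pow (CB.p_mul h5 (CB.p_pow h7 h4)) h8)
  unfold bdN
  exact CB.p_add (CB.p_add (CB.p_add (CB.p_mul (CB.p_pow (Primrec.const 3) h10)
    (CB.p_add h9 (Primrec.const 4))) h9) (Primrec.const 4)) (Primrec.const 1)

private theorem f05_inst {ta : β → List PI} (hc : Primrec c) (hc' : Primrec c') (ht : Primrec t)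
    (hta : Primrec ta) (hg : Primrec g) :
    Primrec fun x => inst (c x) (c' x) (t x) (ta x) (g x) := by
  have f1 : Primrec (Prod.fst : β × ℕ → β) := Primrec.fst
  have hs : Primrec (Prod.snd : β × ℕ → ℕ) := Primrec.snd
  have k1 := hc.comp f1
  have k2 := hc'.comp f1
  have k3 := ht.comp f1
  have k4 := hta.comp f1
  have k5 := hg.comp f1
  have m1 := f05_mse k1 k3 hs
  have m2 := f05_msp k1 k3 k5
  have m3 := f05_msg k3 hs
  have m4 := f05_mde k3 (p_kfl k1 hs)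
  have e1 := p_pcd k1 k5
  have e2 := p_ecd k1 hs
  have e3 := p_pcd k2 m2
  have e4 := p_ecd k2 m1
  have w1 := p_hW e1 e2
  have w2 := p_bW e1 e2
  have w3 := p_hW e3 e4
  have w4 := p_bW e3 e4
  have c1 : Primrec fun _ : β × ℕ => ((1, 0) : PI) := Primrec.const _
  have w5 := f05_app (C06_ppwW w3 (p_sg (CB.p_add m4 m3) c1)) (C06_ppwW w4 (f05_gP k4 hs))
  have w6 := C06_ppwW w4 (p_sg m3 c1)
  have w7 := f05_sing (CB.p_pair (CB.p_pair w1 w2) (CB.p_pair w5 w6))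
  have w8 := f05_ite (CB.pp_eq (p_kpc k1 hs) k5) w7 (Primrec.const [])
  unfold inst
  refine f05_flatMap (f05_range (CB.p_add (p_nE hc) (Primrec.const 1))) ?_
  exact w8

end

private theorem f05_npp : REPred fun x : ((Cd × Cd) × Mt) × List PI =>
    ∃ p, p < nP x.1.1.1 + 1 ∧ NPP (pPres (pcd x.1.1.1 p))
      (pPres (pcd x.1.1.2 (msp x.1.1.1 x.1.2 p))) (inst x.1.1.1 x.1.1.2 x.1.2 x.2 p)
      (bdN x.1.1.1 x.1.1.2 x.1.2 p) := by
  have q1 : Primrec fun x : (((Cd × Cd) × Mt) × List PI) × ℕ => x.1.1.1.1 :=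
    CB.p_fst (CB.p_fst (CB.p_fst (CB.p_fst CB.p_id)))
  have q2 : Primrec fun x : (((Cd × Cd) × Mt) × List PI) × ℕ => x.1.1.1.2 :=
    CB.p_snd (CB.p_fst (CB.p_fst (CB.p_fst CB.p_id)))
  have q3 : Primrec fun x : (((Cd × Cd) × Mt) × List PI) × ℕ => x.1.1.2 :=
    CB.p_snd (CB.p_fst (CB.p_fst CB.p_id))
  have q4 : Primrec fun x : (((Cd × Cd) × Mt) × List PI) × ℕ => x.1.2 :=
    CB.p_snd (CB.p_fst CB.p_id)
  have q5 : Primrec fun x : (((Cd × Cd) × Mt) × List PI) × ℕ => x.2 := CB.p_snd CB.p_id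
  have hf : Primrec fun x : (((Cd × Cd) × Mt) × List PI) × ℕ =>
      ((((pPres (pcd x.1.1.1.1 x.2), pPres (pcd x.1.1.1.2 (msp x.1.1.1.1 x.1.1.2 x.2))),
        inst x.1.1.1.1 x.1.1.1.2 x.1.1.2 x.1.2 x.2), bdN x.1.1.1.1 x.1.1.1.2 x.1.1.2 x.2) :
        ((Pres × Pres) × Inst) × ℕ) :=
    CB.p_pair (CB.p_pair (CB.p_pair (p_pPres (p_pcd q1 q5))
      (p_pPres (p_pcd q2 (f05_msp q1 q3 q5)))) (f05_inst q1 q2 q3 q4 q5)) (f05_bd q1 q2 q3 q5)
  have h1 := re_comp npp_re hf.to_comp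
  have h2 : REPred fun x : (((Cd × Cd) × Mt) × List PI) × ℕ => x.2 < nP x.1.1.1.1 + 1 :=
    re_of_prim (CB.pp_lt q5 (CB.p_add (p_nP q1) (Primrec.const 1)))
  exact re_exists (p := fun (x : ((Cd × Cd) × Mt) × List PI) (p : ℕ) =>
    p < nP x.1.1.1 + 1 ∧ NPP (pPres (pcd x.1.1.1 p))
      (pPres (pcd x.1.1.2 (msp x.1.1.1 x.1.2 p))) (inst x.1.1.1 x.1.1.2 x.1.2 x.2 p)
      (bdN x.1.1.1 x.1.1.2 x.1.2 p)) (re_and h2 h1)

private theorem f05_tauAll : PrimrecPred fun x : ((Cd × Cd) × Mt) × List PI =>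
    ∀ e < nE x.1.1.1 + 1, TauE x.1.1.1 x.1.1.2 x.1.2 e (x.2.getD e (0, 0)) := by
  (repeat' (with_reducible first | assumption | exact CB.p_id | exact Primrec.const _ | exact CB.pp_const _ | apply f05_tauE | apply f05_gP | apply p_nP | apply p_nQ | apply p_nE | apply CB.p_fst | apply CB.p_snd | apply CB.p_pair | apply CB.p_add | apply CB.pp_all))

/-- the set of the triples with a certificate -/
private theorem f05_good : REPred fun x : (Cd × Cd) × Mt => NGood x.1.1 x.1.2 x.2 := by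
  have h1 : REPred fun x : (Cd × Cd) × Mt => ¬ MatN x.1.1 x.1.2 x.2 :=
    re_of_prim f05_matN.not
  have h2 := re_exists (p := fun (x : (Cd × Cd) × Mt) (ta : List PI) =>
    (∀ e < nE x.1.1 + 1, TauE x.1.1 x.1.2 x.2 e (ta.getD e (0, 0))) ∧
    ∃ p, p < nP x.1.1 + 1 ∧ NPP (pPres (pcd x.1.1 p))
      (pPres (pcd x.1.2 (msp x.1.1 x.2 p))) (inst x.1.1 x.1.2 x.2 ta p)
      (bdN x.1.1 x.1.2 x.2 p)) (re_and (re_of_prim f05_tauAll) f05_npp)
  refine (re_or h1 h2).of_eq ?_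
  intro x
  rfl

theorem nGood_re : REPred fun x : Cd × Cd => ∀ t : Mt, InB x.1 t → NGood x.1 x.2 t := by
  have hf : Primrec fun x : (((((Cd × Cd) × ℕ) × ℕ) × ℕ) × ℕ) × ℕ =>
      ((x.1.1.1.1.1, (x.1.1.1.1.2, x.1.1.1.2, x.1.1.2, x.1.2, x.2)) : (Cd × Cd) × Mt) := by
    (repeat' (with_reducible first | exact CB.p_id | apply CB.p_fst | apply CB.p_snd | apply CB.p_pair))
  have h0 := re_comp f05_good hf.to_comp
  have b1 : ∀ {β : Type} [Primcodable β] {f : β → Cd}, Primrec f →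
      Primrec fun x => (nP (f x) + 1) ^ (nP (f x) + 1) := fun hc =>
    CB.p_pow (CB.p_add (p_nP hc) (Primrec.const 1)) (CB.p_add (p_nP hc) (Primrec.const 1))
  have b2 : ∀ {β : Type} [Primcodable β] {f : β → Cd}, Primrec f →
      Primrec fun x => (nQ (f x) + 1) ^ (nQ (f x) + 1) := fun hc =>
    CB.p_pow (CB.p_add (p_nQ hc) (Primrec.const 1)) (CB.p_add (p_nQ hc) (Primrec.const 1))
  have b3 : ∀ {β : Type} [Primcodable β] {f : β → Cd}, Primrec f →
      Primrec fun x => (nE (f x) + 1) ^ (nE (f x) + 1) := fun hc =>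
    CB.p_pow (CB.p_add (p_nE hc) (Primrec.const 1)) (CB.p_add (p_nE hc) (Primrec.const 1))
  have b4 : ∀ {β : Type} [Primcodable β] {f : β → Cd}, Primrec f →
      Primrec fun x => 2 ^ (nE (f x) + 1) := fun hc =>
    CB.p_pow (Primrec.const 2) (CB.p_add (p_nE hc) (Primrec.const 1))
  have b5 : ∀ {β : Type} [Primcodable β] {f : β → Cd}, Primrec f →
      Primrec fun x => 2 ^ (nQ (f x) + 1) := fun hc =>
    CB.p_pow (Primrec.const 2) (CB.p_add (p_nQ hc) (Primrec.const 1))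
  have h1 := re_forall_lt (p := fun (x : ((((Cd × Cd) × ℕ) × ℕ) × ℕ) × ℕ) (g : ℕ) =>
      NGood x.1.1.1.1.1 x.1.1.1.1.2 (x.1.1.1.2, x.1.1.2, x.1.2, x.2, g))
    (b5 (CB.p_fst (CB.p_fst (CB.p_fst (CB.p_fst (CB.p_fst CB.p_id)))))) h0
  have h2 := re_forall_lt (p := fun (x : (((Cd × Cd) × ℕ) × ℕ) × ℕ) (e : ℕ) =>
      ∀ g < 2 ^ (nQ x.1.1.1.1 + 1),
      NGood x.1.1.1.1 x.1.1.1.2 (x.1.1.2, x.1.2, x.2, e, g))
    (b4 (CB.p_fst (CB.p_fst (CB.p_fst (CB.p_fst CB.p_id))))) h1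
  have h3 := re_forall_lt (p := fun (x : ((Cd × Cd) × ℕ) × ℕ) (d : ℕ) =>
      ∀ e < 2 ^ (nE x.1.1.1 + 1), ∀ g < 2 ^ (nQ x.1.1.1 + 1),
      NGood x.1.1.1 x.1.1.2 (x.1.2, x.2, d, e, g))
    (b3 (CB.p_fst (CB.p_fst (CB.p_fst CB.p_id)))) h2
  have h4 := re_forall_lt (p := fun (x : (Cd × Cd) × ℕ) (b : ℕ) =>
      ∀ d < (nE x.1.1 + 1) ^ (nE x.1.1 + 1),
      ∀ e < 2 ^ (nE x.1.1 + 1), ∀ g < 2 ^ (nQ x.1.1 + 1),
      NGood x.1.1 x.1.2 (x.2, b, d, e, g))
    (b2 (CB.p_fst (CB.p_fst CB.p_id))) h3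
  have h5 := re_forall_lt (p := fun (x : Cd × Cd) (a : ℕ) =>
      ∀ b < (nQ x.1 + 1) ^ (nQ x.1 + 1), ∀ d < (nE x.1 + 1) ^ (nE x.1 + 1),
      ∀ e < 2 ^ (nE x.1 + 1), ∀ g < 2 ^ (nQ x.1 + 1),
      NGood x.1 x.2 (a, b, d, e, g))
    (b1 (CB.p_fst CB.p_id)) h4
  refine h5.of_eq ?_
  intro x
  constructor
  · rintro h ⟨a, b, d, e, g⟩ ⟨k1, k2, k3, k4, k5⟩
    exact h a k1 b k2 d k3 e k4 g k5
  · intro h a k1 b k2 d k3 e k4 g k5
    exact h (a, b, d, e, g) ⟨k1, k2, k3, k4, k5⟩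

end VF
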