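import Pool.Agent.Lib.MP_32d917_al_vf.G01
import Pool.Agent.Lib.MP_32d917_al_adm.C01

/-!
# F06: the instances at the pieces

The elements of `inst c c' t ta p` are given by the edges `e` with `kpc c e = p`. `wv_append`, `wv_pw`, `iv_sg`, `iv (1, 0) = 1`.
-/

set_option autoImplicit false

namespace VF

open LatIso LatN AdmIso

theorem mem_inst (c c' : Cd) (t : Mt) (ta : List PI) (p : ℕ)
    (x : (Wd × Wd) × (Wd × Wd)) : x ∈ inst c c' t ta p ↔ ∃ e < nE c + 1, kpc c e = p ∧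
    x = ((hW (pcd c p) (ecd c e), bW (pcd c p) (ecd c e)),
      (pwW (hW (pcd c' (msp c t p)) (ecd c' (mse c t e)))
          (AdmIso.sg (mde t (kfl c e) + msg t e) (1, 0)) ++
        pwW (bW (pcd c' (msp c t p)) (ecd c' (mse c t e))) (ta.getD e (0, 0)),
      pwW (bW (pcd c' (msp c t p)) (ecd c' (mse c t e))) (AdmIso.sg (msg t e) (1, 0)))) := by
  unfold inst
  rw [List.mem_flatMap]
  constructor
  · rintro ⟨e, he, hx⟩
    rw [List.mem_range] at he
    split_ifs at hx with h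
    · rw [List.mem_singleton] at hx
      exact ⟨e, he, h, hx⟩
    · simp at hx
  · rintro ⟨e, he, h, hx⟩
    refine ⟨e, List.mem_range.2 he, ?_⟩
    rw [if_pos h, List.mem_singleton]
    exact hx

theorem iv_sg_one (k : ℕ) : iv (AdmIso.sg k (1, 0)) = (-1) ^ k := by
  rw [iv_sg]
  simp [iv]

theorem ppl_inst (c c' : Cd) (t : Mt) (ta : List PI) (p : ℕ) :
    PPL (pPres (pcd c p)) (pPres (pcd c' (msp c t p))) (inst c c' t ta p) ↔
    ∃ θ : (pPres (pcd c p)).Grp ≃* (pPres (pcd c' (msp c t p))).Grp, ∀ e < nE c + 1,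
      kpc c e = p → ∃ g, θ (wv _ (hW (pcd c p) (ecd c e))) =
        g * (wv _ (hW (pcd c' (msp c t p)) (ecd c' (mse c t e))) ^
            ((-1 : ℤ) ^ (mde t (kfl c e) + msg t e)) *
          wv _ (bW (pcd c' (msp c t p)) (ecd c' (mse c t e))) ^ iv (ta.getD e (0, 0))) * g⁻¹ ∧
      θ (wv _ (bW (pcd c p) (ecd c e))) =
        g * wv _ (bW (pcd c' (msp c t p)) (ecd c' (mse c t e))) ^ ((-1 : ℤ) ^ msg t e) * g⁻¹ := by
  unfold PPL
  apply exists_congr
  intro θ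
  constructor
  · intro h e he hp
    obtain ⟨g, h1, h2⟩ := h _ ((mem_inst c c' t ta p _).2 ⟨e, he, hp, rfl⟩)
    refine ⟨g, ?_, ?_⟩
    · rw [wv_append, wv_pw, wv_pw, iv_sg_one] at h1
      exact h1
    · rw [wv_pw, iv_sg_one] at h2
      exact h2
  · intro h x hx
    obtain ⟨e, he, hp, rfl⟩ := (mem_inst c c' t ta p x).1 hx
    obtain ⟨g, h1, h2⟩ := h e he hp
    refine ⟨g, ?_, ?_⟩
    · rw [wv_append, wv_pw, wv_pw, iv_sg_one]
      exact h1
    · rw [wv_pw, iv_sg_one]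
      exact h2

theorem ppb_ppl (c c' : Cd) (t : Mt) (ta : List PI) (p : Fin (nP c + 1)) (p' : Fin (nP c' + 1))
    (hp : (p' : ℕ) = msp c t p) (se : Fin (nE c + 1) → Fin (nE c' + 1))
    (hse : ∀ e, ((se e : Fin (nE c' + 1)) : ℕ) = mse c t e) (sg : Fin (nE c + 1) → ℤˣ)
    (dg : Fin (nE c + 1) → ℤˣ) (hsg : ∀ e, ((sg e : ℤˣ) : ℤ) = (-1) ^ msg t e)
    (hdg : ∀ e, ((dg e : ℤˣ) : ℤ) = (-1) ^ mde t (kfl c e)) (ta' : Fin (nE c + 1) → ℤ)
    (hta : ∀ e : Fin (nE c + 1), kpc c e = p → ta' e = iv (ta.getD e (0, 0))) :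
    PPb (fun e => (toTD c).pc e = p) ((toTD c).h p) ((toTD c).b p)
      (fun e => (toTD c').h p' (se e)) (fun e => (toTD c').b p' (se e)) sg dg ta' ↔
    PPL (pPres (pcd c p)) (pPres (pcd c' (msp c t p))) (inst c c' t ta p) := by
  rw [ppl_inst]
  obtain ⟨p', hp'⟩ := p'
  dsimp only at hp
  subst hp
  unfold PPb
  show (∃ θ : (pPres (pcd c p)).Grp ≃* (pPres (pcd c' (msp c t p))).Grp, _) ↔ _
  apply exists_congr
  intro θ
  have key : ∀ e : Fin (nE c + 1), kpc c e = p →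
      (((dg e * sg e : ℤˣ) : ℤ) = (-1 : ℤ) ^ (mde t (kfl c e) + msg t e)) := by
    intro e _
    rw [Units.val_mul, hsg, hdg, pow_add]
  constructor
  · intro h e he hpe
    obtain ⟨g, h1, h2⟩ := h ⟨e, he⟩ (Fin.ext hpe)
    refine ⟨g, ?_, ?_⟩
    · rw [key ⟨e, he⟩ hpe, hta ⟨e, he⟩ hpe] at h1
      have h3 := hse ⟨e, he⟩
      dsimp only at h3
      dsimp only [toTD] at h1
      rw [h3] at h1
      exact h1
    · rw [hsg] at h2
      have h3 := hse ⟨e, he⟩
      dsimp only at h3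
      dsimp only [toTD] at h2
      rw [h3] at h2
      exact h2
  · intro h e hpe
    have hpe' : kpc c e = p := congrArg Fin.val hpe
    obtain ⟨g, h1, h2⟩ := h e e.2 hpe'
    refine ⟨g, ?_, ?_⟩
    · rw [key e hpe', hta e hpe']
      dsimp only [toTD]
      rw [hse e]
      exact h1
    · rw [hsg]
      dsimp only [toTD]
      rw [hse e]
      exact h2

end VF
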