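import Pool.Agent.Lib.MP_32d917_al_vf.HDefs

/-!
# G00: lists of words

Inductions.
-/

set_option autoImplicit false

namespace VF

open LatIso LatN AdmIso

theorem mem_wds (n B : ℕ) (w : Wd) : w ∈ wds n B ↔ w.length ≤ B ∧ ∀ x ∈ w, x.1 < n := by
  induction B generalizing w with
  | zero =>
    show w ∈ [[]] ↔ _
    constructor
    · intro h
      rw [List.mem_singleton] at h
      subst h
      simp
    · rintro ⟨h, -⟩
      rw [List.mem_singleton]
      exact List.length_eq_zero_iff.1 (by omega)
  | succ B ih =>
    show w ∈ [] :: (wds n B).flatMap (fun w => (List.range n).flatMap fun j =>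
      [(j, true) :: w, (j, false) :: w]) ↔ _
    rw [List.mem_cons, List.mem_flatMap]
    constructor
    · rintro (h | ⟨v, hv, h⟩)
      · subst h
        simp
      · rw [List.mem_flatMap] at h
        obtain ⟨j, hj, h⟩ := h
        rw [List.mem_range] at hj
        obtain ⟨h1, h2⟩ := (ih v).1 hv
        have h3 : ∃ b, w = (j, b) :: v := by
          simp only [List.mem_cons, List.not_mem_nil, or_false] at h
          rcases h with h | h
          · exact ⟨true, h⟩
          · exact ⟨false, h⟩
        obtain ⟨b, rfl⟩ := h3
        refine ⟨by rw [List.length_cons]; omega, ?_⟩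
        intro x hx
        rw [List.mem_cons] at hx
        rcases hx with rfl | hx
        · exact hj
        · exact h2 x hx
    · rintro ⟨h1, h2⟩
      cases w with
      | nil => exact Or.inl rfl
      | cons x v =>
        right
        obtain ⟨j, b⟩ := x
        refine ⟨v, (ih v).2 ⟨by rw [List.length_cons] at h1; omega,
          fun x hx => h2 x (List.mem_cons_of_mem _ hx)⟩, ?_⟩
        rw [List.mem_flatMap]
        refine ⟨j, List.mem_range.2 (h2 (j, b) List.mem_cons_self), ?_⟩
        cases b <;> simp

theorem mem_tup (l : List Wd) (n : ℕ) (s : List Wd) :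
    s ∈ tup l n ↔ s.length = n ∧ ∀ w ∈ s, w ∈ l := by
  induction n generalizing s with
  | zero =>
    show s ∈ [[]] ↔ _
    constructor
    · intro h
      rw [List.mem_singleton] at h
      subst h
      simp
    · rintro ⟨h, -⟩
      rw [List.mem_singleton]
      exact List.length_eq_zero_iff.1 h
  | succ n ih =>
    show s ∈ (tup l n).flatMap (fun s => l.map fun w => w :: s) ↔ _
    rw [List.mem_flatMap]
    constructor
    · rintro ⟨v, hv, h⟩
      rw [List.mem_map] at h
      obtain ⟨w, hw, rfl⟩ := h
      obtain ⟨h1, h2⟩ := (ih v).1 hv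
      refine ⟨by rw [List.length_cons, h1], ?_⟩
      intro x hx
      rw [List.mem_cons] at hx
      rcases hx with rfl | hx
      · exact hw
      · exact h2 x hx
    · rintro ⟨h1, h2⟩
      cases s with
      | nil => simp at h1
      | cons w v =>
        refine ⟨v, (ih v).2 ⟨by rw [List.length_cons] at h1; omega,
          fun x hx => h2 x (List.mem_cons_of_mem _ hx)⟩, ?_⟩
        rw [List.mem_map]
        exact ⟨w, h2 w List.mem_cons_self, rfl⟩

/-- tuples with prescribed entries -/
theorem tup_ex (l : List Wd) (n : ℕ) (C : ℕ → Wd → Prop) (h : ∀ j < n, ∃ w ∈ l, C j w) :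
    ∃ s ∈ tup l n, ∀ j < n, C j (s.getD j []) := by
  choose! f hf1 hf2 using h
  refine ⟨(List.range n).map f, (mem_tup l n _).2 ⟨by simp, ?_⟩, ?_⟩
  · intro w hw
    rw [List.mem_map] at hw
    obtain ⟨j, hj, rfl⟩ := hw
    exact hf1 j (List.mem_range.1 hj)
  · intro j hj
    rw [List.getD_eq_getElem _ _ (by simpa using hj)]
    simpa using hf2 j hj

end VF
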