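import Pool.Agent.Lib.MP_32d917_al_vf.G05
import Pool.Agent.Lib.MP_32d917_al_vf.G00

/-!
# G07: bounded isomorphisms are not excluded

Choose the words: `a = [(0, true)]` or `[(0, false)]` with `θ z = wv P' a`, `a'` with `θ⁻¹ z' = wv P a'`; `σ`, `σ'`, `γ` by `tup_ex` (entry number `j` of `a :: σ` is entry
number `j - 1` of `σ`), `θ (x_j) = wv P' (σ_j) * z' ^ k`, `θ⁻¹ (x'_j) = wv P (σ'_j) z ^ k`, `g_i = wv P' (γ_i) z' ^ k`. None of the four alternatives of `NCand` holds: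
`nhom_not` for `θ` (equations `eqs L γ`: `z'` commutes with `wv P' u`, `wv P' w`, so `g_i` can be replaced by `wv P' (γ_i)`), `nhom_not` for `θ⁻¹`;
third: in `P.Grp`, `wv P (sub σ' σ_j) = θ⁻¹ (wv P' σ_j) z ^ k = θ⁻¹ (θ (x_j) z' ^ k') z ^ k = x_j z ^ k''` (the words `σ_j` have letters `< P'.1`, `mem_wds`), so
`wv P (sub .. ++ [(j, false)]) = z ^ k'''` (`nrm`) is trivial in `(qN P 1).Grp` (`hom_q`), against `sep_ne`. Fourth: the same.
-/

set_option autoImplicit false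

namespace VF

open LatIso LatN AdmIso

theorem g07_agree {G : Type} [Group G] (f g : FreeGroup ℕ →* G) (n : ℕ)
    (h : ∀ j < n, f (FreeGroup.of j) = g (FreeGroup.of j)) (w : Wd) (hw : ∀ x ∈ w, x.1 < n) :
    f (FreeGroup.mk w) = g (FreeGroup.mk w) := by
  induction w with
  | nil => rw [ev_nil, ev_nil]
  | cons x w ih =>
    obtain ⟨a, b⟩ := x
    have h2 : ((a, b) :: w : Wd) = [(a, b)] ++ w := rfl
    have h3 : a < n := hw (a, b) List.mem_cons_self
    rw [h2, ev_append, ev_append, ih fun x hx => hw x (List.mem_cons_of_mem _ hx)]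
    congr 1
    cases b
    · rw [ev_false, ev_false, h a h3]
    · rw [ev_true, ev_true, h a h3]

theorem g07_sep {P P' : Pres} (θ : P.Grp ≃* P'.Grp) {s s' : List Wd}
    (hz : θ.symm (zv P') = zv P ∨ θ.symm (zv P') = (zv P)⁻¹)
    (hs : ∀ j < P.1, ∃ k : ℤ, θ (wv P [(j, true)]) = wv P' (s.getD j []) * zv P' ^ k)
    (hs' : ∀ j < P'.1, ∃ k : ℤ, θ.symm (wv P' [(j, true)]) = wv P (s'.getD j []) * zv P ^ k)
    (hl : ∀ j < P.1, ∀ x ∈ s.getD j [], x.1 < P'.1) (j : ℕ) (hj : j < P.1) :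
    ¬ Sep (qN P 1) (sub s' (s.getD j []) ++ [(j, false)]) := by
  intro hsep
  apply sep_ne hsep
  obtain ⟨π, hπ, hπz⟩ := hom_q P 1
  rw [pow_one] at hπz
  have h0 : ∀ k : ℤ, π (zv P ^ k) = 1 := fun k => by rw [map_zpow, hπz, one_zpow]
  have h1 : π (θ.symm (zv P')) = 1 := by
    rcases hz with h | h
    · rw [h, hπz]
    · rw [h, map_inv, hπz, inv_one]
  rw [wv_append, wv_false, wv_sub, mul_inv_eq_one]
  have h2 : FreeGroup.lift (fun i => wv (qN P 1) (s'.getD i [])) (FreeGroup.mk (s.getD j [])) =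
      (π.comp (θ.symm.toMonoidHom.comp (PresentedGroup.mk P'.rels)))
        (FreeGroup.mk (s.getD j [])) := by
    apply g07_agree _ _ P'.1 _ _ (hl j hj)
    intro i hi
    rw [FreeGroup.lift_apply_of]
    show _ = π (θ.symm (wv P' [(i, true)]))
    obtain ⟨k, hk⟩ := hs' i hi
    rw [hk, map_mul, h0, mul_one, hπ]
  rw [h2]
  show π (θ.symm (wv P' (s.getD j []))) = _
  obtain ⟨k, hk⟩ := hs j hj
  have h3 : wv P' (s.getD j []) = θ (wv P [(j, true)]) * zv P' ^ (-k) := by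
    rw [hk, zpow_neg, mul_inv_cancel_right]
  rw [h3, map_mul, map_mul, map_zpow, map_zpow, h1, one_zpow, mul_one, MulEquiv.symm_apply_apply,
    hπ]

theorem g07_len {l : List Wd} {n : ℕ} {s : List Wd} (hs : s ∈ tup l n) {j : ℕ} (hj : j < n) :
    s.getD j [] ∈ l := by
  obtain ⟨h1, h2⟩ := (mem_tup l n s).1 hs
  have h3 : j < s.length := by rw [h1]; exact hj
  rw [List.getD_eq_getElem _ _ h3]
  exact h2 _ (List.getElem_mem _)

/-- the values of the candidate -/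
theorem g07_cand {P P' : Pres} (h' : GoodP P') (θ : P.Grp →* P'.Grp) {B : ℕ} {a : Wd}
    (ha : a = [(0, true)] ∨ a = [(0, false)]) (haz : θ (zv P) = wv P' a)
    (h1 : ∀ j < P.1, BWd P' B (θ (wv P [(j, true)]))) :
    ∃ σ ∈ tup (wds P'.1 B) (P.1 - 1), (∀ j < P.1, ∃ k : ℤ, (j = 0 → k = 0) ∧
      θ (wv P [(j, true)]) = wv P' ((a :: σ).getD j []) * zv P' ^ k) ∧
      ∀ j < P.1, ∀ x ∈ (a :: σ).getD j [], x.1 < P'.1 := by
  obtain ⟨σ, hσ, hσ'⟩ := tup_ex (wds P'.1 B) (P.1 - 1)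
    (fun j w => ∃ k : ℤ, θ (wv P [(j + 1, true)]) = wv P' w * zv P' ^ k) (fun j hj => by
      obtain ⟨w, hw, k, hk⟩ := h1 (j + 1) (by omega)
      exact ⟨w, hw, k, hk⟩)
  refine ⟨σ, hσ, ?_, ?_⟩
  · intro j hj
    rcases Nat.eq_zero_or_pos j with rfl | hj0
    · refine ⟨0, fun _ => rfl, ?_⟩
      rw [zpow_zero, mul_one]
      exact haz
    · obtain ⟨i, rfl⟩ : ∃ i, j = i + 1 := ⟨j - 1, by omega⟩
      obtain ⟨k, hk⟩ := hσ' i (by omega)
      exact ⟨k, fun h => absurd h (by omega), hk⟩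
  · intro j hj x hx
    rcases Nat.eq_zero_or_pos j with rfl | hj0
    · have h2 : x ∈ a := hx
      rcases ha with rfl | rfl
      · rw [List.mem_singleton.1 h2]
        exact h'.pos
      · rw [List.mem_singleton.1 h2]
        exact h'.pos
    · obtain ⟨i, rfl⟩ : ∃ i, j = i + 1 := ⟨j - 1, by omega⟩
      have h2 : x ∈ σ.getD i [] := hx
      exact ((mem_wds _ _ _).1 (g07_len hσ (by omega : i < P.1 - 1))).2 x h2

theorem npp_sound {P P' : Pres} (h : GoodP P) (h' : GoodP P') {L : Inst} {B : ℕ}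
    (θ : P.Grp ≃* P'.Grp) (hz : θ (zv P) = zv P' ∨ θ (zv P) = (zv P')⁻¹)
    (h1 : ∀ j < P.1, BWd P' B (θ (wv P [(j, true)])))
    (h2 : ∀ j < P'.1, BWd P B (θ.symm (wv P' [(j, true)])))
    (hL : ∀ x ∈ L, zv P' * wv P' x.2.1 = wv P' x.2.1 * zv P' ∧
      zv P' * wv P' x.2.2 = wv P' x.2.2 * zv P')
    (h3 : ∀ x ∈ L, ∃ g, BWd P' B g ∧ θ (wv P x.1.1) = g * wv P' x.2.1 * g⁻¹ ∧
      θ (wv P x.1.2) = g * wv P' x.2.2 * g⁻¹) : ¬ NPP P P' L B := by
  intro hN
  have hz2 : θ.symm (zv P') = zv P ∨ θ.symm (zv P') = (zv P)⁻¹ := by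
    rcases hz with hz | hz
    · left
      rw [← hz, MulEquiv.symm_apply_apply]
    · right
      have : zv P' = θ ((zv P)⁻¹) := by rw [map_inv, hz, inv_inv]
      rw [this, MulEquiv.symm_apply_apply]
  obtain ⟨a, ha, haz⟩ : ∃ a : Wd, (a = [(0, true)] ∨ a = [(0, false)]) ∧ θ (zv P) = wv P' a := by
    rcases hz with hz | hz
    · exact ⟨_, Or.inl rfl, hz⟩
    · exact ⟨_, Or.inr rfl, by rw [hz, wv_false]; rfl⟩
  obtain ⟨a', ha', haz'⟩ : ∃ a : Wd, (a = [(0, true)] ∨ a = [(0, false)]) ∧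
      θ.symm (zv P') = wv P a := by
    rcases hz2 with hz | hz
    · exact ⟨_, Or.inl rfl, hz⟩
    · exact ⟨_, Or.inr rfl, by rw [hz, wv_false]; rfl⟩
  obtain ⟨σ, hσ, s1, s2⟩ := g07_cand h' θ.toMonoidHom ha haz h1
  obtain ⟨σ', hσ', s1', s2'⟩ := g07_cand h θ.symm.toMonoidHom ha' haz' h2
  have s3 : ∀ j < P.1, ∃ k : ℤ, θ (wv P [(j, true)]) =
      wv P' ((a :: σ).getD j []) * zv P' ^ k := fun j hj => by
    obtain ⟨k, -, hk⟩ := s1 j hj
    exact ⟨k, hk⟩
  have s3' : ∀ j < P'.1, ∃ k : ℤ, θ.symm (wv P' [(j, true)]) =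
      wv P ((a' :: σ').getD j []) * zv P ^ k := fun j hj => by
    obtain ⟨k, -, hk⟩ := s1' j hj
    exact ⟨k, hk⟩
  obtain ⟨γ, hγ, hγ'⟩ := tup_ex (wds P'.1 B) L.length
    (fun i w => θ (wv P (L.getD i (([], []), ([], []))).1.1) =
        wv P' w * wv P' (L.getD i (([], []), ([], []))).2.1 * (wv P' w)⁻¹ ∧
      θ (wv P (L.getD i (([], []), ([], []))).1.2) =
        wv P' w * wv P' (L.getD i (([], []), ([], []))).2.2 * (wv P' w)⁻¹) (fun i hi => by
      have hx : L.getD i (([], []), ([], [])) ∈ L := by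
        rw [List.getD_eq_getElem _ _ hi]
        exact List.getElem_mem _
      obtain ⟨g, ⟨w, hw, k, hk⟩, g1, g2⟩ := h3 _ hx
      obtain ⟨c1, c2⟩ := hL _ hx
      refine ⟨w, hw, ?_, ?_⟩
      · rw [g1, hk]
        have : zv P' ^ k * wv P' (L.getD i (([], []), ([], []))).2.1 =
            wv P' (L.getD i (([], []), ([], []))).2.1 * zv P' ^ k :=
          (Commute.zpow_left (show Commute _ _ from c1) k).eq
        rw [mul_inv_rev, mul_assoc (wv P' w), this]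
        group
      · rw [g2, hk]
        have : zv P' ^ k * wv P' (L.getD i (([], []), ([], []))).2.2 =
            wv P' (L.getD i (([], []), ([], []))).2.2 * zv P' ^ k :=
          (Commute.zpow_left (show Commute _ _ from c2) k).eq
        rw [mul_inv_rev, mul_assoc (wv P' w), this]
        group)
  have hmem : ∀ a : Wd, (a = [(0, true)] ∨ a = [(0, false)]) →
      a ∈ ([[(0, true)], [(0, false)]] : List Wd) := by
    rintro a (rfl | rfl) <;> simp
  rcases hN a (hmem a ha) a' (hmem a' ha') σ hσ σ' hσ' γ hγ with c | c | ⟨j, hj, -, c⟩ |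
    ⟨j, hj, -, c⟩
  · refine nhom_not c ⟨θ.toMonoidHom, s1, ?_⟩
    intro e he
    unfold eqs at he
    rw [List.mem_flatMap] at he
    obtain ⟨i, hi, he⟩ := he
    obtain ⟨e1, e2⟩ := hγ' i (List.mem_range.1 hi)
    rcases List.mem_cons.1 he with rfl | he
    · show θ (wv P _) = wv P' _
      rw [wv_append, wv_append, wv_inv]
      exact e1
    · rw [List.mem_singleton.1 he]
      show θ (wv P _) = wv P' _
      rw [wv_append, wv_append, wv_inv]
      exact e2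
  · exact nhom_not c ⟨θ.symm.toMonoidHom, s1', fun e he => absurd he (by simp)⟩
  · exact g07_sep θ hz2 s3 s3' s2 j hj c
  · exact g07_sep θ.symm hz s3' s3 s2' j hj c

end VF
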