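import Pool.Agent.Lib.MP_32d917_al_vf.HDefs
import Pool.Agent.Lib.MP_32d917_al_adm.C07

/-!
# G01: words in presentations

`ev_nil`, `ev_append`, `ev_inv`, `ev_pw`, ... in adm/C07 are the same statements for an arbitrary homomorphism `φ` (here `PresentedGroup.mk`).
`wv_rel`: `PresentedGroup.one_of_mem`. `hom_ext`: `PresentedGroup.ext`; generators `≥ P.1` are trivial (`wv_big`).
`hom_ex`: `PresentedGroup.toGroup` with `f j = φ (of j)`. `wv_sub`: induction on the word. `wv_q`: the subgroup of all `zv P ^ (N k)` is normal by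
`nrm`; in one direction map `P.Grp` to the quotient by this subgroup and lift to `(qN P N).Grp` (`hom_ex`); in the other direction use `wv_qrel` and the
homomorphism `P.Grp →* (qN P N).Grp` (`hom_q`).
-/

set_option autoImplicit false

namespace VF

open LatIso LatN AdmIso

theorem wv_nil (P : Pres) : wv P [] = 1 := ev_nil _

theorem wv_append (P : Pres) (u v : Wd) : wv P (u ++ v) = wv P u * wv P v := ev_append _ u v

theorem wv_inv (P : Pres) (u : Wd) : wv P (FreeGroup.invRev u) = (wv P u)⁻¹ := ev_inv _ u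

theorem wv_true (P : Pres) (j : ℕ) : wv P [(j, true)] = PresentedGroup.of j := rfl

theorem wv_false (P : Pres) (j : ℕ) : wv P [(j, false)] = (wv P [(j, true)])⁻¹ := ev_false _ j

theorem wv_rel (P : Pres) (r : Wd) (h : r ∈ P.2) : wv P r = 1 :=
  PresentedGroup.one_of_mem (Or.inl ⟨r, h, rfl⟩)

theorem wv_big (P : Pres) (j : ℕ) (h : P.1 ≤ j) : wv P [(j, true)] = 1 :=
  PresentedGroup.one_of_mem (Or.inr ⟨j, h, rfl⟩)

theorem wv_pw (P : Pres) (u : Wd) (n : PI) : wv P (pwW u n) = wv P u ^ iv n := ev_pw _ u n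

theorem wv_rep (P : Pres) (j n : ℕ) :
    wv P (List.replicate n ((j, true) : ℕ × Bool)) = wv P [(j, true)] ^ n := by
  induction n with
  | zero => rw [List.replicate_zero, wv_nil, pow_zero]
  | succ n ih =>
    have h : List.replicate (n + 1) ((j, true) : ℕ × Bool) =
        [(j, true)] ++ List.replicate n ((j, true) : ℕ × Bool) := rfl
    rw [h, wv_append, ih, pow_succ']

theorem wv_surj (P : Pres) (x : P.Grp) : ∃ w, wv P w = x := by
  obtain ⟨y, rfl⟩ := PresentedGroup.mk_surjective P.rels x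
  induction y using Quot.inductionOn with
  | _ w => exact ⟨w, rfl⟩

theorem hom_ext (P : Pres) {H : Type} [Group H] {f g : P.Grp →* H}
    (h : ∀ j < P.1, f (wv P [(j, true)]) = g (wv P [(j, true)])) : f = g := by
  apply PresentedGroup.ext
  intro j
  rw [← wv_true P j]
  by_cases hj : j < P.1
  · exact h j hj
  · rw [wv_big P j (not_lt.1 hj), map_one, map_one]

theorem hom_ex (P : Pres) {H : Type} [Group H] (φ : FreeGroup ℕ →* H)
    (h1 : ∀ r ∈ P.2, φ (FreeGroup.mk r) = 1) (h2 : ∀ j, P.1 ≤ j → φ (FreeGroup.of j) = 1) :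
    ∃ θ : P.Grp →* H, ∀ w, θ (wv P w) = φ (FreeGroup.mk w) := by
  have hφ : FreeGroup.lift (fun j => φ (FreeGroup.of j)) = φ := by
    apply FreeGroup.ext_hom
    intro j
    rw [FreeGroup.lift_apply_of]
  have hr : ∀ r ∈ P.rels, FreeGroup.lift (fun j => φ (FreeGroup.of j)) r = 1 := by
    rintro r (⟨w, hw, rfl⟩ | ⟨j, hj, rfl⟩)
    · rw [hφ]
      exact h1 w hw
    · rw [hφ]
      exact h2 j hj
  refine ⟨PresentedGroup.toGroup hr, fun w => ?_⟩
  have h3 : (PresentedGroup.toGroup hr).comp (PresentedGroup.mk P.rels) = φ := by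
    apply FreeGroup.ext_hom
    intro j
    exact PresentedGroup.toGroup.of hr
  exact DFunLike.congr_fun h3 (FreeGroup.mk w)

theorem wv_sub (P : Pres) (σ : List Wd) (w : Wd) :
    wv P (sub σ w) = FreeGroup.lift (fun j => wv P (σ.getD j [])) (FreeGroup.mk w) := by
  induction w with
  | nil => rw [ev_nil]; exact wv_nil P
  | cons x w ih =>
    obtain ⟨a, b⟩ := x
    have h1 : sub σ ((a, b) :: w) =
        (if b then σ.getD a [] else FreeGroup.invRev (σ.getD a [])) ++ sub σ w := rfl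
    have h2 : ((a, b) :: w : Wd) = [(a, b)] ++ w := rfl
    rw [h1, wv_append, ih, h2, ev_append]
    congr 1
    cases b
    · rw [ev_false, FreeGroup.lift_apply_of]
      exact wv_inv P _
    · rw [ev_true, FreeGroup.lift_apply_of]
      rfl

/-- the homomorphism to the quotient -/
theorem hom_q (P : Pres) (N : ℕ) : ∃ π : P.Grp →* (qN P N).Grp,
    (∀ w, π (wv P w) = wv (qN P N) w) ∧ π (zv P) ^ N = 1 := by
  obtain ⟨π, hπ⟩ := hom_ex P (PresentedGroup.mk (qN P N).rels)
    (fun r hr => wv_rel (qN P N) r (List.mem_cons_of_mem _ hr))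
    (fun j hj => wv_big (qN P N) j hj)
  refine ⟨π, hπ, ?_⟩
  have h1 : π (zv P) = wv (qN P N) [(0, true)] := hπ _
  rw [h1, ← wv_rep]
  exact wv_rel (qN P N) _ List.mem_cons_self

theorem wv_q (P : Pres) (h : ∀ x : P.Grp, x * zv P * x⁻¹ = zv P ∨ x * zv P * x⁻¹ = (zv P)⁻¹)
    (N : ℕ) (w : Wd) : wv (qN P N) w = 1 ↔ ∃ k : ℤ, wv P w = zv P ^ ((N : ℤ) * k) := by
  constructor
  · intro hw
    let S : Subgroup P.Grp := Subgroup.zpowers (zv P ^ N)
    have hS : S.Normal := by
      constructor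
      rintro _ ⟨k, rfl⟩ g
      have h1 : g * (zv P ^ N) ^ k * g⁻¹ = ((g * zv P * g⁻¹) ^ N) ^ k := by
        rw [conj_pow, conj_zpow]
      show g * (zv P ^ N) ^ k * g⁻¹ ∈ S
      rw [h1]
      rcases h g with h2 | h2
      · rw [h2]
        exact ⟨k, rfl⟩
      · rw [h2]
        refine ⟨-k, ?_⟩
        show (zv P ^ N) ^ (-k) = _
        rw [inv_pow, inv_zpow', ]
    obtain ⟨θ, hθ⟩ := hom_ex (qN P N) ((QuotientGroup.mk' S).comp (PresentedGroup.mk P.rels))
      (by
        intro r hr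
        show QuotientGroup.mk' S (wv P r) = 1
        rcases List.mem_cons.1 hr with hr | hr
        · rw [hr, wv_rep]
          exact (QuotientGroup.eq_one_iff _).2 ⟨1, zpow_one _⟩
        · rw [wv_rel P r hr, map_one])
      (by
        intro j hj
        show QuotientGroup.mk' S (wv P [(j, true)]) = 1
        rw [wv_big P j hj, map_one])
    have h3 : θ (wv (qN P N) w) = QuotientGroup.mk' S (wv P w) := hθ w
    rw [hw, map_one] at h3
    obtain ⟨k, hk⟩ := (QuotientGroup.eq_one_iff _).1 h3.symm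
    refine ⟨k, ?_⟩
    rw [← hk]
    show (zv P ^ N) ^ k = _
    rw [zpow_mul, zpow_natCast]
  · rintro ⟨k, hk⟩
    obtain ⟨π, h1, h2⟩ := hom_q P N
    rw [← h1, hk, map_zpow, zpow_mul, zpow_natCast, h2, one_zpow]

end VF
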