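import Pool.Agent.Lib.MP_32d917_al_vf.HDefs
import Pool.Agent.Lib.MP_32d917_al_vf.G01

/-!
# H01: the presentation of a piece
-/

set_option autoImplicit false

namespace VF

open LatIso LatN AdmIso

/-- comparison of presentations -/
theorem H01_iso {A' : Type} (N : ℕ) (num : A' → ℕ) (hinj : Function.Injective num)
    (hN : ∀ j, j < N ↔ ∃ x, num x = j) (R : Set (FreeGroup A')) (l : List Wd)
    (h1 : ∀ r ∈ R, ∃ w ∈ l, FreeGroup.mk w = FreeGroup.map num r)
    (h2 : ∀ w ∈ l, ∃ r ∈ R, FreeGroup.mk w = FreeGroup.map num r) :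
    ∃ F : PresentedGroup R ≃* Pres.Grp (N, l),
      ∀ x, F (PresentedGroup.of x) = PresentedGroup.of (num x) := by
  classical
  let φ0 : A' → Pres.Grp (N, l) := fun x => PresentedGroup.of (num x)
  let ψ0 : ℕ → PresentedGroup R := fun i => if h : ∃ x, num x = i then PresentedGroup.of h.choose else 1
  have hφ : ∀ r ∈ R, FreeGroup.lift φ0 r = 1 := by
    intro r hr
    obtain ⟨w, hw, hw2⟩ := h1 r hr
    have e1 : FreeGroup.lift φ0 r =
        PresentedGroup.mk (Pres.rels (N, l)) (FreeGroup.map num r) := by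
      have : FreeGroup.lift φ0 =
        (PresentedGroup.mk (Pres.rels (N, l))).comp (FreeGroup.map num) := by
        apply FreeGroup.ext_hom
        intro a
        simp [φ0, PresentedGroup.of]
      rw [this]
      rfl
    rw [e1, ← hw2]
    apply PresentedGroup.one_of_mem
    exact Or.inl ⟨w, hw, rfl⟩
  have hψe : ∀ x : A', ψ0 (num x) = PresentedGroup.of x := by
    intro x
    have hx : ∃ y, num y = num x := ⟨x, rfl⟩
    have h3 : hx.choose = x := hinj hx.choose_spec
    show (if h : ∃ y, num y = num x then PresentedGroup.of h.choose else 1) = _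
    rw [dif_pos hx, h3]
  have hψn : ∀ i, ¬ i < N → ψ0 i = 1 := by
    intro i hi
    rw [hN] at hi
    exact dif_neg hi
  have hψ : ∀ r ∈ Pres.rels (N, l), FreeGroup.lift ψ0 r = 1 := by
    intro r hr
    rcases hr with ⟨w, hw, rfl⟩ | ⟨i, hi, rfl⟩
    · obtain ⟨r, hr, hr2⟩ := h2 w hw
      rw [hr2]
      have : FreeGroup.lift ψ0 (FreeGroup.map num r) =
          PresentedGroup.mk R r := by
        have : (FreeGroup.lift ψ0).comp (FreeGroup.map num) =
            PresentedGroup.mk R := by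
          apply FreeGroup.ext_hom
          intro a
          simp [hψe, PresentedGroup.of]
        rw [← this]
        rfl
      rw [this]
      exact PresentedGroup.one_of_mem hr
    · rw [FreeGroup.lift_apply_of]
      exact hψn i (not_lt.2 hi)
  refine ⟨MonoidHom.toMulEquiv (PresentedGroup.toGroup hφ) (PresentedGroup.toGroup hψ) ?_ ?_, ?_⟩
  · apply PresentedGroup.ext
    intro x
    simp only [MonoidHom.comp_apply, PresentedGroup.toGroup.of, MonoidHom.id_apply, φ0]
    exact hψe x
  · apply PresentedGroup.ext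
    intro i
    simp only [MonoidHom.comp_apply, PresentedGroup.toGroup.of, MonoidHom.id_apply]
    by_cases hi : i < N
    · obtain ⟨x, rfl⟩ := (hN i).1 hi
      rw [hψe, PresentedGroup.toGroup.of]
    · rw [hψn i hi, map_one]
      symm
      apply PresentedGroup.one_of_mem
      exact Or.inr ⟨i, not_lt.1 hi, rfl⟩
  · intro x
    exact PresentedGroup.toGroup.of hφ

/-- numbers of the generators -/
def H01_num (c : PCd) : Gn (Fin (pa c + 1)) (Fin (pb c + 1)) (Fin (pd c + 1)) → ℕ
  | Gn.g a => gG a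
  | Gn.s x v => gS c x v
  | Gn.c => 0

theorem H01_inj (c : PCd) : Function.Injective (H01_num c) := by
  intro x y hxy
  cases x with
  | g a =>
    cases y with
    | g a' =>
      simp only [H01_num, gG] at hxy
      congr 1
      apply Fin.ext
      omega
    | s x v =>
      simp only [H01_num, gG, gS] at hxy
      have := a.2
      omega
    | c =>
      simp only [H01_num, gG] at hxy
      omega
  | s x v =>
    cases y with
    | g a' =>
      simp only [H01_num, gG, gS] at hxy
      have := a'.2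
      omega
    | s x' v' =>
      simp only [H01_num, gS] at hxy
      have h1 : (x : ℕ) * (pa c + 1) + v = (x' : ℕ) * (pa c + 1) + v' := by omega
      have hv := v.2
      have hv' := v'.2
      have h2 : (x : ℕ) = x' := by
        have e1 : ((x : ℕ) * (pa c + 1) + v) / (pa c + 1) = x := by
          rw [mul_comm, Nat.mul_add_div (Nat.succ_pos _), Nat.div_eq_of_lt hv, add_zero]
        have e2 : ((x' : ℕ) * (pa c + 1) + v') / (pa c + 1) = x' := by
          rw [mul_comm, Nat.mul_add_div (Nat.succ_pos _), Nat.div_eq_of_lt hv', add_zero]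
        rw [← e1, h1, e2]
      rw [h2] at h1
      have h3 : (v : ℕ) = v' := by omega
      rw [Fin.ext h2, Fin.ext h3]
    | c =>
      simp only [H01_num, gS] at hxy
      omega
  | c =>
    cases y with
    | g a' =>
      simp only [H01_num, gG] at hxy
      omega
    | s x v =>
      simp only [H01_num, gS] at hxy
      omega
    | c => rfl

theorem H01_N (c : PCd) (j : ℕ) : j < ng c ↔ ∃ x, H01_num c x = j := by
  constructor
  · intro hj
    unfold ng at hj
    rcases Nat.eq_zero_or_pos j with h0 | h0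
    · exact ⟨Gn.c, h0.symm⟩
    · by_cases h1 : j < 1 + (pb c + 1)
      · refine ⟨Gn.g ⟨j - 1, by omega⟩, ?_⟩
        show 1 + (j - 1) = j
        omega
      · have h2 : j - (1 + (pb c + 1)) < (pd c + 1) * (pa c + 1) := by omega
        refine ⟨Gn.s ⟨(j - (1 + (pb c + 1))) / (pa c + 1), ?_⟩
          ⟨(j - (1 + (pb c + 1))) % (pa c + 1), Nat.mod_lt _ (Nat.succ_pos _)⟩, ?_⟩
        · rw [Nat.div_lt_iff_lt_mul (Nat.succ_pos _)]
          exact h2
        · show 1 + (pb c + 1) + ((j - (1 + (pb c + 1))) / (pa c + 1) * (pa c + 1) +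
            (j - (1 + (pb c + 1))) % (pa c + 1)) = j
          rw [mul_comm ((j - (1 + (pb c + 1))) / (pa c + 1)), Nat.div_add_mod]
          omega
  · rintro ⟨x, rfl⟩
    cases x with
    | g a =>
      have := a.2
      simp only [H01_num, gG, ng]
      omega
    | s x v =>
      have hv := v.2
      have hx := x.2
      have : ((x : ℕ) + 1) * (pa c + 1) ≤ (pd c + 1) * (pa c + 1) := Nat.mul_le_mul_right _ hx
      simp only [H01_num, gS, ng]
      rw [add_mul, one_mul] at this
      omega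
    | c =>
      simp only [H01_num, ng]
      omega

theorem H01_div (z : PI) (R : ℕ) (h : (R : ℤ) ∣ iv z) :
    iv ((z.1 - z.2) / R, (z.2 - z.1) / R) = iv z / R := by
  unfold iv at *
  rcases le_total z.2 z.1 with h1 | h1
  · have h2 : z.2 - z.1 = 0 := by omega
    simp only [h2, Nat.zero_div, Nat.cast_zero, sub_zero]
    rw [Int.natCast_div, Nat.cast_sub h1]
  · have h2 : z.1 - z.2 = 0 := by omega
    simp only [h2, Nat.zero_div, Nat.cast_zero, zero_sub]
    rw [Int.natCast_div, Nat.cast_sub h1, ← Int.neg_ediv_of_dvd, neg_sub]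
    rw [← neg_sub, dvd_neg]
    exact h

theorem H01_kmul {c : PCd} (h : (toPD c).Ok) (x y : Fin (pd c + 1)) :
    iv (kmul c x y) = ((toPD c).de x + (toPD c).ep x * (toPD c).de y -
      (toPD c).de ((toPD c).m x y)) / (toPD c).R := by
  have hz : iv (psub ((hDe c x).1 + (AdmIso.sg (hS c x) (hDe c y)).1,
      (hDe c x).2 + (AdmIso.sg (hS c x) (hDe c y)).2) (hDe c (hM c x y))) =
      (toPD c).de x + (toPD c).ep x * (toPD c).de y - (toPD c).de ((toPD c).m x y) := by
    rw [iv_psub]
    have e1 : iv ((hDe c x).1 + (AdmIso.sg (hS c x) (hDe c y)).1,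
      (hDe c x).2 + (AdmIso.sg (hS c x) (hDe c y)).2) =
        iv (hDe c x) + iv (AdmIso.sg (hS c x) (hDe c y)) := by
      unfold iv
      push_cast
      ring
    rw [e1, iv_sg]
    rfl
  have hd := h.dem x y
  rw [← hz] at hd ⊢
  exact H01_div _ (hR c) hd

theorem H01_cpow (n : PI) : FreeGroup.mk (pwW [(0, true)] n) =
    (FreeGroup.of 0 : FreeGroup ℕ) ^ iv n := ev_pw (MonoidHom.id _) [(0, true)] n

theorem H01_mul {c : PCd} (h : (toPD c).Ok) (x y : Fin (pd c + 1)) (v : Fin (pa c + 1)) :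
    FreeGroup.mk ([(gS c x (hP c y v), true), (gS c y v, true), (gS c (hM c x y) v, false)] ++
        FreeGroup.invRev (pwW [(0, true)] (kmul c x y))) =
      FreeGroup.map (H01_num c) (FreeGroup.of (Gn.s x ((toPD c).aP y v)) *
        FreeGroup.of (Gn.s y v) * (FreeGroup.of (Gn.s ((toPD c).m x y) v))⁻¹ *
        (FreeGroup.of Gn.c ^ (((toPD c).de x + (toPD c).ep x * (toPD c).de y -
          (toPD c).de ((toPD c).m x y)) / (toPD c).R))⁻¹) := by
  rw [← H01_kmul h, ← FreeGroup.mul_mk, ← FreeGroup.inv_mk, H01_cpow, map_mul, map_inv, map_zpow]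
  rfl

theorem H01_sc (c : PCd) (x : Fin (pd c + 1)) (v : Fin (pa c + 1)) :
    FreeGroup.mk [(gS c x v, true), (0, true), (gS c x v, false), (0, decide (hS c x = 1))] =
      FreeGroup.map (H01_num c) (FreeGroup.of (Gn.s x v) * FreeGroup.of Gn.c *
        (FreeGroup.of (Gn.s x v))⁻¹ * (FreeGroup.of Gn.c ^ ((toPD c).ep x))⁻¹) := by
  have h2 : hS c x < 2 := CB.dg_lt _ _ _
  have h3 : (toPD c).ep x = (-1) ^ hS c x := rfl
  rw [h3]
  rcases Nat.lt_or_ge (hS c x) 1 with h | h
  · have h4 : hS c x = 0 := by omega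
    rw [h4, pow_zero, zpow_one]
    rfl
  · have h4 : hS c x = 1 := by omega
    rw [h4, pow_one, zpow_neg_one, inv_inv]
    rfl

theorem H01_list (P : Pres) {G : Type} [Group G] {A : Type} (F : G →* P.Grp) (f : A → G) (k : A → ℕ)
    (h : ∀ a, F (f a) = wv P [(k a, true)]) (l : List A) :
    F (l.map f).prod = wv P (l.map fun a => ((k a, true) : ℕ × Bool)) := by
  induction l with
  | nil => rw [List.map_nil, List.map_nil, List.prod_nil, map_one, wv_nil]
  | cons a l ih =>
    rw [List.map_cons, List.prod_cons, map_mul, ih, h, ← wv_append]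
    rfl

theorem H01_pe0 {c : PCd} (h : (toPD c).Ok) : ∃ F : GP c ≃* (pPres c).Grp,
    ∀ x, F (PresentedGroup.of x) = PresentedGroup.of (H01_num c x) := by
  exact H01_iso (ng c) (H01_num c) (H01_inj c) (H01_N c)
    {r | PRel (toPD c) 0 (toDl c) r} (PRl c) (by
      intro r hr
      have hr' : PRel (toPD c) 0 (toDl c) r := hr
      unfold PRl
      cases hr' with
      | inv a =>
        exact ⟨_, List.mem_append_left _ (List.mem_map.2 ⟨(a : ℕ), List.mem_range.2 a.2, rfl⟩), rfl⟩
      | tree v hv =>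
        have hv0 : (v : ℕ) ≠ 0 := fun h0 => hv (Fin.ext h0)
        refine ⟨_, List.mem_append_right _ (List.mem_append_left _ (List.mem_map.2
          ⟨(v : ℕ) - 1, List.mem_range.2 (by have := v.2; omega), rfl⟩)), ?_⟩
        have h1 : (v : ℕ) - 1 + 1 = v := by omega
        rw [h1]
        rfl
      | mul x y v =>
        exact ⟨_, List.mem_append_right _ (List.mem_append_right _ (List.mem_append_left _
          (List.mem_flatMap.2 ⟨(x : ℕ), List.mem_range.2 x.2, List.mem_flatMap.2
            ⟨(y : ℕ), List.mem_range.2 y.2, List.mem_map.2 ⟨(v : ℕ), List.mem_range.2 v.2,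
              rfl⟩⟩⟩))), H01_mul h x y v⟩
      | com a =>
        exact ⟨_, List.mem_append_right _ (List.mem_append_right _ (List.mem_append_right _
          (List.mem_append_left _ (List.mem_map.2 ⟨(a : ℕ), List.mem_range.2 a.2, rfl⟩)))), rfl⟩
      | sc x v =>
        exact ⟨_, List.mem_append_right _ (List.mem_append_right _ (List.mem_append_right _
          (List.mem_append_right _ (List.mem_append_left _ (List.mem_flatMap.2
            ⟨(x : ℕ), List.mem_range.2 x.2, List.mem_map.2 ⟨(v : ℕ), List.mem_range.2 v.2,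
              rfl⟩⟩))))), H01_sc c x v⟩
      | act x a =>
        exact ⟨_, List.mem_append_right _ (List.mem_append_right _ (List.mem_append_right _
          (List.mem_append_right _ (List.mem_append_right _ (List.mem_flatMap.2
            ⟨(x : ℕ), List.mem_range.2 x.2, List.mem_map.2 ⟨(a : ℕ), List.mem_range.2 a.2,
              rfl⟩⟩))))), rfl⟩)
    (by
      intro w hw
      unfold PRl at hw
      rcases List.mem_append.1 hw with hw | hw
      · obtain ⟨a, ha, rfl⟩ := List.mem_map.1 hw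
        exact ⟨_, PRel.inv ⟨a, List.mem_range.1 ha⟩, rfl⟩
      rcases List.mem_append.1 hw with hw | hw
      · obtain ⟨v, hv, rfl⟩ := List.mem_map.1 hw
        have hv' := List.mem_range.1 hv
        exact ⟨_, PRel.tree ⟨v + 1, by omega⟩ (fun h0 => Nat.succ_ne_zero v (congrArg Fin.val h0)),
          rfl⟩
      rcases List.mem_append.1 hw with hw | hw
      · obtain ⟨x, hx, hw⟩ := List.mem_flatMap.1 hw
        obtain ⟨y, hy, hw⟩ := List.mem_flatMap.1 hw
        obtain ⟨v, hv, rfl⟩ := List.mem_map.1 hw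
        obtain ⟨X, rfl⟩ : ∃ X : Fin (pd c + 1), (X : ℕ) = x := ⟨⟨x, List.mem_range.1 hx⟩, rfl⟩
        obtain ⟨Y, rfl⟩ : ∃ X : Fin (pd c + 1), (X : ℕ) = y := ⟨⟨y, List.mem_range.1 hy⟩, rfl⟩
        obtain ⟨W, rfl⟩ : ∃ X : Fin (pa c + 1), (X : ℕ) = v := ⟨⟨v, List.mem_range.1 hv⟩, rfl⟩
        exact ⟨_, PRel.mul X Y W, H01_mul h X Y W⟩
      rcases List.mem_append.1 hw with hw | hw
      · obtain ⟨a, ha, rfl⟩ := List.mem_map.1 hw
        exact ⟨_, PRel.com ⟨a, List.mem_range.1 ha⟩, rfl⟩
      rcases List.mem_append.1 hw with hw | hw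
      · obtain ⟨x, hx, hw⟩ := List.mem_flatMap.1 hw
        obtain ⟨v, hv, rfl⟩ := List.mem_map.1 hw
        obtain ⟨X, rfl⟩ : ∃ X : Fin (pd c + 1), (X : ℕ) = x := ⟨⟨x, List.mem_range.1 hx⟩, rfl⟩
        obtain ⟨W, rfl⟩ : ∃ X : Fin (pa c + 1), (X : ℕ) = v := ⟨⟨v, List.mem_range.1 hv⟩, rfl⟩
        exact ⟨_, PRel.sc X W, H01_sc c X W⟩
      · obtain ⟨x, hx, hw⟩ := List.mem_flatMap.1 hw
        obtain ⟨a, ha, rfl⟩ := List.mem_map.1 hw
        exact ⟨_, PRel.act ⟨x, List.mem_range.1 hx⟩ ⟨a, List.mem_range.1 ha⟩, rfl⟩)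

theorem pe {c : PCd} (h : (toPD c).Ok) : ∃ F : GP c ≃* (pPres c).Grp,
    (∀ a, F (PG.g (toPD c) 0 (toDl c) a) = wv (pPres c) [(gG a, true)]) ∧
    (∀ x v, F (PG.s (toPD c) 0 (toDl c) x v) = wv (pPres c) [(gS c x v, true)]) ∧
    F (PG.c (toPD c) 0 (toDl c)) = zv (pPres c) ∧
    (∀ e : ECd, F ((toE c e).hel (toPD c) 0 (toDl c)) = wv (pPres c) (hW c e)) ∧
    ∀ e : ECd, F ((toE c e).bel (toPD c) 0 (toDl c)) = wv (pPres c) (bW c e) := by
  obtain ⟨F, hF⟩ := H01_pe0 h
  have hg : ∀ a, F (PG.g (toPD c) 0 (toDl c) a) = wv (pPres c) [(gG a, true)] := fun a => hF _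
  have hs : ∀ x v, F (PG.s (toPD c) 0 (toDl c) x v) = wv (pPres c) [(gS c x v, true)] :=
    fun x v => hF _
  have hc : F (PG.c (toPD c) 0 (toDl c)) = zv (pPres c) := hF _
  have hcp : ∀ n : PI, F (PG.c (toPD c) 0 (toDl c) ^ iv n) = wv (pPres c) (pwW [(0, true)] n) := by
    intro n
    rw [map_zpow, hc, wv_pw]
    rfl
  refine ⟨F, hg, hs, hc, ?_, ?_⟩
  · intro e
    unfold EDat.hel hW
    rw [map_mul, map_mul, wv_append, wv_append, ← mul_assoc]
    have h1 : F (PG.c (toPD c) 0 (toDl c) ^ (toE c e).kh) =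
        wv (pPres c) (pwW [(0, true)] e.2.2.1.1.2) := hcp _
    have h2 : F (PG.s (toPD c) 0 (toDl c) (toE c e).xh (toE c e).v) =
        wv (pPres c) [(gS c (e.2.2.1.1.1 % (pd c + 1)) (e.1.2.2 % (pa c + 1)), true)] := hs _ _
    have h3 : F ((toE c e).γ.map (PG.g (toPD c) 0 (toDl c))).prod =
        wv (pPres c) (e.2.1.map fun x => ((gG (x % (pb c + 1)), true) : ℕ × Bool)) := by
      have h4 := H01_list (pPres c) F.toMonoidHom (PG.g (toPD c) 0 (toDl c)) (fun a => gG a) hg
        (toE c e).γ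
      have h5 : (toE c e).γ.map (fun a : Fin (pb c + 1) => ((gG (a : ℕ), true) : ℕ × Bool)) =
          e.2.1.map fun x => ((gG (x % (pb c + 1)), true) : ℕ × Bool) := by
        show (e.2.1.map fun x => (⟨x % (pb c + 1), Nat.mod_lt _ (Nat.succ_pos _)⟩ :
          Fin (pb c + 1))).map _ = _
        rw [List.map_map]
        rfl
      rw [h5] at h4
      exact h4
    rw [h1, h2, h3]
  · intro e
    unfold EDat.bel bW
    rw [map_mul, wv_append]
    have h1 : F (PG.c (toPD c) 0 (toDl c) ^ (toE c e).kb) =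
        wv (pPres c) (pwW [(0, true)] e.2.2.1.2.2) := hcp _
    have h2 : F (PG.s (toPD c) 0 (toDl c) (toE c e).y (toE c e).v) =
        wv (pPres c) [(gS c (e.2.2.1.2.1 % (pd c + 1)) (e.1.2.2 % (pa c + 1)), true)] := hs _ _
    rw [h1, h2]

end VF
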