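import Pool.Agent.Lib.MP_32d917_al_vf.E01
import Pool.Agent.Lib.MP_32d917_al_vf.H01
import Pool.Agent.Lib.MP_32d917_al_vf.B10
import Pool.Agent.Lib.MP_32d917_al_vf.G00

/-!
# H04: bounded words

`BB_mono`: clear. `bnd_pp`: `pg_exists` (B05) for `toPD c` and `toPD c'`, `edat_ax` (E01) for the edges, `θ` transported by `pe` to `GP c ≃* GP c'`, `bnd_words` (B10), and
back. `Bdd .. B g` gives `BWd (pPres c) (B + 1) (F g)`: the word `l.map gG ++ [gS x 0]` has letters `< ng c` and length `≤ B + 1` (`mem_wds`). Every `j < ng c` is `0`, `gG a` or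
`gS c x v` (`ng_cases` in H01), i.e. `wv (pPres c) [(j, true)]` is the image of a generator.
-/

set_option autoImplicit false

namespace VF

open LatIso LatN AdmIso

theorem BB_mono {a b a' k M k' M' : ℕ} (hk : k ≤ k') (hM : M ≤ M') :
    BB a b a' k M ≤ BB a b a' k' M' := by
  have h1 : NB a b k M ≤ NB a b k' M' := by
    unfold NB
    apply Nat.mul_le_mul_left
    have h2 : (a + 1) * (b + 2) ^ M ≤ (a + 1) * (b + 2) ^ M' :=
      Nat.mul_le_mul_left _ (Nat.pow_le_pow_right (by omega) hM)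
    calc _ ≤ ((a + 1) * (b + 2) ^ M') ^ k := Nat.pow_le_pow_left h2 k
      _ ≤ _ := Nat.pow_le_pow_right (by positivity) hk
  unfold BB
  have h3 : 3 ^ NB a b k M ≤ 3 ^ NB a b k' M' := Nat.pow_le_pow_right (by omega) h1
  have h4 : 4 * (a + a' + M) + 4 ≤ 4 * (a + a' + M') + 4 := by omega
  have h5 := Nat.mul_le_mul h3 h4
  omega

theorem H04_bdd {c : PCd} (F : GP c ≃* (pPres c).Grp)
    (hg : ∀ a, F (PG.g (toPD c) 0 (toDl c) a) = wv (pPres c) [(gG a, true)])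
    (hs : ∀ x v, F (PG.s (toPD c) 0 (toDl c) x v) = wv (pPres c) [(gS c x v, true)])
    (hc : F (PG.c (toPD c) 0 (toDl c)) = zv (pPres c)) {B : ℕ} {g : GP c}
    (h : Bdd (toPD c) 0 (toDl c) B g) : BWd (pPres c) (B + 1) (F g) := by
  obtain ⟨l, x, k, hl, rfl⟩ := h
  refine ⟨(l.map fun a : Fin (pb c + 1) => ((gG (a : ℕ), true) : ℕ × Bool)) ++
    [(gS c x 0, true)], ?_, k, ?_⟩
  · rw [mem_wds]
    constructor
    · rw [List.length_append, List.length_map, List.length_singleton]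
      omega
    · intro y hy
      rcases List.mem_append.1 hy with hy | hy
      · obtain ⟨a, -, rfl⟩ := List.mem_map.1 hy
        exact (H01_N c _).2 ⟨Gn.g a, rfl⟩
      · rw [List.mem_singleton] at hy
        subst hy
        exact (H01_N c _).2 ⟨Gn.s x 0, rfl⟩
  · rw [map_mul, map_mul, map_zpow, hc, hs, wv_append,
      ← H01_list (pPres c) F.toMonoidHom (PG.g (toPD c) 0 (toDl c)) (fun a => gG a) hg l]
    rfl

theorem H04_gen {c : PCd} (F : GP c ≃* (pPres c).Grp)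
    (hg : ∀ a, F (PG.g (toPD c) 0 (toDl c) a) = wv (pPres c) [(gG a, true)])
    (hs : ∀ x v, F (PG.s (toPD c) 0 (toDl c) x v) = wv (pPres c) [(gS c x v, true)])
    (hc : F (PG.c (toPD c) 0 (toDl c)) = zv (pPres c)) {j : ℕ} (hj : j < (pPres c).1) :
    ∃ γ : Gn (Fin (pa c + 1)) (Fin (pb c + 1)) (Fin (pd c + 1)),
      F (PresentedGroup.of γ) = wv (pPres c) [(j, true)] := by
  obtain ⟨x, rfl⟩ := (H01_N c j).1 hj
  cases x with
  | g a => exact ⟨Gn.g a, hg a⟩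
  | s x v => exact ⟨Gn.s x v, hs x v⟩
  | c => exact ⟨Gn.c, hc⟩

theorem bnd_pp {c c' : PCd} (h : PVal c) (h' : PVal c') {k : ℕ} (hk : 0 < k) (E E' : Fin k → ECd)
    (hE : ∀ i, (toE c (E i)).Ok (toPD c)) (hE' : ∀ i, (toE c' (E' i)).Ok (toPD c'))
    (s σ : Fin k → ℤˣ) (τ : Fin k → ℤ) (θ : (pPres c).Grp ≃* (pPres c').Grp)
    (hθ : ∀ i, ∃ g, θ (wv (pPres c) (hW c (E i))) =
        g * (wv (pPres c') (hW c' (E' i)) ^ (s i : ℤ) * wv (pPres c') (bW c' (E' i)) ^ τ i) * g⁻¹ ∧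
      θ (wv (pPres c) (bW c (E i))) = g * wv (pPres c') (bW c' (E' i)) ^ (σ i : ℤ) * g⁻¹)
    (B : ℕ) (hB : BB (pa c) (pb c) (pa c') k
      (∑ i, (E i).2.1.length + ∑ i, (E' i).2.1.length) ≤ B) :
    ∃ θ' : (pPres c).Grp ≃* (pPres c').Grp,
      (∀ i, ∃ g, BWd (pPres c') (B + 1) g ∧ θ' (wv (pPres c) (hW c (E i))) =
        g * (wv (pPres c') (hW c' (E' i)) ^ (s i : ℤ) * wv (pPres c') (bW c' (E' i)) ^ τ i) * g⁻¹ ∧
        θ' (wv (pPres c) (bW c (E i))) = g * wv (pPres c') (bW c' (E' i)) ^ (σ i : ℤ) * g⁻¹) ∧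
      (∀ j < (pPres c).1, BWd (pPres c') (B + 1) (θ' (wv (pPres c) [(j, true)]))) ∧
      ∀ j < (pPres c').1, BWd (pPres c) (B + 1) (θ'.symm (wv (pPres c') [(j, true)])) := by
  obtain ⟨F, hg, hs, hc, hh, hb⟩ := pe h.1
  obtain ⟨F', hg', hs', hc', hh', hb'⟩ := pe h'.1
  obtain ⟨V, _, S, q, D, p, al, t, ht⟩ := pg_exists h.1 h.2.2
  obtain ⟨V', _, S', q', D', p', al', t', ht'⟩ := pg_exists h'.1 h'.2.2
  haveI : Nonempty (Fin k) := ⟨⟨0, hk⟩⟩
  have hlen : ∀ (c : PCd) (e : ECd), (toE c e).γ.length = e.2.1.length := by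
    intro c e
    show (e.2.1.map _).length = _
    rw [List.length_map]
  have hsym : ∀ e : ECd, F.symm (wv (pPres c) (hW c e)) = (toE c e).hel (toPD c) 0 (toDl c) :=
    fun e => by rw [← hh e, F.symm_apply_apply]
  have hsymb : ∀ e : ECd, F.symm (wv (pPres c) (bW c e)) = (toE c e).bel (toPD c) 0 (toDl c) :=
    fun e => by rw [← hb e, F.symm_apply_apply]
  have hsym' : ∀ e : ECd, F'.symm (wv (pPres c') (hW c' e)) =
      (toE c' e).hel (toPD c') 0 (toDl c') := fun e => by rw [← hh' e, F'.symm_apply_apply]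
  have hsymb' : ∀ e : ECd, F'.symm (wv (pPres c') (bW c' e)) =
      (toE c' e).bel (toPD c') 0 (toDl c') := fun e => by rw [← hb' e, F'.symm_apply_apply]
  obtain ⟨θ1, r1, r2, r3⟩ := bnd_words h.1 h.2.1 h.2.2 ht h'.1 h'.2.1 h'.2.2 ht'
    (fun i : Fin k => (toE c (E i)).hel (toPD c) 0 (toDl c))
    (fun i : Fin k => (toE c (E i)).bel (toPD c) 0 (toDl c))
    (fun i => (toE c (E i)).v) (fun i => (toE c (E i)).γ.length)
    (fun i : Fin k => (toE c' (E' i)).hel (toPD c') 0 (toDl c'))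
    (fun i : Fin k => (toE c' (E' i)).bel (toPD c') 0 (toDl c'))
    (fun i => (toE c' (E' i)).v) (fun i => (toE c' (E' i)).γ.length)
    (fun i => (edat_ax h.1 ht (hE i)).1) (fun i => (edat_ax h'.1 ht' (hE' i)).1)
    (fun i => (edat_ax h.1 ht (hE i)).2.1) (fun i => (edat_ax h'.1 ht' (hE' i)).2.1)
    s σ τ (F.trans (θ.trans F'.symm)) (fun i => by
      obtain ⟨g, e1, e2⟩ := hθ i
      refine ⟨F'.symm g, ?_, ?_⟩
      · show F'.symm (θ (F _)) = _
        rw [hh, e1, map_mul, map_mul, map_mul, map_inv, map_zpow, map_zpow, hsym', hsymb']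
      · show F'.symm (θ (F _)) = _
        rw [hb, e2, map_mul, map_mul, map_inv, map_zpow, hsymb']) B (by
      simp only [Fintype.card_fin, hlen]
      exact hB)
  refine ⟨F.symm.trans (θ1.trans F'), ?_, ?_, ?_⟩
  · intro i
    obtain ⟨g, hgB, e1, e2⟩ := r1 i
    refine ⟨F' g, H04_bdd F' hg' hs' hc' hgB, ?_, ?_⟩
    · show F' (θ1 (F.symm _)) = _
      rw [hsym, e1, map_mul, map_mul, map_mul, map_inv, map_zpow, map_zpow, hh', hb']
    · show F' (θ1 (F.symm _)) = _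
      rw [hsymb, e2, map_mul, map_mul, map_inv, map_zpow, hb']
  · intro j hj
    obtain ⟨γ, hγ⟩ := H04_gen F hg hs hc hj
    show BWd _ _ (F' (θ1 (F.symm _)))
    rw [← hγ, F.symm_apply_apply]
    exact H04_bdd F' hg' hs' hc' (r2 γ)
  · intro j hj
    obtain ⟨γ, hγ⟩ := H04_gen F' hg' hs' hc' hj
    show BWd _ _ (F (θ1.symm (F'.symm _)))
    rw [← hγ, F'.symm_apply_apply]
    exact H04_bdd F hg hs hc (r3 γ)

end VF
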