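import Pool.Agent.Lib.MP_32d917_al_vf.F01
import Pool.Agent.Lib.MP_32d917_al_vf.F06
import Pool.Agent.Lib.MP_32d917_al_vf.G07
import Pool.Agent.Lib.MP_32d917_al_vf.H04

/-!
# F07: bounded isomorphisms at a piece

`ppl_inst` (F06). Let `k` be the number of edges `e` with `kpc c e = p`, numbered by `Fin k` (`edge_at` in F01: `k > 0`), `E i`, `E' i` the codes `ecd c e`, `ecd c' (mse c t e)`.
By `MatN` the edge `mse c t e` of `c'` is at the piece `msp c t p`, so both are `Ok` (`CVal.ed`). `bnd_pp` (H04) gives `θ'`, with the bound `BB .. k (∑ + ∑) ≤ BB .. (nE c + 1)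
(totl c + totl c')` (`BB_mono`; `mse` is injective; `bdN` is this number plus one). `npp_sound` (G07): `hz` from `piece_iso_c` (H03, or `pg_iso` in T00) and `pval_piece`; `hL`:
`z' = b' ^ m` commutes with `h'`, `b'` (`toTD_ok`).
-/

set_option autoImplicit false

namespace VF

open LatIso LatN AdmIso

theorem f07_sum {I : Finset ℕ} (f : ℕ → ℕ) :
    ∑ i : Fin I.card, f (I.equivFin.symm i : ℕ) = ∑ e ∈ I, f e := by
  rw [Equiv.sum_comp I.equivFin.symm (fun x : I => f (x : ℕ))]
  exact Finset.sum_coe_sort I f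

theorem f07_unit (n : ℕ) : (((-1 : ℤˣ) ^ n : ℤˣ) : ℤ) = (-1) ^ n := by
  rw [Units.val_pow_eq_pow_val, Units.val_neg, Units.val_one]

theorem ppl_not_npp {c c' : Cd} (h : CVal c) (h' : CVal c') {t : Mt} (ht : MatN c c' t)
    (ta : List PI) {p : ℕ} (hp : p < nP c + 1)
    (hs : PPL (pPres (pcd c p)) (pPres (pcd c' (msp c t p))) (inst c c' t ta p)) :
    ¬ NPP (pPres (pcd c p)) (pPres (pcd c' (msp c t p))) (inst c c' t ta p)
      (bdN c c' t p) := by
  classical
  obtain ⟨θ, hθ⟩ := (ppl_inst c c' t ta p).1 hs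
  have hnP : nP c' = nP c := by
    show c'.1.1 = c.1.1
    rw [ht.1]
  have hnE : nE c' = nE c := by
    show c'.1.2.2 = c.1.2.2
    rw [ht.1]
  have hp' : msp c t p < nP c' + 1 := by
    rw [hnP]
    exact CB.dg_lt _ _ _
  have hse : ∀ e, mse c t e < nE c' + 1 := by
    intro e
    rw [hnE]
    exact CB.dg_lt _ _ _
  have hkp : ∀ e < nE c + 1, kpc c e = p → kpc c' (mse c t e) = msp c t p := by
    intro e he hep
    rw [(ht.2.2.2.2.1 e he).1, hep]
  set I : Finset ℕ := (Finset.range (nE c + 1)).filter (fun e => kpc c e = p) with hI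
  have hmem : ∀ e, e ∈ I ↔ e < nE c + 1 ∧ kpc c e = p := by
    intro e
    rw [hI, Finset.mem_filter, Finset.mem_range]
  have hk : 0 < I.card := by
    obtain ⟨e, he, hep⟩ := edge_at h p hp
    exact Finset.card_pos.2 ⟨e, (hmem e).2 ⟨he, hep⟩⟩
  have hi : ∀ i : Fin I.card, (I.equivFin.symm i : ℕ) < nE c + 1 ∧
      kpc c (I.equivFin.symm i : ℕ) = p := fun i => (hmem _).1 (I.equivFin.symm i).2
  have hE : ∀ i : Fin I.card, (toE (pcd c p) (ecd c (I.equivFin.symm i : ℕ))).Ok
      (toPD (pcd c p)) := by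
    intro i
    have h1 := h.ed _ (hi i).1
    rw [(hi i).2] at h1
    exact h1
  have hE' : ∀ i : Fin I.card, (toE (pcd c' (msp c t p))
      (ecd c' (mse c t (I.equivFin.symm i : ℕ)))).Ok (toPD (pcd c' (msp c t p))) := by
    intro i
    have h1 := h'.ed _ (hse (I.equivFin.symm i : ℕ))
    rw [hkp _ (hi i).1 (hi i).2] at h1
    exact h1
  have hB : BB (pa (pcd c p)) (pb (pcd c p)) (pa (pcd c' (msp c t p))) I.card
      (∑ i : Fin I.card, (ecd c (I.equivFin.symm i : ℕ)).2.1.length +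
        ∑ i : Fin I.card, (ecd c' (mse c t (I.equivFin.symm i : ℕ))).2.1.length) ≤
      BB (pa (pcd c p)) (pb (pcd c p)) (pa (pcd c' (msp c t p))) (nE c + 1)
        (totl c + totl c') := by
    apply BB_mono
    · have h1 := Finset.card_filter_le (Finset.range (nE c + 1)) (fun e => kpc c e = p)
      rw [Finset.card_range] at h1
      exact h1
    · apply Nat.add_le_add
      · rw [f07_sum (fun e => (ecd c e).2.1.length)]
        exact Finset.sum_le_sum_of_subset (Finset.filter_subset _ _)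
      · rw [f07_sum (fun e => (ecd c' (mse c t e)).2.1.length)]
        have h1 : ∑ e ∈ I, (ecd c' (mse c t e)).2.1.length =
            ∑ e ∈ I.image (mse c t), (ecd c' e).2.1.length := by
          rw [Finset.sum_image]
          intro e he f hf hef
          exact ht.2.2.2.1 e ((hmem e).1 he).1 f ((hmem f).1 hf).1 hef
        rw [h1]
        refine Finset.sum_le_sum_of_subset ?_
        intro x hx
        obtain ⟨e, _, rfl⟩ := Finset.mem_image.1 hx
        exact Finset.mem_range.2 (hse e)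
  obtain ⟨θ', A1, A2, A3⟩ := bnd_pp (h.pc p hp) (h'.pc _ hp') hk
    (fun i => ecd c (I.equivFin.symm i : ℕ)) (fun i => ecd c' (mse c t (I.equivFin.symm i : ℕ)))
    hE hE'
    (fun i => (-1) ^ (mde t (kfl c (I.equivFin.symm i : ℕ)) + msg t (I.equivFin.symm i : ℕ)))
    (fun i => (-1) ^ msg t (I.equivFin.symm i : ℕ))
    (fun i => iv (ta.getD (I.equivFin.symm i : ℕ) (0, 0))) θ
    (fun i => by
      obtain ⟨g, g1, g2⟩ := hθ _ (hi i).1 (hi i).2
      refine ⟨g, ?_, ?_⟩
      · rw [f07_unit]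
        exact g1
      · rw [f07_unit]
        exact g2) _ hB
  have hw1 : ∀ (P : Pres) (u v : Wd) (n : ℕ) (x : PI),
      wv P (pwW u (AdmIso.sg n (1, 0)) ++ pwW v x) = wv P u ^ ((-1 : ℤ) ^ n) * wv P v ^ iv x := by
    intro P u v n x
    have h1 : iv ((1, 0) : PI) = 1 := rfl
    rw [wv_append, wv_pw, wv_pw, iv_sg, h1, mul_one]
  have hw2 : ∀ (P : Pres) (u : Wd) (n : ℕ),
      wv P (pwW u (AdmIso.sg n (1, 0))) = wv P u ^ ((-1 : ℤ) ^ n) := by
    intro P u n
    have h1 : iv ((1, 0) : PI) = 1 := rfl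
    rw [wv_pw, iv_sg, h1, mul_one]
  refine npp_sound (goodP (h.pc p hp)) (goodP (h'.pc _ hp')) θ'
    (piece_iso_c (pval_piece (h.pc p hp)) (pval_piece (h'.pc _ hp')) θ') A2 A3 ?_ ?_
  · intro x hx
    obtain ⟨e, he, hep, rfl⟩ := (mem_inst c c' t ta p x).1 hx
    obtain ⟨k1, ⟨m, _, k2⟩, _⟩ := f01_ax h' (mse c t e) (hse e) (msp c t p) (hkp e he hep)
    dsimp only
    rw [hw1, hw2, ← k2]
    have k3 : Commute (wv (pPres (pcd c' (msp c t p)))
        (bW (pcd c' (msp c t p)) (ecd c' (mse c t e))) ^ m)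
        (wv (pPres (pcd c' (msp c t p))) (hW (pcd c' (msp c t p)) (ecd c' (mse c t e)))) :=
      (Commute.pow_right (show Commute _ _ from k1) m).symm
    have k4 : Commute (wv (pPres (pcd c' (msp c t p)))
        (bW (pcd c' (msp c t p)) (ecd c' (mse c t e))) ^ m)
        (wv (pPres (pcd c' (msp c t p))) (bW (pcd c' (msp c t p)) (ecd c' (mse c t e)))) :=
      (Commute.refl _).pow_left m
    exact ⟨((k3.zpow_right _).mul_right (k4.zpow_right _)).eq, (k4.zpow_right _).eq⟩
  · intro x hx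
    obtain ⟨e, he, hep, rfl⟩ := (mem_inst c c' t ta p x).1 hx
    obtain ⟨g, g0, g1, g2⟩ := A1 (I.equivFin ⟨e, (hmem e).2 ⟨he, hep⟩⟩)
    have hee : ((I.equivFin.symm (I.equivFin ⟨e, (hmem e).2 ⟨he, hep⟩⟩) : I) : ℕ) = e := by
      rw [Equiv.symm_apply_apply]
    rw [hee, f07_unit] at g1 g2
    refine ⟨g, g0, ?_, ?_⟩
    · dsimp only
      rw [hw1]
      exact g1
    · dsimp only
      rw [hw2]
      exact g2

end VF
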