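import Pool.Agent.Lib.MP_32d917_al_vf.G05
import Pool.Agent.Lib.MP_32d917_al_vf.G00

/-!
# G06: a candidate which is not excluded gives an isomorphism

`nhom_of`: there are `θ : P.Grp →* P'.Grp` with the values `σ_j z' ^ k_j` and the equations `eqs L γ`, and `θ' : P'.Grp →* P.Grp` with the values
`σ'_j z ^ k'_j`. `θ z = z' ^ (± 1)`, `θ' z' = z ^ (± 1)`. For every word `w`: `θ' (wv P' w) = wv P (sub σ' w) * z ^ k` for some `k` (letters
`≥ P'.1`: remark: take only words with letters `< P'.1`, or replace `σ'` by its first `P'.1` entries: the words `σ_j` in `K` may contain larger letters,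
which are trivial in `P'.Grp` but not for `sub`; therefore the hypotheses `hl`, `hl'`). So `θ' (θ (x_j)) = wv P (sub σ' σ_j) z ^ k = x_j z ^ k'` by
`rf` with `N = 1` (`Sep (qN P 1) ..` fails), for `0 < j`, and for `j = 0` also. So `θ' (θ x) ∈ x <z>` for all `x` (`<z>` is normal; closure induction, generators
`wv P [(j, true)]`, or words). Hence `θ' ∘ θ` is injective: if `θ' (θ x) = 1` then `x = z ^ k` and `θ' (θ (z ^ k)) = z ^ (± k) = 1`, so `k = 0` (`inf`); and surjective: its
image contains `z` and an element of `x <z>` for every `x`. The same for `θ ∘ θ'`. So `θ` is bijective. The equations `eqs`: conjugators `g = wv P' (γ.getD i [])`.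
-/

set_option autoImplicit false

namespace VF

open LatIso LatN AdmIso

/-- a homomorphism which moves every element only by a power of `z` is bijective -/
theorem g06_bij {G : Type} [Group G] {z : G} (hi : ∀ k : ℤ, z ^ k = 1 → k = 0) (τ : G →* G)
    (hz : τ z = z ∨ τ z = z⁻¹) (hx : ∀ x, ∃ k : ℤ, τ x = x * z ^ k) : Function.Bijective τ := by
  have hzk : ∀ k : ℤ, ∃ l : ℤ, (l = k ∨ l = -k) ∧ τ (z ^ k) = z ^ l := by
    intro k
    rcases hz with h | h
    · exact ⟨k, Or.inl rfl, by rw [map_zpow, h]⟩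
    · exact ⟨-k, Or.inr rfl, by rw [map_zpow, h, inv_zpow']⟩
  constructor
  · rw [injective_iff_map_eq_one]
    intro x h1
    obtain ⟨k, hk⟩ := hx x
    rw [h1] at hk
    have h2 : x = z ^ (-k) := by
      rw [zpow_neg]
      exact eq_inv_of_mul_eq_one_left hk.symm
    obtain ⟨l, hl, h3⟩ := hzk (-k)
    rw [← h2, h1] at h3
    have h4 := hi l h3.symm
    have h5 : k = 0 := by omega
    rw [h2, h5, neg_zero, zpow_zero]
  · intro x
    obtain ⟨k, hk⟩ := hx x
    obtain ⟨m, hm⟩ : ∃ m : ℤ, τ (z ^ m) = z ^ (-k) := by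
      rcases hz with h | h
      · exact ⟨-k, by rw [map_zpow, h]⟩
      · exact ⟨k, by rw [map_zpow, h, inv_zpow']⟩
    exact ⟨x * z ^ m, by rw [map_mul, hk, hm, mul_assoc, ← zpow_add, add_neg_cancel, zpow_zero,
      mul_one]⟩

/-- the subgroup generated by `z` is normal -/
theorem g06_normal {P : Pres} (h : GoodP P) : (Subgroup.zpowers (zv P)).Normal := by
  constructor
  rintro _ ⟨k, rfl⟩ g
  have h1 : g * zv P ^ k * g⁻¹ = (g * zv P * g⁻¹) ^ k := (conj_zpow).symm
  show g * zv P ^ k * g⁻¹ ∈ Subgroup.zpowers (zv P)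
  rw [h1]
  rcases h.nrm g with h2 | h2
  · rw [h2]
    exact ⟨k, rfl⟩
  · rw [h2]
    exact ⟨-k, by rw [inv_zpow']⟩

/-- words with letters `< n` -/
theorem g06_word {G : Type} [Group G] {P' : Pres} (f : ℕ → G) (τ : P'.Grp →* G)
    (h1 : ∀ j < P'.1, τ (wv P' [(j, true)]) = f j) (w : Wd) (hw : ∀ x ∈ w, x.1 < P'.1) :
    τ (wv P' w) = FreeGroup.lift f (FreeGroup.mk w) := by
  induction w with
  | nil =>
    rw [wv_nil, map_one, FreeGroup.lift_mk]
    rfl
  | cons a w ih =>
    obtain ⟨j, b⟩ := a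
    have hj : j < P'.1 := hw (j, b) List.mem_cons_self
    have h2 : τ (wv P' ((j, b) :: w)) = τ (wv P' [(j, b)]) * τ (wv P' w) := by
      have h3 : ((j, b) :: w : Wd) = [(j, b)] ++ w := rfl
      rw [h3, wv_append, map_mul]
    have h4 : FreeGroup.lift f (FreeGroup.mk ((j, b) :: w)) =
        (cond b (f j) (f j)⁻¹) * FreeGroup.lift f (FreeGroup.mk w) := by
      rw [FreeGroup.lift_mk, FreeGroup.lift_mk, List.map_cons, List.prod_cons]
    rw [h2, h4, ih (fun x hx => hw x (List.mem_cons_of_mem _ hx))]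
    congr 1
    cases b
    · rw [wv_false, map_inv, h1 j hj]
      rfl
    · rw [h1 j hj]
      rfl

theorem g06_z {P P' : Pres} {θ : P.Grp →* P'.Grp} {s : Wd} {k : ℤ}
    (hs : s = [(0, true)] ∨ s = [(0, false)]) (hk : k = 0)
    (h : θ (wv P [(0, true)]) = wv P' s * zv P' ^ k) :
    θ (zv P) = zv P' ∨ θ (zv P) = (zv P')⁻¹ := by
  rw [hk, zpow_zero, mul_one] at h
  rcases hs with hs | hs
  · left
    rw [hs] at h
    exact h
  · right
    rw [hs, wv_false] at h
    exact h

/-- the composition moves every element by a power of `z` -/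
theorem g06_comp {P P' : Pres} (h : GoodP P) (h0' : 0 < P'.1) {σ σ' : List Wd}
    (hK : σ.getD 0 [] = [(0, true)] ∨ σ.getD 0 [] = [(0, false)])
    (hK' : σ'.getD 0 [] = [(0, true)] ∨ σ'.getD 0 [] = [(0, false)])
    (hl : ∀ j, ∀ x ∈ σ.getD j [], x.1 < P'.1)
    {θ : P.Grp →* P'.Grp} {θ' : P'.Grp →* P.Grp}
    (hθ : ∀ j < P.1, ∃ k : ℤ, (j = 0 → k = 0) ∧
      θ (wv P [(j, true)]) = wv P' (σ.getD j []) * zv P' ^ k)
    (hθ' : ∀ j < P'.1, ∃ k : ℤ, (j = 0 → k = 0) ∧
      θ' (wv P' [(j, true)]) = wv P (σ'.getD j []) * zv P ^ k)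
    (hs : ∀ j < P.1, 0 < j → ¬ Sep (qN P 1) (sub σ' (σ.getD j []) ++ [(j, false)])) :
    Function.Bijective (θ'.comp θ) := by
  obtain ⟨k0, hk0, e0⟩ := hθ 0 h.pos
  obtain ⟨k0', hk0', e0'⟩ := hθ' 0 h0'
  have hz := g06_z hK (hk0 rfl) e0
  have hz' := g06_z hK' (hk0' rfl) e0'
  have hzz : (θ'.comp θ) (zv P) = zv P ∨ (θ'.comp θ) (zv P) = (zv P)⁻¹ := by
    rw [MonoidHom.comp_apply]
    rcases hz with e | e <;> rcases hz' with e' | e'
    · left
      rw [e, e']
    · right
      rw [e, e']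
    · right
      rw [e, map_inv, e']
    · left
      rw [e, map_inv, e', inv_inv]
  refine g06_bij h.inf _ hzz fun x => ?_
  -- the quotient by the powers of `z`
  obtain ⟨S, hS⟩ : ∃ S : Subgroup P.Grp, S = Subgroup.zpowers (zv P) := ⟨_, rfl⟩
  have hSn : S.Normal := by
    rw [hS]
    exact g06_normal h
  have hzS : ∀ k : ℤ, (zv P) ^ k ∈ S := fun k => by
    rw [hS]
    exact ⟨k, rfl⟩
  let π : P.Grp →* P.Grp ⧸ S := QuotientGroup.mk' S
  have hπ : ∀ y ∈ S, π y = 1 := fun y hy => (QuotientGroup.eq_one_iff y).2 hy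
  have hπz : ∀ k : ℤ, π (zv P ^ k) = 1 := fun k => hπ _ (hzS k)
  have hπz' : ∀ k : ℤ, π (θ' (zv P') ^ k) = 1 := by
    intro k
    rcases hz' with e | e
    · rw [e]
      exact hπz k
    · rw [e, inv_zpow']
      exact hπz (-k)
  have hword : ∀ w : Wd, (∀ y ∈ w, y.1 < P'.1) → π (θ' (wv P' w)) = π (wv P (sub σ' w)) := by
    intro w hw
    have h1 := g06_word (fun j => π (wv P (σ'.getD j []))) (π.comp θ')
      (by
        intro j hj
        obtain ⟨k, _, hk⟩ := hθ' j hj
        rw [MonoidHom.comp_apply, hk, map_mul, hπz, mul_one]) w hw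
    rw [MonoidHom.comp_apply] at h1
    rw [h1, wv_sub]
    have h2 : π.comp (FreeGroup.lift fun j => wv P (σ'.getD j [])) =
        FreeGroup.lift fun j => π (wv P (σ'.getD j [])) := by
      apply FreeGroup.ext_hom
      intro j
      rw [MonoidHom.comp_apply, FreeGroup.lift_apply_of, FreeGroup.lift_apply_of]
    rw [← h2]
    rfl
  have hmain : π.comp (θ'.comp θ) = π := by
    apply hom_ext P
    intro j hj
    rw [MonoidHom.comp_apply, MonoidHom.comp_apply]
    rcases Nat.eq_zero_or_pos j with rfl | hj0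
    · have h1 : π (wv P [(0, true)]) = 1 := by
        have h2 := hπz 1
        rwa [zpow_one] at h2
      rw [h1]
      have h3 : θ' (θ (zv P)) = zv P ∨ θ' (θ (zv P)) = (zv P)⁻¹ := hzz
      show π (θ' (θ (zv P))) = 1
      rcases h3 with e | e
      · rw [e]
        exact h1
      · rw [e, map_inv]
        exact inv_eq_one.2 h1
    · obtain ⟨k, _, hk⟩ := hθ j hj
      rw [hk, map_mul, map_mul, map_zpow, hπz', mul_one, hword _ (hl j)]
      have h1 : ∃ k : ℤ, wv P (sub σ' (σ.getD j []) ++ [(j, false)]) = zv P ^ (((1 : ℕ) : ℤ) * k) := by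
        by_contra hcon
        push Not at hcon
        exact hs j hj hj0 (h.rf 1 one_pos _ hcon)
      obtain ⟨m, hm⟩ := h1
      rw [wv_append, wv_false] at hm
      have h2 := hπz (((1 : ℕ) : ℤ) * m)
      rw [← hm, map_mul, map_inv] at h2
      exact mul_inv_eq_one.1 h2
  have h1 : π ((θ'.comp θ) x) = π x := DFunLike.congr_fun hmain x
  have h2 : x⁻¹ * (θ'.comp θ) x ∈ S := (QuotientGroup.eq (s := S)).1 h1.symm
  rw [hS] at h2
  obtain ⟨k, hk⟩ := h2
  refine ⟨k, ?_⟩
  have hk' : zv P ^ k = x⁻¹ * (θ'.comp θ) x := hk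
  rw [hk', mul_inv_cancel_left]

theorem cand_iso {P P' : Pres} (h : GoodP P) (h' : GoodP P') {L : Inst} {K : Kd}
    (hK : K.1.getD 0 [] = [(0, true)] ∨ K.1.getD 0 [] = [(0, false)])
    (hK' : K.2.1.getD 0 [] = [(0, true)] ∨ K.2.1.getD 0 [] = [(0, false)])
    (hl : ∀ j, ∀ x ∈ K.1.getD j [], x.1 < P'.1) (hl' : ∀ j, ∀ x ∈ K.2.1.getD j [], x.1 < P.1)
    (hn : ¬ NCand P P' L K) : PPL P P' L := by
  unfold NCand at hn
  push Not at hn
  obtain ⟨hA, hB, hC, hD⟩ := hn
  have hA' : HomEx P P' K.1 (eqs L K.2.2) := by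
    by_contra hcon
    exact hA (nhom_of h' hcon)
  have hB' : HomEx P' P K.2.1 [] := by
    by_contra hcon
    exact hB (nhom_of h hcon)
  obtain ⟨θ, hθ, hθe⟩ := hA'
  obtain ⟨θ', hθ', _⟩ := hB'
  have b1 := g06_comp h h'.pos hK hK' hl hθ hθ' hC
  have b2 := g06_comp h' h.pos hK' hK hl' hθ' hθ hD
  have hbij : Function.Bijective θ := by
    constructor
    · intro x y hxy
      apply b1.1
      rw [MonoidHom.comp_apply, MonoidHom.comp_apply, hxy]
    · intro y
      obtain ⟨x, hx⟩ := b2.2 y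
      exact ⟨θ' x, hx⟩
  refine ⟨MulEquiv.ofBijective θ hbij, fun x hx => ?_⟩
  obtain ⟨i, hi, rfl⟩ := List.getElem_of_mem hx
  have hg : L.getD i (([], []), ([], [])) = L[i] := List.getD_eq_getElem _ _ hi
  refine ⟨wv P' (K.2.2.getD i []), ?_, ?_⟩
  · have h1 := hθe ((L.getD i (([], []), ([], []))).1.1,
        K.2.2.getD i [] ++ (L.getD i (([], []), ([], []))).2.1 ++
          FreeGroup.invRev (K.2.2.getD i [])) (by
      unfold eqs
      exact List.mem_flatMap.2 ⟨i, List.mem_range.2 hi, List.mem_cons_self⟩)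
    simp only at h1
    rw [hg, wv_append, wv_append, wv_inv] at h1
    exact h1
  · have h1 := hθe ((L.getD i (([], []), ([], []))).1.2,
        K.2.2.getD i [] ++ (L.getD i (([], []), ([], []))).2.2 ++
          FreeGroup.invRev (K.2.2.getD i [])) (by
      unfold eqs
      exact List.mem_flatMap.2 ⟨i, List.mem_range.2 hi, List.mem_cons_of_mem _ List.mem_cons_self⟩)
    simp only at h1
    rw [hg, wv_append, wv_append, wv_inv] at h1
    exact h1

theorem g06_letters {n m B : ℕ} (hn : 0 < n) {a : Wd} {σ : List Wd}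
    (ha : a ∈ ([[(0, true)], [(0, false)]] : List Wd)) (hσ : σ ∈ tup (wds n B) m) :
    ∀ j, ∀ x ∈ (a :: σ).getD j [], x.1 < n := by
  intro j x hx
  cases j with
  | zero =>
    have h1 : x ∈ a := hx
    rcases List.mem_cons.1 ha with rfl | ha
    · rw [List.mem_singleton] at h1
      rw [h1]
      exact hn
    · rw [List.mem_singleton] at ha
      rw [ha, List.mem_singleton] at h1
      rw [h1]
      exact hn
  | succ j =>
    have h1 : x ∈ σ.getD j [] := hx
    by_cases hj : j < σ.length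
    · rw [List.getD_eq_getElem _ _ hj] at h1
      have h2 := ((mem_tup _ _ _).1 hσ).2 _ (List.getElem_mem hj)
      exact ((mem_wds _ _ _).1 h2).2 x h1
    · rw [List.getD_eq_default _ _ (not_lt.1 hj)] at h1
      exact absurd h1 List.not_mem_nil

theorem g06_head {a : Wd} {σ : List Wd} (ha : a ∈ ([[(0, true)], [(0, false)]] : List Wd)) :
    (a :: σ).getD 0 [] = [(0, true)] ∨ (a :: σ).getD 0 [] = [(0, false)] := by
  rcases List.mem_cons.1 ha with rfl | ha
  · exact Or.inl rfl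
  · rw [List.mem_singleton] at ha
    rw [ha]
    exact Or.inr rfl

theorem npp_complete {P P' : Pres} (h : GoodP P) (h' : GoodP P') {L : Inst}
    (hn : ¬ PPL P P' L) (B : ℕ) : NPP P P' L B := by
  intro a ha a' ha' σ hσ σ' hσ' γ hγ
  by_contra hcon
  exact hn (cand_iso (K := (a :: σ, a' :: σ', γ)) h h' (g06_head ha) (g06_head ha') (g06_letters h'.pos ha hσ)
    (g06_letters h.pos ha' hσ') hcon)

end VF
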