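import Pool.Agent.Lib.MP_32d917_al_vf.F07
import Pool.Agent.Lib.MP_32d917_al_vf.G06

/-!
# F08: matchings

Compare adm/C08 (`good_of_eqv`, `eqv_of_good`).
`num_mat`: choose `t` with the digits given by `sp`, `sf`, `se` (`CB.exists_dg`), `msg t e = 1` iff `sg e = -1`, `mde t q = 1` iff `de q = -1`. `MatN`: sizes from the
bijections; `TNum.pc`, `fl`, `del`; the last condition: `CVal.two` gives `f`, `u, v` with `u - v = ta e` and `u + v = |ta e| ≤ |rhs|` as
`dt (ze e) (ze f) ≠ 0` (`ind`), and `TNum.tau`. If `ta` satisfies `TauE` then `iv (ta.getD e ..) = ta e` (divide by `dt (ze e) (ze f)`). `ppb_ppl` (F06) and `ppl_not_npp` (F07)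
exclude the second alternative of `NGood`.
`mat_num`: `MatN` gives bijections (injective functions `Fin n → Fin n`, after `c'.1 = c.1`: generalize the sizes as in C08: `obtain ⟨s, r⟩ := c`), signs, and numbers `ta e` with
`TauE` (as a list). For every `p` `NPP` fails, so `PPL` holds (`npp_complete`, G06, `goodP`), and `ppb_ppl`.
-/

set_option autoImplicit false

namespace VF

open LatIso LatN AdmIso

theorem F08_sign {k : ℕ} {u : ℤˣ} (hk : k < 2) (h : k = 1 ↔ u = -1) :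
    ((u : ℤˣ) : ℤ) = (-1 : ℤ) ^ k := by
  have h2 : k = 0 ∨ k = 1 := by omega
  rcases h2 with rfl | rfl
  · have h3 : u ≠ -1 := fun h4 => absurd (h.2 h4) (by norm_num)
    rcases Int.units_eq_one_or u with h4 | h4
    · rw [h4]; rfl
    · exact absurd h4 h3
  · rw [h.1 rfl]; rfl

theorem F08_unit (k : ℕ) (hk : k < 2) :
    (((if k = 1 then -1 else 1 : ℤˣ) : ℤˣ) : ℤ) = (-1 : ℤ) ^ k := by
  have h2 : k = 0 ∨ k = 1 := by omega
  rcases h2 with rfl | rfl
  · rfl
  · rfl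

theorem F08_getD {α : Type} (f : ℕ → α) (n i : ℕ) (d : α) (h : i < n) :
    ((List.range n).map f).getD i d = f i := by
  rw [List.getD_eq_getElem _ _ (by simpa using h)]
  simp

/-- a second edge at the same flat -/
theorem F08_next {c : Cd} (h : CVal c) (e : ℕ) (_he : e < nE c + 1) :
    ∃ f < nE c + 1, kfl c e = kfl c f ∧ ¬ e = f := by
  obtain ⟨a, ha, b, hb, hab, h1, h2⟩ := h.two (kfl c e) (Nat.mod_lt _ (Nat.succ_pos _))
  by_cases hea : e = a
  · exact ⟨b, hb, h2.symm, fun h3 => hab (hea.symm.trans h3)⟩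
  · exact ⟨a, ha, h1.symm, hea⟩

theorem F08_dt {c : Cd} (h : CVal c) {e f : ℕ} (he : e < nE c + 1) (hf : f < nE c + 1)
    (h1 : kfl c e = kfl c f) (h2 : ¬ e = f) : dt (vv (kze c e)) (vv (kze c f)) ≠ 0 := by
  intro h3
  apply h.ind e he f hf h2 h1
  rw [peq_iff, iv_pdt, h3]
  rfl

/-- the meaning of the equations for `ta e` -/
theorem F08_tauE (c c' : Cd) (t : Mt) (e : ℕ) (u : PI) : TauE c c' t e u ↔
    ∀ f < nE c + 1, kfl c e = kfl c f → ¬ e = f →
      dt (vv (kze c e)) (vv (kze c f)) * iv u =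
        (-1) ^ msg t e * dt (vv (kom c e)) (vv (kze c f)) -
          (-1) ^ msg t f * dt (vv (kom c' (mse c t e))) (vv (kze c' (mse c t f))) := by
  unfold TauE rhs
  constructor
  · intro h f hf h1 h2
    have h3 := h f hf h1 h2
    rw [peq_iff, iv_pmul, iv_psub, iv_sg, iv_sg, iv_pdt, iv_pdt, iv_pdt] at h3
    exact h3
  · intro h f hf h1 h2
    rw [peq_iff, iv_pmul, iv_psub, iv_sg, iv_sg, iv_pdt, iv_pdt, iv_pdt]
    exact h f hf h1 h2

theorem F08_bd {d x : ℤ} {r : PI} (hd : d ≠ 0) (h : d * x = iv r) :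
    x.toNat < r.1 + r.2 + 1 ∧ (-x).toNat < r.1 + r.2 + 1 := by
  have h1 : |x| ≤ |iv r| := by
    rw [← h, abs_mul]
    have h2 : 1 ≤ |d| := Int.one_le_abs hd
    nlinarith [abs_nonneg x]
  have h3 : |iv r| ≤ (r.1 : ℤ) + r.2 := by
    unfold iv
    rw [abs_le]
    constructor <;> omega
  have h4 : |x| ≤ (r.1 : ℤ) + r.2 := h1.trans h3
  rw [abs_le] at h4
  constructor <;> omega

theorem num_mat {c c' : Cd} (h : CVal c) (h' : CVal c') {sp : Fin (nP c + 1) ≃ Fin (nP c' + 1)}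
    {sf : Fin (nQ c + 1) ≃ Fin (nQ c' + 1)} {se : Fin (nE c + 1) ≃ Fin (nE c' + 1)}
    {sg : Fin (nE c + 1) → ℤˣ} {de : Fin (nQ c + 1) → ℤˣ} {ta : Fin (nE c + 1) → ℤ}
    (hT : TNum (toTD c) (toTD c') sp sf se sg de ta) : ∃ t : Mt, InB c t ∧ ¬ NGood c c' t := by
  have hs : c'.1 = c.1 := by
    have h1 : nP c + 1 = nP c' + 1 := by simpa using Fintype.card_congr sp
    have h2 : nQ c + 1 = nQ c' + 1 := by simpa using Fintype.card_congr sf
    have h3 : nE c + 1 = nE c' + 1 := by simpa using Fintype.card_congr se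
    apply Prod.ext
    · exact (Nat.succ.inj h1).symm
    · apply Prod.ext
      · exact (Nat.succ.inj h2).symm
      · exact (Nat.succ.inj h3).symm
  obtain ⟨s, r⟩ := c
  obtain ⟨s', r'⟩ := c'
  obtain rfl : s' = s := hs
  obtain ⟨w1, hw1, hsp⟩ := CB.exists_dig (nP (s', r)) (nP (s', r)) sp
  obtain ⟨w2, hw2, hsf⟩ := CB.exists_dig (nQ (s', r)) (nQ (s', r)) sf
  obtain ⟨w3, hw3, hse⟩ := CB.exists_dig (nE (s', r)) (nE (s', r)) se
  obtain ⟨w4, hw4, hsg⟩ := CB.exists_pred (nE (s', r)) (fun e => sg e = -1)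
  obtain ⟨w5, hw5, hde⟩ := CB.exists_pred (nQ (s', r)) (fun q => de q = -1)
  have gsp : ∀ p : Fin (nP (s', r) + 1), ((sp p : Fin (nP (s', r') + 1)) : ℕ) =
      msp (s', r) (w1, w2, w3, w4, w5) p := by
    intro p
    rw [← hsp p]
    rfl
  have gsf : ∀ p : Fin (nQ (s', r) + 1), ((sf p : Fin (nQ (s', r') + 1)) : ℕ) =
      msf (s', r) (w1, w2, w3, w4, w5) p := by
    intro p
    rw [← hsf p]
    rfl
  have gse : ∀ p : Fin (nE (s', r) + 1), ((se p : Fin (nE (s', r') + 1)) : ℕ) =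
      mse (s', r) (w1, w2, w3, w4, w5) p := by
    intro p
    rw [← hse p]
    rfl
  have gsg : ∀ e : Fin (nE (s', r) + 1), ((sg e : ℤˣ) : ℤ) =
      (-1 : ℤ) ^ msg (w1, w2, w3, w4, w5) e :=
    fun e => F08_sign (CB.dg_lt _ _ _) (hsg e)
  have gde : ∀ q : Fin (nQ (s', r) + 1), ((de q : ℤˣ) : ℤ) =
      (-1 : ℤ) ^ mde (w1, w2, w3, w4, w5) q :=
    fun q => F08_sign (CB.dg_lt _ _ _) (hde q)
  generalize hteq : ((w1, w2, w3, w4, w5) : Mt) = t at gsp gsf gse gsg gde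
  have htB : InB (s', r) t := by
    rw [← hteq]
    exact ⟨hw1, hw2, hw3, hw4, hw5⟩
  have htau : ∀ (e : Fin (nE (s', r) + 1)) (f : ℕ), f < nE (s', r) + 1 →
      kfl (s', r) e = kfl (s', r) f → ¬ (e : ℕ) = f →
      dt (vv (kze (s', r) e)) (vv (kze (s', r) f)) * ta e =
        (-1) ^ msg t e * dt (vv (kom (s', r) e)) (vv (kze (s', r) f)) -
          (-1) ^ msg t f * dt (vv (kom (s', r') (mse (s', r) t e)))
            (vv (kze (s', r') (mse (s', r) t f))) := by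
    intro e f hf h1 h2
    have h3 := hT.tau e ⟨f, hf⟩ (Fin.ext h1) (fun h0 => h2 (congrArg Fin.val h0))
    rw [gsg, gsg] at h3
    have h4 : dt (vv (kze (s', r) e)) (vv (kze (s', r) f)) * ta e =
      (-1) ^ msg t e * dt (vv (kom (s', r) e)) (vv (kze (s', r) f)) -
        (-1) ^ msg t f * dt (vv (kom (s', r') (se e)))
          (vv (kze (s', r') (se ⟨f, hf⟩))) := h3
    rw [gse, gse] at h4
    exact h4
  have hM : MatN (s', r) (s', r') t := by
    refine ⟨rfl, ?_, ?_, ?_, ?_, ?_, ?_⟩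
    · intro p hp p' hp' he
      have h1 := gsp ⟨p, hp⟩
      have h2 := gsp ⟨p', hp'⟩
      simp only at h1 h2
      rw [← h1, ← h2] at he
      exact congrArg Fin.val (sp.injective (Fin.ext he))
    · intro p hp p' hp' he
      have h1 := gsf ⟨p, hp⟩
      have h2 := gsf ⟨p', hp'⟩
      simp only at h1 h2
      rw [← h1, ← h2] at he
      exact congrArg Fin.val (sf.injective (Fin.ext he))
    · intro p hp p' hp' he
      have h1 := gse ⟨p, hp⟩
      have h2 := gse ⟨p', hp'⟩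
      simp only at h1 h2
      rw [← h1, ← h2] at he
      exact congrArg Fin.val (se.injective (Fin.ext he))
    · intro e he
      have h1 := gse ⟨e, he⟩
      simp only at h1
      have h2 := congrArg Fin.val (hT.pc ⟨e, he⟩)
      have h3 := congrArg Fin.val (hT.fl ⟨e, he⟩)
      rw [← h1]
      exact ⟨h2.trans (gsp _), h3.trans (gsf _)⟩
    · intro e he f hf hef
      have h1 := gse ⟨e, he⟩
      have h2 := gse ⟨f, hf⟩
      simp only at h1 h2
      rw [peq_iff, iv_sg, iv_sg, iv_pdt, iv_pdt, ← h1, ← h2, pow_add]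
      have h3 := hT.del ⟨e, he⟩ ⟨f, hf⟩ (Fin.ext hef)
      rw [gde, gsg, gsg] at h3
      exact h3
    · intro e he
      obtain ⟨f, hf, h1, h2⟩ := F08_next h e he
      refine ⟨f, hf, h1, h2, ?_⟩
      have h3 := htau ⟨e, he⟩ f hf h1 h2
      have h4 : dt (vv (kze (s', r) e)) (vv (kze (s', r) f)) * ta ⟨e, he⟩ =
          iv (rhs (s', r) (s', r') t e f) := by
        unfold rhs
        rw [iv_psub, iv_sg, iv_sg, iv_pdt, iv_pdt]
        exact h3
      obtain ⟨b1, b2⟩ := F08_bd (F08_dt h he hf h1 h2) h4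
      refine ⟨_, b1, _, b2, ?_⟩
      rw [F08_tauE]
      intro g hg g1 g2
      have h5 : iv ((ta ⟨e, he⟩).toNat, (-ta ⟨e, he⟩).toNat) = ta ⟨e, he⟩ := by
        unfold iv
        simp only
        omega
      rw [h5]
      exact htau ⟨e, he⟩ g hg g1 g2
  refine ⟨t, htB, ?_⟩
  rintro (h1 | ⟨tl, htl, p, hp, hN⟩)
  · exact h1 hM
  · refine ppl_not_npp h h' hM tl hp ?_ hN
    refine (ppb_ppl (s', r) (s', r') t tl ⟨p, hp⟩ (sp ⟨p, hp⟩) (gsp ⟨p, hp⟩) se gse sg
      (fun e => de ((toTD (s', r)).fl e)) gsg (fun e => gde _) ta ?_).1 (hT.pp ⟨p, hp⟩)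
    intro e _
    obtain ⟨f, hf, h1, h2⟩ := F08_next h e e.2
    have h3 := htau e f hf h1 h2
    have h4 := (F08_tauE (s', r) (s', r') t e _).1 (htl e e.2) f hf h1 h2
    exact mul_left_cancel₀ (F08_dt h e.2 hf h1 h2) (h3.trans h4.symm)

theorem mat_num {c c' : Cd} (h : CVal c) (h' : CVal c') {t : Mt} (ht : ¬ NGood c c' t) :
    ∃ (sp : Fin (nP c + 1) ≃ Fin (nP c' + 1)) (sf : Fin (nQ c + 1) ≃ Fin (nQ c' + 1))
      (se : Fin (nE c + 1) ≃ Fin (nE c' + 1)) (sg : Fin (nE c + 1) → ℤˣ)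
      (de : Fin (nQ c + 1) → ℤˣ) (ta : Fin (nE c + 1) → ℤ),
      TNum (toTD c) (toTD c') sp sf se sg de ta := by
  unfold NGood at ht
  push Not at ht
  obtain ⟨hM, hN⟩ := ht
  obtain ⟨hs, m1, m2, m3, m4, m5, m6⟩ := hM
  obtain ⟨s, r⟩ := c
  obtain ⟨s', r'⟩ := c'
  obtain rfl : s' = s := hs
  have b1 : Function.Bijective (fun p : Fin (nP (s', r) + 1) =>
      (⟨msp (s', r) t p, CB.dg_lt _ _ _⟩ : Fin (nP (s', r) + 1))) :=
    Finite.injective_iff_bijective.1 (fun p p' hp =>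
      Fin.ext (m1 p p.2 p' p'.2 (congrArg Fin.val hp)))
  have b2 : Function.Bijective (fun p : Fin (nQ (s', r) + 1) =>
      (⟨msf (s', r) t p, CB.dg_lt _ _ _⟩ : Fin (nQ (s', r) + 1))) :=
    Finite.injective_iff_bijective.1 (fun p p' hp =>
      Fin.ext (m2 p p.2 p' p'.2 (congrArg Fin.val hp)))
  have b3 : Function.Bijective (fun p : Fin (nE (s', r) + 1) =>
      (⟨mse (s', r) t p, CB.dg_lt _ _ _⟩ : Fin (nE (s', r) + 1))) :=
    Finite.injective_iff_bijective.1 (fun p p' hp =>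
      Fin.ext (m3 p p.2 p' p'.2 (congrArg Fin.val hp)))
  have hex : ∀ e : ℕ, ∃ u : PI, e < nE (s', r) + 1 → TauE (s', r) (s', r') t e u := by
    intro e
    by_cases he : e < nE (s', r) + 1
    · obtain ⟨f, hf, h1, h2, u, hu, v, hv, h3⟩ := m6 e he
      exact ⟨(u, v), fun _ => h3⟩
    · exact ⟨(0, 0), fun h0 => absurd h0 he⟩
  choose U hU using hex
  let tl : List PI := (List.range (nE (s', r) + 1)).map U
  have htl : ∀ e < nE (s', r) + 1, tl.getD e (0, 0) = U e := fun e he => F08_getD U _ e _ he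
  have htl' : ∀ e < nE (s', r) + 1, TauE (s', r) (s', r') t e (tl.getD e (0, 0)) := by
    intro e he
    rw [htl e he]
    exact hU e he
  refine ⟨Equiv.ofBijective _ b1, Equiv.ofBijective _ b2, Equiv.ofBijective _ b3,
    fun e => if msg t e = 1 then -1 else 1, fun q => if mde t q = 1 then -1 else 1,
    fun e => iv (tl.getD e (0, 0)), ?_⟩
  have gsg : ∀ e : Fin (nE (s', r) + 1),
      (((if msg t e = 1 then -1 else 1 : ℤˣ) : ℤˣ) : ℤ) = (-1 : ℤ) ^ msg t e :=
    fun e => F08_unit _ (CB.dg_lt _ _ _)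
  have gde : ∀ q : Fin (nQ (s', r) + 1),
      (((if mde t q = 1 then -1 else 1 : ℤˣ) : ℤˣ) : ℤ) = (-1 : ℤ) ^ mde t q :=
    fun q => F08_unit _ (CB.dg_lt _ _ _)
  constructor
  · intro e
    exact Fin.ext (m4 e e.2).1
  · intro e
    exact Fin.ext (m4 e e.2).2
  · intro e f hef
    have h4 := m5 e e.2 f f.2 (congrArg Fin.val hef)
    rw [peq_iff, iv_sg, iv_sg, iv_pdt, iv_pdt, pow_add] at h4
    rw [gsg, gsg, gde]
    exact h4
  · intro e f hef hne
    have h4 := (F08_tauE (s', r) (s', r') t e _).1 (htl' e e.2) f f.2 (congrArg Fin.val hef)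
      (fun h0 => hne (Fin.ext h0))
    rw [gsg, gsg]
    exact h4
  · intro p
    refine (ppb_ppl (s', r) (s', r') t tl p _ rfl _ (fun e => rfl) _
      (fun e => if mde t (kfl (s', r) e) = 1 then -1 else 1) gsg
      (fun e => gde ((toTD (s', r)).fl e)) _ (fun e _ => rfl)).2 ?_
    by_contra hP
    exact hN tl htl' p p.2 (npp_complete (goodP (h.pc p p.2))
      (goodP (h'.pc (msp (s', r) t p) (CB.dg_lt _ _ _))) hP _)

end VF
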