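import Pool.Agent.Lib.MP_32d917_al_vf.T07

/-!
# T08: realisation

Adapt adm/T08: choose `vp`, `fq` by T07 and apply `dev`, `vadm_min`. The hypothesis `h4` of `dev`: let
`be x (y e)⁻¹ • fq (fl e) = (y e')⁻¹ • fq (fl e')`, `pc e = pc e' = p`, call this flat `f'`. Both `be (x h_e x⁻¹)` and
`be (h_e')` fix `f'`, so they commute (`vadm_flatab`), so `x h_e x⁻¹` and `h_e'` commute (injectivity). By `hh` no non zero power of
them is in `<c>` (`c` is normalised by `x`: `nrm`), so by `pg_commens` `x h_e ^ i x⁻¹ = h_e' ^ j c ^ l` with `i ≠ 0`, which is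
`em p e' v` for some `v` (`c = em p e' (m ze)`). `sep` gives the claim.
-/

set_option autoImplicit false

namespace VF

open LatIso LatN AdmIso

section

variable {P Q E : Type} {K : P → Type} [∀ p, Group (K p)] {D : TD P Q E K} {G : Type} [Group G]
  {V : Type} [MulAction G V] {T : SimpleGraph V} {Fl : Set V}

theorem T08_fx (S : TSy D G) (fq : Q → V) (h2 : ∀ q v, S.al q v • fq q = fq q) {p : P} {e : E}
    (hp : D.pc e = p) (v : A2) :
    S.be p (D.em p e v) • (S.y e)⁻¹ • fq (D.fl e) = (S.y e)⁻¹ • fq (D.fl e) := by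
  have hr : S.be p (D.em p e v) = (S.y e)⁻¹ * (S.al (D.fl e) v * S.y e) := by
    rw [S.rel p e hp v, inv_mul_cancel_left]
  rw [hr, ← mul_smul, mul_assoc, mul_assoc, mul_inv_cancel, mul_one, mul_smul, h2]

/-- conjugates of powers of `h` are not in the group of `c` -/
theorem T08_hx (hD : D.Ok) {p : P} {e : E} (hp : D.pc e = p) (x : K p) (k j : ℤ) (hk : k ≠ 0) :
    (x * D.h p e * x⁻¹) ^ k ≠ D.c p ^ j := by
  intro h1
  rw [conj_zpow] at h1
  have h2 : D.h p e ^ k = x⁻¹ * D.c p ^ j * x := by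
    rw [← h1]
    group
  have h3 := (hD.pg p).nrm x⁻¹
  rw [inv_inv] at h3
  have h4 : x⁻¹ * D.c p ^ j * x = (x⁻¹ * D.c p * x) ^ j := by
    have h5 := conj_zpow (i := j) (a := x⁻¹) (b := D.c p)
    rw [inv_inv] at h5
    exact h5.symm
  rw [h4] at h2
  rcases h3 with h3 | h3
  · rw [h3] at h2
    exact hD.hh p e hp k j hk h2
  · rw [h3, inv_zpow, ← zpow_neg] at h2
    exact hD.hh p e hp k (-j) hk h2

theorem T08_h4 (h : VAdm G T Fl) (hD : D.Ok) (S : TSy D G)
    (hI : ∀ p, Function.Injective (S.be p)) (fq : Q → V) (hF : ∀ q, fq q ∈ Fl)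
    (h2 : ∀ q v, S.al q v • fq q = fq q) (p : P) (e e' : E) (x : K p)
    (hp : D.pc e = p) (hp' : D.pc e' = p)
    (hx : S.be p x • (S.y e)⁻¹ • fq (D.fl e) = (S.y e')⁻¹ • fq (D.fl e')) :
    e = e' ∧ ∃ v, S.be p (D.em p e v) = S.be p x := by
  have hcom : (x * D.h p e * x⁻¹) * D.h p e' = D.h p e' * (x * D.h p e * x⁻¹) := by
    have hfF : (S.y e')⁻¹ • fq (D.fl e') ∈ Fl := h.flat _ _ (hF _)
    have hg : (S.be p (x * D.h p e * x⁻¹)) •
        ((S.y e')⁻¹ • fq (D.fl e')) = (S.y e')⁻¹ • fq (D.fl e') := by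
      rw [← em_om hD (p := p) (e := e), ← hx, map_mul, map_mul, map_inv, mul_smul,
        inv_smul_smul, mul_smul, T08_fx S fq h2 hp]
    have hk := T08_fx S fq h2 hp' (Multiplicative.ofAdd (D.om e'))
    rw [em_om hD] at hk
    have hc := vadm_flatab h hfF hg hk
    rw [← map_mul, ← map_mul] at hc
    exact hI p hc
  obtain ⟨i, j, l, hi, -, hij⟩ := pg_commens (hD.pg p) _ _ hcom
    (fun k j hk => T08_hx hD hp x k j hk) (fun k j hk => hD.hh p e' hp' k j hk)
  obtain ⟨m, -, hm⟩ := hD.bc p e' hp'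
  rw [conj_zpow] at hij
  have hem : D.em p e' (Multiplicative.ofAdd (j • D.om e' + ((m : ℤ) * l) • D.ze e')) =
      D.h p e' ^ j * D.c p ^ l := by
    have hd := hD.det e'
    unfold dt at hd
    have e1 : dt (j • D.om e' + ((m : ℤ) * l) • D.ze e') (D.ze e') = j := by
      unfold dt
      simp only [Prod.fst_add, Prod.snd_add, Prod.smul_fst, Prod.smul_snd, smul_eq_mul]
      linear_combination j * hd
    have e2 : dt (D.om e') (j • D.om e' + ((m : ℤ) * l) • D.ze e') = (m : ℤ) * l := by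
      unfold dt
      simp only [Prod.fst_add, Prod.snd_add, Prod.smul_fst, Prod.smul_snd, smul_eq_mul]
      linear_combination ((m : ℤ) * l) * hd
    unfold TD.em
    rw [toAdd_ofAdd, e1, e2, zpow_mul, zpow_natCast, hm]
  obtain ⟨hee, v, hv⟩ := hD.sep p e e' hp hp' x i
    (Multiplicative.ofAdd (j • D.om e' + ((m : ℤ) * l) • D.ze e')) hi (by rw [hem, hij])
  exact ⟨hee, v, by rw [hv]⟩

theorem real (h : VAdm G T Fl) (hD : D.Ok) (S : TSy D G) {p0 : P} {ep : P → E} {ef : Q → E}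
    {rp : P → ℕ} {rq : Q → ℕ} (hTr : TTr D p0 ep ef rp rq) (hN : S.Nor p0 ep ef) (hG : S.Gen)
    (hI : ∀ p, Function.Injective (S.be p)) :
    ∃ (vp : P → V) (fq : Q → V), TRz D G T Fl S vp fq := by
  choose vp hvN hvf using exists_vp h hD S hI
  choose fq hF hal hadj using exists_fq h hD S hI vp hvN hvf
  have h5 := u_ne h hD S hI vp hvN hvf
  have hdev := dev h.tree h.adj S hTr hN hG vp fq hvf hal (fun e => hadj _ e rfl)
    (T08_h4 h hD S hI fq hF hal) h5
  obtain ⟨d1, d2, d3, d4, d5⟩ := hdev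
  have hall : ∀ v : V, v ∈ {v | (∃ p, ∃ g : G, g • vp p = v) ∨ ∃ q, ∃ g : G, g • fq q = v} := by
    intro v
    refine vadm_min h _ ⟨vp p0, Or.inl ⟨p0, 1, one_smul _ _⟩⟩ ?_ d5 v
    rintro g x (⟨p, g', hg'⟩ | ⟨q, g', hg'⟩)
    · exact Or.inl ⟨p, g * g', by rw [mul_smul, hg']⟩
    · exact Or.inr ⟨q, g * g', by rw [mul_smul, hg']⟩
  have horp : ∀ v, v ∉ Fl → ∃ p, ∃ g : G, g • vp p = v := by
    intro v hv
    rcases hall v with hh | ⟨q, g, hg⟩
    · exact hh
    · exact absurd (hg ▸ h.flat g _ (hF q)) hv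
  have horq : ∀ v ∈ Fl, ∃ q, ∃ g : G, g • fq q = v := by
    intro v hv
    rcases hall v with ⟨p, g, hg⟩ | hh
    · rw [← hg] at hv
      exact absurd ((vadm_flat_iff h g (vp p)).mp hv) (hvN p)
    · exact hh
  refine ⟨vp, fq, ?_⟩
  constructor
  · exact hvN
  · exact hF
  · exact hI
  · intro p g
    constructor
    · intro hg
      exact (d1 p p g hg).2
    · rintro ⟨x, rfl⟩
      exact hvf p x
  · intro q g
    constructor
    · intro hg
      exact (d2 q q g hg).2
    · rintro ⟨x, rfl⟩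
      exact hal q x
  · exact horp
  · exact horq
  · intro p p' g hg
    exact (d1 p p' g hg).1
  · intro q q' g hg
    exact (d2 q q' g hg).1
  · intro q v
    constructor
    · intro ha
      have hv : v ∉ Fl := (h.bip _ _ ha).mp (hF q)
      obtain ⟨p, g, rfl⟩ := horp v hv
      exact d3 q p g ha
    · rintro ⟨e, he, rfl⟩
      exact hadj q e he
  · exact h5

end

end VF
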