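import Pool.Agent.Lib.MP_32d917_al_vf.T05
import Pool.Agent.Lib.MP_32d917_al.TTL

/-!
# T09: a realisation determines the group

Adapt adm/T09 word by word.
-/

set_option autoImplicit false

namespace VF

open LatIso LatN AdmIso

section

variable {P Q E : Type} {K : P → Type} [∀ p, Group (K p)] {D : TD P Q E K} {G : Type} [Group G]
  {V : Type} [MulAction G V] {T : SimpleGraph V} {Fl : Set V}

theorem vt09_inj (hT : T.IsTree) (hadj : ∀ (g : G) (x y : V), T.Adj x y → T.Adj (g • x) (g • y))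
    {S : TSy D G} {vp : P → V} {fq : Q → V} (hR : TRz D G T Fl S vp fq)
    {p0 : P} {ep : P → E} {ef : Q → E} {rp : P → ℕ} {rq : Q → ℕ} (hTr : TTr D p0 ep ef rp rq)
    {G' : Type} [Group G'] (S' : TSy D G') (hN' : S'.Nor p0 ep ef) (hG' : S'.Gen) (F : G' →* G)
    (hF : S'.Comp S F) : Function.Injective F := by
  let inst : MulAction G' V := MulAction.compHom V F
  have hsm : ∀ (k : G') (v : V), k • v = F k • v := fun _ _ => rfl
  have hbe : ∀ p x, S.be p x • vp p = vp p := fun p x => (hR.stp p _).mpr ⟨x, rfl⟩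
  have hal : ∀ q v, S.al q v • fq q = fq q := fun q v => (hR.stq q _).mpr ⟨v, rfl⟩
  have hd := dev hT (fun g x y hxy => hadj (F g) x y hxy) S' hTr hN' hG' vp fq
    (fun p x => by rw [hsm, hF.be, hbe])
    (fun q v => by rw [hsm, hF.al, hal])
    (fun e => by
      rw [hsm, hF.y]
      exact (hR.adj _ _).mpr ⟨e, rfl, rfl⟩)
    (by
      intro p e e' x hp hp' hx
      rw [hsm, hsm, hsm, map_inv, map_inv, hF.be, hF.y, hF.y] at hx
      have h1 : (S.y e' * S.be p x * (S.y e)⁻¹) • fq (D.fl e) = fq (D.fl e') := by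
        rw [mul_smul, mul_smul, hx, smul_inv_smul]
      have hfl := hR.unq _ _ _ h1
      rw [← hfl] at h1
      obtain ⟨v, hv⟩ := (hR.stq _ _).mp h1
      have h2 : S.y e' * S.be p x = S.y e * S.be (D.pc e) (D.em (D.pc e) e v) := by
        rw [← S.rel (D.pc e) e rfl v, hv, inv_mul_cancel_right]
      have h3 : S.y e' • vp (D.pc e') = S.y e • vp (D.pc e) := by
        have h4 := congrArg (fun g : G => g • vp p) h2
        simp only [mul_smul] at h4
        rw [hbe] at h4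
        subst hp
        rw [hbe] at h4
        rw [hp']
        exact h4
      have h5 := hR.une _ _ hfl.symm h3
      refine ⟨h5.symm, v, ?_⟩
      subst h5
      subst hp
      have h6 := mul_left_cancel h2
      rw [← hR.beI _ h6])
    (by
      intro e e' h1 h2
      rw [hsm, hsm, hF.y, hF.y] at h2
      exact hR.une _ _ h1 h2)
  rw [injective_iff_map_eq_one]
  intro k hk
  have h1 : k • vp p0 = vp p0 := by rw [hsm, hk, one_smul]
  obtain ⟨_, x, hx⟩ := hd.1 p0 p0 k h1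
  have h2 : S.be p0 x = 1 := by rw [← hF.be, hx, hk]
  have h3 : x = 1 := hR.beI p0 (by rw [h2, map_one])
  rw [← hx, h3, map_one]

theorem pi_iso (hT : T.IsTree) (hadj : ∀ (g : G) (x y : V), T.Adj x y → T.Adj (g • x) (g • y))
    (hbip : ∀ x y, T.Adj x y → (x ∈ Fl ↔ y ∉ Fl)) (hfl : ∀ (g : G) x, g • x ∈ Fl ↔ x ∈ Fl)
    {S : TSy D G} {vp : P → V} {fq : Q → V} (hR : TRz D G T Fl S vp fq)
    {p0 : P} {ep : P → E} {ef : Q → E} {rp : P → ℕ} {rq : Q → ℕ} (hTr : TTr D p0 ep ef rp rq)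
    {G' : Type} [Group G'] (S' : TSy D G') (hN' : S'.Nor p0 ep ef) (hG' : S'.Gen) (F : G' →* G)
    (hF : S'.Comp S F) : Function.Bijective F := by
  refine ⟨vt09_inj hT hadj hR hTr S' hN' hG' F hF, ?_⟩
  have hbeR : ∀ p x, S.be p x ∈ F.range := fun p x => ⟨S'.be p x, hF.be p x⟩
  have hyR : ∀ e, S.y e ∈ F.range := fun e => ⟨S'.y e, hF.y e⟩
  have key : ∀ v : V, (∃ p, ∃ g ∈ F.range, g • vp p = v) ∨ (∃ q, ∃ g ∈ F.range, g • fq q = v) := by
    refine ttl_ind hT.connected _ (vp p0) (Or.inl ⟨p0, 1, one_mem _, one_smul _ _⟩) ?_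
    rintro v v' hvv (⟨p, g, hg, rfl⟩ | ⟨q, g, hg, rfl⟩)
    · right
      have hnF : g • vp p ∉ Fl := fun h => hR.vpN p ((hfl g _).mp h)
      have hF' : v' ∈ Fl := (hbip _ _ hvv.symm).mpr hnF
      obtain ⟨q, g', rfl⟩ := hR.orq v' hF'
      have h1 : T.Adj (fq q) (g'⁻¹ • g • vp p) := by
        have := hadj g'⁻¹ _ _ hvv.symm
        rwa [inv_smul_smul] at this
      obtain ⟨e, he, he2⟩ := (hR.adj _ _).mp h1
      have h2 : (g⁻¹ * g' * S.y e) • vp (D.pc e) = vp p := by
        rw [mul_smul, he2, mul_smul, smul_inv_smul, inv_smul_smul]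
      have h3 := hR.unp _ _ _ h2
      rw [h3] at h2
      obtain ⟨x, hx⟩ := (hR.stp _ _).mp h2
      refine ⟨q, g', ?_, rfl⟩
      have h4 : g' = g * S.be p x * (S.y e)⁻¹ := by
        rw [hx]
        group
      rw [h4]
      exact mul_mem (mul_mem hg (hbeR _ _)) (inv_mem (hyR e))
    · left
      have h1 : T.Adj (fq q) (g⁻¹ • v') := by
        have := hadj g⁻¹ _ _ hvv
        rwa [inv_smul_smul] at this
      obtain ⟨e, he, he2⟩ := (hR.adj _ _).mp h1
      refine ⟨D.pc e, g * S.y e, mul_mem hg (hyR e), ?_⟩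
      rw [mul_smul, he2, smul_inv_smul]
  intro g
  rcases key (g • vp p0) with ⟨p, g0, hg0, h1⟩ | ⟨q, g0, hg0, h1⟩
  · have h2 : (g0⁻¹ * g) • vp p0 = vp p := by
      rw [mul_smul, ← h1, inv_smul_smul]
    have h3 := hR.unp _ _ _ h2
    rw [← h3] at h2
    obtain ⟨x, hx⟩ := (hR.stp _ _).mp h2
    have h4 : g = g0 * S.be p0 x := by
      rw [hx, mul_inv_cancel_left]
    have h5 : g ∈ F.range := by
      rw [h4]
      exact mul_mem hg0 (hbeR _ _)
    exact h5
  · exfalso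
    have h2 : g • vp p0 ∈ Fl := by
      rw [← h1]
      exact (hfl _ _).mpr (hR.fqF q)
    exact hR.vpN p0 ((hfl _ _).mp h2)

end

end VF
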