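import Pool.Agent.Lib.MP_32d917_al_vf.T01
import Pool.Agent.Lib.MP_32d917_al_adm.T10

/-!
# T10: representatives of orbits

Adapt adm/T10 (`t10_reps` can be imported from it).
-/

set_option autoImplicit false

namespace VF

open LatIso LatN AdmIso

section

variable {G : Type} [Group G] {V : Type} [MulAction G V] {T : SimpleGraph V} {Fl : Set V}

theorem orb (h : VAdm G T Fl) : ∃ (a b d : ℕ) (vp : Fin (a + 1) → V) (fq : Fin (b + 1) → V)
    (pc : Fin (d + 1) → Fin (a + 1)) (fl : Fin (d + 1) → Fin (b + 1)) (y : Fin (d + 1) → G),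
    (∀ p, vp p ∉ Fl) ∧ (∀ q, fq q ∈ Fl) ∧ (∀ v, v ∉ Fl → ∃ p, ∃ g : G, g • vp p = v) ∧
    (∀ v ∈ Fl, ∃ q, ∃ g : G, g • fq q = v) ∧ (∀ p p' (g : G), g • vp p = vp p' → p = p') ∧
    (∀ q q' (g : G), g • fq q = fq q' → q = q') ∧
    (∀ q v, T.Adj (fq q) v ↔ ∃ e, fl e = q ∧ y e • vp (pc e) = v) ∧
    (∀ e e', fl e = fl e' → y e • vp (pc e) = y e' • vp (pc e') → e = e') := by
  classical
  obtain ⟨F, hF⟩ := h.fin
  have hW : ∀ v : V, ∃ g : G, g • v ∈ F.image Prod.fst ∪ F.image Prod.snd := by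
    intro v
    by_cases hv : v ∈ Fl
    · obtain ⟨y, -, -, hy, -⟩ := h.two v hv
      obtain ⟨g, hg⟩ := hF v y hy
      exact ⟨g, Finset.mem_union_left _ (Finset.mem_image_of_mem Prod.fst hg)⟩
    · obtain ⟨f, -, hf⟩ := vadm_hasflat h hv
      obtain ⟨g, hg⟩ := hF f v hf
      exact ⟨g, Finset.mem_union_right _ (Finset.mem_image_of_mem Prod.snd hg)⟩
  obtain ⟨x0, hx0⟩ := h.ne
  obtain ⟨y0, -, -, hy0, -⟩ := h.two x0 hx0
  have hy0' : y0 ∉ Fl := (h.bip x0 y0 hy0).1 hx0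
  obtain ⟨a, vp, hvp, hvp1, hvp2⟩ := t10_reps (G := G) (Flᶜ) ⟨y0, hy0'⟩ _ (fun v _ => hW v)
    (fun g v hv hgv => hv ((vadm_flat_iff h g v).1 hgv))
  obtain ⟨b, fq, hfq, hfq1, hfq2⟩ := t10_reps (G := G) Fl ⟨x0, hx0⟩ _ (fun v _ => hW v)
    (fun g v hv => h.flat g v hv)
  have hNfin : ∀ q, Finite {v : V // T.Adj (fq q) v} := by
    intro q
    choose k hk using fun v : {v : V // T.Adj (fq q) v} => hF (fq q) v.1 v.2
    refine Finite.of_injective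
      (fun v => (⟨(k v • fq q, k v • v.1), hk v⟩ : {x : V × V // x ∈ F})) ?_
    intro v v' hvv
    have h1 := Subtype.ext_iff.1 hvv
    have h2 : k v • fq q = k v' • fq q := congrArg Prod.fst h1
    have h3 : k v • v.1 = k v' • v'.1 := congrArg Prod.snd h1
    have h4 : ((k v')⁻¹ * k v) • fq q = fq q := by
      rw [mul_smul, h2, inv_smul_smul]
    have h5 : ((k v')⁻¹ * k v) • v.1 = v.1 := vadm_flat_fix h (hfq q) v.2 h4
    apply Subtype.ext
    rw [← h5, mul_smul, h3, inv_smul_smul]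
  have : Finite (Σ q, {v : V // T.Adj (fq q) v}) := by
    have := hNfin
    infer_instance
  obtain ⟨q0, g0, -⟩ := hfq1 x0 hx0
  obtain ⟨y1, -, -, hy1, -⟩ := h.two (fq q0) (hfq q0)
  obtain ⟨n, ⟨e⟩⟩ := Finite.exists_equiv_fin (Σ q, {v : V // T.Adj (fq q) v})
  have hn : n ≠ 0 := by
    rintro rfl
    exact (e ⟨q0, ⟨y1, hy1⟩⟩).elim0
  obtain ⟨d, rfl⟩ := Nat.exists_eq_succ_of_ne_zero hn
  have hpc : ∀ i : Fin (d + 1), ∃ p, ∃ g : G, g • vp p = (e.symm i).2.1 := fun i =>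
    hvp1 _ ((h.bip _ _ (e.symm i).2.2).1 (hfq _))
  choose pc y hy using hpc
  refine ⟨a, b, d, vp, fq, pc, fun i => (e.symm i).1, y, hvp, hfq, fun v hv => hvp1 v hv, hfq1,
    hvp2, hfq2, ?_, ?_⟩
  · intro q v
    constructor
    · intro hv
      refine ⟨e ⟨q, ⟨v, hv⟩⟩, ?_, ?_⟩
      · show (e.symm (e ⟨q, ⟨v, hv⟩⟩)).1 = q
        rw [Equiv.symm_apply_apply]
      · rw [hy, Equiv.symm_apply_apply]
    · rintro ⟨i, hi, hv⟩
      rw [← hv, hy, ← hi]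
      exact (e.symm i).2.2
  · intro i i' hi hv
    rw [hy, hy] at hv
    apply e.symm.injective
    have key : ∀ (x x' : Σ q, {v : V // T.Adj (fq q) v}), x.1 = x'.1 → x.2.1 = x'.2.1 → x = x' := by
      rintro ⟨q, v, hv⟩ ⟨q', v', hv'⟩ h1 h2
      simp only at h1 h2
      subst h1
      subst h2
      rfl
    exact key _ _ hi hv

end

end VF
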