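import Pool.Agent.Lib.MP_32d917_al_vf.T02
import Pool.Agent.Lib.MP_32d917_al_vf.T10

/-!
# T11: existence of data

Take `orb`. `K p` = stabiliser of `vp p` (a type, with its group structure), `be p` the inclusion. `al q` from `flatg`.
`vc_gen`: the virtually central elements of the stabiliser of a piece `u` form an infinite cyclic group, generated by some `c`: they fix a
flat `f` at `u` (`vc_fix`), so they correspond to a subgroup of `ℤ × ℤ`, not trivial (`vc_exists`), any two elements of it are commensurable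
(`vc_cyc`): so it is cyclic (e.g. it is contained in the line of multiples of a primitive vector). `nrm`: `x c x⁻¹` is
virtually central (`vc_conj` with `x u = u`) and generates, so it is `c` or `c⁻¹`. So `PieceG (K p) (c p)`; transfer between subgroups of `G`
contained in the stabiliser and subgroups of the type `K p` (`Subgroup.subgroupOf`).
For an edge `e`, `p = pc e`, `q = fl e`: `al q v` fixes `fq q`, so `y e • vp p` (`fix`), so `(y e)⁻¹ al(v) (y e) = be p (j v)`,
`j : A2 →* K p` injective. `c` fixes the flat `(y e)⁻¹ fq q` at `vp p`, so `c = j u0` for some `u0 ≠ 0`; `u0 = m ze`, `m > 0`, `ze`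
primitive; choose `om` with `dt om ze = 1`; `h p e = j om`, `b p e = j ze`. Then `j v = h ^ dt v ze * b ^ dt om v`.
(`h p e = b p e = 1` for `p ≠ pc e`; use `if h : pc e = p then ...`.)
`Ok`: `hh`: `h ^ k = c ^ j` gives `k om = j m ze` by injectivity, so `k = 0` (`det`). `ind`: if `dt (ze e) (ze f) = 0` then
`k ze e = k' ze f ≠ 0`, and a multiple of it gives an element which is virtually central for the two different pieces
`y e • vp (pc e)`, `y f • vp (pc f)` (`une`), so it is `1` by `trans`, contradiction to the injectivity of `al q` (adm/T11 `t11_num`,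
`t11_ind`). `two`: `VAdm.two`, `adj`. `sep`: let `x h_e ^ k x⁻¹ = em p f v`, `k ≠ 0`. Let `F = x (y e)⁻¹ • fq (fl e)`,
`F' = (y f)⁻¹ • fq (fl f)`, flats at `vp p`. If `F ≠ F'`: the element `g = x h_e ^ k x⁻¹` fixes both, so by `cen1` a power of it is virtually
central, i.e. a power of `h_e` is in `<c>`, contradiction to `hh`. So `F = F'`, and as in adm/T11 `e = f`, and `x` fixes
`(y e)⁻¹ • fq (fl e)`, so `x = em p e v`.
-/

set_option autoImplicit false

namespace VF

open LatIso LatN AdmIso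

section

variable {G : Type} [Group G] {V : Type} [MulAction G V] {T : SimpleGraph V} {Fl : Set V}

/-- the virtual centre as a subgroup -/
def T11_vc (G : Type) [Group G] {V : Type} [MulAction G V] (u : V) : Subgroup G where
  carrier := {z | VCen G u z}
  one_mem' := by
    refine ⟨one_smul _ _, MulAction.stabilizer G u, le_rfl, ?_, ?_⟩
    · rw [Subgroup.relIndex_self]
      exact one_ne_zero
    · intro k _
      rw [one_mul, mul_one]
  mul_mem' := by
    rintro z z' ⟨h1, H, hH, hi, hc⟩ ⟨h1', H', hH', hi', hc'⟩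
    refine ⟨?_, H ⊓ H', inf_le_left.trans hH, fi_inter hi hi', ?_⟩
    · rw [mul_smul, h1', h1]
    · rintro k ⟨hk, hk'⟩
      calc z * z' * k = z * (z' * k) := by group
        _ = z * (k * z') := by rw [hc' k hk']
        _ = (z * k) * z' := by group
        _ = (k * z) * z' := by rw [hc k hk]
        _ = _ := by group
  inv_mem' := by
    rintro z ⟨h1, H, hH, hi, hc⟩
    refine ⟨inv_smul_eq_iff.2 h1.symm, H, hH, hi, ?_⟩
    intro k hk
    have h2 : Commute z k := hc k hk
    exact h2.inv_left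

theorem T11_mem {u : V} {z : G} : z ∈ T11_vc G u ↔ VCen G u z := Iff.rfl

theorem T11_cyc (h : VAdm G T Fl) {u : V} (hu : u ∉ Fl) : IsCyclic (T11_vc G u) := by
  obtain ⟨z0, hz0, hinf⟩ := vc_exists h hu
  obtain ⟨f, hf, ha⟩ := vadm_hasflat h hu
  obtain ⟨i⟩ := h.flatg f hf
  have hz0' : VCen G u z0 := hz0
  let ψ : T11_vc G u →* A2 :=
    { toFun := fun z => i.symm ⟨z.1, vc_fix h z.2 hf ha⟩
      map_one' := by
        rw [← map_one i.symm]
        rfl
      map_mul' := by
        intro z z'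
        rw [← map_mul i.symm]
        rfl }
  have hψ : ∀ z z', ψ z = ψ z' → z = z' := by
    intro z z' hzz
    have h1 := i.symm.injective hzz
    exact Subtype.ext (congrArg (fun t : MulAction.stabilizer G f => (t : G)) h1)
  have hψ0 : (ψ ⟨z0, hz0⟩).toAdd ≠ 0 := by
    intro h0
    have h1 : ψ ⟨z0, hz0⟩ = ψ 1 := by
      rw [map_one]
      exact h0
    have h2 := hψ _ _ h1
    have h3 : z0 = 1 := congrArg Subtype.val h2
    have h4 := hinf 1 (by rw [h3, one_zpow])
    exact one_ne_zero h4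
  have key : ∀ ℓ : ℤ × ℤ →+ ℤ, ℓ (ψ ⟨z0, hz0⟩).toAdd ≠ 0 → IsCyclic (T11_vc G u) := by
    intro ℓ hℓ
    refine isCyclic_of_injective ((AddMonoidHom.toMultiplicative ℓ).comp ψ) ?_
    rw [injective_iff_map_eq_one]
    intro z hz
    have hz' : ℓ (ψ z).toAdd = 0 := hz
    obtain ⟨m, n, hmn, hpow⟩ := vc_cyc h hu hz0' z.2
    have h5 : ψ ⟨z0, hz0⟩ ^ m = ψ z ^ n := by
      rw [← map_zpow, ← map_zpow]
      congr 1
      exact Subtype.ext hpow
    have h6 : m • (ψ ⟨z0, hz0⟩).toAdd = n • (ψ z).toAdd := h5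
    have h7 := congrArg ℓ h6
    rw [map_zsmul, map_zsmul, hz', smul_zero, smul_eq_mul, mul_eq_zero] at h7
    have hm : m = 0 := h7.resolve_right hℓ
    have hn : n ≠ 0 := hmn.resolve_left (fun hh => hh hm)
    rw [hm, zero_smul] at h6
    have h8 := smul_eq_zero.1 h6.symm
    have h9 : (ψ z).toAdd = 0 := h8.resolve_left hn
    apply hψ
    rw [map_one]
    exact h9
  by_cases h1 : (ψ ⟨z0, hz0⟩).toAdd.1 = 0
  · refine key (AddMonoidHom.snd ℤ ℤ) ?_
    intro h2
    exact hψ0 (Prod.ext h1 h2)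
  · exact key (AddMonoidHom.fst ℤ ℤ) h1

/-- a generator of the virtual centre -/
theorem vc_gen (h : VAdm G T Fl) {u : V} (hu : u ∉ Fl) : ∃ c : MulAction.stabilizer G u,
    PieceG (MulAction.stabilizer G u) c ∧
      ∀ z : G, VCen G u z ↔ ∃ k : ℤ, z = (c : G) ^ k := by
  obtain ⟨⟨c0, hc0⟩, hgen⟩ := (T11_cyc h hu).exists_generator
  have hc0' : VCen G u c0 := hc0
  have hiff : ∀ z : G, VCen G u z ↔ ∃ k : ℤ, z = c0 ^ k := by
    intro z
    constructor
    · intro hz
      obtain ⟨k, hk⟩ := Subgroup.mem_zpowers_iff.1 (hgen ⟨z, hz⟩)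
      refine ⟨k, ?_⟩
      have := congrArg Subtype.val hk
      exact this.symm
    · rintro ⟨k, rfl⟩
      exact vc_zpow hc0' k
  have hinf : ∀ k : ℤ, c0 ^ k = 1 → k = 0 := by
    intro k hk
    obtain ⟨z0, hz0, hinf⟩ := vc_exists h hu
    obtain ⟨m, hm⟩ := (hiff z0).1 hz0
    apply hinf
    rw [hm, ← zpow_mul, mul_comm, zpow_mul, hk, one_zpow]
  refine ⟨⟨c0, hc0'.1⟩, ?_, hiff⟩
  exact
    { vfz := by
        obtain ⟨n, hn, H, hH, hi, ⟨ι⟩⟩ := h.piece u hu
        exact ⟨n, hn, H.subgroupOf _, hi, ⟨ι.trans (Subgroup.subgroupOfEquivOfLe hH).symm⟩⟩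
      nrm := by
        intro x
        have h1 : ∀ x : MulAction.stabilizer G u, ∃ k : ℤ, (x : G) * c0 * (x : G)⁻¹ = c0 ^ k := by
          intro x
          have hx : (x : G) • u = u := x.2
          have h2 := vc_conj (x : G) hc0'
          rw [hx] at h2
          exact (hiff _).1 h2
        obtain ⟨k, hk⟩ := h1 x
        obtain ⟨l, hl⟩ := h1 x⁻¹
        have h3 : c0 ^ (l * k) = c0 := by
          rw [zpow_mul, ← hl, conj_zpow, ← hk, Subgroup.coe_inv]
          group
        have h4 : l * k - 1 = 0 := by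
          apply hinf
          rw [zpow_sub, h3, zpow_one, mul_inv_cancel]
        have h5 : k * l = 1 := by linarith [mul_comm l k]
        rcases Int.eq_one_or_neg_one_of_mul_eq_one h5 with h6 | h6
        · left
          apply Subtype.ext
          show (x : G) * c0 * (x : G)⁻¹ = c0
          rw [hk, h6, zpow_one]
        · right
          apply Subtype.ext
          show (x : G) * c0 * (x : G)⁻¹ = c0⁻¹
          rw [hk, h6, zpow_neg, zpow_one]
      inf := by
        intro k hk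
        apply hinf
        have := congrArg Subtype.val hk
        exact this
      fc := by
        rintro z ⟨H, hH, hc⟩
        have h1 : VCen G u (z : G) := by
          refine ⟨z.2, H.map (MulAction.stabilizer G u).subtype, ?_, ?_, ?_⟩
          · rintro _ ⟨k, _, rfl⟩
            exact k.2
          · rw [Subgroup.relIndex, Subgroup.subgroupOf,
              Subgroup.comap_map_eq_self_of_injective (Subgroup.subtype_injective _)]
            exact hH
          · rintro _ ⟨k, hk, rfl⟩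
            exact congrArg Subtype.val (hc k hk)
        obtain ⟨k, hk⟩ := (hiff _).1 h1
        exact ⟨k, Subtype.ext hk⟩ }

/-- vectors of `ℤ × ℤ` as multiples of vectors of a basis -/
theorem T11_prim (u : ℤ × ℤ) (hu : u ≠ 0) : ∃ (m : ℕ) (ze om : ℤ × ℤ), 0 < m ∧
    u = (m : ℤ) • ze ∧ dt om ze = 1 := by
  obtain ⟨a, b⟩ := u
  have hg : 0 < Int.gcd a b := by
    rw [Int.gcd_pos_iff]
    by_contra hcon
    push Not at hcon
    exact hu (Prod.ext hcon.1 hcon.2)
  obtain ⟨a', ha'⟩ := Int.gcd_dvd_left a b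
  obtain ⟨b', hb'⟩ := Int.gcd_dvd_right a b
  have hg' : (Int.gcd a b : ℤ) ≠ 0 := by exact_mod_cast hg.ne'
  have hb := Int.gcd_eq_gcd_ab a b
  refine ⟨Int.gcd a b, (a', b'), (Int.gcdB a b, - Int.gcdA a b), hg, ?_, ?_⟩
  · apply Prod.ext
    · simpa using ha'
    · simpa using hb'
  · show Int.gcdB a b * b' - (- Int.gcdA a b) * a' = 1
    apply mul_left_cancel₀ hg'
    have h1 : (Int.gcd a b : ℤ) * (Int.gcdB a b * b' - (- Int.gcdA a b) * a') =
        a * Int.gcdA a b + b * Int.gcdB a b := by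
      linear_combination (-Int.gcdA a b) * ha' + (-Int.gcdB a b) * hb'
    rw [h1, ← hb, mul_one]

/-- coordinates -/
theorem T11_dec (ze om v : ℤ × ℤ) (h : dt om ze = 1) : v = dt v ze • om + dt om v • ze := by
  obtain ⟨z1, z2⟩ := ze
  obtain ⟨o1, o2⟩ := om
  obtain ⟨v1, v2⟩ := v
  simp only [dt] at h ⊢
  apply Prod.ext
  · simp only [Prod.smul_mk, smul_eq_mul, Prod.mk_add_mk]
    linear_combination (-v1) * h
  · simp only [Prod.smul_mk, smul_eq_mul, Prod.mk_add_mk]
    linear_combination (-v2) * h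

theorem T11_claim (h : VAdm G T Fl) {u f : V} (hf : f ∈ Fl) {y : G}
    (ha : T.Adj f (y • u)) (al : A2 →* G) (alI : Function.Injective al)
    (stq : ∀ g : G, g • f = f ↔ ∃ v, al v = g) (c : MulAction.stabilizer G u)
    (hc : VCen G u (c : G)) (hinf : ∀ k : ℤ, c ^ k = 1 → k = 0) :
    ∃ (hh b : MulAction.stabilizer G u) (ze om : ℤ × ℤ), dt om ze = 1 ∧ hh * b = b * hh ∧
      (∃ m : ℕ, 0 < m ∧ b ^ m = c) ∧ (∀ k j : ℤ, k ≠ 0 → hh ^ k ≠ c ^ j) ∧
      ∀ v : A2, al v * y = y * ((hh ^ dt v.toAdd ze * b ^ dt om v.toAdd :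
        MulAction.stabilizer G u) : G) := by
  have h1 : ∀ v, ((y)⁻¹ * al v * y) • u = u := by
    intro v
    have h2 : al v • f = f := (stq _).2 ⟨v, rfl⟩
    have h3 := vadm_flat_fix h hf ha h2
    rw [mul_smul, mul_smul, h3, inv_smul_smul]
  let j : A2 →* MulAction.stabilizer G u := MonoidHom.mk' (fun v => ⟨_, h1 v⟩) (by
    intro v w
    apply Subtype.ext
    show y⁻¹ * al (v * w) * y = (y⁻¹ * al v * y) * (y⁻¹ * al w * y)
    rw [map_mul]
    group)
  have hj : ∀ v, ((j v : MulAction.stabilizer G u) : G) = y⁻¹ * al v * y := fun v => rfl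
  have hjI : Function.Injective j := by
    intro v w hvw
    have h2 : y⁻¹ * al v * y = y⁻¹ * al w * y := congrArg Subtype.val hvw
    exact alI (mul_left_cancel (mul_right_cancel h2))
  -- the generator is in the flat
  have ha' : T.Adj (y⁻¹ • f) u := by
    have := h.adj y⁻¹ _ _ ha
    rwa [inv_smul_smul] at this
  have h4 : (c : G) • (y⁻¹ • f) = y⁻¹ • f := vc_fix h hc (h.flat _ _ hf) ha'
  have h5 : (y * (c : G) * y⁻¹) • f = f := by
    rw [mul_smul, mul_smul, h4, smul_inv_smul]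
  obtain ⟨u0, hu0⟩ := (stq _).1 h5
  have hju0 : j u0 = c := by
    apply Subtype.ext
    rw [hj, hu0]
    group
  have hu00 : u0.toAdd ≠ 0 := by
    intro h0
    have h6 : u0 = 1 := h0
    rw [h6, map_one] at hju0
    have h7 := hinf 1 (by rw [← hju0, one_zpow])
    exact one_ne_zero h7
  obtain ⟨m, ze, om, hm, hmz, hdt⟩ := T11_prim u0.toAdd hu00
  have hbm : j (Multiplicative.ofAdd ze) ^ m = c := by
    rw [← map_pow, ← hju0]
    congr 1
    rw [← ofAdd_nsmul]
    apply Multiplicative.toAdd.injective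
    rw [toAdd_ofAdd, hmz, natCast_zsmul]
  refine ⟨j (Multiplicative.ofAdd om), j (Multiplicative.ofAdd ze), ze, om, hdt, ?_,
    ⟨m, hm, hbm⟩, ?_, ?_⟩
  · rw [← map_mul j, ← map_mul j, mul_comm]
  · intro k l hk hkl
    rw [← hbm, ← map_pow j, ← map_zpow j, ← map_zpow j] at hkl
    have h6 := hjI hkl
    have h7 : k • om = l • (m • ze) := h6
    have h8 := congrArg (fun t => dt t ze) h7
    simp only [dt, Prod.smul_fst, Prod.smul_snd] at h8 hdt
    simp only [smul_eq_mul, nsmul_eq_mul] at h8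
    have h9 : k * (om.1 * ze.2 - om.2 * ze.1) = 0 := by
      linear_combination h8
    rw [hdt, mul_one] at h9
    exact hk h9
  · intro v
    have h6 : v = Multiplicative.ofAdd om ^ dt v.toAdd ze *
        Multiplicative.ofAdd ze ^ dt om v.toAdd := by
      apply Multiplicative.toAdd.injective
      rw [toAdd_mul, toAdd_zpow, toAdd_zpow, toAdd_ofAdd, toAdd_ofAdd]
      exact T11_dec ze om v.toAdd hdt
    have h7 : j v = j (Multiplicative.ofAdd om) ^ dt v.toAdd ze *
        j (Multiplicative.ofAdd ze) ^ dt om v.toAdd := by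
      rw [← map_zpow j, ← map_zpow j, ← map_mul j, ← h6]
    rw [← h7, hj]
    group

section

variable {P Q E : Type} {K : P → Type} [∀ p, Group (K p)] {D : TD P Q E K} {S : TSy D G}
  {vp : P → V} {fq : Q → V}

theorem T11_num (u v : ℤ × ℤ) (hu : u ≠ 0) (hv : v ≠ 0) (h : dt u v = 0) :
    ∃ k k' : ℤ, k • u = k' • v ∧ k • u ≠ 0 := by
  obtain ⟨u1, u2⟩ := u
  obtain ⟨v1, v2⟩ := v
  simp only [dt] at h
  by_cases h1 : v1 = 0
  · have h2 : v2 ≠ 0 := by
      rintro rfl
      exact hv (by rw [h1]; rfl)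
    refine ⟨v2, u2, ?_, ?_⟩
    · apply Prod.ext
      · simp only [Prod.smul_mk, smul_eq_mul]
        linarith
      · simp only [Prod.smul_mk, smul_eq_mul]
        ring
    · intro h3
      rcases smul_eq_zero.1 h3 with h4 | h4
      · exact h2 h4
      · exact hu h4
  · refine ⟨v1, u1, ?_, ?_⟩
    · apply Prod.ext
      · simp only [Prod.smul_mk, smul_eq_mul]
        ring
      · simp only [Prod.smul_mk, smul_eq_mul]
        linarith
    · intro h3
      rcases smul_eq_zero.1 h3 with h4 | h4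
      · exact h1 h4
      · exact hu h4

theorem T11_ze (h2 : ∀ e, dt (D.om e) (D.ze e) = 1) (e : E) : D.ze e ≠ 0 := by
  intro h
  have h3 := h2 e
  rw [h] at h3
  simp [dt] at h3

theorem T11_em (h2 : ∀ e, dt (D.om e) (D.ze e) = 1) (p : P) (e : E) (n : ℤ) :
    D.em p e (Multiplicative.ofAdd (n • D.ze e)) = D.b p e ^ n := by
  have h3 := h2 e
  have h4 : dt (n • D.ze e) (D.ze e) = 0 := by
    simp only [dt, Prod.smul_fst, Prod.smul_snd, smul_eq_mul]
    ring
  have h5 : dt (D.om e) (n • D.ze e) = n := by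
    simp only [dt, Prod.smul_fst, Prod.smul_snd, smul_eq_mul] at h3 ⊢
    linear_combination n * h3
  unfold TD.em
  rw [toAdd_ofAdd, h4, h5, zpow_zero, one_mul]

theorem T11_alze (h2 : ∀ e, dt (D.om e) (D.ze e) = 1)
    (hc : ∀ p, VCen G (vp p) (S.be p (D.c p)))
    (hb : ∀ p e, D.pc e = p → ∃ m : ℕ, 0 < m ∧ D.b p e ^ m = D.c p) (e : E) :
    ∃ m : ℕ, 0 < m ∧ ∀ k : ℤ, VCen G (S.y e • vp (D.pc e))
      (S.al (D.fl e) (Multiplicative.ofAdd ((m * k : ℤ) • D.ze e))) := by
  obtain ⟨m, hm, hbm⟩ := hb (D.pc e) e rfl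
  refine ⟨m, hm, fun k => ?_⟩
  have h3 := S.rel (D.pc e) e rfl (Multiplicative.ofAdd ((m * k : ℤ) • D.ze e))
  rw [T11_em h2, zpow_mul, zpow_natCast, hbm, map_zpow] at h3
  have h4 : S.al (D.fl e) (Multiplicative.ofAdd ((m * k : ℤ) • D.ze e)) =
      S.y e * S.be (D.pc e) (D.c (D.pc e)) ^ k * (S.y e)⁻¹ := by
    rw [← h3]
    group
  rw [h4]
  exact vc_conj _ (vc_zpow (hc _) k)

theorem T11_ind (h : VAdm G T Fl) (hR : TRz D G T Fl S vp fq)
    (h2 : ∀ e, dt (D.om e) (D.ze e) = 1) (hc : ∀ p, VCen G (vp p) (S.be p (D.c p)))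
    (hb : ∀ p e, D.pc e = p → ∃ m : ℕ, 0 < m ∧ D.b p e ^ m = D.c p)
    (alI : ∀ q, Function.Injective (S.al q)) (e f : E) (hef : e ≠ f)
    (hfl : D.fl e = D.fl f) : dt (D.ze e) (D.ze f) ≠ 0 := by
  intro h0
  obtain ⟨k, k', hk, hk0⟩ := T11_num _ _ (T11_ze h2 e) (T11_ze h2 f) h0
  obtain ⟨m, hm, h3⟩ := T11_alze h2 hc hb e
  obtain ⟨n, hn, h4⟩ := T11_alze h2 hc hb f
  have h5 := h3 (n * k)
  have h6 := h4 (m * k')
  have h7 : ((n : ℤ) * (m * k')) • D.ze f = ((m : ℤ) * (n * k)) • D.ze e := by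
    have e1 : ((n : ℤ) * (m * k')) • D.ze f = ((n : ℤ) * m) • (k' • D.ze f) := by
      rw [smul_smul, mul_assoc]
    have e2 : ((m : ℤ) * (n * k)) • D.ze e = ((n : ℤ) * m) • (k • D.ze e) := by
      rw [smul_smul]
      congr 1
      ring
    rw [e1, e2, hk]
  rw [h7, ← hfl] at h6
  have hz : S.al (D.fl e) (Multiplicative.ofAdd (((m : ℤ) * (n * k)) • D.ze e)) = 1 := by
    refine h.trans (fq (D.fl e)) _ _ (hR.fqF _) ((hR.adj _ _).2 ⟨e, rfl, rfl⟩)
      ((hR.adj _ _).2 ⟨f, hfl.symm, rfl⟩) ?_ _ h5 h6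
    intro hh
    exact hef (hR.une e f hfl hh)
  have h8 : Multiplicative.ofAdd (((m : ℤ) * (n * k)) • D.ze e) = 1 := by
    apply alI (D.fl e)
    rw [hz, map_one]
  have h9 : ((m : ℤ) * (n * k)) • D.ze e = 0 := h8
  have e2 : ((m : ℤ) * (n * k)) • D.ze e = ((n : ℤ) * m) • (k • D.ze e) := by
    rw [smul_smul]
    congr 1
    ring
  rw [e2] at h9
  rcases smul_eq_zero.1 h9 with h10 | h10
  · rcases mul_eq_zero.1 h10 with h11 | h11
    · exact hn.ne' (by exact_mod_cast h11)
    · exact hm.ne' (by exact_mod_cast h11)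
  · exact hk0 h10

theorem T11_sep (h : VAdm G T Fl) (hR : TRz D G T Fl S vp fq)
    (hc : ∀ p z, VCen G (vp p) (S.be p z) → ∃ k : ℤ, z = D.c p ^ k)
    (h2 : ∀ e, dt (D.om e) (D.ze e) = 1)
    (hh : ∀ p e, D.pc e = p → ∀ k j : ℤ, k ≠ 0 → D.h p e ^ k ≠ D.c p ^ j)
    (p : P) (e f : E) (he : D.pc e = p) (hf : D.pc f = p) (x : K p) (k : ℤ) (v : A2) (hk : k ≠ 0)
    (hx : x * D.h p e ^ k * x⁻¹ = D.em p f v) : e = f ∧ ∃ v, D.em p e v = x := by
  have hadj : ∀ e', D.pc e' = p → T.Adj ((S.y e')⁻¹ • fq (D.fl e')) (vp p) := by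
    intro e' he'
    have h3 : T.Adj (fq (D.fl e')) (S.y e' • vp (D.pc e')) := (hR.adj _ _).2 ⟨e', rfl, rfl⟩
    have h4 := h.adj (S.y e')⁻¹ _ _ h3
    rw [inv_smul_smul, he'] at h4
    exact h4
  have hfix : ∀ e' w, D.pc e' = p →
      S.be p (D.em p e' w) • ((S.y e')⁻¹ • fq (D.fl e')) = (S.y e')⁻¹ • fq (D.fl e') := by
    intro e' w he'
    have h3 := S.rel p e' he' w
    have h4 : S.be p (D.em p e' w) = (S.y e')⁻¹ * S.al (D.fl e') w * S.y e' := by
      rw [mul_assoc, h3]
      group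
    rw [h4, mul_smul, mul_smul, smul_inv_smul, (hR.stq _ _).2 ⟨w, rfl⟩]
  have hhe : D.h p e = D.em p e (Multiplicative.ofAdd (D.om e)) := by
    have h3 := h2 e
    have h4 : dt (D.om e) (D.om e) = 0 := by
      simp only [dt]
      ring
    unfold TD.em
    rw [toAdd_ofAdd, h3, h4, zpow_zero, zpow_one, mul_one]
  have hxv : S.be p x • vp p = vp p := (hR.stp _ _).2 ⟨_, rfl⟩
  have hhfix : S.be p (D.h p e) • ((S.y e)⁻¹ • fq (D.fl e)) = (S.y e)⁻¹ • fq (D.fl e) := by
    rw [hhe]
    exact hfix e _ he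
  have hadj1 : T.Adj (S.be p x • ((S.y e)⁻¹ • fq (D.fl e))) (vp p) := by
    have h4 := h.adj (S.be p x) _ _ (hadj e he)
    rw [hxv] at h4
    exact h4
  set F := S.be p x • ((S.y e)⁻¹ • fq (D.fl e)) with hFdef
  set F' := (S.y f)⁻¹ • fq (D.fl f) with hF'def
  have hFF : F = F' := by
    by_contra hne
    have hg1 : S.be p (x * D.h p e ^ k * x⁻¹) • F = F := by
      have h5 : (S.be p (D.h p e) ^ k) • ((S.y e)⁻¹ • fq (D.fl e)) = (S.y e)⁻¹ • fq (D.fl e) := by
        have h6 : S.be p (D.h p e) ∈ MulAction.stabilizer G ((S.y e)⁻¹ • fq (D.fl e)) := hhfix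
        exact (MulAction.stabilizer G _).zpow_mem h6 k
      rw [map_mul, map_mul, map_inv, map_zpow, hFdef, mul_smul, mul_smul, inv_smul_smul, h5]
    have hg2 : S.be p (x * D.h p e ^ k * x⁻¹) • F' = F' := by
      rw [hx]
      exact hfix f v hf
    obtain ⟨n, hn, hcen⟩ := cen1 h (h.flat _ _ (h.flat _ _ (hR.fqF _)))
      (h.flat _ _ (hR.fqF _)) hne hadj1 (hadj f hf) hg1 hg2
    have h7 := vc_conj (S.be p x)⁻¹ hcen
    have h8 : (S.be p x)⁻¹ • vp p = vp p := inv_smul_eq_iff.2 hxv.symm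
    have h9 : (S.be p x)⁻¹ * S.be p (x * D.h p e ^ k * x⁻¹) ^ n * ((S.be p x)⁻¹)⁻¹ =
        S.be p (D.h p e ^ (k * n)) := by
      rw [← map_inv, ← map_inv, ← map_pow, ← map_mul, ← map_mul]
      congr 1
      rw [conj_pow, zpow_mul, zpow_natCast]
      group
    rw [h8, h9] at h7
    obtain ⟨j, hj⟩ := hc p _ h7
    refine hh p e he (k * n) j (mul_ne_zero hk (by exact_mod_cast hn.ne')) hj
  have hg : (S.y f * S.be p x * (S.y e)⁻¹) • fq (D.fl e) = fq (D.fl f) := by
    rw [mul_smul, mul_smul, ← hFdef, hFF, hF'def, smul_inv_smul]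
  have hfl : D.fl e = D.fl f := hR.unq _ _ _ hg
  have hadj2 : T.Adj (fq (D.fl e)) (S.y e • vp (D.pc e)) := (hR.adj _ _).2 ⟨e, rfl, rfl⟩
  have h9 : (S.y f * S.be p x * (S.y e)⁻¹) • fq (D.fl e) = fq (D.fl e) := by
    rw [hg, hfl]
  have h10 := vadm_flat_fix h (hR.fqF _) hadj2 h9
  rw [he, mul_smul, mul_smul, inv_smul_smul, hxv] at h10
  have hef : e = f := by
    apply hR.une e f hfl
    rw [he, hf]
    exact h10.symm
  refine ⟨hef, ?_⟩
  subst hef
  have h11 : (S.y e * S.be p x * (S.y e)⁻¹) • fq (D.fl e) = fq (D.fl e) := hg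
  obtain ⟨w, hw⟩ := (hR.stq _ _).1 h11
  refine ⟨w, ?_⟩
  apply hR.beI
  have h12 := S.rel p e he w
  rw [hw] at h12
  have h13 : S.y e * S.be p x = S.y e * S.be p (D.em p e w) := by
    rw [← h12]
    group
  exact (mul_left_cancel h13).symm

end

theorem quot (h : VAdm G T Fl) : ∃ (a b d : ℕ) (K : Fin (a + 1) → Type) (_ : ∀ p, Group (K p))
    (D : TD (Fin (a + 1)) (Fin (b + 1)) (Fin (d + 1)) K) (S : TSy D G)
    (vp : Fin (a + 1) → V) (fq : Fin (b + 1) → V), D.Ok ∧ TRz D G T Fl S vp fq := by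
  classical
  obtain ⟨a, b, d, vp, fq, pc, fl, y, hvp, hfq, orp, orq, unp, unq, adj, une⟩ := orb h
  have hal' : ∀ q, ∃ β : A2 →* G, Function.Injective β ∧ ∀ g, g • fq q = fq q ↔ ∃ x, β x = g := by
    intro q
    obtain ⟨i⟩ := h.flatg (fq q) (hfq q)
    refine ⟨(MulAction.stabilizer G (fq q)).subtype.comp i.toMonoidHom, ?_, ?_⟩
    · intro u v huv
      exact i.injective (Subtype.ext huv)
    · intro g
      constructor
      · intro hg
        refine ⟨i.symm ⟨g, hg⟩, ?_⟩
        show ((i (i.symm ⟨g, hg⟩) : MulAction.stabilizer G (fq q)) : G) = g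
        rw [MulEquiv.apply_symm_apply]
      · rintro ⟨x, hx⟩
        rw [← hx]
        exact (i x).2
  choose al alI stq using hal'
  choose c hcP hcV using fun p => vc_gen h (hvp p)
  have hcv : ∀ p, VCen G (vp p) (c p : G) := fun p => (hcV p _).2 ⟨1, (zpow_one _).symm⟩
  have claim : ∀ e p, pc e = p → ∃ (hh bb : MulAction.stabilizer G (vp p)) (ze om : ℤ × ℤ),
      dt om ze = 1 ∧ hh * bb = bb * hh ∧ (∃ m : ℕ, 0 < m ∧ bb ^ m = c p) ∧
      (∀ k j : ℤ, k ≠ 0 → hh ^ k ≠ c p ^ j) ∧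
      ∀ v : A2, al (fl e) v * y e = y e * ((hh ^ dt v.toAdd ze * bb ^ dt om v.toAdd :
        MulAction.stabilizer G (vp p)) : G) := by
    rintro e p rfl
    have hadj : T.Adj (fq (fl e)) (y e • vp (pc e)) := (adj _ _).2 ⟨e, rfl, rfl⟩
    exact T11_claim h (hfq _) hadj (al (fl e)) (alI _) (stq _) (c (pc e)) (hcv _)
      (hcP _).inf
  choose hh bb ze om hdt hcom hbm hhc hrel using claim
  let K : Fin (a + 1) → Type := fun p => MulAction.stabilizer G (vp p)
  let D : TD (Fin (a + 1)) (Fin (b + 1)) (Fin (d + 1)) K :=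
    { pc := pc
      fl := fl
      c := c
      h := fun p e => if hp : pc e = p then hh e p hp else 1
      b := fun p e => if hp : pc e = p then bb e p hp else 1
      ze := fun e => ze e (pc e) rfl
      om := fun e => om e (pc e) rfl }
  have hDh : ∀ e p (hp : pc e = p), D.h p e = hh e p hp := fun e p hp => dif_pos hp
  have hDb : ∀ e p (hp : pc e = p), D.b p e = bb e p hp := fun e p hp => dif_pos hp
  let S : TSy D G :=
    { be := fun p => (MulAction.stabilizer G (vp p)).subtype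
      al := al
      y := y
      rel := by
        rintro p e hp v
        have hp' : pc e = p := hp
        subst hp'
        have h1 := hrel e (pc e) rfl v
        have h2 : D.em (pc e) e v = hh e (pc e) rfl ^ dt v.toAdd (ze e (pc e) rfl) *
            bb e (pc e) rfl ^ dt (om e (pc e) rfl) v.toAdd := by
          show D.h (pc e) e ^ _ * D.b (pc e) e ^ _ = _
          rw [hDh e (pc e) rfl, hDb e (pc e) rfl]
        rw [h2]
        exact h1 }
  have hem : ∀ e v, S.al (D.fl e) v * S.y e = S.y e * S.be (D.pc e) (D.em (D.pc e) e v) :=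
    fun e v => S.rel _ e rfl v
  have hbeI : ∀ p, Function.Injective (S.be p) := fun p => Subgroup.subtype_injective _
  have hstp : ∀ p (g : G), g • vp p = vp p ↔ ∃ x, S.be p x = g := by
    intro p g
    constructor
    · intro hg
      exact ⟨⟨g, hg⟩, rfl⟩
    · rintro ⟨x, rfl⟩
      exact x.2
  have hR : TRz D G T Fl S vp fq :=
    { vpN := hvp
      fqF := hfq
      beI := hbeI
      stp := hstp
      stq := stq
      orp := orp
      orq := orq
      unp := unp
      unq := unq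
      adj := adj
      une := une }
  have hdet : ∀ e, dt (D.om e) (D.ze e) = 1 := fun e => hdt e (pc e) rfl
  have hbc : ∀ p e, D.pc e = p → ∃ m : ℕ, 0 < m ∧ D.b p e ^ m = D.c p := by
    intro p e hp
    rw [hDb e p hp]
    exact hbm e p hp
  have hhh : ∀ p e, D.pc e = p → ∀ k j : ℤ, k ≠ 0 → D.h p e ^ k ≠ D.c p ^ j := by
    intro p e hp k j hk
    rw [hDh e p hp]
    exact hhc e p hp k j hk
  refine ⟨a, b, d, K, inferInstance, D, S, vp, fq, ?_, hR⟩
  · exact
      { pg := hcP
        det := hdet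
        com := by
          intro p e hp
          rw [hDh e p hp, hDb e p hp]
          exact hcom e p hp
        bc := hbc
        hh := hhh
        ind := fun e f hef hfl => T11_ind h hR hdet hcv hbc alI e f hef hfl
        two := by
          intro q
          obtain ⟨y1, y2, hne, h1, h2⟩ := h.two (fq q) (hfq q)
          obtain ⟨e, he, he'⟩ := (adj _ _).1 h1
          obtain ⟨f, hf, hf'⟩ := (adj _ _).1 h2
          refine ⟨e, f, ?_, he, hf⟩
          rintro rfl
          exact hne (he'.symm.trans hf')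
        sep := by
          intro p e f he hf x k v hk hx
          refine T11_sep h hR ?_ hdet hhh p e f he hf x k v hk hx
          intro p z hz
          obtain ⟨k, hk⟩ := (hcV p _).1 hz
          exact ⟨k, Subtype.ext hk⟩ }

end

end VF
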