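import Pool.Agent.Lib.MP_32d917_al_vf.T01
import Pool.Agent.Lib.MP_32d917_al_adm.T12

/-!
# T12: spanning tree, normalisation

Adapt adm/T12 (`rho_ex`, `rho_le` can be imported from it).
-/

set_option autoImplicit false

namespace VF

open LatIso LatN AdmIso

section

variable {P Q E : Type} {K : P → Type} [∀ p, Group (K p)] {D : TD P Q E K} {G : Type} [Group G]
  {V : Type} [MulAction G V] {T : SimpleGraph V} {Fl : Set V}

theorem t12_adj_of_nb {S : TSy D G} {vp : P → V} {fq : Q → V} (h : VAdm G T Fl)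
    (hR : TRz D G T Fl S vp fq) {q : Q} {g : G} {u : V} (ha : T.Adj (g • fq q) u) :
    ∃ e, D.fl e = q ∧ (g * S.y e) • vp (D.pc e) = u := by
  have h1 := h.adj g⁻¹ _ _ ha
  rw [inv_smul_smul] at h1
  obtain ⟨e, he, h2⟩ := (hR.adj q (g⁻¹ • u)).1 h1
  exact ⟨e, he, by rw [mul_smul, h2, smul_inv_smul]⟩

theorem span (h : VAdm G T Fl) {S : TSy D G} {vp : P → V} {fq : Q → V} (hR : TRz D G T Fl S vp fq)
    (p0 : P) : ∃ (ep : P → E) (ef : Q → E) (rp : P → ℕ) (rq : Q → ℕ), TTr D p0 ep ef rp rq := by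
  classical
  have hq : ∀ q : Q, ∃ e : E, D.fl e = q ∧
      rho G T (vp p0) (vp (D.pc e)) < rho G T (vp p0) (fq q) := by
    intro q
    obtain ⟨g, hg⟩ := rho_ex (G := G) (T := T) (vp p0) (fq q)
    have hx : g • fq q ∈ Fl := h.flat g _ (hR.fqF q)
    have hne : g • fq q ≠ vp p0 := fun e => hR.vpN p0 (e ▸ hx)
    obtain ⟨u, hu1, hu2⟩ := st_next h.tree hne
    obtain ⟨e, he, h2⟩ := t12_adj_of_nb h hR hu1
    refine ⟨e, he, ?_⟩
    have h3 := rho_le (G := G) (T := T) (vp p0) (vp (D.pc e)) (g * S.y e)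
    rw [h2] at h3
    have h4 := st1_one hu1
    unfold Bt at hu2
    have h5 : T.dist (g • fq q) (vp p0) = T.dist (vp p0) (g • fq q) := SimpleGraph.dist_comm
    have h6 : T.dist u (vp p0) = T.dist (vp p0) u := SimpleGraph.dist_comm
    omega
  have hp : ∀ p : P, p ≠ p0 → ∃ e : E, D.pc e = p ∧
      rho G T (vp p0) (fq (D.fl e)) < rho G T (vp p0) (vp p) := by
    intro p hpp
    obtain ⟨g, hg⟩ := rho_ex (G := G) (T := T) (vp p0) (vp p)
    have hne : g • vp p ≠ vp p0 := fun e => hpp (hR.unp _ _ _ e)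
    obtain ⟨u, hu1, hu2⟩ := st_next h.tree hne
    have hx : g • vp p ∉ Fl := by
      rw [vadm_flat_iff h]
      exact hR.vpN p
    have huF : u ∈ Fl := by
      by_contra hu
      exact hx ((h.bip _ _ hu1).2 hu)
    obtain ⟨q, g', hq'⟩ := hR.orq u huF
    have hadj : T.Adj (g' • fq q) (g • vp p) := by
      rw [hq']
      exact hu1.symm
    obtain ⟨e, he, h2⟩ := t12_adj_of_nb h hR hadj
    have hpe : D.pc e = p := by
      refine hR.unp _ _ (g⁻¹ * (g' * S.y e)) ?_
      rw [mul_smul, h2, inv_smul_smul]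
    refine ⟨e, hpe, ?_⟩
    rw [he]
    have h3 := rho_le (G := G) (T := T) (vp p0) (fq q) g'
    rw [hq'] at h3
    have h4 := st1_one hu1
    unfold Bt at hu2
    have h5 : T.dist (g • vp p) (vp p0) = T.dist (vp p0) (g • vp p) := SimpleGraph.dist_comm
    have h6 : T.dist u (vp p0) = T.dist (vp p0) u := SimpleGraph.dist_comm
    omega
  choose ef hef using hq
  obtain ⟨x, hx⟩ := h.ne
  obtain ⟨q, -, -⟩ := hR.orq x hx
  have hp' : ∀ p : P, ∃ e : E, p ≠ p0 → D.pc e = p ∧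
      rho G T (vp p0) (fq (D.fl e)) < rho G T (vp p0) (vp p) := by
    intro p
    by_cases hpp : p = p0
    · exact ⟨ef q, fun h => absurd hpp h⟩
    · obtain ⟨e, he⟩ := hp p hpp
      exact ⟨e, fun _ => he⟩
  choose ep hep using hp'
  exact ⟨ep, ef, fun p => rho G T (vp p0) (vp p), fun q => rho G T (vp p0) (fq q), hep, hef⟩

theorem t12_exists_pot {p0 : P} {ep : P → E} {ef : Q → E} {rp : P → ℕ} {rq : Q → ℕ}
    (hTr : TTr D p0 ep ef rp rq) (y : E → G) : ∃ (t : P → G) (s : Q → G),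
    (∀ p, p ≠ p0 → s (D.fl (ep p)) * y (ep p) * (t p)⁻¹ = 1) ∧
    ∀ q, s q * y (ef q) * (t (D.pc (ef q)))⁻¹ = 1 := by
  classical
  let W : P ⊕ Q → ℕ := Sum.elim rp rq
  let step : (x : P ⊕ Q) → ((x' : P ⊕ Q) → (measure W).rel x' x → G) → G := fun x =>
    match x with
    | Sum.inl p => fun rec => if hp : p = p0 then 1 else
        rec (Sum.inr (D.fl (ep p))) (hTr.ep p hp).2 * y (ep p)
    | Sum.inr q => fun rec => rec (Sum.inl (D.pc (ef q))) (hTr.ef q).2 * (y (ef q))⁻¹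
  let F : P ⊕ Q → G := (measure W).wf.fix step
  have hF : ∀ x, F x = step x fun x' _ => F x' := fun x => (measure W).wf.fix_eq step x
  refine ⟨fun p => F (Sum.inl p), fun q => F (Sum.inr q), ?_, ?_⟩
  · intro p hp
    have h1 := hF (Sum.inl p)
    simp only [step, dif_neg hp] at h1
    show F (Sum.inr (D.fl (ep p))) * y (ep p) * (F (Sum.inl p))⁻¹ = 1
    rw [h1, mul_inv_cancel]
  · intro q
    have h1 := hF (Sum.inr q)
    simp only [step] at h1
    show F (Sum.inr q) * y (ef q) * (F (Sum.inl (D.pc (ef q))))⁻¹ = 1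
    rw [h1, inv_mul_cancel_right, mul_inv_cancel]

/-- change of a system by elements of the group -/
def TSy.chg (S : TSy D G) (t : P → G) (s : Q → G) : TSy D G where
  be p := (MulAut.conj (t p)).toMonoidHom.comp (S.be p)
  al q := (MulAut.conj (s q)).toMonoidHom.comp (S.al q)
  y e := s (D.fl e) * S.y e * (t (D.pc e))⁻¹
  rel p e he v := by
    subst he
    simp only [MonoidHom.coe_comp, Function.comp_apply, MulEquiv.coe_toMonoidHom,
      MulAut.conj_apply]
    have := S.rel _ e rfl v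
    calc s (D.fl e) * S.al (D.fl e) v * (s (D.fl e))⁻¹ * (s (D.fl e) * S.y e * (t (D.pc e))⁻¹)
        = s (D.fl e) * (S.al (D.fl e) v * S.y e) * (t (D.pc e))⁻¹ := by group
      _ = s (D.fl e) * S.y e * (t (D.pc e))⁻¹ *
          (t (D.pc e) * S.be (D.pc e) (D.em (D.pc e) e v) * (t (D.pc e))⁻¹) := by
        rw [this]; group

theorem t12_chg_be (S : TSy D G) (t : P → G) (s : Q → G) (p : P) (x : K p) :
    (S.chg t s).be p x = t p * S.be p x * (t p)⁻¹ := rfl

theorem t12_chg_al (S : TSy D G) (t : P → G) (s : Q → G) (q : Q) (v : A2) :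
    (S.chg t s).al q v = s q * S.al q v * (s q)⁻¹ := rfl

theorem t12_chg_y (S : TSy D G) (t : P → G) (s : Q → G) (e : E) :
    (S.chg t s).y e = s (D.fl e) * S.y e * (t (D.pc e))⁻¹ := rfl

theorem t12_chg_inj {S : TSy D G} (t : P → G) (s : Q → G) {p : P}
    (h : Function.Injective (S.be p)) : Function.Injective ((S.chg t s).be p) := by
  intro x x' hx
  rw [t12_chg_be, t12_chg_be] at hx
  exact h (mul_left_cancel (mul_right_cancel hx))

theorem t12_chg_rz (h : VAdm G T Fl) {S : TSy D G} {vp : P → V} {fq : Q → V} (hR : TRz D G T Fl S vp fq)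
    (t : P → G) (s : Q → G) :
    TRz D G T Fl (S.chg t s) (fun p => t p • vp p) (fun q => s q • fq q) where
  vpN p := by
    rw [vadm_flat_iff h]
    exact hR.vpN p
  fqF q := h.flat _ _ (hR.fqF q)
  beI p := t12_chg_inj t s (hR.beI p)
  stp p g := by
    have h1 := hR.stp p ((t p)⁻¹ * g * t p)
    constructor
    · intro hg
      obtain ⟨x, hx⟩ := h1.1 (by rw [mul_smul, mul_smul, hg, inv_smul_smul])
      exact ⟨x, by rw [t12_chg_be, hx]; group⟩
    · rintro ⟨x, hx⟩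
      rw [t12_chg_be] at hx
      have h2 := h1.2 ⟨x, by rw [← hx]; group⟩
      rw [mul_smul, mul_smul, inv_smul_eq_iff] at h2
      exact h2
  stq q g := by
    have h1 := hR.stq q ((s q)⁻¹ * g * s q)
    constructor
    · intro hg
      obtain ⟨x, hx⟩ := h1.1 (by rw [mul_smul, mul_smul, hg, inv_smul_smul])
      exact ⟨x, by rw [t12_chg_al, hx]; group⟩
    · rintro ⟨x, hx⟩
      rw [t12_chg_al] at hx
      have h2 := h1.2 ⟨x, by rw [← hx]; group⟩
      rw [mul_smul, mul_smul, inv_smul_eq_iff] at h2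
      exact h2
  orp v hv := by
    obtain ⟨p, g, hg⟩ := hR.orp v hv
    exact ⟨p, g * (t p)⁻¹, by rw [mul_smul, inv_smul_smul, hg]⟩
  orq v hv := by
    obtain ⟨q, g, hg⟩ := hR.orq v hv
    exact ⟨q, g * (s q)⁻¹, by rw [mul_smul, inv_smul_smul, hg]⟩
  unp p p' g hg := by
    refine hR.unp p p' ((t p')⁻¹ * g * t p) ?_
    rw [mul_smul, mul_smul, hg, inv_smul_smul]
  unq q q' g hg := by
    refine hR.unq q q' ((s q')⁻¹ * g * s q) ?_
    rw [mul_smul, mul_smul, hg, inv_smul_smul]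
  adj q v := by
    constructor
    · intro ha
      obtain ⟨e, he, h2⟩ := t12_adj_of_nb h hR ha
      refine ⟨e, he, ?_⟩
      rw [t12_chg_y, he]
      rw [mul_smul, mul_smul, inv_smul_smul, ← mul_smul, h2]
    · rintro ⟨e, he, h2⟩
      rw [t12_chg_y, he, mul_smul, mul_smul, inv_smul_smul] at h2
      rw [← h2]
      exact h.adj _ _ _ ((hR.adj q _).2 ⟨e, he, rfl⟩)
  une e e' he h2 := by
    rw [t12_chg_y, t12_chg_y, mul_smul, mul_smul, inv_smul_smul, mul_smul, mul_smul, inv_smul_smul,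
      he] at h2
    exact hR.une e e' he (MulAction.injective _ h2)

theorem norm (h : VAdm G T Fl) {S : TSy D G} {vp : P → V} {fq : Q → V} (hR : TRz D G T Fl S vp fq)
    {p0 : P} {ep : P → E} {ef : Q → E} {rp : P → ℕ} {rq : Q → ℕ} (hTr : TTr D p0 ep ef rp rq) :
    ∃ (S' : TSy D G) (vp' : P → V) (fq' : Q → V), TRz D G T Fl S' vp' fq' ∧ S'.Nor p0 ep ef := by
  obtain ⟨t, s, h1, h2⟩ := t12_exists_pot hTr S.y
  refine ⟨S.chg t s, _, _, t12_chg_rz h hR t s, fun p hp => ?_, fun q => ?_⟩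
  · rw [t12_chg_y, (hTr.ep p hp).1]
    exact h1 p hp
  · rw [t12_chg_y, (hTr.ef q).1]
    exact h2 q

theorem nor_sy {p0 : P} {ep : P → E} {ef : Q → E} {rp : P → ℕ} {rq : Q → ℕ}
    (hTr : TTr D p0 ep ef rp rq) (S : TSy D G) (hI : ∀ p, Function.Injective (S.be p)) :
    ∃ S' : TSy D G, S'.Nor p0 ep ef ∧ ∀ p, Function.Injective (S'.be p) := by
  obtain ⟨t, s, h1, h2⟩ := t12_exists_pot hTr S.y
  refine ⟨S.chg t s, ⟨fun p hp => ?_, fun q => ?_⟩, fun p => t12_chg_inj t s (hI p)⟩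
  · rw [t12_chg_y, (hTr.ep p hp).1]
    exact h1 p hp
  · rw [t12_chg_y, (hTr.ef q).1]
    exact h2 q

end

end VF
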