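import Pool.Agent.Lib.MP_32d917_al_vf.T07
import Pool.Agent.Lib.MP_32d917_al_vf.T12
import Pool.Agent.Lib.MP_32d917_al_adm.T13

/-!
# T13: the groups of the pieces embed

Adapt adm/T13 (`free_iso`, `free_rep` can be imported from it); `K p` is countable and infinite by `pg_count`; `em` is an injective
homomorphism for `D.pc e = p` by `em_add`, `em_inj`.
-/

set_option autoImplicit false

namespace VF

open LatIso LatN AdmIso

section

variable {P Q E : Type} {K : P → Type} [∀ p, Group (K p)] {D : TD P Q E K} {G : Type} [Group G]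

/-- `em` as a homomorphism -/
theorem t13_em (hD : D.Ok) {p : P} {e : E} (hp : D.pc e = p) :
    ∃ f : A2 →* K p, ∀ v, f v = D.em p e v :=
  ⟨MonoidHom.mk' (D.em p e) (fun v w => em_add hD hp v w), fun _ => rfl⟩

theorem t13_perm (hD : D.Ok) :
    ∃ S : TSy D (Equiv.Perm ℕ), ∀ p, Function.Injective (S.be p) := by
  have hP : ∀ p : P, ∃ (ρ : K p →* Equiv.Perm ℕ) (c : ℕ → ℕ), (∀ a x, ρ a x = x → a = 1) ∧
      (∀ a x, c (ρ a x) = c x) ∧ (Set.range c).Infinite := by
    intro p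
    obtain ⟨h1, h2⟩ := pg_count (hD.pg p)
    exact free_rep (K p)
  have hQ : ∃ (ρ : A2 →* Equiv.Perm ℕ) (c : ℕ → ℕ), (∀ a x, ρ a x = x → a = 1) ∧
      (∀ a x, c (ρ a x) = c x) ∧ (Set.range c).Infinite := by
    have : Countable A2 := inferInstanceAs (Countable (ℤ × ℤ))
    have : Infinite A2 := inferInstanceAs (Infinite (ℤ × ℤ))
    exact free_rep A2
  choose be c h1 h2 h3 using hP
  obtain ⟨al, d, k1, k2, k3⟩ := hQ
  have hy : ∀ e : E, ∃ y : Equiv.Perm ℕ, ∀ a : A2,
      al a * y = y * be (D.pc e) (D.em (D.pc e) e a) := by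
    intro e
    obtain ⟨f, hf⟩ := t13_em hD (rfl : D.pc e = D.pc e)
    obtain ⟨y, hy⟩ := free_iso al ((be (D.pc e)).comp f) k1
      (by
        intro a x hx
        have h4 := h1 (D.pc e) (f a) x hx
        apply em_inj hD (rfl : D.pc e = D.pc e)
        rw [← hf, h4, ← hf, map_one])
      d (c (D.pc e)) k2 (fun a x => h2 (D.pc e) (f a) x) k3 (h3 (D.pc e))
    refine ⟨y, fun a => ?_⟩
    rw [hy a, ← hf]
    rfl
  choose y hy' using hy
  refine ⟨{ be := be, al := fun _ => al, y := y, rel := fun p e hp v => ?_ }, ?_⟩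
  · subst hp
    exact hy' e v
  · intro p
    rw [injective_iff_map_eq_one]
    intro x hx
    have hx' : be p x = 1 := hx
    apply h1 p x 0
    rw [hx']
    rfl

theorem be_inj (hD : D.Ok) (S : TSy D G) {p0 : P} {ep : P → E} {ef : Q → E}
    {rp : P → ℕ} {rq : Q → ℕ} (hTr : TTr D p0 ep ef rp rq) (hS : TPi S p0 ep ef) (p : P) :
    Function.Injective (S.be p) := by
  obtain ⟨S0, hS0⟩ := t13_perm hD
  obtain ⟨S', hN, hI⟩ := nor_sy hTr S0 hS0
  obtain ⟨F, hF⟩ := hS.univ (Equiv.Perm ℕ) S' hN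
  intro x y hxy
  apply hI p
  rw [← hF.be p x, ← hF.be p y, hxy]

end

end VF
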