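import Pool.Agent.Lib.MP_32d917_al_vf.T01
import Pool.Agent.Lib.MP_32d917_al_adm.T15

/-!
# T15: two realisations on the same tree are equivalent

Adapt adm/T15 (`T15_iso`, `T15_eq` can be imported from it).
-/

set_option autoImplicit false

namespace VF

open LatIso LatN AdmIso

section

variable {P Q E P' Q' E' : Type} {K : P → Type} [∀ p, Group (K p)] {K' : P' → Type}
  [∀ p, Group (K' p)] {D : TD P Q E K} {D' : TD P' Q' E' K'} {G : Type} [Group G]
  {V : Type} [MulAction G V] {T : SimpleGraph V} {Fl : Set V}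

theorem cmp_group (h : VAdm G T Fl) {S : TSy D G} {vp : P → V} {fq : Q → V}
    (hR : TRz D G T Fl S vp fq) {S' : TSy D' G} {vp' : P' → V} {fq' : Q' → V}
    (hR' : TRz D' G T Fl S' vp' fq') (hi : ∀ q, Function.Injective (S.al q))
    (hi' : ∀ q, Function.Injective (S'.al q)) :
    ∃ (sp : P ≃ P') (sf : Q ≃ Q') (se : E ≃ E'), TEq D D' sp sf se := by
  obtain ⟨sp, g, hg⟩ := T15_eq (G := G) (A := vp) (B := vp')
    (fun p => by
      obtain ⟨p', k, hk⟩ := hR'.orp (vp p) (hR.vpN p)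
      exact ⟨p', k⁻¹, by rw [← hk, inv_smul_smul]⟩)
    (fun p' => by
      obtain ⟨p, k, hk⟩ := hR.orp (vp' p') (hR'.vpN p')
      exact ⟨p, k, hk⟩) hR.unp hR'.unp
  obtain ⟨sf, k, hk⟩ := T15_eq (G := G) (A := fq) (B := fq')
    (fun p => by
      obtain ⟨p', k, hk⟩ := hR'.orq (fq p) (hR.fqF p)
      exact ⟨p', k⁻¹, by rw [← hk, inv_smul_smul]⟩)
    (fun p' => by
      obtain ⟨p, k, hk⟩ := hR.orq (fq' p') (hR'.fqF p')
      exact ⟨p, k, hk⟩) hR.unq hR'.unq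
  have hse : ∀ e, ∃ e', D'.fl e' = sf (D.fl e) ∧
      S'.y e' • vp' (D'.pc e') = k (D.fl e) • S.y e • vp (D.pc e) := by
    intro e
    have h1 : T.Adj (fq (D.fl e)) (S.y e • vp (D.pc e)) := (hR.adj _ _).2 ⟨e, rfl, rfl⟩
    have h2 := h.adj (k (D.fl e)) _ _ h1
    rw [hk] at h2
    exact (hR'.adj _ _).1 h2
  choose se0 hfl hy using hse
  have hbij : Function.Bijective se0 := by
    constructor
    · intro e1 e2 he
      have h1 : D.fl e1 = D.fl e2 := by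
        apply sf.injective
        rw [← hfl, ← hfl, he]
      have h2 : k (D.fl e1) • S.y e1 • vp (D.pc e1) = k (D.fl e2) • S.y e2 • vp (D.pc e2) := by
        rw [← hy, ← hy, he]
      rw [h1] at h2
      exact hR.une e1 e2 h1 (smul_left_cancel _ h2)
    · intro e'
      have h1 : T.Adj (fq' (D'.fl e')) (S'.y e' • vp' (D'.pc e')) :=
        (hR'.adj _ _).2 ⟨e', rfl, rfl⟩
      have h0 : fq' (D'.fl e') = k (sf.symm (D'.fl e')) • fq (sf.symm (D'.fl e')) := by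
        rw [hk, Equiv.apply_symm_apply]
      have h2 := h.adj (k (sf.symm (D'.fl e')))⁻¹ _ _ h1
      rw [h0, inv_smul_smul] at h2
      obtain ⟨e, he1, he2⟩ := (hR.adj _ _).1 h2
      refine ⟨e, hR'.une _ _ ?_ ?_⟩
      · rw [hfl, he1, Equiv.apply_symm_apply]
      · rw [hy, he1, he2, smul_inv_smul]
  have hpc : ∀ e, D'.pc (se0 e) = sp (D.pc e) := by
    intro e
    apply hR'.unp _ _ (g (D.pc e) * (S.y e)⁻¹ * (k (D.fl e))⁻¹ * S'.y (se0 e))
    rw [mul_smul, hy, mul_smul, mul_smul, inv_smul_smul, inv_smul_smul, hg]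
  have hΦ : ∀ p, ∃ Φ : K p ≃* K' (sp p),
      ∀ x, S'.be (sp p) (Φ x) = g p * S.be p x * (g p)⁻¹ := by
    intro p
    apply T15_iso (hR.beI p) (hR'.beI (sp p))
    intro x
    rw [← hR.stp, ← hR'.stp, ← hg, mul_smul, inv_smul_smul, mul_smul, smul_left_cancel_iff]
  have hΨ : ∀ q, ∃ Ψ : A2 ≃* A2, ∀ x, S'.al (sf q) (Ψ x) = k q * S.al q x * (k q)⁻¹ := by
    intro q
    apply T15_iso (hi q) (hi' (sf q))
    intro x
    rw [← hR.stq, ← hR'.stq, ← hk, mul_smul, inv_smul_smul, mul_smul, smul_left_cancel_iff]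
  choose Φ hΦ using hΦ
  choose Ψ hΨ using hΨ
  have hκ : ∀ p e, ∃ x : K p, D.pc e = p →
      S.be p x = (g p)⁻¹ * (S'.y (se0 e))⁻¹ * k (D.fl e) * S.y e := by
    intro p e
    by_cases hp : D.pc e = p
    · have h1 : ((g p)⁻¹ * (S'.y (se0 e))⁻¹ * k (D.fl e) * S.y e) • vp p = vp p := by
        rw [mul_smul, mul_smul, mul_smul]
        have h2 := hy e
        rw [hpc, hp] at h2
        rw [← h2, inv_smul_smul, ← hg, inv_smul_smul]
      obtain ⟨x, hx⟩ := (hR.stp p _).1 h1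
      exact ⟨x, fun _ => hx⟩
    · exact ⟨1, fun hp' => absurd hp' hp⟩
  choose κ hκ using hκ
  refine ⟨sp, sf, Equiv.ofBijective se0 hbij, ⟨hpc, hfl, Φ, Ψ, κ, ?_⟩⟩
  intro p e v hp
  apply hR'.beI (sp p)
  have hpc' : D'.pc (se0 e) = sp p := by rw [hpc, hp]
  have h1 := S'.rel (sp p) (se0 e) hpc' (Ψ (D.fl e) v)
  have h2 := S.rel p e hp v
  have h3 := hκ p e hp
  rw [hfl, hΨ] at h1
  show S'.be (sp p) (D'.em (sp p) (se0 e) (Ψ (D.fl e) v)) = _
  rw [map_mul, map_mul, map_inv, hΦ, hΦ, h3]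
  have h4 : S'.be (sp p) (D'.em (sp p) (se0 e) (Ψ (D.fl e) v)) =
      (S'.y (se0 e))⁻¹ * (k (D.fl e) * S.al (D.fl e) v * (k (D.fl e))⁻¹ * S'.y (se0 e)) := by
    rw [h1]
    group
  have h5 : S.al (D.fl e) v = S.y e * S.be p (D.em p e v) * (S.y e)⁻¹ := by
    rw [← h2]
    group
  rw [h4, h5]
  group

end

end VF
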