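import Pool.Agent.Lib.MP_32d917_al_vf.T07
import Pool.Agent.Lib.MP_32d917_al_adm.T14

/-!
# T17: equivalence in terms of groups and of numbers

`num_of_group`: let `Φ, Ψ, κ` be as in `TEq`, `de q` the determinant of `Ψ q` (`det_aut` in adm/T14). For an edge `e`, `p = pc e`, let
`b ^ m = c`, `b' ^ m' = c'` (`bc`), so `c = em (m ze)`, `c' = em' (m' ze')`. By `pg_iso` `Φ c = c' ^ (±1)`, and conjugation by any
element maps `c'` to `c' ^ (±1)` (`nrm`); so `em' (Ψ (m ze)) = em' (± m' ze')` and `m Ψ(ze) = ± m' ze'` (`em_inj`). `ze'` and `Ψ(ze)` are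
primitive (`det`; `Ψ` is an automorphism), so `m = m'` and `Ψ(ze) = sg ze'` with `sg = ±1`. Put `ta e = dt om' (Ψ om)`; from
`dt (Ψ om) (Ψ ze) = de` we get `dt (Ψ om) ze' = de sg`, so `Ψ om = de sg om' + ta ze'` (`exp_v`). `del`, `tau`: `num_of_psi` with `ε₁ = sg e`,
`ε₂ = sg f`. `pp`: `θ = Φ p`, `g = (Φ κ)⁻¹`: `Φ h = Φ (em om) = g em'(Ψ om) g⁻¹ = g h' ^ (de sg) b' ^ ta g⁻¹`,
`Φ b = g em'(sg ze') g⁻¹ = g b' ^ sg g⁻¹`.

`group_of_num`: `Φ p = θ` of `pp`, `κ p e` with `Φ κ = g⁻¹`. `Ψ q` from `psi_of_num` (adm/T14) for the set of the edges at `q` (it has two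
different elements by `two`), with `ε = sg`, `t = ta`. Then `em'(Ψ v)`: write `v = dt v ze om + dt om v ze`
(`exp_v`), `Ψ v = dt v ze (de sg om' + ta ze') + dt om v sg ze'`, `em'(Ψ v) = (h' ^ (de sg) b' ^ ta) ^ (dt v ze) (b' ^ sg) ^ (dt om v)
= g⁻¹ Φ(h ^ dt v ze b ^ dt om v) g`.
-/

set_option autoImplicit false

namespace VF

open LatIso LatN AdmIso

section

variable {P Q E P' Q' E' : Type} {K : P → Type} [∀ p, Group (K p)] {K' : P' → Type}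
  [∀ p, Group (K' p)] {D : TD P Q E K} {D' : TD P' Q' E' K'}

/-- the additive automorphism given by an automorphism of `A2` -/
private def t17_adA (Ψ : A2 ≃* A2) : (ℤ × ℤ) ≃+ (ℤ × ℤ) where
  toFun v := (Ψ (Multiplicative.ofAdd v)).toAdd
  invFun v := (Ψ.symm (Multiplicative.ofAdd v)).toAdd
  left_inv v := by simp
  right_inv v := by simp
  map_add' u v := by simp [ofAdd_add]

private theorem t17_adA_apply (Ψ : A2 ≃* A2) (v : ℤ × ℤ) :
    t17_adA Ψ v = (Ψ (Multiplicative.ofAdd v)).toAdd := rfl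

/-- the automorphism of `A2` given by an additive automorphism -/
private def t17_mA (Ψ : (ℤ × ℤ) ≃+ (ℤ × ℤ)) : A2 ≃* A2 where
  toFun v := Multiplicative.ofAdd (Ψ v.toAdd)
  invFun v := Multiplicative.ofAdd (Ψ.symm v.toAdd)
  left_inv v := by simp
  right_inv v := by simp
  map_mul' u v := by simp [ofAdd_add]

private theorem t17_mA_toAdd (Ψ : (ℤ × ℤ) ≃+ (ℤ × ℤ)) (v : A2) :
    (t17_mA Ψ v).toAdd = Ψ v.toAdd := rfl

private theorem t17_em_om (hD : D.Ok) (p : P) (e : E) :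
    D.em p e (Multiplicative.ofAdd (D.om e)) = D.h p e := by
  unfold TD.em
  rw [toAdd_ofAdd, hD.det e, dt_same, zpow_one, zpow_zero, mul_one]

private theorem t17_em_ze (hD : D.Ok) (p : P) (e : E) :
    D.em p e (Multiplicative.ofAdd (D.ze e)) = D.b p e := by
  unfold TD.em
  rw [toAdd_ofAdd, hD.det e, dt_same, zpow_one, zpow_zero, one_mul]

private theorem t17_conj {K : Type} [Group K] {c : K}
    (hn : ∀ x : K, x * c * x⁻¹ = c ∨ x * c * x⁻¹ = c⁻¹) (x d : K) (hd : d = c ∨ d = c⁻¹) :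
    ∃ s : ℤˣ, x * d * x⁻¹ = c ^ (s : ℤ) := by
  rcases hd with rfl | rfl
  · rcases hn x with h | h
    · exact ⟨1, by rw [h]; simp⟩
    · exact ⟨-1, by rw [h]; simp⟩
  · have e : x * c⁻¹ * x⁻¹ = (x * c * x⁻¹)⁻¹ := by group
    rcases hn x with h | h
    · exact ⟨-1, by rw [e, h]; simp⟩
    · exact ⟨1, by rw [e, h]; simp⟩

private theorem t17_dvd {m m' s δ a : ℤ} (hm : 0 < m) (hm' : 0 < m') (hδ : δ * δ = 1)
    (h1 : m * δ = s * m' * a) (x : ℤ) (h2 : m * x = s * m') (hs : s * s = 1) : m = m' := by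
  have d1 : m' ∣ m := ⟨s * a * δ, by linear_combination δ * h1 - m * hδ⟩
  have d2 : m ∣ m' := ⟨s * x, by linear_combination (-s) * h2 - m' * hs⟩
  exact Int.dvd_antisymm hm.le hm'.le d2 d1

private theorem t17_key (hD : D.Ok) (hD' : D'.Ok) {sp : P ≃ P'} {se : E ≃ E'} (p : P) (e : E)
    (hp : D.pc e = p) (hp' : D'.pc (se e) = sp p) (Φ : K p ≃* K' (sp p)) (Ψ : A2 ≃* A2)
    (δ : ℤˣ) (hδ : ∀ u v, dt (t17_adA Ψ u) (t17_adA Ψ v) = (δ : ℤ) * dt u v) (k : K p)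
    (hex : ∀ v, D'.em (sp p) (se e) (Ψ v) = Φ k * Φ (D.em p e v) * (Φ k)⁻¹) :
    ∃ s : ℤˣ, t17_adA Ψ (D.ze e) = (s : ℤ) • D'.ze (se e) ∧
      dt (t17_adA Ψ (D.om e)) (D'.ze (se e)) = (δ : ℤ) * (s : ℤ) := by
  obtain ⟨m, hm, hc⟩ := em_c (p := p) (e := e) hD hp
  obtain ⟨m', hm', hc'⟩ := em_c (p := sp p) (e := se e) hD' hp'
  obtain ⟨s, hs⟩ := t17_conj (hD'.pg (sp p)).nrm (Φ k) (Φ (D.c p))
    (pg_iso (hD.pg p) (hD'.pg (sp p)) Φ)
  have h1 := hex (Multiplicative.ofAdd ((m : ℤ) • D.ze e))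
  rw [hc, hs, ← hc'] at h1
  have h2 : D'.em (sp p) (se e) (Multiplicative.ofAdd ((m' : ℤ) • D'.ze (se e))) ^ (s : ℤ) =
      D'.em (sp p) (se e) (Multiplicative.ofAdd ((((s : ℤ) * m') : ℤ) • D'.ze (se e))) := by
    rw [em_ze (p := sp p) (e := se e) hD', em_ze (p := sp p) (e := se e) hD', ← zpow_mul,
      mul_comm]
  rw [h2] at h1
  have h3 := em_inj (p := sp p) (e := se e) hD' hp' h1
  have h4 : t17_adA Ψ ((m : ℤ) • D.ze e) = ((s : ℤ) * m') • D'.ze (se e) := by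
    rw [t17_adA_apply, h3, toAdd_ofAdd]
  rw [map_zsmul] at h4
  have hss := um s
  have hδδ := um δ
  have a1 : (m : ℤ) * (δ : ℤ) = (s : ℤ) * m' * dt (t17_adA Ψ (D.om e)) (D'.ze (se e)) := by
    have := hδ (D.om e) (D.ze e)
    rw [hD.det e, mul_one] at this
    rw [← this, ← dt_smul_r, h4, dt_smul_r]
  have a2 : (m : ℤ) * dt (D'.om (se e)) (t17_adA Ψ (D.ze e)) = (s : ℤ) * m' := by
    rw [← dt_smul_r, h4, dt_smul_r, hD'.det (se e), mul_one]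
  have hmm : (m : ℤ) = m' := t17_dvd (by exact_mod_cast hm) (by exact_mod_cast hm') hδδ a1 _ a2 hss
  have hm0 : (m : ℤ) ≠ 0 := by exact_mod_cast hm.ne'
  have h5 : t17_adA Ψ (D.ze e) = (s : ℤ) • D'.ze (se e) := by
    rw [← hmm] at h4
    have c1 := congrArg Prod.fst h4
    have c2 := congrArg Prod.snd h4
    simp only [Prod.smul_fst, Prod.smul_snd, smul_eq_mul] at c1 c2
    ext
    · simp only [Prod.smul_fst, smul_eq_mul]
      apply mul_left_cancel₀ hm0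
      linear_combination c1
    · simp only [Prod.smul_snd, smul_eq_mul]
      apply mul_left_cancel₀ hm0
      linear_combination c2
  refine ⟨s, h5, ?_⟩
  have := hδ (D.om e) (D.ze e)
  rw [h5, dt_smul_r, hD.det e, mul_one] at this
  linear_combination (s : ℤ) * this - (dt (t17_adA Ψ (D.om e)) (D'.ze (se e))) * hss

theorem num_of_group (hD : D.Ok) (hD' : D'.Ok) {sp : P ≃ P'} {sf : Q ≃ Q'} {se : E ≃ E'}
    (h : TEq D D' sp sf se) :
    ∃ (sg : E → ℤˣ) (de : Q → ℤˣ) (ta : E → ℤ), TNum D D' sp sf se sg de ta := by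
  obtain ⟨Φ, Ψ, κ, hex⟩ := h.ex
  choose δ hδ using fun q => det_aut (t17_adA (Ψ q))
  have hkey : ∀ e, ∃ s : ℤˣ, t17_adA (Ψ (D.fl e)) (D.ze e) = (s : ℤ) • D'.ze (se e) ∧
      dt (t17_adA (Ψ (D.fl e)) (D.om e)) (D'.ze (se e)) = (δ (D.fl e) : ℤ) * (s : ℤ) := by
    intro e
    exact t17_key hD hD' (D.pc e) e rfl (h.pc e) (Φ (D.pc e)) (Ψ (D.fl e)) (δ (D.fl e))
      (hδ (D.fl e)) (κ (D.pc e) e) (fun v => hex (D.pc e) e v rfl)
  choose sg hsg1 hsg2 using hkey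
  set ta : E → ℤ := fun e => dt (D'.om (se e)) (t17_adA (Ψ (D.fl e)) (D.om e)) with hta
  have hom : ∀ e, t17_adA (Ψ (D.fl e)) (D.om e) =
      ((δ (D.fl e) * sg e : ℤˣ) : ℤ) • D'.om (se e) + ta e • D'.ze (se e) := by
    intro e
    conv_lhs => rw [exp_v (hD'.det (se e)) (t17_adA (Ψ (D.fl e)) (D.om e))]
    rw [hsg2 e, Units.val_mul]
  refine ⟨sg, δ, ta, h.pc, h.fl, ?_, ?_, ?_⟩
  · intro e f hef
    have h1 := hsg1 f
    rw [← hef] at h1
    exact (num_of_psi (t17_adA (Ψ (D.fl e))) (δ (D.fl e)) (sg e) (sg f) (ta e) (D.ze e)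
      (D.om e) (D.ze f) (D'.ze (se e)) (D'.om (se e)) (D'.ze (se f)) (hD.det e)
      (hD'.det (se e)) (hsg1 e) (hom e) h1).1
  · intro e f hef _
    have h1 := hsg1 f
    rw [← hef] at h1
    exact (num_of_psi (t17_adA (Ψ (D.fl e))) (δ (D.fl e)) (sg e) (sg f) (ta e) (D.ze e)
      (D.om e) (D.ze f) (D'.ze (se e)) (D'.om (se e)) (D'.ze (se f)) (hD.det e)
      (hD'.det (se e)) (hsg1 e) (hom e) h1).2
  · intro p
    refine ⟨Φ p, ?_⟩
    intro e he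
    refine ⟨(Φ p (κ p e))⁻¹, ?_, ?_⟩
    · have h1 := hex p e (Multiplicative.ofAdd (D.om e)) he
      rw [t17_em_om hD] at h1
      have h2 : D'.em (sp p) (se e) (Ψ (D.fl e) (Multiplicative.ofAdd (D.om e))) =
          D'.h (sp p) (se e) ^ ((δ (D.fl e) * sg e : ℤˣ) : ℤ) * D'.b (sp p) (se e) ^ ta e := by
        unfold TD.em
        rw [← t17_adA_apply, hsg2 e, Units.val_mul]
      rw [h2] at h1
      rw [h1]
      group
    · have h1 := hex p e (Multiplicative.ofAdd (D.ze e)) he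
      rw [t17_em_ze hD] at h1
      have h2 : D'.em (sp p) (se e) (Ψ (D.fl e) (Multiplicative.ofAdd (D.ze e))) =
          D'.b (sp p) (se e) ^ ((sg e : ℤˣ) : ℤ) := by
        unfold TD.em
        rw [← t17_adA_apply, hsg1 e, dt_smul_l, dt_same, mul_zero, zpow_zero, one_mul, dt_smul_r,
          hD'.det (se e), mul_one]
      rw [h2] at h1
      rw [h1]
      group

private theorem t17_pow {K : Type} [Group K] {x y g a b : K} (hxy : x * y = y * x) (i j k l n : ℤ)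
    (ha : a = g * (x ^ i * y ^ j) * g⁻¹) (hb : b = g * y ^ k * g⁻¹) :
    x ^ (l * i) * y ^ (l * j + n * k) = g⁻¹ * (a ^ l * b ^ n) * g⁻¹⁻¹ := by
  rw [ha, hb, conj_zpow, conj_zpow]
  have hc : Commute x y := hxy
  have h1 : (x ^ i * y ^ j) ^ l = x ^ (l * i) * y ^ (l * j) := by
    rw [(hc.zpow_zpow i j).mul_zpow, ← zpow_mul, ← zpow_mul, mul_comm i, mul_comm j]
  rw [h1, ← zpow_mul, zpow_add, mul_comm k n]
  group

theorem group_of_num (hD : D.Ok) (hD' : D'.Ok) {sp : P ≃ P'} {sf : Q ≃ Q'} {se : E ≃ E'}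
    {sg : E → ℤˣ} {de : Q → ℤˣ} {ta : E → ℤ} (h : TNum D D' sp sf se sg de ta) :
    TEq D D' sp sf se := by
  classical
  choose Φ hΦ using h.pp
  have hPsi : ∀ q, ∃ Ψ : (ℤ × ℤ) ≃+ (ℤ × ℤ), (∀ u v, dt (Ψ u) (Ψ v) = (de q : ℤ) * dt u v) ∧
      ∀ e, D.fl e = q → Ψ (D.ze e) = (sg e : ℤ) • D'.ze (se e) ∧
        Ψ (D.om e) = ((de q * sg e : ℤˣ) : ℤ) • D'.om (se e) + ta e • D'.ze (se e) := by
    intro q
    obtain ⟨e, f, hef, he, hf⟩ := hD.two q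
    obtain ⟨Ψ, h1, h2⟩ := psi_of_num (I := {e // D.fl e = q}) ⟨e, he⟩ ⟨f, hf⟩
      (fun hh => hef (congrArg Subtype.val hh)) (fun i => D.ze i.1) (fun i => D.om i.1)
      (fun i => D'.ze (se i.1)) (fun i => D'.om (se i.1)) (de q) (fun i => sg i.1)
      (fun i => ta i.1) (fun i => hD.det i.1)
      (fun i => hD'.det (se i.1))
      (fun i j hij => hD.ind i.1 j.1 (fun hh => hij (Subtype.ext hh)) (i.2.trans j.2.symm))
      (fun i j => by
        have := h.del i.1 j.1 (i.2.trans j.2.symm)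
        rw [i.2] at this
        exact this)
      (fun i j hij => h.tau i.1 j.1 (i.2.trans j.2.symm)
        (fun hh => hij (Subtype.ext hh)))
    exact ⟨Ψ, h1, fun e he => h2 ⟨e, he⟩⟩
  choose Ψ hΨ1 hΨ2 using hPsi
  have hκ : ∀ p e, ∃ k : K p, D.pc e = p →
      Φ p (D.h p e) = (Φ p k)⁻¹ * (D'.h (sp p) (se e) ^ ((de (D.fl e) * sg e : ℤˣ) : ℤ) *
        D'.b (sp p) (se e) ^ ta e) * (Φ p k)⁻¹⁻¹ ∧
      Φ p (D.b p e) = (Φ p k)⁻¹ * D'.b (sp p) (se e) ^ ((sg e : ℤˣ) : ℤ) * (Φ p k)⁻¹⁻¹ := by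
    intro p e
    by_cases hp : D.pc e = p
    · obtain ⟨g, hg1, hg2⟩ := hΦ p e hp
      refine ⟨(Φ p).symm g⁻¹, fun _ => ?_⟩
      rw [MulEquiv.apply_symm_apply, inv_inv]
      exact ⟨hg1, hg2⟩
    · exact ⟨1, fun hh => absurd hh hp⟩
  choose κ hκ using hκ
  refine ⟨h.pc, h.fl, Φ, fun q => t17_mA (Ψ q), κ, ?_⟩
  intro p e v hp
  obtain ⟨k1, k2⟩ := hκ p e hp
  obtain ⟨p1, p2⟩ := hΨ2 (D.fl e) e rfl
  have hp' : D'.pc (se e) = sp p := by rw [h.pc, hp]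
  have hv : Ψ (D.fl e) v.toAdd = dt v.toAdd (D.ze e) •
      (((de (D.fl e) * sg e : ℤˣ) : ℤ) • D'.om (se e) + ta e • D'.ze (se e)) +
      dt (D.om e) v.toAdd • ((sg e : ℤ) • D'.ze (se e)) := by
    conv_lhs => rw [exp_v (hD.det e) v.toAdd]
    rw [map_add, map_zsmul, map_zsmul, p1, p2]
  have hv1 : dt (Ψ (D.fl e) v.toAdd) (D'.ze (se e)) =
      dt v.toAdd (D.ze e) * ((de (D.fl e) * sg e : ℤˣ) : ℤ) := by
    rw [hv]
    simp only [dt_add_l, dt_smul_l, dt_same, hD'.det (se e)]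
    ring
  have hv2 : dt (D'.om (se e)) (Ψ (D.fl e) v.toAdd) =
      dt v.toAdd (D.ze e) * ta e + dt (D.om e) v.toAdd * (sg e : ℤ) := by
    rw [hv]
    simp only [dt_add_r, dt_smul_r, dt_same, hD'.det (se e)]
    ring
  have h1 := t17_pow (hD'.com (sp p) (se e) hp') _ _ _ (dt v.toAdd (D.ze e))
    (dt (D.om e) v.toAdd) k1 k2
  unfold TD.em
  rw [t17_mA_toAdd, hv1, hv2, h1, map_mul, map_zpow, map_zpow]
  simp only [inv_inv]

end

end VF
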