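import Pool.Agent.Lib.MP_32d917_al_vf.TDefs

/-!
# T18: transport

Adapt `isPi_map` of adm/T18.
-/

set_option autoImplicit false

namespace VF

open LatIso LatN AdmIso

section

variable {P Q E : Type} {K : P → Type} [∀ p, Group (K p)] {D : TD P Q E K} {G : Type} [Group G]

theorem isPi_map {H : Type} [Group H] {S : TSy D G} {p0 : P} {ep : P → E} {ef : Q → E}
    (h : TPi S p0 ep ef) (e : G ≃* H) : ∃ S' : TSy D H, TPi S' p0 ep ef := by
  refine ⟨⟨fun p => e.toMonoidHom.comp (S.be p), fun q => e.toMonoidHom.comp (S.al q),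
    fun x => e (S.y x), ?_⟩, ⟨?_, ?_⟩, ?_, ?_⟩
  · intro p x hx v
    show e (S.al (D.fl x) v) * e (S.y x) = e (S.y x) * e (S.be p (D.em p x v))
    rw [← map_mul, ← map_mul, S.rel p x hx v]
  · intro p hp
    show e (S.y (ep p)) = 1
    rw [h.nor.1 p hp, map_one]
  · intro q
    show e (S.y (ef q)) = 1
    rw [h.nor.2 q, map_one]
  · have h1 := congrArg (Subgroup.map e.toMonoidHom) h.gen
    rw [MonoidHom.map_closure, Subgroup.map_top_of_surjective _ e.surjective] at h1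
    unfold TSy.Gen
    rw [← h1]
    congr 1
    ext y
    simp only [Set.mem_union, Set.mem_ofPred_eq, Set.mem_range, Set.mem_image]
    constructor
    · rintro ((⟨p, x, rfl⟩ | ⟨q, v, rfl⟩) | ⟨x, rfl⟩)
      · exact ⟨S.be p x, Or.inl (Or.inl ⟨p, x, rfl⟩), rfl⟩
      · exact ⟨S.al q v, Or.inl (Or.inr ⟨q, v, rfl⟩), rfl⟩
      · exact ⟨S.y x, Or.inr ⟨x, rfl⟩, rfl⟩
    · rintro ⟨g, (⟨p, x, rfl⟩ | ⟨q, v, rfl⟩) | ⟨x, rfl⟩, rfl⟩
      · exact Or.inl (Or.inl ⟨p, x, rfl⟩)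
      · exact Or.inl (Or.inr ⟨q, v, rfl⟩)
      · exact Or.inr ⟨x, rfl⟩
  · intro L _ S'' hS''
    obtain ⟨F, hF⟩ := h.univ L S'' hS''
    refine ⟨F.comp e.symm.toMonoidHom, ⟨?_, ?_, ?_⟩⟩
    · intro p x
      show F (e.symm (e (S.be p x))) = S''.be p x
      rw [e.symm_apply_apply, hF.be]
    · intro q v
      show F (e.symm (e (S.al q v))) = S''.al q v
      rw [e.symm_apply_apply, hF.al]
    · intro x
      show F (e.symm (e (S.y x))) = S''.y x
      rw [e.symm_apply_apply, hF.y]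

end

end VF
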