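import Pool.Agent.Lib.MP_32d917_al.Final
import Pool.Agent.Lib.MP_32d917_al_vf.T08
import Pool.Agent.Lib.MP_32d917_al_vf.T09
import Pool.Agent.Lib.MP_32d917_al_vf.T11
import Pool.Agent.Lib.MP_32d917_al_vf.T12
import Pool.Agent.Lib.MP_32d917_al_vf.T13
import Pool.Agent.Lib.MP_32d917_al_vf.T15
import Pool.Agent.Lib.MP_32d917_al_vf.T16
import Pool.Agent.Lib.MP_32d917_al_vf.T17
import Pool.Agent.Lib.MP_32d917_al_vf.T18
import Pool.Agent.Lib.MP_32d917_al_vf.F01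
import Pool.Agent.Lib.MP_32d917_al_vf.F02
import Pool.Agent.Lib.MP_32d917_al_vf.F03
import Pool.Agent.Lib.MP_32d917_al_vf.F04
import Pool.Agent.Lib.MP_32d917_al_vf.F05
import Pool.Agent.Lib.MP_32d917_al_vf.F08

/-!
# F09: the isomorphism problem: assembly
-/

set_option autoImplicit false
set_option synthInstance.maxSize 2000

namespace VF

open LatIso LatN AdmIso

theorem codeFor_re {f : Cd → Pres} (hf : Primrec f) :
    REPred fun x : Pres × Cd => CodeFor f x.1 x.2 := by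
  refine re_and (re_comp cval_re (f := fun x : Pres × Cd => x.2) Primrec.snd.to_comp) ?_
  exact re_comp iso_re (f := fun x : Pres × Cd => (x.1, f x.2))
    (Primrec.pair Primrec.fst (hf.comp Primrec.snd)).to_comp

theorem noCert_re {f : Cd → Pres} (hf : Primrec f) :
    REPred fun x : Pres × Pres => NoCert f x.1 x.2 := by
  have h1 := re_comp (codeFor_re hf) (f := fun x : (Pres × Pres) × (Cd × Cd) => (x.1.1, x.2.1))
    (Primrec.pair (Primrec.fst.comp Primrec.fst) (Primrec.fst.comp Primrec.snd)).to_comp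
  have h2 := re_comp (codeFor_re hf) (f := fun x : (Pres × Pres) × (Cd × Cd) => (x.1.2, x.2.2))
    (Primrec.pair (Primrec.snd.comp Primrec.fst) (Primrec.snd.comp Primrec.snd)).to_comp
  have h3 := re_comp nGood_re (f := fun x : (Pres × Pres) × (Cd × Cd) => x.2) Primrec.snd.to_comp
  exact re_exists (p := fun (x : Pres × Pres) (z : Cd × Cd) =>
    CodeFor f x.1 z.1 ∧ CodeFor f x.2 z.2 ∧ ∀ t : Mt, InB z.1 t → NGood z.1 z.2 t)
    (re_and h1 (re_and h2 h3))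

section

variable {G : Type} [Group G] {V : Type} [MulAction G V] {T : SimpleGraph V} {Fl : Set V}

/-- the code is realised on every admissible action -/
theorem real_code {f : Cd → Pres} (hf : IsF f) {c : Cd} (hc : CVal c) (e : G ≃* (f c).Grp)
    (h : VAdm G T Fl) : ∃ (S : TSy (toTD c) G) (vp : Fin (nP c + 1) → V) (fq : Fin (nQ c + 1) → V),
      TRz (toTD c) G T Fl S vp fq := by
  have hV := toTD_ok hc
  have hTr := toTD_tr hc
  obtain ⟨S0, hS0⟩ := pres_pi hV (hf c)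
  obtain ⟨S, hS⟩ := isPi_map hS0 e.symm
  have hI : ∀ p, Function.Injective (S.be p) := be_inj hV S hTr hS
  obtain ⟨vp, fq, hR⟩ := real h hV S hTr hS.nor hS.gen hI
  exact ⟨S, vp, fq, hR⟩

/-- a realised code presents the group -/
theorem iso_code {f : Cd → Pres} (hf : IsF f) {c : Cd} (hc : CVal c) (h : VAdm G T Fl)
    {S : TSy (toTD c) G} {vp : Fin (nP c + 1) → V} {fq : Fin (nQ c + 1) → V}
    (hR : TRz (toTD c) G T Fl S vp fq) : Nonempty (G ≃* (f c).Grp) := by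
  have hV := toTD_ok hc
  have hTr := toTD_tr hc
  obtain ⟨S', vp', fq', hR', hN'⟩ := norm h hR hTr
  obtain ⟨S0, hS0⟩ := pres_pi hV (hf c)
  obtain ⟨F, hF⟩ := hS0.univ G S' hN'
  have hb := pi_iso h.tree h.adj h.bip (fun g x => vadm_flat_iff h g x) hR' hTr S0 hS0.nor
    hS0.gen F hF
  exact ⟨(MulEquiv.ofBijective F hb).symm⟩

theorem codeFor_exists {f : Cd → Pres} (hf : IsF f) (P : Pres) (hP : IsVAdm P.Grp) :
    ∃ c, CodeFor f P c := by
  obtain ⟨V, _, T, Fl, h⟩ := hP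
  obtain ⟨a, b, d, K, _, D, S, vp, fq, hD, hR⟩ := quot h
  obtain ⟨ep, ef, rp, rq, hTr⟩ := span h hR (0 : Fin (a + 1))
  obtain ⟨c, hc, sp, sf, se, hE⟩ := code_data D hD hTr
  obtain ⟨S', vp', fq', hR'⟩ := transfer h hR hE
  exact ⟨c, hc, iso_code hf hc h hR'⟩

end

theorem noCert_sound {f : Cd → Pres} (hf : IsF f) (P Q : Pres) (hP : IsVAdm P.Grp)
    (h : NoCert f P Q) : ¬ Nonempty (P.Grp ≃* Q.Grp) := by
  rintro ⟨e⟩
  obtain ⟨V, _, T, Fl, hA⟩ := hP
  obtain ⟨⟨c, c'⟩, ⟨v, ⟨i⟩⟩, ⟨v', ⟨i'⟩⟩, hno⟩ := h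
  simp only at v i v' i' hno
  obtain ⟨S, vp, fq, hR⟩ := real_code hf v i hA
  obtain ⟨S', vp', fq', hR'⟩ := real_code hf v' (e.trans i') hA
  have hV := toTD_ok v
  have hV' := toTD_ok v'
  obtain ⟨sp, sf, se, hG⟩ := cmp_group hA hR hR' (al_inj hV S hR.beI) (al_inj hV' S' hR'.beI)
  obtain ⟨sg, de, ta, hE⟩ := num_of_group hV hV' hG
  obtain ⟨t, ht, hg⟩ := num_mat v v' hE
  exact hg (hno t ht)

theorem noCert_complete {f : Cd → Pres} (hf : IsF f) (P Q : Pres) (hP : IsVAdm P.Grp)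
    (hQ : IsVAdm Q.Grp) (h : ¬ Nonempty (P.Grp ≃* Q.Grp)) : NoCert f P Q := by
  obtain ⟨c, v, ⟨i⟩⟩ := codeFor_exists hf P hP
  obtain ⟨c', v', ⟨i'⟩⟩ := codeFor_exists hf Q hQ
  refine ⟨(c, c'), ⟨v, ⟨i⟩⟩, ⟨v', ⟨i'⟩⟩, ?_⟩
  intro t ht
  by_contra hg
  apply h
  obtain ⟨V, _, T, Fl, hA⟩ := hP
  obtain ⟨S, vp, fq, hR⟩ := real_code hf v i hA
  obtain ⟨sp, sf, se, sg, de, ta, hE⟩ := mat_num v v' hg
  have hV := toTD_ok v
  have hV' := toTD_ok v'
  have hG := group_of_num hV hV' hE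
  obtain ⟨S', vp', fq', hR'⟩ := transfer hA hR hG
  obtain ⟨j⟩ := iso_code hf v' hA hR'
  exact ⟨j.trans i'.symm⟩

/-- The isomorphism problem is solvable for groups with admissible actions. -/
theorem final : ∃ f : Pres × Pres →. Bool, Partrec f ∧ ∀ P Q : Pres,
    IsVAdm P.Grp → IsVAdm Q.Grp → ∃ b ∈ f (P, Q), (b = true ↔ Nonempty (P.Grp ≃* Q.Grp)) := by
  obtain ⟨g, hg, hg'⟩ := isF_exists
  obtain ⟨f, hf, h1, h2, h3⟩ := par_search iso_re (noCert_re hg)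
  refine ⟨f, hf, fun P Q hP hQ => ?_⟩
  have g2 : true ∈ f (P, Q) → Nonempty (P.Grp ≃* Q.Grp) := fun h => h2 (P, Q) h
  have g3 : false ∈ f (P, Q) → NoCert g P Q := fun h => h3 (P, Q) h
  have hd : (f (P, Q)).Dom := by
    apply h1
    by_cases h : Nonempty (P.Grp ≃* Q.Grp)
    · exact Or.inl h
    · exact Or.inr (noCert_complete hg' P Q hP hQ h)
  refine ⟨(f (P, Q)).get hd, Part.get_mem hd, ?_⟩
  have hm := Part.get_mem hd
  rcases hb : (f (P, Q)).get hd with _ | _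
  · rw [hb] at hm
    have h4 := noCert_sound hg' P Q hP (g3 hm)
    exact ⟨fun h => by simp at h, fun h => absurd h h4⟩
  · rw [hb] at hm
    exact ⟨fun _ => g2 hm, fun _ => rfl⟩

end VF
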