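import Pool.Agent.Lib.MP_32d917_al_vf.G01

/-!
# G02: finite quotients

`sep_ne`: the tables give permutations of `Fin (n + 1)` for `j < P.1` (inverse each other), put the identity for `j ≥ P.1`: a homomorphism
`φ : FreeGroup ℕ →* Equiv.Perm (Fin (n + 1))` with `φ (mk w) x = wact P.1 n T T' w x` (induction on `w`; the first letter acts last, `foldr`).
It kills the relators, so it gives a homomorphism from `P.Grp` (`hom_ex`) which is not trivial at `wv P w`.
`sep_of`: let `n + 1` be the number of elements of `H`, numbered by a bijection; `T_j` is the table of the left multiplication by `f (wv P [(j, true)])`,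
`T'_j` by its inverse (`CB.exists_dg`, tables as numbers; lists of length `P.1`). `wact w` is the left multiplication by `f (wv P w)` (letters `≥ P.1` are trivial,
`wv_big`). It moves the number of `1`.
-/

set_option autoImplicit false

namespace VF

open LatIso LatN AdmIso

theorem g02_wact_nil (m n : ℕ) (T T' : List ℕ) (x : ℕ) : wact m n T T' [] x = x := rfl

theorem g02_wact_cons (m n : ℕ) (T T' : List ℕ) (j : ℕ) (b : Bool) (w : Wd) (x : ℕ) :
    wact m n T T' ((j, b) :: w) x = if j < m then
      (if b then CB.dg n (T.getD j 0) (wact m n T T' w x)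
        else CB.dg n (T'.getD j 0) (wact m n T T' w x)) else wact m n T T' w x := rfl

theorem sep_ne {P : Pres} {w : Wd} (h : Sep P w) : wv P w ≠ 1 := by
  obtain ⟨⟨n, T, T'⟩, hperm, hrel, x, hx, hmove⟩ := h
  simp only at hperm hrel hx hmove
  let E : ℕ → Equiv.Perm (Fin (n + 1)) := fun j =>
    if hj : j < P.1 then
      { toFun := fun y => ⟨CB.dg n (T.getD j 0) y, CB.dg_lt _ _ _⟩
        invFun := fun y => ⟨CB.dg n (T'.getD j 0) y, CB.dg_lt _ _ _⟩
        left_inv := fun y => Fin.ext (hperm j hj y y.2).2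
        right_inv := fun y => Fin.ext (hperm j hj y y.2).1 }
    else 1
  have hE : ∀ j, j < P.1 → ∀ y, ((E j y : Fin (n + 1)) : ℕ) = CB.dg n (T.getD j 0) y := by
    intro j hj y
    simp only [E, dif_pos hj]
    rfl
  have hE' : ∀ j, j < P.1 → ∀ y, (((E j)⁻¹ y : Fin (n + 1)) : ℕ) = CB.dg n (T'.getD j 0) y := by
    intro j hj y
    simp only [E, dif_pos hj]
    rfl
  have hE1 : ∀ j, ¬ j < P.1 → E j = 1 := by
    intro j hj
    simp only [E, dif_neg hj]
  have hφ : ∀ (u : Wd) (y : Fin (n + 1)),
      ((FreeGroup.lift E (FreeGroup.mk u) y : Fin (n + 1)) : ℕ) = wact P.1 n T T' u y := by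
    intro u
    induction u with
    | nil =>
      intro y
      rw [FreeGroup.lift_mk]
      rfl
    | cons a u ih =>
      intro y
      obtain ⟨j, b⟩ := a
      have h1 : FreeGroup.lift E (FreeGroup.mk ((j, b) :: u)) =
          (cond b (E j) (E j)⁻¹) * FreeGroup.lift E (FreeGroup.mk u) := by
        rw [FreeGroup.lift_mk, FreeGroup.lift_mk, List.map_cons, List.prod_cons]
      rw [h1, Equiv.Perm.mul_apply, g02_wact_cons, ← ih y]
      by_cases hj : j < P.1
      · rw [if_pos hj]
        cases b
        · rw [if_neg Bool.false_ne_true]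
          exact hE' j hj _
        · rw [if_pos rfl]
          exact hE j hj _
      · rw [if_neg hj, hE1 j hj]
        cases b
        · simp
        · simp
  obtain ⟨θ, hθ⟩ := hom_ex P (FreeGroup.lift E)
    (by
      intro r hr
      ext y
      rw [hφ, Equiv.Perm.one_apply]
      exact hrel r hr y y.2)
    (by
      intro j hj
      rw [FreeGroup.lift_apply_of]
      exact hE1 j (not_lt.2 hj))
  intro hw
  apply hmove
  have h1 := hφ w ⟨x, hx⟩
  rw [← hθ w, hw, map_one, Equiv.Perm.one_apply] at h1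
  exact h1.symm

theorem sep_of {P : Pres} {w : Wd} {H : Type} [Group H] [Finite H] (f : P.Grp →* H)
    (h : f (wv P w) ≠ 1) : Sep P w := by
  obtain ⟨N, ⟨e0⟩⟩ := Finite.exists_equiv_fin H
  obtain ⟨n, rfl⟩ : ∃ n, N = n + 1 := by
    cases N with
    | zero => exact (e0 1).elim0
    | succ n => exact ⟨n, rfl⟩
  -- tables of left multiplications
  have htab : ∀ a : H, ∃ k : ℕ, ∀ g : H, CB.dg n k (e0 g) = (e0 (a * g) : ℕ) := by
    intro a
    obtain ⟨k, _, hk⟩ := CB.exists_dg n
      (fun t => if ht : t < n + 1 then (e0 (a * e0.symm ⟨t, ht⟩) : ℕ) else 0)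
      (by
        intro t
        by_cases ht : t < n + 1
        · simp only [dif_pos ht]
          exact (e0 _).2
        · simp only [dif_neg ht]
          exact Nat.succ_pos n) (n + 1)
    refine ⟨k, fun g => ?_⟩
    rw [hk _ (e0 g).2, dif_pos (e0 g).2, Fin.eta, Equiv.symm_apply_apply]
  choose tab htab using htab
  obtain ⟨T, hT⟩ : ∃ T : List ℕ, ∀ j < P.1, T.getD j 0 = tab (f (wv P [(j, true)])) := by
    refine ⟨(List.range P.1).map fun j => tab (f (wv P [(j, true)])), fun j hj => ?_⟩
    rw [List.getD_eq_getElem _ _ (by simpa using hj)]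
    simp
  obtain ⟨T', hT'⟩ : ∃ T : List ℕ, ∀ j < P.1, T.getD j 0 = tab (f (wv P [(j, true)]))⁻¹ := by
    refine ⟨(List.range P.1).map fun j => tab (f (wv P [(j, true)]))⁻¹, fun j hj => ?_⟩
    rw [List.getD_eq_getElem _ _ (by simpa using hj)]
    simp
  have hact : ∀ (u : Wd) (g : H), wact P.1 n T T' u (e0 g) = (e0 (f (wv P u) * g) : ℕ) := by
    intro u
    induction u with
    | nil =>
      intro g
      rw [g02_wact_nil, wv_nil, map_one, one_mul]
    | cons a u ih =>
      intro g
      obtain ⟨j, b⟩ := a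
      have h2 : f (wv P ((j, b) :: u)) * g = f (wv P [(j, b)]) * (f (wv P u) * g) := by
        have h1 : ((j, b) :: u : Wd) = [(j, b)] ++ u := rfl
        rw [h1, wv_append, map_mul f, mul_assoc]
      rw [g02_wact_cons, ih g, h2]
      by_cases hj : j < P.1
      · rw [if_pos hj]
        cases b
        · rw [if_neg Bool.false_ne_true, hT' j hj, htab, wv_false, map_inv]
        · rw [if_pos rfl, hT j hj, htab]
      · rw [if_neg hj]
        cases b
        · rw [wv_false, wv_big P j (not_lt.1 hj), inv_one, map_one, one_mul]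
        · rw [wv_big P j (not_lt.1 hj), map_one, one_mul]
  have hsurj : ∀ x < n + 1, ∃ g : H, (e0 g : ℕ) = x := fun x hx =>
    ⟨e0.symm ⟨x, hx⟩, by rw [Equiv.apply_symm_apply]⟩
  refine ⟨(n, T, T'), ?_, ?_, ?_⟩
  · intro j hj x hx
    obtain ⟨g, rfl⟩ := hsurj x hx
    show CB.dg n (T.getD j 0) (CB.dg n (T'.getD j 0) (e0 g)) = e0 g ∧
      CB.dg n (T'.getD j 0) (CB.dg n (T.getD j 0) (e0 g)) = e0 g
    rw [hT j hj, hT' j hj, htab, htab, htab, htab, mul_inv_cancel_left, inv_mul_cancel_left]
    exact ⟨rfl, rfl⟩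
  · intro r hr x hx
    obtain ⟨g, rfl⟩ := hsurj x hx
    show wact P.1 n T T' r (e0 g) = e0 g
    rw [hact, wv_rel P r hr, map_one, one_mul]
  · refine ⟨(e0 1 : ℕ), (e0 1).2, ?_⟩
    show ¬ wact P.1 n T T' w (e0 1) = e0 1
    rw [hact, mul_one]
    intro h1
    exact h (e0.injective (Fin.ext h1))

end VF
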