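import Pool.Agent.Lib.MP_32d917_al_vf.HDefs
import Pool.Agent.Lib.MP_32d917_al.RE
import Pool.Agent.Lib.MP_32d917_al_adm.C10

/-!
# G03: computability of the certificates for finite quotients

`SepT` is primitive recursive: `wact` by `Primrec.list_foldr` (or `Primrec.list_foldl` on the reversed word), `List.getD`: `C05_getD`, digits `CB.p_dg`,
bounded quantifiers `CB.pp_all`, `CB.pp_ex`, `CB.pp_all_mem`. `Sep`: `re_exists`, `re_of_prim`.
-/

set_option autoImplicit false
set_option synthInstance.maxSize 2000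

namespace VF

open LatIso LatN AdmIso

theorem G03_ite {β γ : Type} [Primcodable β] [Primcodable γ] {p : β → Prop} [DecidablePred p]
    {f g : β → γ} (hp : PrimrecPred p) (hf : Primrec f) (hg : Primrec g) :
    Primrec fun x => if p x then f x else g x :=
  Primrec.ite hp hf hg

theorem G03_getD {β : Type} [Primcodable β] {l : β → List ℕ} {g : β → ℕ} (hl : Primrec l)
    (hg : Primrec g) : Primrec fun x => (l x).getD (g x) 0 := C05_getD 0 hl hg

theorem G03_wact {β : Type} [Primcodable β] {m n x : β → ℕ} {T T' : β → List ℕ} {w : β → Wd}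
    (hm : Primrec m) (hn : Primrec n) (hT : Primrec T) (hT' : Primrec T') (hw : Primrec w)
    (hx : Primrec x) : Primrec fun b => wact (m b) (n b) (T b) (T' b) (w b) (x b) := by
  have h : Primrec fun q : β × ((ℕ × Bool) × ℕ) => if q.2.1.1 < m q.1 then
      (if q.2.1.2 = true then CB.dg (n q.1) ((T q.1).getD q.2.1.1 0) q.2.2
        else CB.dg (n q.1) ((T' q.1).getD q.2.1.1 0) q.2.2) else q.2.2 := by
    refine G03_ite (CB.pp_lt (CB.p_fst (CB.p_fst (CB.p_snd CB.p_id)))
      (hm.comp (CB.p_fst CB.p_id))) ?_ (CB.p_snd (CB.p_snd CB.p_id))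
    refine G03_ite (CB.pp_eq (CB.p_snd (CB.p_fst (CB.p_snd CB.p_id))) (Primrec.const true)) ?_ ?_
    · exact CB.p_dg (hn.comp (CB.p_fst CB.p_id)) (G03_getD (hT.comp (CB.p_fst CB.p_id))
        (CB.p_fst (CB.p_fst (CB.p_snd CB.p_id)))) (CB.p_snd (CB.p_snd CB.p_id))
    · exact CB.p_dg (hn.comp (CB.p_fst CB.p_id)) (G03_getD (hT'.comp (CB.p_fst CB.p_id))
        (CB.p_fst (CB.p_fst (CB.p_snd CB.p_id)))) (CB.p_snd (CB.p_snd CB.p_id))
  have h2 := Primrec.list_foldr (h := fun (b : β) (q : (ℕ × Bool) × ℕ) => if q.1.1 < m b then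
      (if q.1.2 = true then CB.dg (n b) ((T b).getD q.1.1 0) q.2
        else CB.dg (n b) ((T' b).getD q.1.1 0) q.2) else q.2) hw hx h
  exact h2

theorem sepT_p : PrimrecPred fun x : (Pres × Wd) × (ℕ × List ℕ × List ℕ) =>
    SepT x.1.1 x.1.2 x.2 := by
  unfold SepT
  (repeat' (with_reducible first | assumption | exact CB.p_id | exact Primrec.const _ | exact CB.pp_const _ | apply G03_wact | apply G03_getD | apply CB.p_fst | apply CB.p_snd | apply CB.p_pair | apply CB.p_add | apply CB.p_dg | apply CB.pp_all | apply CB.pp_ex | apply CB.pp_all_mem | apply CB.pp_ex_mem | apply CB.pp_and | apply CB.pp_or | apply CB.pp_not | apply CB.pp_eq))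

theorem sep_re : REPred fun x : Pres × Wd => Sep x.1 x.2 :=
  re_exists (p := fun (x : Pres × Wd) (t : ℕ × List ℕ × List ℕ) => SepT x.1 x.2 t)
    (re_of_prim sepT_p)

end VF
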