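import Pool.Agent.Lib.MP_32d917_al_vf.G01
import Pool.Agent.Lib.MP_32d917_al_adm.C09

/-!
# G04: linear systems, exponents

`lin_mod`: `div_zero` (adm/C09) for the class of `b` in the quotient of `Fin m → ℤ` by the range of `A` (`N • y` is the difference of `A x` and `b`).
`exp_lin`: induction on the word: `φ j z ^ (ε j) * (φ(w) z ^ (l ε)) = φ(j w) z ^ (± ε j + l ε)`, as conjugation by `φ(w)` maps `z` to `z ^ (± 1)`;
for an inverse letter `z ^ (- ε j) (φ j)⁻¹ φ(w) = (φ j)⁻¹ φ(w) z ^ (± ε j)`.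
-/

set_option autoImplicit false

namespace VF

open LatIso LatN AdmIso

theorem lin_mod {n m : ℕ} (A : (Fin n → ℤ) →+ (Fin m → ℤ)) (b : Fin m → ℤ)
    (h : ∀ N : ℕ, 0 < N → ∃ (x : Fin n → ℤ) (y : Fin m → ℤ), A x = b + N • y) :
    ∃ x, A x = b := by
  have h0 : (QuotientAddGroup.mk' A.range) b = 0 := by
    have : Module.Finite ℤ ((Fin m → ℤ) ⧸ A.range) :=
      Module.Finite.of_surjective (QuotientAddGroup.mk' A.range).toIntLinearMap
        (QuotientAddGroup.mk'_surjective A.range)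
    apply AdmIso.div_zero
    intro N hN
    obtain ⟨x, y, hxy⟩ := h N hN
    refine ⟨(QuotientAddGroup.mk' A.range) (-y), ?_⟩
    have h1 : b = A x + N • (-y) := by
      rw [hxy, smul_neg]
      abel
    have h2 : (QuotientAddGroup.mk' A.range) (A x) = 0 :=
      (QuotientAddGroup.eq_zero_iff _).2 ⟨x, rfl⟩
    calc (QuotientAddGroup.mk' A.range) b
        = (QuotientAddGroup.mk' A.range) (A x + N • (-y)) := by rw [← h1]
      _ = N • (QuotientAddGroup.mk' A.range) (-y) := by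
        rw [map_add, h2, zero_add, map_nsmul]
  obtain ⟨x, hx⟩ := (QuotientAddGroup.eq_zero_iff _).1 h0
  exact ⟨x, hx⟩

/-- conjugation by an element, in the form needed -/
theorem zpow_conj {G : Type} [Group G] {z : G} (hz : ∀ x : G, x * z * x⁻¹ = z ∨ x * z * x⁻¹ = z⁻¹)
    (x : G) : ∃ s : ℤ, ∀ k : ℤ, z ^ k * x = x * z ^ (s * k) := by
  have key : ∀ (s : ℤ), z * x = x * z ^ s → ∀ k : ℤ, z ^ k * x = x * z ^ (s * k) := by
    intro s hs k
    have h1 : x⁻¹ * z * x = z ^ s := by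
      rw [mul_assoc, hs, inv_mul_cancel_left]
    have h2 : (x⁻¹ * z * x) ^ k = x⁻¹ * z ^ k * x := by
      have := conj_zpow (a := x⁻¹) (b := z) (i := k)
      rw [inv_inv] at this
      exact this
    rw [h1, ← zpow_mul] at h2
    rw [h2]
    group
  rcases hz x⁻¹ with h | h
  · refine ⟨1, key 1 ?_⟩
    rw [inv_inv] at h
    rw [zpow_one]
    have : x * (x⁻¹ * z * x) = x * z := by rw [h]
    rw [← this]
    group
  · refine ⟨-1, key (-1) ?_⟩
    rw [inv_inv] at h
    rw [zpow_neg_one]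
    have : x * (x⁻¹ * z * x) = x * z⁻¹ := by rw [h]
    rw [← this]
    group

theorem exp_lin {G : Type} [Group G] {z : G} (hz : ∀ x : G, x * z * x⁻¹ = z ∨ x * z * x⁻¹ = z⁻¹)
    (φ : ℕ → G) (w : Wd) : ∃ l : (ℕ → ℤ) →+ ℤ, ∀ ε : ℕ → ℤ,
      FreeGroup.lift (fun j => φ j * z ^ ε j) (FreeGroup.mk w) =
        FreeGroup.lift φ (FreeGroup.mk w) * z ^ l ε := by
  induction w with
  | nil =>
    refine ⟨0, ?_⟩
    intro ε
    simp [FreeGroup.lift_mk]
  | cons a w ih =>
    obtain ⟨l, hl⟩ := ih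
    obtain ⟨j, b⟩ := a
    have hc : ∀ ψ : ℕ → G, FreeGroup.lift ψ (FreeGroup.mk ((j, b) :: w)) =
        (bif b then ψ j else (ψ j)⁻¹) * FreeGroup.lift ψ (FreeGroup.mk w) := by
      intro ψ
      rw [FreeGroup.lift_mk, FreeGroup.lift_mk, List.map_cons, List.prod_cons]
    cases b with
    | true =>
      obtain ⟨s, hs⟩ := zpow_conj hz (FreeGroup.lift φ (FreeGroup.mk w))
      refine ⟨s • (Pi.evalAddMonoidHom (fun _ : ℕ => ℤ) j) + l, ?_⟩
      intro ε
      rw [hc, hc, hl ε]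
      simp only [cond_true]
      have h1 : (s • (Pi.evalAddMonoidHom (fun _ : ℕ => ℤ) j) + l) ε = s * ε j + l ε := by
        simp [Pi.evalAddMonoidHom]
      rw [h1, zpow_add, mul_assoc (φ j), ← mul_assoc (z ^ ε j), hs]
      group
    | false =>
      obtain ⟨s, hs⟩ := zpow_conj hz ((φ j)⁻¹ * FreeGroup.lift φ (FreeGroup.mk w))
      refine ⟨(-s) • (Pi.evalAddMonoidHom (fun _ : ℕ => ℤ) j) + l, ?_⟩
      intro ε
      rw [hc, hc, hl ε]
      simp only [cond_false]
      have h1 : ((-s) • (Pi.evalAddMonoidHom (fun _ : ℕ => ℤ) j) + l) ε = s * (-ε j) + l ε := by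
        simp [Pi.evalAddMonoidHom]
      rw [h1, zpow_add, mul_inv_rev, ← zpow_neg, ← mul_assoc (_ * _) (_) (z ^ l ε),
        mul_assoc (z ^ (-ε j)), hs, mul_assoc]

end VF
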