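import Pool.Agent.Lib.MP_32d917_al_vf.G02
import Pool.Agent.Lib.MP_32d917_al_vf.G04

/-!
# G05: the certificate against homomorphisms

`nhom_not` (no hypothesis): let `θ`, `k_j` be as in `HomEx` and `N` as in `NHom`. Choose `m < (N + 1) ^ P.1` with digits `CB.dg N m j = k_j mod (N + 1)`
(`CB.exists_dg`). Let `π : P'.Grp →* (qN P' (N + 1)).Grp` (`hom_q`). For all words `w`: `π (θ (wv P w)) = wv (qN P' (N + 1)) (sub (shf σ P.1 N m) w)`.
So for the equations `(r, [])`, `r ∈ P.2`, and `e ∈ L` the word of the certificate is trivial in `(qN P' (N + 1)).Grp`, against `sep_ne`.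
`nhom_of`: if `NHom` fails, the linear system for the exponents is solvable modulo all numbers, so it is solvable (`lin_mod`).
-/

set_option autoImplicit false

namespace VF

open LatIso LatN AdmIso

theorem g05_getD (σ : List Wd) (n N m j : ℕ) (hj : j < n) : (shf σ n N m).getD j [] =
    if j = 0 then σ.getD j [] else
      σ.getD j [] ++ List.replicate (CB.dg N m j) ((0, true) : ℕ × Bool) := by
  unfold shf
  rw [List.getD_eq_getElem _ _ (by simpa using hj)]
  simp

theorem g05_getD' (σ : List Wd) (n N m j : ℕ) (hj : n ≤ j) : (shf σ n N m).getD j [] = [] := by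
  unfold shf
  rw [List.getD_eq_default _ _ (by simpa using hj)]

theorem g05_mod {G : Type} [Group G] (z : G) (N : ℕ) (hz : z ^ (N + 1) = 1) (k : ℤ) :
    z ^ k = z ^ (k % ((N : ℤ) + 1)).toNat := by
  have h1 : (0 : ℤ) ≤ k % ((N : ℤ) + 1) := Int.emod_nonneg _ (by omega)
  rw [← zpow_natCast, Int.toNat_of_nonneg h1]
  have h2 : k = k % ((N : ℤ) + 1) + ((N : ℤ) + 1) * (k / ((N : ℤ) + 1)) :=
    (Int.emod_add_mul_ediv k ((N : ℤ) + 1)).symm
  have h3 : z ^ ((N : ℤ) + 1) = 1 := by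
    have : ((N : ℤ) + 1) = ((N + 1 : ℕ) : ℤ) := by push_cast; rfl
    rw [this, zpow_natCast]
    exact hz
  conv_lhs => rw [h2]
  rw [zpow_add, zpow_mul, h3, one_zpow, mul_one]

theorem nhom_not {P P' : Pres} {σ : List Wd} {L : List (Wd × Wd)} (h : NHom P P' σ L) :
    ¬ HomEx P P' σ L := by
  rintro ⟨θ, hθ, hL⟩
  obtain ⟨N, hN⟩ := h
  choose! k hk0 hk using hθ
  obtain ⟨m, hm, hd⟩ := CB.exists_dg N (fun j => (k j % ((N : ℤ) + 1)).toNat) (fun j => by
    have h1 : (0 : ℤ) ≤ k j % ((N : ℤ) + 1) := Int.emod_nonneg _ (by omega)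
    have h2 : k j % ((N : ℤ) + 1) < (N : ℤ) + 1 := Int.emod_lt_of_pos _ (by omega)
    show (k j % ((N : ℤ) + 1)).toNat < N + 1
    omega) P.1
  obtain ⟨e, he, hs⟩ := hN m hm
  obtain ⟨π, hπ, hπz⟩ := hom_q P' (N + 1)
  have key : ∀ w, π (θ (wv P w)) = wv (qN P' (N + 1)) (sub (shf σ P.1 N m) w) := by
    intro w
    rw [wv_sub]
    have h1 : (π.comp θ).comp (PresentedGroup.mk P.rels) =
        FreeGroup.lift (fun j => wv (qN P' (N + 1)) ((shf σ P.1 N m).getD j [])) := by
      apply FreeGroup.ext_hom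
      intro j
      rw [FreeGroup.lift_apply_of]
      show π (θ (wv P [(j, true)])) = _
      by_cases hj : j < P.1
      · rw [hk j hj, map_mul, map_zpow, hπ, g05_getD σ P.1 N m j hj]
        by_cases h0 : j = 0
        · rw [if_pos h0, hk0 j hj h0, zpow_zero, mul_one]
        · rw [if_neg h0, wv_append, wv_rep, hd j hj, g05_mod (π (zv P')) N hπz (k j)]
          congr 2
          exact hπ _
      · rw [wv_big P j (by omega), map_one, map_one, g05_getD' σ P.1 N m j (by omega), wv_nil]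
    exact DFunLike.congr_fun h1 (FreeGroup.mk w)
  apply sep_ne hs
  rw [wv_append, wv_inv, ← key, ← hπ]
  rw [List.mem_append, List.mem_map] at he
  rcases he with ⟨r, hr, rfl⟩ | he
  · show π (θ (wv P r)) * (π (wv P' []))⁻¹ = 1
    rw [wv_rel P r hr, wv_nil, map_one, map_one, inv_one, mul_one]
  · rw [hL e he, mul_inv_cancel]

/-- conjugation of powers -/
theorem g05_sign {G : Type} [Group G] {z : G} (hz : ∀ x : G, x * z * x⁻¹ = z ∨ x * z * x⁻¹ = z⁻¹)
    (x : G) : ∃ s : ℤ, ∀ t : ℤ, z ^ t * x⁻¹ = x⁻¹ * z ^ (s * t) := by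
  rcases hz x with h | h
  · refine ⟨1, fun t => ?_⟩
    have h1 : x * z ^ t * x⁻¹ = z ^ t := by rw [← conj_zpow, h]
    rw [one_mul]
    calc z ^ t * x⁻¹ = x⁻¹ * (x * z ^ t * x⁻¹) := by group
      _ = x⁻¹ * z ^ t := by rw [h1]
  · refine ⟨-1, fun t => ?_⟩
    have h1 : x * z ^ t * x⁻¹ = z ^ (-t) := by rw [← conj_zpow, h, inv_zpow, zpow_neg]
    rw [neg_one_mul]
    calc z ^ t * x⁻¹ = x⁻¹ * (x * z ^ t * x⁻¹) := by group
      _ = x⁻¹ * z ^ (-t) := by rw [h1]

/-- extension of exponents by zero -/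
def g05x (n : ℕ) : (Fin n → ℤ) →+ (ℕ → ℤ) where
  toFun ε j := if h : 0 < j ∧ j < n then ε ⟨j, h.2⟩ else 0
  map_zero' := by
    funext j
    by_cases h : 0 < j ∧ j < n
    · simp [h]
    · simp [h]
  map_add' ε ε' := by
    funext j
    by_cases h : 0 < j ∧ j < n
    · simp [h]
    · simp [h]

theorem g05x_apply (n : ℕ) (ε : Fin n → ℤ) (j : ℕ) :
    g05x n ε j = if h : 0 < j ∧ j < n then ε ⟨j, h.2⟩ else 0 := rfl

theorem g05x_pos {n j : ℕ} (h0 : 0 < j) (h : j < n) (ε : Fin n → ℤ) : g05x n ε j = ε ⟨j, h⟩ := by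
  rw [g05x_apply, dif_pos ⟨h0, h⟩]

theorem g05x_zero (n : ℕ) (ε : Fin n → ℤ) : g05x n ε 0 = 0 := by
  rw [g05x_apply, dif_neg fun h => absurd h.1 (lt_irrefl 0)]

theorem g05x_big {n j : ℕ} (h : n ≤ j) (ε : Fin n → ℤ) : g05x n ε j = 0 := by
  rw [g05x_apply, dif_neg fun h' => absurd h'.2 (not_lt.2 h)]

theorem nhom_of {P P' : Pres} (h' : GoodP P') {σ : List Wd} {L : List (Wd × Wd)}
    (h : ¬ HomEx P P' σ L) : NHom P P' σ L := by
  by_contra hn
  apply h
  clear h
  unfold NHom at hn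
  push Not at hn
  set es := P.2.map (fun r => ((r, []) : Wd × Wd)) ++ L with hes
  set z := zv P' with hz
  set φ : ℕ → P'.Grp := fun j => if j < P.1 then wv P' (σ.getD j []) else 1 with hφ
  choose l hl using fun i : Fin es.length => exp_lin h'.nrm φ (es.get i).1
  choose s hs using fun i : Fin es.length => g05_sign h'.nrm (wv P' (es.get i).2)
  set C : Fin es.length → P'.Grp := fun i =>
    FreeGroup.lift φ (FreeGroup.mk (es.get i).1) * (wv P' (es.get i).2)⁻¹ with hC
  let A : (Fin P.1 → ℤ) →+ (Fin es.length → ℤ) :=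
    { toFun := fun ε i => s i * l i (g05x P.1 ε)
      map_zero' := by
        funext i
        simp
      map_add' := fun ε ε' => by
        funext i
        simp [mul_add] }
  have hA : ∀ ε i, A ε i = s i * l i (g05x P.1 ε) := fun _ _ => rfl
  -- the value of an equation
  have hval : ∀ (ε : Fin P.1 → ℤ) (i : Fin es.length),
      FreeGroup.lift (fun j => φ j * z ^ g05x P.1 ε j) (FreeGroup.mk (es.get i).1) *
        (wv P' (es.get i).2)⁻¹ = C i * z ^ A ε i := by
    intro ε i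
    rw [hl i, hA, hC, mul_assoc, hs i, mul_assoc]
  -- the values modulo `N + 1`
  have hmod : ∀ N : ℕ, ∃ ε : Fin P.1 → ℤ, ∀ i : Fin es.length, ∃ k : ℤ,
      C i * z ^ A ε i = z ^ (((N + 1 : ℕ) : ℤ) * k) := by
    intro N
    obtain ⟨m, hm, hm'⟩ := hn N
    refine ⟨fun j => (CB.dg N m j : ℤ), fun i => ?_⟩
    have h1 := hm' (es.get i) (List.get_mem _ _)
    have h2 : ∃ k : ℤ, wv P' (sub (shf σ P.1 N m) (es.get i).1 ++
        FreeGroup.invRev (es.get i).2) = z ^ (((N + 1 : ℕ) : ℤ) * k) := by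
      by_contra h3
      push Not at h3
      exact h1 (h'.rf (N + 1) (Nat.succ_pos N) _ h3)
    obtain ⟨k, hk⟩ := h2
    refine ⟨k, ?_⟩
    rw [← hk, ← hval, wv_append, wv_inv, wv_sub]
    congr 3
    funext j
    by_cases hj : j < P.1
    · rw [g05_getD σ P.1 N m j hj, hφ]
      by_cases h0 : j = 0
      · subst h0
        rw [g05x_zero, zpow_zero, mul_one, if_pos rfl]
        show (if 0 < P.1 then wv P' (σ.getD 0 []) else 1) = _
        rw [if_pos hj]
      · rw [if_neg h0, g05x_pos (Nat.pos_of_ne_zero h0) hj]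
        show (if j < P.1 then wv P' (σ.getD j []) else 1) * _ = _
        rw [if_pos hj, wv_append, wv_rep, zpow_natCast]
        rfl
    · rw [g05_getD' σ P.1 N m j (by omega), g05x_big (by omega), hφ, zpow_zero, mul_one, wv_nil]
      show (if j < P.1 then wv P' (σ.getD j []) else 1) = _
      rw [if_neg hj]
  -- the constants
  have hb : ∃ b : Fin es.length → ℤ, ∀ i, C i = z ^ b i := by
    obtain ⟨ε, hε⟩ := hmod 0
    choose k hk using hε
    refine ⟨fun i => ((0 + 1 : ℕ) : ℤ) * k i - A ε i, fun i => ?_⟩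
    rw [zpow_sub, ← hk i, mul_inv_cancel_right]
  obtain ⟨b, hb⟩ := hb
  have hsol : ∃ ε, A ε = -b := by
    apply lin_mod
    intro N hN
    obtain ⟨ε, hε⟩ := hmod (N - 1)
    choose k hk using hε
    refine ⟨ε, k, ?_⟩
    funext i
    have h1 := hk i
    rw [hb i, ← zpow_add] at h1
    have h2 : z ^ (b i + A ε i - ((N - 1 + 1 : ℕ) : ℤ) * k i) = 1 := by
      rw [zpow_sub, h1, mul_inv_cancel]
    have h3 := h'.inf _ h2
    have h4 : (N - 1 + 1 : ℕ) = N := by omega
    rw [h4] at h3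
    show A ε i = -b i + N • k i
    rw [nsmul_eq_mul]
    linarith
  obtain ⟨ε, hε⟩ := hsol
  have heq : ∀ e ∈ es, FreeGroup.lift (fun j => φ j * z ^ g05x P.1 ε j) (FreeGroup.mk e.1) =
      wv P' e.2 := by
    intro e he
    obtain ⟨i, rfl⟩ := List.get_of_mem he
    have h1 := hval ε i
    rw [hε, hb i, ← zpow_add] at h1
    have h2 : b i + (-b) i = 0 := by
      show b i + -b i = 0
      ring
    rw [h2, zpow_zero] at h1
    exact mul_inv_eq_one.1 h1
  obtain ⟨θ, hθ⟩ := hom_ex P (FreeGroup.lift (fun j => φ j * z ^ g05x P.1 ε j)) (fun r hr => by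
      have h1 := heq (r, []) (by
        rw [hes, List.mem_append, List.mem_map]
        exact Or.inl ⟨r, hr, rfl⟩)
      rw [h1]
      exact wv_nil P') (fun j hj => by
      rw [FreeGroup.lift_apply_of, g05x_big hj, zpow_zero, mul_one]
      show (if j < P.1 then wv P' (σ.getD j []) else 1) = _
      rw [if_neg (by omega)])
  refine ⟨θ, fun j hj => ⟨g05x P.1 ε j, ?_, ?_⟩, fun e he => ?_⟩
  · intro h0
    rw [h0, g05x_zero]
  · rw [hθ]
    show FreeGroup.lift (fun j => φ j * z ^ g05x P.1 ε j) (FreeGroup.of j) = _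
    rw [FreeGroup.lift_apply_of]
    show (if j < P.1 then wv P' (σ.getD j []) else 1) * _ = _
    rw [if_pos hj]
  · rw [hθ]
    exact heq e (by
      rw [hes, List.mem_append]
      exact Or.inr he)

end VF
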