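import Pool.Agent.Lib.MP_32d917_al_vf.RF0
import Pool.Agent.Lib.MP_32d917_al_vf.H01
import Pool.Agent.Lib.MP_32d917_al_vf.H03
import Pool.Agent.Lib.MP_32d917_al_vf.G02

/-!
# H02: the presentations of the pieces are good

`fin_quot`: if `x ∉ M` take `G / M` (`z ∈ M`). If `x ∈ M`, `x = φ y`, `y` is not a power of `(1, N)`, so there is `f : FZ n →* H` as in `fz_rf`. Let `L` be the kernel of
`M → FZ n → H` as a subgroup of `G`: finite index in `G` (finite index in `M`), `z ^ N ∈ L`, `x ∉ L`. Its normal core has finite index and contains `z ^ N`: all conjugates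
of `z ^ N` are `z ^ (± N)`. Take the quotient by the normal core.
`goodP`: `pg_exists` for `toPD c` gives the tree; `pe`; `pc_conj` (`ep = 1` or `-1`), `pc_inf`, `pc_fz` (H03), `fin_quot`, `sep_of` for the homomorphism from `(qN P N).Grp`
(`hom_ex`: the relators of `P` and `x_0 ^ N`).
-/

set_option autoImplicit false

namespace VF

open LatIso LatN AdmIso

theorem H02_core {G : Type} [Group G] {z : G}
    (hz : ∀ x : G, x * z * x⁻¹ = z ∨ x * z * x⁻¹ = z⁻¹) (L : Subgroup G) (hL : L.index ≠ 0)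
    (N : ℕ) (h1 : z ^ N ∈ L) (x : G) (hx : x ∉ L) :
    ∃ (H : Type) (_ : Group H) (_ : Finite H) (f : G →* H), f z ^ N = 1 ∧ f x ≠ 1 := by
  have : L.FiniteIndex := ⟨hL⟩
  refine ⟨G ⧸ L.normalCore, inferInstance, inferInstance, QuotientGroup.mk' L.normalCore, ?_, ?_⟩
  · rw [← map_pow]
    refine (QuotientGroup.eq_one_iff _).2 ?_
    show ∀ b : G, b * z ^ N * b⁻¹ ∈ L
    intro b
    rw [← conj_pow]
    rcases hz b with h | h
    · rw [h]
      exact h1
    · rw [h, inv_pow]
      exact L.inv_mem h1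
  · intro h
    have h2 := (QuotientGroup.eq_one_iff _).1 h
    exact hx (Subgroup.normalCore_le L h2)

theorem fin_quot {G : Type} [Group G] {z : G}
    (hz : ∀ x : G, x * z * x⁻¹ = z ∨ x * z * x⁻¹ = z⁻¹) {M : Subgroup G} (hM : M.Normal)
    (hi : M.index ≠ 0) {n : ℕ} (φ : FZ n ≃* M)
    (hφ : ((φ (1, Multiplicative.ofAdd 1) : M) : G) = z) (N : ℕ) (hN : 0 < N) (x : G)
    (hx : ∀ k : ℤ, x ≠ z ^ ((N : ℤ) * k)) :
    ∃ (H : Type) (_ : Group H) (_ : Finite H) (f : G →* H), f z ^ N = 1 ∧ f x ≠ 1 := by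
  have hzM : z ∈ M := by
    rw [← hφ]
    exact (φ (1, Multiplicative.ofAdd 1)).2
  by_cases hxM : x ∈ M
  · have hpow : ∀ m : ℤ, ((φ (1, Multiplicative.ofAdd m) : M) : G) = z ^ m := by
      intro m
      have e1 : ((1, Multiplicative.ofAdd m) : FZ n) = (1, Multiplicative.ofAdd 1) ^ m := by
        rw [Prod.pow_mk, one_zpow, ← ofAdd_zsmul, smul_eq_mul, mul_one]
      rw [e1, map_zpow, Subgroup.coe_zpow, hφ]
    have hy : ∀ k : ℤ, φ.symm ⟨x, hxM⟩ ≠ (1, Multiplicative.ofAdd ((N : ℤ) * k)) := by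
      intro k hk
      apply hx k
      rw [← hpow, ← hk, φ.apply_symm_apply]
    obtain ⟨H, _, _, f, hf1, hf2⟩ := fz_rf n N hN _ hy
    let F : M →* H := f.comp φ.symm.toMonoidHom
    have hF : ∀ y : M, F y = f (φ.symm y) := fun _ => rfl
    refine H02_core hz (F.ker.map M.subtype) ?_ N ?_ x ?_
    · rw [Subgroup.index_map_subtype, Subgroup.index_ker]
      exact mul_ne_zero (Nat.card_pos).ne' hi
    · refine ⟨⟨z ^ N, M.pow_mem hzM N⟩, ?_, rfl⟩
      show F ⟨z ^ N, M.pow_mem hzM N⟩ = 1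
      rw [hF, ← hf2]
      congr 1
      rw [MulEquiv.symm_apply_eq]
      apply Subtype.ext
      rw [hpow, zpow_natCast]
    · rintro ⟨y, hy1, hy2⟩
      have hy3 : y = ⟨x, hxM⟩ := Subtype.ext hy2
      rw [hy3] at hy1
      exact hf1 hy1
  · refine H02_core hz M hi N (M.pow_mem hzM N) x hxM

theorem H02_pc {c : PCd} (h : PVal c) : (∀ x : GP c, x * PG.c (toPD c) 0 (toDl c) * x⁻¹ =
      PG.c (toPD c) 0 (toDl c) ∨ x * PG.c (toPD c) 0 (toDl c) * x⁻¹ =
      (PG.c (toPD c) 0 (toDl c))⁻¹) ∧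
    (∀ k : ℤ, PG.c (toPD c) 0 (toDl c) ^ k = 1 → k = 0) ∧
    (∃ (M : Subgroup (GP c)) (n : ℕ) (φ : FZ n ≃* M), 2 ≤ n ∧ M.Normal ∧
      M.index ≠ 0 ∧ ((φ (1, Multiplicative.ofAdd 1) : M) : GP c) = PG.c (toPD c) 0 (toDl c)) ∧
    PieceG (GP c) (PG.c (toPD c) 0 (toDl c)) := by
  obtain ⟨h1, h2, h3⟩ := h
  obtain ⟨V, _, S, q, D, p, al, t, ht⟩ := pg_exists h1 h3
  refine ⟨fun x => ?_, pc_inf h1 ht.pc, pc_fz h1 h2 ht.pc h3, pc_pieceG h1 h2 ht.pc h3⟩
  rw [pc_conj h1 ht.pc x]
  rcases h1.ep1 (q x) with h4 | h4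
  · left
    rw [h4, zpow_one]
  · right
    rw [h4, zpow_neg_one]

theorem goodP {c : PCd} (h : PVal c) : GoodP (pPres c) := by
  obtain ⟨h1, h2, ⟨M, n, φ, hn, hM, hi, hφ⟩, h4⟩ := H02_pc h
  obtain ⟨F, -, -, hF, -, -⟩ := pe h.1
  have hF' : F.symm (zv (pPres c)) = PG.c (toPD c) 0 (toDl c) := by
    rw [← hF, F.symm_apply_apply]
  refine ⟨?_, ?_, ?_, ?_⟩
  · show 0 < ng c
    unfold ng
    omega
  · intro x
    rcases h1 (F.symm x) with h5 | h5
    · left
      have h6 := congrArg F h5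
      rw [map_mul, map_mul, map_inv, F.apply_symm_apply, hF] at h6
      exact h6
    · right
      have h6 := congrArg F h5
      rw [map_mul, map_mul, map_inv, map_inv, F.apply_symm_apply, hF] at h6
      exact h6
  · intro k hk
    apply h2 k
    have h6 := congrArg F.symm hk
    rw [map_zpow, hF', map_one] at h6
    exact h6
  · intro N hN w hw
    obtain ⟨H, _, _, f, hf1, hf2⟩ := fin_quot h1 hM hi φ hφ N hN (F.symm (wv (pPres c) w)) (by
      intro k hk
      apply hw k
      rw [← F.apply_symm_apply (wv (pPres c) w), hk, map_zpow, hF])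
    let f' : (pPres c).Grp →* H := f.comp F.symm.toMonoidHom
    have hf' : ∀ y, f' y = f (F.symm y) := fun _ => rfl
    obtain ⟨θ, hθ⟩ := hom_ex (qN (pPres c) N) (f'.comp (PresentedGroup.mk (pPres c).rels))
      (by
        intro r hr
        show f' (wv (pPres c) r) = 1
        rcases List.mem_cons.1 hr with hr | hr
        · rw [hr, wv_rep, map_pow]
          have h7 : f' (wv (pPres c) [(0, true)]) = f (F.symm (zv (pPres c))) := rfl
          rw [h7, hF', hf1]
        · rw [wv_rel _ r hr, map_one])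
      (by
        intro j hj
        show f' (wv (pPres c) [(j, true)]) = 1
        rw [wv_big (pPres c) j hj, map_one])
    refine sep_of θ ?_
    rw [hθ]
    exact hf2

theorem H02_trans {K K' : Type} [Group K] [Group K'] {c : K} {c' : K'} (F : K ≃* K')
    (hF : F c = c') (h : PieceG K c) : PieceG K' c' := by
  have hF' : F.symm c' = c := by rw [← hF, F.symm_apply_apply]
  refine ⟨?_, ?_, ?_, ?_⟩
  · obtain ⟨n, hn, H, hH, ⟨φ⟩⟩ := h.vfz
    refine ⟨n, hn, H.map (F : K →* K'), ?_, ⟨φ.trans (F.subgroupMap H)⟩⟩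
    rw [Subgroup.index_map_equiv]
    exact hH
  · intro x
    rcases h.nrm (F.symm x) with h5 | h5
    · left
      have h6 := congrArg F h5
      rw [map_mul, map_mul, map_inv, F.apply_symm_apply, hF] at h6
      exact h6
    · right
      have h6 := congrArg F h5
      rw [map_mul, map_mul, map_inv, map_inv, F.apply_symm_apply, hF] at h6
      exact h6
  · intro k hk
    apply h.inf k
    have h6 := congrArg F.symm hk
    rw [map_zpow, hF', map_one] at h6
    exact h6
  · rintro z ⟨H, hH, hz⟩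
    obtain ⟨k, hk⟩ := h.fc (F.symm z) ⟨H.comap (F : K →* K'), by
        rw [Subgroup.index_comap_of_surjective]
        · exact hH
        · exact F.surjective, fun y hy => by
        apply F.injective
        rw [map_mul, map_mul, F.apply_symm_apply]
        exact hz _ hy⟩
    refine ⟨k, ?_⟩
    have h6 := congrArg F hk
    rw [F.apply_symm_apply, map_zpow, hF] at h6
    exact h6

theorem pval_piece {c : PCd} (h : PVal c) : PieceG (pPres c).Grp (zv (pPres c)) := by
  obtain ⟨F, -, -, hF, -, -⟩ := pe h.1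
  exact H02_trans F hF (H02_pc h).2.2.2

end VF
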