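import Pool.Agent.Lib.MP_32d917_al_vf.HDefs
import Pool.Agent.Lib.MP_32d917_al.RE
import Pool.Agent.Lib.MP_32d917_al_adm.C06
import Pool.Agent.Lib.MP_32d917_al_adm.C10

/-!
# H05: computability for codes of pieces

All functions `hO`, ..., `hRk`, `kmul`, `gG`, `gS`, `ng` are primitive recursive (`CB.p_dg`, `C05_getD`, `CB.p_...`), and so is `PRl` (`Primrec.list_append`,
`list_map`, `list_flatMap`, `C06_ppwW`, `p_invRev`; compare `C06_pL`). `PVal` is a finite conjunction of statements with bounded quantifiers: first rewrite the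
quantifiers over `Fin (n + 1)` by quantifiers over numbers `< n + 1` and the equations in `Fin` by equations of numbers (`Fin.ext_iff`), the divisibility `dem` by: there is a number
`k` below (sum of all numbers involved) + 1 with `z.1 = z.2 + k R` or `z.2 = z.1 + k R`, `z` the coded integer in `kmul`; `ep1`, `R0` are automatic; `epm`: parity of
`hS`. `Nice`, `Span`: the same.
-/

set_option autoImplicit false
set_option synthInstance.maxSize 2000

namespace VF

open LatIso LatN AdmIso

section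

variable {β : Type} [Primcodable β] {f : β → PCd} {g h : β → ℕ}

theorem h05_tb (hf : Primrec f) (k : ℕ) : Primrec fun x => tb (f x) k := by
  unfold tb
  exact C05_getD 0 (CB.p_fst (CB.p_snd hf)) (Primrec.const k)

theorem h05_pa (hf : Primrec f) : Primrec fun x => pa (f x) := CB.p_fst (CB.p_fst hf)
theorem h05_pb (hf : Primrec f) : Primrec fun x => pb (f x) := CB.p_fst (CB.p_snd (CB.p_fst hf))
theorem h05_pd (hf : Primrec f) : Primrec fun x => pd (f x) := CB.p_snd (CB.p_snd (CB.p_fst hf))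

theorem h05_s {u : β → ℕ} (hu : Primrec u) : Primrec fun x => u x + 1 :=
  CB.p_add hu (Primrec.const 1)

theorem p_hO (hf : Primrec f) (hg : Primrec g) : Primrec fun x => hO (f x) (g x) := by
  unfold hO
  exact CB.p_dg (h05_pa hf) (h05_tb hf 0) hg

theorem p_hI (hf : Primrec f) (hg : Primrec g) : Primrec fun x => hI (f x) (g x) := by
  unfold hI
  exact CB.p_dg (h05_pb hf) (h05_tb hf 1) hg

theorem p_hM (hf : Primrec f) (hg : Primrec g) (hh : Primrec h) :
    Primrec fun x => hM (f x) (g x) (h x) := by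
  unfold hM
  exact CB.p_dg (h05_pd hf) (h05_tb hf 2) (CB.p_add (CB.p_mul hg (h05_s (h05_pd hf))) hh)

theorem p_hE (hf : Primrec f) : Primrec fun x => hE (f x) := by
  unfold hE
  exact CB.p_dg (h05_pd hf) (h05_tb hf 3) (Primrec.const 0)

theorem p_hP (hf : Primrec f) (hg : Primrec g) (hh : Primrec h) :
    Primrec fun x => hP (f x) (g x) (h x) := by
  unfold hP
  exact CB.p_dg (h05_pa hf) (h05_tb hf 4) (CB.p_add (CB.p_mul hg (h05_s (h05_pa hf))) hh)

theorem p_hA (hf : Primrec f) (hg : Primrec g) (hh : Primrec h) :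
    Primrec fun x => hA (f x) (g x) (h x) := by
  unfold hA
  exact CB.p_dg (h05_pb hf) (h05_tb hf 5) (CB.p_add (CB.p_mul hg (h05_s (h05_pb hf))) hh)

theorem p_hS (hf : Primrec f) (hg : Primrec g) : Primrec fun x => hS (f x) (g x) := by
  unfold hS
  exact CB.p_dg (Primrec.const 1) (h05_tb hf 6) hg

theorem p_hR (hf : Primrec f) : Primrec fun x => hR (f x) := by
  unfold hR
  exact h05_s (h05_tb hf 7)

theorem p_hDl (hf : Primrec f) (hg : Primrec g) : Primrec fun x => hDl (f x) (g x) := by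
  unfold hDl
  exact CB.p_dg (h05_pb hf) (h05_tb hf 8) hg

theorem p_hDe (hf : Primrec f) (hg : Primrec g) : Primrec fun x => hDe (f x) (g x) := by
  unfold hDe
  exact C05_getD (0, 0) (CB.p_fst (CB.p_snd (CB.p_snd hf))) hg

theorem p_hRk (hf : Primrec f) (hg : Primrec g) : Primrec fun x => hRk (f x) (g x) := by
  unfold hRk
  exact C05_getD 0 (CB.p_snd (CB.p_snd (CB.p_snd hf))) hg

theorem p_ng (hf : Primrec f) : Primrec fun x => ng (f x) := by
  unfold ng
  exact CB.p_add (CB.p_add (Primrec.const 1) (h05_s (h05_pb hf)))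
    (CB.p_mul (h05_s (h05_pd hf)) (h05_s (h05_pa hf)))

theorem h05_gG (hg : Primrec g) : Primrec fun x => gG (g x) := by
  unfold gG
  exact CB.p_add (Primrec.const 1) hg

theorem p_gS (hf : Primrec f) (hg : Primrec g) (hh : Primrec h) :
    Primrec fun x => gS (f x) (g x) (h x) := by
  unfold gS
  exact CB.p_add (CB.p_add (Primrec.const 1) (h05_s (h05_pb hf)))
    (CB.p_add (CB.p_mul hg (h05_s (h05_pa hf))) hh)

theorem h05_kmul (hf : Primrec f) (hg : Primrec g) (hh : Primrec h) :
    Primrec fun x => kmul (f x) (g x) (h x) := by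
  have h1 := p_hDe hf hg
  have h2 := p_sg (p_hS hf hg) (p_hDe hf hh)
  have h3 := p_psub (CB.p_pair (CB.p_add (CB.p_fst h1) (CB.p_fst h2))
    (CB.p_add (CB.p_snd h1) (CB.p_snd h2))) (p_hDe hf (p_hM hf hg hh))
  exact CB.p_pair (CB.p_div (CB.p_sub (CB.p_fst h3) (CB.p_snd h3)) (p_hR hf))
    (CB.p_div (CB.p_sub (CB.p_snd h3) (CB.p_fst h3)) (p_hR hf))

theorem h05_rel1 (hf : Primrec f) : Primrec fun x =>
    (List.range (pb (f x) + 1)).map fun a => [(gG a, true), (gG (hI (f x) a), true)] := by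
  refine Primrec.list_map (Primrec.list_range.comp (h05_s (h05_pb hf))) ?_
  have h1 : Primrec fun x : β × ℕ => f x.1 := hf.comp Primrec.fst
  have h2 : Primrec fun x : β × ℕ => x.2 := Primrec.snd
  exact C06_pcons true (h05_gG h2) (C06_pl1 true (h05_gG (p_hI h1 h2)))

theorem h05_rel2 (hf : Primrec f) : Primrec fun x =>
    (List.range (pa (f x))).map fun v => [(gG (hDl (f x) (v + 1)), true)] := by
  refine Primrec.list_map (Primrec.list_range.comp (h05_pa hf)) ?_
  have h1 : Primrec fun x : β × ℕ => f x.1 := hf.comp Primrec.fst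
  have h2 : Primrec fun x : β × ℕ => x.2 := Primrec.snd
  exact C06_pl1 true (h05_gG (p_hDl h1 (h05_s h2)))

theorem h05_rel3 (hf : Primrec f) : Primrec fun x =>
    (List.range (pd (f x) + 1)).flatMap fun y => (List.range (pd (f x) + 1)).flatMap fun z =>
      (List.range (pa (f x) + 1)).map fun v =>
        [(gS (f x) y (hP (f x) z v), true), (gS (f x) z v, true),
          (gS (f x) (hM (f x) y z) v, false)] ++
          FreeGroup.invRev (pwW [(0, true)] (kmul (f x) y z)) := by
  refine Primrec.list_flatMap (Primrec.list_range.comp (h05_s (h05_pd hf))) ?_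
  refine Primrec.list_flatMap
    (Primrec.list_range.comp (h05_s (h05_pd (hf.comp Primrec.fst)))) ?_
  refine Primrec.list_map
    (Primrec.list_range.comp (h05_s (h05_pa (hf.comp (Primrec.fst.comp Primrec.fst))))) ?_
  have h1 : Primrec fun x : ((β × ℕ) × ℕ) × ℕ => f x.1.1.1 :=
    hf.comp (Primrec.fst.comp (Primrec.fst.comp Primrec.fst))
  have h2 : Primrec fun x : ((β × ℕ) × ℕ) × ℕ => x.1.1.2 :=
    Primrec.snd.comp (Primrec.fst.comp Primrec.fst)
  have h3 : Primrec fun x : ((β × ℕ) × ℕ) × ℕ => x.1.2 := Primrec.snd.comp Primrec.fst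
  have h4 : Primrec fun x : ((β × ℕ) × ℕ) × ℕ => x.2 := Primrec.snd
  exact Primrec.list_append.comp
    (C06_pcons true (p_gS h1 h2 (p_hP h1 h3 h4)) (C06_pcons true (p_gS h1 h3 h4)
      (C06_pl1 false (p_gS h1 (p_hM h1 h2 h3) h4))))
    (p_invRev (C06_ppwW (Primrec.const [(0, true)]) (h05_kmul h1 h2 h3)))

theorem h05_rel4 (hf : Primrec f) : Primrec fun x =>
    (List.range (pb (f x) + 1)).map fun a => cmW 0 (gG a) := by
  refine Primrec.list_map (Primrec.list_range.comp (h05_s (h05_pb hf))) ?_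
  have h2 : Primrec fun x : β × ℕ => x.2 := Primrec.snd
  exact C06_pcmW (Primrec.const 0) (h05_gG h2)

theorem h05_rel5 (hf : Primrec f) : Primrec fun x =>
    (List.range (pd (f x) + 1)).flatMap fun y => (List.range (pa (f x) + 1)).map fun v =>
      [(gS (f x) y v, true), (0, true), (gS (f x) y v, false),
        (0, decide (hS (f x) y = 1))] := by
  refine Primrec.list_flatMap (Primrec.list_range.comp (h05_s (h05_pd hf))) ?_
  refine Primrec.list_map
    (Primrec.list_range.comp (h05_s (h05_pa (hf.comp Primrec.fst)))) ?_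
  have h1 : Primrec fun x : (β × ℕ) × ℕ => f x.1.1 := hf.comp (Primrec.fst.comp Primrec.fst)
  have h3 : Primrec fun x : (β × ℕ) × ℕ => x.1.2 := Primrec.snd.comp Primrec.fst
  have h4 : Primrec fun x : (β × ℕ) × ℕ => x.2 := Primrec.snd
  have h5 : Primrec fun x : (β × ℕ) × ℕ => decide (hS (f x.1.1) x.1.2 = 1) :=
    (CB.pp_eq (p_hS h1 h3) (Primrec.const 1)).decide
  have h6 : Primrec fun x : (β × ℕ) × ℕ =>
      ([(0, decide (hS (f x.1.1) x.1.2 = 1))] : Wd) :=
    Primrec.list_cons.comp (CB.p_pair (Primrec.const 0) h5) (Primrec.const [])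
  exact C06_pcons true (p_gS h1 h3 h4) (C06_pcons true (Primrec.const 0)
    (C06_pcons false (p_gS h1 h3 h4) h6))

theorem h05_rel6 (hf : Primrec f) : Primrec fun x =>
    (List.range (pd (f x) + 1)).flatMap fun y => (List.range (pb (f x) + 1)).map fun a =>
      [(gS (f x) y (hO (f x) a), true), (gG a, true), (gS (f x) y (hO (f x) (hI (f x) a)), false),
        (gG (hA (f x) y a), false)] := by
  refine Primrec.list_flatMap (Primrec.list_range.comp (h05_s (h05_pd hf))) ?_
  refine Primrec.list_map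
    (Primrec.list_range.comp (h05_s (h05_pb (hf.comp Primrec.fst)))) ?_
  have h1 : Primrec fun x : (β × ℕ) × ℕ => f x.1.1 := hf.comp (Primrec.fst.comp Primrec.fst)
  have h3 : Primrec fun x : (β × ℕ) × ℕ => x.1.2 := Primrec.snd.comp Primrec.fst
  have h4 : Primrec fun x : (β × ℕ) × ℕ => x.2 := Primrec.snd
  exact C06_pcons true (p_gS h1 h3 (p_hO h1 h4)) (C06_pcons true (h05_gG h4)
    (C06_pcons false (p_gS h1 h3 (p_hO h1 (p_hI h1 h4))) (C06_pl1 false (h05_gG (p_hA h1 h3 h4)))))

theorem p_PRl (hf : Primrec f) : Primrec fun x => PRl (f x) := by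
  unfold PRl
  exact Primrec.list_append.comp (h05_rel1 hf) (Primrec.list_append.comp (h05_rel2 hf)
    (Primrec.list_append.comp (h05_rel3 hf) (Primrec.list_append.comp (h05_rel4 hf)
      (Primrec.list_append.comp (h05_rel5 hf) (h05_rel6 hf)))))

theorem p_pPres (hf : Primrec f) : Primrec fun x => pPres (f x) := by
  unfold pPres
  exact CB.p_pair (p_ng hf) (p_PRl hf)

theorem p_hW {e : β → ECd} (hf : Primrec f) (he : Primrec e) :
    Primrec fun x => hW (f x) (e x) := by
  unfold hW
  refine Primrec.list_append.comp ?_ (Primrec.list_append.comp ?_ ?_)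
  · refine Primrec.list_map (CB.p_fst (CB.p_snd he)) ?_
    have h1 : Primrec fun x : β × ℕ => f x.1 := hf.comp Primrec.fst
    have h2 : Primrec fun x : β × ℕ => x.2 := Primrec.snd
    exact CB.p_pair (h05_gG (CB.p_mod h2 (h05_s (h05_pb h1)))) (Primrec.const true)
  · exact C06_pl1 true (p_gS hf
      (CB.p_mod (CB.p_fst (CB.p_fst (CB.p_fst (CB.p_snd (CB.p_snd he))))) (h05_s (h05_pd hf)))
      (CB.p_mod (CB.p_snd (CB.p_snd (CB.p_fst he))) (h05_s (h05_pa hf))))
  · exact C06_ppwW (Primrec.const [(0, true)])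
      (CB.p_snd (CB.p_fst (CB.p_fst (CB.p_snd (CB.p_snd he)))))

theorem p_bW {e : β → ECd} (hf : Primrec f) (he : Primrec e) :
    Primrec fun x => bW (f x) (e x) := by
  unfold bW
  refine Primrec.list_append.comp ?_ ?_
  · exact C06_pl1 true (p_gS hf
      (CB.p_mod (CB.p_fst (CB.p_snd (CB.p_fst (CB.p_snd (CB.p_snd he))))) (h05_s (h05_pd hf)))
      (CB.p_mod (CB.p_snd (CB.p_snd (CB.p_fst he))) (h05_s (h05_pa hf))))
  · exact C06_ppwW (Primrec.const [(0, true)])
      (CB.p_snd (CB.p_snd (CB.p_fst (CB.p_snd (CB.p_snd he)))))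

end

end VF
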