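import Mathlib

/-!
# Finite cuts of connected graphs

Graphs are symmetric relations. `bd A C` is the set of the oriented edges that leave `C`. In a
connected graph only finitely many tight cuts (connected, with connected complement) with at most
`k` boundary edges separate two given vertices (Thomassen and Woess), and only finitely many of
them are not nested with a given cut.
-/

set_option autoImplicit false

namespace KPS

variable {X : Type}

/-- `C` is connected -/
def Conn (A : X → X → Prop) (C : Set X) : Prop :=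
  ∀ x ∈ C, ∀ y ∈ C, Relation.ReflTransGen (fun a b => A a b ∧ a ∈ C ∧ b ∈ C) x y

/-- oriented boundary -/
def bd (A : X → X → Prop) (C : Set X) : Set (X × X) := {p | A p.1 p.2 ∧ p.1 ∈ C ∧ p.2 ∉ C}

/-- the tight cuts with at most `k` boundary edges -/
def Tight (A : X → X → Prop) (k : ℕ) : Set (Set X) :=
  {C | Conn A C ∧ Conn A Cᶜ ∧ (bd A C).Finite ∧ (bd A C).ncard ≤ k}

/-- two sets are nested -/
def Nested (C D : Set X) : Prop := C ⊆ D ∨ C ⊆ Dᶜ ∨ Cᶜ ⊆ D ∨ Cᶜ ⊆ Dᶜ

theorem rtg_mono {R R' : X → X → Prop} (h : ∀ a b, R a b → R' a b) {x y : X}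
    (hp : Relation.ReflTransGen R x y) : Relation.ReflTransGen R' x y := by
  induction hp with
  | refl => exact Relation.ReflTransGen.refl
  | tail _ hbc ih => exact ih.tail (h _ _ hbc)

theorem rtg_symm {R : X → X → Prop} (h : ∀ a b, R a b → R b a) {x y : X}
    (hp : Relation.ReflTransGen R x y) : Relation.ReflTransGen R y x := by
  induction hp with
  | refl => exact Relation.ReflTransGen.refl
  | tail _ hbc ih => exact Relation.ReflTransGen.head (h _ _ hbc) ih

/-- a path leaves a set -/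
theorem exit_of_path {R : X → X → Prop} {x y : X} (h : Relation.ReflTransGen R x y) {C : Set X}
    (hx : x ∈ C) (hy : y ∉ C) : ∃ a b, R a b ∧ a ∈ C ∧ b ∉ C := by
  induction h with
  | refl => exact absurd hx hy
  | @tail b c _ hbc ih =>
    by_cases hb : b ∈ C
    · exact ⟨b, c, hbc, hb, hy⟩
    · exact ih hb

theorem fin_of_edges {A : X → X → Prop} (T : Set (Set X))
    (hedge : ∀ x y, A x y → {C | C ∈ T ∧ x ∈ C ∧ y ∉ C}.Finite) {x y : X}
    (h : Relation.ReflTransGen A x y) : {C | C ∈ T ∧ x ∈ C ∧ y ∉ C}.Finite := by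
  induction h with
  | refl =>
    refine Set.Finite.subset Set.finite_empty ?_
    rintro C ⟨_, h1, h2⟩
    exact absurd h1 h2
  | @tail b c _ hbc ih =>
    refine Set.Finite.subset (ih.union (hedge b c hbc)) ?_
    rintro C ⟨h0, h1, h2⟩
    by_cases hb : b ∈ C
    · exact Or.inr ⟨h0, hb, h2⟩
    · exact Or.inl ⟨h0, h1, hb⟩

/-- Thomassen and Woess -/
theorem tight_finite (k : ℕ) : ∀ (A : X → X → Prop), (∀ a b, A a b → A b a) →
    (∀ x y, Relation.ReflTransGen A x y) → ∀ x y, {C | C ∈ Tight A k ∧ x ∈ C ∧ y ∉ C}.Finite := by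
  induction k with
  | zero =>
    intro A sym hc x y
    apply fin_of_edges (A := A) _ _ (hc x y)
    intro a b hab
    refine Set.Finite.subset Set.finite_empty ?_
    rintro C ⟨⟨_, _, hf, h0⟩, h1, h2⟩
    have h3 : (bd A C).ncard = 0 := by omega
    rw [Set.ncard_eq_zero hf] at h3
    have h4 : (a, b) ∈ bd A C := ⟨hab, h1, h2⟩
    rw [h3] at h4
    exact h4
  | succ k ih =>
    intro A sym hc x y
    apply fin_of_edges (A := A) _ _ (hc x y)
    intro a b hab
    -- delete the edge
    obtain ⟨A', hA'⟩ : ∃ A' : X → X → Prop, A' = fun p q =>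
      A p q ∧ ¬ (p = a ∧ q = b) ∧ ¬ (p = b ∧ q = a) := ⟨_, rfl⟩
    have sym' : ∀ p q, A' p q → A' q p := by
      intro p q h
      rw [hA'] at h ⊢
      exact ⟨sym _ _ h.1, fun h1 => h.2.2 ⟨h1.2, h1.1⟩, fun h1 => h.2.1 ⟨h1.2, h1.1⟩⟩
    have symR : ∀ {p q}, Relation.ReflTransGen A' p q → Relation.ReflTransGen A' q p := by
      intro p q h
      exact rtg_symm sym' h
    -- connectedness survives
    have hconn : ∀ C : Set X, Conn A C → ¬ (a ∈ C ∧ b ∈ C) → Conn A' C := by
      intro C hC hn p hp q hq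
      refine rtg_mono ?_ (hC p hp q hq)
      rintro u v ⟨h1, h2, h3⟩
      refine ⟨?_, h2, h3⟩
      rw [hA']
      refine ⟨h1, ?_, ?_⟩
      · rintro ⟨rfl, rfl⟩; exact hn ⟨h2, h3⟩
      · rintro ⟨rfl, rfl⟩; exact hn ⟨h3, h2⟩
    by_cases hpath : Relation.ReflTransGen A' a b
    · -- the smaller graph is connected
      have hc' : ∀ x y, Relation.ReflTransGen A' x y := by
        intro p q
        induction hc p q with
        | refl => exact Relation.ReflTransGen.refl
        | @tail u v _ huv ih2 =>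
          by_cases h1 : u = a ∧ v = b
          · obtain ⟨rfl, rfl⟩ := h1
            exact ih2.trans hpath
          · by_cases h2 : u = b ∧ v = a
            · obtain ⟨rfl, rfl⟩ := h2
              exact ih2.trans (symR hpath)
            · refine ih2.tail ?_
              rw [hA']
              exact ⟨huv, h1, h2⟩
      refine Set.Finite.subset (ih A' sym' hc' a b) ?_
      rintro C ⟨⟨hC1, hC2, hf, hk⟩, h1, h2⟩
      have hsub : bd A' C ⊆ bd A C \ {(a, b)} := by
        rintro ⟨p, q⟩ ⟨hp1, hp2, hp3⟩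
        rw [hA'] at hp1
        refine ⟨⟨hp1.1, hp2, hp3⟩, ?_⟩
        intro h
        rw [Set.mem_singleton_iff, Prod.mk.injEq] at h
        exact hp1.2.1 h
      refine ⟨⟨hconn C hC1 (fun h => h2 h.2), hconn Cᶜ hC2 (fun h => h.1 h1),
        (hf.sdiff).subset hsub, ?_⟩, h1, h2⟩
      have h3 : (bd A C \ {(a, b)}).ncard + 1 = (bd A C).ncard :=
        Set.ncard_sdiff_singleton_add_one ⟨hab, h1, h2⟩ hf
      have h4 : (bd A' C).ncard ≤ (bd A C \ {(a, b)}).ncard :=
        Set.ncard_le_ncard hsub hf.sdiff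
      omega
    · -- the cut is a component
      refine Set.Finite.subset (Set.finite_singleton {z | Relation.ReflTransGen A' a z}) ?_
      rintro C ⟨⟨hC1, hC2, _, _⟩, h1, h2⟩
      rw [Set.mem_singleton_iff]
      have hC1' := hconn C hC1 (fun h => h2 h.2)
      have hC2' := hconn Cᶜ hC2 (fun h => h.1 h1)
      ext z
      constructor
      · intro hz
        exact rtg_mono (fun _ _ h => h.1) (hC1' a h1 z hz)
      · intro hz
        by_contra hzC
        apply hpath
        have h3 : Relation.ReflTransGen A' z b :=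
          rtg_mono (fun _ _ h => h.1) (hC2' z hzC b h2)
        exact Relation.ReflTransGen.trans hz h3

/-- only finitely many tight cuts are not nested with a given cut -/
theorem nonnested_finite {A : X → X → Prop} (sym : ∀ a b, A a b → A b a)
    (hc : ∀ x y, Relation.ReflTransGen A x y) (k : ℕ) (C : Set X) (hC : (bd A C).Finite) :
    {D | D ∈ Tight A k ∧ ¬ Nested C D}.Finite := by
  obtain ⟨P, hP⟩ : ∃ P : Set X, P = Prod.fst '' (bd A C) ∪ Prod.snd '' (bd A C) := ⟨_, rfl⟩
  have hPf : P.Finite := by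
    rw [hP]
    exact (hC.image _).union (hC.image _)
  have hside : ∀ D : Set X, Conn A D → (∀ p ∈ P, p ∉ D) → D ⊆ C ∨ D ⊆ Cᶜ := by
    intro D hD hPD
    by_contra hcon
    rw [not_or, Set.not_subset, Set.not_subset] at hcon
    obtain ⟨⟨z1, h1, h1'⟩, ⟨z2, h2, h2'⟩⟩ := hcon
    have h3 : z2 ∈ C := by
      by_contra h
      exact h2' h
    obtain ⟨u, v, ⟨huv, hu, hv⟩, hu', hv'⟩ := exit_of_path (hD z2 h2 z1 h1) h3 h1'
    have h4 : u ∈ P := by
      rw [hP]
      exact Or.inl ⟨(u, v), ⟨huv, hu', hv'⟩, rfl⟩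
    exact hPD u h4 hu
  refine Set.Finite.subset (Set.Finite.biUnion hPf fun p _ =>
    Set.Finite.biUnion hPf fun q _ => tight_finite k A sym hc p q) ?_
  rintro D ⟨hD, hn⟩
  simp only [Set.mem_iUnion]
  by_contra hcon
  apply hn
  have h1 : (∀ p ∈ P, p ∉ D) ∨ (∀ p ∈ P, p ∉ Dᶜ) := by
    by_contra h
    push Not at h
    obtain ⟨⟨p, hp, hpD⟩, ⟨q, hq, hqD⟩⟩ := h
    exact hcon ⟨p, hp, q, hq, hD, hpD, hqD⟩
  rcases h1 with h1 | h1
  · rcases hside D hD.1 h1 with h2 | h2
    · exact Or.inr (Or.inr (Or.inr (Set.compl_subset_compl.mpr h2)))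
    · exact Or.inr (Or.inl (Set.subset_compl_comm.mp h2))
  · rcases hside Dᶜ hD.2.1 h1 with h2 | h2
    · exact Or.inr (Or.inr (Or.inl (Set.compl_subset_comm.mp h2)))
    · exact Or.inl (Set.compl_subset_compl.mp h2)

end KPS
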