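import Pool.Agent.Lib.MP_32d917_al_vf.K1

/-!
# Ends of elements of infinite order and minimal separators
-/

set_option autoImplicit false

namespace KPS

open Filter

variable {L : Type} [Group L]

/-- the Cayley graph -/
def ad (Sg : Set L) (x y : L) : Prop := x⁻¹ * y ∈ Sg

/-- a finite symmetric generating set -/
structure Gen (Sg : Set L) : Prop where
  fin : Sg.Finite
  sym : ∀ s ∈ Sg, s⁻¹ ∈ Sg
  gen : ∀ x y, Relation.ReflTransGen (ad Sg) x y

theorem ad_symm {Sg : Set L} (h : Gen Sg) (x y : L) (hxy : ad Sg x y) : ad Sg y x := by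
  have h1 := h.sym _ hxy
  rw [mul_inv_rev, inv_inv] at h1
  exact h1

theorem ad_mul {Sg : Set L} (g x y : L) : ad Sg (g * x) (g * y) ↔ ad Sg x y := by
  unfold ad
  have h : (g * x)⁻¹ * (g * y) = x⁻¹ * y := by group
  rw [h]

/-- the element `g` has infinite order -/
def Inf (g : L) : Prop := Function.Injective (fun n : ℕ => g ^ n)

theorem Inf.inv {g : L} (h : Inf g) : Inf g⁻¹ := by
  intro m n hmn
  apply h
  have h1 : (g⁻¹) ^ m = (g⁻¹) ^ n := hmn
  rw [inv_pow, inv_pow] at h1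
  exact inv_injective h1

theorem ev_of_fin {S : Set ℕ} (h : S.Finite) : ∀ᶠ n in atTop, n ∉ S := by
  obtain ⟨N, hN⟩ := h.bddAbove
  refine eventually_atTop.mpr ⟨N + 1, fun n hn hnS => ?_⟩
  have := hN hnS
  omega

theorem ev_pow {g : L} (hg : Inf g) {S : Set L} (h : S.Finite) : ∀ᶠ n : ℕ in atTop, g ^ n ∉ S :=
  ev_of_fin (h.preimage hg.injOn)

/-- almost invariance -/
theorem ai {Sg : Set L} (hS : Gen Sg) {C : Set L} (hC : (bd (ad Sg) C).Finite) (u : L) :
    {x | x ∈ C ∧ x * u ∉ C}.Finite := by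
  have h := hS.gen 1 u
  induction h with
  | refl =>
    refine Set.Finite.subset Set.finite_empty ?_
    rintro x ⟨h1, h2⟩
    rw [mul_one] at h2
    exact absurd h1 h2
  | @tail b c _ hbc ih =>
    have h2 : {x | (x * b, x * c) ∈ bd (ad Sg) C}.Finite := by
      refine hC.preimage (f := fun x => (x * b, x * c)) ?_
      intro x _ y _ hxy
      simp only [Prod.mk.injEq] at hxy
      exact mul_right_cancel hxy.1
    refine Set.Finite.subset (ih.union h2) ?_
    rintro x ⟨h3, h4⟩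
    by_cases h5 : x * b ∈ C
    · exact Or.inr ⟨(ad_mul x b c).mpr hbc, h5, h4⟩
    · exact Or.inl ⟨h3, h5⟩

theorem bd_compl {A : L → L → Prop} (sym : ∀ a b, A a b → A b a) (C : Set L) :
    bd A Cᶜ = Prod.swap '' (bd A C) := by
  ext ⟨p, q⟩
  constructor
  · rintro ⟨h1, h2, h3⟩
    refine ⟨(q, p), ⟨sym _ _ h1, ?_, h2⟩, rfl⟩
    by_contra h
    exact h3 h
  · rintro ⟨⟨a, b⟩, ⟨h1, h2, h3⟩, h4⟩
    simp only [Prod.swap_prod_mk, Prod.mk.injEq] at h4
    obtain ⟨rfl, rfl⟩ := h4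
    exact ⟨sym _ _ h1, h3, fun h => h h2⟩

theorem bd_compl_fin {A : L → L → Prop} (sym : ∀ a b, A a b → A b a) {C : Set L}
    (h : (bd A C).Finite) : (bd A Cᶜ).Finite := by
  rw [bd_compl sym]
  exact h.image _

theorem bd_compl_ncard {A : L → L → Prop} (sym : ∀ a b, A a b → A b a) (C : Set L) :
    (bd A Cᶜ).ncard = (bd A C).ncard := by
  rw [bd_compl sym]
  exact Set.ncard_image_of_injective _ Prod.swap_injective

/-- the positive end of `g` lies in `C` -/
def Pos (g : L) (C : Set L) : Prop := ∀ᶠ n : ℕ in atTop, g ^ n ∈ C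

theorem Pos.not {g : L} {C : Set L} (h : Pos g C) : ¬ Pos g Cᶜ := by
  intro h'
  obtain ⟨n, hn, hn'⟩ := (Filter.Eventually.and h h').exists
  exact hn' hn

theorem Pos.mono {g : L} {C D : Set L} (h : Pos g C) (hs : C ⊆ D) : Pos g D :=
  Filter.Eventually.mono h fun _ hn => hs hn

theorem Pos.inter {g : L} {C D : Set L} (h : Pos g C) (h' : Pos g D) : Pos g (C ∩ D) :=
  Filter.Eventually.mono (Filter.Eventually.and h h') fun _ hn => hn

theorem pos_shift {Sg : Set L} (hS : Gen Sg) {g : L} (hg : Inf g) {C : Set L}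
    (hC : (bd (ad Sg) C).Finite) (h : Pos g C) (u : L) : ∀ᶠ n : ℕ in atTop, g ^ n * u ∈ C := by
  filter_upwards [h, ev_pow hg (ai hS hC u)] with n h1 h2
  by_contra h3
  exact h2 ⟨h1, h3⟩

theorem pos_or {Sg : Set L} (hS : Gen Sg) {g : L} (hg : Inf g) {C : Set L}
    (hC : (bd (ad Sg) C).Finite) : Pos g C ∨ Pos g Cᶜ := by
  have h1 := ev_pow hg (ai hS hC g)
  have h2 := ev_pow hg (ai hS (bd_compl_fin (ad_symm hS) hC) g)
  obtain ⟨N, hN⟩ := eventually_atTop.mp (h1.and h2)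
  have hstep : ∀ n, N ≤ n → (g ^ n ∈ C ↔ g ^ (n + 1) ∈ C) := by
    intro n hn
    obtain ⟨h3, h4⟩ := hN n hn
    rw [pow_succ]
    constructor
    · intro h5
      by_contra h6
      exact h3 ⟨h5, h6⟩
    · intro h5
      by_contra h6
      exact h4 ⟨h6, fun h => h h5⟩
  have hall : ∀ n, (g ^ N ∈ C ↔ g ^ (N + n) ∈ C) := by
    intro n
    induction n with
    | zero => exact Iff.rfl
    | succ n ih => exact ih.trans (hstep (N + n) (by omega))
  by_cases h : g ^ N ∈ C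
  · left
    refine eventually_atTop.mpr ⟨N, fun n hn => ?_⟩
    obtain ⟨m, rfl⟩ := Nat.exists_eq_add_of_le hn
    exact (hall m).mp h
  · right
    refine eventually_atTop.mpr ⟨N, fun n hn => ?_⟩
    obtain ⟨m, rfl⟩ := Nat.exists_eq_add_of_le hn
    exact fun h' => h ((hall m).mpr h')

/-- `C` separates the two ends of `g` -/
def Sep (g : L) (C : Set L) : Prop := (Pos g C ∧ Pos g⁻¹ Cᶜ) ∨ (Pos g Cᶜ ∧ Pos g⁻¹ C)

theorem Sep.compl {g : L} {C : Set L} (h : Sep g C) : Sep g Cᶜ := by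
  unfold Sep at h ⊢
  rw [compl_compl]
  exact h.symm

theorem Sep.inv {g : L} {C : Set L} (h : Sep g C) : Sep g⁻¹ C := by
  unfold Sep at h ⊢
  rw [inv_inv]
  rcases h with h | h
  · exact Or.inr ⟨h.2, h.1⟩
  · exact Or.inl ⟨h.2, h.1⟩

/-- separators of the ends of `g` with finite boundary -/
def Cand (Sg : Set L) (g : L) : Set (Set L) := {C | (bd (ad Sg) C).Finite ∧ Sep g C}

/-- minimal separators -/
def Cmin (Sg : Set L) (g : L) : Set (Set L) :=
  {C | C ∈ Cand Sg g ∧ ∀ D ∈ Cand Sg g, (bd (ad Sg) C).ncard ≤ (bd (ad Sg) D).ncard}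

theorem Cand.compl {Sg : Set L} (hS : Gen Sg) {g : L} {C : Set L} (h : C ∈ Cand Sg g) :
    Cᶜ ∈ Cand Sg g := ⟨bd_compl_fin (ad_symm hS) h.1, h.2.compl⟩

theorem Cand.inv {Sg : Set L} {g : L} {C : Set L} (h : C ∈ Cand Sg g) : C ∈ Cand Sg g⁻¹ :=
  ⟨h.1, h.2.inv⟩

theorem Cmin.compl {Sg : Set L} (hS : Gen Sg) {g : L} {C : Set L} (h : C ∈ Cmin Sg g) :
    Cᶜ ∈ Cmin Sg g := by
  refine ⟨Cand.compl hS h.1, fun D hD => ?_⟩
  rw [bd_compl_ncard (ad_symm hS)]
  exact h.2 D hD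

theorem Cmin.inv {Sg : Set L} {g : L} {C : Set L} (h : C ∈ Cmin Sg g) : C ∈ Cmin Sg g⁻¹ := by
  refine ⟨Cand.inv h.1, fun D hD => h.2 D ?_⟩
  have := Cand.inv hD
  rwa [inv_inv] at this

/-- minimal separators are connected -/
theorem conn_of_min {Sg : Set L} (hS : Gen Sg) {g : L} (hg : Inf g) {C : Set L}
    (hC : C ∈ Cmin Sg g) (hp : Pos g C) (hq : Pos g⁻¹ Cᶜ) : Conn (ad Sg) C := by
  have sym := ad_symm hS
  obtain ⟨R, hR⟩ : ∃ R : L → L → Prop, R = fun a b => ad Sg a b ∧ a ∈ C ∧ b ∈ C := ⟨_, rfl⟩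
  have symR : ∀ a b, R a b → R b a := by
    intro a b h
    rw [hR] at h ⊢
    exact ⟨sym _ _ h.1, h.2.2, h.2.1⟩
  -- the tail lies in one component
  have hpath : ∀ u : L, ∀ᶠ n : ℕ in atTop, Relation.ReflTransGen R (g ^ n) (g ^ n * u) := by
    intro u
    have h := hS.gen 1 u
    induction h with
    | refl =>
      refine Eventually.of_forall fun n => ?_
      rw [mul_one]
    | @tail b c _ hbc ih =>
      filter_upwards [ih, pos_shift hS hg hC.1.1 hp b, pos_shift hS hg hC.1.1 hp c] with n h1 h2 h3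
      refine h1.tail ?_
      rw [hR]
      exact ⟨(ad_mul _ _ _).mpr hbc, h2, h3⟩
  obtain ⟨N, hN⟩ := eventually_atTop.mp (hp.and (hpath g))
  obtain ⟨K, hK⟩ : ∃ K : Set L, K = {z | Relation.ReflTransGen R (g ^ N) z} := ⟨_, rfl⟩
  have hKC : K ⊆ C := by
    intro z hz
    rw [hK] at hz
    rcases Relation.ReflTransGen.cases_tail hz with h | ⟨w, _, h⟩
    · rw [h]; exact (hN N le_rfl).1
    · rw [hR] at h; exact h.2.2
  have hpK : Pos g K := by
    have h1 : ∀ m, g ^ (N + m) ∈ K := by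
      intro m
      induction m with
      | zero => rw [hK]; exact Relation.ReflTransGen.refl
      | succ m ih =>
        rw [hK] at ih ⊢
        have h2 := (hN (N + m) (by omega)).2
        rw [← pow_succ] at h2
        exact Relation.ReflTransGen.trans ih h2
    refine eventually_atTop.mpr ⟨N, fun n hn => ?_⟩
    obtain ⟨m, rfl⟩ := Nat.exists_eq_add_of_le hn
    exact h1 m
  have hstepK : ∀ a b, a ∈ K → ad Sg a b → b ∈ C → b ∈ K := by
    intro a b ha hab hb
    have haC := hKC ha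
    rw [hK] at ha ⊢
    refine Relation.ReflTransGen.tail ha ?_
    rw [hR]
    exact ⟨hab, haC, hb⟩
  have hsub : bd (ad Sg) K ⊆ bd (ad Sg) C := by
    rintro ⟨a, b⟩ ⟨h1, h2, h3⟩
    exact ⟨h1, hKC h2, fun h => h3 (hstepK a b h2 h1 h)⟩
  have hKcand : K ∈ Cand Sg g :=
    ⟨hC.1.1.subset hsub, Or.inl ⟨hpK, hq.mono (Set.compl_subset_compl.mpr hKC)⟩⟩
  have heq : bd (ad Sg) K = bd (ad Sg) C :=
    Set.eq_of_subset_of_ncard_le hsub (hC.2 K hKcand) hC.1.1
  have hCK : C ⊆ K := by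
    intro z hz
    by_contra hzK
    have h1 : g ^ N ∈ K := by rw [hK]; exact Relation.ReflTransGen.refl
    obtain ⟨a, b, hab, ha, hb⟩ := exit_of_path (C := C \ K) (hS.gen z (g ^ N)) ⟨hz, hzK⟩
      (fun h => h.2 h1)
    have hbK : b ∉ K := fun h => ha.2 (hstepK b a h (sym _ _ hab) ha.1)
    have hbC : b ∉ C := fun h => hb ⟨h, hbK⟩
    have h2 : (a, b) ∈ bd (ad Sg) K := by
      rw [heq]
      exact ⟨hab, ha.1, hbC⟩
    exact ha.2 h2.2.1
  intro x hx y hy
  have h1 := hCK hx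
  have h2 := hCK hy
  rw [hK] at h1 h2
  rw [hR] at h1 h2 symR
  exact Relation.ReflTransGen.trans (rtg_symm symR h1) h2

/-- minimal separators are tight -/
theorem tight_of_min {Sg : Set L} (hS : Gen Sg) {g : L} (hg : Inf g) {C : Set L}
    (hC : C ∈ Cmin Sg g) : Conn (ad Sg) C ∧ Conn (ad Sg) Cᶜ := by
  rcases hC.1.2 with ⟨h1, h2⟩ | ⟨h1, h2⟩
  · refine ⟨conn_of_min hS hg hC h1 h2, ?_⟩
    refine conn_of_min hS hg.inv (Cmin.inv (Cmin.compl hS hC)) h2 ?_
    rw [inv_inv, compl_compl]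
    exact h1
  · constructor
    · refine conn_of_min hS hg.inv (Cmin.inv hC) h2 ?_
      rw [inv_inv]
      exact h1
    · refine conn_of_min hS hg (Cmin.compl hS hC) h1 ?_
      rw [compl_compl]
      exact h2

end KPS
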