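import Pool.Agent.Lib.MP_32d917_al_vf.K2

/-!
# Optimal separators are nested
-/

set_option autoImplicit false

namespace KPS

open Filter

variable {L : Type} [Group L]

theorem Nested.symm {X : Type} {C D : Set X} (h : Nested C D) : Nested D C := by
  rcases h with h | h | h | h
  · exact Or.inr (Or.inr (Or.inr (Set.compl_subset_compl.mpr h)))
  · exact Or.inr (Or.inl (Set.subset_compl_comm.mp h))
  · exact Or.inr (Or.inr (Or.inl (Set.compl_subset_comm.mp h)))
  · exact Or.inl (Set.compl_subset_compl.mp h)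

theorem Nested.compl_left {X : Type} {C D : Set X} (h : Nested C D) : Nested Cᶜ D := by
  unfold Nested at h ⊢
  rw [compl_compl]
  rcases h with h | h | h | h
  · exact Or.inr (Or.inr (Or.inl h))
  · exact Or.inr (Or.inr (Or.inr h))
  · exact Or.inl h
  · exact Or.inr (Or.inl h)

theorem nested_compl {X : Type} {C D : Set X} : Nested Cᶜ D ↔ Nested C D := by
  constructor
  · intro h
    have := h.compl_left
    rwa [compl_compl] at this
  · exact Nested.compl_left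

/-- submodularity -/
theorem submod {A : L → L → Prop} (sym : ∀ a b, A a b → A b a) {C D : Set L}
    (hC : (bd A C).Finite) (hD : (bd A D).Finite) :
    (bd A (C ∩ D)).Finite ∧
    (bd A (C ∩ D)).ncard + (bd A (Cᶜ ∩ Dᶜ)).ncard ≤ (bd A C).ncard + (bd A D).ncard := by
  have h1 : bd A (C ∩ D) ∪ bd A (C ∪ D) ⊆ bd A C ∪ bd A D := by
    rintro ⟨p, q⟩ (⟨h1, h2, h3⟩ | ⟨h1, h2, h3⟩)
    · by_cases h4 : q ∈ C
      · right
        exact ⟨h1, h2.2, fun h5 => h3 ⟨h4, h5⟩⟩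
      · left
        exact ⟨h1, h2.1, h4⟩
    · rcases h2 with h2 | h2
      · left
        exact ⟨h1, h2, fun h => h3 (Or.inl h)⟩
      · right
        exact ⟨h1, h2, fun h => h3 (Or.inr h)⟩
  have h2 : bd A (C ∩ D) ∩ bd A (C ∪ D) ⊆ bd A C ∩ bd A D := by
    rintro ⟨p, q⟩ ⟨⟨h1, h2, h3⟩, ⟨h4, h5, h6⟩⟩
    exact ⟨⟨h1, h2.1, fun h => h6 (Or.inl h)⟩, ⟨h1, h2.2, fun h => h6 (Or.inr h)⟩⟩
  have hU := hC.union hD
  have hf1 : (bd A (C ∩ D)).Finite := hU.subset (Set.subset_union_left.trans h1)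
  have hf2 : (bd A (C ∪ D)).Finite := hU.subset (Set.subset_union_right.trans h1)
  refine ⟨hf1, ?_⟩
  have h3 : Cᶜ ∩ Dᶜ = (C ∪ D)ᶜ := by rw [Set.compl_union]
  rw [h3, bd_compl_ncard sym, ← Set.ncard_union_add_ncard_inter _ _ hf1 hf2,
    ← Set.ncard_union_add_ncard_inter _ _ hC hD]
  exact Nat.add_le_add (Set.ncard_le_ncard h1 hU)
    (Set.ncard_le_ncard h2 (hC.subset Set.inter_subset_left))

/-- number of tight cuts that are not nested with `C` -/
noncomputable def mm (Sg : Set L) (k : ℕ) (C : Set L) : ℕ :=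
  {D | D ∈ Tight (ad Sg) k ∧ ¬ Nested C D}.ncard

theorem mm_compl (Sg : Set L) (k : ℕ) (C : Set L) : mm Sg k Cᶜ = mm Sg k C := by
  unfold mm
  simp only [nested_compl]

theorem mm_lt {Sg : Set L} (hS : Gen Sg) {k : ℕ} {C D : Set L} (hC : C ∈ Tight (ad Sg) k)
    (hD : D ∈ Tight (ad Sg) k) (h : ¬ Nested C D) :
    mm Sg k (C ∩ D) + mm Sg k (Cᶜ ∩ Dᶜ) < mm Sg k C + mm Sg k D := by
  have sym := ad_symm hS
  obtain ⟨N, hN⟩ : ∃ N : Set L → Set (Set L),
    N = fun K => {E | E ∈ Tight (ad Sg) k ∧ ¬ Nested K E} := ⟨_, rfl⟩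
  have hm : ∀ K, mm Sg k K = (N K).ncard := by intro K; rw [hN]; rfl
  have hfin : ∀ K, (bd (ad Sg) K).Finite → (N K).Finite := by
    intro K hK
    rw [hN]
    exact nonnested_finite sym hS.gen k K hK
  have hNC := hfin C hC.2.2.1
  have hND := hfin D hD.2.2.1
  have hf1 := (submod sym hC.2.2.1 hD.2.2.1).1
  have hf2 := (submod sym (bd_compl_fin sym hC.2.2.1) (bd_compl_fin sym hD.2.2.1)).1
  have hN1 := hfin _ hf1
  have hN2 := hfin _ hf2
  have hU : N (C ∩ D) ∪ N (Cᶜ ∩ Dᶜ) ⊆ (N C ∪ N D) \ {C} := by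
    intro E hE
    constructor
    · by_contra hcon
      rw [hN] at hE hcon
      rw [Set.mem_union, not_or] at hcon
      have hET : E ∈ Tight (ad Sg) k := by
        rcases hE with hE | hE <;> exact hE.1
      have h1 : Nested C E := by
        by_contra h'
        exact hcon.1 ⟨hET, h'⟩
      have h2 : Nested D E := by
        by_contra h'
        exact hcon.2 ⟨hET, h'⟩
      -- nested with both: nested with the corners
      have key : ∀ C D : Set L, ¬ Nested C D → Nested C E → Nested D E → Nested (C ∩ D) E := by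
        intro C D h h1 h2
        rcases h1 with h1 | h1 | h1 | h1
        · exact Or.inl (Set.inter_subset_left.trans h1)
        · exact Or.inr (Or.inl (Set.inter_subset_left.trans h1))
        · rcases h2 with h2 | h2 | h2 | h2
          · exact Or.inl (Set.inter_subset_right.trans h2)
          · exact Or.inr (Or.inl (Set.inter_subset_right.trans h2))
          · refine Or.inr (Or.inr (Or.inl ?_))
            rw [Set.compl_inter]
            exact Set.union_subset h1 h2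
          · exfalso
            apply h
            refine Or.inr (Or.inr (Or.inl ?_))
            exact h1.trans (Set.subset_compl_comm.mp h2 |>.trans (by rw [compl_compl]))
        · rcases h2 with h2 | h2 | h2 | h2
          · exact Or.inl (Set.inter_subset_right.trans h2)
          · exact Or.inr (Or.inl (Set.inter_subset_right.trans h2))
          · exfalso
            apply h
            refine Or.inr (Or.inr (Or.inl ?_))
            exact h1.trans (Set.compl_subset_comm.mp h2)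
          · refine Or.inr (Or.inr (Or.inr ?_))
            rw [Set.compl_inter]
            exact Set.union_subset h1 h2
      rcases hE with hE | hE
      · exact hE.2 (key C D h h1 h2)
      · refine hE.2 (key Cᶜ Dᶜ ?_ h1.compl_left h2.compl_left)
        intro h3
        apply h
        have h4 := (nested_compl.mp h3).symm
        exact (nested_compl.mp h4).symm
    · intro hEC
      rw [Set.mem_singleton_iff] at hEC
      rw [hN, hEC] at hE
      rcases hE with hE | hE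
      · exact hE.2 (Or.inl Set.inter_subset_left)
      · exact hE.2 (Or.inr (Or.inl Set.inter_subset_left))
  have hI : N (C ∩ D) ∩ N (Cᶜ ∩ Dᶜ) ⊆ N C ∩ N D := by
    intro E hE
    rw [hN] at hE ⊢
    have key : ∀ C D : Set L, ¬ Nested (C ∩ D) E → ¬ Nested (Cᶜ ∩ Dᶜ) E → ¬ Nested C E := by
      intro C D h1 h2 h3
      rcases h3 with h3 | h3 | h3 | h3
      · exact h1 (Or.inl (Set.inter_subset_left.trans h3))
      · exact h1 (Or.inr (Or.inl (Set.inter_subset_left.trans h3)))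
      · exact h2 (Or.inl (Set.inter_subset_left.trans h3))
      · exact h2 (Or.inr (Or.inl (Set.inter_subset_left.trans h3)))
    refine ⟨⟨hE.1.1, key C D hE.1.2 hE.2.2⟩, ⟨hE.1.1, key D C ?_ ?_⟩⟩
    · rw [Set.inter_comm]; exact hE.1.2
    · rw [Set.inter_comm]; exact hE.2.2
  have hCmem : C ∈ N C ∪ N D := by
    right
    rw [hN]
    exact ⟨hC, fun h' => h h'.symm⟩
  rw [hm, hm, hm, hm, ← Set.ncard_union_add_ncard_inter _ _ hN1 hN2,
    ← Set.ncard_union_add_ncard_inter _ _ hNC hND]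
  have h1 : (N (C ∩ D) ∪ N (Cᶜ ∩ Dᶜ)).ncard ≤ ((N C ∪ N D) \ {C}).ncard :=
    Set.ncard_le_ncard hU ((hNC.union hND).sdiff)
  have h2 : ((N C ∪ N D) \ {C}).ncard + 1 = (N C ∪ N D).ncard :=
    Set.ncard_sdiff_singleton_add_one hCmem (hNC.union hND)
  have h3 : (N (C ∩ D) ∩ N (Cᶜ ∩ Dᶜ)).ncard ≤ (N C ∩ N D).ncard :=
    Set.ncard_le_ncard hI (hNC.subset Set.inter_subset_left)
  omega

/-- optimal separators -/
def Opt (Sg : Set L) (k : ℕ) (g : L) : Set (Set L) :=
  {C | C ∈ Cmin Sg g ∧ ∀ D ∈ Cmin Sg g, mm Sg k C ≤ mm Sg k D}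

theorem Opt.compl {Sg : Set L} (hS : Gen Sg) {k : ℕ} {g : L} {C : Set L} (h : C ∈ Opt Sg k g) :
    Cᶜ ∈ Opt Sg k g := by
  refine ⟨Cmin.compl hS h.1, fun D hD => ?_⟩
  rw [mm_compl]
  exact h.2 D hD

theorem Opt.inv {Sg : Set L} {k : ℕ} {g : L} {C : Set L} (h : C ∈ Opt Sg k g) :
    C ∈ Opt Sg k g⁻¹ := by
  refine ⟨Cmin.inv h.1, fun D hD => h.2 D ?_⟩
  have := Cmin.inv hD
  rwa [inv_inv] at this

theorem min_of_le {Sg : Set L} {g : L} {C K : Set L} (hC : C ∈ Cmin Sg g) (hK : K ∈ Cand Sg g)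
    (h : (bd (ad Sg) K).ncard ≤ (bd (ad Sg) C).ncard) : K ∈ Cmin Sg g :=
  ⟨hK, fun D hD => h.trans (hC.2 D hD)⟩

theorem sepL {e : L} {K C : Set L} (h1 : Pos e K) (h2 : Pos e⁻¹ Cᶜ) (h3 : K ⊆ C) : Sep e K :=
  Or.inl ⟨h1, h2.mono (Set.compl_subset_compl.mpr h3)⟩

section

variable {Sg : Set L} (hS : Gen Sg) {k : ℕ} {g h : L} (hg : Inf g) (hh : Inf h)
  (hkg : ∀ C ∈ Cmin Sg g, (bd (ad Sg) C).ncard ≤ k)
  (hkh : ∀ C ∈ Cmin Sg h, (bd (ad Sg) C).ncard ≤ k)

include hS hg hh hkg hkh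

theorem opt_alpha {C D : Set L} (hC : C ∈ Opt Sg k g) (hD : D ∈ Opt Sg k h)
    (hn : ¬ Nested C D) (h1 : Sep g (C ∩ D)) (h2 : Sep h (Cᶜ ∩ Dᶜ)) : False := by
  have sym := ad_symm hS
  have hCf := hC.1.1.1
  have hDf := hD.1.1.1
  have htC : C ∈ Tight (ad Sg) k := ⟨(tight_of_min hS hg hC.1).1, (tight_of_min hS hg hC.1).2,
    hCf, hkg C hC.1⟩
  have htD : D ∈ Tight (ad Sg) k := ⟨(tight_of_min hS hh hD.1).1, (tight_of_min hS hh hD.1).2,
    hDf, hkh D hD.1⟩
  obtain ⟨hf1, hsum⟩ := submod sym hCf hDf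
  have hf2 := (submod sym (bd_compl_fin sym hCf) (bd_compl_fin sym hDf)).1
  have hK1 : C ∩ D ∈ Cand Sg g := ⟨hf1, h1⟩
  have hK2 : Cᶜ ∩ Dᶜ ∈ Cand Sg h := ⟨hf2, h2⟩
  have h3 := hC.1.2 _ hK1
  have h4 := hD.1.2 _ hK2
  have h5 := hC.2 _ (min_of_le hC.1 hK1 (by omega))
  have h6 := hD.2 _ (min_of_le hD.1 hK2 (by omega))
  have h7 := mm_lt hS htC htD hn
  omega

theorem opt_gamma {C D : Set L} (hC : C ∈ Opt Sg k g) (hD : D ∈ Opt Sg k h)
    (hn : ¬ Nested C D) (h1 : Sep g (C ∩ D)) (h2 : Sep g (Cᶜ ∩ Dᶜ)) (h3 : Sep h (C ∩ Dᶜ))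
    (h4 : Sep h (Cᶜ ∩ D)) : False := by
  have sym := ad_symm hS
  have hCf := hC.1.1.1
  have hDf := hD.1.1.1
  have hCf' := bd_compl_fin sym hCf
  have hDf' := bd_compl_fin sym hDf
  have htC : C ∈ Tight (ad Sg) k := ⟨(tight_of_min hS hg hC.1).1, (tight_of_min hS hg hC.1).2,
    hCf, hkg C hC.1⟩
  have htD : D ∈ Tight (ad Sg) k := ⟨(tight_of_min hS hh hD.1).1, (tight_of_min hS hh hD.1).2,
    hDf, hkh D hD.1⟩
  have hD' := Opt.compl hS hD
  have htD' : Dᶜ ∈ Tight (ad Sg) k := ⟨(tight_of_min hS hh hD'.1).1,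
    (tight_of_min hS hh hD'.1).2, hDf', hkh _ hD'.1⟩
  obtain ⟨hf1, hsum1⟩ := submod sym hCf hDf
  obtain ⟨hf3, hsum2⟩ := submod sym hCf hDf'
  have hf2 := (submod sym hCf' hDf').1
  have hf4 := (submod sym hCf' hDf).1
  rw [compl_compl, bd_compl_ncard sym D] at hsum2
  have a1 := hC.1.2 _ ⟨hf1, h1⟩
  have a2 := hC.1.2 _ ⟨hf2, h2⟩
  have a3 := hD.1.2 _ ⟨hf3, h3⟩
  have a4 := hD.1.2 _ ⟨hf4, h4⟩
  have b1 := hC.2 _ (min_of_le hC.1 ⟨hf1, h1⟩ (by omega))
  have b2 := hC.2 _ (min_of_le hC.1 ⟨hf2, h2⟩ (by omega))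
  have b3 := hD.2 _ (min_of_le hD.1 ⟨hf3, h3⟩ (by omega))
  have b4 := hD.2 _ (min_of_le hD.1 ⟨hf4, h4⟩ (by omega))
  have c1 := mm_lt hS htC htD hn
  have hn' : ¬ Nested C Dᶜ := fun h' => hn ((nested_compl.mp h'.symm).symm)
  have c2 := mm_lt hS htC htD' hn'
  rw [compl_compl, mm_compl Sg k D] at c2
  omega

theorem opt_nested_aux {C D : Set L} (hC : C ∈ Opt Sg k g) (hD : D ∈ Opt Sg k h)
    (hgC : Pos g C) (hgC' : Pos g⁻¹ Cᶜ) (hhD : Pos h D) (hhD' : Pos h⁻¹ Dᶜ) : Nested C D := by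
  by_contra hn
  have sym := ad_symm hS
  have hCf := hC.1.1.1
  have hDf := hD.1.1.1
  have hCo := Opt.compl hS hC
  have hDo := Opt.compl hS hD
  have hn1 : ¬ Nested Cᶜ D := fun h' => hn (nested_compl.mp h')
  have hn2 : ¬ Nested C Dᶜ := fun h' => hn ((nested_compl.mp h'.symm).symm)
  have hn3 : ¬ Nested Cᶜ Dᶜ := fun h' => hn2 (nested_compl.mp h')
  -- separation by the corners
  have g1 : Pos g D → Sep g (C ∩ D) := fun h' =>
    sepL (hgC.inter h') hgC' Set.inter_subset_left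
  have g2 : Pos g Dᶜ → Sep g (C ∩ Dᶜ) := fun h' =>
    sepL (hgC.inter h') hgC' Set.inter_subset_left
  have g3 : Pos g⁻¹ D → Sep g (Cᶜ ∩ D) := by
    intro h'
    have := (sepL (e := g⁻¹) (hgC'.inter h') (C := Cᶜ)
      (by rw [inv_inv, compl_compl]; exact hgC) Set.inter_subset_left).inv
    rwa [inv_inv] at this
  have g4 : Pos g⁻¹ Dᶜ → Sep g (Cᶜ ∩ Dᶜ) := by
    intro h'
    have := (sepL (e := g⁻¹) (hgC'.inter h') (C := Cᶜ)
      (by rw [inv_inv, compl_compl]; exact hgC) Set.inter_subset_left).inv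
    rwa [inv_inv] at this
  have k1 : Pos h C → Sep h (C ∩ D) := fun h' =>
    sepL (h'.inter hhD) hhD' Set.inter_subset_right
  have k2 : Pos h Cᶜ → Sep h (Cᶜ ∩ D) := fun h' =>
    sepL (h'.inter hhD) hhD' Set.inter_subset_right
  have k3 : Pos h⁻¹ C → Sep h (C ∩ Dᶜ) := by
    intro h'
    have := (sepL (e := h⁻¹) (h'.inter hhD') (C := Dᶜ)
      (by rw [inv_inv, compl_compl]; exact hhD) Set.inter_subset_right).inv
    rwa [inv_inv] at this
  have k4 : Pos h⁻¹ Cᶜ → Sep h (Cᶜ ∩ Dᶜ) := by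
    intro h'
    have := (sepL (e := h⁻¹) (h'.inter hhD') (C := Dᶜ)
      (by rw [inv_inv, compl_compl]; exact hhD) Set.inter_subset_right).inv
    rwa [inv_inv] at this
  have al := fun {C D : Set L} (hC : C ∈ Opt Sg k g) (hD : D ∈ Opt Sg k h) =>
    opt_alpha hS hg hh hkg hkh hC hD
  have ga := fun {C D : Set L} (hC : C ∈ Opt Sg k g) (hD : D ∈ Opt Sg k h) =>
    opt_gamma hS hg hh hkg hkh hC hD
  rcases pos_or hS hg hDf with a | a <;> rcases pos_or hS hg.inv hDf with b | b <;>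
    rcases pos_or hS hh hCf with c | c <;> rcases pos_or hS hh.inv hCf with d | d
  · exact al hCo hD hn1 (g3 b) (by rw [compl_compl]; exact k3 d)
  · exact al hC hD hn (g1 a) (k4 d)
  · exact al hCo hD hn1 (g3 b) (by rw [compl_compl]; exact k3 d)
  · exact al hC hD hn (g1 a) (k4 d)
  · exact al hCo hDo hn3 (g4 b) (by rw [compl_compl, compl_compl]; exact k1 c)
  · exact al hC hD hn (g1 a) (k4 d)
  · exact ga hC hD hn (g1 a) (g4 b) (k3 d) (k2 c)
  · exact al hC hD hn (g1 a) (k4 d)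
  · exact al hCo hD hn1 (g3 b) (by rw [compl_compl]; exact k3 d)
  · exact ga hC hDo hn2 (g2 a) (by rw [compl_compl]; exact g3 b) (by rw [compl_compl]; exact k1 c)
      (k4 d)
  · exact al hC hDo hn2 (g2 a) (by rw [compl_compl]; exact k2 c)
  · exact al hC hDo hn2 (g2 a) (by rw [compl_compl]; exact k2 c)
  · exact al hCo hDo hn3 (g4 b) (by rw [compl_compl, compl_compl]; exact k1 c)
  · exact al hCo hDo hn3 (g4 b) (by rw [compl_compl, compl_compl]; exact k1 c)
  · exact al hC hDo hn2 (g2 a) (by rw [compl_compl]; exact k2 c)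
  · exact al hC hDo hn2 (g2 a) (by rw [compl_compl]; exact k2 c)

/-- optimal separators are nested -/
theorem opt_nested {C D : Set L} (hC : C ∈ Opt Sg k g) (hD : D ∈ Opt Sg k h) : Nested C D := by
  have hCo := Opt.compl hS hC
  have hDo := Opt.compl hS hD
  rcases hC.1.1.2 with ⟨h1, h2⟩ | ⟨h1, h2⟩ <;> rcases hD.1.1.2 with ⟨h3, h4⟩ | ⟨h3, h4⟩
  · exact opt_nested_aux hS hg hh hkg hkh hC hD h1 h2 h3 h4
  · have := opt_nested_aux hS hg hh hkg hkh hC hDo h1 h2 h3 (by rw [compl_compl]; exact h4)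
    exact (nested_compl.mp this.symm).symm
  · have := opt_nested_aux hS hg hh hkg hkh hCo hD h1 (by rw [compl_compl]; exact h2) h3 h4
    exact nested_compl.mp this
  · have := opt_nested_aux hS hg hh hkg hkh hCo hDo h1 (by rw [compl_compl]; exact h2) h3
      (by rw [compl_compl]; exact h4)
    exact (nested_compl.mp (nested_compl.mp this).symm).symm

end

end KPS
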