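import Mathlib

/-!
# The tree of a nested family of half spaces

`W` is the set of half spaces with the inclusion `≤` and the complement `st`; `O` is the set of the
half spaces that contain the base point. The vertices of the dual tree are the consistent
orientations that differ from `O` at finitely many places.
-/

set_option autoImplicit false

namespace KPS

/-- nested families of half spaces with a group action -/
structure Poc (L : Type) {W : Type} [Group L] [PartialOrder W] [MulAction L W] (st : W → W)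
    (O : Set W) : Prop where
  st_st : ∀ a, st (st a) = a
  st_le : ∀ a b, a ≤ b → st b ≤ st a
  nest : ∀ a b, a ≤ b ∨ a ≤ st b ∨ st a ≤ b ∨ st a ≤ st b
  proper : ∀ a, ¬ a ≤ st a
  smul_le : ∀ (g : L) (a b : W), a ≤ b → g • a ≤ g • b
  smul_st : ∀ (g : L) (a : W), g • st a = st (g • a)
  noflip : ∀ (g : L) (a : W), g • a ≠ st a
  Ocomp : ∀ a, a ∈ O ↔ st a ∉ O
  Oup : ∀ a b, a ∈ O → a ≤ b → b ∈ O
  Ofin : ∀ g : L, {a : W | a ∈ O ∧ g • a ∉ O}.Finite

/-- vertices of the dual tree -/
def Ver {W : Type} [PartialOrder W] (st : W → W) (O : Set W) : Type :=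
  {U : Set W // (∀ a, a ∈ U ↔ st a ∉ U) ∧ (∀ a b, a ∈ U → a ≤ b → b ∈ U) ∧
    {a | a ∈ U ∧ a ∉ O}.Finite}

section

variable {L W : Type} [Group L] [PartialOrder W] [MulAction L W] {st : W → W} {O : Set W}

theorem ver_ext {U V : Ver st O} (h : ∀ a, a ∈ U.1 → a ∈ V.1) : U = V := by
  apply Subtype.ext
  apply Set.Subset.antisymm h
  intro a ha
  by_contra h1
  have h2 : st a ∈ U.1 := by
    by_contra h3
    exact h1 ((U.2.1 a).mpr h3)
  exact (V.2.1 a).mp ha (h _ h2)

theorem diff_symm (hst : ∀ a, st (st a) = a) {U V : Ver st O} {a : W} (h : U.1 \ V.1 = {a}) :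
    V.1 \ U.1 = {st a} := by
  ext b
  rw [Set.mem_singleton_iff]
  have h1 : b ∈ V.1 \ U.1 ↔ st b ∈ U.1 \ V.1 := by
    rw [Set.mem_diff, Set.mem_diff, V.2.1 b]
    have h2 := U.2.1 b
    tauto
  rw [h1, h, Set.mem_singleton_iff]
  constructor
  · intro h2
    rw [← h2, hst]
  · intro h2
    rw [h2, hst]

/-- the dual tree -/
def dual (hst : ∀ a, st (st a) = a) : SimpleGraph (Ver st O) where
  Adj U V := ∃ a, U.1 \ V.1 = {a}
  symm := by
    constructor
    rintro U V ⟨a, h⟩
    exact ⟨st a, diff_symm hst h⟩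
  loopless := by
    constructor
    rintro U ⟨a, h⟩
    rw [Set.diff_self] at h
    exact (Set.singleton_ne_empty a) h.symm

theorem diff_fin (hP : Poc L st O) (U V : Ver st O) : (U.1 \ V.1).Finite := by
  have h1 : (st ⁻¹' {a | a ∈ V.1 ∧ a ∉ O}).Finite := by
    refine V.2.2.2.preimage ?_
    intro a _ b _ hab
    rw [← hP.st_st a, hab, hP.st_st]
  refine Set.Finite.subset (U.2.2.2.union h1) ?_
  rintro a ⟨h2, h3⟩
  by_cases h4 : a ∈ O
  · right
    refine ⟨?_, (hP.Ocomp a).mp h4⟩
    by_contra h5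
    exact h3 ((V.2.1 a).mpr h5)
  · exact Or.inl ⟨h2, h4⟩

/-- flipping a minimal half space -/
theorem flip (hP : Poc L st O) (U : Ver st O) (a : W) (ha : a ∈ U.1)
    (hmin : ∀ b ∈ U.1, b ≤ a → b = a) :
    ∃ V : Ver st O, V.1 = {b | (b ∈ U.1 ∧ b ≠ a) ∨ b = st a} := by
  have hne : a ≠ st a := fun h => hP.proper a (le_of_eq h)
  refine ⟨⟨{b | (b ∈ U.1 ∧ b ≠ a) ∨ b = st a}, ?_, ?_, ?_⟩, rfl⟩
  · intro b
    simp only [Set.mem_setOf_eq]
    have h1 := U.2.1 b
    have h2 : st b = st a ↔ b = a := by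
      constructor
      · intro h
        rw [← hP.st_st b, h, hP.st_st]
      · intro h; rw [h]
    have h3 : st b = a ↔ b = st a := by
      constructor
      · intro h
        rw [← h, hP.st_st]
      · intro h; rw [h, hP.st_st]
    constructor
    · rintro (⟨h4, h5⟩ | h4)
      · rw [h2, not_or]
        exact ⟨fun h6 => (h1.mp h4) h6.1, h5⟩
      · rw [h2, not_or]
        refine ⟨fun h6 => h6.2 (h3.mpr h4), ?_⟩
        rw [h4]
        exact hne.symm
    · intro h4
      rw [not_or, h2] at h4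
      by_cases h5 : b = st a
      · exact Or.inr h5
      · left
        refine ⟨?_, h4.2⟩
        rw [h1]
        intro h6
        exact h4.1 ⟨h6, fun h7 => h5 (h3.mp h7)⟩
  · intro b c hb hbc
    simp only [Set.mem_setOf_eq] at hb ⊢
    rcases hb with ⟨h1, h2⟩ | h1
    · left
      refine ⟨U.2.2.1 b c h1 hbc, ?_⟩
      intro h3
      rw [h3] at hbc
      exact h2 (hmin b h1 hbc)
    · rw [h1] at hbc
      by_cases h2 : c = st a
      · exact Or.inr h2
      · left
        constructor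
        · by_contra h3
          have h4 : st c ∈ U.1 := by
            by_contra h5
            exact h3 ((U.2.1 c).mpr h5)
          have h5 : st c ≤ a := by
            have := hP.st_le _ _ hbc
            rwa [hP.st_st] at this
          have h6 := hmin _ h4 h5
          exact h2 (by rw [← h6, hP.st_st])
        · intro h3
          rw [h3] at hbc
          apply hP.proper (st a)
          rw [hP.st_st]
          exact hbc
  · refine Set.Finite.subset (U.2.2.2.union (Set.finite_singleton (st a))) ?_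
    rintro b ⟨h1 | h1, h2⟩
    · exact Or.inl ⟨h1.1, h2⟩
    · exact Or.inr h1

theorem dual_reach (hP : Poc L st O) (V : Ver st O) (n : ℕ) : ∀ U : Ver st O,
    (U.1 \ V.1).ncard ≤ n → (dual hP.st_st).Reachable U V := by
  induction n with
  | zero =>
    intro U hU
    have h1 : (U.1 \ V.1).ncard = 0 := by omega
    rw [Set.ncard_eq_zero (diff_fin hP U V)] at h1
    have h2 : U = V := ver_ext fun a ha => by
      by_contra h3
      have h4 : a ∈ U.1 \ V.1 := ⟨ha, h3⟩
      rw [h1] at h4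
      exact h4
    rw [h2]
  | succ n ih =>
    intro U hU
    have hf := diff_fin hP U V
    rcases Set.eq_empty_or_nonempty (U.1 \ V.1) with h0 | h0
    · apply ih
      rw [h0, Set.ncard_empty]
      omega
    · obtain ⟨a, ha, hmin⟩ := hf.exists_minimal h0
      have hmin' : ∀ b ∈ U.1, b ≤ a → b = a := by
        intro b hb hba
        have h1 : b ∉ V.1 := fun h => ha.2 (V.2.2.1 b a h hba)
        exact le_antisymm hba (hmin ⟨hb, h1⟩ hba)
      obtain ⟨U', hU'⟩ := flip hP U a ha.1 hmin'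
      have hadj : (dual hP.st_st).Adj U U' := by
        refine ⟨a, ?_⟩
        rw [hU']
        ext b
        simp only [Set.mem_diff, Set.mem_setOf_eq, Set.mem_singleton_iff]
        constructor
        · rintro ⟨h1, h2⟩
          by_contra h3
          exact h2 (Or.inl ⟨h1, h3⟩)
        · intro h1
          rw [h1]
          refine ⟨ha.1, ?_⟩
          rintro (h2 | h2)
          · exact h2.2 rfl
          · exact hP.proper a (le_of_eq h2)
      have hsub : U'.1 \ V.1 ⊆ (U.1 \ V.1) \ {a} := by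
        rw [hU']
        rintro b ⟨h1 | h1, h2⟩
        · exact ⟨⟨h1.1, h2⟩, h1.2⟩
        · exfalso
          apply h2
          rw [h1]
          by_contra h3
          exact ha.2 ((V.2.1 a).mpr h3)
      refine SimpleGraph.Reachable.trans hadj.reachable (ih U' ?_)
      have h1 := Set.ncard_le_ncard hsub hf.sdiff
      have h2 := Set.ncard_sdiff_singleton_add_one ha hf
      omega

/-- an edge is determined by its half space -/
theorem edge_unique (hP : Poc L st O) {U V U' V' : Ver st O} {a : W} (h : U.1 \ V.1 = {a})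
    (h' : U'.1 \ V'.1 = {a}) : U = U' := by
  have key : ∀ {U V U' V' : Ver st O}, U.1 \ V.1 = {a} → U'.1 \ V'.1 = {a} →
      ∀ b, b ∈ U.1 → b ∈ U'.1 := by
    intro U V U' V' h h' b hb
    have ha : a ∈ U.1 \ V.1 := by rw [h]; rfl
    have ha' : a ∈ U'.1 \ V'.1 := by rw [h']; rfl
    have hsa : st a ∈ V.1 := by
      by_contra h1
      exact ha.2 ((V.2.1 a).mpr h1)
    have hsa' : st a ∈ V'.1 := by
      by_contra h1
      exact ha'.2 ((V'.2.1 a).mpr h1)
    have hs' := diff_symm hP.st_st h'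
    have hs := diff_symm hP.st_st h
    rcases hP.nest a b with h1 | h1 | h1 | h1
    · exact U'.2.2.1 a b ha'.1 h1
    · exact absurd (U.2.2.1 a _ ha.1 h1) ((U.2.1 b).mp hb)
    · have h2 : b ∈ V'.1 := V'.2.2.1 _ _ hsa' h1
      by_contra h3
      have h4 : b ∈ V'.1 \ U'.1 := ⟨h2, h3⟩
      rw [hs', Set.mem_singleton_iff] at h4
      rw [h4] at hb
      exact (U.2.1 a).mp ha.1 hb
    · have h2 : st b ∈ V.1 := V.2.2.1 _ _ hsa h1
      have h3 : st b ∈ V.1 \ U.1 := ⟨h2, (U.2.1 b).mp hb⟩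
      rw [hs, Set.mem_singleton_iff] at h3
      have h4 : b = a := by rw [← hP.st_st b, h3, hP.st_st]
      rw [h4]
      exact ha'.1
  exact ver_ext (key h h')

theorem acyclic_of {V : Type} (A : SimpleGraph V)
    (h : ∀ a b, A.Adj a b → ∃ P : V → Prop, (P a ∧ ¬ P b ∨ P b ∧ ¬ P a) ∧
      ∀ a' b', A.Adj a' b' → P a' → ¬ P b' → s(a', b') = s(a, b)) : A.IsAcyclic := by
  rw [SimpleGraph.isAcyclic_iff_forall_adj_isBridge]
  intro a b hab
  obtain ⟨P, hPab, hP⟩ := h a b hab
  rw [SimpleGraph.isBridge_iff_forall_walk_mem_edges]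
  have key : ∀ {x y : V} (p : A.Walk x y), P x → ¬ P y → s(a, b) ∈ p.edges := by
    intro x y p
    induction p with
    | nil => intro h1 h2; exact absurd h1 h2
    | @cons x z y hxz q ih =>
      intro h1 h2
      by_cases hz : P z
      · rw [SimpleGraph.Walk.edges_cons]
        exact List.mem_cons_of_mem _ (ih hz h2)
      · rw [← hP x z hxz h1 hz, SimpleGraph.Walk.edges_cons]
        exact List.mem_cons_self
  have key2 : ∀ {x y : V} (p : A.Walk x y), ¬ P x → P y → s(a, b) ∈ p.edges := by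
    intro x y p h1 h2
    have := key p.reverse h2 h1
    rwa [SimpleGraph.Walk.edges_reverse, List.mem_reverse] at this
  intro p
  rcases hPab with ⟨h1, h2⟩ | ⟨h1, h2⟩
  · exact key p h1 h2
  · exact key2 p h2 h1

/-- the base vertex -/
def base (hP : Poc L st O) : Ver st O :=
  ⟨O, hP.Ocomp, hP.Oup, by
    refine Set.Finite.subset Set.finite_empty ?_
    rintro a ⟨h1, h2⟩
    exact absurd h1 h2⟩

theorem dual_tree (hP : Poc L st O) : (dual hP.st_st : SimpleGraph (Ver st O)).IsTree := by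
  refine ⟨?_, ?_⟩
  · haveI : Nonempty (Ver st O) := ⟨base hP⟩
    exact SimpleGraph.Connected.mk fun U V => dual_reach hP V _ U le_rfl
  · apply acyclic_of
    rintro U V ⟨a, h⟩
    have ha : a ∈ U.1 \ V.1 := by rw [h]; rfl
    refine ⟨fun X => a ∈ X.1, Or.inl ⟨ha.1, ha.2⟩, ?_⟩
    rintro U' V' ⟨b, h'⟩ h1 h2
    have hb : a = b := by
      have : a ∈ U'.1 \ V'.1 := ⟨h1, h2⟩
      rw [h'] at this
      exact this
    rw [← hb] at h'
    have e1 := edge_unique hP h' h
    have e2 := edge_unique hP (diff_symm hP.st_st h') (diff_symm hP.st_st h)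
    rw [e1, e2]

/-- the action on the vertices -/
theorem act_mem (hP : Poc L st O) (g : L) (U : Ver st O) :
    (∀ a, a ∈ {a | g⁻¹ • a ∈ U.1} ↔ st a ∉ {a | g⁻¹ • a ∈ U.1}) ∧
    (∀ a b, a ∈ {a | g⁻¹ • a ∈ U.1} → a ≤ b → b ∈ {a | g⁻¹ • a ∈ U.1}) ∧
    {a | a ∈ {a | g⁻¹ • a ∈ U.1} ∧ a ∉ O}.Finite := by
  refine ⟨?_, ?_, ?_⟩
  · intro a
    simp only [Set.mem_setOf_eq]
    rw [hP.smul_st]
    exact U.2.1 _
  · intro a b h1 h2
    exact U.2.2.1 _ _ h1 (hP.smul_le g⁻¹ a b h2)
  · have h1 : ((fun a : W => g • a) '' ({a | a ∈ U.1 ∧ a ∉ O} ∪ {a | a ∈ O ∧ g • a ∉ O})).Finite :=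
      (U.2.2.2.union (hP.Ofin g)).image _
    refine h1.subset ?_
    rintro a ⟨h2, h3⟩
    refine ⟨g⁻¹ • a, ?_, smul_inv_smul g a⟩
    by_cases h4 : g⁻¹ • a ∈ O
    · right
      exact ⟨h4, by rw [smul_inv_smul]; exact h3⟩
    · exact Or.inl ⟨h2, h4⟩

/-- the action of the group on the vertices -/
@[reducible] def act (hP : Poc L st O) : MulAction L (Ver st O) where
  smul g U := ⟨{a | g⁻¹ • a ∈ U.1}, act_mem hP g U⟩
  one_smul U := by
    apply Subtype.ext
    change {a | (1 : L)⁻¹ • a ∈ U.1} = U.1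
    ext a
    simp
  mul_smul g h U := by
    apply Subtype.ext
    change {a | (g * h)⁻¹ • a ∈ U.1} = {a | g⁻¹ • a ∈ {b | h⁻¹ • b ∈ U.1}}
    ext a
    simp [mul_smul]

theorem act_val (hP : Poc L st O) (g : L) (U : Ver st O) :
    ((act hP).smul g U).1 = {a | g⁻¹ • a ∈ U.1} := rfl

theorem act_diff (hP : Poc L st O) (g : L) {U V : Ver st O} {a : W} (h : U.1 \ V.1 = {a}) :
    ((act hP).smul g U).1 \ ((act hP).smul g V).1 = {g • a} := by
  rw [act_val, act_val]
  ext b
  have h1 : b ∈ ({a | g⁻¹ • a ∈ U.1} \ {a | g⁻¹ • a ∈ V.1} : Set W) ↔ g⁻¹ • b ∈ U.1 \ V.1 :=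
    Iff.rfl
  rw [h1, h, Set.mem_singleton_iff, Set.mem_singleton_iff, inv_smul_eq_iff]

end

end KPS
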