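import Pool.Agent.Lib.MP_32d917_al.NDefs
import Pool.Agent.Lib.MP_32d917_al_vf.K4

/-!
# The dual tree as a tree lattice
-/

set_option autoImplicit false

namespace KPS

section

variable {L W : Type} [Group L] [PartialOrder W] [MulAction L W] {st : W → W} {O : Set W}

theorem transporter_finite {V : Type} [MulAction L V] (v w : V)
    (h : Finite (MulAction.stabilizer L v)) : {g : L | g • v = w}.Finite := by
  rcases Set.eq_empty_or_nonempty {g : L | g • v = w} with h0 | ⟨g0, h0⟩
  · rw [h0]; exact Set.finite_empty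
  · have h1 : {g : L | g • v = w} ⊆ (fun g => g0 * g) '' (MulAction.stabilizer L v : Set L) := by
      intro g hg
      refine ⟨g0⁻¹ * g, ?_, by group⟩
      have h2 : g0 • v = w := h0
      have h3 : g • v = w := hg
      rw [SetLike.mem_coe, MulAction.mem_stabilizer_iff, mul_smul, h3, ← h2, inv_smul_smul]
    exact (Set.Finite.image _ (Set.toFinite _)).subset h1

theorem cinv_of_finite {V : Type} [MulAction L V]
    (hst : ∀ v : V, Finite (MulAction.stabilizer L v)) (v x : V) (g : L)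
    (h : ∀ k : L, k • v = v → k • x = x → k • g • v = g • v ∧ k • g • x = g • x) (k : L)
    (h1 : k • g • v = g • v) (h2 : k • g • x = g • x) : k • v = v ∧ k • x = x := by
  obtain ⟨K, hK⟩ : ∃ K : Set L, K = {k | k • v = v ∧ k • x = x} := ⟨_, rfl⟩
  have hKf : K.Finite := by
    refine (transporter_finite v v (hst v)).subset ?_
    intro a ha
    rw [hK] at ha
    exact ha.1
  have hsub : K ⊆ (fun a => g * a * g⁻¹) '' K := by
    intro a ha
    rw [hK] at ha ⊢
    obtain ⟨h3, h4⟩ := h a ha.1 ha.2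
    refine ⟨g⁻¹ * a * g, ⟨?_, ?_⟩, by group⟩
    · rw [mul_smul, mul_smul, h3, inv_smul_smul]
    · rw [mul_smul, mul_smul, h4, inv_smul_smul]
  have hinj : Function.Injective (fun a : L => g * a * g⁻¹) := by
    intro a b hab
    exact mul_left_cancel (mul_right_cancel hab)
  have heq : K = (fun a => g * a * g⁻¹) '' K :=
    Set.eq_of_subset_of_ncard_le hsub (by rw [Set.ncard_image_of_injective _ hinj])
      (hKf.image _)
  have h5 : k ∈ (fun a => g * a * g⁻¹) '' K := by
    rw [hK]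
    refine ⟨g⁻¹ * k * g, ⟨?_, ?_⟩, by group⟩
    · rw [mul_smul, mul_smul, h1, inv_smul_smul]
    · rw [mul_smul, mul_smul, h2, inv_smul_smul]
  rw [← heq, hK] at h5
  exact h5

theorem dual_tlat (hP : Poc L st O) (hor : ∃ R : Set W, R.Finite ∧ ∀ a, ∃ g : L, g • a ∈ R)
    (hfix : ∀ U : Ver st O, ({g : L | (act hP).smul g U = U}).Finite)
    (hnt : ∃ U V : Ver st O, U ≠ V) :
    @LatN.TLat L _ (Ver st O) (act hP) (dual hP.st_st) ∧
      ∀ v, Finite (@MulAction.stabilizer L (Ver st O) _ (act hP) v) := by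
  classical
  letI := act hP
  have hst : ∀ v : Ver st O, Finite (MulAction.stabilizer L v) := by
    intro v
    exact (hfix v).to_subtype
  have hsm : ∀ (g : L) (U : Ver st O), g • U = (act hP).smul g U := fun _ _ => rfl
  obtain ⟨R, hR, hor⟩ := hor
  have hdiff : ∀ (g : L) {U V : Ver st O} {a : W}, U.1 \ V.1 = {a} →
      (g • U).1 \ (g • V).1 = {g • a} := fun g _ _ _ h => act_diff hP g h
  have htree := dual_tree hP
  have hadj : ∀ (g : L) (x y : Ver st O), (dual hP.st_st).Adj x y →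
      (dual hP.st_st).Adj (g • x) (g • y) := by
    rintro g x y ⟨a, h⟩
    exact ⟨g • a, hdiff g h⟩
  -- representatives of the edges
  obtain ⟨ρ, hρ⟩ : ∃ ρ : W → Ver st O × Ver st O, ∀ r, (∃ e : Ver st O × Ver st O,
      e.1.1 \ e.2.1 = {r}) → (ρ r).1.1 \ (ρ r).2.1 = {r} := by
    refine ⟨fun r => if h : ∃ e : Ver st O × Ver st O, e.1.1 \ e.2.1 = {r} then h.choose else
      (base hP, base hP), ?_⟩
    intro r h
    simp only [h, dif_pos]
    exact h.choose_spec
  have hrep : ∀ (U V : Ver st O) (a : W), U.1 \ V.1 = {a} → ∃ r ∈ R, ∃ g : L,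
      g • U = (ρ r).1 ∧ g • V = (ρ r).2 := by
    intro U V a h
    obtain ⟨g, hg⟩ := hor a
    refine ⟨g • a, hg, g, ?_⟩
    have h1 := hdiff g h
    have h2 := hρ (g • a) ⟨(g • U, g • V), h1⟩
    refine ⟨edge_unique hP h1 h2, ?_⟩
    exact edge_unique hP (diff_symm hP.st_st h1) (diff_symm hP.st_st h2)
  refine ⟨⟨⟨htree, hadj, ?_⟩, ?_, ?_, ?_⟩, hst⟩
  · rintro g x y ⟨a, h⟩ h1 h2
    have h3 := hdiff g h
    rw [h1, h2, diff_symm hP.st_st h, Set.singleton_eq_singleton_iff] at h3
    exact hP.noflip g a h3.symm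
  · intro v
    have h1 : ∀ r, ((fun g : L => g⁻¹ • (ρ r).2) '' {g : L | g • v = (ρ r).1}).Finite :=
      fun r => (transporter_finite v _ (hst v)).image _
    refine Set.Finite.subset (hR.biUnion fun r _ => h1 r) ?_
    rintro u ⟨a, h⟩
    obtain ⟨r, hr, g, h2, h3⟩ := hrep v u a h
    simp only [Set.mem_iUnion]
    refine ⟨r, hr, g, h2, ?_⟩
    change g⁻¹ • (ρ r).2 = u
    rw [← h3, inv_smul_smul]
  · obtain ⟨U0, V0, hne⟩ := hnt
    refine ⟨(hR.image (fun r => (ρ r).1)).toFinset, fun v => ?_⟩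
    have h1 : ∃ u, (dual hP.st_st : SimpleGraph (Ver st O)).Adj v u := by
      obtain ⟨u, hu⟩ : ∃ u : Ver st O, u ≠ v := by
        by_cases h : U0 = v
        · exact ⟨V0, fun h' => hne (by rw [h, h'])⟩
        · exact ⟨U0, h⟩
      obtain ⟨p⟩ := htree.connected.preconnected v u
      cases p with
      | nil => exact absurd rfl hu
      | cons h _ => exact ⟨_, h⟩
    obtain ⟨u, a, h⟩ := h1
    obtain ⟨r, hr, g, h2, _⟩ := hrep v u a h
    refine ⟨g, ?_⟩
    rw [Set.Finite.mem_toFinset, h2]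
    exact ⟨r, hr, rfl⟩
  · exact fun v x g h k h1 h2 => cinv_of_finite hst v x g h k h1 h2

end

end KPS
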