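import Pool.Agent.Lib.MP_32d917_al_vf.K3
import Pool.Agent.Lib.MP_32d917_al_vf.K4

/-!
# Nested invariant families of subsets of a group
-/

set_option autoImplicit false

namespace KPS

variable {L : Type} [Group L]

/-- translate -/
def tr (x : L) (C : Set L) : Set L := {y | x⁻¹ * y ∈ C}

theorem mem_tr (x : L) (C : Set L) (y : L) : y ∈ tr x C ↔ x⁻¹ * y ∈ C := Iff.rfl

theorem tr_one (C : Set L) : tr 1 C = C := by
  ext y
  rw [mem_tr, inv_one, one_mul]

theorem tr_mul (x y : L) (C : Set L) : tr (x * y) C = tr x (tr y C) := by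
  ext z
  rw [mem_tr, mem_tr, mem_tr, mul_inv_rev, mul_assoc]

theorem tr_compl (x : L) (C : Set L) : tr x Cᶜ = (tr x C)ᶜ := rfl

theorem tr_inj (x : L) : Function.Injective (tr x) := by
  intro C D h
  have := congrArg (tr x⁻¹) h
  rwa [← tr_mul, ← tr_mul, inv_mul_cancel, tr_one, tr_one] at this

theorem tr_subset {x : L} {C D : Set L} : tr x C ⊆ tr x D ↔ C ⊆ D := by
  constructor
  · intro h y hy
    have h1 : x * y ∈ tr x C := by
      rw [mem_tr, inv_mul_cancel_left]; exact hy
    have h2 := h h1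
    rwa [mem_tr, inv_mul_cancel_left] at h2
  · intro h y hy
    exact h hy

theorem nested_tr {x : L} {C D : Set L} : Nested (tr x C) (tr x D) ↔ Nested C D := by
  unfold Nested
  rw [← tr_compl, ← tr_compl, tr_subset, tr_subset, tr_subset, tr_subset]

/-- the properties of the family of the half spaces -/
structure FamH (E : Set (Set L)) : Prop where
  compl : ∀ C ∈ E, Cᶜ ∈ E
  nest : ∀ C ∈ E, ∀ D ∈ E, Nested C D
  ne : ∀ C ∈ E, C.Nonempty
  tr : ∀ C ∈ E, ∀ x : L, tr x C ∈ E
  sep : ∀ x y : L, {C | C ∈ E ∧ x ∈ C ∧ y ∉ C}.Finite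

/-- doubled half spaces -/
structure HS (E : Set (Set L)) : Type where
  s : Set L
  b : Bool
  mem : s ∈ E

theorem HS.ext' {E : Set (Set L)} {p q : HS E} (h1 : p.s = q.s) (h2 : p.b = q.b) : p = q := by
  cases p; cases q
  simp only at h1 h2
  subst h1; subst h2
  rfl

instance (E : Set (Set L)) : PartialOrder (HS E) where
  le p q := p.s ⊂ q.s ∨ (p.s = q.s ∧ p.b ≤ q.b)
  le_refl p := Or.inr ⟨rfl, le_rfl⟩
  le_trans p q r h1 h2 := by
    rcases h1 with h1 | ⟨h1, h1'⟩ <;> rcases h2 with h2 | ⟨h2, h2'⟩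
    · exact Or.inl (h1.trans h2)
    · exact Or.inl (by rw [← h2]; exact h1)
    · exact Or.inl (by rw [h1]; exact h2)
    · exact Or.inr ⟨h1.trans h2, h1'.trans h2'⟩
  le_antisymm p q h1 h2 := by
    rcases h1 with h1 | ⟨h1, h1'⟩ <;> rcases h2 with h2 | ⟨h2, h2'⟩
    · exact absurd (h1.trans h2) (ssubset_irrefl _)
    · rw [h2] at h1; exact absurd h1 (ssubset_irrefl _)
    · rw [h1] at h2; exact absurd h2 (ssubset_irrefl _)
    · exact HS.ext' h1 (le_antisymm h1' h2')

theorem hs_le {E : Set (Set L)} {p q : HS E} : p ≤ q ↔ p.s ⊂ q.s ∨ (p.s = q.s ∧ p.b ≤ q.b) :=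
  Iff.rfl

/-- the complement -/
def hst {E : Set (Set L)} (hE : FamH E) (p : HS E) : HS E := ⟨p.sᶜ, !p.b, hE.compl _ p.mem⟩

/-- the action -/
@[reducible] def hact {E : Set (Set L)} (hE : FamH E) : MulAction L (HS E) where
  smul g p := ⟨tr g p.s, p.b, hE.tr _ p.mem g⟩
  one_smul p := HS.ext' (tr_one p.s) rfl
  mul_smul g h p := HS.ext' (tr_mul g h p.s) rfl

theorem hle_of {E : Set (Set L)} (hE : FamH E) {p q : HS E} (h : p.s ⊆ q.s) :
    p ≤ q ∨ hst hE p ≤ hst hE q := by
  rcases eq_or_ssubset_of_subset h with h1 | h1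
  · rcases le_total p.b q.b with h2 | h2
    · exact Or.inl (Or.inr ⟨h1, h2⟩)
    · refine Or.inr (Or.inr ⟨?_, ?_⟩)
      · change p.sᶜ = q.sᶜ
        rw [h1]
      · change (!p.b) ≤ (!q.b)
        revert h2
        cases p.b <;> cases q.b <;> decide
  · exact Or.inl (Or.inl h1)

/-- the half spaces that contain the base point -/
def hO (E : Set (Set L)) : Set (HS E) := {p | (1 : L) ∈ p.s}

theorem hst_hst {E : Set (Set L)} (hE : FamH E) (p : HS E) : hst hE (hst hE p) = p :=
  HS.ext' (compl_compl p.s) (Bool.not_not p.b)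

theorem poc {E : Set (Set L)} (hE : FamH E) :
    @Poc L (HS E) _ _ (hact hE) (hst hE) (hO E) := by
  letI := hact hE
  refine ⟨hst_hst hE, ?_, ?_, ?_, ?_, ?_, ?_, ?_, ?_, ?_⟩
  · intro a b h
    rcases h with h | ⟨h, h'⟩
    · left
      change b.sᶜ ⊂ a.sᶜ
      rw [ssubset_iff_subset_not_subset] at h ⊢
      exact ⟨Set.compl_subset_compl.mpr h.1, fun h' => h.2 (Set.compl_subset_compl.mp h')⟩
    · right
      refine ⟨?_, ?_⟩
      · change b.sᶜ = a.sᶜ
        rw [h]
      · change (!b.b) ≤ (!a.b)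
        revert h'
        cases a.b <;> cases b.b <;> decide
  · intro a b
    rcases hE.nest a.s a.mem b.s b.mem with h | h | h | h
    · rcases hle_of hE (p := a) (q := b) h with h1 | h1
      · exact Or.inl h1
      · exact Or.inr (Or.inr (Or.inr h1))
    · rcases hle_of hE (p := a) (q := hst hE b) h with h1 | h1
      · exact Or.inr (Or.inl h1)
      · rw [hst_hst] at h1
        exact Or.inr (Or.inr (Or.inl h1))
    · rcases hle_of hE (p := hst hE a) (q := b) h with h1 | h1
      · exact Or.inr (Or.inr (Or.inl h1))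
      · rw [hst_hst] at h1
        exact Or.inr (Or.inl h1)
    · rcases hle_of hE (p := hst hE a) (q := hst hE b) h with h1 | h1
      · exact Or.inr (Or.inr (Or.inr h1))
      · rw [hst_hst, hst_hst] at h1
        exact Or.inl h1
  · intro a h
    have h1 : a.s ⊆ a.sᶜ := by
      rcases h with h | h
      · exact h.subset
      · exact h.1.subset
    obtain ⟨x, hx⟩ := hE.ne a.s a.mem
    exact h1 hx hx
  · intro g a b h
    rcases h with h | ⟨h, h'⟩
    · left
      change tr g a.s ⊂ tr g b.s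
      rw [ssubset_iff_subset_not_subset] at h ⊢
      rw [tr_subset, tr_subset]
      exact h
    · right
      refine ⟨?_, h'⟩
      change tr g a.s = tr g b.s
      rw [h]
  · intro g a
    rfl
  · intro g a h
    have h1 : a.b = !a.b := congrArg HS.b h
    revert h1
    cases a.b <;> decide
  · intro a
    change (1 : L) ∈ a.s ↔ ¬ ((1 : L) ∈ a.sᶜ)
    rw [Set.mem_compl_iff, not_not]
  · intro a b h1 h2
    have h3 : a.s ⊆ b.s := by
      rcases h2 with h | h
      · exact h.subset
      · exact h.1.subset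
    exact h3 h1
  · intro g
    have h1 := hE.sep 1 g⁻¹
    have h2 : ({C | C ∈ E ∧ (1 : L) ∈ C ∧ g⁻¹ ∉ C} ×ˢ (Set.univ : Set Bool)).Finite :=
      h1.prod (Set.toFinite _)
    have h3 : Function.Injective (fun p : HS E => (p.s, p.b)) := by
      intro p q hpq
      rw [Prod.mk.injEq] at hpq
      exact HS.ext' hpq.1 hpq.2
    refine (h2.preimage (f := fun p : HS E => (p.s, p.b)) h3.injOn).subset ?_
    rintro a ⟨h4, h5⟩
    refine ⟨⟨a.mem, h4, ?_⟩, Set.mem_univ _⟩
    intro h6
    apply h5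
    change (1 : L) ∈ tr g a.s
    rw [mem_tr, mul_one]
    exact h6

end KPS
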