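import Pool.Agent.Lib.MP_32d917_al_vf.K5
import Pool.Agent.Lib.MP_32d917_al_vf.K6

/-!
# The tree of the optimal separators
-/

set_option autoImplicit false

namespace KPS

open Filter

variable {L : Type} [Group L]

theorem bd_tr (Sg : Set L) (x : L) (C : Set L) :
    bd (ad Sg) (tr x C) = (fun p : L × L => (x * p.1, x * p.2)) '' bd (ad Sg) C := by
  ext ⟨p, q⟩
  constructor
  · rintro ⟨h1, h2, h3⟩
    refine ⟨(x⁻¹ * p, x⁻¹ * q), ⟨?_, h2, h3⟩, ?_⟩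
    · exact (ad_mul _ _ _).mpr h1
    · simp
  · rintro ⟨⟨a, b⟩, ⟨h1, h2, h3⟩, h4⟩
    simp only [Prod.mk.injEq] at h4
    obtain ⟨rfl, rfl⟩ := h4
    refine ⟨(ad_mul _ _ _).mpr h1, ?_, ?_⟩
    · change x⁻¹ * (x * a) ∈ C
      rw [inv_mul_cancel_left]; exact h2
    · change ¬ (x⁻¹ * (x * b) ∈ C)
      rw [inv_mul_cancel_left]; exact h3

theorem bd_tr_fin (Sg : Set L) (x : L) {C : Set L} (h : (bd (ad Sg) C).Finite) :
    (bd (ad Sg) (tr x C)).Finite := by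
  rw [bd_tr]; exact h.image _

theorem bd_tr_ncard (Sg : Set L) (x : L) (C : Set L) :
    (bd (ad Sg) (tr x C)).ncard = (bd (ad Sg) C).ncard := by
  rw [bd_tr]
  apply Set.ncard_image_of_injective
  rintro ⟨a, b⟩ ⟨c, d⟩ h
  simp only [Prod.mk.injEq, mul_right_inj] at h
  rw [h.1, h.2]

theorem Inf.conj {g : L} (h : Inf g) (x : L) : Inf (x * g * x⁻¹) := by
  intro m n hmn
  apply h
  have h1 : (x * g * x⁻¹) ^ m = (x * g * x⁻¹) ^ n := hmn
  rw [conj_pow, conj_pow] at h1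
  exact mul_left_cancel (mul_right_cancel h1)

theorem conj_inv' (x g : L) : (x * g * x⁻¹)⁻¹ = x * g⁻¹ * x⁻¹ := by group

theorem pos_tr {Sg : Set L} (hS : Gen Sg) {g : L} (hg : Inf g) {C : Set L}
    (hC : (bd (ad Sg) C).Finite) (h : Pos g C) (x : L) : Pos (x * g * x⁻¹) (tr x C) := by
  have h1 := pos_shift hS hg hC h x⁻¹
  refine Filter.Eventually.mono h1 fun n hn => ?_
  rw [mem_tr, conj_pow]
  have h2 : x⁻¹ * (x * g ^ n * x⁻¹) = g ^ n * x⁻¹ := by group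
  rw [h2]
  exact hn

theorem cand_tr {Sg : Set L} (hS : Gen Sg) {g : L} (hg : Inf g) {C : Set L}
    (hC : C ∈ Cand Sg g) (x : L) : tr x C ∈ Cand Sg (x * g * x⁻¹) := by
  have hf := hC.1
  have hf' := bd_compl_fin (ad_symm hS) hf
  refine ⟨bd_tr_fin Sg x hf, ?_⟩
  unfold Sep
  rw [conj_inv', ← tr_compl]
  rcases hC.2 with ⟨h1, h2⟩ | ⟨h1, h2⟩
  · exact Or.inl ⟨pos_tr hS hg hf h1 x, pos_tr hS hg.inv hf' h2 x⟩
  · exact Or.inr ⟨pos_tr hS hg hf' h1 x, pos_tr hS hg.inv hf h2 x⟩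

theorem cmin_tr {Sg : Set L} (hS : Gen Sg) {g : L} (hg : Inf g) {C : Set L}
    (hC : C ∈ Cmin Sg g) (x : L) : tr x C ∈ Cmin Sg (x * g * x⁻¹) := by
  refine ⟨cand_tr hS hg hC.1 x, fun D hD => ?_⟩
  have h1 := cand_tr hS (hg.conj x) hD x⁻¹
  have h2 : x⁻¹ * (x * g * x⁻¹) * x⁻¹⁻¹ = g := by group
  rw [h2] at h1
  have h3 := hC.2 _ h1
  rw [bd_tr_ncard] at h3
  rw [bd_tr_ncard]
  exact h3

theorem conn_tr {Sg : Set L} {C : Set L} (h : Conn (ad Sg) C) (x : L) :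
    Conn (ad Sg) (tr x C) := by
  intro p hp q hq
  have h1 := h _ hp _ hq
  have h2 : ∀ u v, Relation.ReflTransGen (fun a b => ad Sg a b ∧ a ∈ C ∧ b ∈ C) u v →
      Relation.ReflTransGen (fun a b => ad Sg a b ∧ a ∈ tr x C ∧ b ∈ tr x C) (x * u) (x * v) := by
    intro u v huv
    induction huv with
    | refl => exact Relation.ReflTransGen.refl
    | tail _ hbc ih =>
      refine ih.tail ⟨(ad_mul _ _ _).mpr hbc.1, ?_, ?_⟩
      · rw [mem_tr, inv_mul_cancel_left]; exact hbc.2.1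
      · rw [mem_tr, inv_mul_cancel_left]; exact hbc.2.2
  have h3 := h2 _ _ h1
  rwa [mul_inv_cancel_left, mul_inv_cancel_left] at h3

theorem tight_tr {Sg : Set L} {k : ℕ} {C : Set L} (h : C ∈ Tight (ad Sg) k) (x : L) :
    tr x C ∈ Tight (ad Sg) k := by
  refine ⟨conn_tr h.1 x, ?_, bd_tr_fin Sg x h.2.2.1, ?_⟩
  · rw [← tr_compl]
    exact conn_tr h.2.1 x
  · rw [bd_tr_ncard]
    exact h.2.2.2

theorem mm_tr {Sg : Set L} (k : ℕ) (C : Set L) (x : L) : mm Sg k (tr x C) = mm Sg k C := by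
  unfold mm
  have h1 : {D | D ∈ Tight (ad Sg) k ∧ ¬ Nested (tr x C) D} =
      tr x '' {D | D ∈ Tight (ad Sg) k ∧ ¬ Nested C D} := by
    ext D
    have hD : tr x (tr x⁻¹ D) = D := by rw [← tr_mul, mul_inv_cancel, tr_one]
    constructor
    · rintro ⟨h1, h2⟩
      refine ⟨tr x⁻¹ D, ⟨tight_tr h1 x⁻¹, ?_⟩, hD⟩
      rw [← hD, nested_tr] at h2
      exact h2
    · rintro ⟨D', ⟨h1, h2⟩, rfl⟩
      exact ⟨tight_tr h1 x, by rw [nested_tr]; exact h2⟩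
  rw [h1]
  exact Set.ncard_image_of_injective _ (tr_inj x)

theorem opt_tr {Sg : Set L} (hS : Gen Sg) {k : ℕ} {g : L} (hg : Inf g) {C : Set L}
    (hC : C ∈ Opt Sg k g) (x : L) : tr x C ∈ Opt Sg k (x * g * x⁻¹) := by
  refine ⟨cmin_tr hS hg hC.1 x, fun D hD => ?_⟩
  have h1 := cmin_tr hS (hg.conj x) hD x⁻¹
  have h2 : x⁻¹ * (x * g * x⁻¹) * x⁻¹⁻¹ = g := by group
  rw [h2] at h1
  have h3 := hC.2 _ h1
  rw [mm_tr] at h3
  rw [mm_tr]
  exact h3

/-- a set of elements of infinite order whose ends are separated by small cuts -/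
structure Sepd (Sg : Set L) (k : ℕ) (Λ : Set L) : Prop where
  gen : Gen Sg
  inf : ∀ g ∈ Λ, Inf g
  conj : ∀ g ∈ Λ, ∀ x : L, x * g * x⁻¹ ∈ Λ
  cut : ∀ g ∈ Λ, ∃ C ∈ Cand Sg g, (bd (ad Sg) C).ncard ≤ k

/-- all optimal separators -/
def Fam (Sg : Set L) (k : ℕ) (Λ : Set L) : Set (Set L) := {C | ∃ g ∈ Λ, C ∈ Opt Sg k g}

section

variable {Sg : Set L} {k : ℕ} {Λ : Set L}

theorem cmin_le (h : Sepd Sg k Λ) {g : L} (hg : g ∈ Λ) :
    ∀ C ∈ Cmin Sg g, (bd (ad Sg) C).ncard ≤ k := by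
  intro C hC
  obtain ⟨D, hD, hk⟩ := h.cut g hg
  exact (hC.2 D hD).trans hk

theorem opt_ex (h : Sepd Sg k Λ) {g : L} (hg : g ∈ Λ) : ∃ C, C ∈ Opt Sg k g := by
  classical
  obtain ⟨C0, hC0, _⟩ := h.cut g hg
  have h1 : ∃ n, ∃ C ∈ Cand Sg g, (bd (ad Sg) C).ncard = n := ⟨_, C0, hC0, rfl⟩
  obtain ⟨C1, hC1, hn⟩ := Nat.find_spec h1
  have hmin : C1 ∈ Cmin Sg g := by
    refine ⟨hC1, fun D hD => ?_⟩
    rw [hn]
    exact Nat.find_min' h1 ⟨D, hD, rfl⟩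
  have h2 : ∃ n, ∃ C ∈ Cmin Sg g, mm Sg k C = n := ⟨_, C1, hmin, rfl⟩
  obtain ⟨C2, hC2, hn2⟩ := Nat.find_spec h2
  refine ⟨C2, hC2, fun D hD => ?_⟩
  rw [hn2]
  exact Nat.find_min' h2 ⟨D, hD, rfl⟩

theorem fam_tight (h : Sepd Sg k Λ) {C : Set L} (hC : C ∈ Fam Sg k Λ) :
    C ∈ Tight (ad Sg) k := by
  obtain ⟨g, hg, hC⟩ := hC
  exact ⟨(tight_of_min h.gen (h.inf g hg) hC.1).1, (tight_of_min h.gen (h.inf g hg) hC.1).2,
    hC.1.1.1, cmin_le h hg C hC.1⟩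

theorem famH (h : Sepd Sg k Λ) : FamH (Fam Sg k Λ) := by
  refine ⟨?_, ?_, ?_, ?_, ?_⟩
  · rintro C ⟨g, hg, hC⟩
    exact ⟨g, hg, Opt.compl h.gen hC⟩
  · rintro C ⟨g, hg, hC⟩ D ⟨g', hg', hD⟩
    exact opt_nested h.gen (h.inf g hg) (h.inf g' hg') (cmin_le h hg) (cmin_le h hg') hC hD
  · rintro C ⟨g, hg, hC⟩
    rcases hC.1.1.2 with ⟨h1, _⟩ | ⟨_, h1⟩
    · obtain ⟨n, hn⟩ := Filter.Eventually.exists h1
      exact ⟨_, hn⟩
    · obtain ⟨n, hn⟩ := Filter.Eventually.exists h1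
      exact ⟨_, hn⟩
  · rintro C ⟨g, hg, hC⟩ x
    exact ⟨x * g * x⁻¹, h.conj g hg x, opt_tr h.gen (h.inf g hg) hC x⟩
  · intro x y
    refine (tight_finite k (ad Sg) (ad_symm h.gen) h.gen.gen x y).subset ?_
    rintro C ⟨h1, h2, h3⟩
    exact ⟨fam_tight h h1, h2, h3⟩

theorem fam_orbits (h : Sepd Sg k Λ) :
    ∃ R : Set (Set L), R.Finite ∧ ∀ C ∈ Fam Sg k Λ, ∃ x : L, tr x C ∈ R := by
  refine ⟨⋃ s ∈ Sg, {C | C ∈ Tight (ad Sg) k ∧ (1 : L) ∈ C ∧ s ∉ C},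
    h.gen.fin.biUnion fun s _ => tight_finite k (ad Sg) (ad_symm h.gen) h.gen.gen 1 s, ?_⟩
  intro C hC
  have hE := famH h
  obtain ⟨x, hx⟩ := hE.ne C hC
  obtain ⟨y, hy⟩ := hE.ne _ (hE.compl C hC)
  obtain ⟨a, b, hab, ha, hb⟩ := exit_of_path (h.gen.gen x y) hx hy
  refine ⟨a⁻¹, ?_⟩
  simp only [Set.mem_iUnion]
  refine ⟨a⁻¹ * b, hab, tight_tr (fam_tight h hC) a⁻¹, ?_, ?_⟩
  · rw [mem_tr, inv_inv, mul_one]; exact ha
  · rw [mem_tr, inv_inv, mul_inv_cancel_left]; exact hb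

/-- an element of `Λ` does not fix a vertex -/
theorem no_fix (h : Sepd Sg k Λ) {g : L} (hg : g ∈ Λ)
    (U : Ver (hst (famH h)) (hO (Fam Sg k Λ))) :
    (@act L (HS (Fam Sg k Λ)) _ _ (hact (famH h)) _ _ (poc (famH h))).smul g U ≠ U := by
  letI := hact (famH h)
  intro hfix
  have hP := poc (famH h)
  have hmem : ∀ a : HS (Fam Sg k Λ), a ∈ U.1 ↔ g⁻¹ • a ∈ U.1 := by
    intro a
    have h1 := act_val hP g U
    rw [hfix] at h1
    have h2 : a ∈ U.1 ↔ a ∈ {a | g⁻¹ • a ∈ U.1} := by rw [← h1]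
    exact h2
  -- a half space of `U` that separates the ends of `g`
  obtain ⟨C, hC⟩ := opt_ex h hg
  have hCF : C ∈ Fam Sg k Λ := ⟨g, hg, hC⟩
  obtain ⟨p, hpU, hpS⟩ : ∃ p : HS (Fam Sg k Λ), p ∈ U.1 ∧ Sep g p.s := by
    by_cases h1 : (⟨C, false, hCF⟩ : HS (Fam Sg k Λ)) ∈ U.1
    · exact ⟨_, h1, hC.1.1.2⟩
    · refine ⟨hst (famH h) ⟨C, false, hCF⟩, ?_, hC.1.1.2.compl⟩
      by_contra h2
      exact h1 ((U.2.1 _).mpr h2)
  have hpow : ∀ n : ℕ, (g⁻¹) ^ n • p ∈ U.1 ∧ g ^ n • p ∈ U.1 := by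
    intro n
    induction n with
    | zero => simp only [pow_zero, one_smul]; exact ⟨hpU, hpU⟩
    | succ n ih =>
      constructor
      · rw [pow_succ', mul_smul]
        exact (hmem _).mp ih.1
      · rw [hmem, pow_succ', mul_smul, inv_smul_smul]
        exact ih.2
  -- the translates are different
  have hinj : ∀ e : L, Sep e p.s → Function.Injective (fun n : ℕ => e ^ n • p) := by
    intro e he
    have key : ∀ m q : ℕ, 0 < q → e ^ (m + q) • p ≠ e ^ m • p := by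
      intro m q hq heq
      rw [pow_add, mul_smul] at heq
      have h1 : e ^ q • p = p := by
        have := congrArg (fun z => (e ^ m)⁻¹ • z) heq
        simpa using this
      have h2 : ∀ j : ℕ, (e ^ q) ^ j • p = p := by
        intro j
        induction j with
        | zero => rw [pow_zero, one_smul]
        | succ j ih => rw [pow_succ, mul_smul, h1, ih]
      have h3 : ∀ j : ℕ, ((1 : L) ∈ p.s ↔ e ^ (q * j) ∈ p.s) := by
        intro j
        have h4 := congrArg HS.s (h2 j)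
        have h5 : tr ((e ^ q) ^ j) p.s = p.s := h4
        rw [← pow_mul] at h5
        constructor
        · intro h6
          rw [← h5, mem_tr, inv_mul_cancel]
          exact h6
        · intro h6
          rw [← h5, mem_tr, inv_mul_cancel] at h6
          exact h6
      have h3' : ∀ j : ℕ, ((1 : L) ∈ p.s ↔ (e⁻¹) ^ (q * j) ∈ p.s) := by
        intro j
        have h4 := congrArg HS.s (h2 j)
        have h5 : tr ((e ^ q) ^ j) p.s = p.s := h4
        rw [← pow_mul] at h5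
        rw [inv_pow]
        constructor
        · intro h6
          rw [← h5, mem_tr, mul_one] at h6
          exact h6
        · intro h6
          rw [← h5, mem_tr, mul_one]
          exact h6
      rcases he with ⟨h6, h7⟩ | ⟨h6, h7⟩
      · obtain ⟨N, hN⟩ := eventually_atTop.mp (Filter.Eventually.and h6 h7)
        have h8 := hN (q * N) (Nat.le_mul_of_pos_left N hq)
        exact h8.2 ((h3' N).mp ((h3 N).mpr h8.1))
      · obtain ⟨N, hN⟩ := eventually_atTop.mp (Filter.Eventually.and h6 h7)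
        have h8 := hN (q * N) (Nat.le_mul_of_pos_left N hq)
        exact h8.1 ((h3 N).mp ((h3' N).mpr h8.2))
    intro m n hmn
    have hmn' : e ^ m • p = e ^ n • p := hmn
    rcases lt_trichotomy m n with h1 | h1 | h1
    · obtain ⟨q, rfl⟩ := Nat.exists_eq_add_of_lt h1
      exact absurd hmn'.symm (key m (q + 1) (by omega))
    · exact h1
    · obtain ⟨q, rfl⟩ := Nat.exists_eq_add_of_lt h1
      exact absurd hmn' (key n (q + 1) (by omega))
  -- infinitely many of them do not contain the base point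
  have hcontra : ∀ e : L, Sep e p.s → (∀ n : ℕ, e ^ n • p ∈ U.1) → Pos e⁻¹ p.sᶜ → False := by
    intro e he hU hpos
    have h1 : ∀ᶠ n : ℕ in atTop, e ^ n • p ∉ {a | a ∈ U.1 ∧ a ∉ hO (Fam Sg k Λ)} :=
      ev_of_fin (U.2.2.2.preimage (hinj e he).injOn)
    obtain ⟨n, hn1, hn2⟩ := (Filter.Eventually.and h1 hpos).exists
    apply hn1
    refine ⟨hU n, ?_⟩
    intro h2
    have h3 : (1 : L) ∈ tr (e ^ n) p.s := h2
    rw [mem_tr, mul_one, ← inv_pow] at h3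
    exact hn2 h3
  rcases hpS with ⟨h1, h2⟩ | ⟨h1, h2⟩
  · exact hcontra g (Or.inl ⟨h1, h2⟩) (fun n => (hpow n).2) h2
  · refine hcontra g⁻¹ (Or.inl ⟨h2, ?_⟩) (fun n => (hpow n).1) ?_
    · rw [inv_inv]; exact h1
    · rw [inv_inv]; exact h1

/-- The tree of the optimal separators -/
theorem fam_tree (h : Sepd Sg k Λ) (hne : Λ.Nonempty)
    (hfin : ∀ H : Subgroup L, (∀ g ∈ H, g ∉ Λ) → Finite H) :
    ∃ (V : Type) (_ : MulAction L V) (S : SimpleGraph V), LatN.TLat L S ∧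
      ∀ v : V, Finite (MulAction.stabilizer L v) ∧ ∀ g ∈ Λ, g • v ≠ v := by
  have hP := poc (famH h)
  letI := hact (famH h)
  obtain ⟨g0, hg0⟩ := hne
  have h1 : ∀ U : Ver (hst (famH h)) (hO (Fam Sg k Λ)),
      ({g : L | (act hP).smul g U = U}).Finite := by
    intro U
    letI := act hP
    have h2 := hfin (MulAction.stabilizer L U) (fun g hg hgΛ => no_fix h hgΛ U hg)
    exact Set.toFinite (MulAction.stabilizer L U : Set L)
  have h2 := dual_tlat hP ?_ h1 ?_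
  · refine ⟨_, act hP, _, h2.1, fun v => ⟨h2.2 v, fun g hg => ?_⟩⟩
    exact no_fix h hg v
  · obtain ⟨R, hR, hR'⟩ := fam_orbits h
    have h3 : Function.Injective (fun p : HS (Fam Sg k Λ) => (p.s, p.b)) := by
      intro p q hpq
      rw [Prod.mk.injEq] at hpq
      exact HS.ext' hpq.1 hpq.2
    refine ⟨(fun p : HS (Fam Sg k Λ) => (p.s, p.b)) ⁻¹' (R ×ˢ (Set.univ : Set Bool)),
      (hR.prod (Set.toFinite _)).preimage h3.injOn, fun a => ?_⟩
    obtain ⟨x, hx⟩ := hR' a.s a.mem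
    exact ⟨x, hx, Set.mem_univ _⟩
  · exact ⟨(act hP).smul g0 (base hP), base hP, no_fix h hg0 _⟩

end

end KPS
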