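import Pool.Agent.Lib.MP_32d917_al_vf.K7

/-!
# Separating cuts in finite extensions of free groups
-/

set_option autoImplicit false

namespace KPS

open Filter

section free

open FreeGroup

variable {n : ℕ}

/-- the elements whose inverse is a word with last letter `a` -/
def Z (a : Fin n × Bool) : Set (FreeGroup (Fin n)) := {z | (z⁻¹).toWord.getLast? = some a}

theorem Z_letter (a b : Fin n × Bool) (z : FreeGroup (Fin n)) (hz : z ∈ Z a)
    (h : z * FreeGroup.mk [b] ∉ Z a) : z ∈ Set.range (fun a : Fin n × Bool => (FreeGroup.mk [a])⁻¹) := by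
  have h1 : (z⁻¹).toWord.getLast? = some a := hz
  have h2 : ¬ ((z * FreeGroup.mk [b])⁻¹).toWord.getLast? = some a := h
  have h3 : (z * FreeGroup.mk [b])⁻¹ = FreeGroup.mk ((b.1, !b.2) :: (z⁻¹).toWord) := by
    rw [mul_inv_rev, inv_mk]
    nth_rewrite 1 [← mk_toWord (x := z⁻¹)]
    rw [mul_mk]
    rfl
  rw [h3, toWord_mk, reduce.cons, reduce_toWord] at h2
  cases hv : (z⁻¹).toWord with
  | nil => rw [hv] at h1; simp at h1
  | cons hd tl =>
    rw [hv] at h1 h2
    simp only at h2
    by_cases hc : b.1 = hd.1 ∧ (!b.2) = !hd.2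
    · rw [if_pos hc] at h2
      cases tl with
      | nil =>
        refine ⟨hd, ?_⟩
        change (FreeGroup.mk [hd])⁻¹ = z
        rw [← hv, mk_toWord, inv_inv]
      | cons hd' tl' =>
        exfalso
        apply h2
        rw [List.getLast?_cons_cons] at h1
        exact h1
    · rw [if_neg hc] at h2
      exfalso
      apply h2
      rw [List.getLast?_cons_cons]
      exact h1

theorem Z_ai (c : FreeGroup (Fin n)) : ∃ D : Set (FreeGroup (Fin n)), D.Finite ∧
    ∀ a z, z ∈ Z a → z * c ∉ Z a → z ∈ D := by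
  induction c using FreeGroup.induction_on with
  | C1 =>
    refine ⟨∅, Set.finite_empty, fun a z h1 h2 => ?_⟩
    rw [mul_one] at h2
    exact absurd h1 h2
  | of i =>
    exact ⟨_, Set.finite_range _, fun a z h1 h2 => Z_letter a (i, true) z h1 h2⟩
  | inv_of i _ =>
    refine ⟨_, Set.finite_range _, fun a z h1 h2 => Z_letter a (i, false) z h1 ?_⟩
    have h3 : FreeGroup.mk [(i, false)] = (FreeGroup.of i)⁻¹ := by
      rw [FreeGroup.of, inv_mk]
      rfl
    rw [h3]
    exact h2
  | mul x y hx hy =>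
    obtain ⟨D1, hD1, h1⟩ := hx
    obtain ⟨D2, hD2, h2⟩ := hy
    refine ⟨D1 ∪ (fun z => z * x⁻¹) '' D2, hD1.union (hD2.image _), fun a z h3 h4 => ?_⟩
    by_cases h5 : z * x ∈ Z a
    · right
      refine ⟨z * x, h2 a _ h5 (by rw [mul_assoc]; exact h4), ?_⟩
      simp
    · exact Or.inl (h1 a z h3 h5)

theorem Z_sep (g : FreeGroup (Fin n)) (hg : g ≠ 1) : ∃ y c : FreeGroup (Fin n),
    g = y * c * y⁻¹ ∧ ∃ a, (∀ m : ℕ, 1 ≤ m → c ^ m ∈ Z a) ∧
      ∀ m : ℕ, 1 ≤ m → (c⁻¹) ^ m ∉ Z a := by
  obtain ⟨l, hl⟩ : ∃ l, l = (g⁻¹).toWord := ⟨_, rfl⟩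
  have hlr : IsReduced l := by rw [hl]; exact isReduced_toWord
  obtain ⟨w, hw⟩ : ∃ w, w = reduceCyclically l := ⟨_, rfl⟩
  have hwc : IsCyclicallyReduced w := by rw [hw]; exact reduceCyclically.isCyclicallyReduced hlr
  have hconj := reduceCyclically.conj_conjugator_reduceCyclically l
  rw [← hw] at hconj
  have hwne : w ≠ [] := by
    intro h0
    rw [h0, List.append_nil] at hconj
    apply hg
    have h1 : g⁻¹ = 1 := by
      rw [← mk_toWord (x := g⁻¹), ← hl, ← hconj, ← mul_mk, ← inv_mk, mul_inv_cancel]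
    exact inv_eq_one.mp h1
  refine ⟨FreeGroup.mk (reduceCyclically.conjugator l), (FreeGroup.mk w)⁻¹, ?_, ?_⟩
  · rw [← inv_inj, mul_inv_rev, mul_inv_rev, inv_inv, inv_inv, ← mul_assoc]
    rw [inv_mk, mul_mk, mul_mk, hconj, hl, mk_toWord]
  · have hpow : ∀ m : ℕ, ((FreeGroup.mk w) ^ m).toWord = (List.replicate m w).flatten := by
      intro m
      rw [toWord_pow, toWord_mk, hwc.isReduced.reduce_eq]
      exact (hwc.flatten_replicate m).isReduced.reduce_eq
    refine ⟨w.getLast hwne, ?_, ?_⟩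
    · intro m hm
      change (((FreeGroup.mk w)⁻¹ ^ m)⁻¹).toWord.getLast? = _
      rw [inv_pow, inv_inv, hpow, List.getLast?_flatten_replicate (h := by omega),
        List.getLast?_eq_some_getLast hwne]
    · intro m hm h
      have h1 : ((((FreeGroup.mk w)⁻¹)⁻¹ ^ m)⁻¹).toWord.getLast? = some (w.getLast hwne) := h
      rw [inv_inv, toWord_inv, hpow, invRev, List.getLast?_reverse, List.head?_map,
        List.head?_flatten_replicate (h := by omega), List.head?_eq_some_head hwne,
        Option.map_some, Option.some.injEq] at h1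
      have h2 := hwc.2 (w.getLast hwne) (List.getLast?_eq_some_getLast hwne) (w.head hwne)
        (List.head?_eq_some_head hwne) (by rw [← h1])
      rw [← h1] at h2
      revert h2
      cases (w.head hwne).2 <;> simp

end free

section ext

variable {L : Type} [Group L]

theorem pos_of_shift {Sg : Set L} (hS : Gen Sg) {g : L} (hg : Inf g) {C : Set L}
    (hC : (bd (ad Sg) C).Finite) (u : L) (h : ∀ᶠ m : ℕ in atTop, g ^ m * u ∈ C) : Pos g C := by
  have hinj : Function.Injective (fun m : ℕ => g ^ m * u) := by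
    intro a b hab
    exact hg (mul_right_cancel hab)
  have h1 := ev_of_fin ((ai hS hC u⁻¹).preimage hinj.injOn)
  filter_upwards [h, h1] with m h2 h3
  by_contra h4
  apply h3
  refine ⟨h2, ?_⟩
  change ¬ (g ^ m * u * u⁻¹ ∈ C)
  rw [mul_inv_cancel_right]
  exact h4

theorem gen_of_closure {Sg : Set L} (hsym : ∀ s ∈ Sg, s⁻¹ ∈ Sg)
    (h : Subgroup.closure Sg = ⊤) (x y : L) : Relation.ReflTransGen (ad Sg) x y := by
  have h1 : ∀ u : L, ∀ x : L, Relation.ReflTransGen (ad Sg) x (x * u) := by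
    intro u
    have hu : u ∈ Subgroup.closure Sg := by rw [h]; trivial
    induction hu using Subgroup.closure_induction with
    | mem s hs =>
      intro x
      refine Relation.ReflTransGen.single ?_
      unfold ad
      rw [inv_mul_cancel_left]
      exact hs
    | one => intro x; rw [mul_one]
    | mul a b _ _ iha ihb =>
      intro x
      rw [← mul_assoc]
      exact (iha x).trans (ihb _)
    | inv a _ iha =>
      intro x
      have h2 := iha (x * a⁻¹)
      rw [inv_mul_cancel_right] at h2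
      refine rtg_symm ?_ h2
      intro p q hpq
      have h3 := hsym _ hpq
      rw [mul_inv_rev, inv_inv] at h3
      exact h3
  have h2 := h1 (x⁻¹ * y) x
  rwa [mul_inv_cancel_left] at h2

variable (F : Subgroup L) [F.Normal]

/-- the representative of the coset of `x` -/
noncomputable def sg (x : L) : L := ((x : L ⧸ F)).out

theorem sg_spec (x : L) : ((sg F x : L) : L ⧸ F) = (x : L ⧸ F) := Quotient.out_eq _

theorem sg_congr {x y : L} (h : (x : L ⧸ F) = (y : L ⧸ F)) : sg F x = sg F y := by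
  unfold sg
  rw [h]

theorem mul_sg_inv_mem (x : L) : x * (sg F x)⁻¹ ∈ F := by
  rw [← QuotientGroup.eq_one_iff, QuotientGroup.mk_mul, QuotientGroup.mk_inv, sg_spec,
    mul_inv_cancel]

variable {n : ℕ} (e : F ≃* FreeGroup (Fin n))

/-- the free part -/
noncomputable def ph (x : L) : FreeGroup (Fin n) := e ⟨x * (sg F x)⁻¹, mul_sg_inv_mem F x⟩

theorem ph_mul (x s : L) : ph F e (x * s) = ph F e x * ph F e (sg F x * s) := by
  unfold ph
  rw [← map_mul]
  congr 1
  apply Subtype.ext
  rw [Subgroup.coe_mul]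
  change x * s * (sg F (x * s))⁻¹ = x * (sg F x)⁻¹ * (sg F x * s * (sg F (sg F x * s))⁻¹)
  have h1 : sg F (sg F x * s) = sg F (x * s) := by
    apply sg_congr
    rw [QuotientGroup.mk_mul, QuotientGroup.mk_mul, sg_spec]
  rw [h1]
  group

theorem ph_inj {x y : L} (h1 : (x : L ⧸ F) = (y : L ⧸ F)) (h2 : ph F e x = ph F e y) :
    x = y := by
  unfold ph at h2
  have h3 := e.injective h2
  rw [Subtype.mk.injEq, sg_congr F h1] at h3
  exact mul_right_cancel h3

theorem ph_pow (f : F) (m : ℕ) : ph F e ((f : L) ^ m * sg F 1) = (e f) ^ m := by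
  unfold ph
  rw [← map_pow]
  congr 1
  apply Subtype.ext
  change (f : L) ^ m * sg F 1 * (sg F ((f : L) ^ m * sg F 1))⁻¹ = ((f ^ m : F) : L)
  have h1 : sg F ((f : L) ^ m * sg F 1) = sg F 1 := by
    apply sg_congr
    rw [QuotientGroup.mk_mul, sg_spec, QuotientGroup.mk_one, mul_one, QuotientGroup.eq_one_iff]
    exact F.pow_mem f.2 m
  rw [h1, mul_inv_cancel_right, Subgroup.coe_pow]

include e in
theorem inf_of_free {g : L} (hg : g ∈ F) (hg1 : g ≠ 1) : Inf g := by
  intro a b hab
  have h1 : (g ^ a : L) = g ^ b := hab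
  have h2 : (e ⟨g, hg⟩) ^ a = (e ⟨g, hg⟩) ^ b := by
    rw [← map_pow, ← map_pow]
    congr 1
    apply Subtype.ext
    rw [Subgroup.coe_pow, Subgroup.coe_pow]
    exact h1
  have h3 : e ⟨g, hg⟩ ≠ 1 := by
    intro h
    apply hg1
    have h4 := (map_eq_one_iff e e.injective).mp h
    exact congrArg Subtype.val h4
  have h4 : ¬ IsOfFinOrder (e ⟨g, hg⟩) := not_isOfFinOrder_of_isMulTorsionFree h3
  exact injective_pow_iff_not_isOfFinOrder.mpr h4 h2

include e in
theorem sepd_of_free [F.FiniteIndex] :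
    ∃ (Sg : Set L) (k : ℕ), Sepd Sg k {g | g ∈ F ∧ g ≠ 1} := by
  classical
  -- generators
  obtain ⟨S0, hS0⟩ : ∃ S0 : Set L, S0 = Set.range (fun i : Fin n => ((e.symm (FreeGroup.of i) : F) : L)) ∪
      Set.range (fun t : L ⧸ F => t.out) := ⟨_, rfl⟩
  have hS0f : S0.Finite := by
    rw [hS0]
    exact (Set.finite_range _).union (Set.finite_range _)
  have hclos : Subgroup.closure S0 = ⊤ := by
    rw [eq_top_iff]
    intro x _
    have h1 : ∀ w : FreeGroup (Fin n), ((e.symm w : F) : L) ∈ Subgroup.closure S0 := by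
      intro w
      induction w using FreeGroup.induction_on with
      | C1 => rw [map_one]; exact Subgroup.one_mem _
      | of i =>
        apply Subgroup.subset_closure
        rw [hS0]
        exact Or.inl ⟨i, rfl⟩
      | inv_of i h =>
        rw [map_inv]
        exact Subgroup.inv_mem _ h
      | mul a b ha hb =>
        rw [map_mul]
        exact Subgroup.mul_mem _ ha hb
    have h2 : x = ((e.symm (ph F e x) : F) : L) * sg F x := by
      unfold ph
      rw [MulEquiv.symm_apply_apply]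
      change x = x * (sg F x)⁻¹ * sg F x
      group
    rw [h2]
    refine Subgroup.mul_mem _ (h1 _) ?_
    apply Subgroup.subset_closure
    rw [hS0]
    exact Or.inr ⟨(x : L ⧸ F), rfl⟩
  obtain ⟨Sg, hSg⟩ : ∃ Sg : Set L, Sg = S0 ∪ S0⁻¹ := ⟨_, rfl⟩
  have hsym : ∀ s ∈ Sg, s⁻¹ ∈ Sg := by
    intro s hs
    rw [hSg] at hs ⊢
    rcases hs with hs | hs
    · right
      rw [Set.mem_inv, inv_inv]
      exact hs
    · left
      exact hs
  have hG : Gen Sg := by
    refine ⟨?_, hsym, ?_⟩
    · rw [hSg]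
      exact hS0f.union hS0f.inv
    · intro x y
      apply gen_of_closure hsym
      rw [eq_top_iff, ← hclos]
      apply Subgroup.closure_mono
      rw [hSg]
      exact Set.subset_union_left
  -- the uniform bound
  choose D hDf hD using (Z_ai (n := n))
  obtain ⟨B, hB⟩ : ∃ B : Set (L × L), B = ⋃ s ∈ Sg, ⋃ t : L ⧸ F,
      (fun x => (x, x * s)) '' {x | (x : L ⧸ F) = t ∧ ph F e x ∈ D (ph F e (t.out * s))} :=
    ⟨_, rfl⟩
  have hBf : B.Finite := by
    rw [hB]
    refine hG.fin.biUnion fun s _ => Set.finite_iUnion fun t => Set.Finite.image _ ?_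
    refine Set.Finite.of_finite_image ((hDf (ph F e (t.out * s))).subset ?_) (f := ph F e) ?_
    · rintro _ ⟨x, hx, rfl⟩
      exact hx.2
    · intro x hx y hy hxy
      exact ph_inj F e (hx.1.trans hy.1.symm) hxy
  refine ⟨Sg, B.ncard, hG, ?_, ?_, ?_⟩
  · rintro g ⟨h1, h2⟩
    exact inf_of_free F e h1 h2
  · rintro g ⟨h1, h2⟩ x
    refine ⟨‹F.Normal›.conj_mem g h1 x, ?_⟩
    intro h3
    exact h2 (conj_eq_one_iff.mp h3)
  · rintro g ⟨h1, h2⟩
    have h3 : e ⟨g, h1⟩ ≠ 1 := by
      intro h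
      apply h2
      have h4 := (map_eq_one_iff e e.injective).mp h
      exact congrArg Subtype.val h4
    obtain ⟨y, c, hyc, a, ha1, ha2⟩ := Z_sep _ h3
    obtain ⟨C, hC⟩ : ∃ C : Set L, C = {x | ph F e x ∈ Z a} := ⟨_, rfl⟩
    have hsub : bd (ad Sg) C ⊆ B := by
      rintro ⟨p, q⟩ ⟨h4, h5, h6⟩
      rw [hC] at h5 h6
      rw [hB]
      simp only [Set.mem_iUnion]
      refine ⟨p⁻¹ * q, h4, (p : L ⧸ F), p, ⟨rfl, ?_⟩, ?_⟩
      · apply hD _ a _ h5
        have h7 := ph_mul F e p (p⁻¹ * q)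
        rw [mul_inv_cancel_left] at h7
        intro h8
        apply h6
        change ph F e q ∈ Z a
        rw [h7]
        exact h8
      · simp
    have hCf : (bd (ad Sg) C).Finite := hBf.subset hsub
    -- the element `f` with `e f = c`
    obtain ⟨f, hf⟩ : ∃ f : F, e f = c := ⟨e.symm c, e.apply_symm_apply c⟩
    obtain ⟨x, hx⟩ : ∃ x : F, e x = y := ⟨e.symm y, e.apply_symm_apply y⟩
    have hgf : g = (x : L) * (f : L) * (x : L)⁻¹ := by
      have h4 : (⟨g, h1⟩ : F) = x * f * x⁻¹ := by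
        apply e.injective
        rw [map_mul, map_mul, map_inv, hf, hx]
        exact hyc
      exact congrArg Subtype.val h4
    have hf1 : (f : L) ≠ 1 := by
      intro h4
      apply h2
      rw [hgf, h4, mul_one, mul_inv_cancel]
    have hfi := inf_of_free F e f.2 hf1
    have hpos : Pos (f : L) C := by
      apply pos_of_shift hG hfi hCf (sg F 1)
      refine eventually_atTop.mpr ⟨1, fun m hm => ?_⟩
      rw [hC]
      change ph F e ((f : L) ^ m * sg F 1) ∈ Z a
      rw [ph_pow, hf]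
      exact ha1 m hm
    have hneg : Pos (f : L)⁻¹ Cᶜ := by
      apply pos_of_shift hG hfi.inv (bd_compl_fin (ad_symm hG) hCf) (sg F 1)
      refine eventually_atTop.mpr ⟨1, fun m hm => ?_⟩
      rw [hC]
      change ¬ (ph F e (((f : L)⁻¹) ^ m * sg F 1) ∈ Z a)
      have h4 := ph_pow F e f⁻¹ m
      rw [Subgroup.coe_inv, map_inv, hf] at h4
      rw [h4]
      exact ha2 m hm
    have hcand : C ∈ Cand Sg (f : L) := ⟨hCf, Or.inl ⟨hpos, hneg⟩⟩
    refine ⟨tr (x : L) C, ?_, ?_⟩
    · rw [hgf]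
      exact cand_tr hG hfi hcand x
    · rw [bd_tr_ncard]
      exact Set.ncard_le_ncard hsub hBf

end ext

end KPS
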