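import Pool.Agent.Lib.MP_32d917_al_vf.K8

/-!
# Finite extensions of free groups act on trees with finite stabilizers

Karrass, Pietrowski and Solitar, via the optimally nested cuts of Diekert and Weiss.
-/

set_option autoImplicit false

namespace KPS

variable {L : Type} [Group L]

theorem finite_of_disjoint (F : Subgroup L) [F.FiniteIndex] (H : Subgroup L)
    (h : ∀ g ∈ H, ¬ (g ∈ F ∧ g ≠ 1)) : Finite H := by
  have hinj : Function.Injective (fun x : H => ((x : L) : L ⧸ F)) := by
    intro x y hxy
    have h1 : ((x : L) : L ⧸ F) = ((y : L) : L ⧸ F) := hxy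
    rw [QuotientGroup.eq] at h1
    apply Subtype.ext
    by_contra h2
    refine h ((x : L)⁻¹ * y) (H.mul_mem (H.inv_mem x.2) y.2) ⟨h1, ?_⟩
    intro h3
    apply h2
    rw [inv_mul_eq_one] at h3
    exact h3
  exact Finite.of_injective _ hinj

/-- A group with a free normal subgroup of finite rank and finite index acts on a tree, without
inversions, with finitely many orbits and finite stabilizers; nontrivial elements of the free
subgroup fix no vertex. -/
theorem kps (F : Subgroup L) [F.Normal] [F.FiniteIndex] {n : ℕ}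
    (e : F ≃* FreeGroup (Fin n)) :
    ∃ (V : Type) (_ : MulAction L V) (S : SimpleGraph V), LatN.TLat L S ∧
      ∀ v : V, Finite (MulAction.stabilizer L v) ∧ ∀ g ∈ F, g ≠ 1 → g • v ≠ v := by
  classical
  obtain ⟨Sg, k, hs⟩ := sepd_of_free F e
  rcases Set.eq_empty_or_nonempty {g : L | g ∈ F ∧ g ≠ 1} with h0 | hne
  · -- the group is finite
    have hno : ∀ g : L, ¬ (g ∈ F ∧ g ≠ 1) := by
      intro g hg
      have h1 : g ∈ {g : L | g ∈ F ∧ g ≠ 1} := hg
      rw [h0] at h1
      exact h1
    have hfin : Finite L := by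
      have h1 := finite_of_disjoint F ⊤ (fun g _ => hno g)
      exact Finite.of_equiv _ Subgroup.topEquiv.toEquiv
    letI : MulAction L Unit :=
      { smul := fun _ _ => ()
        one_smul := fun _ => rfl
        mul_smul := fun _ _ _ => rfl }
    refine ⟨Unit, inferInstance, ⊥, ⟨⟨?_, ?_, ?_⟩, ?_, ?_, ?_⟩, ?_⟩
    · refine ⟨?_, ?_⟩
      · exact SimpleGraph.Connected.mk fun u v => by
          rw [Subsingleton.elim u v]
      · exact SimpleGraph.isAcyclic_bot
    · intro g x y h
      exact absurd h (by simp)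
    · intro g x y h
      exact absurd h (by simp)
    · intro v
      exact Set.toFinite _
    · exact ⟨{()}, fun v => ⟨1, by simp⟩⟩
    · intro v x g _ k _ _
      exact ⟨rfl, rfl⟩
    · intro v
      refine ⟨inferInstance, fun g h1 h2 => ?_⟩
      exact absurd ⟨h1, h2⟩ (hno g)
  · obtain ⟨V, hact, S, h1, h2⟩ := fam_tree hs hne (fun H hH =>
      finite_of_disjoint F H (fun g hg => hH g hg))
    exact ⟨V, hact, S, h1, fun v => ⟨(h2 v).1, fun g hg hg1 => (h2 v).2 g ⟨hg, hg1⟩⟩⟩

end KPS
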