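import Pool.Agent.Lib.MP_32d917_al_vf.BDefs
import Pool.Agent.Lib.MP_32d917_al_adm.F02

/-!
# P01: piece groups, elementary facts

Let `H` be a subgroup of finite index of `E`, isomorphic to `FZ n` by `Φ`. The centre of `H` is contained in
`<c>` by `fc`; `H` commutes with `c`; an element of `H` which is a power of `c` is in the centre of `H`. The
image of `H` in `L = E / <c>` is free of rank `n`; its normal core `F` is a free normal subgroup of `L` of finite
index and finite rank, and is not commutative.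
-/

set_option autoImplicit false

namespace VF

open LatIso LatN AdmIso

variable {E : Type} [Group E] {c : E}

/-- the sign of an element -/
noncomputable def sg (c : E) (x : E) : ℤ := by
  classical
  exact if x * c * x⁻¹ = c then 1 else -1

theorem p01_conj (h : PieceG E c) (x : E) (k : ℤ) : x * c ^ k * x⁻¹ = c ^ (sg c x * k) := by
  have h1 : x * c ^ k * x⁻¹ = (x * c * x⁻¹) ^ k := (conj_zpow).symm
  rw [h1]
  unfold sg
  split_ifs with h2
  · rw [h2, one_mul]
  · rcases h.nrm x with h3 | h3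
    · exact absurd h3 h2
    · rw [h3, inv_zpow, neg_one_mul, zpow_neg]

theorem p01_sg (c x : E) : sg c x = 1 ∨ sg c x = -1 := by
  unfold sg
  split_ifs
  · exact Or.inl rfl
  · exact Or.inr rfl

theorem p01_zinj (h : PieceG E c) {k l : ℤ} (hk : c ^ k = c ^ l) : k = l := by
  have h1 : c ^ (k - l) = 1 := by rw [zpow_sub, hk, mul_inv_cancel]
  have h2 := h.inf _ h1
  omega

theorem p01_sgmul (h : PieceG E c) (x y : E) : sg c (x * y) = sg c x * sg c y := by
  have h1 := p01_conj h (x * y) 1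
  have h2 : x * y * c ^ (1 : ℤ) * (x * y)⁻¹ = x * (y * c ^ (1 : ℤ) * y⁻¹) * x⁻¹ := by group
  rw [h2, p01_conj h y, p01_conj h x] at h1
  have h3 := p01_zinj h h1
  linarith

theorem p01_sgc (c : E) : sg c c = 1 := by
  unfold sg
  rw [if_pos (by group)]

theorem p01_sgone (c : E) : sg c (1 : E) = 1 := by
  unfold sg
  rw [if_pos (by group)]

theorem p01_comm_iff {x : E} : sg c x = 1 ↔ x * c = c * x := by
  unfold sg
  constructor
  · intro h1
    by_cases h2 : x * c * x⁻¹ = c
    · exact mul_inv_eq_iff_eq_mul.mp h2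
    · rw [if_neg h2] at h1
      norm_num at h1
  · intro h1
    rw [if_pos (mul_inv_eq_iff_eq_mul.mpr h1)]

variable {n : ℕ} {H : Subgroup E}

theorem p01_cen (h : PieceG E c) (hH : H.index ≠ 0) (Φ : FZ n ≃* H) (t : Multiplicative ℤ) :
    ∃ k : ℤ, (Φ (1, t)).1 = c ^ k := by
  apply h.fc
  refine ⟨H, hH, ?_⟩
  intro x hx
  obtain ⟨y, hy⟩ := Φ.surjective ⟨x, hx⟩
  have h1 : x = (Φ y).1 := by rw [hy]
  rw [h1, ← Subgroup.coe_mul, ← Subgroup.coe_mul, ← map_mul, ← map_mul]
  congr 2
  apply Prod.ext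
  · show 1 * y.1 = y.1 * 1
    rw [one_mul, mul_one]
  · exact mul_comm _ _

theorem p01_sgH (h : PieceG E c) (hH : H.index ≠ 0) (Φ : FZ n ≃* H) {x : E} (hx : x ∈ H) :
    sg c x = 1 := by
  obtain ⟨k, hk⟩ := p01_cen h hH Φ (Multiplicative.ofAdd 1)
  have hk0 : k ≠ 0 := by
    rintro rfl
    rw [zpow_zero] at hk
    have h1 : Φ (1, Multiplicative.ofAdd 1) = 1 := Subtype.ext hk
    have h2 : ((1, Multiplicative.ofAdd 1) : FZ n) = 1 := by
      apply Φ.injective
      rw [h1, map_one]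
    have h3 := congrArg (fun p : FZ n => Multiplicative.toAdd p.2) h2
    have h4 : (1 : ℤ) = 0 := h3
    norm_num at h4
  have h1 := p01_conj h x k
  obtain ⟨y, hy⟩ := Φ.surjective ⟨x, hx⟩
  have h2 : x = (Φ y).1 := by rw [hy]
  have h3 : x * c ^ k * x⁻¹ = c ^ k := by
    rw [mul_inv_eq_iff_eq_mul, h2, ← hk, ← Subgroup.coe_mul, ← Subgroup.coe_mul, ← map_mul,
      ← map_mul]
    congr 2
    apply Prod.ext
    · show y.1 * 1 = 1 * y.1
      rw [one_mul, mul_one]
    · exact mul_comm _ _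
  rw [h3] at h1
  have h4 := p01_zinj h h1
  rcases p01_sg c x with h5 | h5
  · exact h5
  · rw [h5] at h4
    omega

theorem p01_int (h : PieceG E c) (hH : H.index ≠ 0) (hn : 2 ≤ n) (Φ : FZ n ≃* H) {z : FZ n} {j : ℤ}
    (hz : (Φ z).1 = c ^ j) : z.1 = 1 := by
  rw [← fz_cen hn]
  intro y
  apply Φ.injective
  apply Subtype.ext
  rw [map_mul, map_mul, Subgroup.coe_mul, Subgroup.coe_mul, hz]
  have h1 := p01_sgH h hH Φ (Φ y).2
  have h2 := p01_conj h (Φ y).1 j
  rw [h1, one_mul, mul_inv_eq_iff_eq_mul] at h2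
  exact h2.symm

end VF
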