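import Pool.Agent.Lib.MP_32d917_al_vf.P01

/-!
# P02: the derivation (transfer)

`K` is the normal core of `H`, `s` a section of `E → E / K`, `lam` the second component of `Φ.symm` on `H`.
`D g = ∑ sg (s (g q)) * lam (s (g q)⁻¹ g s q)`, a sum over `q : E / K`. It is a derivation, and
`D (c ^ m) = [E : K] * lam (c ^ m) ≠ 0` for `m = [E : K]`.
-/

set_option autoImplicit false

namespace VF

open LatIso LatN AdmIso

variable {E : Type} [Group E] {c : E}

variable {n : ℕ} {H : Subgroup E}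

/-- second component -/
noncomputable def p02_lam (Φ : FZ n ≃* H) (x : E) : ℤ := by
  classical
  exact if hx : x ∈ H then Multiplicative.toAdd (Φ.symm ⟨x, hx⟩).2 else 0

theorem p02_lam_mul (Φ : FZ n ≃* H) {x y : E} (hx : x ∈ H) (hy : y ∈ H) :
    p02_lam Φ (x * y) = p02_lam Φ x + p02_lam Φ y := by
  unfold p02_lam
  rw [dif_pos hx, dif_pos hy, dif_pos (H.mul_mem hx hy)]
  have h1 : (⟨x * y, H.mul_mem hx hy⟩ : H) = ⟨x, hx⟩ * ⟨y, hy⟩ := rfl
  rw [h1, map_mul]
  rfl

theorem p02_lam_one (Φ : FZ n ≃* H) : p02_lam Φ 1 = 0 := by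
  have h := p02_lam_mul Φ H.one_mem H.one_mem
  rw [mul_one] at h
  linarith

theorem p02_lam_inv (Φ : FZ n ≃* H) {x : E} (hx : x ∈ H) : p02_lam Φ x⁻¹ = - p02_lam Φ x := by
  have h := p02_lam_mul Φ hx (H.inv_mem hx)
  rw [mul_inv_cancel, p02_lam_one] at h
  linarith

theorem p02_lam_ne (h : PieceG E c) (hH : H.index ≠ 0) (hn : 2 ≤ n) (Φ : FZ n ≃* H) {m : ℤ}
    (hm : m ≠ 0) (hc : c ^ m ∈ H) : p02_lam Φ (c ^ m) ≠ 0 := by
  intro h0
  unfold p02_lam at h0
  rw [dif_pos hc] at h0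
  have h1 : (Φ (Φ.symm ⟨c ^ m, hc⟩)).1 = c ^ m := by rw [MulEquiv.apply_symm_apply]
  have h2 := p01_int h hH hn Φ h1
  have h3 : Φ.symm ⟨c ^ m, hc⟩ = 1 := Prod.ext h2 h0
  have h4 : (⟨c ^ m, hc⟩ : H) = 1 := by
    apply Φ.symm.injective
    rw [h3, map_one]
  have h5 : c ^ m = 1 := congrArg Subtype.val h4
  exact hm (h.inf m h5)

/-- the transfer -/
theorem p02_transfer (h : PieceG E c) (hH : H.index ≠ 0) (hn : 2 ≤ n) (Φ : FZ n ≃* H) :
    ∃ D : E → ℤ, (∀ x y, D (x * y) = D x + sg c x * D y) ∧ D c ≠ 0 := by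
  classical
  have hfi : H.FiniteIndex := ⟨hH⟩
  set K : Subgroup E := H.normalCore with hK
  have hKH : K ≤ H := Subgroup.normalCore_le H
  have hKn : K.Normal := inferInstance
  have hKf : K.FiniteIndex := inferInstance
  let _ : Fintype (E ⧸ K) := Fintype.ofFinite _
  let s : E ⧸ K → E := Quotient.out
  have hs : ∀ q : E ⧸ K, (s q : E ⧸ K) = q := fun q => QuotientGroup.out_eq' q
  have hmem : ∀ (g : E) (q : E ⧸ K), (s (g • q))⁻¹ * g * s q ∈ K := by
    intro g q
    rw [mul_assoc, ← QuotientGroup.eq]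
    rw [hs]
    have h1 : ((g * s q : E) : E ⧸ K) = g • ((s q : E) : E ⧸ K) := rfl
    rw [h1, hs]
  have hsgK : ∀ k ∈ K, sg c k = 1 := fun k hk => p01_sgH h hH Φ (hKH hk)
  let D : E → ℤ := fun g => ∑ q : E ⧸ K, sg c (s (g • q)) * p02_lam Φ ((s (g • q))⁻¹ * g * s q)
  have hD : ∀ x y, D (x * y) = D x + sg c x * D y := by
    intro x y
    have e1 : D x = ∑ q : E ⧸ K, sg c (s (x • y • q)) *
        p02_lam Φ ((s (x • y • q))⁻¹ * x * s (y • q)) := by
      exact (Equiv.sum_comp (MulAction.toPerm y)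
        (fun q : E ⧸ K => sg c (s (x • q)) * p02_lam Φ ((s (x • q))⁻¹ * x * s q))).symm
    have e2 : sg c x * D y = ∑ q : E ⧸ K, sg c (s (x • y • q)) *
        p02_lam Φ ((s (y • q))⁻¹ * y * s q) := by
      show sg c x * ∑ q : E ⧸ K, _ = _
      rw [Finset.mul_sum]
      apply Finset.sum_congr rfl
      intro q _
      rw [← mul_assoc]
      congr 1
      have h1 : s (x • y • q) * ((s (x • y • q))⁻¹ * x * s (y • q)) = x * s (y • q) := by group
      have h2 := congrArg (sg c) h1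
      rw [p01_sgmul h (s (x • y • q)), hsgK _ (hmem x (y • q)), mul_one, p01_sgmul h x] at h2
      exact h2.symm
    rw [e1, e2, ← Finset.sum_add_distrib]
    apply Finset.sum_congr rfl
    intro q _
    rw [← mul_add, ← p02_lam_mul Φ (hKH (hmem x (y • q))) (hKH (hmem y q))]
    rw [mul_smul]
    congr 2
    group
  have hDpow : ∀ k : ℕ, D (c ^ k) = k * D c := by
    intro k
    induction k with
    | zero =>
      have h0 := hD 1 1
      rw [mul_one, p01_sgone, one_mul] at h0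
      simp only [pow_zero, Nat.cast_zero, zero_mul]
      linarith
    | succ k ih =>
      rw [pow_succ, hD, ih]
      have h1 : sg c (c ^ k) = 1 := by
        rw [p01_comm_iff]
        exact (Commute.pow_self c k).eq
      rw [h1]
      push_cast
      ring
  refine ⟨D, hD, ?_⟩
  intro h0
  have hidx : K.index ≠ 0 := hKf.index_ne_zero
  have hcK : c ^ K.index ∈ K := Subgroup.pow_index_mem K c
  have h1 := hDpow K.index
  rw [h0, mul_zero] at h1
  have h2 : D (c ^ K.index) = ∑ q : E ⧸ K, p02_lam Φ (c ^ (K.index : ℤ)) := by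
    apply Finset.sum_congr rfl
    intro q _
    have h3 : (c ^ K.index) • q = q := by
      rw [← hs q]
      show ((c ^ K.index * s q : E) : E ⧸ K) = (s q : E ⧸ K)
      rw [QuotientGroup.eq]
      have h4 : (c ^ K.index * s q)⁻¹ * s q = ((s q)⁻¹ * (c ^ K.index) * ((s q)⁻¹)⁻¹)⁻¹ := by group
      rw [h4]
      exact K.inv_mem (hKn.conj_mem _ hcK _)
    rw [h3]
    have h5 : (s q)⁻¹ * c ^ K.index * s q = c ^ (sg c (s q)⁻¹ * (K.index : ℤ)) := by
      rw [← p01_conj h (s q)⁻¹ (K.index : ℤ), inv_inv, zpow_natCast]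
    rw [h5]
    have h6 : sg c (s q) * sg c (s q)⁻¹ = 1 := by
      rw [← p01_sgmul h, mul_inv_cancel, p01_sgone]
    have hcH : c ^ (K.index : ℤ) ∈ H := by
      rw [zpow_natCast]
      exact hKH hcK
    rcases p01_sg c (s q)⁻¹ with h7 | h7
    · rw [h7, mul_one] at h6
      rw [h6, h7, one_mul, one_mul]
    · rw [h7] at h6
      have h8 : sg c (s q) = -1 := by linarith
      rw [h8, h7, neg_one_mul, neg_one_mul, zpow_neg, p02_lam_inv Φ hcH, neg_neg]
  rw [h2, Finset.sum_const, Finset.card_univ, nsmul_eq_mul] at h1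
  have h9 : p02_lam Φ (c ^ (K.index : ℤ)) ≠ 0 := by
    refine p02_lam_ne h hH hn Φ (by exact_mod_cast hidx) ?_
    rw [zpow_natCast]
    exact hKH hcK
  have h10 : (Fintype.card (E ⧸ K) : ℤ) ≠ 0 := by
    exact_mod_cast Fintype.card_ne_zero
  rcases mul_eq_zero.mp h1 with h11 | h11
  · exact h10 h11
  · exact h9 h11

/-- the derivation of a piece group, `D c > 0` -/
theorem pg_deriv (h : PieceG E c) :
    ∃ D : E → ℤ, (∀ x y, D (x * y) = D x + sg c x * D y) ∧ 0 < D c := by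
  obtain ⟨n, hn, H, hH, ⟨Φ⟩⟩ := h.vfz
  obtain ⟨D, h1, h2⟩ := p02_transfer h hH hn Φ
  rcases lt_or_gt_of_ne h2 with h3 | h3
  · refine ⟨fun x => - D x, ?_, by simpa using h3⟩
    intro x y
    show - D (x * y) = - D x + sg c x * (- D y)
    rw [h1]
    ring
  · exact ⟨D, h1, h3⟩

end VF
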