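import Pool.Agent.Lib.MP_32d917_al_vf.P01
import Pool.Agent.Lib.MP_32d917_al_gp.N07

/-!
# P03: `E / <c>` is virtually free

`φ w = Φ (w, 1)` modulo `<c>` is injective with range of finite index (`Φ (1, s)` is a power of `c`).
The normal core `F` of the range is isomorphic to a subgroup of finite index of the free group, hence free
(Nielsen, Schreier) of finite rank. It is not commutative since powers of two generators do not commute.
-/

set_option autoImplicit false

namespace VF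

open LatIso LatN AdmIso

/-- powers of two generators do not commute -/
theorem p03_nc {n : ℕ} (hn : 2 ≤ n) {k l : ℕ} (hk : 0 < k) (hl : 0 < l) :
    (FreeGroup.of (⟨0, by omega⟩ : Fin n)) ^ k * (FreeGroup.of (⟨1, by omega⟩ : Fin n)) ^ l ≠
      (FreeGroup.of (⟨1, by omega⟩ : Fin n)) ^ l * (FreeGroup.of (⟨0, by omega⟩ : Fin n)) ^ k := by
  intro h
  have hne : ∀ (i : Fin n) (j : ℕ), 0 < j → (FreeGroup.of i) ^ j ≠ 1 := by
    intro i j hj h0
    have h1 := pow_left_injective (M := FreeGroup (Fin n)) (n := j) (by omega)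
    have h2 : FreeGroup.of i = 1 := h1 (by simpa using h0)
    exact FreeGroup.of_ne_one i h2
  have h1 : FreeGroup.of (⟨0, by omega⟩ : Fin n) * (FreeGroup.of (⟨1, by omega⟩ : Fin n)) ^ l =
      (FreeGroup.of (⟨1, by omega⟩ : Fin n)) ^ l * FreeGroup.of (⟨0, by omega⟩ : Fin n) := by
    refine fg_comm_trans (hne _ k hk) ?_ h.symm
    rw [← pow_succ, ← pow_succ']
  have h2 : FreeGroup.of (⟨0, by omega⟩ : Fin n) * FreeGroup.of (⟨1, by omega⟩ : Fin n) =
      FreeGroup.of (⟨1, by omega⟩ : Fin n) * FreeGroup.of (⟨0, by omega⟩ : Fin n) := by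
    refine fg_comm_trans (hne _ l hl) h1 ?_
    rw [← pow_succ, ← pow_succ']
  have h3 := congrArg (f01_hom n) h2
  rw [map_mul, map_mul, f01_hom0, f01_hom1] at h3
  exact absurd h3 (by decide)

/-- subgroups of finite index of free groups of finite rank -/
theorem p03_ns {n : ℕ} (K : Subgroup (FreeGroup (Fin n))) (hK : K.index ≠ 0) :
    ∃ m, Nonempty (K ≃* FreeGroup (Fin m)) := by
  have h2 : IsFreeGroup K := subgroupIsFreeOfIsFree K
  have h3 : Group.FG (FreeGroup (Fin n)) := inferInstance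
  have hfi : K.FiniteIndex := ⟨hK⟩
  have h4 : Group.FG K := Subgroup.fg_of_index_ne_zero K
  have h5 : Group.FG (FreeGroup (IsFreeGroup.Generators K)) :=
    Group.fg_of_surjective (f := (IsFreeGroup.toFreeGroup K).toMonoidHom)
      (IsFreeGroup.toFreeGroup K).surjective
  have h6 := RaagGP.n07_fin _ h5
  obtain ⟨r, ⟨f⟩⟩ := Finite.exists_equiv_fin (IsFreeGroup.Generators K)
  exact ⟨r, ⟨(IsFreeGroup.toFreeGroup K).trans (FreeGroup.freeGroupCongr f)⟩⟩

variable {E : Type} [Group E] {c : E}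

theorem pg_normal (h : PieceG E c) : (Subgroup.zpowers c).Normal := by
  constructor
  rintro _ ⟨k, rfl⟩ x
  refine ⟨sg c x * k, ?_⟩
  exact (p01_conj h x k).symm

theorem pg_free (h : PieceG E c) [(Subgroup.zpowers c).Normal] :
    ∃ F : Subgroup (E ⧸ Subgroup.zpowers c), F.Normal ∧ F.FiniteIndex ∧
      (∃ m, Nonempty (F ≃* FreeGroup (Fin m))) ∧ ∃ a ∈ F, ∃ b ∈ F, a * b ≠ b * a := by
  obtain ⟨n, hn, H, hH, ⟨Φ⟩⟩ := h.vfz
  let π : E →* E ⧸ Subgroup.zpowers c := QuotientGroup.mk' _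
  let φ : FreeGroup (Fin n) →* E ⧸ Subgroup.zpowers c :=
    π.comp (H.subtype.comp (Φ.toMonoidHom.comp (MonoidHom.inl (FreeGroup (Fin n)) (Multiplicative ℤ))))
  have hφ : ∀ w, φ w = π (Φ (w, 1)).1 := fun w => rfl
  have hinj : Function.Injective φ := by
    rw [injective_iff_map_eq_one]
    intro w hw
    rw [hφ] at hw
    have h1 : (Φ (w, 1)).1 ∈ Subgroup.zpowers c := by
      rw [← QuotientGroup.eq_one_iff]
      exact hw
    obtain ⟨j, hj⟩ := h1
    exact p01_int h hH hn Φ (z := (w, 1)) (j := j) hj.symm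
  have hrange : φ.range = H.map π := by
    apply le_antisymm
    · rintro _ ⟨w, rfl⟩
      exact ⟨(Φ (w, 1)).1, (Φ (w, 1)).2, rfl⟩
    · rintro _ ⟨x, hx, rfl⟩
      obtain ⟨⟨w, t⟩, hy⟩ := Φ.surjective ⟨x, hx⟩
      refine ⟨w, ?_⟩
      rw [hφ]
      have h1 : x = (Φ (w, 1)).1 * (Φ (1, t)).1 := by
        rw [← Subgroup.coe_mul, ← map_mul]
        have h2 : ((w, 1) * (1, t) : FZ n) = (w, t) :=
          Prod.ext (mul_one w) (one_mul t)
        rw [h2, hy]
      obtain ⟨k, hk⟩ := p01_cen h hH Φ t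
      rw [h1, map_mul, hk]
      have h3 : π (c ^ k) = 1 := by
        show ((c ^ k : E) : E ⧸ Subgroup.zpowers c) = 1
        rw [QuotientGroup.eq_one_iff]
        exact ⟨k, rfl⟩
      rw [h3, mul_one]
  have hri : φ.range.index ≠ 0 := by
    rw [hrange]
    have h1 := Subgroup.index_map_dvd H (f := π) (QuotientGroup.mk'_surjective _)
    intro h0
    rw [h0] at h1
    exact hH (Nat.eq_zero_of_zero_dvd h1)
  have hrf : φ.range.FiniteIndex := ⟨hri⟩
  set F : Subgroup (E ⧸ Subgroup.zpowers c) := φ.range.normalCore with hF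
  have hFn : F.Normal := inferInstance
  have hFf : F.FiniteIndex := inferInstance
  have hFle : F ≤ φ.range := Subgroup.normalCore_le _
  set K : Subgroup (FreeGroup (Fin n)) := F.comap φ with hKdef
  have hKi : K.index ≠ 0 := by
    have h1 : K.index = F.relIndex φ.range := Subgroup.index_comap F φ
    rw [h1]
    intro h0
    have h2 := Subgroup.relIndex_dvd_index_of_normal F φ.range
    rw [h0] at h2
    exact hFf.index_ne_zero (Nat.eq_zero_of_zero_dvd h2)
  obtain ⟨m, ⟨e⟩⟩ := p03_ns K hKi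
  let ψ : K →* F := (φ.comp K.subtype).codRestrict F (fun x => x.2)
  have hψ : Function.Bijective ψ := by
    constructor
    · intro x y hxy
      apply Subtype.ext
      apply hinj
      exact congrArg Subtype.val hxy
    · rintro ⟨y, hy⟩
      obtain ⟨x, hx⟩ := hFle hy
      refine ⟨⟨x, ?_⟩, Subtype.ext hx⟩
      show φ x ∈ F
      rw [hx]
      exact hy
  refine ⟨F, hFn, hFf, ⟨m, ⟨(MulEquiv.ofBijective ψ hψ).symm.trans e⟩⟩, ?_⟩
  obtain ⟨k, hk, -, hk2⟩ := Subgroup.exists_pow_mem_of_index_ne_zero hKi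
    (FreeGroup.of (⟨0, by omega⟩ : Fin n))
  obtain ⟨l, hl, -, hl2⟩ := Subgroup.exists_pow_mem_of_index_ne_zero hKi
    (FreeGroup.of (⟨1, by omega⟩ : Fin n))
  refine ⟨_, hk2, _, hl2, ?_⟩
  intro hcom
  rw [← map_mul, ← map_mul] at hcom
  exact p03_nc hn hk hl (hinj hcom)

end VF
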