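import Pool.Agent.Lib.MP_32d917_al_vf.BDefs
import Pool.Agent.Lib.MP_32d917_al.N.NRED

/-!
# P04: reduction of a tree (leaves allowed)

Same proof as `nred_step`, `red_one` (N/NRED), without the assumption that there are no leaves. A reduced
infinite tree has no leaves: the neighbour of a leaf is fixed by the stabiliser of the leaf, so it is in the
same orbit, and the tree is a single edge.
-/

set_option autoImplicit false

namespace VF

open LatIso LatN

/-- one collapse -/
theorem p04_step {G V : Type} [Group G] [MulAction G V] {S : SimpleGraph V} (h : TA G S)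
    (loc : ∀ v, (S.neighborSet v).Finite)
    (fin : ∃ F : Finset V, ∀ v, ∃ g : G, g • v ∈ F) (hS : ¬ Red G S) :
    ∃ (V₁ : Type) (_ : MulAction G V₁) (S₁ : SimpleGraph V₁) (f : V₁ → V), TA G S₁ ∧
      (∀ v, (S₁.neighborSet v).Finite) ∧
      (∃ F : Finset V₁, ∀ v : V₁, ∃ g : G, g • v ∈ F) ∧ Function.Injective f ∧
      (∀ (g : G) (v : V₁), f (g • v) = g • f v) ∧ nredN G V₁ < nredN G V := by
  unfold Red at hS
  push Not at hS
  obtain ⟨v, x, hvx, h1, h2⟩ := hS
  -- the complement of the orbit of `v`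
  let V₁ : Type := {y : V // ∀ g : G, g • v ≠ y}
  let act : MulAction G V₁ :=
    { smul := fun g y => ⟨g • y.1, fun k hk => y.2 (g⁻¹ * k) (by rw [mul_smul, hk, inv_smul_smul])⟩
      one_smul := fun y => Subtype.ext (one_smul G y.1)
      mul_smul := fun g k y => Subtype.ext (mul_smul g k y.1) }
  have hsm : ∀ (g : G) (y : V₁), (g • y).1 = g • y.1 := fun g y => rfl
  have hx : ∀ g : G, g • v ≠ x := h2
  have hgx : ∀ k g : G, g • v ≠ k • x := by
    intro k g hh
    apply hx (k⁻¹ * g)
    rw [mul_smul, hh, inv_smul_smul]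
  classical
  let r : V → V₁ := fun y => if h : ∃ g : G, g • v = y then ⟨h.choose • x, hgx _⟩ else
    ⟨y, fun g hg => h ⟨g, hg⟩⟩
  have r1 : ∀ g : G, (r (g • v)).1 = g • x := by
    intro g
    have hex : ∃ k : G, k • v = g • v := ⟨g, rfl⟩
    have e1 : (r (g • v)).1 = hex.choose • x := by
      show (if h : ∃ k : G, k • v = g • v then (⟨h.choose • x, hgx _⟩ : V₁) else
        ⟨g • v, fun k hk => h ⟨k, hk⟩⟩).1 = _
      rw [dif_pos hex]
    have e2 := hex.choose_spec
    rw [e1]
    have e3 : (g⁻¹ * hex.choose) • v = v := by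
      rw [mul_smul, e2, inv_smul_smul]
    have e4 := h1 _ e3
    rw [mul_smul, inv_smul_eq_iff] at e4
    exact e4
  have r2 : ∀ y : V, (∀ g : G, g • v ≠ y) → (r y).1 = y := by
    intro y hy
    have hex : ¬ ∃ g : G, g • v = y := fun ⟨g, hg⟩ => hy g hg
    show (if h : ∃ k : G, k • v = y then (⟨h.choose • x, hgx _⟩ : V₁) else
        ⟨y, fun k hk => h ⟨k, hk⟩⟩).1 = _
    rw [dif_neg hex]
  have gr : ∀ (g : G) y, r (g • y) = g • r y := by
    intro g y
    apply Subtype.ext
    rw [hsm]
    by_cases hy : ∃ k : G, k • v = y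
    · obtain ⟨k, rfl⟩ := hy
      rw [← mul_smul, r1, r1, mul_smul]
    · have hy1 : ∀ k : G, k • v ≠ y := fun k hk => hy ⟨k, hk⟩
      have hy2 : ∀ k : G, k • v ≠ g • y := fun k hk => hy1 (g⁻¹ * k) (by
        rw [mul_smul, hk, inv_smul_smul])
      rw [r2 _ hy1, r2 _ hy2]
  have ad : ∀ y, y = (r y).1 ∨ S.Adj y (r y).1 := by
    intro y
    by_cases hy : ∃ k : G, k • v = y
    · obtain ⟨k, rfl⟩ := hy
      right
      rw [r1]
      exact h.adj k v x hvx
    · left
      exact (r2 y fun k hk => hy ⟨k, hk⟩).symm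
  have ri : ∀ a : V₁, r a.1 = a := fun a => Subtype.ext (r2 a.1 a.2)
  have hT := h.tree
  refine ⟨V₁, act, rcG S r, fun a => a.1,
    ⟨red_tree (i := fun a : V₁ => a.1) hT ri ad, ?_, ?_⟩,
    red_loc (i := fun a : V₁ => a.1) hT ri ad loc,
    ?_,
    Subtype.val_injective, hsm,
    nred_lt (i := fun a : V₁ => a.1) fin hsm Subtype.val_injective v ?_⟩
  · rintro g a b ⟨hab, u, w, h', rfl, rfl⟩
    refine ⟨?_, g • u, g • w, h.adj g u w h', gr g u, gr g w⟩
    intro hh
    exact hab (MulAction.injective g hh)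
  · rintro g a b ⟨hab, u, w, h', rfl, rfl⟩ h3 h4
    have e := red_dart (i := fun a : V₁ => a.1) hT ri ad h'.symm (h.adj g u w h') hab.symm
      (by rw [gr, h3]) (by rw [gr, h4])
    exact h.noinv g u w h' e.1 e.2
  · obtain ⟨F, hF⟩ := fin
    refine ⟨F.image r, ?_⟩
    intro a
    obtain ⟨g, hg⟩ := hF a.1
    refine ⟨g, ?_⟩
    rw [Finset.mem_image]
    refine ⟨_, hg, ?_⟩
    rw [gr, ri]
  · intro a h3
    exact a.2 1 (by rw [one_smul]; exact h3.symm)

/-- reducing one tree -/
theorem p04_reduce {G V : Type} [Group G] [MulAction G V] {S : SimpleGraph V} (h : TA G S)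
    (loc : ∀ v, (S.neighborSet v).Finite)
    (fin : ∃ F : Finset V, ∀ v, ∃ g : G, g • v ∈ F) :
    ∃ (V₁ : Type) (_ : MulAction G V₁) (S₁ : SimpleGraph V₁) (f : V₁ → V), TA G S₁ ∧
      (∀ v, (S₁.neighborSet v).Finite) ∧
      (∃ F : Finset V₁, ∀ v : V₁, ∃ g : G, g • v ∈ F) ∧ Red G S₁ ∧ Function.Injective f ∧
      ∀ (g : G) (v : V₁), f (g • v) = g • f v := by
  have key : ∀ n : ℕ, ∀ (V : Type) [MulAction G V] (S : SimpleGraph V), TA G S →
      (∀ v, (S.neighborSet v).Finite) → (∃ F : Finset V, ∀ v : V, ∃ g : G, g • v ∈ F) →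
      nredN G V = n →
      ∃ (V₁ : Type) (_ : MulAction G V₁) (S₁ : SimpleGraph V₁) (f : V₁ → V), TA G S₁ ∧
      (∀ v, (S₁.neighborSet v).Finite) ∧
      (∃ F : Finset V₁, ∀ v : V₁, ∃ g : G, g • v ∈ F) ∧ Red G S₁ ∧ Function.Injective f ∧
      ∀ (g : G) (v : V₁), f (g • v) = g • f v := by
    intro n
    induction n using Nat.strong_induction_on with
    | _ n ih =>
      intro V _ S h loc fin hn
      by_cases hS : Red G S
      · exact ⟨V, inferInstance, S, id, h, loc, fin, hS, Function.injective_id, fun g v => rfl⟩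
      · obtain ⟨V₁, _, S₁, f, a1, a2, a4, a5, a6, hlt⟩ := p04_step h loc fin hS
        obtain ⟨V₂, inst, S₂, f', b1, b2, b3, b4, b5, b6⟩ :=
          ih (nredN G V₁) (by rw [← hn]; exact hlt) V₁ S₁ a1 a2 a4 rfl
        exact ⟨V₂, inst, S₂, fun v => f (f' v), b1, b2, b3, b4, a5.comp b5,
          fun g v => by
            show f (f' (g • v)) = g • f (f' v)
            rw [b6, a6]⟩
  exact key _ V S h loc fin rfl


/-- a reduced infinite tree has no leaves -/
theorem p04_two {G V : Type} [Group G] [MulAction G V] {S : SimpleGraph V} (h : TA G S)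
    (hS : Red G S) (hinf : Infinite V) (v : V) : ∃ x y, x ≠ y ∧ S.Adj v x ∧ S.Adj v y := by
  have hT := h.tree
  obtain ⟨w, hw⟩ : ∃ w, w ≠ v := exists_ne v
  obtain ⟨x, hx, -⟩ := st_next hT (Ne.symm hw)
  by_contra hcon
  push Not at hcon
  have huniq : ∀ y, S.Adj v y → y = x := by
    intro y hy
    by_contra hne
    exact hcon y x hne hy hx
  have hfix : ∀ g : G, g • v = v → g • x = x := by
    intro g hg
    apply huniq
    have := h.adj g v x hx
    rwa [hg] at this
  obtain ⟨k, hk⟩ := hS v x hx hfix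
  have huniq2 : ∀ y, S.Adj x y → y = v := by
    intro y hy
    have h1 : S.Adj v (k⁻¹ • y) := by
      have := h.adj k⁻¹ x y hy
      rwa [← hk, inv_smul_smul] at this
    have h2 : S.Adj v (k⁻¹ • v) := by
      have := h.adj k⁻¹ x v hx.symm
      rwa [← hk, inv_smul_smul] at this
    have h3 := (huniq _ h1).trans (huniq _ h2).symm
    exact MulAction.injective k⁻¹ h3
  have hall : ∀ z : V, z = v ∨ z = x := by
    intro z
    by_contra hz
    push Not at hz
    obtain ⟨y, hy, hb⟩ := st_next hT (Ne.symm hz.1)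
    have hyx := huniq y hy
    subst hyx
    obtain ⟨y2, hy2, hb2⟩ := st_next hT (Ne.symm hz.2)
    have h4 := huniq2 y2 hy2
    subst h4
    unfold Bt at hb hb2
    have h5 := st1_one hy
    have h6 := st1_one hy2
    omega
  have hfin : Finite V := by
    have : Function.Surjective (fun b : Bool => if b then v else x) := by
      intro z
      rcases hall z with rfl | rfl
      · exact ⟨true, rfl⟩
      · exact ⟨false, rfl⟩
    exact Finite.of_surjective _ this
  exact not_finite V

end VF
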