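import Pool.Agent.Lib.MP_32d917_al_vf.BDefs
import Pool.Agent.Lib.MP_32d917_al.TL1B
import Pool.Agent.Lib.MP_32d917_al.LEMF

/-!
# P05: the tree is not a line

If no vertex has three neighbours then the axis `b` of a nontrivial element of `F` is the whole tree. An
element `g` with `g b 0 = b k`, `g b 1 = b (k + e)`, `e = ±1`, satisfies `g b i = b (k + e i)`; for `e = -1` it
has a fixed vertex or an inversion. So `F` acts by translations and is commutative, since it acts freely.
-/

set_option autoImplicit false

namespace VF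

open LatIso LatN

variable {G : Type} [Group G] {V : Type} [MulAction G V] {S : SimpleGraph V}

theorem p05_shift (h : TA G S) {b : ℤ → V} (hb : ∀ i j, S.dist (b i) (b j) = (i - j).natAbs)
    (hn : ∀ i z, S.Adj (b i) z → z = b (i - 1) ∨ z = b (i + 1)) {g : G} {k e : ℤ}
    (he : e = 1 ∨ e = -1) (h0 : g • b 0 = b k) (h1 : g • b 1 = b (k + e)) (i : ℤ) :
    g • b i = b (k + e * i) := by
  have hadj : ∀ i, S.Adj (b i) (b (i + 1)) := by
    intro i
    rw [← SimpleGraph.dist_eq_one_iff_adj, hb]
    omega
  have hinj := lemf_inj hb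
  have key : ∀ i : ℤ, g • b i = b (k + e * i) ∧ g • b (i + 1) = b (k + e * (i + 1)) := by
    intro i
    induction i using Int.induction_on with
    | zero =>
      refine ⟨?_, ?_⟩
      · rw [mul_zero, add_zero]; exact h0
      · rw [zero_add, mul_one]; exact h1
    | succ i ih =>
      obtain ⟨a1, a2⟩ := ih
      refine ⟨a2, ?_⟩
      have h3 := h.adj g _ _ (hadj ((i : ℤ) + 1))
      rw [a2] at h3
      have hne : g • b ((i : ℤ) + 1 + 1) ≠ b (k + e * i) := by
        rw [← a1]
        intro hh
        have := hinj (MulAction.injective g hh)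
        omega
      rcases hn _ _ h3 with h4 | h4
      · rcases he with rfl | rfl
        · exfalso
          apply hne
          rw [h4]
          congr 1
          ring
        · rw [h4]
          congr 1
          ring
      · rcases he with rfl | rfl
        · rw [h4]
          congr 1
          ring
        · exfalso
          apply hne
          rw [h4]
          congr 1
          ring
    | pred i ih =>
      obtain ⟨a1, a2⟩ := ih
      have e1 : -(i : ℤ) - 1 + 1 = -(i : ℤ) := by ring
      refine ⟨?_, by rw [e1]; exact a1⟩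
      have h3 := (h.adj g _ _ (hadj (-(i : ℤ) - 1))).symm
      rw [e1, a1] at h3
      have hne : g • b (-(i : ℤ) - 1) ≠ b (k + e * (-(i : ℤ) + 1)) := by
        rw [← a2]
        intro hh
        have := hinj (MulAction.injective g hh)
        omega
      rcases hn _ _ h3 with h4 | h4
      · rcases he with rfl | rfl
        · rw [h4]
          congr 1
          ring
        · exfalso
          apply hne
          rw [h4]
          congr 1
          ring
      · rcases he with rfl | rfl
        · exfalso
          apply hne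
          rw [h4]
          congr 1
          ring
        · rw [h4]
          congr 1
          ring
  exact (key i).1

theorem p05_three (h : TA G S) (F : Subgroup G)
    (free : ∀ g ∈ F, g ≠ 1 → ∀ v : V, g • v ≠ v) (nc : ∃ a ∈ F, ∃ b ∈ F, a * b ≠ b * a) :
    ∃ v x y z, x ≠ y ∧ y ≠ z ∧ x ≠ z ∧ S.Adj v x ∧ S.Adj v y ∧ S.Adj v z := by
  by_contra hcon
  push Not at hcon
  obtain ⟨a, ha, a', ha', hne⟩ := nc
  have ha1 : a ≠ 1 := by
    rintro rfl
    rw [one_mul, mul_one] at hne
    exact hne rfl
  have htl : 0 < tl S a := by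
    rcases Nat.eq_zero_or_pos (tl S a) with h0 | h0
    · obtain ⟨x, hx⟩ := (tl_eq_zero h a).mp h0
      exact absurd hx (free a ha ha1 x)
    · exact h0
  obtain ⟨b, hb, -, -⟩ := tl_line h a htl
  have hinj := lemf_inj hb
  have hadj : ∀ i, S.Adj (b i) (b (i + 1)) := by
    intro i
    rw [← SimpleGraph.dist_eq_one_iff_adj, hb]
    omega
  have hadj' : ∀ i, S.Adj (b i) (b (i - 1)) := by
    intro i
    rw [← SimpleGraph.dist_eq_one_iff_adj, hb]
    omega
  have hn : ∀ i z, S.Adj (b i) z → z = b (i - 1) ∨ z = b (i + 1) := by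
    intro i z hz
    by_contra hc
    push Not at hc
    have h1 : b (i - 1) ≠ b (i + 1) := by
      intro hh
      have := hinj hh
      omega
    exact hcon (b i) (b (i - 1)) (b (i + 1)) z h1 (Ne.symm hc.2) (Ne.symm hc.1) (hadj' i) (hadj i) hz
  have hall : ∀ z : V, ∃ i, b i = z := by
    intro z
    obtain ⟨w⟩ := h.tree.1.preconnected z (b 0)
    have hw : ∀ (u v : V), S.Walk u v → (∃ i, b i = v) → ∃ i, b i = u := by
      intro u v w
      induction w with
      | nil => exact fun h => h
      | cons hadj2 w ih =>
        intro hv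
        obtain ⟨i, hi⟩ := ih hv
        have h2 := hadj2.symm
        rw [← hi] at h2
        rcases hn _ _ h2 with h3 | h3
        · exact ⟨_, h3.symm⟩
        · exact ⟨_, h3.symm⟩
    exact hw z (b 0) w ⟨0, rfl⟩
  have htr : ∀ g ∈ F, ∃ k : ℤ, ∀ i, g • b i = b (k + i) := by
    intro g hg
    by_cases hg1 : g = 1
    · refine ⟨0, fun i => ?_⟩
      rw [hg1, one_smul, zero_add]
    obtain ⟨k, hk⟩ := hall (g • b 0)
    have h3 := h.adj g _ _ (hadj 0)
    rw [← hk, zero_add] at h3
    rcases hn _ _ h3 with h4 | h4
    · exfalso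
      have h5 := p05_shift h hb hn (g := g) (k := k) (e := -1) (Or.inr rfl) hk.symm
        (by rw [h4]; rfl)
      rcases Int.even_or_odd' k with ⟨j, hj | hj⟩
      · apply free g hg hg1 (b j)
        rw [h5]
        congr 1
        omega
      · apply h.noinv g (b j) (b (j + 1)) (hadj j)
        · rw [h5]
          congr 1
          omega
        · rw [h5]
          congr 1
          omega
    · refine ⟨k, fun i => ?_⟩
      have h5 := p05_shift h hb hn (g := g) (k := k) (e := 1) (Or.inl rfl) hk.symm h4 i
      rw [one_mul] at h5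
      exact h5
  obtain ⟨k, hk⟩ := htr a ha
  obtain ⟨l, hl⟩ := htr a' ha'
  have hfix : ((a' * a)⁻¹ * (a * a')) • b 0 = b 0 := by
    have e1 : (a * a') • b 0 = (a' * a) • b 0 := by
      rw [mul_smul, mul_smul, hl, hk, hk, hl]
      congr 1
      ring
    rw [mul_smul, e1, inv_smul_smul]
  have hmem : (a' * a)⁻¹ * (a * a') ∈ F :=
    F.mul_mem (F.inv_mem (F.mul_mem ha' ha)) (F.mul_mem ha ha')
  by_cases h1 : (a' * a)⁻¹ * (a * a') = 1
  · exact hne (inv_mul_eq_one.mp h1).symm
  · exact free _ hmem h1 _ hfix

end VF
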