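import Pool.Agent.Lib.MP_32d917_al_vf.P03
import Pool.Agent.Lib.MP_32d917_al_vf.P04
import Pool.Agent.Lib.MP_32d917_al_vf.P05
import Pool.Agent.Lib.MP_32d917_al_vf.K9

/-!
# P06: the tree of a piece group
-/

set_option autoImplicit false

namespace VF

open LatIso LatN AdmIso

/-- the tree of a piece group -/
structure PTree (E : Type) [Group E] (c : E) {V : Type} [MulAction E V] (S : SimpleGraph V)
    (M : Subgroup E) : Prop where
  normal : M.Normal
  index : M.index ≠ 0
  cM : c ∈ M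
  ta : TA E S
  loc : ∀ v, (S.neighborSet v).Finite
  fin : ∃ F : Finset V, ∀ v, ∃ g : E, g • v ∈ F
  red : Red E S
  cf : ∀ v : V, c • v = v
  free : ∀ g ∈ M, ∀ v : V, g • v = v → ∃ k : ℤ, g = c ^ k
  two : ∀ v, ∃ x y, x ≠ y ∧ S.Adj v x ∧ S.Adj v y
  three : ∃ v x y z, x ≠ y ∧ y ≠ z ∧ x ≠ z ∧ S.Adj v x ∧ S.Adj v y ∧ S.Adj v z

theorem pg_tree {E : Type} [Group E] {c : E} (h : PieceG E c) :
    ∃ (V : Type) (_ : MulAction E V) (S : SimpleGraph V) (M : Subgroup E), PTree E c S M := by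
  have hnorm := pg_normal h
  obtain ⟨F, hFn, hFf, ⟨m, ⟨e⟩⟩, hnc⟩ := pg_free h
  obtain ⟨V0, act0, S0, hL, hst⟩ := KPS.kps F e
  obtain ⟨V1, act1, S1, f, a1, a2, a3, a4, a5, a6⟩ := p04_reduce hL.ta hL.loc hL.fin
  have hfree : ∀ g ∈ F, g ≠ 1 → ∀ v : V1, g • v ≠ v := by
    intro g hg hg1 v hv
    apply (hst (f v)).2 g hg hg1
    rw [← a6, hv]
  let act : MulAction E V1 :=
    { smul := fun g v => (g : E ⧸ Subgroup.zpowers c) • v
      one_smul := fun v => one_smul (E ⧸ Subgroup.zpowers c) v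
      mul_smul := fun g g' v => mul_smul (g : E ⧸ Subgroup.zpowers c) (g' : E ⧸ Subgroup.zpowers c) v }
  have hsm : ∀ (g : E) (v : V1), g • v = (g : E ⧸ Subgroup.zpowers c) • v := fun g v => rfl
  have hsurj : ∀ q : E ⧸ Subgroup.zpowers c, ∃ g : E, (g : E ⧸ Subgroup.zpowers c) = q :=
    fun q => QuotientGroup.mk_surjective q
  have hta : TA E S1 := by
    refine ⟨a1.tree, ?_, ?_⟩
    · intro g x y hxy
      exact a1.adj _ x y hxy
    · intro g x y hxy h1
      exact a1.noinv (g : E ⧸ Subgroup.zpowers c) x y hxy h1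
  have hinf : Infinite V1 := by
    by_contra hcon
    rw [not_infinite_iff_finite] at hcon
    obtain ⟨v⟩ := a1.tree.1.nonempty
    obtain ⟨a, ha, b, hb, hab⟩ := hnc
    have ha1 : a ≠ 1 := by
      rintro rfl
      rw [one_mul, mul_one] at hab
      exact hab rfl
    have hninj : ¬ Function.Injective (fun k : ℕ => a ^ k • v) := by
      intro hi
      exact not_injective_infinite_finite _ hi
    rw [Function.Injective] at hninj
    push Not at hninj
    obtain ⟨i, j, hij, hne⟩ := hninj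
    have key : ∀ i j : ℕ, i < j → a ^ i • v = a ^ j • v → False := by
      intro i j hlt hij
      have h1 : a ^ (j - i) • v = v := by
        have h2 : a ^ j = a ^ i * a ^ (j - i) := by rw [← pow_add]; congr 1; omega
        rw [h2, mul_smul] at hij
        exact (MulAction.injective _ hij).symm
      by_cases h3 : a ^ (j - i) = 1
      · have h4 : (e ⟨a, ha⟩) ^ (j - i) = 1 := by
          rw [← map_pow]
          have h5 : (⟨a, ha⟩ : F) ^ (j - i) = 1 := Subtype.ext h3
          rw [h5, map_one]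
        have h6 := pow_left_injective (M := FreeGroup (Fin m)) (n := j - i) (by omega)
        have h7 : e ⟨a, ha⟩ = 1 := h6 (by simpa using h4)
        have h8 : (⟨a, ha⟩ : F) = 1 := by
          apply e.injective
          rw [h7, map_one]
        exact ha1 (congrArg Subtype.val h8)
      · exact hfree _ (F.pow_mem ha _) h3 v h1
    rcases lt_or_gt_of_ne hne with h1 | h1
    · exact key i j h1 hij
    · exact key j i h1 hij.symm
  refine ⟨V1, act, S1, F.comap (QuotientGroup.mk' (Subgroup.zpowers c)), ?_⟩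
  refine ⟨inferInstance, ?_, ?_, hta, a2, ?_, ?_, ?_, ?_, p04_two a1 a4 hinf, p05_three a1 F hfree hnc⟩
  · rw [Subgroup.index_comap_of_surjective F (QuotientGroup.mk'_surjective _)]
    exact hFf.index_ne_zero
  · rw [Subgroup.mem_comap]
    have h1 : (QuotientGroup.mk' (Subgroup.zpowers c)) c = 1 := by
      show ((c : E) : E ⧸ Subgroup.zpowers c) = 1
      rw [QuotientGroup.eq_one_iff]
      exact ⟨1, zpow_one c⟩
    rw [h1]
    exact F.one_mem
  · obtain ⟨F0, hF0⟩ := a3
    refine ⟨F0, fun v => ?_⟩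
    obtain ⟨q, hq⟩ := hF0 v
    obtain ⟨g, rfl⟩ := hsurj q
    exact ⟨g, hq⟩
  · intro v x hvx hst2
    obtain ⟨q, hq⟩ := a4 v x hvx (by
      intro q hq
      obtain ⟨g, rfl⟩ := hsurj q
      exact hst2 g hq)
    obtain ⟨g, rfl⟩ := hsurj q
    exact ⟨g, hq⟩
  · intro v
    rw [hsm]
    have h1 : ((c : E) : E ⧸ Subgroup.zpowers c) = 1 := by
      rw [QuotientGroup.eq_one_iff]
      exact ⟨1, zpow_one c⟩
    rw [h1, one_smul]
  · intro g hg v hv
    by_cases h1 : (g : E ⧸ Subgroup.zpowers c) = 1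
    · rw [QuotientGroup.eq_one_iff] at h1
      obtain ⟨k, hk⟩ := h1
      exact ⟨k, hk.symm⟩
    · exact absurd hv (hfree _ hg h1 v)

end VF
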