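import Pool.Agent.Lib.MP_32d917_al_vf.P02
import Pool.Agent.Lib.MP_32d917_al_vf.P06

/-!
# P07: the kernel, and labels of orbits
-/

set_option autoImplicit false

namespace VF

open LatIso LatN AdmIso

theorem p07_fi {E X : Type} [Group E] [Finite X] (M : Subgroup E) (f : E → X)
    (hf : ∀ g g', f g = f g' → g⁻¹ * g' ∈ M) : M.index ≠ 0 := by
  have h1 : Function.Injective (fun q : E ⧸ M => f q.out) := by
    intro q q' h
    have h2 := hf _ _ h
    rw [← QuotientGroup.eq] at h2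
    rw [QuotientGroup.out_eq', QuotientGroup.out_eq'] at h2
    exact h2
  have h2 : Finite (E ⧸ M) := Finite.of_injective _ h1
  exact (Subgroup.finiteIndex_of_finite_quotient (H := M)).index_ne_zero

/-- labels of the orbits of a normal subgroup of finite index -/
theorem p07_lab {E X : Type} [Group E] [MulAction E X] [Nonempty X] (M : Subgroup E) (hM : M.Normal)
    (hi : M.index ≠ 0) (fin : ∃ F : Finset X, ∀ x, ∃ g : E, g • x ∈ F) :
    ∃ (a : ℕ) (π : X → Fin (a + 1)), Function.Surjective π ∧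
      ∀ x y, π x = π y ↔ ∃ m ∈ M, m • x = y := by
  let s : Setoid X :=
    { r := fun x y => ∃ m ∈ M, m • x = y
      iseqv := ⟨fun x => ⟨1, M.one_mem, one_smul E x⟩,
        fun {x y} ⟨m, hm, h⟩ => ⟨m⁻¹, M.inv_mem hm, by rw [← h, inv_smul_smul]⟩,
        fun {x y z} ⟨m, hm, h⟩ ⟨m', hm', h'⟩ => ⟨m' * m, M.mul_mem hm' hm, by
          rw [mul_smul, h, h']⟩⟩ }
  obtain ⟨F, hF⟩ := fin
  have hfi : M.FiniteIndex := ⟨hi⟩
  have hfin : Finite (Quotient s) := by
    let φ : (E ⧸ M) × F → Quotient s := fun z => Quotient.mk s (z.1.out • z.2.1)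
    refine Finite.of_surjective φ ?_
    intro y
    induction y using Quotient.inductionOn with
    | h y =>
      obtain ⟨g, hg⟩ := hF y
      refine ⟨((g⁻¹ : E), ⟨_, hg⟩), ?_⟩
      apply Quotient.sound
      have h1 : ((((g⁻¹ : E) : E ⧸ M).out : E) : E ⧸ M) = ((g⁻¹ : E) : E ⧸ M) :=
        QuotientGroup.out_eq' _
      rw [QuotientGroup.eq] at h1
      refine ⟨g⁻¹ * (((g⁻¹ : E) : E ⧸ M).out)⁻¹, ?_, ?_⟩
      · have h2 := hM.conj_mem _ h1 g⁻¹
        have h3 : g⁻¹ * (((((g⁻¹ : E) : E ⧸ M).out : E))⁻¹ * g⁻¹) * (g⁻¹)⁻¹ =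
            g⁻¹ * (((g⁻¹ : E) : E ⧸ M).out)⁻¹ := by group
        rw [h3] at h2
        exact h2
      · rw [← mul_smul, ← mul_smul]
        have h4 : ∀ t : E, g⁻¹ * t⁻¹ * t * g = 1 := by
          intro t
          group
        exact (congrArg (fun t : E => t • y) (h4 _)).trans (one_smul E y)
  obtain ⟨n, ⟨e⟩⟩ := Finite.exists_equiv_fin (Quotient s)
  obtain ⟨x0⟩ := ‹Nonempty X›
  have hn : n ≠ 0 := by
    rintro rfl
    exact Fin.elim0 (e (Quotient.mk s x0))
  obtain ⟨a, rfl⟩ := Nat.exists_eq_succ_of_ne_zero hn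
  refine ⟨a, fun x => e (Quotient.mk s x), ?_, ?_⟩
  · intro y
    obtain ⟨x, hx⟩ := Quotient.mk_surjective (e.symm y)
    refine ⟨x, ?_⟩
    show e (Quotient.mk s x) = y
    rw [hx, Equiv.apply_symm_apply]
  · intro x y
    show e (Quotient.mk s x) = e (Quotient.mk s y) ↔ _
    rw [e.apply_eq_iff_eq, Quotient.eq]
    rfl

variable {E : Type} [Group E] {c : E}

theorem p07_D1 {D : E → ℤ} (hD : ∀ x y, D (x * y) = D x + sg c x * D y) : D 1 = 0 := by
  have h1 := hD 1 1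
  rw [p01_sgone, mul_one, one_mul] at h1
  linarith

theorem p07_sgsq (c x : E) : sg c x * sg c x = 1 := by
  rcases p01_sg c x with h | h <;> rw [h] <;> norm_num

theorem p07_sginv (h : PieceG E c) (x : E) : sg c x⁻¹ = sg c x := by
  have h1 := p01_sgmul h x x⁻¹
  rw [mul_inv_cancel, p01_sgone] at h1
  have h2 := p07_sgsq c x
  rcases p01_sg c x with h3 | h3
  · rw [h3] at h1 ⊢
    linarith
  · rw [h3] at h1 ⊢
    linarith

theorem p07_Dinv (h : PieceG E c) {D : E → ℤ} (hD : ∀ x y, D (x * y) = D x + sg c x * D y)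
    (x : E) : D x⁻¹ = - (sg c x * D x) := by
  have h1 := hD x⁻¹ x
  rw [inv_mul_cancel, p07_D1 hD, p07_sginv h] at h1
  linarith

/-- the kernel -/
def kerG (h : PieceG E c) (M : Subgroup E) (D : E → ℤ)
    (hD : ∀ x y, D (x * y) = D x + sg c x * D y) : Subgroup E where
  carrier := {g | g ∈ M ∧ sg c g = 1 ∧ D c ∣ D g}
  one_mem' := ⟨M.one_mem, p01_sgone c, by rw [p07_D1 hD]; exact dvd_zero _⟩
  mul_mem' := by
    rintro a b ⟨a1, a2, a3⟩ ⟨b1, b2, b3⟩
    refine ⟨M.mul_mem a1 b1, ?_, ?_⟩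
    · rw [p01_sgmul h, a2, b2, mul_one]
    · rw [hD, a2, one_mul]
      exact dvd_add a3 b3
  inv_mem' := by
    rintro a ⟨a1, a2, a3⟩
    refine ⟨M.inv_mem a1, ?_, ?_⟩
    · rw [p07_sginv h, a2]
    · rw [p07_Dinv h hD, a2, one_mul]
      exact (dvd_neg).mpr a3

theorem kerG_mem (h : PieceG E c) (M : Subgroup E) (D : E → ℤ)
    (hD : ∀ x y, D (x * y) = D x + sg c x * D y) {g : E} :
    g ∈ kerG h M D hD ↔ g ∈ M ∧ sg c g = 1 ∧ D c ∣ D g := Iff.rfl

theorem kerG_normal (h : PieceG E c) (M : Subgroup E) (hM : M.Normal) (D : E → ℤ)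
    (hD : ∀ x y, D (x * y) = D x + sg c x * D y) : (kerG h M D hD).Normal := by
  constructor
  rintro g ⟨g1, g2, g3⟩ x
  refine ⟨hM.conj_mem g g1 x, ?_, ?_⟩
  · rw [p01_sgmul h, p01_sgmul h, g2, mul_one, p07_sginv h, p07_sgsq]
  · rw [hD, hD, p01_sgmul h, g2, mul_one, p07_Dinv h hD]
    have h1 := p07_sgsq c x
    have h2 : D x + sg c x * D g + sg c x * -(sg c x * D x) = sg c x * D g := by
      linear_combination (- D x) * h1
    rw [h2]
    exact Dvd.dvd.mul_left g3 _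

theorem kerG_index (h : PieceG E c) (M : Subgroup E) (hM : M.index ≠ 0) (D : E → ℤ)
    (hD : ∀ x y, D (x * y) = D x + sg c x * D y) (h0 : 0 < D c) : (kerG h M D hD).index ≠ 0 := by
  have hfi : M.FiniteIndex := ⟨hM⟩
  have hne : NeZero (D c).toNat := ⟨by omega⟩
  have hfin : Finite ((E ⧸ M) × Bool × ZMod (D c).toNat) := inferInstance
  classical
  refine p07_fi (kerG h M D hD)
    (fun g => (((g : E) : E ⧸ M), decide (sg c g = 1), ((D g : ℤ) : ZMod (D c).toNat))) ?_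
  intro g g' hgg
  simp only [Prod.mk.injEq] at hgg
  obtain ⟨h1, h2, h3⟩ := hgg
  rw [QuotientGroup.eq] at h1
  have h4 : sg c g = sg c g' := by
    rcases p01_sg c g with h5 | h5 <;> rcases p01_sg c g' with h6 | h6
    · rw [h5, h6]
    · rw [h5, h6] at h2
      simp at h2
    · rw [h5, h6] at h2
      simp at h2
    · rw [h5, h6]
  refine ⟨h1, ?_, ?_⟩
  · rw [p01_sgmul h, p07_sginv h, h4, p07_sgsq]
  · rw [hD, p07_Dinv h hD, p07_sginv h]
    have h5 : -(sg c g * D g) + sg c g * D g' = sg c g * (D g' - D g) := by ring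
    rw [h5]
    apply Dvd.dvd.mul_left
    have h6 : ((D g' - D g : ℤ) : ZMod (D c).toNat) = 0 := by
      rw [Int.cast_sub, h3, sub_self]
    rw [ZMod.intCast_zmod_eq_zero_iff_dvd] at h6
    rwa [Int.toNat_of_nonneg h0.le] at h6

end VF
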