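import Pool.Agent.Lib.MP_32d917_al_vf.BDefs

/-!
# RF0: free groups are residually finite

Let `w = x_1 ... x_m` be the reduced word of `x`, `m ≥ 1`. On `Fin (m + 1)` the letter number `k` (counted from the right) maps `k - 1` to `k`. As the word is
reduced these conditions for a generator `i` define an injective partial map, which extends to a permutation (`Equiv.extendSubtype`). Then the permutation of `x`
maps `0` to `m`.
-/

set_option autoImplicit false

namespace VF

open LatIso LatN AdmIso

theorem rf0_ext {α : Type} [Finite α] (R : α → α → Prop)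
    (h1 : ∀ a b b', R a b → R a b' → b = b') (h2 : ∀ a a' b, R a b → R a' b → a = a') :
    ∃ π : Equiv.Perm α, ∀ a b, R a b → π a = b := by
  classical
  have e1 : ∀ x : {a // ∃ b, R a b}, ∃ y : {b // ∃ a, R a b}, R x.1 y.1 := by
    rintro ⟨a, b, hb⟩
    exact ⟨⟨b, a, hb⟩, hb⟩
  have e2 : ∀ y : {b // ∃ a, R a b}, ∃ x : {a // ∃ b, R a b}, R x.1 y.1 := by
    rintro ⟨b, a, ha⟩
    exact ⟨⟨a, b, ha⟩, ha⟩
  choose f hf using e1
  choose g hg using e2
  let e : {a // ∃ b, R a b} ≃ {b // ∃ a, R a b} :=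
    { toFun := f
      invFun := g
      left_inv := fun x => Subtype.ext (h2 _ _ _ (hg (f x)) (hf x))
      right_inv := fun y => Subtype.ext (h1 _ _ _ (hf (g y)) (hg y)) }
  refine ⟨e.extendSubtype, fun a b hab => ?_⟩
  rw [Equiv.extendSubtype_apply_of_mem e a ⟨b, hab⟩]
  exact h1 _ _ _ (hf ⟨a, b, hab⟩) hab

/-- the partial maps -/
def RF0R {n : ℕ} (w : List (Fin n × Bool)) (x : Fin n) (a b : Fin (w.length + 1)) : Prop :=
  ((b : ℕ) = a + 1 ∧ w[(a : ℕ)]? = some (x, true)) ∨
    ((a : ℕ) = b + 1 ∧ w[(b : ℕ)]? = some (x, false))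

theorem free_rf (n : ℕ) (x : FreeGroup (Fin n)) (hx : x ≠ 1) :
    ∃ (H : Type) (_ : Group H) (_ : Finite H) (f : FreeGroup (Fin n) →* H), f x ≠ 1 := by
  classical
  set w := x.toWord.reverse with hw
  have hred : ∀ k (y : Fin n) (s t : Bool), w[k]? = some (y, s) → w[k + 1]? = some (y, t) →
      s = t := by
    intro k y s t h1 h2
    have hr : FreeGroup.IsReduced x.toWord := FreeGroup.isReduced_toWord
    unfold FreeGroup.IsReduced at hr
    have hr' : List.IsChain (fun a b : Fin n × Bool => a.1 = b.1 → a.2 = b.2) w := by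
      rw [hw, List.isChain_reverse]
      refine hr.imp ?_
      intro a b hab h
      exact (hab h.symm).symm
    rw [List.isChain_iff_getElem] at hr'
    obtain ⟨l2, e2⟩ := List.getElem?_eq_some_iff.1 h2
    obtain ⟨l1, e1⟩ := List.getElem?_eq_some_iff.1 h1
    have h3 := hr' k (by omega)
    rw [e1, e2] at h3
    exact h3 rfl
  have hπ : ∀ y : Fin n, ∃ π : Equiv.Perm (Fin (w.length + 1)), ∀ a b, RF0R w y a b → π a = b := by
    intro y
    apply rf0_ext
    · rintro a b b' (⟨h1, h2⟩ | ⟨h1, h2⟩) (⟨h3, h4⟩ | ⟨h3, h4⟩)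
      · exact Fin.ext (by omega)
      · exfalso
        rw [h3] at h2
        exact absurd (hred _ _ _ _ h4 h2) (by simp)
      · exfalso
        rw [h1] at h4
        exact absurd (hred _ _ _ _ h2 h4) (by simp)
      · exact Fin.ext (by omega)
    · rintro a a' b (⟨h1, h2⟩ | ⟨h1, h2⟩) (⟨h3, h4⟩ | ⟨h3, h4⟩)
      · exact Fin.ext (by omega)
      · exfalso
        rw [h1] at h4
        exact absurd (hred _ _ _ _ h2 h4) (by simp)
      · exfalso
        rw [h3] at h2
        exact absurd (hred _ _ _ _ h4 h2) (by simp)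
      · exact Fin.ext (by omega)
  choose π hπ using hπ
  refine ⟨Equiv.Perm (Fin (w.length + 1)), inferInstance, inferInstance, FreeGroup.lift π, ?_⟩
  have key : ∀ k (hk : k ≤ w.length),
      FreeGroup.lift π (FreeGroup.mk (w.take k).reverse) (0 : Fin (w.length + 1)) =
        ⟨k, by omega⟩ := by
    intro k
    induction k with
    | zero =>
      intro hk
      rw [List.take_zero, List.reverse_nil, ← FreeGroup.one_eq_mk, map_one]
      rfl
    | succ k ih =>
      intro hk
      have hk' : k < w.length := by omega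
      have h1 : w[k]? = some w[k] := List.getElem?_eq_getElem hk'
      have h2 : (w.take (k + 1)).reverse = [w[k]] ++ (w.take k).reverse := by
        rw [List.take_add_one, h1]
        simp
      rw [h2, ← FreeGroup.mul_mk, map_mul, Equiv.Perm.mul_apply, ih (by omega)]
      generalize w[k] = c at h1
      obtain ⟨y, t⟩ := c
      cases t
      · have h3 : π y ⟨k + 1, by omega⟩ = ⟨k, by omega⟩ :=
          hπ y _ _ (Or.inr ⟨rfl, h1⟩)
        have h4 : FreeGroup.mk [(y, false)] = (FreeGroup.of y)⁻¹ := rfl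
        rw [h4, map_inv, FreeGroup.lift_apply_of]
        show (π y).symm _ = _
        rw [Equiv.symm_apply_eq, h3]
      · have h3 : π y ⟨k, by omega⟩ = ⟨k + 1, by omega⟩ :=
          hπ y _ _ (Or.inl ⟨rfl, h1⟩)
        have h4 : FreeGroup.mk [(y, true)] = FreeGroup.of y := rfl
        rw [h4, FreeGroup.lift_apply_of, h3]
  have h1 := key w.length le_rfl
  have h5 : w.reverse = x.toWord := by rw [hw, List.reverse_reverse]
  rw [List.take_length, h5, FreeGroup.mk_toWord] at h1
  intro h2
  rw [h2] at h1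
  have h3 : (0 : ℕ) = w.length := congrArg Fin.val h1
  apply hx
  apply FreeGroup.toWord_eq_nil_iff.1
  have h4 : w = [] := List.length_eq_zero_iff.1 h3.symm
  rw [hw] at h4
  simpa using h4

theorem fz_rf (n : ℕ) (N : ℕ) (hN : 0 < N) (x : FZ n)
    (hx : ∀ k : ℤ, x ≠ (1, Multiplicative.ofAdd ((N : ℤ) * k))) :
    ∃ (H : Type) (_ : Group H) (_ : Finite H) (f : FZ n →* H), f x ≠ 1 ∧
      f (1, Multiplicative.ofAdd (N : ℤ)) = 1 := by
  by_cases h1 : x.1 = 1
  · have : NeZero N := ⟨hN.ne'⟩
    let g : Multiplicative ℤ →* Multiplicative (ZMod N) :=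
      AddMonoidHom.toMultiplicative (Int.castAddHom (ZMod N))
    refine ⟨Multiplicative (ZMod N), inferInstance, inferInstance,
      g.comp (MonoidHom.snd _ _), ?_, ?_⟩
    · intro h2
      have h3 : ((x.2.toAdd : ℤ) : ZMod N) = 0 := h2
      rw [ZMod.intCast_zmod_eq_zero_iff_dvd] at h3
      obtain ⟨k, hk⟩ := h3
      apply hx k
      apply Prod.ext
      · exact h1
      · show x.2 = Multiplicative.ofAdd ((N : ℤ) * k)
        rw [← hk]
        rfl
    · show ((N : ℤ) : ZMod N) = 0
      simp
  · obtain ⟨H, _, _, f, hf⟩ := free_rf n x.1 h1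
    refine ⟨H, inferInstance, inferInstance, f.comp (MonoidHom.fst _ _), hf, ?_⟩
    show f 1 = 1
    exact map_one f

end VF
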