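import Pool.Agent.Lib.MP_32d917_al_vf.T00
import Pool.Agent.Lib.MP_32d917_al.TTL
import Pool.Agent.Lib.MP_32d917_al.TL1B
import Pool.Agent.Lib.MP_32d917_al_adm.T01

/-!
# T01: elementary facts on admissible actions

Adapt adm/T01 (directory MP_32d917_al_adm), which only uses facts about trees and flats. `vadm_deg`: the stabiliser of `u`
contains `H ≅ FZ n`, not abelian, so it is not contained in the stabiliser of the flat `f`; take `g` fixing `u` and not `f`.
`vadm_tf`: the stabiliser of a flat is `ℤ × ℤ`, torsion free.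
-/

set_option autoImplicit false

namespace VF

open LatIso LatN AdmIso

section

variable {G : Type} [Group G] {V : Type} [MulAction G V] {T : SimpleGraph V} {Fl : Set V}

theorem vadm_flat_iff (h : VAdm G T Fl) (g : G) (x : V) : g • x ∈ Fl ↔ x ∈ Fl := by
  refine ⟨fun hx => ?_, h.flat g x⟩
  have := h.flat g⁻¹ _ hx
  rwa [inv_smul_smul] at this

theorem vadm_ta (h : VAdm G T Fl) : TA G T := by
  refine ⟨h.tree, h.adj, ?_⟩
  intro g x y hxy hg _
  have h1 := h.bip x y hxy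
  have h2 := vadm_flat_iff h g x
  rw [hg] at h2
  tauto

theorem vadm_fix (h : VAdm G T Fl) (g : G) {x m y : V} (hx : g • x = x) (hy : g • y = y)
    (hm : Bt T x m y) : g • m = m := by
  have e1 : T.dist x (g • m) = T.dist x m := by
    conv_lhs => rw [← hx]
    exact ta_dist (vadm_ta h) g _ _
  have e2 : T.dist (g • m) y = T.dist m y := by
    conv_lhs => rw [← hy]
    exact ta_dist (vadm_ta h) g _ _
  refine st_pt_uniq h.tree ?_ hm e1
  show T.dist x (g • m) + T.dist (g • m) y = T.dist x y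
  rw [e1, e2]; exact hm

theorem vadm_next (h : VAdm G T Fl) {u u' : V} (hu : u ∉ Fl) (hu' : u' ∉ Fl) (hne : u ≠ u') :
    ∃ f u1, f ∈ Fl ∧ u1 ∉ Fl ∧ u1 ≠ u ∧ T.Adj f u ∧ T.Adj f u1 ∧ Bt T u f u' ∧ Bt T u u1 u' ∧
      (u1 = u' ∨ ∃ f2 ∈ Fl, f2 ≠ f ∧ T.Adj f2 u1 ∧ Bt T u f2 u') := by
  obtain ⟨f, hf1, hf2⟩ := st_next h.tree hne
  have hf : f ∈ Fl := by
    have := h.bip u f hf1
    tauto
  have hfu : f ≠ u' := fun e => hu' (e ▸ hf)
  obtain ⟨u1, hu1, hu2⟩ := st_next h.tree hfu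
  have hu1F : u1 ∉ Fl := by
    have := h.bip f u1 hu1
    tauto
  have e1 := st1_one hf1
  have e2 := st1_one hu1
  have b1 := hf2
  have b2 := hu2
  unfold Bt at b1 b2
  have t1 := st1_tri h.tree u f u1
  have t2 := st1_tri h.tree u u1 u'
  refine ⟨f, u1, hf, hu1F, ?_, hf1.symm, hu1, hf2, ?_, ?_⟩
  · rintro rfl
    omega
  · unfold Bt
    omega
  · by_cases h1 : u1 = u'
    · exact Or.inl h1
    · right
      obtain ⟨f2, hf3, hf4⟩ := st_next h.tree h1
      have hf2F : f2 ∈ Fl := by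
        have := h.bip u1 f2 hf3
        tauto
      have e3 := st1_one hf3
      have b3 := hf4
      unfold Bt at b3
      have t3 := st1_tri h.tree u u1 f2
      have t4 := st1_tri h.tree u f2 u'
      refine ⟨f2, hf2F, ?_, hf3.symm, ?_⟩
      · rintro rfl
        omega
      · unfold Bt
        omega

theorem vadm_next' (h : VAdm G T Fl) {f f' : V} (hf : f ∈ Fl) (hf' : f' ∈ Fl) (hne : f ≠ f') :
    ∃ u f2, u ∉ Fl ∧ f2 ∈ Fl ∧ f2 ≠ f ∧ T.Adj f u ∧ T.Adj f2 u ∧ Bt T f u f' ∧ Bt T f f2 f' := by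
  obtain ⟨u, hu1, hu2⟩ := st_next h.tree hne
  have hu : u ∉ Fl := by
    have := h.bip f u hu1
    tauto
  have huf : u ≠ f' := fun e => hu (e ▸ hf')
  obtain ⟨f2, hf1, hf2⟩ := st_next h.tree huf
  have hf2F : f2 ∈ Fl := by
    have := h.bip u f2 hf1
    tauto
  have e1 := st1_one hu1
  have e2 := st1_one hf1
  have b1 := hu2
  have b2 := hf2
  unfold Bt at b1 b2
  have t1 := st1_tri h.tree f u f2
  have t2 := st1_tri h.tree f f2 f'
  refine ⟨u, f2, hu, hf2F, ?_, hu1, hf1.symm, hu2, ?_⟩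
  · rintro rfl
    omega
  · unfold Bt
    omega

theorem vadm_flatab (h : VAdm G T Fl) {f : V} (hf : f ∈ Fl) {g k : G} (hg : g • f = f)
    (hk : k • f = f) : g * k = k * g := by
  obtain ⟨ι⟩ := h.flatg f hf
  obtain ⟨a, ha⟩ := ι.surjective ⟨g, hg⟩
  obtain ⟨b, hb⟩ := ι.surjective ⟨k, hk⟩
  have h1 : ι a * ι b = ι b * ι a := by rw [← map_mul, ← map_mul, mul_comm]
  rw [ha, hb] at h1
  exact congrArg Subtype.val h1

theorem vadm_flat_fix (h : VAdm G T Fl) {f u : V} (hf : f ∈ Fl) (ha : T.Adj f u) {g : G}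
    (hg : g • f = f) : g • u = u := by
  exact h.fix f u hf ha hg

theorem vadm_deg (h : VAdm G T Fl) {f u : V} (hf : f ∈ Fl) (ha : T.Adj f u) :
    ∃ f' ∈ Fl, f' ≠ f ∧ T.Adj f' u := by
  have hu : u ∉ Fl := by
    have := h.bip f u ha
    tauto
  obtain ⟨n, hn, H, hH, -, ⟨ι⟩⟩ := h.piece u hu
  by_contra hcon
  have key : ∀ g : G, g • u = u → g • f = f := by
    intro g hg
    by_contra hgf
    apply hcon
    refine ⟨g • f, h.flat g f hf, hgf, ?_⟩
    have := h.adj g f u ha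
    rwa [hg] at this
  obtain ⟨a, b, hab⟩ := fg_nc n hn
  apply hab
  have h1 := vadm_flatab h hf (key (ι (a, 1) : G) (hH (ι (a, 1)).2))
    (key (ι (b, 1) : G) (hH (ι (b, 1)).2))
  have h2 : ι (a, 1) * ι (b, 1) = ι (b, 1) * ι (a, 1) := Subtype.ext h1
  rw [← map_mul, ← map_mul] at h2
  exact congrArg Prod.fst (ι.injective h2)

theorem vadm_hasflat (h : VAdm G T Fl) {u : V} (hu : u ∉ Fl) : ∃ f ∈ Fl, T.Adj f u := by
  obtain ⟨x, hx⟩ := h.ne
  have hne : u ≠ x := fun e => hu (e ▸ hx)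
  obtain ⟨n, hn, _⟩ := st_next h.tree hne
  have hnF : n ∈ Fl := by
    have := h.bip u n hn
    tauto
  exact ⟨n, hnF, hn.symm⟩

theorem vadm_tf (h : VAdm G T Fl) {f : V} (hf : f ∈ Fl) {g : G} (hg : g • f = f) (k : ℕ)
    (hk : 0 < k) (h1 : g ^ k = 1) : g = 1 := by
  obtain ⟨ι⟩ := h.flatg f hf
  obtain ⟨a, ha⟩ := ι.surjective ⟨g, hg⟩
  have h2 : a ^ k = 1 := by
    apply ι.injective
    rw [map_pow, ha, map_one]
    apply Subtype.ext
    show g ^ k = 1
    exact h1
  have h3 : a = 1 := by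
    have h4 : k • a.toAdd = 0 := by
      rw [← toAdd_pow, h2]
      rfl
    have h5 : a.toAdd = 0 := by
      have e1 : (k : ℤ) * a.toAdd.1 = 0 := by
        have := congrArg Prod.fst h4
        simpa using this
      have e2 : (k : ℤ) * a.toAdd.2 = 0 := by
        have := congrArg Prod.snd h4
        simpa using this
      have hk' : (k : ℤ) ≠ 0 := by exact_mod_cast hk.ne'
      apply Prod.ext
      · exact (mul_eq_zero.mp e1).resolve_left hk'
      · exact (mul_eq_zero.mp e2).resolve_left hk'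
    exact h5
  rw [h3, map_one] at ha
  exact (congrArg Subtype.val ha).symm

end

end VF
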