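import Pool.Agent.Lib.MP_32d917_al_vf.T01

/-!
# T02: virtually central elements

`S u` = stabiliser of `u`, `H ≅ FZ n` of finite index in it.
`vc_fix`: `z` commutes with `H' ≤ S u` of finite index. The flat `z f` has the stabiliser `z (S f) z⁻¹`, it contains the elements of
`S f ∩ H'` (fixed under conjugation by `z`), which have finite index in `S f`. So if `z f ≠ f` this contradicts `sep` (for
the flats `z f`, `f` at `u`; the relative index of `S (z f)` in `S f` is not `0`).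
`vc_iff`: an element of `H`, given by `x : FZ n`, is virtually central iff `x.1 = 1` (`fz_fi`).
`vc_cyc`: powers of `z`, `z'` are in `H` and central.
`vc_exists`: the central generator of `H`.
`vc_of_two`: common powers `z ^ k, a ^ k, b ^ k ∈ H`; if `z ^ k` is not central in `H` then `a ^ k`, `b ^ k` commute (`fz_comm`).
`cen1`: let `f ≠ f'` be flats at `u` fixed by `g`. `g ^ k ∈ H` for some `k > 0`. Suppose it is not central in `H`, and let `C` be the set of the
`y ∈ H` commuting with `g ^ k`; `C` is abelian (`fz_comm`). `S f ∩ H ≤ C` as `g ∈ S f` (abelian, `fix`). Let `y ∈ C`: it commutes with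
`S f ∩ H ≤ C`, so as in `vc_fix` `y f = f`. So `C = S f ∩ H`, and `C = S f' ∩ H`; so the relative index of `S f` in `S f'` is
not `0`, contradiction to `sep`. So `g ^ k` is central in `H`, so virtually central.
`cen2`: `f, u1` as in `vadm_next` for `u, u'`. If `u1 = u'`: `trans`. Otherwise `z` fixes `u` and `u'`, hence all points between
(`vadm_fix`), in particular the flats `f`, `f2` at `u1`; by `cen1` `VCen u1 (z ^ k)`, and `VCen u (z ^ k)`, so `z ^ k = 1` by
`trans` at `f`; `z` fixes the flat `f`, so `z = 1` (`vadm_tf`).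
-/

set_option autoImplicit false

namespace VF

open LatIso LatN AdmIso

section

variable {G : Type} [Group G] {V : Type} [MulAction G V] {T : SimpleGraph V} {Fl : Set V}

/-- an element commuting with a subgroup of finite relative index of the stabiliser of a flat fixes it -/
theorem T02_fix (h : VAdm G T Fl) {u f : V} {z : G} (hz : z • u = u) {J : Subgroup G}
    (hJ : J.relIndex (MulAction.stabilizer G f) ≠ 0)
    (hc : ∀ y ∈ J, y • f = f → z * y = y * z) (hf : f ∈ Fl) (ha : T.Adj f u) : z • f = f := by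
  by_contra hcon
  have ha' : T.Adj (z • f) u := by
    have := h.adj z f u ha
    rwa [hz] at this
  have h0 := h.sep (z • f) f u (h.flat z f hf) hf hcon ha' ha
  have hle : J ⊓ MulAction.stabilizer G f ≤ MulAction.stabilizer G (z • f) := by
    rintro y ⟨hy1, hy2⟩
    have hy3 : y • f = f := hy2
    show y • z • f = z • f
    rw [← mul_smul, ← hc y hy1 hy3, mul_smul, hy3]
  have h1 : (J ⊓ MulAction.stabilizer G f).relIndex (MulAction.stabilizer G f) ≠ 0 := by
    rw [Subgroup.inf_relIndex_right]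
    exact hJ
  exact h1 (Subgroup.relIndex_eq_zero_of_le_left hle h0)

theorem T02_first {n : ℕ} (hn : 2 ≤ n) {u : V} {H : Subgroup G}
    (hH : H ≤ MulAction.stabilizer G u) (ι : FZ n ≃* H) {x : FZ n} (hx : VCen G u (ι x : G)) :
    x.1 = 1 := by
  obtain ⟨-, H1, -, hH1, hc⟩ := hx
  have h1 : H1.relIndex H ≠ 0 := fun e => hH1 (Subgroup.relIndex_eq_zero_of_le_right hH e)
  refine fz_fi hn ((H1.subgroupOf H).comap ι.toMonoidHom) ?_ x ?_
  · rw [Subgroup.index_comap_of_surjective _ ι.surjective]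
    exact h1
  · intro y hy
    have hy' : ((ι y : H) : G) ∈ H1 := hy
    have h2 := hc _ hy'
    apply ι.injective
    apply Subtype.ext
    rw [map_mul, map_mul]
    exact h2

theorem T02_cen {n : ℕ} {u : V} {H : Subgroup G} (hH : H ≤ MulAction.stabilizer G u)
    (hH' : H.relIndex (MulAction.stabilizer G u) ≠ 0) (ι : FZ n ≃* H) {x : FZ n}
    (hx : x.1 = 1) : VCen G u (ι x : G) := by
  refine ⟨hH (ι x).2, H, hH, hH', ?_⟩
  intro y hy
  obtain ⟨w, hw⟩ := ι.surjective ⟨y, hy⟩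
  have h1 : x * w = w * x := by
    apply Prod.ext
    · show x.1 * w.1 = w.1 * x.1
      rw [hx, one_mul, mul_one]
    · show x.2 * w.2 = w.2 * x.2
      rw [mul_comm]
  have h2 := congrArg (fun t => ((ι t : H) : G)) h1
  simp only [map_mul, Subgroup.coe_mul, hw] at h2
  exact h2

theorem vc_conj {y : V} {z : G} (g : G) (hz : VCen G y z) : VCen G (g • y) (g * z * g⁻¹) := by
  obtain ⟨h1, H, hH, hi, hc⟩ := hz
  refine ⟨?_, H.map (MulAut.conj g).toMonoidHom, ?_, ?_, ?_⟩
  · rw [mul_smul, mul_smul, inv_smul_smul, h1]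
  · rw [MulAction.stabilizer_smul_eq_stabilizer_map_conj]
    exact Subgroup.map_mono hH
  · rw [MulAction.stabilizer_smul_eq_stabilizer_map_conj,
      Subgroup.relIndex_map_map_of_injective _ _ (MulAut.conj g).injective]
    exact hi
  · rintro _ ⟨k, hk, rfl⟩
    show g * z * g⁻¹ * (g * k * g⁻¹) = g * k * g⁻¹ * (g * z * g⁻¹)
    have := hc k hk
    calc g * z * g⁻¹ * (g * k * g⁻¹) = g * (z * k) * g⁻¹ := by group
      _ = g * (k * z) * g⁻¹ := by rw [this]
      _ = _ := by group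

theorem vc_zpow {y : V} {z : G} (hz : VCen G y z) (k : ℤ) : VCen G y (z ^ k) := by
  obtain ⟨h1, H, hH, hi, hc⟩ := hz
  refine ⟨?_, H, hH, hi, ?_⟩
  · have h2 : z ∈ MulAction.stabilizer G y := h1
    exact (MulAction.stabilizer G y).zpow_mem h2 k
  · intro x hx
    have h2 : Commute z x := hc x hx
    exact h2.zpow_left k

theorem vc_fix (h : VAdm G T Fl) {u f : V} {z : G} (hz : VCen G u z) (hf : f ∈ Fl)
    (ha : T.Adj f u) : z • f = f := by
  obtain ⟨h1, H, hH, hi, hc⟩ := hz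
  refine T02_fix h h1 (J := H) ?_ (fun y hy _ => hc y hy) hf ha
  exact fun e => hi (Subgroup.relIndex_eq_zero_of_le_right (h.fix f u hf ha) e)

theorem vc_cyc (h : VAdm G T Fl) {u : V} (hu : u ∉ Fl) {z z' : G} (hz : VCen G u z)
    (hz' : VCen G u z') : ∃ m n : ℤ, (m ≠ 0 ∨ n ≠ 0) ∧ z ^ m = z' ^ n := by
  obtain ⟨n, hn, H, hH, hi, ⟨ι⟩⟩ := h.piece u hu
  obtain ⟨k, hk, hzk⟩ := fi_pow hi (show z ∈ MulAction.stabilizer G u from hz.1)
  obtain ⟨l, hl, hzl⟩ := fi_pow hi (show z' ∈ MulAction.stabilizer G u from hz'.1)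
  obtain ⟨x, hx⟩ := ι.surjective ⟨z ^ k, hzk⟩
  obtain ⟨y, hy⟩ := ι.surjective ⟨z' ^ l, hzl⟩
  have hx' : ((ι x : H) : G) = z ^ k := by rw [hx]
  have hy' : ((ι y : H) : G) = z' ^ l := by rw [hy]
  have hx1 : x.1 = 1 := by
    refine T02_first hn hH ι (x := x) ?_
    rw [hx', ← zpow_natCast]
    exact vc_zpow hz k
  have hy1 : y.1 = 1 := by
    refine T02_first hn hH ι (x := y) ?_
    rw [hy', ← zpow_natCast]
    exact vc_zpow hz' l
  by_cases h0 : x.2.toAdd = 0 ∧ y.2.toAdd = 0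
  · have ex : x = 1 := Prod.ext hx1 (by simpa using h0.1)
    have ey : y = 1 := Prod.ext hy1 (by simpa using h0.2)
    rw [ex, map_one, Subgroup.coe_one] at hx'
    rw [ey, map_one, Subgroup.coe_one] at hy'
    refine ⟨k, l, Or.inl (by exact_mod_cast hk.ne'), ?_⟩
    rw [zpow_natCast, zpow_natCast, ← hx', ← hy']
  · refine ⟨k * y.2.toAdd, l * x.2.toAdd, ?_, ?_⟩
    · by_cases h1 : y.2.toAdd = 0
      · right
        have h2 : x.2.toAdd ≠ 0 := fun e => h0 ⟨e, h1⟩
        exact mul_ne_zero (by exact_mod_cast hl.ne') h2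
      · left
        exact mul_ne_zero (by exact_mod_cast hk.ne') h1
    · have e1 : x ^ y.2.toAdd = y ^ x.2.toAdd := by
        apply Prod.ext
        · show x.1 ^ y.2.toAdd = y.1 ^ x.2.toAdd
          rw [hx1, hy1, one_zpow, one_zpow]
        · show x.2 ^ y.2.toAdd = y.2 ^ x.2.toAdd
          apply Multiplicative.toAdd.injective
          rw [toAdd_zpow, toAdd_zpow]
          simp only [smul_eq_mul]
          ring
      have e2 := congrArg (fun t => ((ι t : H) : G)) e1
      simp only [map_zpow, Subgroup.coe_zpow] at e2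
      rw [hx', hy'] at e2
      rw [zpow_mul, zpow_mul, zpow_natCast, zpow_natCast]
      exact e2

theorem vc_exists (h : VAdm G T Fl) {u : V} (hu : u ∉ Fl) :
    ∃ z, VCen G u z ∧ ∀ k : ℤ, z ^ k = 1 → k = 0 := by
  obtain ⟨n, hn, H, hH, hi, ⟨ι⟩⟩ := h.piece u hu
  refine ⟨ι ((1, Multiplicative.ofAdd 1) : FZ n), T02_cen hH hi ι rfl, ?_⟩
  intro k hk
  have h1 : ι (((1, Multiplicative.ofAdd 1) : FZ n) ^ k) = 1 := by
    apply Subtype.ext
    rw [map_zpow, Subgroup.coe_zpow, hk, Subgroup.coe_one]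
  have h2 : ((1, Multiplicative.ofAdd 1) : FZ n) ^ k = 1 := by
    apply ι.injective
    rw [h1, map_one]
  have h3 := congrArg (fun t : FZ n => t.2.toAdd) h2
  simpa using h3

theorem vc_of_two (h : VAdm G T Fl) {u : V} (hu : u ∉ Fl) {z a b : G} (hz : z • u = u)
    (ha : a • u = u) (hb : b • u = u) (hab : ∀ k : ℕ, 0 < k → a ^ k * b ^ k ≠ b ^ k * a ^ k)
    (hza : z * a = a * z) (hzb : z * b = b * z) : ∃ k : ℕ, 0 < k ∧ VCen G u (z ^ k) := by
  obtain ⟨n, hn, H, hH, hi, ⟨ι⟩⟩ := h.piece u hu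
  obtain ⟨k1, hk1, hz1⟩ := fi_pow hi (show z ∈ MulAction.stabilizer G u from hz)
  obtain ⟨k2, hk2, ha1⟩ := fi_pow hi (show a ∈ MulAction.stabilizer G u from ha)
  obtain ⟨k3, hk3, hb1⟩ := fi_pow hi (show b ∈ MulAction.stabilizer G u from hb)
  have hk : 0 < k1 * k2 * k3 := Nat.mul_pos (Nat.mul_pos hk1 hk2) hk3
  set k := k1 * k2 * k3 with hkd
  have hzk : z ^ k ∈ H := by
    rw [hkd, mul_assoc, pow_mul]
    exact H.pow_mem hz1 _
  have hak : a ^ k ∈ H := by
    rw [hkd, mul_comm k1 k2, mul_assoc, pow_mul]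
    exact H.pow_mem ha1 _
  have hbk : b ^ k ∈ H := by
    rw [hkd, mul_comm (k1 * k2) k3, pow_mul]
    exact H.pow_mem hb1 _
  obtain ⟨x, hx⟩ := ι.surjective ⟨z ^ k, hzk⟩
  obtain ⟨y, hy⟩ := ι.surjective ⟨a ^ k, hak⟩
  obtain ⟨w, hw⟩ := ι.surjective ⟨b ^ k, hbk⟩
  refine ⟨k, hk, ?_⟩
  have hx' : ((ι x : H) : G) = z ^ k := by rw [hx]
  rw [← hx']
  refine T02_cen hH hi ι ?_
  by_contra hx1
  have hca : Commute z a := hza
  have hcb : Commute z b := hzb
  have e1 : y * x = x * y := by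
    apply ι.injective
    rw [map_mul, map_mul, hx, hy]
    apply Subtype.ext
    exact (hca.pow_pow k k).symm.eq
  have e2 : w * x = x * w := by
    apply ι.injective
    rw [map_mul, map_mul, hx, hw]
    apply Subtype.ext
    exact (hcb.pow_pow k k).symm.eq
  have e3 := fz_comm x y w hx1 e1 e2
  have e4 := congrArg (fun t => ((ι t : H) : G)) e3
  simp only [map_mul, Subgroup.coe_mul, hy, hw] at e4
  exact hab k hk e4

theorem cen1 (h : VAdm G T Fl) {u f f' : V} (hf : f ∈ Fl) (hf' : f' ∈ Fl) (hne : f ≠ f')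
    (ha : T.Adj f u) (ha' : T.Adj f' u) {g : G} (hg : g • f = f) (hg' : g • f' = f') :
    ∃ k : ℕ, 0 < k ∧ VCen G u (g ^ k) := by
  have hu : u ∉ Fl := (h.bip f u ha).1 hf
  obtain ⟨n, hn, H, hH, hi, ⟨ι⟩⟩ := h.piece u hu
  have hgu : g • u = u := vadm_flat_fix h hf ha hg
  obtain ⟨k, hk, hgk⟩ := fi_pow hi (show g ∈ MulAction.stabilizer G u from hgu)
  obtain ⟨x, hx⟩ := ι.surjective ⟨g ^ k, hgk⟩
  refine ⟨k, hk, ?_⟩
  have hx' : ((ι x : H) : G) = g ^ k := by rw [hx]
  rw [← hx']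
  refine T02_cen hH hi ι ?_
  by_contra hx1
  have key : ∀ a b : G, a ∈ H → b ∈ H → a * g ^ k = g ^ k * a → b * g ^ k = g ^ k * b →
      a * b = b * a := by
    intro a b haH hbH hac hbc
    obtain ⟨y, hy⟩ := ι.surjective ⟨a, haH⟩
    obtain ⟨w, hw⟩ := ι.surjective ⟨b, hbH⟩
    have e1 : y * x = x * y := by
      apply ι.injective
      rw [map_mul, map_mul, hx, hy]
      exact Subtype.ext hac
    have e2 : w * x = x * w := by
      apply ι.injective
      rw [map_mul, map_mul, hx, hw]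
      exact Subtype.ext hbc
    have e3 := fz_comm x y w hx1 e1 e2
    have e4 := congrArg (fun t => ((ι t : H) : G)) e3
    simp only [map_mul, Subgroup.coe_mul, hy, hw] at e4
    exact e4
  have com : ∀ a ∈ Fl, T.Adj a u → g • a = a → ∀ y ∈ H, y • a = a → y * g ^ k = g ^ k * y := by
    intro a haF hau hga y _ hya
    refine vadm_flatab h haF hya ?_
    have : g ∈ MulAction.stabilizer G a := hga
    exact (MulAction.stabilizer G a).pow_mem this k
  have ind : ∀ a ∈ Fl, T.Adj a u → H.relIndex (MulAction.stabilizer G a) ≠ 0 := by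
    intro a haF hau e
    exact hi (Subgroup.relIndex_eq_zero_of_le_right (h.fix a u haF hau) e)
  have fixx : ∀ a ∈ Fl, T.Adj a u → g • a = a → ∀ y ∈ H, y * g ^ k = g ^ k * y → y • a = a := by
    intro a haF hau hga y hy hyc
    refine T02_fix h (hH hy) (J := H) (ind a haF hau) ?_ haF hau
    intro w hw hwa
    exact key y w hy hw hyc (com a haF hau hga w hw hwa)
  have h0 := h.sep f f' u hf hf' hne ha ha'
  have hle : H ⊓ MulAction.stabilizer G f' ≤ MulAction.stabilizer G f := by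
    rintro y ⟨hy1, hy2⟩
    exact fixx f hf ha hg y hy1 (com f' hf' ha' hg' y hy1 hy2)
  have h1 : (H ⊓ MulAction.stabilizer G f').relIndex (MulAction.stabilizer G f') ≠ 0 := by
    rw [Subgroup.inf_relIndex_right]
    exact ind f' hf' ha'
  exact h1 (Subgroup.relIndex_eq_zero_of_le_left hle h0)

theorem cen2 (h : VAdm G T Fl) {u u' : V} (hu : u ∉ Fl) (hu' : u' ∉ Fl) (hne : u ≠ u') {z : G}
    (hz : VCen G u z) (hz' : VCen G u' z) : z = 1 := by
  obtain ⟨f, u1, hf, hu1, hu1ne, hfu, hfu1, hb1, hb2, h3⟩ := vadm_next h hu hu' hne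
  rcases h3 with h3 | ⟨f2, hf2, hf2ne, hf2u, hb3⟩
  · subst h3
    exact h.trans f u u1 hf hfu hfu1 hne z hz hz'
  · have e1 : z • f = f := vadm_fix h z hz.1 hz'.1 hb1
    have e2 : z • f2 = f2 := vadm_fix h z hz.1 hz'.1 hb3
    obtain ⟨k, hk, hc⟩ := cen1 h hf hf2 (Ne.symm hf2ne) hfu1 hf2u e1 e2
    have hc' : VCen G u (z ^ k) := by
      rw [← zpow_natCast]
      exact vc_zpow hz k
    have e3 := h.trans f u u1 hf hfu hfu1 (Ne.symm hu1ne) (z ^ k) hc' hc
    exact vadm_tf h hf e1 k hk e3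

end

end VF
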