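import Pool.Agent.Lib.MP_32d917_al_vf.T02
import Pool.Agent.Lib.MP_32d917_al_adm.T03

/-!
# T03: the elliptic lemma

Adapt adm/T03 (`line_iso`, `t03_trans`, `t03_inv`, `t03_cmr` can be imported from it). `z` has infinite order, commutes with `H`.
First case `0 < tl T z`: as there, the commutators fix all points of the axis; one of `b 0`, `b 1` is a flat; both commutators fix
it, so they commute (`vadm_flatab`): contradiction. Second case `tl T z = 0`.
* If `VCen G u (z ^ k)` for some piece `u` and `k > 0`: for `g ∈ H`, `VCen G (g • u) (z ^ k)` (`vc_conj`), so `g • u = u` by `cen2`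
  (`z ^ k ≠ 1`).
* Otherwise `z` fixes at most one flat (two flats: two flats at one piece `u` by `vadm_next'`, `vadm_fix`, and `cen1`).
  If it fixes a flat `f` then all `g ∈ H` fix it, and `H` is abelian, contradiction. If it fixes no flat then it fixes exactly one piece,
  and `H` fixes it.
Uniqueness: as there.
-/

set_option autoImplicit false

namespace VF

open LatIso LatN AdmIso

section

variable {G : Type} [Group G] {V : Type} [MulAction G V] {T : SimpleGraph V} {Fl : Set V}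

theorem ell (h : VAdm G T Fl) (H : Subgroup G) (z : G) (hz : z ∈ H)
    (hz1 : ∀ k : ℕ, 0 < k → z ^ k ≠ 1) (hzc : ∀ g ∈ H, z * g = g * z) (a1 a2 b1 b2 : G)
    (ha1 : a1 ∈ H) (ha2 : a2 ∈ H) (hb1 : b1 ∈ H) (hb2 : b2 ∈ H)
    (hne : cmr a1 a2 * cmr b1 b2 ≠ cmr b1 b2 * cmr a1 a2) :
    ∃ u, u ∉ Fl ∧ ∀ g ∈ H, g • u = u := by
  have hta := vadm_ta h
  have hcm : ∀ x y, x ∈ H → y ∈ H → cmr x y ∈ H := fun x y hx hy =>
    H.mul_mem (H.mul_mem (H.mul_mem hx hy) (H.inv_mem hx)) (H.inv_mem hy)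
  rcases Nat.eq_zero_or_pos (tl T z) with h0 | h0
  · obtain ⟨x, hx⟩ := (tl_eq_zero hta z).1 h0
    have hzg : ∀ g ∈ H, ∀ y : V, z • y = y → z • g • y = g • y := by
      intro g hg y hy
      rw [← mul_smul, hzc g hg, mul_smul, hy]
    by_cases hcen : ∃ u, u ∉ Fl ∧ ∃ k : ℕ, 0 < k ∧ VCen G u (z ^ k)
    · obtain ⟨u, hu, k, hk, huz⟩ := hcen
      refine ⟨u, hu, fun g hg => ?_⟩
      by_contra hgu
      have h1 := vc_conj g huz
      have hcomm : Commute z g := hzc g hg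
      have h2 : g * z ^ k * g⁻¹ = z ^ k := by
        rw [← (hcomm.pow_left k).eq, mul_inv_cancel_right]
      rw [h2] at h1
      exact hz1 k hk (VF.cen2 h (fun h3 => hu ((vadm_flat_iff h g u).mp h3)) hu hgu h1 huz)
    · have huniq : ∀ f f', f ∈ Fl → f' ∈ Fl → z • f = f → z • f' = f' → f = f' := by
        intro f f' hf hf' hzf hzf'
        by_contra hff
        obtain ⟨u, f2, hu, hf2, hf2f, hfu, hf2u, _, hbt⟩ := vadm_next' h hf hf' hff
        have h1 := vadm_fix h z hzf hzf' hbt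
        exact hcen ⟨u, hu, VF.cen1 h hf hf2 hf2f.symm hfu hf2u hzf h1⟩
      by_cases hfl : ∃ f ∈ Fl, z • f = f
      · exfalso
        obtain ⟨f, hf, hzf⟩ := hfl
        have h1 : ∀ g ∈ H, g • f = f := fun g hg =>
          huniq _ _ ((vadm_flat_iff h g f).mpr hf) hf (hzg g hg f hzf) hzf
        exact hne (vadm_flatab h hf (h1 _ (hcm _ _ ha1 ha2)) (h1 _ (hcm _ _ hb1 hb2)))
      · have hxp : x ∉ Fl := fun h1 => hfl ⟨x, h1, hx⟩
        refine ⟨x, hxp, fun g hg => ?_⟩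
        by_contra hgx
        have hgx' : x ≠ g • x := fun h1 => hgx h1.symm
        obtain ⟨f, u1, hf, _, _, _, _, hbt, _⟩ :=
          vadm_next h hxp (fun h3 => hxp ((vadm_flat_iff h g x).mp h3)) hgx'
        exact hfl ⟨f, hf, vadm_fix h z hx (hzg g hg x hx) hbt⟩
  · exfalso
    obtain ⟨b, e1, e2, e3⟩ := tl_line hta z h0
    have htr : ∀ g ∈ H, ∃ c : ℤ, ∀ i, g • b i = b (i + c) := fun g hg =>
      t03_trans hta z b h0 e1 e2 e3 g (hzc g hg)
    obtain ⟨c1, hc1⟩ := htr a1 ha1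
    obtain ⟨c2, hc2⟩ := htr a2 ha2
    obtain ⟨d1, hd1⟩ := htr b1 hb1
    obtain ⟨d2, hd2⟩ := htr b2 hb2
    have hfa := t03_cmr hc1 hc2
    have hfb := t03_cmr hd1 hd2
    have hadj : T.Adj (b 0) (b 1) := by
      rw [← SimpleGraph.dist_eq_one_iff_adj, e1]
      rfl
    by_cases h3 : b 0 ∈ Fl
    · exact hne (vadm_flatab h h3 (hfa 0) (hfb 0))
    · have h4 : b 1 ∈ Fl := (h.bip _ _ hadj.symm).mpr h3
      exact hne (vadm_flatab h h4 (hfa 1) (hfb 1))

theorem ell_uniq (h : VAdm G T Fl) (H : Subgroup G) (a b : G) (ha : a ∈ H) (hb : b ∈ H)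
    (hab : a * b ≠ b * a) (u u' : V) (hu : u ∉ Fl) (hu' : u' ∉ Fl) (h1 : ∀ g ∈ H, g • u = u)
    (h2 : ∀ g ∈ H, g • u' = u') : u = u' := by
  by_contra hne
  obtain ⟨f, u1, hf, _, _, _, _, hbt, _⟩ := vadm_next h hu hu' hne
  exact hab (vadm_flatab h hf (vadm_fix h a (h1 a ha) (h2 a ha) hbt)
    (vadm_fix h b (h1 b hb) (h2 b hb) hbt))

end

end VF
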