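import Pool.Agent.Lib.MP_32d917_al_vf.T03
import Pool.Agent.Lib.MP_32d917_al_vf.T05
import Pool.Agent.Lib.MP_32d917_al_vf.T06

/-!
# T07: realisation, first part: the vertices

Adapt adm/T07.
`em_*`: elementary computations with `em`: `em p e (v + w) = em p e v * em p e w` for commuting `h`, `b` (`D.pc e = p`);
`em p e (k ze) = b ^ k`, `em p e om = h`; `em_inj`: `h ^ i b ^ j = 1` gives `h ^ (i m) = c ^ (- j)` (`bc`), so `i = 0` (`hh`), `b ^ j = 1`,
`c ^ j = 1`, `j = 0` (`inf`), and `v` is determined by `dt v ze`, `dt om v` (`det`).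
`exists_vp`: let `H0 ≤ K p` be of finite index, `ι : FZ n ≃* H0`. `ell` for the image of `H0` under `be p` with `z = be (ι (1, 1))`
and the commutators of `fg_nc2` (F01, F02 in adm) gives a piece `u` fixed by `be H0`. For `x : K p`: the group `H1 = H0 ⊓ x H0 x⁻¹` has finite
index, it fixes `u` and `be x • u`; it contains `a ^ k`, `b ^ k` for the pair of `pg_pair` or `fz_pair`, not commuting; so
`be x • u = u` by `ell_uniq`.
`cen_vp`: `vc_of_two` for `z = be c` and the images of the pair of `pg_pair` (`be` is injective).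
`al_cen`: `al (k m ze) = y e be(c ^ k) (y e)⁻¹` where `b ^ m = c`.
`no_cen`: no piece `u` such that every `al q v` has a positive power in the virtual centre: for two edges `e ≠ f` at `q` powers of
`al q (ze e)`, `al q (ze f)` would be commensurable (`vc_cyc`), contradiction to `ind`.
`two_edges`, `exists_fq`: as in adm/T07 with `cen1` of T02 (powers).
-/

set_option autoImplicit false

namespace VF

open LatIso LatN AdmIso

section

variable {P Q E : Type} {K : P → Type} [∀ p, Group (K p)] {D : TD P Q E K} {G : Type} [Group G]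
  {V : Type} [MulAction G V] {T : SimpleGraph V} {Fl : Set V}

theorem T07_dt_add (a b c : ℤ × ℤ) : dt (a + b) c = dt a c + dt b c := by
  simp only [dt, Prod.fst_add, Prod.snd_add]
  ring

theorem T07_dt_add_right (a b c : ℤ × ℤ) : dt a (b + c) = dt a b + dt a c := by
  simp only [dt, Prod.fst_add, Prod.snd_add]
  ring

theorem T07_dt_zsmul (m : ℤ) (a b : ℤ × ℤ) : dt (m • a) b = m * dt a b := by
  simp only [dt, Prod.smul_fst, Prod.smul_snd, smul_eq_mul]
  ring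

theorem T07_dt_zsmul_right (m : ℤ) (a b : ℤ × ℤ) : dt a (m • b) = m * dt a b := by
  simp only [dt, Prod.smul_fst, Prod.smul_snd, smul_eq_mul]
  ring

theorem T07_dt_self (a : ℤ × ℤ) : dt a a = 0 := by
  simp only [dt]
  ring

theorem T07_zero (ze om v : ℤ × ℤ) (h : dt om ze = 1) (h1 : dt v ze = 0) (h2 : dt om v = 0) :
    v = 0 := by
  simp only [dt] at h h1 h2
  apply Prod.ext
  · show v.1 = 0
    linear_combination (-v.1) * h + om.1 * h1 + ze.1 * h2
  · show v.2 = 0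
    linear_combination (-v.2) * h + om.2 * h1 + ze.2 * h2

theorem em_add {p : P} {e : E} (hD : D.Ok) (hp : D.pc e = p) (v w : A2) :
    D.em p e (v * w) = D.em p e v * D.em p e w := by
  have hc : Commute (D.h p e) (D.b p e) := hD.com p e hp
  unfold TD.em
  rw [toAdd_mul, T07_dt_add, T07_dt_add_right, zpow_add, zpow_add]
  have h1 := (hc.zpow_zpow (dt w.toAdd (D.ze e)) (dt (D.om e) v.toAdd)).eq
  calc D.h p e ^ dt v.toAdd (D.ze e) * D.h p e ^ dt w.toAdd (D.ze e) *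
        (D.b p e ^ dt (D.om e) v.toAdd * D.b p e ^ dt (D.om e) w.toAdd) =
      D.h p e ^ dt v.toAdd (D.ze e) * (D.h p e ^ dt w.toAdd (D.ze e) *
        D.b p e ^ dt (D.om e) v.toAdd) * D.b p e ^ dt (D.om e) w.toAdd := by group
    _ = D.h p e ^ dt v.toAdd (D.ze e) * (D.b p e ^ dt (D.om e) v.toAdd *
        D.h p e ^ dt w.toAdd (D.ze e)) * D.b p e ^ dt (D.om e) w.toAdd := by rw [h1]
    _ = _ := by group

theorem em_ze {p : P} {e : E} (hD : D.Ok) (k : ℤ) :
    D.em p e (Multiplicative.ofAdd (k • D.ze e)) = D.b p e ^ k := by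
  unfold TD.em
  rw [toAdd_ofAdd, T07_dt_zsmul, T07_dt_self, mul_zero, zpow_zero, one_mul, T07_dt_zsmul_right,
    hD.det e, mul_one]

theorem em_om {p : P} {e : E} (hD : D.Ok) : D.em p e (Multiplicative.ofAdd (D.om e)) = D.h p e := by
  unfold TD.em
  rw [toAdd_ofAdd, T07_dt_self, zpow_zero, mul_one, hD.det e, zpow_one]

/-- `em` as a homomorphism -/
def T07_hom {p : P} {e : E} (hD : D.Ok) (hp : D.pc e = p) : A2 →* K p :=
  MonoidHom.mk' (D.em p e) (em_add hD hp)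

theorem em_inj {p : P} {e : E} (hD : D.Ok) (hp : D.pc e = p) : Function.Injective (D.em p e) := by
  have h0 : Function.Injective (T07_hom hD hp) := by
    rw [injective_iff_map_eq_one]
    intro v hv
    have hv' : D.h p e ^ dt v.toAdd (D.ze e) * D.b p e ^ dt (D.om e) v.toAdd = 1 := hv
    obtain ⟨m, hm, hbm⟩ := hD.bc p e hp
    have hc : Commute (D.h p e) (D.b p e) := hD.com p e hp
    set i := dt v.toAdd (D.ze e) with hi
    set j := dt (D.om e) v.toAdd with hj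
    have h1 : D.h p e ^ (i * m) * D.c p ^ j = 1 := by
      have h2 : (D.h p e ^ i * D.b p e ^ j) ^ (m : ℤ) = 1 := by rw [hv', one_zpow]
      rw [(hc.zpow_zpow i j).mul_zpow, ← zpow_mul, ← zpow_mul, mul_comm j, zpow_mul (D.b p e),
        zpow_natCast, hbm] at h2
      exact h2
    have hi0 : i = 0 := by
      by_contra hi0
      refine hD.hh p e hp (i * m) (-j) (mul_ne_zero hi0 (by exact_mod_cast hm.ne')) ?_
      rw [zpow_neg]
      exact eq_inv_of_mul_eq_one_left h1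
    have hj0 : j = 0 := by
      apply (hD.pg p).inf
      rw [hi0, zero_mul, zpow_zero, one_mul] at h1
      exact h1
    have h3 := T07_zero (D.ze e) (D.om e) v.toAdd (hD.det e) hi0 hj0
    exact h3
  exact h0

theorem em_c {p : P} {e : E} (hD : D.Ok) (hp : D.pc e = p) : ∃ m : ℕ, 0 < m ∧
    D.em p e (Multiplicative.ofAdd ((m : ℤ) • D.ze e)) = D.c p := by
  obtain ⟨m, hm, hbm⟩ := hD.bc p e hp
  refine ⟨m, hm, ?_⟩
  rw [em_ze hD, zpow_natCast, hbm]

theorem T07_cmr {H H' : Type} [Group H] [Group H'] (φ : H →* H') (a b : H) :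
    cmr (φ a) (φ b) = φ (cmr a b) := by
  unfold cmr
  rw [map_mul, map_mul, map_mul, map_inv, map_inv]

theorem exists_vp (h : VAdm G T Fl) (hD : D.Ok) (S : TSy D G)
    (hI : ∀ p, Function.Injective (S.be p)) (p : P) : ∃ u, u ∉ Fl ∧ ∀ x, S.be p x • u = u := by
  obtain ⟨n, hn, H0, hH0, ⟨ι⟩⟩ := (hD.pg p).vfz
  obtain ⟨a1, a2, b1, b2, hab⟩ := fg_nc2 n hn
  -- the homomorphism from `FZ n`
  let φ : FZ n →* G := (S.be p).comp (H0.subtype.comp ι.toMonoidHom)
  have hφI : Function.Injective φ := by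
    intro x y hxy
    exact ι.injective (Subtype.ext (hI p hxy))
  have hφ : ∀ x, φ x ∈ H0.map (S.be p) := fun x => ⟨(ι x : K p), (ι x).2, rfl⟩
  have key := ell h (H0.map (S.be p)) (φ (1, Multiplicative.ofAdd 1)) (hφ _)
    (by
      intro k hk h1
      have h2 : φ (((1, Multiplicative.ofAdd 1) : FZ n) ^ k) = φ 1 := by
        rw [map_pow, h1, map_one]
      have h3 := hφI h2
      have h4 := congrArg (fun t : FZ n => t.2.toAdd) h3
      simp at h4
      omega)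
    (by
      rintro g ⟨y, hy, rfl⟩
      obtain ⟨x, hx⟩ := ι.surjective ⟨y, hy⟩
      have h1 : S.be p y = φ x := by
        show S.be p y = S.be p ((ι x : H0) : K p)
        rw [hx]
      rw [h1, ← map_mul, ← map_mul]
      congr 1
      apply Prod.ext
      · show 1 * x.1 = x.1 * 1
        rw [one_mul, mul_one]
      · exact mul_comm _ _)
    (φ (a1, 1)) (φ (a2, 1)) (φ (b1, 1)) (φ (b2, 1)) (hφ _) (hφ _) (hφ _) (hφ _)
    (by
      rw [T07_cmr, T07_cmr, ← map_mul, ← map_mul]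
      intro h1
      have h2 := congrArg Prod.fst (hφI h1)
      exact hab h2)
  obtain ⟨u, hu, hu2⟩ := key
  refine ⟨u, hu, fun x => ?_⟩
  have hfix : ∀ y ∈ H0, S.be p y • u = u := fun y hy => hu2 _ ⟨y, hy, rfl⟩
  set H1 : Subgroup (K p) := H0 ⊓ H0.comap (MulAut.conj x⁻¹).toMonoidHom with hH1
  have hi1 : H1.relIndex ⊤ ≠ 0 := by
    refine fi_inter ?_ ?_
    · rw [Subgroup.relIndex_top_right]
      exact hH0
    · rw [Subgroup.relIndex_top_right, Subgroup.index_comap_of_surjective _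
        (MulAut.conj x⁻¹).surjective]
      exact hH0
  obtain ⟨a, b, hab'⟩ := fz_pair n hn
  obtain ⟨k1, hk1, ha1⟩ := fi_pow hi1 (Subgroup.mem_top ((ι a : H0) : K p))
  obtain ⟨k2, hk2, hb1⟩ := fi_pow hi1 (Subgroup.mem_top ((ι b : H0) : K p))
  have hak : ((ι a : H0) : K p) ^ (k1 * k2) ∈ H1 := by
    rw [pow_mul]
    exact H1.pow_mem ha1 _
  have hbk : ((ι b : H0) : K p) ^ (k1 * k2) ∈ H1 := by
    rw [mul_comm, pow_mul]
    exact H1.pow_mem hb1 _
  have hu' : S.be p x • u ∉ Fl := fun h1 => hu ((vadm_flat_iff h _ _).mp h1)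
  refine ell_uniq h (H1.map (S.be p)) (S.be p (((ι a : H0) : K p) ^ (k1 * k2)))
    (S.be p (((ι b : H0) : K p) ^ (k1 * k2))) ⟨_, hak, rfl⟩ ⟨_, hbk, rfl⟩ ?_ _ _ hu' hu ?_ ?_
  · rw [← map_mul, ← map_mul]
    intro h1
    have h2 := hI p h1
    refine hab' (k1 * k2) (Nat.mul_pos hk1 hk2) ?_
    apply ι.injective
    apply Subtype.ext
    simp only [map_mul, map_pow, Subgroup.coe_mul, Subgroup.coe_pow]
    exact h2
  · rintro g ⟨y, hy, rfl⟩
    have h1 : x⁻¹ * y * x ∈ H0 := by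
      have h2 : x⁻¹ * y * (x⁻¹)⁻¹ ∈ H0 := hy.2
      rwa [inv_inv] at h2
    have h3 := hfix _ h1
    have h4 : S.be p y * S.be p x = S.be p x * S.be p (x⁻¹ * y * x) := by
      rw [← map_mul, ← map_mul]
      congr 1
      group
    rw [smul_smul, h4, mul_smul, h3]
  · rintro g ⟨y, hy, rfl⟩
    exact hfix y hy.1

theorem cen_vp (h : VAdm G T Fl) (hD : D.Ok) (S : TSy D G)
    (hI : ∀ p, Function.Injective (S.be p)) (p : P) (u : V) (hu : u ∉ Fl)
    (hf : ∀ x, S.be p x • u = u) : ∃ k : ℕ, 0 < k ∧ VCen G u (S.be p (D.c p ^ k)) := by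
  obtain ⟨a, b, hab, ha, hb⟩ := pg_pair (hD.pg p)
  obtain ⟨k, hk, hv⟩ := vc_of_two h hu (hf (D.c p)) (hf a) (hf b)
    (by
      intro k hk h1
      rw [← map_pow, ← map_pow, ← map_mul, ← map_mul] at h1
      exact hab k hk (hI p h1))
    (by rw [← map_mul, ← map_mul, ha])
    (by rw [← map_mul, ← map_mul, hb])
  refine ⟨k, hk, ?_⟩
  rw [map_pow]
  exact hv

theorem T07_conj (S : TSy D G) (e : E) (v : A2) :
    S.al (D.fl e) v = S.y e * S.be (D.pc e) (D.em (D.pc e) e v) * (S.y e)⁻¹ := by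
  rw [← S.rel _ e rfl v, mul_inv_cancel_right]

theorem T07_fix (S : TSy D G) (vp : P → V) (hf : ∀ p x, S.be p x • vp p = vp p) (e : E) (v : A2) :
    S.al (D.fl e) v • (S.y e • vp (D.pc e)) = S.y e • vp (D.pc e) := by
  rw [smul_smul, S.rel _ e rfl v, ← smul_smul, hf]

theorem al_cen (h : VAdm G T Fl) (hD : D.Ok) (S : TSy D G)
    (hI : ∀ p, Function.Injective (S.be p)) (vp : P → V) (hv : ∀ p, vp p ∉ Fl)
    (hf : ∀ p x, S.be p x • vp p = vp p) (e : E) :
    ∃ k : ℕ, 0 < k ∧ VCen G (S.y e • vp (D.pc e))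
      (S.al (D.fl e) (Multiplicative.ofAdd ((k : ℤ) • D.ze e))) := by
  obtain ⟨k, hk, hc⟩ := cen_vp h hD S hI (D.pc e) (vp (D.pc e)) (hv _) (hf _)
  obtain ⟨m, hm, hbm⟩ := hD.bc (D.pc e) e rfl
  refine ⟨m * k, Nat.mul_pos hm hk, ?_⟩
  have h1 := vc_conj (S.y e) hc
  have h2 : D.em (D.pc e) e (Multiplicative.ofAdd (((m * k : ℕ) : ℤ) • D.ze e)) =
      D.c (D.pc e) ^ k := by
    rw [em_ze hD, zpow_natCast, pow_mul, hbm]
  rw [T07_conj, h2]
  exact h1

theorem al_inj (hD : D.Ok) (S : TSy D G) (hI : ∀ p, Function.Injective (S.be p)) (q : Q) :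
    Function.Injective (S.al q) := by
  obtain ⟨e, f, _, rfl, _⟩ := hD.two q
  intro v v' hvv
  rw [T07_conj, T07_conj] at hvv
  have h1 := mul_left_cancel (mul_right_cancel hvv)
  exact em_inj hD rfl (hI _ h1)

theorem T07_two (h : VAdm G T Fl) (hD : D.Ok) (S : TSy D G)
    (hI : ∀ p, Function.Injective (S.be p)) (e f : E) (hef : e ≠ f) (hq : D.fl e = D.fl f)
    (u : V) (hu : u ∉ Fl) (k l : ℕ) (hk : 0 < k) (hl : 0 < l)
    (hc : VCen G u (S.al (D.fl e) (Multiplicative.ofAdd ((k : ℤ) • D.ze e))))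
    (hc' : VCen G u (S.al (D.fl e) (Multiplicative.ofAdd ((l : ℤ) • D.ze f)))) : False := by
  obtain ⟨m, n, hmn, h1⟩ := vc_cyc h hu hc hc'
  have h2 : (Multiplicative.ofAdd ((k : ℤ) • D.ze e) : A2) ^ m =
      (Multiplicative.ofAdd ((l : ℤ) • D.ze f) : A2) ^ n := by
    apply al_inj hD S hI (D.fl e)
    rw [map_zpow (S.al (D.fl e)), map_zpow (S.al (D.fl e))]
    exact h1
  have h3 : m • ((k : ℤ) • D.ze e) = n • ((l : ℤ) • D.ze f) := h2
  rw [smul_smul, smul_smul] at h3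
  have h0 := hD.ind e f hef hq
  have h4 : (m * k) * dt (D.ze e) (D.ze f) = 0 := by
    rw [← T07_dt_zsmul, h3, T07_dt_zsmul, T07_dt_self, mul_zero]
  have h5 : (n * l) * dt (D.ze e) (D.ze f) = 0 := by
    rw [← T07_dt_zsmul_right, ← h3, T07_dt_zsmul_right, T07_dt_self, mul_zero]
  have hk' : (k : ℤ) ≠ 0 := by exact_mod_cast hk.ne'
  have hl' : (l : ℤ) ≠ 0 := by exact_mod_cast hl.ne'
  rcases hmn with hm | hn
  · exact mul_ne_zero hm hk' ((mul_eq_zero.mp h4).resolve_right h0)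
  · exact mul_ne_zero hn hl' ((mul_eq_zero.mp h5).resolve_right h0)

theorem no_cen (h : VAdm G T Fl) (hD : D.Ok) (S : TSy D G)
    (hI : ∀ p, Function.Injective (S.be p)) (q : Q) (u : V) (hu : u ∉ Fl)
    (hc : ∀ v, ∃ k : ℕ, 0 < k ∧ VCen G u (S.al q v ^ k)) : False := by
  obtain ⟨e, f, hef, rfl, hf⟩ := hD.two q
  obtain ⟨k, hk, hck⟩ := hc (Multiplicative.ofAdd (D.ze e))
  obtain ⟨l, hl, hcl⟩ := hc (Multiplicative.ofAdd (D.ze f))
  rw [← map_pow, ← ofAdd_nsmul, ← natCast_zsmul] at hck hcl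
  exact T07_two h hD S hI e f hef hf.symm u hu k l hk hl hck hcl

theorem u_ne (h : VAdm G T Fl) (hD : D.Ok) (S : TSy D G)
    (hI : ∀ p, Function.Injective (S.be p)) (vp : P → V) (hv : ∀ p, vp p ∉ Fl)
    (hf : ∀ p x, S.be p x • vp p = vp p) (e e' : E) (hq : D.fl e = D.fl e')
    (hu : S.y e • vp (D.pc e) = S.y e' • vp (D.pc e')) : e = e' := by
  by_contra hne
  obtain ⟨k, hk, hck⟩ := al_cen h hD S hI vp hv hf e
  obtain ⟨l, hl, hcl⟩ := al_cen h hD S hI vp hv hf e'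
  rw [← hu, ← hq] at hcl
  exact T07_two h hD S hI e e' hne hq _ (fun h1 => hv _ ((vadm_flat_iff h _ _).mp h1)) k l hk hl
    hck hcl

theorem T07_edges (h : VAdm G T Fl) (hD : D.Ok) (S : TSy D G)
    (hI : ∀ p, Function.Injective (S.be p)) (vp : P → V) (hv : ∀ p, vp p ∉ Fl)
    (hf : ∀ p x, S.be p x • vp p = vp p) (e e' : E) (hne : e ≠ e') (hq : D.fl e = D.fl e') :
    ∃ f ∈ Fl, (∀ v, S.al (D.fl e) v • f = f) ∧ T.Adj f (S.y e • vp (D.pc e)) ∧
      T.Adj f (S.y e' • vp (D.pc e')) := by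
  have hu : S.y e • vp (D.pc e) ∉ Fl := fun h1 => hv _ ((vadm_flat_iff h _ _).mp h1)
  have hu' : S.y e' • vp (D.pc e') ∉ Fl := fun h1 => hv _ ((vadm_flat_iff h _ _).mp h1)
  have huu : S.y e • vp (D.pc e) ≠ S.y e' • vp (D.pc e') := fun h1 =>
    hne (u_ne h hD S hI vp hv hf e e' hq h1)
  have hx : ∀ v, S.al (D.fl e) v • (S.y e • vp (D.pc e)) = S.y e • vp (D.pc e) :=
    fun v => T07_fix S vp hf e v
  have hx' : ∀ v, S.al (D.fl e) v • (S.y e' • vp (D.pc e')) = S.y e' • vp (D.pc e') := by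
    intro v
    rw [hq]
    exact T07_fix S vp hf e' v
  obtain ⟨f1, u1, hf1, hu1, _, ha, ha1, hb, hb1, hor⟩ := vadm_next h hu hu' huu
  have hfix1 : ∀ v, S.al (D.fl e) v • f1 = f1 := fun v => vadm_fix h _ (hx v) (hx' v) hb
  rcases hor with h1 | ⟨f2, hf2, hf21, ha2, hb2⟩
  · subst h1
    exact ⟨f1, hf1, hfix1, ha, ha1⟩
  · exfalso
    have hfix2 : ∀ v, S.al (D.fl e) v • f2 = f2 := fun v => vadm_fix h _ (hx v) (hx' v) hb2
    exact no_cen h hD S hI (D.fl e) u1 hu1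
      (fun v => cen1 h hf1 hf2 hf21.symm ha1 ha2 (hfix1 v) (hfix2 v))

theorem exists_fq (h : VAdm G T Fl) (hD : D.Ok) (S : TSy D G)
    (hI : ∀ p, Function.Injective (S.be p)) (vp : P → V) (hv : ∀ p, vp p ∉ Fl)
    (hf : ∀ p x, S.be p x • vp p = vp p) (q : Q) :
    ∃ f ∈ Fl, (∀ v, S.al q v • f = f) ∧ ∀ e, D.fl e = q → T.Adj f (S.y e • vp (D.pc e)) := by
  obtain ⟨e, e', hne, rfl, he'⟩ := hD.two q
  have hu : S.y e • vp (D.pc e) ∉ Fl := fun h1 => hv _ ((vadm_flat_iff h _ _).mp h1)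
  obtain ⟨f1, hf1, hfix1, ha, _⟩ := T07_edges h hD S hI vp hv hf e e' hne he'.symm
  refine ⟨f1, hf1, hfix1, ?_⟩
  intro e2 he2
  by_cases h2 : e2 = e
  · subst h2
    exact ha
  obtain ⟨f2, hf2, hfix2, ha2, hb2⟩ :=
    T07_edges h hD S hI vp hv hf e e2 (fun h3 => h2 h3.symm) he2.symm
  by_cases h3 : f2 = f1
  · subst h3
    exact hb2
  · exfalso
    exact no_cen h hD S hI (D.fl e) _ hu
      (fun v => cen1 h hf1 hf2 (fun h4 => h3 h4.symm) ha ha2 (hfix1 v) (hfix2 v))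

end

end VF
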