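import Pool.Agent.Lib.MP_32d917_al_vf.BDefs

/-!
# Admissible groups with virtually free bases: definitions
-/

set_option autoImplicit false

namespace VF

open LatIso LatN AdmIso

/-- `z` fixes `y` and is in the virtual centre of the stabiliser of `y` -/
def VCen (G : Type) [Group G] {V : Type} [MulAction G V] (y : V) (z : G) : Prop :=
  z • y = y ∧ ∃ H : Subgroup G, H ≤ MulAction.stabilizer G y ∧
    H.relIndex (MulAction.stabilizer G y) ≠ 0 ∧ ∀ h ∈ H, z * h = h * z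

/-- Admissible actions on trees -/
structure VAdm (G : Type) [Group G] {V : Type} [MulAction G V] (T : SimpleGraph V) (Fl : Set V) :
    Prop where
  tree : T.IsTree
  adj : ∀ (g : G) (x y : V), T.Adj x y → T.Adj (g • x) (g • y)
  flat : ∀ (g : G) (x : V), x ∈ Fl → g • x ∈ Fl
  bip : ∀ x y, T.Adj x y → (x ∈ Fl ↔ y ∉ Fl)
  ne : ∃ x, x ∈ Fl
  two : ∀ x ∈ Fl, ∃ y z, y ≠ z ∧ T.Adj x y ∧ T.Adj x z
  fin : ∃ F : Finset (V × V), ∀ x y, T.Adj x y → ∃ g : G, (g • x, g • y) ∈ F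
  piece : ∀ x, x ∉ Fl → ∃ n, 2 ≤ n ∧ ∃ H : Subgroup G, H ≤ MulAction.stabilizer G x ∧
    H.relIndex (MulAction.stabilizer G x) ≠ 0 ∧ Nonempty (FZ n ≃* H)
  flatg : ∀ x ∈ Fl, Nonempty (A2 ≃* MulAction.stabilizer G x)
  fix : ∀ x y, x ∈ Fl → T.Adj x y → MulAction.stabilizer G x ≤ MulAction.stabilizer G y
  sep : ∀ x x' y, x ∈ Fl → x' ∈ Fl → x ≠ x' → T.Adj x y → T.Adj x' y →
    (MulAction.stabilizer G x).relIndex (MulAction.stabilizer G x') = 0
  trans : ∀ x y y', x ∈ Fl → T.Adj x y → T.Adj x y' → y ≠ y' → ∀ z : G, VCen G y z →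
    VCen G y' z → z = 1

/-- the class of groups -/
def IsVAdm (G : Type) [Group G] : Prop :=
  ∃ (V : Type) (_ : MulAction G V) (T : SimpleGraph V) (Fl : Set V), VAdm G T Fl

/-! ### Data -/

/-- Data: pieces `P` with groups `K p`, flats `Q`, edges `E` from flats to pieces; for every edge two
commuting elements `h`, `b` of the group of the piece, and two vectors `ze`, `om` of the flat. -/
structure TD (P Q E : Type) (K : P → Type) [∀ p, Group (K p)] where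
  pc : E → P
  fl : E → Q
  c : (p : P) → K p
  h : (p : P) → E → K p
  b : (p : P) → E → K p
  ze : E → ℤ × ℤ
  om : E → ℤ × ℤ

section

variable {P Q E : Type} {K : P → Type} [∀ p, Group (K p)]

/-- the embedding of the group of the flat into the group of the piece `p` (meaningful for
`p = pc e`) -/
def TD.em (D : TD P Q E K) (p : P) (e : E) (v : A2) : K p :=
  D.h p e ^ dt v.toAdd (D.ze e) * D.b p e ^ dt (D.om e) v.toAdd

/-- validity -/
structure TD.Ok (D : TD P Q E K) : Prop where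
  pg : ∀ p, PieceG (K p) (D.c p)
  det : ∀ e, dt (D.om e) (D.ze e) = 1
  com : ∀ p e, D.pc e = p → D.h p e * D.b p e = D.b p e * D.h p e
  bc : ∀ p e, D.pc e = p → ∃ m : ℕ, 0 < m ∧ D.b p e ^ m = D.c p
  hh : ∀ p e, D.pc e = p → ∀ k j : ℤ, k ≠ 0 → D.h p e ^ k ≠ D.c p ^ j
  ind : ∀ e f, e ≠ f → D.fl e = D.fl f → dt (D.ze e) (D.ze f) ≠ 0
  two : ∀ q, ∃ e f, e ≠ f ∧ D.fl e = q ∧ D.fl f = q
  sep : ∀ p e f, D.pc e = p → D.pc f = p → ∀ (x : K p) (k : ℤ) (v : A2), k ≠ 0 →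
    x * D.h p e ^ k * x⁻¹ = D.em p f v → e = f ∧ ∃ v, D.em p e v = x

/-- spanning trees -/
structure TTr (D : TD P Q E K) (p0 : P) (ep : P → E) (ef : Q → E) (rp : P → ℕ) (rq : Q → ℕ) :
    Prop where
  ep : ∀ p, p ≠ p0 → D.pc (ep p) = p ∧ rq (D.fl (ep p)) < rp p
  ef : ∀ q, D.fl (ef q) = q ∧ rp (D.pc (ef q)) < rq q

/-- a system -/
structure TSy (D : TD P Q E K) (G : Type) [Group G] where
  be : (p : P) → K p →* G
  al : Q → A2 →* G
  y : E → G
  rel : ∀ p e, D.pc e = p → ∀ v, al (D.fl e) v * y e = y e * be p (D.em p e v)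

/-- the elements `y e` are trivial on the spanning tree -/
def TSy.Nor {D : TD P Q E K} {G : Type} [Group G] (S : TSy D G) (p0 : P) (ep : P → E)
    (ef : Q → E) : Prop := (∀ p, p ≠ p0 → S.y (ep p) = 1) ∧ ∀ q, S.y (ef q) = 1

/-- the system generates the group -/
def TSy.Gen {D : TD P Q E K} {G : Type} [Group G] (S : TSy D G) : Prop :=
  Subgroup.closure ({g | ∃ p x, S.be p x = g} ∪ {g | ∃ q v, S.al q v = g} ∪ Set.range S.y) = ⊤

/-- compatible homomorphisms -/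
structure TSy.Comp {D : TD P Q E K} {G H : Type} [Group G] [Group H] (S : TSy D G)
    (S' : TSy D H) (F : G →* H) : Prop where
  be : ∀ p x, F (S.be p x) = S'.be p x
  al : ∀ q v, F (S.al q v) = S'.al q v
  y : ∀ e, F (S.y e) = S'.y e

/-- `G` is the fundamental group of the data (with respect to a spanning tree) -/
structure TPi {D : TD P Q E K} {G : Type} [Group G] (S : TSy D G) (p0 : P) (ep : P → E)
    (ef : Q → E) : Prop where
  nor : S.Nor p0 ep ef
  gen : S.Gen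
  univ : ∀ (H : Type) [Group H] (S' : TSy D H), S'.Nor p0 ep ef → ∃ F : G →* H, S.Comp S' F

/-- The data are realised by the action of `G` on `T` -/
structure TRz (D : TD P Q E K) (G : Type) [Group G] {V : Type} [MulAction G V]
    (T : SimpleGraph V) (Fl : Set V) (S : TSy D G) (vp : P → V) (fq : Q → V) : Prop where
  vpN : ∀ p, vp p ∉ Fl
  fqF : ∀ q, fq q ∈ Fl
  beI : ∀ p, Function.Injective (S.be p)
  stp : ∀ p (g : G), g • vp p = vp p ↔ ∃ x, S.be p x = g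
  stq : ∀ q (g : G), g • fq q = fq q ↔ ∃ v, S.al q v = g
  orp : ∀ v, v ∉ Fl → ∃ p, ∃ g : G, g • vp p = v
  orq : ∀ v ∈ Fl, ∃ q, ∃ g : G, g • fq q = v
  unp : ∀ p p' (g : G), g • vp p = vp p' → p = p'
  unq : ∀ q q' (g : G), g • fq q = fq q' → q = q'
  adj : ∀ q v, T.Adj (fq q) v ↔ ∃ e, D.fl e = q ∧ S.y e • vp (D.pc e) = v
  une : ∀ e e', D.fl e = D.fl e' → S.y e • vp (D.pc e) = S.y e' • vp (D.pc e') → e = e'

/-- Equivalence of data in terms of groups. -/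
structure TEq {P' Q' E' : Type} {K' : P' → Type} [∀ p, Group (K' p)] (D : TD P Q E K)
    (D' : TD P' Q' E' K') (sp : P ≃ P') (sf : Q ≃ Q') (se : E ≃ E') : Prop where
  pc : ∀ e, D'.pc (se e) = sp (D.pc e)
  fl : ∀ e, D'.fl (se e) = sf (D.fl e)
  ex : ∃ (Φ : ∀ p, K p ≃* K' (sp p)) (Ψ : Q → A2 ≃* A2) (κ : ∀ p, E → K p), ∀ p e v, D.pc e = p →
      D'.em (sp p) (se e) (Ψ (D.fl e) v) = Φ p (κ p e) * Φ p (D.em p e v) * (Φ p (κ p e))⁻¹

/-- The problem for one piece: an isomorphism with prescribed values up to conjugation -/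
def PPb {E K K' : Type} [Group K] [Group K'] (I : E → Prop) (h b : E → K) (h' b' : E → K')
    (sg dg : E → ℤˣ) (ta : E → ℤ) : Prop :=
  ∃ θ : K ≃* K', ∀ e, I e → ∃ g : K',
    θ (h e) = g * (h' e ^ ((dg e * sg e : ℤˣ) : ℤ) * b' e ^ ta e) * g⁻¹ ∧
    θ (b e) = g * b' e ^ ((sg e : ℤˣ) : ℤ) * g⁻¹

/-- Equivalence of data in terms of numbers and of the problems for the pieces -/
structure TNum {P' Q' E' : Type} {K' : P' → Type} [∀ p, Group (K' p)] (D : TD P Q E K)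
    (D' : TD P' Q' E' K') (sp : P ≃ P') (sf : Q ≃ Q') (se : E ≃ E') (sg : E → ℤˣ)
    (de : Q → ℤˣ) (ta : E → ℤ) : Prop where
  pc : ∀ e, D'.pc (se e) = sp (D.pc e)
  fl : ∀ e, D'.fl (se e) = sf (D.fl e)
  del : ∀ e f, D.fl e = D.fl f → (de (D.fl e) : ℤ) * (sg e : ℤ) * dt (D.ze e) (D.ze f) =
    (sg f : ℤ) * dt (D'.ze (se e)) (D'.ze (se f))
  tau : ∀ e f, D.fl e = D.fl f → e ≠ f → dt (D.ze e) (D.ze f) * ta e =
      (sg e : ℤ) * dt (D.om e) (D.ze f) - (sg f : ℤ) * dt (D'.om (se e)) (D'.ze (se f))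
  pp : ∀ p, PPb (fun e => D.pc e = p) (D.h p) (D.b p) (fun e => D'.h (sp p) (se e))
    (fun e => D'.b (sp p) (se e)) sg (fun e => de (D.fl e)) ta

end

end VF
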